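import Pool.Agent.Work.MP_dd0bbc_gt.Defs

/-! Flat vector bundles, in a form that prints briefly. -/

set_option autoImplicit false
open scoped Manifold ContDiff
open Bundle

namespace Pool.Agent.Work.MP_dd0bbc_gt

/-- The bundle `E` with fibre `V` has a covering family of linear local trivialisations whose
transition maps are locally constant. -/
def FlatBundle (V : Type) [NormedAddCommGroup V] [NormedSpace ℝ V] {M : Type} [TopologicalSpace M]
    (E : M → Type) [∀ x, AddCommMonoid (E x)] [∀ x, Module ℝ (E x)]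
    [TopologicalSpace (TotalSpace V E)] : Prop :=
  ∃ (ι : Type) (e : ι → Trivialization V (π V E)),
    (∀ i, (e i).IsLinear ℝ) ∧ (∀ x : M, ∃ i, x ∈ (e i).baseSet) ∧
    ∀ i j, ∀ x ∈ (e i).baseSet ∩ (e j).baseSet, ∀ᶠ y in nhds x, ∀ v : V,
      Trivialization.coordChange (e i) (e j) y v = Trivialization.coordChange (e i) (e j) x v

/-- The tangent bundle of the smooth manifold `M` modelled on `V` is flat. -/
def FlatTangent (V : Type) [NormedAddCommGroup V] [NormedSpace ℝ V] (M : Type)
    [TopologicalSpace M] [ChartedSpace V M] [IsManifold 𝓘(ℝ, V) ∞ M] : Prop :=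
  FlatBundle V (TangentSpace 𝓘(ℝ, V) : M → Type)

theorem flatTangent_iff (n : ℕ) (M : Type) [TopologicalSpace M]
    [ChartedSpace (EuclideanSpace ℝ (Fin n)) M] [IsManifold (𝓡 n) ∞ M] :
    FlatTangent (EuclideanSpace ℝ (Fin n)) M ↔ TangentiallyFlat n M := Iff.rfl

end Pool.Agent.Work.MP_dd0bbc_gt
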