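import Mathlib

/-! Definitions used in the statement. -/

set_option autoImplicit false
open scoped Manifold ContDiff
open Bundle

namespace Pool.Agent.Work.MP_dd0bbc_gt

/-- The `k`-th rational Betti number: dimension of singular homology with coefficients in `ℚ`. -/
noncomputable def betti (X : Type) [TopologicalSpace X] (k : ℕ) : ℕ :=
  Module.finrank ℚ
    (((AlgebraicTopology.singularHomologyFunctor (ModuleCat.{0} ℚ) k).obj
      (ModuleCat.of ℚ ℚ)).obj (TopCat.of X))

/-- The tangent bundle has a linear atlas with locally constant transition maps. -/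
def TangentiallyFlat (n : ℕ) (M : Type) [TopologicalSpace M]
    [ChartedSpace (EuclideanSpace ℝ (Fin n)) M] [IsManifold (𝓡 n) ∞ M] : Prop :=
  ∃ (ι : Type)
    (e : ι → Trivialization (EuclideanSpace ℝ (Fin n))
      (π (EuclideanSpace ℝ (Fin n)) (TangentSpace (𝓡 n) : M → Type))),
    (∀ i, (e i).IsLinear ℝ) ∧
    (∀ x : M, ∃ i, x ∈ (e i).baseSet) ∧
    (∀ i j, ∀ x ∈ (e i).baseSet ∩ (e j).baseSet,
      ∀ᶠ y in nhds x, ∀ v : EuclideanSpace ℝ (Fin n),
        Trivialization.coordChange (e i) (e j) y v =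
          Trivialization.coordChange (e i) (e j) x v)

/-- Above every finite covering of `M` there are finite coverings whose rational Betti numbers
in the degrees `k ≤ 2 m`, `k ≠ m` are at most `ε` times the number of sheets. -/
def SmallOffMiddle (m : ℕ) (M : Type) [TopologicalSpace M] : Prop :=
  ∀ (M₀ : Type) [TopologicalSpace M₀] (p : M₀ → M), IsCoveringMap p → Function.Surjective p →
    (∀ x, (p ⁻¹' {x}).Finite) → ∀ ε : ℝ, 0 < ε →
      ∃ (M₁ : Type) (_ : TopologicalSpace M₁) (q : M₁ → M₀) (d : ℕ), 0 < d ∧ Continuous q ∧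
        IsCoveringMap (p ∘ q) ∧ (∀ x, ((p ∘ q) ⁻¹' {x}).ncard = d) ∧
        ∀ k, k ≤ 2 * m → k ≠ m → (betti M₁ k : ℝ) ≤ ε * d

end Pool.Agent.Work.MP_dd0bbc_gt
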