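import Pool.Agent.Work.MP_dd0bbc_gt.Weights

-- merged part: Pool.Agent.Work.MP_dd0bbc_gt.DelCmp
section
-- merged part: Pool.Agent.Work.MP_dd0bbc_gt.Model
section
/-! The linear model of a power diagram: thickness and exact centres. -/

set_option autoImplicit false

namespace Pool.Agent.Work.MP_dd0bbc_gt

open Finset
open scoped RealInnerProductSpace

/-- Affine functions `c j - ⟪g j, u⟫`, `j ∈ J`, with a bounded cell at `a` and a gap. -/
structure Model (n : ℕ) (Y : Type) where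
  J : Finset Y
  a : Y
  g : Y → EuclideanSpace ℝ (Fin n)
  c : Y → ℝ
  γ : ℝ
  R : ℝ
  G : ℝ
  a_mem : a ∈ J
  g_a : g a = 0
  γ_pos : 0 < γ
  R_pos : 0 < R
  g_le : ∀ j ∈ J, ‖g j‖ ≤ G
  bdd : ∀ u, (∀ j ∈ J, c a ≤ c j - ⟪g j, u⟫ + γ) → ‖u‖ ≤ R
  gap : ∀ θ : Finset Y, θ ⊆ J → θ.card = n + 2 → ∀ (u : EuclideanSpace ℝ (Fin n)) (μ : ℝ),
    ∃ j ∈ θ, γ < |c j - ⟪g j, u⟫ - μ|

namespace Model

variable {n : ℕ} {Y : Type} [DecidableEq Y] (m : Model n Y)

/-- The affine functions. -/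
noncomputable def ψ (j : Y) (u : EuclideanSpace ℝ (Fin n)) : ℝ := m.c j - ⟪m.g j, u⟫

/-- All members of `S` are minimal at `u` up to `η`. -/
def Near (S : Finset Y) (η : ℝ) (u : EuclideanSpace ℝ (Fin n)) : Prop :=
  ∀ j ∈ S, ∀ k ∈ m.J, m.ψ j u ≤ m.ψ k u + η

theorem ψ_a (u : EuclideanSpace ℝ (Fin n)) : m.ψ m.a u = m.c m.a := by
  simp [ψ, m.g_a]

theorem ψ_add (j : Y) (u v : EuclideanSpace ℝ (Fin n)) :
    m.ψ j (u + v) = m.ψ j u - ⟪m.g j, v⟫ := by
  simp only [ψ, inner_add_right]; ring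

theorem card_le {S : Finset Y} (hS : S ⊆ m.J) {η : ℝ} (hη : η ≤ m.γ)
    {u : EuclideanSpace ℝ (Fin n)} (h : m.Near S η u) : S.card ≤ n + 1 := by
  by_contra hc
  obtain ⟨θ, hθ, hcard⟩ := exists_subset_card_eq (s := S) (n := n + 2) (by omega)
  obtain ⟨j0, hj0⟩ : θ.Nonempty := card_pos.1 (by omega)
  obtain ⟨j, hj, hlt⟩ := m.gap θ (hθ.trans hS) hcard u (m.ψ j0 u)
  have h1 := h j (hθ hj) j0 (hS (hθ hj0))
  have h2 := h j0 (hθ hj0) j (hS (hθ hj))
  have h3 : |m.ψ j u - m.ψ j0 u| ≤ m.γ := abs_le.2 ⟨by linarith only [hη, h2], by linarith only [hη, h1]⟩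
  exact absurd hlt (not_lt.2 h3)

omit [DecidableEq Y] in
theorem exists_unit_perp (T : Finset Y) (hT : T.card < n) (g : Y → EuclideanSpace ℝ (Fin n)) :
    ∃ d : EuclideanSpace ℝ (Fin n), ‖d‖ = 1 ∧ ∀ j ∈ T, ⟪g j, d⟫ = 0 := by
  let f : EuclideanSpace ℝ (Fin n) →ₗ[ℝ] (T → ℝ) := LinearMap.pi (fun j => innerₗ _ (g j))
  have hk : LinearMap.ker f ≠ ⊥ := LinearMap.ker_ne_bot_of_finrank_lt (by simpa using hT)
  obtain ⟨v, hv, hv0⟩ := Submodule.exists_mem_ne_zero_of_ne_bot hk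
  refine ⟨‖v‖⁻¹ • v, ?_, fun j hj => ?_⟩
  · rw [norm_smul, norm_inv, norm_norm, inv_mul_cancel₀ (norm_ne_zero_iff.2 hv0)]
  · have := congrFun (LinearMap.mem_ker.1 hv) ⟨j, hj⟩
    have h1 : ⟪g j, v⟫ = 0 := by simpa [f] using this
    rw [inner_smul_right, h1, mul_zero]

theorem thick {S : Finset Y} (hS : S ⊆ m.J) (ha : m.a ∈ S) {η : ℝ} (hη : η ≤ m.γ / 2)
    {u : EuclideanSpace ℝ (Fin n)} (h : m.Near S η u) (l : Y → ℝ) :
    ∀ i ∈ S.erase m.a, m.γ / (12 * m.R) * |l i| ≤ ‖∑ j ∈ S.erase m.a, l j • m.g j‖ := by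
  intro i hi
  by_contra hc
  push Not at hc
  have hγ := m.γ_pos
  have hR := m.R_pos
  have hiS : i ∈ S := mem_of_mem_erase hi
  have hia : i ≠ m.a := ne_of_mem_erase hi
  have hη0 : 0 ≤ η := by have := h m.a ha m.a m.a_mem; linarith only [this]
  have hlow : ∀ k ∈ m.J, m.c m.a - η ≤ m.ψ k u := fun k hk => by
    have := h m.a ha k hk; rw [ψ_a] at this; linarith only [this]
  have hup : ∀ j ∈ S, m.ψ j u ≤ m.c m.a + η := fun j hj => by
    have := h j hj m.a m.a_mem; rwa [ψ_a] at this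
  have hu : ‖u‖ ≤ m.R := m.bdd u (fun k hk => by
    have := hlow k hk; simp only [ψ] at this; linarith only [hη, hγ, this])
  have hli : 0 < |l i| := by
    by_contra h0
    have h1 : |l i| = 0 := le_antisymm (not_lt.1 h0) (abs_nonneg _)
    rw [h1, mul_zero] at hc
    exact absurd hc (not_lt.2 (norm_nonneg _))
  have hgi : ∀ v : EuclideanSpace ℝ (Fin n), (∀ j ∈ S.erase i, ⟪m.g j, v⟫ = 0) →
      |⟪m.g i, v⟫| ≤ m.γ / (12 * m.R) * ‖v‖ := by
    intro v hv
    have h1 : ⟪∑ j ∈ S.erase m.a, l j • m.g j, v⟫ = l i * ⟪m.g i, v⟫ := by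
      rw [sum_inner, sum_eq_single_of_mem i hi]
      · rw [real_inner_smul_left]
      · intro j hj hji
        rw [real_inner_smul_left, hv j (mem_erase.2 ⟨hji, mem_of_mem_erase hj⟩), mul_zero]
    have h2 := abs_real_inner_le_norm (∑ j ∈ S.erase m.a, l j • m.g j) v
    rw [h1, abs_mul] at h2
    have h3 : |l i| * |⟪m.g i, v⟫| ≤ |l i| * (m.γ / (12 * m.R) * ‖v‖) := by
      refine h2.trans ?_
      have := mul_le_mul_of_nonneg_right hc.le (norm_nonneg v)
      linarith only [this]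
    exact le_of_mul_le_mul_left h3 hli
  have hψi : ∀ w : EuclideanSpace ℝ (Fin n), (∀ j ∈ S.erase i, ⟪m.g j, w - u⟫ = 0) →
      ‖w‖ ≤ 4 * m.R → |m.ψ i w - m.c m.a| ≤ m.γ := by
    intro w hw hw'
    have h1 := hgi (w - u) hw
    have h2 : ‖w - u‖ ≤ 5 * m.R := (norm_sub_le _ _).trans (by linarith only [hu, hw'])
    have h3 : m.γ / (12 * m.R) * ‖w - u‖ ≤ 5 * m.γ / 12 := by
      calc _ ≤ m.γ / (12 * m.R) * (5 * m.R) := by gcongr
        _ = _ := by field_simp
    have h4 : m.ψ i w = m.ψ i u - ⟪m.g i, w - u⟫ := by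
      rw [← ψ_add]; congr 1; abel
    have h5 := abs_le.1 (h1.trans h3)
    have h6 := hlow i (hS hiS)
    have h7 := hup i hiS
    rw [h4]
    exact abs_le.2 ⟨by linarith only [hη, hγ, h5, h6, h5.2], by linarith only [hη, hγ, h5, h7, h5.1]⟩
  have key : ∀ k : ℕ, ∀ (A : Finset Y) (w : EuclideanSpace ℝ (Fin n)), n + 1 ≤ A.card + k →
      S.erase i ⊆ A → A ⊆ m.J → i ∉ A → ‖w‖ ≤ m.R → (∀ j ∈ A, m.ψ j w ≤ m.c m.a + η) →
      (∀ j ∈ m.J, j ≠ i → m.c m.a - η ≤ m.ψ j w) → (∀ j ∈ S.erase i, ⟪m.g j, w - u⟫ = 0) →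
      False := by
    have base : ∀ (A : Finset Y) (w : EuclideanSpace ℝ (Fin n)), n + 1 ≤ A.card →
        A ⊆ m.J → i ∉ A → ‖w‖ ≤ m.R → (∀ j ∈ A, m.ψ j w ≤ m.c m.a + η) →
        (∀ j ∈ m.J, j ≠ i → m.c m.a - η ≤ m.ψ j w) → (∀ j ∈ S.erase i, ⟪m.g j, w - u⟫ = 0) →
        False := by
      intro A w h1 h3 h4 h5 h6 h7 h8
      obtain ⟨θ, hθ, hcard⟩ := exists_subset_card_eq (s := A) (n := n + 1) h1
      have hiθ : i ∉ θ := fun hh => h4 (hθ hh)
      obtain ⟨j, hj, hlt⟩ := m.gap (insert i θ) (insert_subset (hS hiS) (hθ.trans h3))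
        (by rw [card_insert_of_notMem hiθ, hcard]) w (m.c m.a)
      refine absurd hlt (not_lt.2 ?_)
      change |m.ψ j w - m.c m.a| ≤ m.γ
      rcases mem_insert.1 hj with rfl | hj
      · exact hψi w h8 (by linarith only [hR, h5])
      · have h9 := h6 j (hθ hj)
        have h10 := h7 j (h3 (hθ hj)) (fun hh => hiθ (hh ▸ hj))
        exact abs_le.2 ⟨by linarith only [hη, hγ, h10], by linarith only [hη, hγ, h9]⟩
    intro k
    induction k with
    | zero => intro A w h1 _ h3 h4 h5 h6 h7 h8; exact base A w (by omega) h3 h4 h5 h6 h7 h8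
    | succ k ih =>
      intro A w h1 h2 h3 h4 h5 h6 h7 h8
      by_cases hA : n + 1 ≤ A.card
      · exact base A w hA h3 h4 h5 h6 h7 h8
      have haA : m.a ∈ A := h2 (mem_erase.2 ⟨hia.symm, ha⟩)
      obtain ⟨d, hd1, hd⟩ := exists_unit_perp (A.erase m.a)
        (by rw [card_erase_of_mem haA]; have := card_pos.2 ⟨_, haA⟩; omega) m.g
      have hdA : ∀ j ∈ A, ⟪m.g j, d⟫ = 0 := by
        intro j hj
        by_cases hja : j = m.a
        · rw [hja, m.g_a, inner_zero_left]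
        · exact hd j (mem_erase.2 ⟨hja, hj⟩)
      have hψt : ∀ (j : Y) (t : ℝ), m.ψ j (w + t • d) = m.ψ j w - t * ⟪m.g j, d⟫ := by
        intro j t; rw [ψ_add, real_inner_smul_right]
      have hperp : ∀ t : ℝ, ∀ j ∈ S.erase i, ⟪m.g j, w + t • d - u⟫ = 0 := by
        intro t j hj
        have : w + t • d - u = (w - u) + t • d := by abel
        rw [this, inner_add_right, h8 j hj, real_inner_smul_right, hdA j (h2 hj)]
        ring
      have hnorm : ∀ t : ℝ, 0 ≤ t → t ≤ 3 * m.R → ‖w + t • d‖ ≤ 4 * m.R := by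
        intro t ht ht'
        refine (norm_add_le _ _).trans ?_
        rw [norm_smul, hd1, Real.norm_eq_abs, abs_of_nonneg ht]
        linarith only [h5, ht']
      have hbdd : ∀ t : ℝ, 0 ≤ t → t ≤ 3 * m.R →
          (∀ j ∈ m.J, j ≠ i → m.c m.a - η ≤ m.ψ j (w + t • d)) → ‖w + t • d‖ ≤ m.R := by
        intro t ht ht' hh
        refine m.bdd _ (fun j hj => ?_)
        change m.c m.a ≤ m.ψ j (w + t • d) + m.γ
        by_cases hji : j = i
        · have := abs_le.1 (hψi _ (hperp t) (hnorm t ht ht'))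
          rw [hji]; linarith only [this, this.1]
        · have := hh j hj hji
          linarith only [hη, hγ, this]
      set K := m.J.filter (fun j => j ≠ i ∧ m.ψ j (w + (3 * m.R) • d) < m.c m.a - η) with hK
      have hKne : K.Nonempty := by
        by_contra h0
        rw [not_nonempty_iff_eq_empty] at h0
        have h9 := hbdd (3 * m.R) (by linarith only [hR]) le_rfl (fun j hj hji => by
          by_contra h10
          have : j ∈ K := mem_filter.2 ⟨hj, hji, not_le.1 h10⟩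
          rw [h0] at this
          exact notMem_empty _ this)
        have h10 : ‖(3 * m.R) • d‖ ≤ ‖w + (3 * m.R) • d‖ + ‖w‖ := by
          have : (3 * m.R) • d = (w + (3 * m.R) • d) - w := by abel
          calc _ = ‖(w + (3 * m.R) • d) - w‖ := by rw [← this]
            _ ≤ _ := norm_sub_le _ _
        rw [norm_smul, hd1, Real.norm_eq_abs, abs_of_pos (by linarith only [hR])] at h10
        linarith only [hR, h5, h9, h10]
      have hKs : ∀ j ∈ K, 0 < ⟪m.g j, d⟫ ∧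
          m.ψ j w - (m.c m.a - η) < 3 * m.R * ⟪m.g j, d⟫ ∧ 0 ≤ m.ψ j w - (m.c m.a - η) := by
        intro j hj
        obtain ⟨hj1, hj2, hj3⟩ := mem_filter.1 hj
        rw [hψt] at hj3
        have h9 := h7 j hj1 hj2
        have h10 : 0 < 3 * m.R * ⟪m.g j, d⟫ := by linarith only [hj3, h9]
        exact ⟨(mul_pos_iff_of_pos_left (by linarith only [hR] : 0 < 3 * m.R)).1 h10, by linarith only [hj3], by linarith only [h9]⟩
      obtain ⟨k0, hk0, hmin⟩ := exists_min_image K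
        (fun j => (m.ψ j w - (m.c m.a - η)) / ⟪m.g j, d⟫) hKne
      set t := (m.ψ k0 w - (m.c m.a - η)) / ⟪m.g k0, d⟫ with ht
      obtain ⟨s0, s1, s2⟩ := hKs k0 hk0
      have ht0 : 0 ≤ t := div_nonneg s2 s0.le
      have ht1 : t ≤ 3 * m.R := by rw [ht, div_le_iff₀ s0]; exact s1.le
      have htk : m.ψ k0 (w + t • d) = m.c m.a - η := by
        rw [hψt, ht, div_mul_cancel₀ _ s0.ne']; ring
      have hall : ∀ j ∈ m.J, j ≠ i → m.c m.a - η ≤ m.ψ j (w + t • d) := by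
        intro j hj hji
        rw [hψt]
        by_cases hjK : j ∈ K
        · obtain ⟨r0, -, -⟩ := hKs j hjK
          have h9 := hmin j hjK
          rw [le_div_iff₀ r0] at h9
          linarith only [h9]
        · have h9 : m.c m.a - η ≤ m.ψ j (w + (3 * m.R) • d) := by
            by_contra h10
            exact hjK (mem_filter.2 ⟨hj, hji, not_le.1 h10⟩)
          rw [hψt] at h9
          have h10 := h7 j hj hji
          rcases le_total 0 ⟪m.g j, d⟫ with h11 | h11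
          · have := mul_le_mul_of_nonneg_right ht1 h11
            linarith only [h9, this]
          · have := mul_nonpos_of_nonneg_of_nonpos ht0 h11
            linarith only [h10, this]
      obtain ⟨hk1, hk2, hk3⟩ := mem_filter.1 hk0
      have hkA : k0 ∉ A := fun hh => by
        rw [hdA k0 hh] at s0; exact lt_irrefl _ s0
      refine ih (insert k0 A) (w + t • d) (by rw [card_insert_of_notMem hkA]; omega)
        (h2.trans (subset_insert _ _)) (insert_subset hk1 h3) ?_ (hbdd t ht0 ht1 hall) ?_ hall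
        (hperp t)
      · rw [mem_insert, not_or]; exact ⟨hk2.symm, h4⟩
      · intro j hj
        rcases mem_insert.1 hj with rfl | hj
        · rw [htk]; linarith only [hη0]
        · rw [hψt, hdA j hj, mul_zero, sub_zero]; exact h6 j hj
  exact key (n + 1) (S.erase i) u (by omega) Subset.rfl ((erase_subset _ _).trans hS)
    (notMem_erase _ _) hu (fun j hj => hup j (mem_of_mem_erase hj)) (fun j hj _ => hlow j hj)
    (fun j _ => by simp)

theorem exists_shift {S : Finset Y} (hS : S ⊆ m.J) (ha : m.a ∈ S) {η : ℝ} (h0 : 0 ≤ η)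
    (hη : η ≤ m.γ / 2) {u : EuclideanSpace ℝ (Fin n)} (h : m.Near S η u) :
    ∃ d : EuclideanSpace ℝ (Fin n), ‖d‖ ≤ 12 * n * m.R * η / m.γ ∧
      ∀ j ∈ S, m.ψ j (u + d) = m.c m.a := by
  have hγ := m.γ_pos
  have hR := m.R_pos
  set T := S.erase m.a with hT
  have hcard : T.card ≤ n := by
    have := m.card_le hS (by linarith only [hη, hγ]) h
    rw [hT, card_erase_of_mem ha]; omega
  have hth : ∀ (μ : T → ℝ) (i : T), m.γ / (12 * m.R) * |μ i| ≤ ‖∑ j : T, μ j • m.g j‖ := by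
    intro μ i
    have h1 := m.thick hS ha hη h (fun j => if hj : j ∈ T then μ ⟨j, hj⟩ else 0) i i.2
    rw [← hT, ← sum_coe_sort T] at h1
    simpa only [coe_mem, dif_pos, Subtype.coe_eta] using h1
  let L : (T → ℝ) →ₗ[ℝ] EuclideanSpace ℝ (Fin n) := Fintype.linearCombination ℝ (fun j : T => m.g j)
  have hL : ∀ μ, L μ = ∑ j : T, μ j • m.g j := fun μ => Fintype.linearCombination_apply _ _ _
  let f : EuclideanSpace ℝ (Fin n) →ₗ[ℝ] (T → ℝ) := LinearMap.pi (fun j => innerₗ _ (m.g j))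
  have hf : ∀ v (j : T), f v j = ⟪m.g j, v⟫ := fun v j => by simp [f]
  have hsq : ∀ μ, ‖L μ‖ ^ 2 = ∑ j : T, μ j * f (L μ) j := by
    intro μ
    rw [← real_inner_self_eq_norm_sq]
    conv_lhs => rw [hL, sum_inner, ← hL]
    exact sum_congr rfl (fun j _ => by rw [real_inner_smul_left, hf])
  have hinj : Function.Injective (f ∘ₗ L) := by
    rw [← LinearMap.ker_eq_bot, LinearMap.ker_eq_bot']
    intro μ hμ
    have h1 : f (L μ) = 0 := hμ
    have h2 : ‖L μ‖ = 0 := by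
      have := hsq μ
      rw [h1] at this
      simpa using this
    funext i
    have h3 := hth μ i
    rw [← hL, h2] at h3
    have h4 : 0 < m.γ / (12 * m.R) := by positivity
    have h5 : |μ i| ≤ 0 := by
      by_contra h6
      have := mul_pos h4 (not_le.1 h6)
      linarith only [h3, this]
    simpa using h5
  obtain ⟨μ, hμ⟩ := (LinearMap.injective_iff_surjective.1 hinj)
    (fun j : T => m.ψ j u - m.c m.a)
  have hμ' : ∀ j : T, f (L μ) j = m.ψ j u - m.c m.a := fun j => congrFun hμ j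
  refine ⟨L μ, ?_, fun j hj => ?_⟩
  · have h1 : ∀ j : T, μ j * f (L μ) j ≤ 12 * m.R / m.γ * ‖L μ‖ * η := by
      intro j
      have h2 := hth μ j
      rw [← hL] at h2
      have h3 : |μ j| ≤ 12 * m.R / m.γ * ‖L μ‖ := by
        rw [div_mul_eq_mul_div, div_le_iff₀ (by positivity)] at h2
        rw [div_mul_eq_mul_div, le_div_iff₀ hγ]
        linarith only [h2]
      have hjS : (j : Y) ∈ S := mem_of_mem_erase j.2
      have h4 := h j hjS m.a m.a_mem
      have h5 := h m.a ha j (hS hjS)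
      rw [ψ_a] at h4 h5
      have h6 : |f (L μ) j| ≤ η := by
        rw [hμ']; exact abs_le.2 ⟨by linarith only [h5], by linarith only [h4]⟩
      calc _ ≤ |μ j * f (L μ) j| := le_abs_self _
        _ = |μ j| * |f (L μ) j| := abs_mul _ _
        _ ≤ _ := mul_le_mul h3 h6 (abs_nonneg _) (by positivity)
    have h2 : ‖L μ‖ ^ 2 ≤ n * (12 * m.R / m.γ * ‖L μ‖ * η) := by
      rw [hsq]
      calc _ ≤ ∑ _j : T, 12 * m.R / m.γ * ‖L μ‖ * η := sum_le_sum (fun j _ => h1 j)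
        _ = T.card * (12 * m.R / m.γ * ‖L μ‖ * η) := by simp
        _ ≤ _ := by
          have : (T.card : ℝ) ≤ n := by exact_mod_cast hcard
          gcongr
    rcases (norm_nonneg (L μ)).eq_or_lt with h3 | h3
    · rw [← h3]; positivity
    · have h4 : ‖L μ‖ * ‖L μ‖ ≤ ‖L μ‖ * (12 * n * m.R * η / m.γ) := by
        calc _ = ‖L μ‖ ^ 2 := by ring
          _ ≤ _ := h2
          _ = _ := by ring
      exact le_of_mul_le_mul_left h4 h3
  · by_cases hja : j = m.a
    · rw [hja, ψ_a]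
    · have h1 := hμ' ⟨j, mem_erase.2 ⟨hja, hj⟩⟩
      rw [hf] at h1
      rw [ψ_add, h1]; ring

theorem exact {S : Finset Y} (hS : S ⊆ m.J) (ha : m.a ∈ S) {η : ℝ} (h0 : 0 ≤ η)
    (hη : η * (1 + 12 * n * m.G * m.R / m.γ) ^ (n + 1) ≤ m.γ / 2)
    {u : EuclideanSpace ℝ (Fin n)} (h : m.Near S η u) : ∃ u', m.Near S 0 u' := by
  have hγ := m.γ_pos
  have hR := m.R_pos
  have hG : 0 ≤ m.G := (norm_nonneg _).trans (m.g_le _ m.a_mem)
  set Λ := 1 + 12 * n * m.G * m.R / m.γ with hΛ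
  have hΛ1 : 1 ≤ Λ := by
    have : 0 ≤ 12 * n * m.G * m.R / m.γ := by positivity
    linarith only [this]
  have key : ∀ k : ℕ, ∀ (S : Finset Y) (η : ℝ) (u : EuclideanSpace ℝ (Fin n)),
      n + 2 ≤ S.card + k → S ⊆ m.J → m.a ∈ S → 0 ≤ η → η * Λ ^ k ≤ m.γ / 2 → m.Near S η u →
      ∃ u', m.Near S 0 u' := by
    intro k
    induction k with
    | zero =>
      intro S η u h1 hS _ _ hη h
      have := m.card_le hS (η := η) (by rw [pow_zero, mul_one] at hη; linarith only [hγ, hη]) h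
      omega
    | succ k ih =>
      intro S η u h1 hS ha h0 hη h
      have hη' : η ≤ m.γ / 2 :=
        (le_mul_of_one_le_right h0 (one_le_pow₀ hΛ1)).trans hη
      obtain ⟨d, hd, hψ⟩ := m.exists_shift hS ha h0 hη' h
      by_cases hall : ∀ j ∈ m.J, m.c m.a ≤ m.ψ j (u + d)
      · exact ⟨u + d, fun j hj i hi => by rw [hψ j hj, add_zero]; exact hall i hi⟩
      push Not at hall
      obtain ⟨i, hi, hlt⟩ := hall
      have hiS : i ∉ S := fun hh => by rw [hψ i hh] at hlt; exact lt_irrefl _ hlt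
      have hlow : ∀ j ∈ m.J, m.c m.a ≤ m.ψ j (u + d) + η * Λ := by
        intro j hj
        have h2 := h m.a ha j hj
        rw [ψ_a] at h2
        have h3 : ⟪m.g j, d⟫ ≤ m.G * (12 * n * m.R * η / m.γ) :=
          (real_inner_le_norm _ _).trans (mul_le_mul (m.g_le j hj) hd (norm_nonneg _) hG)
        have h4 : η * Λ = η + m.G * (12 * n * m.R * η / m.γ) := by rw [hΛ]; ring
        rw [ψ_add, h4]; linarith only [h2, h3]
      obtain ⟨u', hu'⟩ := ih (insert i S) (η * Λ) (u + d)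
        (by rw [card_insert_of_notMem hiS]; omega) (insert_subset hi hS) (mem_insert_of_mem ha)
        (by positivity) (by rw [mul_assoc, ← pow_succ']; exact hη) (fun j hj i' hi' => by
          have h2 := hlow i' hi'
          rcases mem_insert.1 hj with rfl | hj
          · linarith only [h2, hlt]
          · rw [hψ j hj]; exact h2)
      exact ⟨u', fun j hj => hu' j (mem_insert_of_mem hj)⟩
  exact key (n + 1) S η u (by have := card_pos.2 ⟨_, ha⟩; omega) hS ha h0 hη h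

end Model

end Pool.Agent.Work.MP_dd0bbc_gt
end

-- merged part: Pool.Agent.Work.MP_dd0bbc_gt.DelDefs
section
/-! The setting of the weighted Delaunay cover at scale `ε`. -/

set_option autoImplicit false

namespace Pool.Agent.Work.MP_dd0bbc_gt

open Finset
open scoped RealInnerProductSpace

/-- Sites, weights and charts. -/
structure Del (n N : ℕ) (M Y : Type) [TopologicalSpace M] where
  e : M → EuclideanSpace ℝ (Fin N)
  s : Y → M
  w : Y → ℝ
  B : Y → EuclideanSpace ℝ (Fin n) →L[ℝ] EuclideanSpace ℝ (Fin N)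
  κ : Y → EuclideanSpace ℝ (Fin n) → M
  c : ℝ
  δ : ℝ
  r : ℝ
  ε : ℝ
  β : ℝ
  emb : Topology.IsEmbedding e
  c_pos : 0 < c
  δ_pos : 0 < δ
  ε_pos : 0 < ε
  β_pos : 0 < β
  β_le : β ≤ 1
  δ_le : 1000 * δ ≤ β * c
  ε_le : 10 * ε ≤ c * r
  B_ge : ∀ a u, c * ‖u‖ ≤ ‖B a u‖
  sep : ∀ i j, i ≠ j → ε ≤ dist (e (s i)) (e (s j))
  net : ∀ z, ∃ i, dist (e z) (e (s i)) < ε
  w_mem : ∀ y, 0 ≤ w y ∧ w y ≤ ε ^ 2 / 4
  κ_zero : ∀ a, κ a 0 = s a
  κ_lip : ∀ a u u', ‖u‖ < r → ‖u'‖ < r →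
    ‖e (κ a u) - e (κ a u') - B a (u - u')‖ ≤ δ * ‖u - u'‖
  κ_surj : ∀ a z, dist (e z) (e (s a)) < c * r / 2 → ∃ u, ‖u‖ < r ∧ κ a u = z

namespace Del

variable {n N : ℕ} {M Y : Type} [TopologicalSpace M] (D : Del n N M Y)

/-- The power function of a site. -/
noncomputable def φ (y : Y) (z : M) : ℝ := ‖D.e z - D.e (D.s y)‖ ^ 2 - D.w y

/-- The thickened cells. -/
def U (y : Y) : Set M := {z | ∀ y', D.φ y z - D.φ y' z < D.β * D.ε ^ 2}

open Classical in
/-- The sites near `a`. -/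
noncomputable def J [Fintype Y] (a : Y) : Finset Y :=
  univ.filter (fun j => dist (D.e (D.s j)) (D.e (D.s a)) < 6 * D.ε)

/-- Gradients of the linear model at `a`. -/
noncomputable def g (a j : Y) : EuclideanSpace ℝ (Fin n) :=
  (2 : ℝ) • (ContinuousLinearMap.adjoint (D.B a)) (D.e (D.s j) - D.e (D.s a))

/-- Constants of the linear model at `a`. -/
noncomputable def cst (a j : Y) : ℝ := ‖D.e (D.s j) - D.e (D.s a)‖ ^ 2 - D.w j

/-- The linear model at `a`. -/
noncomputable def ψ (a j : Y) (u : EuclideanSpace ℝ (Fin n)) : ℝ := D.cst a j - ⟪D.g a j, u⟫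

end Del

end Pool.Agent.Work.MP_dd0bbc_gt
end

-- merged part: Pool.Agent.Work.MP_dd0bbc_gt.DelCmp
section
/-! Comparison of the cover with the linear models. -/

set_option autoImplicit false

namespace Pool.Agent.Work.MP_dd0bbc_gt.Del

open Finset
open scoped RealInnerProductSpace

variable {n N : ℕ} {M Y : Type} [TopologicalSpace M] [Fintype Y] (D : Del n N M Y)

omit [Fintype Y] in
theorem cmp_ψ (a j : Y) (u : EuclideanSpace ℝ (Fin n)) :
    D.ψ a j u = D.cst a j - 2 * ⟪D.e (D.s j) - D.e (D.s a), D.B a u⟫ := by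
  rw [ψ, g, real_inner_smul_left, ContinuousLinearMap.adjoint_inner_left]

omit [Fintype Y] in
theorem cmp_φ (a j : Y) (z : M) : D.φ j z = ‖D.e z - D.e (D.s a)‖ ^ 2 + D.cst a j -
    2 * ⟪D.e (D.s j) - D.e (D.s a), D.e z - D.e (D.s a)⟫ := by
  have : D.e z - D.e (D.s j) = (D.e z - D.e (D.s a)) - (D.e (D.s j) - D.e (D.s a)) := by abel
  rw [φ, cst, this, norm_sub_sq_real (D.e z - D.e (D.s a)), real_inner_comm]
  ring

omit [Fintype Y] in
theorem cmp_err (a j k : Y) (z : M) (u : EuclideanSpace ℝ (Fin n)) :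
    D.φ j z - D.φ k z - (D.ψ a j u - D.ψ a k u) =
      -2 * ⟪D.e (D.s j) - D.e (D.s k), D.e z - D.e (D.s a) - D.B a u⟫ := by
  have : D.e (D.s j) - D.e (D.s k) =
      (D.e (D.s j) - D.e (D.s a)) - (D.e (D.s k) - D.e (D.s a)) := by abel
  rw [D.cmp_φ a j, D.cmp_φ a k, cmp_ψ, cmp_ψ, this, inner_sub_left (D.e (D.s j) - D.e (D.s a)),
    inner_sub_right _ (D.e z - D.e (D.s a)), inner_sub_right _ (D.e z - D.e (D.s a))]
  ring

omit [Fintype Y] in
theorem cmp_δ {x t : ℝ} (hx : 0 ≤ x) (h : D.c * x ≤ t * D.ε) :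
    D.δ * x ≤ t / 1000 * (D.β * D.ε) ∧ D.δ * x ≤ t / 1000 * D.ε := by
  have h1 := mul_le_mul_of_nonneg_right D.δ_le hx
  have h2 := mul_le_mul_of_nonneg_left h D.β_pos.le
  have h3 : 0 ≤ t * D.ε := (mul_nonneg D.c_pos.le hx).trans h
  have h4 := mul_le_mul_of_nonneg_right D.β_le h3
  constructor <;> nlinarith only [h1, h2, h4]

omit [Fintype Y] in
theorem cmp_r {x : ℝ} (h : D.c * x ≤ 3 * D.ε) : x < D.r := by
  have := D.ε_le
  have := D.ε_pos
  exact lt_of_mul_lt_mul_left (by linarith) D.c_pos.le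

omit [Fintype Y] in
theorem cmp_r_pos : 0 < D.r := D.cmp_r (by have := D.ε_pos; linarith only [this])

omit [Fintype Y] in
theorem cmp_κ (a : Y) {u : EuclideanSpace ℝ (Fin n)} (hu : ‖u‖ < D.r) :
    ‖D.e (D.κ a u) - D.e (D.s a) - D.B a u‖ ≤ D.δ * ‖u‖ := by
  simpa [D.κ_zero] using D.κ_lip a u 0 hu (by simpa using D.cmp_r_pos)

theorem cmp_J {a j : Y} : j ∈ D.J a ↔ dist (D.e (D.s j)) (D.e (D.s a)) < 6 * D.ε := by
  simp [J]

theorem cmp_J12 {a j k : Y} (hj : j ∈ D.J a) (hk : k ∈ D.J a) :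
    dist (D.e (D.s j)) (D.e (D.s k)) ≤ 12 * D.ε := by
  linarith [dist_triangle_right (D.e (D.s j)) (D.e (D.s k)) (D.e (D.s a)), D.cmp_J.1 hj,
    D.cmp_J.1 hk]

omit [Fintype Y] in
theorem cmp_φ_le (y : Y) {z : M} {t : ℝ} (h : dist (D.e z) (D.e (D.s y)) < t) :
    D.φ y z < t ^ 2 := by
  rw [dist_eq_norm] at h
  have := (D.w_mem y).1
  have h2 : ‖D.e z - D.e (D.s y)‖ ^ 2 < t ^ 2 := by gcongr
  unfold φ
  linarith

omit [Fintype Y] in
theorem cmp_φ_ge (y : Y) {z : M} {t : ℝ} (ht : 0 ≤ t) (h : t ≤ dist (D.e z) (D.e (D.s y))) :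
    t ^ 2 - D.ε ^ 2 / 4 ≤ D.φ y z := by
  rw [dist_eq_norm] at h
  have := (D.w_mem y).2
  have h2 : t ^ 2 ≤ ‖D.e z - D.e (D.s y)‖ ^ 2 := by gcongr
  unfold φ
  linarith only [this, h2]

omit [Fintype Y] in
theorem cmp_βε : 0 < D.β * D.ε ^ 2 ∧ D.β * D.ε ^ 2 ≤ D.ε ^ 2 := by
  have h1 := D.β_pos
  have h2 := D.ε_pos
  exact ⟨by positivity, mul_le_of_le_one_left (by positivity) D.β_le⟩

omit [Fintype Y] in
/-- points of the chart close to the site have small coordinates -/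
theorem cmp_small (a : Y) {u : EuclideanSpace ℝ (Fin n)} (hu : ‖u‖ < D.r)
    (h : dist (D.e (D.κ a u)) (D.e (D.s a)) < 3 / 2 * D.ε) :
    D.c * ‖u‖ ≤ 2 * D.ε ∧ ‖D.B a u‖ ≤ 2 * D.ε := by
  have h1 := D.cmp_κ a hu
  have h2 := D.B_ge a u
  have h3 := norm_sub_norm_le (D.B a u) (D.e (D.κ a u) - D.e (D.s a))
  rw [norm_sub_rev (D.B a u)] at h3
  rw [dist_eq_norm] at h
  have h4 := mul_le_mul_of_nonneg_right D.δ_le (norm_nonneg u)
  have h5 := mul_le_mul_of_nonneg_right D.β_le (mul_nonneg D.c_pos.le (norm_nonneg u))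
  have h6 := D.ε_pos
  constructor <;> nlinarith only [h, h1, h2, h3, h4, h5, h6]

theorem isOpen_U (y : Y) : IsOpen (D.U y) := by
  have hc : ∀ y, Continuous (D.φ y) := fun y => by
    have := D.emb.continuous
    unfold φ
    fun_prop
  rw [U, Set.ofPred_forall]
  exact isOpen_iInter_of_finite fun y' => isOpen_lt ((hc y).sub (hc y')) continuous_const

omit [Fintype Y] in
theorem self_mem (y : Y) : D.s y ∈ D.U y := by
  intro y'
  have h0 := D.cmp_βε.1
  by_cases h : y = y'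
  · rw [← h, sub_self]
    exact h0
  · have h1 := D.cmp_φ_ge y' D.ε_pos.le (D.sep y y' h)
    have h2 : D.φ y (D.s y) = -D.w y := by simp [φ]
    have h3 := (D.w_mem y).1
    have h4 := sq_nonneg D.ε
    linarith only [h0, h1, h2, h3, h4]

theorem cover (z : M) : ∃ y, z ∈ D.U y := by
  obtain ⟨i, -⟩ := D.net z
  have : Nonempty Y := ⟨i⟩
  obtain ⟨y, hy⟩ := Finite.exists_min fun y => D.φ y z
  exact ⟨y, fun y' => by linarith [hy y', D.cmp_βε.1]⟩

omit [Fintype Y] in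
theorem dist_lt {y : Y} {z : M} (h : z ∈ D.U y) : dist (D.e z) (D.e (D.s y)) < 3 / 2 * D.ε := by
  obtain ⟨i, hi⟩ := D.net z
  by_contra hc
  have h0 := D.ε_pos
  have h1 := D.cmp_φ_le i hi
  have h2 := D.cmp_φ_ge y (by positivity) (not_lt.1 hc)
  have h3 := h i
  have h4 := D.cmp_βε.2
  linarith only [h1, h2, h3, h4]

theorem bdd (a : Y) (u : EuclideanSpace ℝ (Fin n))
    (h : ∀ j ∈ D.J a, D.cst a a ≤ D.ψ a j u + D.ε ^ 2) : ‖D.B a u‖ < 3 * D.ε := by
  by_contra hc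
  have h0 := D.ε_pos
  have hB : 3 * D.ε ≤ ‖D.B a u‖ := not_lt.1 hc
  have hB0 : 0 < ‖D.B a u‖ := by linarith
  set t := 3 * D.ε / ‖D.B a u‖ with ht
  have ht0 : 0 < t := by positivity
  have ht1 : t ≤ 1 := (div_le_one hB0).2 hB
  have h1 : ‖D.B a (t • u)‖ = 3 * D.ε := by
    rw [map_smul, norm_smul, Real.norm_of_nonneg ht0.le, ht, div_mul_cancel₀ _ hB0.ne']
  have h2 : D.c * ‖t • u‖ ≤ 3 * D.ε := h1 ▸ D.B_ge a (t • u)
  have h3 := (D.cmp_κ a (D.cmp_r h2)).trans (D.cmp_δ (norm_nonneg _) h2).2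
  obtain ⟨j, hj⟩ := D.net (D.κ a (t • u))
  rw [dist_eq_norm, norm_sub_rev] at hj
  have h4 : ‖D.e (D.s j) - D.e (D.s a) - D.B a (t • u)‖ ≤ 101 / 100 * D.ε := by
    have : D.e (D.s j) - D.e (D.s a) - D.B a (t • u) = (D.e (D.s j) - D.e (D.κ a (t • u))) +
        (D.e (D.κ a (t • u)) - D.e (D.s a) - D.B a (t • u)) := by abel
    rw [this]
    exact (norm_add_le _ _).trans (by linarith only [h0, h3, hj])
  have h5 : j ∈ D.J a := by
    rw [D.cmp_J, dist_eq_norm]
    linarith only [h0, h1, h4, norm_sub_norm_le (D.e (D.s j) - D.e (D.s a)) (D.B a (t • u))]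
  have h6 := h j h5
  have h7 := norm_sub_sq_real (D.e (D.s j) - D.e (D.s a)) (D.B a (t • u))
  have h8 : ‖D.e (D.s j) - D.e (D.s a) - D.B a (t • u)‖ ^ 2 ≤ (101 / 100 * D.ε) ^ 2 := by gcongr
  rw [h1, map_smul, real_inner_smul_right, ← map_smul] at h7
  rw [cmp_ψ, cst, cst, sub_self, norm_zero] at h6
  have h9 := D.w_mem a
  have h10 := D.w_mem j
  have h11 := sq_nonneg ‖D.e (D.s j) - D.e (D.s a)‖
  have h12 : 0 < D.ε ^ 2 := by positivity
  generalize ⟪D.e (D.s j) - D.e (D.s a), D.B a u⟫ = p at *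
  have h13 : 0 ≤ t * p := by linarith only [h8, h11, h12, h7]
  have h14 : 0 ≤ p := nonneg_of_mul_nonneg_right h13 ht0
  have h15 : t * p ≤ p := mul_le_of_le_one_left h14 ht1
  linarith only [h8, h9, h10, h12, h6, h7, h15]

omit [Fintype Y] in
/-- The difference of two power functions in the chart, up to a small Lipschitz error. -/
theorem err_lip (a j k : Y) (hj : dist (D.e (D.s j)) (D.e (D.s k)) ≤ 12 * D.ε)
    {u u' : EuclideanSpace ℝ (Fin n)} (hu : ‖u‖ < D.r) (hu' : ‖u'‖ < D.r) :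
    |(D.φ j (D.κ a u) - D.φ k (D.κ a u) - (D.ψ a j u - D.ψ a k u)) -
      (D.φ j (D.κ a u') - D.φ k (D.κ a u') - (D.ψ a j u' - D.ψ a k u'))| ≤
        24 * D.δ * D.ε * ‖u - u'‖ := by
  have h1 : D.e (D.κ a u) - D.e (D.κ a u') - D.B a (u - u') =
      (D.e (D.κ a u) - D.e (D.s a) - D.B a u) - (D.e (D.κ a u') - D.e (D.s a) - D.B a u') := by
    rw [map_sub]
    abel
  rw [cmp_err, cmp_err, ← mul_sub, ← inner_sub_right, ← h1, abs_mul]
  rw [dist_eq_norm] at hj
  have h2 := (abs_real_inner_le_norm _ _).trans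
    (mul_le_mul hj (D.κ_lip a u u' hu hu') (norm_nonneg _) ((norm_nonneg _).trans hj))
  rw [show |(-2 : ℝ)| = 2 by norm_num]
  linarith

omit [Fintype Y] in
theorem err_zero (a j k : Y) :
    D.φ j (D.κ a 0) - D.φ k (D.κ a 0) - (D.ψ a j 0 - D.ψ a k 0) = 0 := by
  rw [cmp_err, D.κ_zero]
  simp

/-- Far sites never matter near `a`. -/
theorem mem_U_of_near (a y : Y) {z : M} (hz : dist (D.e z) (D.e (D.s a)) ≤ 31 / 10 * D.ε)
    (h : ∀ k ∈ D.J a, D.φ y z - D.φ k z < D.β * D.ε ^ 2) : z ∈ D.U y := by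
  intro y'
  by_cases hy : y' ∈ D.J a
  · exact h y' hy
  have h0 := D.ε_pos
  obtain ⟨i, hi⟩ := D.net z
  have h1 : i ∈ D.J a := by
    rw [D.cmp_J]
    linarith only [hz, h0, hi, dist_triangle_left (D.e (D.s i)) (D.e (D.s a)) (D.e z)]
  have h2 := D.cmp_φ_le i hi
  have h3 := D.cmp_φ_ge y' (z := z) (t := 2 * D.ε) (by positivity) (by
    rw [D.cmp_J, not_lt] at hy
    linarith [dist_triangle_left (D.e (D.s y')) (D.e (D.s a)) (D.e z)])
  have h4 := h i h1
  have h5 := sq_nonneg D.ε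
  linarith only [h2, h3, h4, h5]

omit [Fintype Y] in
theorem cmp_err_le (a j k : Y) (hj : dist (D.e (D.s j)) (D.e (D.s k)) ≤ 12 * D.ε)
    {u : EuclideanSpace ℝ (Fin n)} (hu : D.c * ‖u‖ ≤ 3 * D.ε) :
    |D.φ j (D.κ a u) - D.φ k (D.κ a u) - (D.ψ a j u - D.ψ a k u)| ≤
      1 / 10 * (D.β * D.ε ^ 2) := by
  have h1 := D.err_lip a j k hj (D.cmp_r hu) (u' := 0) (by simpa using D.cmp_r_pos)
  rw [err_zero, sub_zero, sub_zero] at h1
  have h2 := mul_le_mul_of_nonneg_left (D.cmp_δ (norm_nonneg _) hu).1 D.ε_pos.le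
  have h3 := D.cmp_βε.1
  linarith only [h1, h2, h3]

theorem near_of_mem {S : Finset Y} {a : Y} (ha : a ∈ S) (h : S ∈ nerve D.U) :
    S ⊆ D.J a ∧ ∃ u, ∀ j ∈ S, ∀ k ∈ D.J a, D.ψ a j u ≤ D.ψ a k u + 2 * D.β * D.ε ^ 2 := by
  obtain ⟨z, hz⟩ := mem_nerve.1 h
  have h0 := D.ε_pos
  have h1 := D.dist_lt (hz a ha)
  have hS : S ⊆ D.J a := fun j hj => by
    rw [D.cmp_J]
    linarith only [h0, h1, dist_triangle_left (D.e (D.s j)) (D.e (D.s a)) (D.e z), D.dist_lt (hz j hj)]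
  obtain ⟨u, hu, rfl⟩ := D.κ_surj a z (by linarith [D.ε_le])
  refine ⟨hS, u, fun j hj k hk => ?_⟩
  have h2 := D.cmp_err_le a j k (D.cmp_J12 (hS hj) hk) (u := u)
    (by linarith [(D.cmp_small a hu h1).1])
  linarith only [h2, (abs_le.1 h2).1, hz j hj k, D.cmp_βε.1]

theorem cmp_exact {S : Finset Y} {a : Y} (ha : a ∈ S) {u : EuclideanSpace ℝ (Fin n)}
    (h : ∀ j ∈ S, ∀ k ∈ D.J a, D.ψ a j u ≤ D.ψ a k u) : ‖D.B a u‖ ≤ 3 * D.ε := by
  refine (D.bdd a u fun k hk => ?_).le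
  have h1 := h a ha k hk
  rw [D.cmp_ψ a a, sub_self, inner_zero_left] at h1
  linarith [sq_nonneg D.ε]

omit [Fintype Y] in
theorem cmp_near (a : Y) {u : EuclideanSpace ℝ (Fin n)} (hu : ‖D.B a u‖ ≤ 3 * D.ε) :
    dist (D.e (D.κ a u)) (D.e (D.s a)) ≤ 31 / 10 * D.ε := by
  have h1 := (D.B_ge a u).trans hu
  have h2 := (D.cmp_κ a (D.cmp_r h1)).trans (D.cmp_δ (norm_nonneg _) h1).2
  rw [dist_eq_norm]
  linarith only [hu, h2, norm_sub_norm_le (D.e (D.κ a u) - D.e (D.s a)) (D.B a u), D.ε_pos]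

theorem mem_of_exact {S : Finset Y} {a : Y} (ha : a ∈ S) (hS : S ⊆ D.J a)
    {u : EuclideanSpace ℝ (Fin n)} (h : ∀ j ∈ S, ∀ k ∈ D.J a, D.ψ a j u ≤ D.ψ a k u) :
    ∀ j ∈ S, D.κ a u ∈ D.U j := by
  intro j hj
  have h1 := D.cmp_exact ha h
  refine D.mem_U_of_near a j (D.cmp_near a h1) fun k hk => ?_
  have h2 := D.cmp_err_le a j k (D.cmp_J12 (hS hj) hk) ((D.B_ge a u).trans h1)
  linarith only [h2, (abs_le.1 h2).2, h j hj k hk, D.cmp_βε.1]

end Pool.Agent.Work.MP_dd0bbc_gt.Del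
end
end

-- merged part: Pool.Agent.Work.MP_dd0bbc_gt.DelContr
section
/-! The intersections of the thickened cells are contractible. -/

set_option autoImplicit false

namespace Pool.Agent.Work.MP_dd0bbc_gt.Del

open Finset
open scoped RealInnerProductSpace

variable {n N : ℕ} {M Y : Type} [TopologicalSpace M] [Fintype Y] (D : Del n N M Y)

theorem contractible {S : Finset Y} {a : Y} (ha : a ∈ S) (hS : S ⊆ D.J a)
    {u : EuclideanSpace ℝ (Fin n)} (h : ∀ j ∈ S, ∀ k ∈ D.J a, D.ψ a j u ≤ D.ψ a k u) :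
    ContractibleSpace (⋂ y ∈ S, D.U y : Set M) := by
  set O : Set (EuclideanSpace ℝ (Fin n)) := {v | ‖v‖ < D.r ∧ ∀ y ∈ S, D.κ a v ∈ D.U y} with hO
  have h0 := D.ε_pos
  have hB := D.cmp_exact ha h
  have hc := (D.B_ge a u).trans hB
  have huO : u ∈ O := ⟨D.cmp_r hc, D.mem_of_exact ha hS h⟩
  have hstar : StarConvex ℝ u O := by
    rintro v ⟨hv, hvU⟩ s t hs ht hst
    obtain ⟨h1, h2⟩ := D.cmp_small a hv (D.dist_lt (hvU a ha))
    have h3 : ‖D.B a (s • u + t • v)‖ ≤ 3 * D.ε := by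
      rw [map_add, map_smul, map_smul]
      refine (norm_add_le _ _).trans ?_
      rw [norm_smul, norm_smul, Real.norm_of_nonneg hs, Real.norm_of_nonneg ht]
      have a1 := mul_le_mul_of_nonneg_left hB hs
      have a2 := mul_le_mul_of_nonneg_left (h2.trans (by linarith : 2 * D.ε ≤ 3 * D.ε)) ht
      calc _ ≤ (s + t) * (3 * D.ε) := by linarith
        _ = _ := by rw [hst, one_mul]
    have h4 := D.cmp_r ((D.B_ge a _).trans h3)
    refine ⟨h4, fun j hj => D.mem_U_of_near a j (D.cmp_near a h3) fun k hk => ?_⟩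
    have hjk := D.cmp_J12 (hS hj) hk
    have a1 := (abs_le.1 (D.err_lip a j k hjk h4 hv)).2
    have a2 := (abs_le.1 (D.cmp_err_le a j k hjk (u := v) (by linarith))).2
    have a3 : ‖s • u + t • v - v‖ = s * ‖u - v‖ := by
      have : s • u + t • v - v = s • (u - v) := by
        rw [show t = 1 - s by linarith only [hst]]
        module
      rw [this, norm_smul, Real.norm_of_nonneg hs]
    have a4 : D.c * ‖u - v‖ ≤ 5 * D.ε := by
      have := mul_le_mul_of_nonneg_left (norm_sub_le u v) D.c_pos.le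
      linarith only [hc, h1, this]
    have a5 := mul_le_mul_of_nonneg_left (D.cmp_δ (norm_nonneg _) a4).1 h0.le
    have a6 : ∀ i, D.ψ a i (s • u + t • v) = s * D.ψ a i u + t * D.ψ a i v := fun i => by
      rw [ψ, ψ, ψ, inner_add_right, real_inner_smul_right, real_inner_smul_right,
        show t = 1 - s by linarith only [hst]]
      ring
    have a7 := h j hj k hk
    have a8 := hvU j hj k
    have a9 := D.cmp_βε.1
    rw [a3, a6, a6] at a1
    have b1 := mul_le_mul_of_nonneg_left a7 hs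
    have b2 := mul_le_mul_of_nonneg_left a2 hs
    have b3 := mul_le_mul_of_nonneg_left a5 hs
    have b4 : t = 1 - s := by linarith only [hst]
    subst b4
    rcases hs.eq_or_lt with rfl | hs'
    · linarith only [a8, a1]
    · have b5 := mul_le_mul_of_nonneg_left a8.le ht
      have b6 := mul_pos hs' a9
      linarith only [b1, b2, b3, a1, b5, b6]
  have hcon := hstar.contractibleSpace ⟨u, huO⟩
  have hcδ : 0 < D.c - D.δ := by
    have := mul_le_mul_of_nonneg_right D.β_le D.c_pos.le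
    linarith [D.δ_le, D.c_pos, D.δ_pos]
  have hlip : LipschitzWith ⟨‖D.B a‖ + D.δ, by have := D.δ_pos; positivity⟩
      fun v : O => D.e (D.κ a v) := LipschitzWith.of_dist_le_mul fun v v' => by
    have a1 := D.κ_lip a v v' v.2.1 v'.2.1
    have a2 := (D.B a).le_opNorm (v.1 - v'.1)
    have a3 := norm_sub_norm_le (D.e (D.κ a v) - D.e (D.κ a v')) (D.B a (v.1 - v'.1))
    rw [Subtype.dist_eq, dist_eq_norm, dist_eq_norm]
    change _ ≤ (‖D.B a‖ + D.δ) * _
    linarith only [a1, a2, a3]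
  have hanti : AntilipschitzWith ⟨(D.c - D.δ)⁻¹, by positivity⟩
      fun v : O => D.e (D.κ a v) := AntilipschitzWith.of_le_mul_dist fun v v' => by
    have a1 := D.κ_lip a v v' v.2.1 v'.2.1
    have a2 := D.B_ge a (v.1 - v'.1)
    have a3 := norm_sub_norm_le (D.B a (v.1 - v'.1)) (D.e (D.κ a v) - D.e (D.κ a v'))
    rw [norm_sub_rev (D.B a _)] at a3
    rw [Subtype.dist_eq, dist_eq_norm, dist_eq_norm]
    change _ ≤ (D.c - D.δ)⁻¹ * _
    rw [le_inv_mul_iff₀ hcδ]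
    linarith
  let f : O → (⋂ y ∈ S, D.U y : Set M) := fun v => ⟨D.κ a v, Set.mem_iInter₂.2 v.2.2⟩
  have hf : Topology.IsEmbedding f :=
    (D.emb.comp Topology.IsEmbedding.subtypeVal).of_comp_iff.1 (hanti.isEmbedding hlip.continuous)
  have hsurj : Function.Surjective f := by
    rintro ⟨z, hz⟩
    have hz' := Set.mem_iInter₂.1 hz
    obtain ⟨v, hv, rfl⟩ := D.κ_surj a z (by linarith only [h0, D.ε_le, D.dist_lt (hz' a ha)])
    exact ⟨⟨v, hv, hz'⟩, rfl⟩
  exact (hf.toHomeomorphOfSurjective hsurj).symm.contractibleSpace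

end Pool.Agent.Work.MP_dd0bbc_gt.Del
end

-- merged part: Pool.Agent.Work.MP_dd0bbc_gt.Delaunay
section
/-! The good cover with local linear models. -/

set_option autoImplicit false

namespace Pool.Agent.Work.MP_dd0bbc_gt

open Finset Matrix
open scoped RealInnerProductSpace

namespace Del

variable {n N : ℕ} {M Y : Type} [TopologicalSpace M] [Fintype Y] [LinearOrder Y]
  (D : Del n N M Y)

omit [LinearOrder Y] in
lemma mem_J {a j : Y} : j ∈ D.J a ↔ dist (D.e (D.s j)) (D.e (D.s a)) < 6 * D.ε := by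
  simp [J]

omit [Fintype Y] [LinearOrder Y] in
lemma g_self (a : Y) : D.g a a = 0 := by simp [g]

/-- The linear model at a site. -/
noncomputable def model {γ C : ℝ} (hγ : 0 < γ) (hγ1 : γ ≤ 1) (hC : ∀ a, ‖D.B a‖ ≤ C)
    (gap : ∀ (a : Y) (θ : Finset Y), θ ⊆ D.J a → θ.card = n + 2 →
      ∀ (u : EuclideanSpace ℝ (Fin n)) (μ : ℝ),
        ∃ j ∈ θ, γ * D.ε ^ 2 < |D.cst a j - ⟪D.g a j, u⟫ - μ|) (a : Y) : Model n Y where
  J := D.J a
  a := a
  g := D.g a
  c := D.cst a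
  γ := γ * D.ε ^ 2
  R := 3 * D.ε / D.c
  G := 12 * C * D.ε
  a_mem := D.mem_J.2 (by rw [dist_self]; linarith [D.ε_pos])
  g_a := D.g_self a
  γ_pos := mul_pos hγ (pow_pos D.ε_pos 2)
  R_pos := div_pos (by linarith [D.ε_pos]) D.c_pos
  g_le := fun j hj => by
    have h1 := (ContinuousLinearMap.adjoint (D.B a)).le_opNorm (D.e (D.s j) - D.e (D.s a))
    rw [LinearIsometryEquiv.norm_map, ← dist_eq_norm] at h1
    have h2 := mul_le_mul (hC a) (D.mem_J.1 hj).le dist_nonneg ((norm_nonneg _).trans (hC a))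
    rw [g, norm_smul, Real.norm_two]
    linarith
  bdd := fun u hu => by
    have h1 := D.bdd a u (fun j hj => by
      have := hu j hj
      have h2 : γ * D.ε ^ 2 ≤ D.ε ^ 2 := mul_le_of_le_one_left (sq_nonneg _) hγ1
      rw [ψ]; linarith)
    rw [le_div_iff₀ D.c_pos]
    linarith [D.B_ge a u]
  gap := gap a

end Del

lemma close_bound {n : ℕ} {δ γ c ε x : ℝ} (hγ : 0 < γ) (hc : 0 < c) (hε : 0 < ε)
    (hδ : δ * (300 * (n ^ 2 + 1)) ≤ γ * c)
    (h : γ * ε ^ 2 / (12 * (3 * ε / c)) * |x| ≤ 6 * δ * ε) : (n : ℝ) ^ 2 * |x| < 1 := by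
  have e : γ * ε ^ 2 / (12 * (3 * ε / c)) = γ * c * ε / 36 := by field_simp; ring
  rw [e] at h
  have h1 : γ * c * |x| ≤ 216 * δ := by
    have : ε * (γ * c * |x|) ≤ ε * (216 * δ) := by linarith only [h]
    exact le_of_mul_le_mul_left this hε
  have hp := mul_pos hγ hc
  have hn : (0 : ℝ) ≤ (n : ℝ) ^ 2 := sq_nonneg _
  have h2 : γ * c * ((n : ℝ) ^ 2 * |x|) < γ * c * 1 := by
    have hδ0 : 0 ≤ δ := by nlinarith only [h1, hp, abs_nonneg x, mul_nonneg hp.le (abs_nonneg x)]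
    nlinarith only [hδ, hp, hδ0, h1, hn, mul_le_mul_of_nonneg_left h1 hn, mul_nonneg hδ0 hn]
  exact lt_of_mul_lt_mul_left h2 hp.le

theorem fan_of_del {n N : ℕ} {M Y : Type} [TopologicalSpace M] [Fintype Y] [LinearOrder Y]
    (D : Del n N M Y) {γ C : ℝ} (hγ : 0 < γ) (hγ1 : γ ≤ 1) (hC : ∀ a, ‖D.B a‖ ≤ C)
    (gap : ∀ (a : Y) (θ : Finset Y), θ ⊆ D.J a → θ.card = n + 2 →
      ∀ (u : EuclideanSpace ℝ (Fin n)) (μ : ℝ),
        ∃ j ∈ θ, γ * D.ε ^ 2 < |D.cst a j - ⟪D.g a j, u⟫ - μ|)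
    (hβ : 2 * D.β * (1 + 432 * n * C / (γ * D.c)) ^ (n + 1) ≤ γ / 2) (hβ' : 2 * D.β ≤ γ / 2)
    (hδ : D.δ * (300 * (n ^ 2 + 1)) ≤ γ * D.c)
    (T : Y → Y → EuclideanSpace ℝ (Fin n) →L[ℝ] EuclideanSpace ℝ (Fin n))
    (hT0 : ∀ a u, T a a u = u)
    (hT1 : ∀ a b c, dist (D.e (D.s a)) (D.e (D.s b)) < 3 * D.ε →
      dist (D.e (D.s b)) (D.e (D.s c)) < 3 * D.ε → dist (D.e (D.s a)) (D.e (D.s c)) < 3 * D.ε →
        ∀ u, T a b (T b c u) = T a c u)
    (hT2 : ∀ a b, dist (D.e (D.s a)) (D.e (D.s b)) < 3 * D.ε →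
      ∀ u, ‖D.B b u - D.B a (T a b u)‖ ≤ D.δ * ‖u‖) :
    GoodCover D.U ∧ ∃ F : Fan n Y, F.K = nerve D.U := by
  classical
  have hε := D.ε_pos
  have hc := D.c_pos
  have hε2 : 0 < D.ε ^ 2 := pow_pos hε 2
  let m := D.model hγ hγ1 hC gap
  have hd : ∀ S ∈ nerve D.U, ∀ a ∈ S, ∀ b ∈ S, dist (D.e (D.s a)) (D.e (D.s b)) < 3 * D.ε := by
    intro S hS a ha b hb
    obtain ⟨z, hz⟩ := mem_nerve.1 hS
    have h1 := D.dist_lt (hz a ha)
    have h2 := D.dist_lt (hz b hb)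
    linarith only [h1, h2, dist_triangle_left (D.e (D.s a)) (D.e (D.s b)) (D.e z)]
  have hnear : ∀ S ∈ nerve D.U, ∀ a ∈ S, S ⊆ D.J a ∧ ∃ u, (m a).Near S (2 * D.β * D.ε ^ 2) u :=
    fun S hS a ha => D.near_of_mem ha hS
  have hη : ∀ a, 2 * D.β * D.ε ^ 2 ≤ (m a).γ / 2 := fun a => by
    change _ ≤ γ * D.ε ^ 2 / 2
    nlinarith only [hβ']
  have hex : ∀ S ∈ nerve D.U, ∀ a ∈ S,
      ∃ u, ∀ j ∈ S, ∀ k ∈ D.J a, D.ψ a j u ≤ D.ψ a k u := by
    intro S hS a ha
    obtain ⟨h1, u, hu⟩ := hnear S hS a ha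
    obtain ⟨u', hu'⟩ := (m a).exact h1 ha (by have := D.β_pos; positivity) (by
      have e : 12 * n * (m a).G * (m a).R / (m a).γ = 432 * n * C / (γ * D.c) := by
        change 12 * n * (12 * C * D.ε) * (3 * D.ε / D.c) / (γ * D.ε ^ 2) = _
        field_simp; ring
      rw [e]
      change _ ≤ γ * D.ε ^ 2 / 2
      nlinarith only [hβ, hε2, mul_le_mul_of_nonneg_right hβ hε2.le]) hu
    exact ⟨u', fun j hj k hk => (hu' j hj k hk).trans_eq (add_zero _)⟩
  have hthick : ∀ S ∈ nerve D.U, ∀ a ∈ S, ∀ l : Y → ℝ, ∀ i ∈ S.erase a,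
      γ * D.ε ^ 2 / (12 * (3 * D.ε / D.c)) * |l i| ≤ ‖∑ j ∈ S.erase a, l j • D.g a j‖ := by
    intro S hS a ha l
    obtain ⟨h1, u, hu⟩ := hnear S hS a ha
    exact (m a).thick h1 ha (hη a) hu l
  have hli : ∀ S ∈ nerve D.U, ∀ a ∈ S,
      LinearIndependent ℝ (fun j : {j // j ∈ S.erase a} => (D.g a j.1).ofLp) := by
    intro S hS a ha
    rw [Fintype.linearIndependent_iff]
    intro l hl i
    let l' : Y → ℝ := fun y => if h : y ∈ S.erase a then l ⟨y, h⟩ else 0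
    have h0 : ∑ j ∈ S.erase a, l' j • D.g a j = 0 := by
      rw [← sum_coe_sort]
      apply WithLp.ofLp_injective
      rw [WithLp.ofLp_sum, WithLp.ofLp_zero, ← hl]
      exact sum_congr rfl (fun j _ => by simp only [l', dif_pos j.2, WithLp.ofLp_smul])
    have h1 := hthick S hS a ha l' i.1 i.2
    rw [h0, norm_zero] at h1
    have h2 : 0 < γ * D.ε ^ 2 / (12 * (3 * D.ε / D.c)) := by positivity
    have h3 : |l' i| ≤ 0 := by
      by_contra h; push Not at h; linarith only [h1, h2, h, mul_pos h2 h]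
    simpa only [l', dif_pos i.2, abs_nonpos_iff] using h3
  have hcard : ∀ S ∈ nerve D.U, S.card ≤ n + 1 := by
    intro S hS
    rcases S.eq_empty_or_nonempty with rfl | ⟨a, ha⟩
    · simp
    · obtain ⟨h1, u, hu⟩ := hnear S hS a ha
      exact (m a).card_le h1 ((hη a).trans (by linarith only [(m a).γ_pos])) hu
  have hdot : ∀ x y : EuclideanSpace ℝ (Fin n), ⟪x, y⟫ = x.ofLp ⬝ᵥ y.ofLp := fun x y => by
    rw [EuclideanSpace.inner_eq_star_dotProduct, star_trivial, dotProduct_comm]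
  refine ⟨⟨D.isOpen_U, fun y => ⟨_, D.self_mem y⟩, D.cover, fun S ⟨a, ha⟩ hS => ?_⟩, ?_⟩
  · obtain ⟨u, hu⟩ := hex S hS a ha
    exact D.contractible ha (hnear S hS a ha).1 hu
  let Tm : Y → Y → Matrix (Fin n) (Fin n) ℝ := fun a b =>
    Matrix.toEuclideanCLM (𝕜 := ℝ) (n := Fin n).symm (ContinuousLinearMap.adjoint (T b a))
  have hTm : ∀ a b (x : EuclideanSpace ℝ (Fin n)),
      Tm a b *ᵥ x.ofLp = (ContinuousLinearMap.adjoint (T b a) x).ofLp := fun a b x => by
    rw [← Matrix.ofLp_toEuclideanCLM, StarAlgEquiv.apply_symm_apply]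
  refine ⟨{ K := nerve D.U
            pos := fun a j => (D.g a j).ofLp
            T := Tm
            down := nerve_down _
            sing := fun y => mem_nerve.2 ⟨D.s y, by simpa using D.self_mem y⟩
            card_le := hcard
            pos_self := fun a => by rw [D.g_self, WithLp.ofLp_zero]
            T_self := fun a => ?_
            T_mul := fun a b c h => ?_
            indep := fun σ hσ _ a ha => hli σ hσ a ha
            star := fun a => ?_
            close := fun σ hσ hcσ a ha b hb c hcc hcb => ?_ }, rfl⟩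
  · have : T a a = 1 := ContinuousLinearMap.ext (hT0 a)
    simp only [Tm, this]
    rw [ContinuousLinearMap.adjoint_one, map_one]
  · have : (T c b).comp (T b a) = T c a := ContinuousLinearMap.ext
      (hT1 c b a (hd _ h _ (by simp) _ (by simp)) (hd _ h _ (by simp) _ (by simp))
        (hd _ h _ (by simp) _ (by simp)))
    simp only [Tm]
    rw [← map_mul, ← this, ContinuousLinearMap.adjoint_comp]
    rfl
  · refine star_of_model _ (D.J a) a _ (D.cst a) (m a).a_mem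
      (by rw [D.g_self, WithLp.ofLp_zero]) (fun S ha => ⟨fun hS => ?_, ?_⟩) hcard
      ⟨(m a).R, fun u hu => ?_⟩ (fun S hS ha => hli S hS a ha)
    · obtain ⟨u, hu⟩ := hex S hS a ha
      exact ⟨(hnear S hS a ha).1, u.ofLp, fun j hj k hk => by
        simpa only [Del.ψ, hdot] using hu j hj k hk⟩
    · rintro ⟨hS, u, hu⟩
      exact mem_nerve.2 ⟨_, D.mem_of_exact ha hS (u := WithLp.toLp 2 u) (fun j hj k hk => by
        simpa only [Del.ψ, hdot] using hu j hj k hk)⟩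
    · have h1 := (m a).bdd (WithLp.toLp 2 u) (fun j hj => by
        have := hu j hj
        have h2 := (m a).γ_pos
        change D.cst a a ≤ D.cst a j - ⟪D.g a j, WithLp.toLp 2 u⟫ + (m a).γ
        rw [hdot]; linarith only [this, h2])
      refine (pi_norm_le_iff_of_nonneg (m a).R_pos.le).2 (fun i => ?_)
      exact (PiLp.norm_apply_le (WithLp.toLp 2 u) i).trans h1
  · have hcs : (σ.erase a).card = n := by rw [card_erase_of_mem ha, hcσ]; rfl
    obtain ⟨β, hβ⟩ := exists_coord (v := fun j => (D.g a j).ofLp) hcs (hli σ hσ a ha)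
      (Tm a b *ᵥ (D.g b c).ofLp)
    refine ⟨1, one_pos, β, by rw [one_smul]; exact hβ, fun j hj => ?_⟩
    refine close_bound hγ hc hε hδ ((hthick σ hσ a ha
      (fun j => β j - ((if j = c then 1 else 0) - (if j = b then 1 else 0))) j hj).trans ?_)
    have hs : ∀ x ∈ σ, ∑ j ∈ σ.erase a, (if j = x then (1 : ℝ) else 0) • D.g a j = D.g a x := by
      intro x hx
      simp only [ite_smul, one_smul, zero_smul, sum_ite_eq', mem_erase]
      split_ifs with h
      · rfl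
      · have : x = a := by by_contra e; exact h ⟨e, hx⟩
        rw [this, D.g_self]
    have hβ' : ∑ j ∈ σ.erase a, β j • D.g a j = ContinuousLinearMap.adjoint (T b a) (D.g b c) := by
      apply WithLp.ofLp_injective
      rw [← hTm, hβ, WithLp.ofLp_sum]
      simp only [WithLp.ofLp_smul]
    simp only [sub_smul, sum_sub_distrib, hs c hcc, hs b hb, hβ']
    have e : ContinuousLinearMap.adjoint (T b a) (D.g b c) - (D.g a c - D.g a b) =
        (-2 : ℝ) • ContinuousLinearMap.adjoint (D.B a - (D.B b).comp (T b a))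
          (D.e (D.s c) - D.e (D.s b)) := by
      simp only [Del.g, map_sub, ContinuousLinearMap.adjoint_comp, map_smul,
        _root_.sub_apply, ContinuousLinearMap.comp_apply]
      module
    have h1 : ‖D.B a - (D.B b).comp (T b a)‖ ≤ D.δ :=
      ContinuousLinearMap.opNorm_le_bound _ D.δ_pos.le (hT2 b a (hd σ hσ b hb a ha))
    have h2 := (ContinuousLinearMap.adjoint (D.B a - (D.B b).comp (T b a))).le_opNorm
      (D.e (D.s c) - D.e (D.s b))
    rw [LinearIsometryEquiv.norm_map, ← dist_eq_norm (D.e (D.s c))] at h2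
    have h3 := mul_le_mul h1 (hd σ hσ c hcc b hb).le dist_nonneg D.δ_pos.le
    rw [e, norm_smul, norm_neg, Real.norm_two]
    linarith only [h2, h3]

theorem exists_fan {n : ℕ} {M : Type} [TopologicalSpace M] [CompactSpace M] (h : Geo n M) :
    ∃ (k : ℕ) (U : Fin k → Set M) (D : Fan n (Fin k)), GoodCover U ∧ D.K = nerve U := by
  obtain ⟨N, e, B, T, c, C, he, hc, hB, hC, hT0, H⟩ := h
  obtain ⟨γ, hγ, hγ1, hw⟩ := exists_weights n N
  set Λ : ℝ := (1 + 432 * n * |C| / (γ * c)) ^ (n + 1) with hΛ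
  have hΛ1 : 1 ≤ Λ := one_le_pow₀ (le_add_of_nonneg_right (by positivity))
  set β : ℝ := γ / (4 * Λ) with hβ
  have hβ0 : 0 < β := by positivity
  have hβ1 : 2 * β * Λ ≤ γ / 2 := le_of_eq (by rw [hβ]; field_simp; ring)
  have hβ2 : 2 * β ≤ γ / 2 := by nlinarith only [hβ1, hΛ1, hβ0]
  set δ : ℝ := min (β * c / 1000) (γ * c / (300 * (n ^ 2 + 1))) with hδ
  have hδ0 : 0 < δ := lt_min (by positivity) (by positivity)
  obtain ⟨r, hr, h1, h2, h3⟩ := H δ hδ0
  choose κ hκ0 hκ1 hκ2 using h3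
  set ε : ℝ := min (c * r / 10) (r / 10) with hε
  have hε0 : 0 < ε := lt_min (by positivity) (by positivity)
  have hεr : 3 * ε ≤ r := by linarith only [hε0, min_le_right (c * r / 10) (r / 10)]
  obtain ⟨k, s, hsep, hnet⟩ := exists_net he.continuous hε0
  obtain ⟨w, hw1, hw2⟩ := hw (Fin k) (fun y => e (s y)) ε hε0 hsep
    (fun a j => (2 : ℝ) • (ContinuousLinearMap.adjoint (B (s a))) (e (s j) - e (s a)))
    (fun a j => ‖e (s j) - e (s a)‖ ^ 2)
  let D : Del n N M (Fin k) :=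
    { e := e, s := s, w := w, B := fun a => B (s a), κ := fun a => κ (s a), c := c, δ := δ
      r := r, ε := ε, β := β, emb := he, c_pos := hc, δ_pos := hδ0, ε_pos := hε0
      β_pos := hβ0
      β_le := by linarith only [hγ1, hβ0, hβ2]
      δ_le := by linarith only [min_le_left (β * c / 1000) (γ * c / (300 * (n ^ 2 + 1)))]
      ε_le := by linarith only [min_le_left (c * r / 10) (r / 10)]
      B_ge := fun a => hB _, sep := hsep, net := hnet, w_mem := hw1
      κ_zero := fun a => hκ0 _, κ_lip := fun a => hκ1 _, κ_surj := fun a => hκ2 _ }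
  obtain ⟨g1, F, g2⟩ := fan_of_del D hγ hγ1 (C := |C|) (fun a => (hC _).trans (le_abs_self _))
    (fun a θ hθ hcard => hw2 a θ hcard (fun j hj => D.mem_J.1 (hθ hj))) hβ1 hβ2
    ((le_div_iff₀ (by positivity)).1 (min_le_right _ _)) (fun a b => T (s a) (s b))
    (fun a => hT0 _)
    (fun a b c e1 e2 e3 => h1 _ _ _ (e1.trans_le hεr) (e2.trans_le hεr) (e3.trans_le hεr))
    (fun a b e1 => h2 _ _ (e1.trans_le hεr))
  exact ⟨k, D.U, F, g1, g2⟩

end Pool.Agent.Work.MP_dd0bbc_gt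
end
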