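import Mathlib

/-! Hyperbolic space and hyperbolic manifolds. -/

set_option autoImplicit false

namespace Pool.Agent.Work.MP_dd0bbc_gt

/-- The Lorentz form of signature `(n, 1)`. -/
def lor {n : ℕ} (x y : Fin (n + 1) → ℝ) : ℝ := -(x 0 * y 0) + ∑ i : Fin n, x i.succ * y i.succ

/-- Hyperbolic `n`-space: the upper sheet of the hyperboloid. -/
def Hyp (n : ℕ) : Type := {x : Fin (n + 1) → ℝ // lor x x = -1 ∧ 0 < x 0}

instance instTopHyp (n : ℕ) : TopologicalSpace (Hyp n) :=
  TopologicalSpace.induced Subtype.val inferInstance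

/-- Distance preserving self-maps of hyperbolic space (`cosh d(u, v) = - lor u v`). -/
def HypIsometry {n : ℕ} (g : Hyp n → Hyp n) : Prop := ∀ u v, lor (g u).1 (g v).1 = lor u.1 v.1

/-- `M` is covered by hyperbolic `n`-space, and isometries that are deck transformations act
transitively on the fibres. -/
def IsHyperbolic (n : ℕ) (M : Type) [TopologicalSpace M] : Prop :=
  ∃ p : Hyp n → M, IsCoveringMap p ∧ Function.Surjective p ∧
    ∀ x y, p x = p y → ∃ g : Hyp n → Hyp n, HypIsometry g ∧ p ∘ g = p ∧ g x = y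

end Pool.Agent.Work.MP_dd0bbc_gt
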