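import Pool.Agent.Work.MP_dd0bbc_gt.HypDefs

/-! Uniform lattices in products of hyperbolic spaces. -/

set_option autoImplicit false

namespace Pool.Agent.Work.MP_dd0bbc_gt

/-- The sum over the factors of `cosh` of the distance. -/
def chd {r : ℕ} {n : Fin r → ℕ} (u v : ∀ i, Hyp (n i)) : ℝ := ∑ i, -lor (u i).1 (v i).1

/-- A faithful, isometric, proper and cocompact action on a product of hyperbolic spaces. -/
structure UniformLattice {r : ℕ} {n : Fin r → ℕ} {Γ : Type} [Group Γ]
    (act : Γ →* Equiv.Perm (∀ i, Hyp (n i))) : Prop where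
  inj : Function.Injective act
  isom : ∀ γ u v, chd (act γ u) (act γ v) = chd u v
  proper : ∀ (L : ℝ) u v, {γ | chd (act γ u) v ≤ L}.Finite
  cocompact : ∃ v, ∃ L : ℝ, ∀ u, ∃ γ, chd (act γ v) u ≤ L

/-- `M` is the quotient of a contractible space by a free properly discontinuous action of a
uniform lattice in a product of hyperbolic spaces of dimensions `2 k i > 0`, `∑ k i = m`. -/
def LatticeType (m : ℕ) (M : Type) [TopologicalSpace M] : Prop :=
  ∃ (r : ℕ) (k : Fin r → ℕ) (X Γ : Type) (_ : TopologicalSpace X) (_ : Group Γ)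
    (_ : MulAction Γ X) (p : X → M) (act : Γ →* Equiv.Perm (∀ i, Hyp (2 * k i))),
    (∀ i, 1 ≤ k i) ∧ ∑ i, k i = m ∧ ContractibleSpace X ∧ IsQuotientCoveringMap p Γ ∧
      UniformLattice act

end Pool.Agent.Work.MP_dd0bbc_gt
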