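import Pool.Agent.Work.MP_dd0bbc_gt.Weights
import Pool.Agent.Lib.RipsHom.Chains
import Pool.Agent.Work.MP_dd0bbc_gt.Delaunay

-- merged part: Pool.Agent.Work.MP_dd0bbc_gt.Ext2
section
-- merged part: Pool.Agent.Work.MP_dd0bbc_gt.Cech
section
/-! Exactness of the complex of intersections of coordinate subspaces; a signature bound. -/

set_option autoImplicit false

namespace Pool.Agent.Work.MP_dd0bbc_gt

open Finset

variable {k E Y : Type} [Field k] [AddCommGroup E] [Module k E]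

theorem adapted_of_basis {ι : Type} (b : Module.Basis ι k E) (J : Y → Set ι) (τ : Finset Y) :
    Adapted (fun y => Submodule.span k (b '' J y)) τ := by
  classical
  obtain ⟨f, hf1, hf2⟩ : ∃ f : ι → Option Y, (∀ i c, f i = some c → c ∈ τ ∧ i ∈ J c) ∧
      ∀ i, ∀ y ∈ τ, i ∈ J y → ∃ c ∈ τ, f i = some c := by
    refine ⟨fun i => if h : ∃ y ∈ τ, i ∈ J y then some h.choose else none, fun i c hc => ?_,
      fun i y hy hi => ?_⟩
    · simp only at hc
      split_ifs at hc with h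
      rw [← Option.some.inj hc]
      exact h.choose_spec
    · have h : ∃ y ∈ τ, i ∈ J y := ⟨y, hy, hi⟩
      exact ⟨h.choose, h.choose_spec.1, dif_pos h⟩
  have key : ∀ (φ : E →ₗ[k] E) (s : Set ι) (W : Submodule k E), (∀ i ∈ s, φ (b i) ∈ W) →
      ∀ x ∈ Submodule.span k (b '' s), φ x ∈ W := by
    intro φ s W h x hx
    refine (Submodule.span_le (p := W.comap φ)).2 ?_ hx
    rintro _ ⟨i, hi, rfl⟩
    exact h i hi
  refine ⟨fun c => b.constr k fun i => if f i = some c then b i else 0, fun c _ x => ?_,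
    fun c _ y _ => ?_, fun y hy x hx => ?_⟩
  · refine key _ Set.univ _ (fun i _ => ?_) x (by rw [Set.image_univ]; exact b.mem_span x)
    rw [Module.Basis.constr_basis]
    split_ifs with h
    · exact Submodule.subset_span ⟨i, (hf1 i c h).2, rfl⟩
    · exact zero_mem _
  · refine key _ _ _ fun i hi => ?_
    rw [Module.Basis.constr_basis]
    split_ifs with h
    · exact Submodule.subset_span ⟨i, hi, rfl⟩
    · exact zero_mem _
  · have := key ((∑ c ∈ τ, b.constr k fun i => if f i = some c then b i else 0) - LinearMap.id)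
      (J y) ⊥ (fun i hi => ?_) x hx
    · rwa [Submodule.mem_bot, LinearMap.sub_apply, LinearMap.sum_apply, sub_eq_zero] at this
    · obtain ⟨c, hc, hfc⟩ := hf2 i y hy hi
      rw [Submodule.mem_bot, LinearMap.sub_apply, LinearMap.sum_apply, sub_eq_zero]
      simp only [Module.Basis.constr_basis, hfc, Option.some.injEq, LinearMap.id_apply]
      rw [sum_ite_eq, if_pos hc]

theorem adapted_supported {ι : Type} (J : Y → Set ι) (τ : Finset Y) :
    Adapted (fun y => Finsupp.supported k k (J y)) τ := by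
  have := adapted_of_basis (Finsupp.basisSingleOne (R := k) (ι := ι)) J τ
  simpa only [Finsupp.supported_eq_span_single, Finsupp.coe_basisSingleOne] using this

theorem Adapted.congr {L L' : Y → Submodule k E} {τ : Finset Y} (h : Adapted L τ)
    (e : ∀ y ∈ τ, L y = L' y) : Adapted L' τ := by
  obtain ⟨P, h1, h2, h3⟩ := h
  exact ⟨P, fun c hc x => e c hc ▸ h1 c hc x, fun c hc y hy => e y hy ▸ h2 c hc y hy,
    fun y hy => e y hy ▸ h3 y hy⟩

theorem Adapted.map {E' : Type} [AddCommGroup E'] [Module k E'] {L : Y → Submodule k E}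
    {τ : Finset Y} (h : Adapted L τ) (e : E ≃ₗ[k] E') :
    Adapted (fun y => (L y).map (e : E →ₗ[k] E')) τ := by
  obtain ⟨P, h1, h2, h3⟩ := h
  refine ⟨fun c => (e : E →ₗ[k] E') ∘ₗ P c ∘ₗ (e.symm : E' →ₗ[k] E), fun c hc x => ?_,
    fun c hc y hy => ?_, fun y hy => ?_⟩
  · exact Submodule.mem_map_of_mem (h1 c hc _)
  · rintro _ ⟨x, hx, rfl⟩
    refine Submodule.mem_map_of_mem ?_
    simpa using h2 c hc y hy x hx
  · rintro _ ⟨x, hx, rfl⟩
    conv_rhs => rw [← h3 y hy x hx, map_sum]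
    simp

variable [Fintype Y] [LinearOrder Y]

theorem cech_exact {L : Y → Submodule k E} {τ : Finset Y} (hL : Adapted L τ) (c : ℕ)
    (x : Finset Y → E) (hs : ∀ S, x S ≠ 0 → S ⊆ τ ∧ S.card = c + 1)
    (hm : ∀ S, ∀ y ∈ S, x S ∈ L y) (h0 : bdy k E x = 0) :
    ∃ x' : Finset Y → E, (∀ S, x' S ≠ 0 → S ⊆ τ ∧ S.card = c + 2) ∧
      (∀ S, ∀ y ∈ S, x' S ∈ L y) ∧ bdy k E x' = x := by
  obtain ⟨P, h1, h2, h3⟩ := hL
  refine ⟨fun S => if S ⊆ τ then ∑ a ∈ S, (sgn a S : k) • P a (x (S.erase a)) else 0,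
    fun S hS => ?_, fun S y hy => ?_, ?_⟩
  · simp only at hS
    split_ifs at hS with h
    · obtain ⟨a, ha, hne⟩ := exists_ne_zero_of_sum_ne_zero hS
      have hx : x (S.erase a) ≠ 0 := fun h0 => hne (by rw [h0, map_zero, smul_zero])
      have h4 := (hs _ hx).2
      have h5 := card_erase_add_one ha
      exact ⟨h, by omega⟩
    · exact absurd rfl hS
  · simp only
    split_ifs with h
    · refine Submodule.sum_mem _ fun a ha => Submodule.smul_mem _ _ ?_
      rcases eq_or_ne y a with rfl | hne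
      · exact h1 y (h hy) _
      · exact h2 a (h ha) y (h hy) _ (hm _ y (mem_erase.2 ⟨hne, hy⟩))
    · exact zero_mem _
  · ext S
    rw [bdy_apply]
    by_cases hS : S ⊆ τ
    swap
    · have hx : x S = 0 := by_contra fun hx => hS (hs S hx).1
      rw [hx]
      refine sum_eq_zero fun y _ => ?_
      rw [if_neg fun h => hS ((subset_insert y S).trans h), smul_zero]
    have hterm : ∀ y ∈ Sᶜ, (sgn y (insert y S) : k) • (if insert y S ⊆ τ then
        ∑ a ∈ insert y S, (sgn a (insert y S) : k) • P a (x ((insert y S).erase a)) else 0) =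
        (if y ∈ τ then P y (x S) else 0) - ∑ a ∈ S, (sgn a S : k) •
          P a ((sgn y (insert y (S.erase a)) : k) • x (insert y (S.erase a))) := by
      intro y hy
      have hyS : y ∉ S := mem_compl.1 hy
      by_cases hyτ : y ∈ τ
      · rw [if_pos (insert_subset hyτ hS), if_pos hyτ, sum_insert hyS, erase_insert hyS, smul_add,
          smul_smul, sgn_cast_mul_self, one_smul, Finset.smul_sum, sub_eq_add_neg,
          ← sum_neg_distrib]
        congr 1
        refine sum_congr rfl fun a ha => ?_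
        have hay : a ≠ y := fun h => hyS (h ▸ ha)
        have h4 := sgn_anti_erase hay (mem_insert_of_mem ha) (mem_insert_self y S)
        rw [erase_insert hyS, erase_insert_of_ne hay.symm] at h4
        have h5 := sgn_mul_self a (insert y S)
        have h6 := sgn_mul_self a S
        have h7 : sgn y (insert y S) * sgn a (insert y S) =
            -(sgn a S * sgn y (insert y (S.erase a))) := by
          linear_combination (sgn a S * sgn a (insert y S)) * h4 -
            (sgn a S * sgn y (insert y (S.erase a))) * h5 -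
            (sgn y (insert y S) * sgn a (insert y S)) * h6
        rw [erase_insert_of_ne hay.symm, map_smul, smul_smul, smul_smul, ← Int.cast_mul,
          ← Int.cast_mul, h7, Int.cast_neg, neg_smul]
      · rw [if_neg fun h => hyτ (h (mem_insert_self y S)), if_neg hyτ, smul_zero, zero_sub,
          eq_comm, neg_eq_zero]
        refine sum_eq_zero fun a _ => ?_
        have hx : x (insert y (S.erase a)) = 0 :=
          by_contra fun hx => hyτ ((hs _ hx).1 (mem_insert_self _ _))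
        rw [hx, smul_zero, map_zero, smul_zero]
    have hb : ∀ a ∈ S, ∑ y ∈ Sᶜ, (sgn a S : k) •
        P a ((sgn y (insert y (S.erase a)) : k) • x (insert y (S.erase a))) = -P a (x S) := by
      intro a ha
      have h4 := congrFun h0 (S.erase a)
      rw [bdy_apply, Pi.zero_apply, compl_erase, sum_insert (by simpa using ha), insert_erase ha,
        add_eq_zero_iff_neg_eq] at h4
      rw [← Finset.smul_sum, ← map_sum, ← h4, map_neg, map_smul, smul_neg, smul_smul,
        sgn_cast_mul_self, one_smul]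
    rw [sum_congr rfl hterm, sum_sub_distrib, sum_comm, sum_congr rfl hb, sum_neg_distrib,
      sub_neg_eq_add, ← sum_filter]
    have h4 : Sᶜ.filter (· ∈ τ) = τ \ S := by
      ext y; simp [and_comm]
    rw [h4, sum_sdiff hS]
    rcases S.eq_empty_or_nonempty with rfl | ⟨y, hy⟩
    · have hx : x ∅ = 0 := by_contra fun hx => by simpa using (hs _ hx).2
      simp [hx]
    · exact h3 y (hS hy) _ (hm S y hy)

lemma cech_bdy_empty (x : Finset Y → E) : bdy k E x ∅ = ∑ y, x {y} := by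
  rw [bdy_apply, compl_empty]
  refine sum_congr rfl fun y _ => ?_
  rw [sgn_insert_self]
  simp [sgn]

theorem cech_surj (L : Y → Submodule k E) (τ : Finset Y) {e : E} (he : e ∈ ⨆ y ∈ τ, L y) :
    ∃ x : Finset Y → E, (∀ S, x S ≠ 0 → S ⊆ τ ∧ S.card = 1) ∧
      (∀ S, ∀ y ∈ S, x S ∈ L y) ∧ bdy k E x ∅ = e := by
  obtain ⟨μ, hμ⟩ := (Submodule.mem_iSup_finset_iff_exists_sum L e).1 he
  refine ⟨fun S => ∑ y ∈ τ, if S = {y} then (μ y : E) else 0, fun S hS => ?_, fun S y hy => ?_, ?_⟩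
  · obtain ⟨a, ha, hne⟩ := exists_ne_zero_of_sum_ne_zero hS
    have : S = {a} := by_contra fun h => hne (if_neg h)
    rw [this]
    exact ⟨singleton_subset_iff.2 ha, card_singleton a⟩
  · refine Submodule.sum_mem _ fun a _ => ?_
    split_ifs with h
    · rw [h, mem_singleton] at hy
      rw [hy]
      exact (μ a).2
    · exact zero_mem _
  · rw [cech_bdy_empty, sum_comm, ← hμ]
    refine sum_congr rfl fun a _ => ?_
    simp

theorem bdy_empty (x : Finset Y → E) : bdy k E x ∅ = ∑ y, x {y} := by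
  exact cech_bdy_empty x

open Classical in
lemma cech_rank_le {I J : Type} [Fintype I] [Fintype J] (d : I → ℝ) (hd : ∀ i, d i ≠ 0)
    (M : Matrix I J ℝ) (h : ∀ j j', ∑ i, d i * M i j * M i j' = 0) :
    M.rank ≤ (univ.filter fun i => d i < 0).card := by
  rw [← Fintype.card_subtype, ← Module.finrank_fintype_fun_eq_card ℝ, Matrix.rank]
  refine LinearMap.finrank_le_finrank_of_injective
    (f := LinearMap.funLeft ℝ ℝ (Subtype.val : {i // d i < 0} → I) ∘ₗ
      (LinearMap.range M.mulVecLin).subtype) ?_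
  rw [injective_iff_map_eq_zero]
  rintro ⟨_, v, rfl⟩ hv
  have h1 : ∀ i, d i < 0 → M.mulVec v i = 0 := fun i hi => congrFun hv ⟨i, hi⟩
  have h2 : ∑ i, d i * M.mulVec v i ^ 2 = 0 := by
    calc _ = ∑ i, ∑ j, ∑ j', v j * v j' * (d i * M i j * M i j') := by
          refine sum_congr rfl fun i _ => ?_
          rw [sq, Matrix.mulVec, dotProduct, sum_mul_sum, mul_sum]
          refine sum_congr rfl fun j _ => ?_
          rw [mul_sum]
          exact sum_congr rfl fun j' _ => by ring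
      _ = ∑ j, ∑ j', v j * v j' * ∑ i, d i * M i j * M i j' := by
          rw [sum_comm]
          refine sum_congr rfl fun j _ => ?_
          rw [sum_comm]
          exact sum_congr rfl fun j' _ => (mul_sum _ _ _).symm
      _ = 0 := by simp [h]
  have h3 : ∀ i ∈ univ, 0 ≤ d i * M.mulVec v i ^ 2 := by
    intro i _
    rcases lt_or_gt_of_ne (hd i) with hi | hi
    · rw [h1 i hi]; simp
    · positivity
  refine Subtype.ext (funext fun i => ?_)
  have h4 := (sum_eq_zero_iff_of_nonneg h3).1 h2 i (mem_univ i)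
  exact pow_eq_zero_iff two_ne_zero |>.1 ((mul_eq_zero.1 h4).resolve_left (hd i))

/-- A totally isotropic subspace bounds the signature of a diagonal form. -/
theorem signature_le {I J : Type} [Fintype I] [Fintype J] (d : I → ℝ) (hd : ∀ i, d i ≠ 0)
    (M : Matrix I J ℝ) (h : ∀ j j', ∑ i, d i * M i j * M i j' = 0) :
    |∑ i, (SignType.sign (d i) : ℝ)| + 2 * M.rank ≤ Fintype.card I := by
  classical
  have h1 := cech_rank_le d hd M h
  have h2 := cech_rank_le (fun i => -d i) (fun i => neg_ne_zero.2 (hd i)) M (fun j j' => by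
    simp only [neg_mul, sum_neg_distrib, h j j', neg_zero])
  simp only [neg_lt_zero] at h2
  have h3 : ∑ i, (SignType.sign (d i) : ℝ) =
      ((univ.filter fun i => 0 < d i).card : ℝ) - (univ.filter fun i => d i < 0).card := by
    rw [card_filter, card_filter]
    push_cast
    rw [← sum_sub_distrib]
    refine sum_congr rfl fun i _ => ?_
    rcases lt_or_gt_of_ne (hd i) with hi | hi
    · simp [hi, hi.not_gt]
    · simp [hi, hi.not_gt]
  have h4 : (univ.filter fun i => 0 < d i).card + (univ.filter fun i => d i < 0).card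
      = Fintype.card I := by
    rw [← card_univ, ← card_filter_add_card_filter_not (s := univ) fun i => 0 < d i]
    congr 2
    ext i
    simp only [mem_filter, mem_univ, true_and, not_lt]
    exact ⟨le_of_lt, fun hi => lt_of_le_of_ne hi (hd i)⟩
  have h1' : (M.rank : ℝ) ≤ (univ.filter fun i => d i < 0).card := by exact_mod_cast h1
  have h2' : (M.rank : ℝ) ≤ (univ.filter fun i => 0 < d i).card := by exact_mod_cast h2
  rw [h3, ← h4]
  push_cast
  rcases abs_cases (((univ.filter fun i => 0 < d i).card : ℝ) -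
    (univ.filter fun i => d i < 0).card) with h5 | h5 <;> linarith only [h1', h5, h2', h5.1]

end Pool.Agent.Work.MP_dd0bbc_gt
end

-- merged part: Pool.Agent.Work.MP_dd0bbc_gt.WittDC
section
/-! The double complex of the intersections of the Lagrangians. -/

set_option autoImplicit false

namespace Pool.Agent.Work.MP_dd0bbc_gt

open Finset Matrix

lemma sum_o_cob {Y N : Type} [Fintype Y] [LinearOrder Y] [AddCommGroup N] [Module ℝ N]
    {K : Finset (Finset Y)} (hK : ∀ S ∈ K, ∀ T, T ⊆ S → T ∈ K) {n : ℕ} {o : Finset Y → ℝ}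
    (hc : Cyc K n o) (g : Finset Y → N) : ∑ σ ∈ tops K n, o σ • cob ℝ N K g σ = 0 := by
  have e1 : ∀ σ ∈ tops K n, o σ • cob ℝ N K g σ =
      ∑ y ∈ σ, (o σ * (sgn y σ : ℝ)) • g (σ.erase y) := by
    intro σ hσ
    rw [cob_apply, if_pos (mem_tops.1 hσ).1, Finset.smul_sum]
    simp only [smul_smul]
  have e2 : ∑ σ ∈ tops K n, ∑ y ∈ σ, (o σ * (sgn y σ : ℝ)) • g (σ.erase y) =
      ∑ τ ∈ K.filter (·.card = n), ∑ y ∈ τᶜ.filter (fun y => insert y τ ∈ K),
        (o (insert y τ) * (sgn y (insert y τ) : ℝ)) • g τ := by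
    rw [sum_sigma', sum_sigma']
    refine sum_bij' (fun p _ => ⟨p.1.erase p.2, p.2⟩) (fun p _ => ⟨insert p.2 p.1, p.2⟩)
      ?_ ?_ ?_ ?_ ?_
    · rintro ⟨σ, y⟩ h
      simp only [mem_sigma, mem_tops, mem_filter, mem_compl] at h ⊢
      refine ⟨⟨hK _ h.1.1 _ (erase_subset _ _), ?_⟩, notMem_erase _ _, ?_⟩
      · rw [card_erase_of_mem h.2, h.1.2]; rfl
      · rw [insert_erase h.2]; exact h.1.1
    · rintro ⟨τ, y⟩ h
      simp only [mem_sigma, mem_tops, mem_filter, mem_compl] at h ⊢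
      exact ⟨⟨h.2.2, by rw [card_insert_of_notMem h.2.1, h.1.2]⟩, mem_insert_self _ _⟩
    · rintro ⟨σ, y⟩ h
      simp only [mem_sigma] at h
      simp only [insert_erase h.2]
    · rintro ⟨τ, y⟩ h
      simp only [mem_sigma, mem_filter, mem_compl] at h
      simp only [erase_insert h.2.1]
    · rintro ⟨σ, y⟩ h
      simp only [mem_sigma] at h
      simp only [insert_erase h.2]
  rw [sum_congr rfl e1, e2]
  refine sum_eq_zero (fun τ hτ => ?_)
  rw [← Finset.sum_smul, hc τ (mem_filter.1 hτ).1 (mem_filter.1 hτ).2, zero_smul]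

namespace WData

variable {m : ℕ} {Y ι : Type} [Fintype Y] [LinearOrder Y] [Fintype ι] [DecidableEq ι]
  (W : WData m Y ι)

lemma U_U {τ : Finset Y} (hτ : τ ∈ W.K) {a b c : Y} (ha : a ∈ τ) (hb : b ∈ τ) (hc : c ∈ τ)
    (x : ι → ℝ) : W.U a b *ᵥ (W.U b c *ᵥ x) = W.U a c *ᵥ x := by
  rw [mulVec_mulVec, W.U_mul a b c (W.down τ hτ _ (by
    simp only [insert_subset_iff, singleton_subset_iff]; exact ⟨ha, hb, hc⟩))]

lemma U_inv {τ : Finset Y} (hτ : τ ∈ W.K) {a b : Y} (ha : a ∈ τ) (hb : b ∈ τ) (x : ι → ℝ) :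
    W.U a b *ᵥ (W.U b a *ᵥ x) = x := by
  rw [W.U_U hτ ha hb ha, W.U_self, one_mulVec]

lemma L_mem {τ : Finset Y} (hτ : τ ∈ W.K) {a b y : Y} (ha : a ∈ τ) (hb : b ∈ τ) (hy : y ∈ τ)
    {x : ι → ℝ} (hx : x ∈ W.L b y) : W.U a b *ᵥ x ∈ W.L a y :=
  W.L_map a b y (W.down τ hτ _ (by
    simp only [insert_subset_iff, singleton_subset_iff]; exact ⟨ha, hb, hy⟩)) x hx

lemma vS_eq {τ S : Finset Y} (hτ : τ ∈ W.K) {a b : Y} (ha : a ∈ τ) (hb : b ∈ τ) (hS : S ⊆ τ) :
    W.U a b *ᵥ W.vS b S = W.vS a S :=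
  W.vS_map a b S (W.down τ hτ _ (by simp only [insert_subset_iff]; exact ⟨ha, hb, hS⟩))

/-- The horizontal differential. -/
def hD : (Finset Y → Finset Y → ι → ℝ) →ₗ[ℝ] (Finset Y → Finset Y → ι → ℝ) where
  toFun x τ S := W.δ (fun τ' => x τ' S) τ
  map_add' x y := by
    ext1 τ; ext1 S
    exact congrFun (W.δ.map_add (fun τ' => x τ' S) (fun τ' => y τ' S)) τ
  map_smul' c x := by
    ext1 τ; ext1 S
    exact congrFun (W.δ.map_smul c (fun τ' => x τ' S)) τ

/-- The vertical differential. -/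
def vD (_W : WData m Y ι) :
    (Finset Y → Finset Y → ι → ℝ) →ₗ[ℝ] (Finset Y → Finset Y → ι → ℝ) :=
  (bdy ℝ (ι → ℝ)).compLeft (Finset Y)

/-- The augmentation of the rows. -/
noncomputable def αD : (Finset Y → Finset Y → ι → ℝ) →ₗ[ℝ] (Finset Y → ι → ℝ) where
  toFun x S := ∑ σ ∈ tops W.K (2 * m), W.o σ • (W.U (W.bs S) (W.bs σ) *ᵥ x σ S)
  map_add' x y := by ext1 S; simp [mulVec_add, sum_add_distrib]
  map_smul' c x := by ext1 S; simp [mulVec_smul, Finset.smul_sum, smul_comm c]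

/-- The augmentation of the columns. -/
def βD : (Finset Y → Finset Y → ι → ℝ) →ₗ[ℝ] (Finset Y → ι → ℝ) where
  toFun x τ := W.vD x τ ∅
  map_add' x y := by ext1 τ; rw [map_add]; rfl
  map_smul' c x := by ext1 τ; rw [map_smul]; rfl

lemma hD_apply (x : Finset Y → Finset Y → ι → ℝ) (τ S : Finset Y) : W.hD x τ S =
    if τ ∈ W.K then ∑ y ∈ τ, (sgn y τ : ℝ) • (W.U (W.bs τ) (W.bs (τ.erase y)) *ᵥ x (τ.erase y) S)
    else 0 := rfl

lemma vD_apply (x : Finset Y → Finset Y → ι → ℝ) (τ : Finset Y) :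
    W.vD x τ = bdy ℝ (ι → ℝ) (x τ) := rfl

lemma αD_apply (x : Finset Y → Finset Y → ι → ℝ) (S : Finset Y) :
    W.αD x S = ∑ σ ∈ tops W.K (2 * m), W.o σ • (W.U (W.bs S) (W.bs σ) *ᵥ x σ S) := rfl

lemma βD_apply (x : Finset Y → Finset Y → ι → ℝ) (τ : Finset Y) :
    W.βD x τ = bdy ℝ (ι → ℝ) (x τ) ∅ := rfl

/-- The terms of the double complex. -/
def DD (p q : ℕ) : Submodule ℝ (Finset Y → Finset Y → ι → ℝ) where
  carrier := {x | ∀ τ S, (x τ S ≠ 0 → τ ∈ W.K ∧ τ.card + p = 2 * m + 1 ∧ S ⊆ τ ∧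
    S.card = q + 1) ∧ ∀ y ∈ S, x τ S ∈ W.L (W.bs τ) y}
  add_mem' := by
    intro f g hf hg τ S
    refine ⟨fun h => ?_, fun y hy => add_mem ((hf τ S).2 y hy) ((hg τ S).2 y hy)⟩
    by_cases e : f τ S = 0
    · exact (hg τ S).1 (by simpa [e] using h)
    · exact (hf τ S).1 e
  zero_mem' := fun τ S => ⟨fun h => (h rfl).elim, fun y _ => zero_mem _⟩
  smul_mem' := by
    intro r f hf τ S
    exact ⟨fun h => (hf τ S).1 (fun e => h (by simp [e])),
      fun y hy => Submodule.smul_mem _ _ ((hf τ S).2 y hy)⟩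

variable {W}

lemma DD_supp {p q : ℕ} {x : Finset Y → Finset Y → ι → ℝ} (hx : x ∈ W.DD p q) {τ S : Finset Y}
    (h : x τ S ≠ 0) : τ ∈ W.K ∧ τ.card + p = 2 * m + 1 ∧ S ⊆ τ ∧ S.card = q + 1 := (hx τ S).1 h

lemma DD_bs {p q : ℕ} {x : Finset Y → Finset Y → ι → ℝ} (hx : x ∈ W.DD p q) {τ S : Finset Y}
    (h : x τ S ≠ 0) : W.bs S ∈ S ∧ W.bs τ ∈ τ := by
  obtain ⟨-, -, h3, h4⟩ := DD_supp hx h
  have : S.Nonempty := card_pos.1 (by omega)
  exact ⟨W.bs_mem S this, W.bs_mem τ (this.mono h3)⟩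

lemma h_mem (p q : ℕ) (x : Finset Y → Finset Y → ι → ℝ) (hx : x ∈ W.DD (p + 1) q) :
    W.hD x ∈ W.DD p q := by
  intro τ S
  rw [hD_apply]
  split_ifs with hτ
  · refine ⟨fun h => ?_, fun z hz => Submodule.sum_mem _ (fun y hy => ?_)⟩
    · obtain ⟨y, hy, h1⟩ := exists_ne_zero_of_sum_ne_zero h
      obtain ⟨-, h2, h3, h4⟩ := DD_supp hx (τ := τ.erase y) (S := S) (fun e => h1 (by simp [e]))
      have := card_erase_add_one hy
      exact ⟨hτ, by omega, h3.trans (erase_subset _ _), h4⟩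
    · by_cases e : x (τ.erase y) S = 0
      · simp [e]
      · exact Submodule.smul_mem _ _ (W.L_mem hτ (W.bs_mem τ ⟨y, hy⟩)
          (mem_of_mem_erase (DD_bs hx e).2) (mem_of_mem_erase ((DD_supp hx e).2.2.1 hz))
          ((hx _ S).2 z hz))
  · exact ⟨fun h => (h rfl).elim, fun _ _ => zero_mem _⟩

lemma v_mem (p q : ℕ) (x : Finset Y → Finset Y → ι → ℝ) (hx : x ∈ W.DD p (q + 1)) :
    W.vD x ∈ W.DD p q := by
  intro τ S
  rw [vD_apply, bdy_apply]
  refine ⟨fun h => ?_, fun z hz => Submodule.sum_mem _ (fun y _ =>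
    Submodule.smul_mem _ _ ((hx τ _).2 z (mem_insert_of_mem hz)))⟩
  obtain ⟨y, hy, h1⟩ := exists_ne_zero_of_sum_ne_zero h
  obtain ⟨h2, h3, h4, h5⟩ := DD_supp hx (τ := τ) (S := insert y S) (fun e => h1 (by simp [e]))
  rw [card_insert_of_notMem (mem_compl.1 hy)] at h5
  exact ⟨h2, h3, (subset_insert _ _).trans h4, by omega⟩

lemma hh {p q : ℕ} {x : Finset Y → Finset Y → ι → ℝ} (hx : x ∈ W.DD p q) :
    W.hD (W.hD x) = 0 := by
  ext1 τ; ext1 S
  refine congrFun (W.δ_δ (2 * m - p) (f := fun τ' => x τ' S) (fun τ' h => ?_)) τ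
  obtain ⟨h1, h2, -, -⟩ := DD_supp hx h
  have := card_pos.2 ⟨_, (DD_bs hx h).2⟩
  exact ⟨h1, by omega⟩

lemma hv (x : Finset Y → Finset Y → ι → ℝ) : W.hD (W.vD x) = W.vD (W.hD x) := by
  ext1 τ; ext1 S
  rw [vD_apply, bdy_apply, hD_apply]
  simp only [hD_apply, vD_apply, bdy_apply]
  split_ifs
  · simp only [mulVec_sum, mulVec_smul, Finset.smul_sum]
    rw [sum_comm]
    exact sum_congr rfl (fun _ _ => sum_congr rfl (fun _ _ => smul_comm _ _ _))
  · simp

lemma vv (x : Finset Y → Finset Y → ι → ℝ) : W.vD (W.vD x) = 0 := by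
  ext1 τ; exact bdy_bdy _

lemma βv (x : Finset Y → Finset Y → ι → ℝ) : W.βD (W.vD x) = 0 := by
  ext1 τ; exact congrFun (congrFun (vv x) τ) ∅

lemma βh (x : Finset Y → Finset Y → ι → ℝ) : W.βD (W.hD x) = W.δ (W.βD x) := by
  ext1 τ; exact (congrFun (congrFun (hv x) τ) ∅).symm

lemma row_h {p q : ℕ} {x : Finset Y → Finset Y → ι → ℝ} (hx : x ∈ W.DD p q) (S : Finset Y) :
    (fun τ => W.U (W.bs S) (W.bs τ) *ᵥ W.hD x τ S) =
      cob ℝ (ι → ℝ) W.K (fun τ => W.U (W.bs S) (W.bs τ) *ᵥ x τ S) := by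
  ext1 τ
  rw [hD_apply, cob_apply]
  split_ifs with hτ
  · rw [mulVec_sum]
    refine sum_congr rfl (fun y hy => ?_)
    by_cases e : x (τ.erase y) S = 0
    · simp [e]
    · rw [mulVec_smul, W.U_U hτ (mem_of_mem_erase ((DD_supp hx e).2.2.1 (DD_bs hx e).1))
        (W.bs_mem τ ⟨y, hy⟩) (mem_of_mem_erase (DD_bs hx e).2)]
  · simp

lemma αh (q : ℕ) (x : Finset Y → Finset Y → ι → ℝ) (hx : x ∈ W.DD 1 q) : W.αD (W.hD x) = 0 := by
  ext1 S
  have := sum_o_cob W.down W.cyc (fun τ => W.U (W.bs S) (W.bs τ) *ᵥ x τ S)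
  rw [← row_h hx S] at this
  exact this

lemma αv (q : ℕ) (x : Finset Y → Finset Y → ι → ℝ) (hx : x ∈ W.DD 0 (q + 1)) :
    W.αD (W.vD x) = tbdy W.bs W.U (W.αD x) := by
  ext1 S
  change _ = if S = ∅ then 0 else ∑ y ∈ Sᶜ, (sgn y (insert y S) : ℝ) •
    (W.U (W.bs S) (W.bs (insert y S)) *ᵥ W.αD x (insert y S))
  rw [αD_apply]
  split_ifs with hS
  · refine sum_eq_zero (fun σ _ => ?_)
    have : W.vD x σ S = 0 := by
      by_contra e
      have := (DD_supp (v_mem 0 q x hx) e).2.2.2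
      simp [hS] at this
    simp [this]
  · simp only [vD_apply, bdy_apply, αD_apply, mulVec_sum, mulVec_smul, Finset.smul_sum]
    rw [sum_comm]
    refine sum_congr rfl (fun y _ => sum_congr rfl (fun σ _ => ?_))
    rw [smul_comm]
    by_cases e : x σ (insert y S) = 0
    · simp [e]
    · obtain ⟨h1, -, h3, -⟩ := DD_supp hx e
      rw [W.U_U h1 (h3 (mem_insert_of_mem (W.bs_mem S (nonempty_iff_ne_empty.2 hS))))
        (h3 (DD_bs hx e).1) (DD_bs hx e).2]

lemma row_inj {p q : ℕ} {x x' : Finset Y → Finset Y → ι → ℝ} (hx : x ∈ W.DD p q)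
    (hx' : x' ∈ W.DD p q) (h : ∀ τ S, W.U (W.bs S) (W.bs τ) *ᵥ x τ S =
      W.U (W.bs S) (W.bs τ) *ᵥ x' τ S) : x = x' := by
  rw [← sub_eq_zero]
  ext1 τ; ext1 S
  by_contra e
  have hm := sub_mem hx hx'
  obtain ⟨h1, -, h3, -⟩ := DD_supp hm e
  apply e
  rw [← W.U_inv h1 (DD_bs hm e).2 (h3 (DD_bs hm e).1) ((x - x') τ S), Pi.sub_apply, Pi.sub_apply,
    mulVec_sub, h, sub_self, mulVec_zero]
  rfl

lemma row_exact {p q : ℕ} {x : Finset Y → Finset Y → ι → ℝ} (hx : x ∈ W.DD p q)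
    (h0 : W.hD x = 0) (h1 : p = 0 → W.αD x = 0) : ∃ y ∈ W.DD (p + 1) q, W.hD y = x := by
  have key : ∀ S : Finset Y, ∃ g : Finset Y → ι → ℝ,
      (∀ τ, g τ ≠ 0 → τ ∈ W.K ∧ τ.card + (p + 1) = 2 * m + 1 ∧ S ⊆ τ ∧ S.card = q + 1) ∧
      (∀ τ, ∀ y ∈ S, g τ ∈ W.L (W.bs S) y) ∧
      cob ℝ (ι → ℝ) W.K g = fun τ => W.U (W.bs S) (W.bs τ) *ᵥ x τ S := by
    intro S
    by_cases e : ∀ τ, x τ S = 0
    · exact ⟨0, fun τ h => (h rfl).elim, fun _ _ _ => zero_mem _, by ext1 τ; simp [e]⟩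
    push Not at e
    obtain ⟨τ₀, e⟩ := e
    obtain ⟨a1, a2, a3, a4⟩ := DD_supp hx e
    have a5 := card_pos.2 ⟨_, (DD_bs hx e).2⟩
    obtain ⟨g, g1, g2, g3⟩ := W.link S (W.down _ a1 _ a3) ⟨_, (DD_bs hx e).1⟩
      (⨅ y ∈ S, W.L (W.bs S) y) (2 * m - p) (fun τ => W.U (W.bs S) (W.bs τ) *ᵥ x τ S)
      (fun τ h => by
        obtain ⟨b1, b2, b3, -⟩ := DD_supp hx (τ := τ) (S := S) (fun e => h (by simp [e]))
        exact ⟨b1, b3, by omega⟩)
      (fun τ => by
        by_cases e' : x τ S = 0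
        · simp [e']
        · obtain ⟨b1, -, b3, -⟩ := DD_supp hx e'
          simp only [Submodule.mem_iInf]
          exact fun y hy => W.L_mem b1 (b3 (DD_bs hx e').1) (DD_bs hx e').2 (b3 hy)
            ((hx τ S).2 y hy))
      (by rw [← row_h hx S, h0]; ext1 τ; simp)
      (fun hc => congrFun (h1 (by omega)) S)
    refine ⟨g, fun τ h => ?_, fun τ => by simpa only [Submodule.mem_iInf] using g2 τ, g3⟩
    obtain ⟨b1, b2, b3⟩ := g1 τ h
    exact ⟨b1, by omega, b2, a4⟩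
  choose g g1 g2 g3 using key
  have hb : ∀ τ S, g S τ ≠ 0 → W.bs S ∈ τ ∧ W.bs τ ∈ τ := by
    intro τ S h
    obtain ⟨-, -, h3, h4⟩ := g1 S τ h
    have : S.Nonempty := card_pos.1 (by omega)
    exact ⟨h3 (W.bs_mem S this), W.bs_mem τ (this.mono h3)⟩
  have hy : (fun τ S => W.U (W.bs τ) (W.bs S) *ᵥ g S τ) ∈ W.DD (p + 1) q := by
    intro τ S
    refine ⟨fun h => g1 S τ (fun e => h (by simp [e])), fun y hy => ?_⟩
    by_cases e : g S τ = 0
    · simp [e]
    · exact W.L_mem (g1 S τ e).1 (hb τ S e).2 (hb τ S e).1 ((g1 S τ e).2.2.1 hy) (g2 S τ y hy)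
  refine ⟨_, hy, row_inj (h_mem p q _ hy) hx (fun τ S => ?_)⟩
  refine (congrFun (row_h hy S) τ).trans (Eq.trans ?_ (congrFun (g3 S) τ))
  refine congrFun (congrArg _ (funext fun τ' => ?_)) τ
  by_cases e : g S τ' = 0
  · simp [e]
  · exact W.U_inv (g1 S τ' e).1 (hb τ' S e).1 (hb τ' S e).2 _

lemma col_exact {p q : ℕ} {x : Finset Y → Finset Y → ι → ℝ} (hx : x ∈ W.DD (p + 1) q)
    (h0 : W.vD x = 0) : ∃ y ∈ W.DD (p + 1) (q + 1), W.vD y = x := by
  have key : ∀ τ : Finset Y, ∃ g : Finset Y → ι → ℝ,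
      (∀ S, g S ≠ 0 → τ ∈ W.K ∧ τ.card + (p + 1) = 2 * m + 1 ∧ S ⊆ τ ∧ S.card = q + 1 + 1) ∧
      (∀ S, ∀ y ∈ S, g S ∈ W.L (W.bs τ) y) ∧ bdy ℝ (ι → ℝ) g = x τ := by
    intro τ
    by_cases e : ∀ S, x τ S = 0
    · exact ⟨0, fun τ h => (h rfl).elim, fun _ _ _ => zero_mem _, by ext1 S; simp [e]⟩
    push Not at e
    obtain ⟨S₀, e⟩ := e
    obtain ⟨a1, a2, -, -⟩ := DD_supp hx e
    obtain ⟨g, g1, g2, g3⟩ := cech_exact (W.adapted τ a1 (by omega) _ (DD_bs hx e).2) q (x τ)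
      (fun S h => (DD_supp hx h).2.2) (fun S => (hx τ S).2) (congrFun h0 τ)
    exact ⟨g, fun S h => ⟨a1, a2, g1 S h⟩, g2, g3⟩
  choose g g1 g2 g3 using key
  exact ⟨g, fun τ S => ⟨g1 τ S, g2 τ S⟩, funext g3⟩

lemma v_eq_zero {p : ℕ} {x : Finset Y → Finset Y → ι → ℝ} (hx : x ∈ W.DD p 0)
    (h0 : W.βD x = 0) : W.vD x = 0 := by
  ext1 τ; ext1 S
  rcases S.eq_empty_or_nonempty with rfl | hS
  · exact congrFun h0 τ
  · rw [vD_apply, bdy_apply]
    refine sum_eq_zero (fun y hy => ?_)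
    have : x τ (insert y S) = 0 := by
      by_contra e
      have := (DD_supp hx e).2.2.2
      rw [card_insert_of_notMem (mem_compl.1 hy)] at this
      have := card_pos.2 hS
      omega
    simp [this]

lemma β_mem {p c : ℕ} (hc : c + p = 2 * m + 1) {x : Finset Y → Finset Y → ι → ℝ}
    (hx : x ∈ W.DD p 0) : W.βD x ∈ W.CE c := by
  intro τ h
  rw [βD_apply, bdy_empty] at h
  obtain ⟨y, -, h1⟩ := exists_ne_zero_of_sum_ne_zero h
  obtain ⟨h2, h3, -, -⟩ := DD_supp hx h1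
  exact ⟨h2, by omega⟩

lemma β_surj {p c : ℕ} (hc : c + p = 2 * m + 1) {b : Finset Y → ι → ℝ} (hb : b ∈ W.CF c) :
    ∃ x ∈ W.DD p 0, W.βD x = b := by
  have key : ∀ τ : Finset Y, ∃ g : Finset Y → ι → ℝ,
      (∀ S, g S ≠ 0 → τ ∈ W.K ∧ τ.card + p = 2 * m + 1 ∧ S ⊆ τ ∧ S.card = 0 + 1) ∧
      (∀ S, ∀ y ∈ S, g S ∈ W.L (W.bs τ) y) ∧ bdy ℝ (ι → ℝ) g ∅ = b τ := by
    intro τ
    by_cases e : b τ = 0
    · exact ⟨0, fun τ h => (h rfl).elim, fun _ _ _ => zero_mem _, by simp [e]⟩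
    obtain ⟨a1, a2⟩ := hb.1 τ e
    obtain ⟨g, g1, g2, g3⟩ := cech_surj (W.L (W.bs τ)) τ (hb.2 τ trivial)
    exact ⟨g, fun S h => ⟨a1, by omega, g1 S h⟩, g2, g3⟩
  choose g g1 g2 g3 using key
  exact ⟨g, fun τ S => ⟨g1 τ S, g2 τ S⟩, funext g3⟩

end WData

end Pool.Agent.Work.MP_dd0bbc_gt
end

-- merged part: Pool.Agent.Work.MP_dd0bbc_gt.WittZ
section
/-! The two staircase inequalities. -/

set_option autoImplicit false

namespace Pool.Agent.Work.MP_dd0bbc_gt.WData

open Finset Matrix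

variable {m : ℕ} {Y ι : Type} [Fintype Y] [LinearOrder Y] [Fintype ι] [DecidableEq ι]
  (W : WData m Y ι)

/-- The kernel elements on the top faces. -/
noncomputable def rD : (Finset Y → ℝ) →ₗ[ℝ] (Finset Y → Finset Y → ι → ℝ) where
  toFun w σ S := if σ ∈ tops W.K (2 * m) then
    (if S ⊆ σ ∧ S.card = m then (w σ * ∏ y ∈ S, W.A σ y) • W.vS (W.bs σ) S else 0) else 0
  map_add' f g := by
    ext1 σ; ext1 S; simp only [Pi.add_apply]; split_ifs <;> simp [add_mul, add_smul]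
  map_smul' c f := by
    ext1 σ; ext1 S; simp only [Pi.smul_apply, RingHom.id_apply]
    split_ifs <;> simp [smul_smul, mul_assoc]

lemma rD_apply (w : Finset Y → ℝ) (σ S : Finset Y) : W.rD w σ S = if σ ∈ tops W.K (2 * m) then
    (if S ⊆ σ ∧ S.card = m then (w σ * ∏ y ∈ S, W.A σ y) • W.vS (W.bs σ) S else 0) else 0 := rfl

variable {W}

lemma bs_of_card {S : Finset Y} (h : S.card = m) : W.bs S ∈ S :=
  W.bs_mem S (card_pos.1 (by have := W.m_pos; omega))

lemma bs_top {σ : Finset Y} (h : σ ∈ tops W.K (2 * m)) : W.bs σ ∈ σ :=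
  W.bs_mem σ (card_pos.1 (by have := (mem_tops.1 h).2; omega))

lemma line_chart {τ S : Finset Y} (hτ : τ ∈ W.K) (hS : S ⊆ τ) (hc : S.card = m) {a : Y}
    (ha : a ∈ τ) (x : ι → ℝ) : (∀ y ∈ S, x ∈ W.L a y) ↔ ∃ t : ℝ, x = t • W.vS a S := by
  have hb := bs_of_card (W := W) hc
  have h := W.inter_line S (W.down τ hτ S hS) hc _ hb
  constructor
  · intro hx
    obtain ⟨t, ht⟩ := (h (W.U (W.bs S) a *ᵥ x)).1
      (fun y hy => W.L_mem hτ (hS hb) ha (hS hy) (hx y hy))
    exact ⟨t, by rw [← W.U_inv hτ ha (hS hb) x, ht, mulVec_smul, W.vS_eq hτ ha (hS hb) hS]⟩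
  · rintro ⟨t, rfl⟩ y hy
    rw [← W.vS_eq hτ ha (hS hb) hS, ← mulVec_smul]
    exact W.L_mem hτ ha (hS hb) (hS hy) ((h _).2 ⟨t, rfl⟩ y hy)

lemma DD_eq_zero {p : ℕ} {x : Finset Y → Finset Y → ι → ℝ} (hx : x ∈ W.DD p m) : x = 0 := by
  ext1 τ; ext1 S
  by_contra e
  obtain ⟨h1, -, h3, h4⟩ := DD_supp hx e
  obtain ⟨h5, h6⟩ := DD_bs hx e
  apply e
  rw [← W.U_inv h1 h6 (h3 h5) (x τ S), W.inter_bot S (W.down τ h1 S h3) h4 _ h5 _
    (fun y hy => W.L_mem h1 (h3 h5) h6 (h3 hy) ((hx τ S).2 y hy)), mulVec_zero]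
  rfl

lemma rD_mem (w : Finset Y → ℝ) : W.rD w ∈ W.DD 0 (m - 1) := by
  intro σ S
  have := W.m_pos
  rw [rD_apply]
  split_ifs with h1 h2
  · exact ⟨fun _ => ⟨(mem_tops.1 h1).1, (mem_tops.1 h1).2, h2.1, by omega⟩,
      (line_chart (mem_tops.1 h1).1 h2.1 h2.2 (bs_top h1) _).2 ⟨_, rfl⟩⟩
  · exact ⟨fun h => (h rfl).elim, fun _ _ => zero_mem _⟩
  · exact ⟨fun h => (h rfl).elim, fun _ _ => zero_mem _⟩

lemma vD_rD (w : Finset Y → ℝ) : W.vD (W.rD w) = 0 := by
  ext1 σ
  rw [vD_apply]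
  by_cases h : σ ∈ tops W.K (2 * m)
  · have : W.rD w σ = fun S => if S ⊆ σ ∧ S.card = m then
        (w σ * ∏ y ∈ S, W.A σ y) • W.vS (W.bs σ) S else 0 := by
      ext1 S; rw [rD_apply, if_pos h]
    rw [this]
    exact (W.ker_top σ h _).2 ⟨w σ, fun _ _ _ => rfl⟩
  · have : W.rD w σ = 0 := by ext1 S; rw [rD_apply, if_neg h]; rfl
    rw [this, map_zero]; rfl

lemma αD_rD (w : Finset Y → ℝ) : W.αD (W.rD w) = W.astar w := by
  ext1 S
  change _ = if S.card = m then (∑ σ ∈ (tops W.K (2 * m)).filter (S ⊆ ·),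
    W.o σ * w σ * ∏ y ∈ S, W.A σ y) • W.vS (W.bs S) S else 0
  rw [αD_apply]
  split_ifs with hS
  · rw [Finset.sum_smul, sum_filter]
    refine sum_congr rfl (fun σ hσ => ?_)
    rw [rD_apply, if_pos hσ]
    by_cases h : S ⊆ σ
    · rw [if_pos ⟨h, hS⟩, if_pos h, mulVec_smul,
        W.vS_eq (mem_tops.1 hσ).1 (h (bs_of_card hS)) (bs_top hσ) h, smul_smul, mul_assoc]
    · simp [h]
  · refine sum_eq_zero (fun σ hσ => ?_)
    simp [rD_apply, hS]

lemma rD_inj {w : Finset Y → ℝ} (hw : w ∈ W.Wt) (h : W.rD w = 0) : w = 0 := by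
  ext1 σ
  by_contra e
  have hσ : σ ∈ tops W.K (2 * m) := mem_tops.2 (hw σ e)
  obtain ⟨S, hS, hc⟩ := exists_subset_card_eq (s := σ) (n := m)
    (by have := (mem_tops.1 hσ).2; omega)
  have h1 := congrFun (congrFun h σ) S
  rw [rD_apply, if_pos hσ, if_pos ⟨hS, hc⟩] at h1
  have h2 : W.vS (W.bs σ) S ≠ 0 := by
    intro e'
    apply W.vS_ne S (W.down σ (mem_tops.1 hσ).1 S hS) hc _ (bs_of_card (W := W) hc)
    rw [← W.vS_eq (mem_tops.1 hσ).1 (hS (bs_of_card hc)) (bs_top hσ) hS, e', mulVec_zero]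
  rcases smul_eq_zero.1 h1 with h3 | h3
  · exact mul_ne_zero e (prod_ne_zero_iff.2 (fun y hy => W.A_ne σ hσ y (hS hy))) h3
  · exact h2 h3

lemma exists_rD {x : Finset Y → Finset Y → ι → ℝ} (hx : x ∈ W.DD 0 (m - 1)) (h0 : W.vD x = 0) :
    ∃ w ∈ W.Wt, W.rD w = x := by
  have hm := W.m_pos
  have key : ∀ σ ∈ tops W.K (2 * m), ∃ t : ℝ, ∀ S, x σ S =
      if S ⊆ σ ∧ S.card = m then (t * ∏ y ∈ S, W.A σ y) • W.vS (W.bs σ) S else 0 := by
    intro σ hσ
    have h1 : ∀ S, ∃ c : ℝ, x σ S = if S ⊆ σ ∧ S.card = m then c • W.vS (W.bs σ) S else 0 := by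
      intro S
      split_ifs with h
      · exact (line_chart (mem_tops.1 hσ).1 h.1 h.2 (bs_top hσ) _).1 (hx σ S).2
      · refine ⟨0, ?_⟩
        by_contra e
        obtain ⟨-, -, h3, h4⟩ := DD_supp hx e
        exact h ⟨h3, by omega⟩
    choose c hc using h1
    obtain ⟨t, ht⟩ := (W.ker_top σ hσ c).1 (by rw [← funext hc]; exact congrFun h0 σ)
    refine ⟨t, fun S => ?_⟩
    rw [hc]
    split_ifs with h
    · rw [ht S h.1 h.2]
    · rfl
  choose! t ht using key
  refine ⟨fun σ => if σ ∈ tops W.K (2 * m) then t σ else 0, fun σ h => ?_, ?_⟩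
  · exact mem_tops.1 (by by_contra e; exact h (if_neg e))
  · ext1 σ; ext1 S
    rw [rD_apply]
    split_ifs with h h'
    · rw [ht σ h, if_pos h']
    · rw [ht σ h, if_neg h']
    · by_contra e
      obtain ⟨h1, h2, -, -⟩ := DD_supp hx (Ne.symm e)
      exact h (mem_tops.2 ⟨h1, h2⟩)

variable (W)

theorem w2 : Module.finrank ℝ (W.Wt ⊓ LinearMap.ker W.astar : Submodule ℝ _) ≤ W.hF := by
  have hm := W.m_pos
  set P : Submodule ℝ (Finset Y → ℝ) := W.Wt ⊓ LinearMap.ker W.astar with hP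
  have hinj : Function.Injective (W.rD.domRestrict P) :=
    (injective_iff_map_eq_zero _).2 (fun w hw => Subtype.ext (rD_inj w.2.1 hw))
  rw [← LinearMap.finrank_range_of_inj hinj, ← hdim_bot]
  have hZ : ∀ z ∈ LinearMap.range (W.rD.domRestrict P), W.vD z = 0 := by
    rintro _ ⟨w, rfl⟩; exact vD_rD _
  refine hdim_le_of_hrank_le (zigzag W.hD W.vD W.hD W.βD W.vD W.δ (fun p q => W.DD (p + 1) q)
    (fun _ => W.CF m) (m - 1) _ ⊥ _
    (fun p q x hx => hh hx) (fun p q x _ => hv x)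
    (fun p q x _ => vv x) (fun q x hx => hh hx) (fun p x _ => βv x) (fun q x _ => hv x)
    (fun p x _ => βh x) (fun p q => h_mem (p + 1) q) (fun p q => v_mem (p + 1) q) ?_
    (fun _ => hZ) (fun q _ x hx h => row_exact hx h (by omega))
    (fun p q _ x hx h => row_exact hx h (by omega)) (fun hj x hx h => ?_) (fun _ x hx h => ?_)
    (fun b hb => β_surj (by omega) hb) (fun _ x hx h => col_exact hx (v_eq_zero hx h))
    (fun p q _ x hx h => col_exact hx h) (fun x hx h1 h2 => ?_))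
  · rintro _ ⟨w, rfl⟩
    refine row_exact (rD_mem _) ?_ (fun _ => (αD_rD _).trans w.2.2)
    ext1 τ; ext1 S
    rw [hD_apply]
    split_ifs with hτ
    · refine sum_eq_zero (fun y hy => ?_)
      have : W.rD.domRestrict P w (τ.erase y) S = 0 := by
        by_contra e
        have h1 := (DD_supp (rD_mem (W := W) w.1) e).2.1
        have := card_erase_add_one hy
        have := W.card_le τ hτ
        omega
      rw [this]; simp
    · rfl
  · refine ⟨β_mem (by omega) hx, ?_⟩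
    rw [SetLike.mem_coe, LinearMap.mem_ker, ← βh]
    ext1 τ
    exact congrFun (congrFun (hZ _ h) τ) ∅
  · exact ⟨β_mem (by omega) hx, h⟩
  · have h0 : W.vD x = 0 := by
      by_cases hj : m - 1 = 0
      · rw [hj] at hx; exact v_eq_zero hx (h2 hj)
      · exact h1 hj
    obtain ⟨y, hy, rfl⟩ := col_exact hx h0
    rw [Nat.sub_add_cancel hm] at hy
    rw [DD_eq_zero hy, map_zero, map_zero]
    exact zero_mem _

theorem w4 : Module.finrank ℝ W.ZI ≤ Module.finrank ℝ (W.Wt.map W.astar) + W.hE (m + 1) := by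
  have hm := W.m_pos
  rw [← hdim_add W.ZI (W.Wt.map W.astar), add_comm]
  refine add_le_add (Submodule.finrank_mono inf_le_right) ?_
  have htop : ∀ x ∈ W.DD 0 0, W.δ (W.βD x) = 0 := by
    intro x hx
    ext1 τ
    by_contra e
    have h1 := W.δ_mem _ (β_mem (c := 2 * m + 1) rfl hx) τ e
    have := W.card_le τ h1.1
    omega
  refine hdim_le_of_hrank_le (zigzag W.hD W.vD W.αD W.βD (tbdy W.bs W.U) W.δ W.DD
    (fun _ => W.CE (m + 1)) (m - 1) _ _ _
    (fun p q x hx => hh hx) (fun p q x _ => hv x)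
    (fun p q x _ => vv x) αh (fun p x _ => βv x) αv
    (fun p x _ => βh x) h_mem v_mem (fun z hz => ?_)
    (fun _ z hz => hz.2) (fun q _ x hx h => row_exact hx ?_ (fun _ => h))
    (fun p q _ x hx h => row_exact hx h (by omega))
    (fun hj x hx _ => ⟨β_mem (by omega) hx, htop x hx⟩) (fun _ x hx h => ⟨β_mem (by omega) hx, h⟩)
    (fun b hb => β_surj (c := m + 1) (by omega) ⟨hb, fun τ _ => ?_⟩) (fun hj x hx h => ?_)
    (fun p q _ x hx h => col_exact hx h) (fun x hx h1 h2 => ?_))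
  · have key : ∀ S, z S ≠ 0 → ∃ σ ∈ tops W.K (2 * m), S ⊆ σ := fun S h =>
      W.pure S (hz.1.1 S h).1 ⟨_, bs_of_card (W := W) (hz.1.1 S h).2⟩
    choose! c hc1 hc2 using key
    refine ⟨fun σ S => if σ = c S then W.o σ • (W.U (W.bs σ) (W.bs S) *ᵥ z S) else 0,
      fun σ S => ?_, ?_⟩
    · by_cases e : z S = 0
      · simp [e]
      beta_reduce
      split_ifs with h
      · subst h
        have h1 := mem_tops.1 (hc1 S e)
        have h2 := (hz.1.1 S e).2
        refine ⟨fun _ => ⟨h1.1, h1.2, hc2 S e, by omega⟩, fun y hy => Submodule.smul_mem _ _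
          (W.L_mem h1.1 (bs_top (hc1 S e)) (hc2 S e (bs_of_card h2)) (hc2 S e hy) ?_)⟩
        have h3 := hz.1.2 S trivial
        simp only [SetLike.mem_coe, Submodule.mem_iInf] at h3
        exact h3 y hy
      · exact ⟨fun h => (h rfl).elim, fun _ _ => zero_mem _⟩
    · ext1 S
      rw [αD_apply]
      by_cases e : z S = 0
      · simp [e]
      rw [sum_eq_single_of_mem (c S) (hc1 S e) (fun σ _ h => by simp [h]), if_pos rfl, mulVec_smul,
        W.U_inv (mem_tops.1 (hc1 S e)).1 (hc2 S e (bs_of_card (hz.1.1 S e).2)) (bs_top (hc1 S e)),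
        smul_smul]
      rcases W.o_eq _ (hc1 S e) with h | h <;> simp [h]
  · ext1 τ; ext1 S
    rw [hD_apply]
    split_ifs with hτ
    · refine sum_eq_zero (fun y hy => ?_)
      have : x (τ.erase y) S = 0 := by
        by_contra e
        have h1 := (DD_supp hx e).2.1
        have := card_erase_add_one hy
        have := W.card_le τ hτ
        omega
      rw [this]; simp
    · rfl
  · by_cases e : b τ = 0
    · rw [e]; exact zero_mem _
    · obtain ⟨h1, h2⟩ := hb τ e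
      beta_reduce
      rw [W.span_top τ h1 h2 _ (W.bs_mem τ (card_pos.1 (by omega)))]
      trivial
  · obtain ⟨j, hj'⟩ : ∃ j, m - 1 = j + 1 := ⟨m - 2, by omega⟩
    rw [hj'] at hx ⊢
    exact col_exact hx (v_eq_zero hx h)
  · have h0 : W.vD x = 0 := by
      by_cases hj : m - 1 = 0
      · rw [hj] at hx; exact v_eq_zero hx (h2 hj)
      · exact h1 hj
    obtain ⟨w, hw, rfl⟩ := exists_rD hx h0
    exact ⟨w, hw, (αD_rD w).symm⟩

end Pool.Agent.Work.MP_dd0bbc_gt.WData
end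

-- merged part: Pool.Agent.Work.MP_dd0bbc_gt.Ext1
section
/-! Compound matrices and the subspaces of multiples of a vector. -/

set_option autoImplicit false

namespace Pool.Agent.Work.MP_dd0bbc_gt

open Finset Matrix

variable {n m : ℕ}

theorem card_Idx : Fintype.card (Idx n m) = n.choose m := by
  rw [Fintype.card_finset_len, Fintype.card_fin]

section Ring

variable {R : Type} [CommRing R]

/-- The Pluecker coordinates as an alternating map. -/
noncomputable def ext1_alt (R : Type) [CommRing R] (n m : ℕ) :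
    (Fin n → R) [⋀^Fin m]→ₗ[R] (Idx n m → R) :=
  AlternatingMap.pi fun I : Idx n m =>
    (Matrix.detRowAlternating : (Fin m → R) [⋀^Fin m]→ₗ[R] R).compLinearMap
      (LinearMap.funLeft R R (I.1.orderEmbOfFin I.2))

theorem ext1_alt_apply (f : Fin m → Fin n → R) : ext1_alt R n m f = plk f := rfl

/-- An alternating map is determined by its values on increasing tuples of basis vectors. -/
theorem ext1_ext {N : Type} [AddCommGroup N] [Module R N] {φ ψ : (Fin n → R) [⋀^Fin m]→ₗ[R] N}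
    (h : ∀ I : Idx n m, φ (fun i => Pi.single (I.1.orderEmbOfFin I.2 i) 1) =
      ψ (fun i => Pi.single (I.1.orderEmbOfFin I.2 i) 1)) : φ = ψ := by
  refine Module.Basis.ext_alternating (Pi.basisFun R (Fin n)) fun v hv => ?_
  simp only [Pi.basisFun_apply]
  have hc : (univ.image v).card = m := by rw [card_image_of_injective _ hv, card_fin]
  have hs : StrictMono (v ∘ Tuple.sort v) :=
    (Tuple.monotone_sort v).strictMono_of_injective (hv.comp (Tuple.sort v).injective)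
  have he := orderEmbOfFin_unique hc (f := v ∘ Tuple.sort v)
    (fun i => mem_image_of_mem _ (mem_univ _)) hs
  have h1 := h ⟨_, hc⟩
  have h2 : (fun i => (Pi.single ((univ.image v).orderEmbOfFin hc i) 1 : Fin n → R)) =
      (fun i => (Pi.single (v i) 1 : Fin n → R)) ∘ Tuple.sort v := by
    funext i
    rw [← he]
    rfl
  rw [h2, AlternatingMap.map_perm, AlternatingMap.map_perm] at h1
  exact smul_left_cancel _ h1

theorem ext1_plk_row {f : Fin m → Fin n → R} {J : Idx n m} {k : Fin m} {i : Fin n}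
    (hk : f k = Pi.single i 1) (hi : i ∉ J.1) : plk f J = 0 := by
  refine det_eq_zero_of_row_eq_zero k fun j => ?_
  rw [of_apply, hk, Pi.single_eq_of_ne]
  exact fun e => hi (e ▸ orderEmbOfFin_mem _ _ _)

theorem ext1_plk_single (I : Idx n m) :
    plk (fun i => (Pi.single (I.1.orderEmbOfFin I.2 i) 1 : Fin n → R)) = Pi.single I 1 := by
  funext J
  by_cases h : J = I
  · subst h
    rw [Pi.single_eq_same, plk]
    refine Eq.trans (congrArg det ?_) (det_one (n := Fin m))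
    ext i j
    simp only [of_apply, Pi.single_apply, one_apply, EmbeddingLike.apply_eq_iff_eq, eq_comm]
  · rw [Pi.single_eq_of_ne h]
    have : ¬ I.1 ⊆ J.1 := fun hs =>
      h (Subtype.ext (eq_of_subset_of_card_le hs (by rw [I.2, J.2])).symm)
    obtain ⟨i, hi, hi'⟩ := not_subset.1 this
    obtain ⟨k, hk⟩ := exists_orderEmb_eq I.2 hi
    exact ext1_plk_row (k := k) (by rw [hk]) hi'

theorem cmp_mulVec_plk (T : Matrix (Fin n) (Fin n) R) (f : Fin m → Fin n → R) :
    cmp m T *ᵥ plk f = plk (fun i => T *ᵥ f i) := by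
  have h : (cmp m T).mulVecLin.compAlternatingMap (ext1_alt R n m) =
      (ext1_alt R n m).compLinearMap T.mulVecLin := by
    refine ext1_ext fun I => ?_
    rw [LinearMap.compAlternatingMap_apply, AlternatingMap.compLinearMap_apply, ext1_alt_apply,
      ext1_alt_apply, ext1_plk_single, mulVecLin_apply, mulVec_single_one]
    funext J
    rw [plk, ← det_transpose]
    simp only [mulVecLin_apply, mulVec_single_one]
    rfl
  exact DFunLike.congr_fun h f

theorem cmp_one : cmp m (1 : Matrix (Fin n) (Fin n) R) = 1 := by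
  ext I J
  rw [one_apply, ← Pi.single_apply J (1 : R) I, ← ext1_plk_single, cmp, plk, ← det_transpose]
  congr 1
  ext i j
  simp only [transpose_apply, submatrix_apply, of_apply, Pi.single_apply, one_apply]

theorem cmp_mul (T T' : Matrix (Fin n) (Fin n) R) : cmp m (T * T') = cmp m T * cmp m T' := by
  ext I J
  have h : cmp m (T * T') *ᵥ Pi.single J 1 = (cmp m T * cmp m T') *ᵥ Pi.single J 1 := by
    rw [← mulVec_mulVec, ← ext1_plk_single, cmp_mulVec_plk, cmp_mulVec_plk, cmp_mulVec_plk]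
    simp only [mulVec_mulVec]
  rw [mulVec_single_one, mulVec_single_one] at h
  exact congrFun h I

theorem cmp_map {S : Type} [CommRing S] (φ : R →+* S) (T : Matrix (Fin n) (Fin n) R) :
    cmp m (T.map φ) = (cmp m T).map φ := by
  ext I J
  rw [map_apply, cmp, cmp, RingHom.map_det]
  rfl

/-- The Pluecker coordinates of standard basis vectors. -/
theorem plk_single (I : Idx n m) :
    plk (fun i => (Pi.single (I.1.orderEmbOfFin I.2 i) 1 : Fin n → R)) = Pi.single I 1 :=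
  ext1_plk_single I

/-- The Pluecker coordinates form an alternating map. -/
theorem exists_alt_plk : ∃ φ : (Fin n → R) [⋀^Fin m]→ₗ[R] (Idx n m → R), ∀ f, φ f = plk f :=
  ⟨ext1_alt R n m, ext1_alt_apply⟩

end Ring

variable {Y : Type} [LinearOrder Y]

theorem plkS_congr {v w : Y → Fin n → ℝ} {S : Finset Y} (h : ∀ y ∈ S, v y = w y) :
    plkS m v S = plkS m w S := by
  unfold plkS
  split_ifs with hS
  · congr 1
    funext i
    exact h _ (orderEmbOfFin_mem _ _ _)
  · rfl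

theorem cmp_mulVec_plkS (T : Matrix (Fin n) (Fin n) ℝ) (v : Y → Fin n → ℝ) (S : Finset Y) :
    cmp m T *ᵥ plkS m v S = plkS m (fun y => T *ᵥ v y) S := by
  unfold plkS
  split_ifs with hS
  · exact cmp_mulVec_plk _ _
  · exact mulVec_zero _

theorem Lv_map (T : Matrix (Fin n) (Fin n) ℝ) (v : Fin n → ℝ) {x : Idx n m → ℝ}
    (hx : x ∈ Lv m v) : cmp m T *ᵥ x ∈ Lv m (T *ᵥ v) := by
  have h : Lv m v ≤ (Lv m (T *ᵥ v)).comap (cmp m T).mulVecLin := by
    refine Submodule.span_le.2 ?_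
    rintro _ ⟨f, ⟨i, hi⟩, rfl⟩
    exact Submodule.subset_span ⟨fun i => T *ᵥ f i, ⟨i, by rw [← hi]⟩, cmp_mulVec_plk T f⟩
  exact h hx

theorem ext1_single_mem {i : Fin n} {I : Idx n m} (hi : i ∈ I.1) :
    (Pi.single I 1 : Idx n m → ℝ) ∈ Lv m (Pi.single i 1 : Fin n → ℝ) := by
  obtain ⟨k, hk⟩ := exists_orderEmb_eq I.2 hi
  exact Submodule.subset_span ⟨_, ⟨k, by rw [hk]⟩, (plk_single I).symm⟩

theorem ext1_sum (x : Idx n m → ℝ) : x = ∑ I, x I • (Pi.single I 1 : Idx n m → ℝ) :=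
  pi_eq_sum_univ' x

theorem mem_Lv_single (i : Fin n) (x : Idx n m → ℝ) :
    x ∈ Lv m (Pi.single i 1 : Fin n → ℝ) ↔ ∀ I : Idx n m, i ∉ I.1 → x I = 0 := by
  constructor
  · intro hx I hI
    have h : Lv m (Pi.single i 1 : Fin n → ℝ) ≤
        LinearMap.ker (LinearMap.proj I : (Idx n m → ℝ) →ₗ[ℝ] ℝ) := by
      refine Submodule.span_le.2 ?_
      rintro _ ⟨f, ⟨k, hk⟩, rfl⟩
      exact ext1_plk_row hk hI
    exact h hx
  · intro h
    rw [ext1_sum x]
    refine Submodule.sum_mem _ fun I _ => ?_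
    by_cases hi : i ∈ I.1
    · exact Submodule.smul_mem _ _ (ext1_single_mem hi)
    · rw [h I hi, zero_smul]
      exact Submodule.zero_mem _

theorem ext1_std {v : Y → Fin n → ℝ} {τ : Finset Y} {k : ℕ} (hc : τ.card = k)
    (h : LinearIndependent ℝ (fun y : {y // y ∈ τ} => v y.1)) :
    ∃ (hk : k ≤ n) (T T' : Matrix (Fin n) (Fin n) ℝ), T * T' = 1 ∧ T' * T = 1 ∧
      ∀ i : Fin k, v (τ.orderEmbOfFin hc i) = T *ᵥ Pi.single (Fin.castLE hk i) 1 := by
  have h2 : LinearIndependent ℝ (fun i : Fin k => v (τ.orderEmbOfFin hc i)) :=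
    h.comp (τ.orderIsoOfFin hc) (τ.orderIsoOfFin hc).injective
  have hk : k ≤ n := by simpa using h2.fintype_card_le_finrank
  have h1 : LinearIndependent ℝ (fun i : Fin k => Pi.basisFun ℝ (Fin n) (Fin.castLE hk i)) :=
    (Pi.basisFun ℝ (Fin n)).linearIndependent.comp _ (Fin.castLE_injective hk)
  obtain ⟨g, hg⟩ := Submodule.exists_linearEquiv_restrict_eq
    (h1.linearCombinationEquiv.symm ≪≫ₗ h2.linearCombinationEquiv)
  refine ⟨hk, LinearMap.toMatrix' (g : (Fin n → ℝ) →ₗ[ℝ] Fin n → ℝ),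
    LinearMap.toMatrix' (g.symm : (Fin n → ℝ) →ₗ[ℝ] Fin n → ℝ), ?_, ?_, fun i => ?_⟩
  · rw [← LinearMap.toMatrix'_comp, LinearEquiv.comp_symm, LinearMap.toMatrix'_id]
  · rw [← LinearMap.toMatrix'_comp, LinearEquiv.symm_comp, LinearMap.toMatrix'_id]
  · have := hg (h1.linearCombinationEquiv (Finsupp.single i 1))
    rw [LinearMap.toMatrix'_mulVec]
    simpa using this

/-- Independent vectors are images of standard basis vectors, in increasing order. -/
theorem exists_std {v : Y → Fin n → ℝ} {τ : Finset Y}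
    (h : LinearIndependent ℝ (fun y : {y // y ∈ τ} => v y.1)) :
    ∃ (T T' : Matrix (Fin n) (Fin n) ℝ) (g : Y → ℕ), T * T' = 1 ∧ T' * T = 1 ∧ StrictMonoOn g τ ∧
      ∀ y ∈ τ, ∃ hy : g y < n, v y = T *ᵥ Pi.single ⟨g y, hy⟩ 1 := by
  obtain ⟨hk, T, T', h1, h2, h3⟩ := ext1_std rfl h
  refine ⟨T, T', fun y => if hy : y ∈ τ then ((τ.orderIsoOfFin rfl).symm ⟨y, hy⟩ : ℕ) else 0,
    h1, h2, fun x hx y hy hxy => ?_, fun y hy => ?_⟩
  · have hx' : x ∈ τ := hx
    have hy' : y ∈ τ := hy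
    simp only [dif_pos hx', dif_pos hy']
    exact (τ.orderIsoOfFin rfl).symm.strictMono (show (⟨x, hx'⟩ : τ) < ⟨y, hy'⟩ from hxy)
  · simp only [dif_pos hy]
    refine ⟨lt_of_lt_of_le (Fin.is_lt _) hk, ?_⟩
    have := h3 ((τ.orderIsoOfFin rfl).symm ⟨y, hy⟩)
    rwa [← coe_orderIsoOfFin_apply, OrderIso.apply_symm_apply] at this

theorem ext1_inv {T T' : Matrix (Fin n) (Fin n) ℝ} (h : T * T' = 1) (x : Idx n m → ℝ) :
    cmp m T *ᵥ (cmp m T' *ᵥ x) = x := by
  rw [mulVec_mulVec, ← cmp_mul, h, cmp_one, one_mulVec]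

theorem ext1_back {T T' : Matrix (Fin n) (Fin n) ℝ} (h : T' * T = 1) {w : Fin n → ℝ}
    {x : Idx n m → ℝ} (hx : x ∈ Lv m (T *ᵥ w)) : cmp m T' *ᵥ x ∈ Lv m w := by
  have := Lv_map T' _ hx
  rwa [mulVec_mulVec, h, one_mulVec] at this

theorem Lv_adapted {v : Y → Fin n → ℝ} {τ : Finset Y}
    (h : LinearIndependent ℝ (fun y : {y // y ∈ τ} => v y.1)) :
    Adapted (fun y => Lv m (v y)) τ := by
  obtain ⟨T, T', g, h1, h2, -, h3⟩ := exists_std h
  let e : (Idx n m → ℝ) ≃ₗ[ℝ] (Idx n m → ℝ) := LinearEquiv.ofLinearMap (cmp m T).mulVecLin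
    (cmp m T').mulVecLin (LinearMap.ext (ext1_inv h1)) (LinearMap.ext (ext1_inv h2))
  refine ((adapted_of_basis (Pi.basisFun ℝ (Idx n m))
    (fun y => {I | ∃ i ∈ I.1, (i : ℕ) = g y}) τ).map e).congr fun y hy => ?_
  obtain ⟨hy', h4⟩ := h3 y hy
  have h5 : Submodule.span ℝ (Pi.basisFun ℝ (Idx n m) '' {I | ∃ i ∈ I.1, (i : ℕ) = g y}) =
      Lv m (Pi.single ⟨g y, hy'⟩ 1 : Fin n → ℝ) := by
    ext x
    rw [Module.Basis.mem_span_image, mem_Lv_single]
    constructor
    · intro hs I hI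
      by_contra hne
      obtain ⟨i, hi, hi'⟩ := hs (show I ∈ _ from Finsupp.mem_support_iff.2 (by simpa using hne))
      exact hI ((Fin.ext hi' : i = ⟨g y, hy'⟩) ▸ hi)
    · intro hs I hI
      by_contra hne
      have h6 := Finsupp.mem_support_iff.1 hI
      rw [Pi.basisFun_repr] at h6
      exact h6 (hs I fun hi => hne ⟨_, hi, rfl⟩)
  rw [h5, h4]
  refine le_antisymm ?_ fun x hx => ⟨cmp m T' *ᵥ x, ext1_back h2 hx, ext1_inv h1 x⟩
  rintro _ ⟨x, hx, rfl⟩
  exact Lv_map T _ hx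

theorem Lv_span_top (hn : n = 2 * m) {v : Y → Fin n → ℝ} {τ : Finset Y} (hc : τ.card = m + 1)
    (h : LinearIndependent ℝ (fun y : {y // y ∈ τ} => v y.1)) : ⨆ y ∈ τ, Lv m (v y) = ⊤ := by
  obtain ⟨hk, T, T', h1, -, h3⟩ := ext1_std hc h
  refine eq_top_iff.2 fun x _ => ?_
  rw [← ext1_inv h1 x, ext1_sum (cmp m T' *ᵥ x), ← mulVecLin_apply, map_sum]
  refine Submodule.sum_mem _ fun I _ => ?_
  rw [map_smul]
  refine Submodule.smul_mem _ _ ?_
  have : ∃ i : Fin (m + 1), Fin.castLE hk i ∈ I.1 := by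
    by_contra hcon
    push Not at hcon
    have h4 : univ.image (Fin.castLE hk) ⊆ I.1ᶜ := by
      intro j hj
      obtain ⟨i, -, rfl⟩ := mem_image.1 hj
      exact mem_compl.2 (hcon i)
    have h5 := card_le_card h4
    rw [card_image_of_injective _ (Fin.castLE_injective hk), card_fin, card_compl, I.2,
      Fintype.card_fin] at h5
    omega
  obtain ⟨i, hi⟩ := this
  refine Submodule.mem_iSup_of_mem (τ.orderEmbOfFin hc i)
    (Submodule.mem_iSup_of_mem (orderEmbOfFin_mem _ _ _) ?_)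
  rw [h3]
  exact Lv_map T _ (ext1_single_mem hi)

/-- the coordinates of a common multiple, after straightening -/
theorem ext1_coord {v : Y → Fin n → ℝ} {S : Finset Y} {k : ℕ} (hc : S.card = k) {hk : k ≤ n}
    {T T' : Matrix (Fin n) (Fin n) ℝ} (h2 : T' * T = 1)
    (h3 : ∀ i : Fin k, v (S.orderEmbOfFin hc i) = T *ᵥ Pi.single (Fin.castLE hk i) 1)
    {x : Idx n m → ℝ} (hx : ∀ y ∈ S, x ∈ Lv m (v y)) (I : Idx n m)
    (hI : ¬ univ.image (Fin.castLE hk) ⊆ I.1) : (cmp m T' *ᵥ x) I = 0 := by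
  obtain ⟨j, hj, hj'⟩ := not_subset.1 hI
  obtain ⟨i, -, rfl⟩ := mem_image.1 hj
  have h4 := hx _ (orderEmbOfFin_mem S hc i)
  rw [h3] at h4
  exact (mem_Lv_single _ _).1 (ext1_back h2 h4) I hj'

theorem Lv_inter_bot {v : Y → Fin n → ℝ} {S : Finset Y} (hc : S.card = m + 1)
    (h : LinearIndependent ℝ (fun y : {y // y ∈ S} => v y.1)) {x : Idx n m → ℝ}
    (hx : ∀ y ∈ S, x ∈ Lv m (v y)) : x = 0 := by
  obtain ⟨hk, T, T', h1, h2, h3⟩ := ext1_std hc h
  have h4 : cmp m T' *ᵥ x = 0 := by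
    funext I
    refine ext1_coord hc h2 h3 hx I fun hs => ?_
    have h5 := card_le_card hs
    rw [card_image_of_injective _ (Fin.castLE_injective hk), card_fin, I.2] at h5
    omega
  rw [← ext1_inv h1 x, h4, mulVec_zero]

theorem ext1_plkS {v : Y → Fin n → ℝ} {S : Finset Y} (hc : S.card = m) {hk : m ≤ n}
    {T : Matrix (Fin n) (Fin n) ℝ}
    (h3 : ∀ i : Fin m, v (S.orderEmbOfFin hc i) = T *ᵥ Pi.single (Fin.castLE hk i) 1)
    (h0 : (univ.image (Fin.castLE hk)).card = m) :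
    plkS m v S = cmp m T *ᵥ Pi.single (⟨_, h0⟩ : Idx n m) 1 := by
  have he := orderEmbOfFin_unique h0 (f := Fin.castLE hk)
    (fun i => mem_image_of_mem _ (mem_univ _)) (Fin.strictMono_castLE hk)
  rw [plkS, dif_pos hc, ← plk_single, cmp_mulVec_plk]
  congr 1
  funext i
  rw [h3]
  exact congrArg (fun j => T *ᵥ Pi.single j 1) (congrFun he i)

theorem Lv_inter_line {v : Y → Fin n → ℝ} {S : Finset Y} (hc : S.card = m)
    (h : LinearIndependent ℝ (fun y : {y // y ∈ S} => v y.1)) (x : Idx n m → ℝ) :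
    (∀ y ∈ S, x ∈ Lv m (v y)) ↔ ∃ t : ℝ, x = t • plkS m v S := by
  constructor
  · intro hx
    obtain ⟨hk, T, T', h1, h2, h3⟩ := ext1_std hc h
    have h0 : (univ.image (Fin.castLE hk)).card = m := by
      rw [card_image_of_injective _ (Fin.castLE_injective hk), card_fin]
    refine ⟨(cmp m T' *ᵥ x) ⟨_, h0⟩, ?_⟩
    rw [ext1_plkS hc h3 h0, ← mulVec_smul]
    refine (ext1_inv h1 x).symm.trans (congrArg _ ?_)
    funext I
    by_cases hI : I = ⟨_, h0⟩
    · rw [hI, Pi.smul_apply, Pi.single_eq_same, smul_eq_mul, mul_one]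
    · rw [Pi.smul_apply, Pi.single_eq_of_ne hI, smul_zero]
      exact ext1_coord hc h2 h3 hx I fun hs =>
        hI (Subtype.ext (eq_of_subset_of_card_le hs (by rw [h0, I.2])).symm)
  · rintro ⟨t, rfl⟩ y hy
    refine Submodule.smul_mem _ _ ?_
    obtain ⟨k, hk⟩ := exists_orderEmb_eq hc hy
    exact Submodule.subset_span ⟨_, ⟨k, by rw [hk]⟩, dif_pos hc⟩

theorem plkS_ne {v : Y → Fin n → ℝ} {S : Finset Y} (hc : S.card = m)
    (h : LinearIndependent ℝ (fun y : {y // y ∈ S} => v y.1)) : plkS m v S ≠ 0 := by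
  obtain ⟨hk, T, T', -, h2, h3⟩ := ext1_std hc h
  have h0 : (univ.image (Fin.castLE hk)).card = m := by
    rw [card_image_of_injective _ (Fin.castLE_injective hk), card_fin]
  intro h4
  have h5 := ext1_inv h2 (Pi.single (⟨_, h0⟩ : Idx n m) (1 : ℝ))
  rw [← ext1_plkS hc h3 h0, h4, mulVec_zero] at h5
  have h6 := congrFun h5 ⟨_, h0⟩
  rw [Pi.single_eq_same] at h6
  exact zero_ne_one h6

end Pool.Agent.Work.MP_dd0bbc_gt
end

-- merged part: Pool.Agent.Work.MP_dd0bbc_gt.Ext2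
section
/-! The wedge pairing and the kernel on a top simplex. -/

set_option autoImplicit false

namespace Pool.Agent.Work.MP_dd0bbc_gt

open Finset Matrix

variable {m : ℕ}

/-- Expansion of an alternating map in Pluecker coordinates. -/
theorem ext2_expand {n : ℕ} {N : Type} [AddCommGroup N] [Module ℝ N]
    (φ : (Fin n → ℝ) [⋀^Fin m]→ₗ[ℝ] N) (f : Fin m → Fin n → ℝ) :
    φ f = ∑ I : Idx n m, plk f I • φ (fun i => Pi.single (I.1.orderEmbOfFin I.2 i) 1) := by
  have h : φ = (Fintype.linearCombination ℝ fun I : Idx n m =>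
      φ (fun i => Pi.single (I.1.orderEmbOfFin I.2 i) 1)).compAlternatingMap (ext1_alt ℝ n m) := by
    refine ext1_ext fun I => ?_
    rw [LinearMap.compAlternatingMap_apply, ext1_alt_apply, plk_single,
      Fintype.linearCombination_apply_single, one_smul]
  conv_lhs => rw [h]
  rw [LinearMap.compAlternatingMap_apply, ext1_alt_apply, Fintype.linearCombination_apply]

section Two

variable {V : Type} [AddCommGroup V] [Module ℝ V]

/-- Freezing the right block of an alternating map. -/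
def ext2_altL (Φ : V [⋀^(Fin m ⊕ Fin m)]→ₗ[ℝ] ℝ) (g : Fin m → V) : V [⋀^Fin m]→ₗ[ℝ] ℝ where
  toFun f := Φ (Sum.elim f g)
  map_update_add' f i x y := by simp only [Sum.elim_update_left, Φ.map_update_add]
  map_update_smul' f i c x := by simp only [Sum.elim_update_left, Φ.map_update_smul]
  map_eq_zero_of_eq' f i j h hij :=
    Φ.map_eq_zero_of_eq _ (i := .inl i) (j := .inl j) h fun e => hij (Sum.inl.inj e)

/-- Freezing the left block of an alternating map. -/
def ext2_altR (Φ : V [⋀^(Fin m ⊕ Fin m)]→ₗ[ℝ] ℝ) (f : Fin m → V) : V [⋀^Fin m]→ₗ[ℝ] ℝ where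
  toFun g := Φ (Sum.elim f g)
  map_update_add' g i x y := by simp only [Sum.elim_update_right, Φ.map_update_add]
  map_update_smul' g i c x := by simp only [Sum.elim_update_right, Φ.map_update_smul]
  map_eq_zero_of_eq' g i j h hij :=
    Φ.map_eq_zero_of_eq _ (i := .inr i) (j := .inr j) h fun e => hij (Sum.inr.inj e)

end Two

/-- The two halves of the index set. -/
def ext2_e (m : ℕ) : Fin (2 * m) ≃ Fin m ⊕ Fin m :=
  (finCongr (two_mul m)).trans finSumFinEquiv.symm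

/-- The determinant of two blocks of vectors. -/
noncomputable def ext2_D (m : ℕ) : (Fin (2 * m) → ℝ) [⋀^(Fin m ⊕ Fin m)]→ₗ[ℝ] ℝ :=
  (Matrix.detRowAlternating : (Fin (2 * m) → ℝ) [⋀^Fin (2 * m)]→ₗ[ℝ] ℝ).domDomCongr (ext2_e m)

theorem ext2_D_apply (F : Fin m ⊕ Fin m → Fin (2 * m) → ℝ) :
    ext2_D m F = (Matrix.of fun r => F (ext2_e m r)).det := rfl

theorem ext2_D_mul (T : Matrix (Fin (2 * m)) (Fin (2 * m)) ℝ)
    (F : Fin m ⊕ Fin m → Fin (2 * m) → ℝ) :
    ext2_D m (fun r => T *ᵥ F r) = T.det * ext2_D m F := by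
  rw [ext2_D_apply, ext2_D_apply, ← det_transpose T, mul_comm (det _), ← det_mul]
  congr 1
  ext i j
  simp [Matrix.mul_apply, mulVec, dotProduct, mul_comm]

/-- The matrix of the pairing. -/
noncomputable def ext2_w (m : ℕ) : Matrix (Idx (2 * m) m) (Idx (2 * m) m) ℝ := fun I J =>
  ext2_D m (Sum.elim (fun i => Pi.single (I.1.orderEmbOfFin I.2 i) 1)
    (fun i => Pi.single (J.1.orderEmbOfFin J.2 i) 1))

theorem ext2_pair (f g : Fin m → Fin (2 * m) → ℝ) :
    plk f ⬝ᵥ (ext2_w m *ᵥ plk g) = ext2_D m (Sum.elim f g) := by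
  refine Eq.trans ?_ (ext2_expand (ext2_altL (ext2_D m) g) f).symm
  refine sum_congr rfl fun I _ => ?_
  rw [smul_eq_mul]
  congr 1
  refine Eq.trans ?_ (ext2_expand (ext2_altR (ext2_D m)
    fun i => Pi.single (I.1.orderEmbOfFin I.2 i) 1) g).symm
  change ∑ J, ext2_w m I J * plk g J = ∑ J, plk g J * ext2_w m I J
  exact sum_congr rfl fun J _ => mul_comm _ _

theorem ext2_inv (T : Matrix (Fin (2 * m)) (Fin (2 * m)) ℝ) (x y : Idx (2 * m) m → ℝ) :
    (cmp m T *ᵥ x) ⬝ᵥ (ext2_w m *ᵥ (cmp m T *ᵥ y)) = T.det * (x ⬝ᵥ (ext2_w m *ᵥ y)) := by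
  have h : (Matrix.toLinearMap₂' ℝ (ext2_w m)).compl₁₂ (cmp m T).mulVecLin (cmp m T).mulVecLin =
      T.det • Matrix.toLinearMap₂' ℝ (ext2_w m) := by
    refine LinearMap.ext_basis (Pi.basisFun ℝ _) (Pi.basisFun ℝ _) fun I J => ?_
    rw [LinearMap.compl₁₂_apply, LinearMap.smul_apply, LinearMap.smul_apply,
      Matrix.toLinearMap₂'_apply', Matrix.toLinearMap₂'_apply', Pi.basisFun_apply,
      Pi.basisFun_apply, mulVecLin_apply, mulVecLin_apply, ← plk_single, ← plk_single,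
      cmp_mulVec_plk, cmp_mulVec_plk, ext2_pair, ext2_pair, smul_eq_mul, ← ext2_D_mul]
    congr 1
    funext r
    rcases r with r | r <;> rfl
  have h1 := LinearMap.congr_fun₂ h x y
  rwa [LinearMap.compl₁₂_apply, LinearMap.smul_apply, LinearMap.smul_apply,
    Matrix.toLinearMap₂'_apply', Matrix.toLinearMap₂'_apply'] at h1

/-- The complementary index set. -/
def ext2_c (I : Idx (2 * m) m) : Idx (2 * m) m :=
  ⟨I.1ᶜ, by rw [card_compl, I.2, Fintype.card_fin]; omega⟩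

theorem ext2_meet {I J : Idx (2 * m) m} (h : J ≠ ext2_c I) : ∃ i ∈ I.1, i ∈ J.1 := by
  by_contra hcon
  push Not at hcon
  refine h (Subtype.ext (eq_of_subset_of_card_le (fun j hj => mem_compl.2 fun hi => hcon j hi hj) ?_))
  rw [J.2, (ext2_c I).2]

theorem ext2_w_zero {I J : Idx (2 * m) m} (h : J ≠ ext2_c I) : ext2_w m I J = 0 := by
  obtain ⟨i, hi, hj⟩ := ext2_meet h
  obtain ⟨a, ha⟩ := exists_orderEmb_eq I.2 hi
  obtain ⟨b, hb⟩ := exists_orderEmb_eq J.2 hj
  refine (ext2_D m).map_eq_zero_of_eq _ (i := .inl a) (j := .inr b) ?_ Sum.inl_ne_inr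
  rw [Sum.elim_inl, Sum.elim_inr, ha, hb]

theorem ext2_w_ne (I : Idx (2 * m) m) : ext2_w m I (ext2_c I) ≠ 0 := by
  have hinj : Function.Injective
      (Sum.elim (I.1.orderEmbOfFin I.2) ((ext2_c I).1.orderEmbOfFin (ext2_c I).2)) :=
    (I.1.orderEmbOfFin I.2).injective.sumElim ((ext2_c I).1.orderEmbOfFin (ext2_c I).2).injective
      fun a b e => mem_compl.1 (orderEmbOfFin_mem (ext2_c I).1 (ext2_c I).2 b)
        (e ▸ orderEmbOfFin_mem I.1 I.2 a)
  have h := (Pi.basisFun ℝ (Fin (2 * m))).linearIndependent.comp _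
    (hinj.comp (ext2_e m).injective)
  rw [ext2_w, ext2_D_apply, ← isUnit_iff_ne_zero, ← isUnit_iff_isUnit_det,
    ← linearIndependent_rows_iff_isUnit]
  refine (congrArg (fun F : Fin (2 * m) → Fin (2 * m) → ℝ => LinearIndependent ℝ F)
    (funext fun r => ?_)).mp h
  change Pi.basisFun ℝ _ (Sum.elim _ _ (ext2_e m r)) = Sum.elim _ _ (ext2_e m r)
  rw [Pi.basisFun_apply]
  rcases ext2_e m r with r | r <;> rfl

theorem ext2_cc (I : Idx (2 * m) m) : ext2_c (ext2_c I) = I := Subtype.ext (compl_compl _)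

theorem exists_wedge : ∃ Bf : (Idx (2 * m) m → ℝ) →ₗ[ℝ] (Idx (2 * m) m → ℝ) →ₗ[ℝ] ℝ,
    (∀ T : Matrix (Fin (2 * m)) (Fin (2 * m)) ℝ, T.det = 1 → ∀ x y,
      Bf (cmp m T *ᵥ x) (cmp m T *ᵥ y) = Bf x y) ∧
    (∀ x, (∀ y, Bf x y = 0) → x = 0) ∧
    ∀ (Y : Type) [LinearOrder Y] (v : Y → Fin (2 * m) → ℝ) (S : Finset Y), S.card = m →
      LinearIndependent ℝ (fun y : {y // y ∈ S} => v y.1) →
        ∀ x, Bf (plkS m v S) x = 0 → x ∈ ⨆ y ∈ S, Lv m (v y) := by
  refine ⟨Matrix.toLinearMap₂' ℝ (ext2_w m), fun T hT x y => ?_, fun x hx => ?_,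
    fun Y _ v S hc h x hx => ?_⟩
  · rw [Matrix.toLinearMap₂'_apply', Matrix.toLinearMap₂'_apply', ext2_inv, hT, one_mul]
  · funext I
    have h := hx (Pi.single (ext2_c I) 1)
    rw [Matrix.toLinearMap₂'_apply', mulVec_single_one, dotProduct, Fintype.sum_eq_single I] at h
    · exact (mul_eq_zero.1 h).resolve_right (ext2_w_ne I)
    · intro J hJ
      refine mul_eq_zero_of_right _ (ext2_w_zero fun e => hJ ?_)
      rw [← ext2_cc J, ← e, ext2_cc]
  · obtain ⟨hk, T, T', h1, -, h3⟩ := ext1_std hc h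
    have h0 : (univ.image (Fin.castLE hk)).card = m := by
      rw [card_image_of_injective _ (Fin.castLE_injective hk), card_fin]
    have hT : T.det ≠ 0 := (isUnit_det_of_right_inverse h1).ne_zero
    rw [Matrix.toLinearMap₂'_apply', ext1_plkS hc h3 h0, ← ext1_inv h1 x, ext2_inv,
      single_one_dotProduct, mulVec, dotProduct, Fintype.sum_eq_single (ext2_c ⟨_, h0⟩)
        (fun J hJ => mul_eq_zero_of_left (ext2_w_zero hJ) _)] at hx
    have h4 := (mul_eq_zero.1 ((mul_eq_zero.1 hx).resolve_left hT)).resolve_left (ext2_w_ne _)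
    rw [← ext1_inv h1 x, ext1_sum (cmp m T' *ᵥ x), ← mulVecLin_apply, map_sum]
    refine Submodule.sum_mem _ fun J _ => ?_
    rw [map_smul]
    by_cases hJ : J = ext2_c ⟨_, h0⟩
    · rw [hJ, h4, zero_smul]
      exact Submodule.zero_mem _
    · obtain ⟨j, hj, hj'⟩ := ext2_meet hJ
      obtain ⟨i, -, rfl⟩ := mem_image.1 hj
      refine Submodule.smul_mem _ _ (Submodule.mem_iSup_of_mem (S.orderEmbOfFin hc i)
        (Submodule.mem_iSup_of_mem (orderEmbOfFin_mem _ _ _) ?_))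
      rw [h3]
      exact Lv_map T _ (ext1_single_mem hj')

theorem ext2_plk_ne {n : ℕ} {f : Fin m → Fin n → ℝ} (h : LinearIndependent ℝ f) : plk f ≠ 0 := by
  have hc : (univ : Finset (Fin m)).card = m := card_fin m
  have h1 := plkS_ne (v := f) hc (h.comp _ Subtype.val_injective)
  have he := orderEmbOfFin_unique hc (f := id) (fun i => mem_univ _) strictMono_id
  rwa [plkS, dif_pos hc, ← he] at h1

/-- Wedging with a fixed tuple of vectors. -/
noncomputable def ext2_L {n k : ℕ} (w : Fin k → Fin n → ℝ) :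
    (Fin n → ℝ) →ₗ[ℝ] (Idx n (k + 1) → ℝ) where
  toFun u := ext1_alt ℝ n (k + 1) (Fin.cons u w)
  map_add' x y := (ext1_alt ℝ n (k + 1)).toMultilinearMap.cons_add w x y
  map_smul' c x := (ext1_alt ℝ n (k + 1)).toMultilinearMap.cons_smul w c x

theorem ext2_L_zero {n k : ℕ} (w : Fin k → Fin n → ℝ) (j : Fin k) : ext2_L w (w j) = 0 :=
  (ext1_alt ℝ n (k + 1)).map_eq_zero_of_eq _ (i := 0) (j := j.succ) (by simp)
    (Fin.succ_ne_zero j).symm

theorem ext2_L_ker {n k : ℕ} {w : Fin k → Fin n → ℝ} (h : LinearIndependent ℝ w)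
    {u : Fin n → ℝ} (hu : ext2_L w u = 0) : u ∈ Submodule.span ℝ (Set.range w) := by
  by_contra hn
  exact ext2_plk_ne (linearIndependent_finCons.2 ⟨h, hn⟩) hu

section Top

variable {n k : ℕ} {Y : Type} [Fintype Y] [LinearOrder Y] {v : Y → Fin n → ℝ} {σ : Finset Y}

theorem ext2_bdy (c : Finset Y → ℝ) {R : Finset Y} (hR : R ⊆ σ) (hk : R.card = k) :
    bdy ℝ (Idx n (k + 1) → ℝ)
        (fun S => if S ⊆ σ ∧ S.card = k + 1 then c S • plkS (k + 1) v S else 0) R =
      ext2_L (fun j => v (R.orderEmbOfFin hk j)) (∑ y ∈ σ \ R, c (insert y R) • v y) := by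
  rw [bdy_apply, map_sum]
  symm
  refine sum_subset_zero_on_sdiff (fun y hy => mem_compl.2 (mem_sdiff.1 hy).2)
    (fun y hy => ?_) (fun y hy => ?_)
  · rw [if_neg, smul_zero]
    rintro ⟨h1, -⟩
    obtain ⟨h2, h3⟩ := mem_sdiff.1 hy
    exact h3 (mem_sdiff.2 ⟨h1 (mem_insert_self _ _), mem_compl.1 h2⟩)
  · obtain ⟨h1, h2⟩ := mem_sdiff.1 hy
    have h3 : (insert y R).card = k + 1 := by rw [card_insert_of_notMem h2, hk]
    have h4 : ((insert y R).erase y).card = k := by rw [erase_insert h2, hk]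
    have h5 := alt_erase (ext1_alt ℝ n (k + 1)) v h3 (mem_insert_self y R) h4
    have h6 : ∀ (R' : Finset Y) (h : R'.card = k), R' = R →
        (fun j => v (R'.orderEmbOfFin h j)) = fun j => v (R.orderEmbOfFin hk j) := by
      rintro _ _ rfl
      rfl
    rw [h6 _ h4 (erase_insert h2)] at h5
    rw [if_pos ⟨insert_subset h1 hR, h3⟩, map_smul, plkS, dif_pos h3, ← ext1_alt_apply, h5,
      smul_comm (sgn y (insert y R) : ℝ), smul_smul (sgn y (insert y R) : ℝ), sgn_cast_mul_self,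
      one_smul]
    rfl

theorem ext2_bdy_off (c : Finset Y → ℝ) {R : Finset Y} (hR : ¬ (R ⊆ σ ∧ R.card = k)) :
    bdy ℝ (Idx n (k + 1) → ℝ)
        (fun S => if S ⊆ σ ∧ S.card = k + 1 then c S • plkS (k + 1) v S else 0) R = 0 := by
  rw [bdy_apply]
  refine sum_eq_zero fun y hy => ?_
  rw [if_neg, smul_zero]
  rintro ⟨h1, h2⟩
  rw [card_insert_of_notMem (mem_compl.1 hy)] at h2
  exact hR ⟨(subset_insert _ _).trans h1, by omega⟩

omit [Fintype Y] in
/-- A function on the subsets of given size that is invariant under exchanges is constant. -/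
theorem ext2_exchange (q : Finset Y → ℝ)
    (h : ∀ R, R ⊆ σ → R.card = k → ∀ x ∈ σ \ R, ∀ y ∈ σ \ R, q (insert y R) = q (insert x R))
    {S0 : Finset Y} (h0 : S0 ⊆ σ) (hc0 : S0.card = k + 1) (d : ℕ) :
    ∀ S, S ⊆ σ → S.card = k + 1 → (S \ S0).card = d → q S = q S0 := by
  induction d with
  | zero =>
    intro S _ hc hd
    rw [eq_of_subset_of_card_le (sdiff_eq_empty_iff_subset.1 (card_eq_zero.1 hd)) (by omega)]
  | succ d ih =>
    intro S hS hc hd
    obtain ⟨y, hy⟩ := card_pos.1 (show 0 < (S \ S0).card by omega)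
    obtain ⟨hy1, hy2⟩ := mem_sdiff.1 hy
    have hd' : (S0 \ S).card = d + 1 := by rw [← card_sdiff_comm (hc.trans hc0.symm), hd]
    obtain ⟨x, hx⟩ := card_pos.1 (show 0 < (S0 \ S).card by omega)
    obtain ⟨hx1, hx2⟩ := mem_sdiff.1 hx
    have hR : S.erase y ⊆ σ := (erase_subset _ _).trans hS
    have hRc : (S.erase y).card = k := by rw [card_erase_of_mem hy1, hc]; rfl
    have hxR : x ∉ S.erase y := fun e => hx2 (mem_of_mem_erase e)
    have h1 := h _ hR hRc x (mem_sdiff.2 ⟨h0 hx1, hxR⟩) y (mem_sdiff.2 ⟨hS hy1, notMem_erase _ _⟩)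
    rw [insert_erase hy1] at h1
    rw [h1]
    refine ih _ (insert_subset (h0 hx1) hR) (by rw [card_insert_of_notMem hxR, hRc]) ?_
    rw [insert_sdiff_of_mem _ hx1, erase_sdiff_comm, card_erase_of_mem hy, hd]
    rfl

end Top

theorem ker_top_iff {n : ℕ} (hm : 1 ≤ m) (hmn : m ≤ n) {Y : Type} [Fintype Y] [LinearOrder Y]
    {v : Y → Fin n → ℝ} {σ : Finset Y} (hc : σ.card = n + 1) (hv : ∀ y ∈ σ, aa n v σ y ≠ 0)
    (c : Finset Y → ℝ) :
    bdy ℝ (Idx n m → ℝ) (fun S => if S ⊆ σ ∧ S.card = m then c S • plkS m v S else 0) = 0 ↔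
      ∃ t : ℝ, ∀ S, S ⊆ σ → S.card = m → c S = t * ∏ y ∈ S, aa n v σ y := by
  obtain ⟨k, rfl⟩ : ∃ k, m = k + 1 := ⟨m - 1, by omega⟩
  constructor
  · intro h
    obtain ⟨S0, h0, hc0⟩ := exists_subset_card_eq (s := σ) (n := k + 1) (by omega)
    refine ⟨c S0 / ∏ y ∈ S0, aa n v σ y, fun S hS hSc => ?_⟩
    have hp : ∀ S, S ⊆ σ → ∏ y ∈ S, aa n v σ y ≠ 0 :=
      fun S hS => prod_ne_zero_iff.2 fun y hy => hv y (hS hy)
    rw [← ext2_exchange (fun S => c S / ∏ y ∈ S, aa n v σ y) ?_ h0 hc0 _ S hS hSc rfl,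
      div_mul_cancel₀ _ (hp S hS)]
    intro R hR hk x hx y hy
    obtain ⟨hx1, hx2⟩ := mem_sdiff.1 hx
    obtain ⟨hy1, hy2⟩ := mem_sdiff.1 hy
    have h1 := congrFun h R
    rw [ext2_bdy c hR hk] at h1
    have h2 : (σ.erase x).card = n := by rw [card_erase_of_mem hx1, hc]; rfl
    have h3 := (detS_ne_zero_iff (v := v) h2).1 (right_ne_zero_of_mul (hv x hx1))
    have h4 : LinearIndependent ℝ (fun j => v (R.orderEmbOfFin hk j)) :=
      h3.comp (fun j => ⟨R.orderEmbOfFin hk j, mem_erase.2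
        ⟨fun e => hx2 (e ▸ orderEmbOfFin_mem R hk j), hR (orderEmbOfFin_mem R hk j)⟩⟩)
        fun a b e => (R.orderEmbOfFin hk).injective (Subtype.mk.inj e)
    have h5 : Set.range (fun j => v (R.orderEmbOfFin hk j)) = v '' (R : Set Y) := by
      rw [← range_orderEmbOfFin R hk, ← Set.range_comp]
      rfl
    have h6 := ext2_L_ker h4 h1
    rw [h5] at h6
    obtain ⟨b, hb⟩ := (Submodule.mem_span_image_finset_iff_exists_fun' ℝ).1 h6
    have h7 : ∑ z ∈ σ, (if z ∈ R then -b z else c (insert z R)) • v z = 0 := by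
      rw [← sum_sdiff hR, sum_congr rfl (g := fun z => c (insert z R) • v z)
        (fun z hz => by rw [if_neg (mem_sdiff.1 hz).2]),
        sum_congr (s₁ := R) rfl (g := fun z => -(b z • v z)) (fun z hz => by rw [if_pos hz, neg_smul]),
        sum_neg_distrib, hb, add_neg_cancel]
    have h8 := rel_unique hc hx1 (hv x hx1) h7 y hy1
    rw [if_neg hy2, if_neg hx2] at h8
    have h9 := hp R hR
    have h10 := hv x hx1
    have h11 := hv y hy1
    simp only [prod_insert hx2, prod_insert hy2, h8]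
    field_simp
  · rintro ⟨t, ht⟩
    funext R
    by_cases hR : R ⊆ σ ∧ R.card = k
    · obtain ⟨hR, hk⟩ := hR
      rw [ext2_bdy c hR hk, Pi.zero_apply]
      have h1 : ∑ y ∈ σ \ R, c (insert y R) • v y =
          (t * ∏ y ∈ R, aa n v σ y) • -∑ y ∈ R, aa n v σ y • v y := by
        have h2 := aa_rel v hc
        rw [← sum_sdiff hR] at h2
        rw [← eq_neg_of_add_eq_zero_left h2, Finset.smul_sum]
        refine sum_congr rfl fun y hy => ?_
        obtain ⟨hy1, hy2⟩ := mem_sdiff.1 hy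
        rw [ht _ (insert_subset hy1 hR) (by rw [card_insert_of_notMem hy2, hk]), prod_insert hy2,
          smul_smul]
        congr 1
        ring
      rw [h1, map_smul, map_neg, sum_orderEmb hk, map_sum, sum_eq_zero, neg_zero, smul_zero]
      intro j _
      rw [map_smul, ext2_L_zero (fun j => v (R.orderEmbOfFin hk j)) j, smul_zero]
    · exact ext2_bdy_off c hR

end Pool.Agent.Work.MP_dd0bbc_gt
end
end

-- merged part: Pool.Agent.Work.MP_dd0bbc_gt.Nerve
section
-- merged part: Pool.Agent.Work.MP_dd0bbc_gt.Ranks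
section
/-! Ranks of the boundary maps as ranks of matrices. -/

set_option autoImplicit false

namespace Pool.Agent.Work.MP_dd0bbc_gt

open Finset Matrix

variable {k Y : Type} [Field k] [Fintype Y] [LinearOrder Y]

/-- Extension by zero of a function on the faces. -/
def extZ (k : Type) [Field k] (N : Type) [AddCommGroup N] [Module k N] {Y : Type} [LinearOrder Y]
    (K : Finset (Finset Y)) (c : ℕ) : (Face K c → N) →ₗ[k] (Finset Y → N) where
  toFun g S := if h : S ∈ K ∧ S.card = c + 1 then g ⟨S, h⟩ else 0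
  map_add' f g := by
    ext S; simp only [Pi.add_apply]; split_ifs <;> simp
  map_smul' r f := by
    ext S; simp only [Pi.smul_apply, RingHom.id_apply]; split_ifs <;> simp

section Ext

variable {N : Type} [AddCommGroup N] [Module k N]

omit [Fintype Y] in
theorem extZ_apply (K : Finset (Finset Y)) (c : ℕ) (g : Face K c → N) (S : Finset Y) :
    extZ k N K c g S = if h : S ∈ K ∧ S.card = c + 1 then g ⟨S, h⟩ else 0 := rfl

omit [Fintype Y] in
theorem extZ_face (K : Finset (Finset Y)) (c : ℕ) (g : Face K c → N) (S : Face K c) :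
    extZ k N K c g S.1 = g S := by
  rw [extZ_apply, dif_pos S.2]

omit [Fintype Y] in
theorem extZ_injective (K : Finset (Finset Y)) (c : ℕ) : Function.Injective (extZ k N K c) := by
  intro f g h
  funext S
  rw [← extZ_face (k := k) K c f S, h, extZ_face]

omit [Fintype Y] in
theorem range_extZ (K : Finset (Finset Y)) (c : ℕ) :
    LinearMap.range (extZ k N K c) = Fc k N K (c + 1) := by
  ext f
  constructor
  · rintro ⟨g, rfl⟩ S hS
    by_contra h
    exact hS (by rw [extZ_apply, dif_neg h])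
  · intro hf
    refine ⟨fun S => f S.1, funext fun S => ?_⟩
    rw [extZ_apply]
    split_ifs with h
    · rfl
    · by_contra h'
      exact h (hf S (fun e => h' e.symm))

theorem sum_face_ite (K : Finset (Finset Y)) (c : ℕ) (g : Face K c → N) (T : Finset Y) :
    ∑ S : Face K c, (if T = S.1 then g S else 0) = extZ k N K c g T := by
  rw [extZ_apply]
  split_ifs with h
  · rw [Fintype.sum_eq_single (⟨T, h⟩ : Face K c)]
    · simp
    · intro S hS
      rw [if_neg]
      intro e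
      exact hS (Subtype.ext e.symm)
  · refine sum_eq_zero fun S _ => if_neg ?_
    rintro rfl
    exact h S.2

end Ext

theorem card_face (K : Finset (Finset Y)) (c : ℕ) : Fintype.card (Face K c) = fn K c := by
  rw [fn, Fintype.card_subtype]
  congr 1
  ext S
  simp

theorem finrank_map_of_comm {V₁ V₂ X₁ X₂ : Type} [AddCommGroup V₁] [Module k V₁]
    [AddCommGroup V₂] [Module k V₂] [AddCommGroup X₁] [Module k X₁] [AddCommGroup X₂]
    [Module k X₂] (e₁ : V₁ →ₗ[k] X₁) (e₂ : V₂ →ₗ[k] X₂) (he : Function.Injective e₂)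
    (f : X₁ →ₗ[k] X₂) (g : V₁ →ₗ[k] V₂) (h : f ∘ₗ e₁ = e₂ ∘ₗ g) :
    Module.finrank k ((LinearMap.range e₁).map f) = Module.finrank k (LinearMap.range g) := by
  rw [← LinearMap.range_comp, h, LinearMap.range_comp]
  exact (Submodule.equivMapOfInjective e₂ he _).finrank_eq.symm

theorem finrank_Fc {ι : Type} [Fintype ι] (K : Finset (Finset Y)) (c : ℕ) :
    Module.finrank k (Fc k (ι → k) K (c + 1)) = Fintype.card ι * fn K c := by
  rw [← range_extZ, LinearMap.finrank_range_of_inj (extZ_injective K c),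
    Module.finrank_pi_fintype]
  simp [card_face, mul_comm]

theorem finrank_Fc' (K : Finset (Finset Y)) (c : ℕ) :
    Module.finrank k (Fc k k K (c + 1)) = fn K c := by
  rw [← range_extZ, LinearMap.finrank_range_of_inj (extZ_injective K c), Module.finrank_pi,
    card_face]

theorem finrank_map_tcob {ι : Type} [Fintype ι] (K : Finset (Finset Y))
    (bs : Finset Y → Y) (U : Y → Y → Matrix ι ι k) (c : ℕ) :
    Module.finrank k ((Fc k (ι → k) K (c + 1)).map (tcob K bs U)) = (tw K bs U c).rank := by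
  have hr : LinearMap.range (extZ k (ι → k) K c ∘ₗ
      (LinearEquiv.curry k k (Face K c) ι).toLinearMap) = Fc k (ι → k) K (c + 1) := by
    rw [LinearMap.range_comp, LinearEquiv.range, Submodule.map_top, range_extZ]
  rw [← hr]
  refine finrank_map_of_comm _ (extZ k (ι → k) K (c + 1) ∘ₗ
      (LinearEquiv.curry k k (Face K (c + 1)) ι).toLinearMap)
    ((extZ_injective (k := k) K (c + 1)).comp
      (LinearEquiv.curry k k (Face K (c + 1)) ι).injective) _
    (tw K bs U c).mulVecLin ?_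
  refine LinearMap.ext fun g => funext fun τ => ?_
  have e1 : ∀ T : Finset Y, U (bs τ) (bs T) *ᵥ extZ k (ι → k) K c (Function.curry g) T =
      ∑ S : Face K c, if T = S.1 then U (bs τ) (bs S.1) *ᵥ Function.curry g S else 0 := by
    intro T
    rw [sum_face_ite (k := k), extZ_apply, extZ_apply]
    split_ifs <;> simp
  change (if τ ∈ K then ∑ y ∈ τ, (sgn y τ : k) • (U (bs τ) (bs (τ.erase y)) *ᵥ
      extZ k (ι → k) K c (Function.curry g) (τ.erase y)) else 0) =
    extZ k (ι → k) K (c + 1) (Function.curry (tw K bs U c *ᵥ g)) τ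
  rw [extZ_apply]
  by_cases h : τ ∈ K ∧ τ.card = c + 1 + 1
  · rw [dif_pos h, if_pos h.1]
    funext i
    simp only [e1, Function.curry, mulVec, dotProduct, tw, inc, Fintype.sum_prod_type,
      Finset.sum_apply, Pi.smul_apply, smul_eq_mul, Finset.sum_mul, Finset.mul_sum]
    rw [sum_comm]
    refine sum_congr rfl fun S _ => ?_
    rw [sum_comm]
    refine sum_congr rfl fun y _ => ?_
    split_ifs
    · simp only [mulVec, dotProduct, Function.curry, Finset.mul_sum, mul_assoc]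
    · simp
  · rw [dif_neg h]
    split_ifs with hτ
    · refine sum_eq_zero fun y hy => ?_
      rw [extZ_apply, dif_neg]
      · simp
      · rintro ⟨-, h2⟩
        refine h ⟨hτ, ?_⟩
        rw [← card_erase_add_one hy, h2]
    · rfl

theorem finrank_map_bdy {K : Finset (Finset Y)} (hK : ∀ S ∈ K, ∀ T, T ⊆ S → T ∈ K) (c : ℕ) :
    Module.finrank k ((Fc k k K (c + 2)).map (bdy k k)) = (inc k K c).rank := by
  rw [← rank_transpose, ← range_extZ]
  refine finrank_map_of_comm _ (extZ k k K c) (extZ_injective K c) _ (inc k K c)ᵀ.mulVecLin ?_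
  refine LinearMap.ext fun g => funext fun S => ?_
  change ∑ y ∈ Sᶜ, (sgn y (insert y S) : k) • extZ k k K (c + 1) g (insert y S) =
    extZ k k K c ((inc k K c)ᵀ *ᵥ g) S
  rw [extZ_apply]
  by_cases h : S ∈ K ∧ S.card = c + 1
  · rw [dif_pos h]
    simp only [← sum_face_ite (k := k) K (c + 1) g, mulVec, dotProduct, transpose_apply, inc,
      smul_eq_mul, Finset.mul_sum, Finset.sum_mul]
    rw [sum_comm]
    refine sum_congr rfl fun τ _ => ?_
    rw [← sum_filter_add_sum_filter_not Sᶜ (fun y => insert y S = τ.1),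
      ← sum_filter_add_sum_filter_not τ.1 (fun y => τ.1.erase y = S)]
    have e : Sᶜ.filter (fun y => insert y S = τ.1) = τ.1.filter (fun y => τ.1.erase y = S) := by
      ext y
      simp only [mem_filter, mem_compl]
      constructor
      · rintro ⟨h1, h2⟩
        rw [← h2]
        exact ⟨mem_insert_self _ _, erase_insert h1⟩
      · rintro ⟨h1, h2⟩
        rw [← h2]
        exact ⟨notMem_erase _ _, insert_erase h1⟩
    congr 1
    · rw [← e]
      refine sum_congr rfl fun y hy => ?_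
      have h1 := (mem_filter.1 hy).2
      have h2 := (mem_filter.1 (e ▸ hy)).2
      rw [if_pos h1, if_pos h2, h1]
    · rw [sum_eq_zero, sum_eq_zero]
      · intro y hy
        rw [if_neg (mem_filter.1 hy).2, zero_mul]
      · intro y hy
        rw [if_neg (mem_filter.1 hy).2, mul_zero]
  · rw [dif_neg h]
    refine sum_eq_zero fun y hy => ?_
    rw [extZ_apply, dif_neg, smul_zero]
    rintro ⟨h1, h2⟩
    refine h ⟨hK _ h1 _ (subset_insert _ _), ?_⟩
    rw [card_insert_of_notMem (mem_compl.1 hy)] at h2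
    omega

theorem bdy_mem_Fc {N : Type} [AddCommGroup N] [Module k N] {K : Finset (Finset Y)}
    (hK : ∀ S ∈ K, ∀ T, T ⊆ S → T ∈ K) {c : ℕ} {f : Finset Y → N} (hf : f ∈ Fc k N K (c + 1)) :
    bdy k N f ∈ Fc k N K c := by
  intro S hS
  rw [bdy_apply] at hS
  obtain ⟨y, hy, h⟩ := exists_ne_zero_of_sum_ne_zero hS
  obtain ⟨h1, h2⟩ := hf (insert y S) (fun e => h (by rw [e, smul_zero]))
  refine ⟨hK _ h1 _ (subset_insert _ _), ?_⟩
  rw [card_insert_of_notMem (mem_compl.1 hy)] at h2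
  omega

theorem rkb_eq_zero {K : Finset (Finset Y)} {n : ℕ} (h : ∀ S ∈ K, S.card ≤ n + 1) :
    rkb k K (n + 1) = 0 := by
  have : IsEmpty (Face K (n + 1)) := ⟨fun S => by
    have h1 := h S.1 S.2.1
    have h2 := S.2.2
    omega⟩
  have h1 := rank_le_card_height (inc k K n)
  rw [Fintype.card_eq_zero] at h1
  exact Nat.le_zero.1 h1

/-- Euler characteristic from Betti numbers. -/
theorem chi_eq {K : Finset (Finset Y)} {n : ℕ} (h : ∀ S ∈ K, S.card ≤ n + 1) (b : ℕ → ℕ)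
    (hb : ∀ j, b j + rkb k K j + rkb k K (j + 1) = fn K j) :
    ∑ j ∈ range (n + 1), (-1 : ℤ) ^ j * (b j : ℤ) = chi K n := by
  have key : ∀ N, ∑ j ∈ range N, (-1 : ℤ) ^ j * (fn K j : ℤ) =
      ∑ j ∈ range N, (-1 : ℤ) ^ j * (b j : ℤ) - (-1) ^ N * (rkb k K N : ℤ) := by
    intro N
    induction N with
    | zero => simp [rkb]
    | succ N ih =>
      rw [sum_range_succ, sum_range_succ, ih, ← hb N]
      push_cast
      ring
  rw [chi, key, rkb_eq_zero h]
  simp

end Pool.Agent.Work.MP_dd0bbc_gt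
end

-- merged part: Pool.Agent.Work.MP_dd0bbc_gt.Witt
section
/-! The signature inequality. -/

set_option autoImplicit false

namespace Pool.Agent.Work.MP_dd0bbc_gt.WData

open Finset Matrix

variable {m : ℕ} {Y ι : Type} [Fintype Y] [LinearOrder Y] [Fintype ι] [DecidableEq ι]
  (W : WData m Y ι)

theorem sum_tops_witt {n : ℕ} (K : Finset (Finset Y)) (f : Finset Y → ℝ) :
    ∑ σ ∈ tops K n, f σ = ∑ σ : Face K n, f σ.1 :=
  sum_subtype _ (fun _ => mem_tops) f

/-- The matrix of products. -/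
noncomputable def prodM : Matrix (Face W.K (2 * m)) {S : Finset Y // S.card = m} ℝ :=
  fun σ S => if S.1 ⊆ σ.1 then ∏ y ∈ S.1, W.A σ.1 y else 0

/-- Multiples of the distinguished vectors. -/
noncomputable def lineMap : ({S : Finset Y // S.card = m} → ℝ) →ₗ[ℝ] (Finset Y → ι → ℝ) where
  toFun t S := if h : S.card = m then t ⟨S, h⟩ • W.vS (W.bs S) S else 0
  map_add' f g := by
    ext1 S; simp only [Pi.add_apply]; split_ifs <;> simp [add_smul]
  map_smul' r f := by
    ext1 S; simp only [Pi.smul_apply, RingHom.id_apply]; split_ifs <;> simp [smul_smul]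

theorem finrank_astar_le : Module.finrank ℝ (W.Wt.map W.astar) ≤ W.prodM.rank := by
  have h : W.Wt.map W.astar ≤ (LinearMap.range W.prodMᵀ.mulVecLin).map W.lineMap := by
    rintro _ ⟨w, -, rfl⟩
    refine ⟨_, ⟨fun σ => W.o σ.1 * w σ.1, rfl⟩, funext fun S => ?_⟩
    change (if h : S.card = m then (W.prodMᵀ *ᵥ fun σ => W.o σ.1 * w σ.1) ⟨S, h⟩ •
        W.vS (W.bs S) S else 0) = if S.card = m then
      (∑ σ ∈ (tops W.K (2 * m)).filter (S ⊆ ·), W.o σ * w σ * ∏ y ∈ S, W.A σ y) •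
        W.vS (W.bs S) S else 0
    split_ifs with h
    · congr 1
      rw [sum_filter, sum_tops_witt]
      simp only [mulVec, dotProduct, transpose_apply, prodM]
      refine sum_congr rfl fun σ _ => ?_
      split_ifs
      · ring
      · simp
    · rfl
  rw [← rank_transpose]
  exact (Submodule.finrank_mono h).trans (Submodule.finrank_map_le _ _)

theorem w5 : |∑ σ ∈ tops W.K (2 * m), W.o σ * (SignType.sign (∏ y ∈ σ, W.A σ y) : ℝ)| +
    2 * Module.finrank ℝ (W.Wt.map W.astar) ≤ fn W.K (2 * m) := by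
  have hA : ∀ σ : Face W.K (2 * m), ∏ y ∈ σ.1, W.A σ.1 y ≠ 0 := fun σ =>
    prod_ne_zero_iff.2 (W.A_ne σ.1 (mem_tops.2 σ.2))
  have ho : ∀ σ : Face W.K (2 * m), W.o σ.1 = 1 ∨ W.o σ.1 = -1 := fun σ =>
    W.o_eq σ.1 (mem_tops.2 σ.2)
  have h := signature_le (fun σ : Face W.K (2 * m) => W.o σ.1 / ∏ y ∈ σ.1, W.A σ.1 y)
    (fun σ => div_ne_zero (by rcases ho σ with e | e <;> rw [e] <;> norm_num) (hA σ)) W.prodM
    (fun S S' => by
      rw [← W.iso S.1 S'.1 S.2 S'.2, sum_filter, sum_tops_witt]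
      refine sum_congr rfl fun σ _ => ?_
      simp only [prodM]
      by_cases h1 : S.1 ⊆ σ.1 <;> by_cases h2 : S'.1 ⊆ σ.1 <;> simp [h1, h2]
      ring)
  rw [card_face] at h
  have e : ∑ σ ∈ tops W.K (2 * m), W.o σ * (SignType.sign (∏ y ∈ σ, W.A σ y) : ℝ) =
      ∑ σ : Face W.K (2 * m), (SignType.sign (W.o σ.1 / ∏ y ∈ σ.1, W.A σ.1 y) : ℝ) := by
    rw [sum_tops_witt]
    refine sum_congr rfl fun σ _ => ?_
    rcases lt_or_gt_of_ne (hA σ) with h1 | h1 <;> rcases ho σ with e | e <;> rw [e]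
    · rw [sign_neg h1, sign_neg (div_neg_of_pos_of_neg one_pos h1)]; simp
    · rw [sign_neg h1, sign_pos (div_pos_of_neg_of_neg (by norm_num) h1)]; simp
    · rw [sign_pos h1, sign_pos (div_pos one_pos h1)]; simp
    · rw [sign_pos h1, sign_neg (div_neg_of_neg_of_pos (by norm_num) h1)]; simp
  have h2 : (Module.finrank ℝ (W.Wt.map W.astar) : ℝ) ≤ W.prodM.rank := by
    exact_mod_cast W.finrank_astar_le
  rw [e]
  linarith only [h, h2]

theorem rank_nullity_witt {V V' : Type} [AddCommGroup V] [Module ℝ V] [AddCommGroup V']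
    [Module ℝ V'] [FiniteDimensional ℝ V] (f : V →ₗ[ℝ] V') (P : Submodule ℝ V) :
    Module.finrank ℝ (P.map f) + Module.finrank ℝ (P ⊓ LinearMap.ker f : Submodule ℝ V) =
      Module.finrank ℝ P := by
  rw [← LinearMap.finrank_range_add_finrank_ker (f.domRestrict P), LinearMap.range_domRestrict,
    LinearMap.ker_domRestrict, ← Submodule.map_comap_subtype, Submodule.finrank_map_subtype_eq]

theorem hE_add (c : ℕ) : W.hE (c + 1) + (tw W.K W.bs W.U (c + 1)).rank +
    (tw W.K W.bs W.U c).rank = Fintype.card ι * fn W.K (c + 1) := by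
  rw [← finrank_map_tcob, ← finrank_map_tcob, ← finrank_Fc (k := ℝ)]
  refine hdim_ranks W.δ (W.CE (c + 1 + 1)) (W.CE (c + 1)) ?_
  rintro _ ⟨f, hf, rfl⟩
  exact ⟨W.δ_mem _ hf, W.δ_δ c hf⟩

theorem witt : |∑ σ ∈ tops W.K (2 * m), W.o σ * (SignType.sign (∏ y ∈ σ, W.A σ y) : ℝ)| +
    (tw W.K W.bs W.U (m - 1)).rank + 2 * (tw W.K W.bs W.U m).rank +
      (tw W.K W.bs W.U (m + 1)).rank ≤ Fintype.card ι * (fn W.K m + fn W.K (m + 1)) := by
  have h0 : ∀ c, 1 ≤ c → W.hE c + (tw W.K W.bs W.U c).rank + (tw W.K W.bs W.U (c - 1)).rank =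
      Fintype.card ι * fn W.K c := by
    rintro (_ | c) hc
    · omega
    · exact W.hE_add c
  have h1 := h0 m W.m_pos
  have h2 := W.hE_add m
  have h3 := rank_nullity_witt W.astar W.Wt
  rw [finrank_Fc'] at h3
  have h4 := W.w2
  have h5 := W.w3
  have h6 := W.w4
  have h7 := W.w5
  have h8 : fn W.K (2 * m) ≤ 2 * Module.finrank ℝ (W.Wt.map W.astar) + W.hE m + W.hE (m + 1) := by
    omega
  have h1' := congrArg (Nat.cast : ℕ → ℝ) h1
  have h2' := congrArg (Nat.cast : ℕ → ℝ) h2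
  have h8' : (fn W.K (2 * m) : ℝ) ≤
      2 * Module.finrank ℝ (W.Wt.map W.astar) + W.hE m + W.hE (m + 1) := by exact_mod_cast h8
  push_cast at h1' h2'
  linarith only [h7, h8', h1', h2']

end Pool.Agent.Work.MP_dd0bbc_gt.WData
end

-- merged part: Pool.Agent.Work.MP_dd0bbc_gt.Link
section
/-! Exactness of the cochains of stars, by a shelling. -/

set_option autoImplicit false

namespace Pool.Agent.Work.MP_dd0bbc_gt

open Finset Matrix

section Shell

variable {Y : Type} [LinearOrder Y] {N : Type} [AddCommGroup N] [Module ℝ N]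

lemma link_supp_cob {K : Finset (Finset Y)} {S : Finset Y} {c : ℕ} {g : Finset Y → N}
    (hg : Supp K S c g) : Supp K S (c + 1) (cob ℝ N K g) := by
  intro τ hτ
  rw [cob_apply] at hτ
  split_ifs at hτ with hK
  · obtain ⟨y, hy, hne⟩ := exists_ne_zero_of_sum_ne_zero hτ
    obtain ⟨-, h2, h3⟩ := hg _ (right_ne_zero_of_smul hne)
    refine ⟨hK, h2.trans (erase_subset _ _), ?_⟩
    rw [← h3, card_erase_add_one hy]
  · exact absurd rfl hτ

lemma link_cob_mem {K : Finset (Finset Y)} {P : Submodule ℝ N} {g : Finset Y → N}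
    (hg : ∀ τ, g τ ∈ P) (τ : Finset Y) : cob ℝ N K g τ ∈ P := by
  rw [cob_apply]
  split_ifs
  · exact P.sum_mem fun y _ => P.smul_mem _ (hg _)
  · exact P.zero_mem

lemma link_supp_add {K : Finset (Finset Y)} {S : Finset Y} {c : ℕ} {f g : Finset Y → N}
    (hf : Supp K S c f) (hg : Supp K S c g) : Supp K S c (f + g) := by
  intro τ hτ
  by_cases h : f τ = 0
  · exact hg τ (by simpa [h] using hτ)
  · exact hf τ h

lemma link_supp_sub {K : Finset (Finset Y)} {S : Finset Y} {c : ℕ} {f g : Finset Y → N}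
    (hf : Supp K S c f) (hg : Supp K S c g) : Supp K S c (f - g) := by
  intro τ hτ
  by_cases h : f τ = 0
  · exact hg τ (by simpa [h] using hτ)
  · exact hf τ h

/-- abstract shelling of the star of `S` -/
structure LinkShell (K : Finset (Finset Y)) (n : ℕ) (S : Finset Y) (R : Finset Y → Finset Y)
    (val : Finset Y → ℝ) : Prop where
  down : ∀ σ ∈ K, ∀ τ, τ ⊆ σ → τ ∈ K
  sub : ∀ σ, S ⊆ R σ
  ex : ∀ τ ∈ K, S ⊆ τ → ∃ σ ∈ tops K n, R σ ⊆ τ ∧ τ ⊆ σ
  lt : ∀ σ ∈ tops K n, ∀ σ' ∈ tops K n, ∀ τ, R σ ⊆ τ → τ ⊆ σ → τ ⊆ σ' → σ' ≠ σ → val σ' < val σ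

lemma LinkShell.main {K : Finset (Finset Y)} {n : ℕ} {S : Finset Y} {R : Finset Y → Finset Y}
    {val : Finset Y → ℝ} (h : LinkShell K n S R val) (P : Submodule ℝ N) (c : ℕ)
    (A : Finset (Finset Y)) :
    A ⊆ tops K n → (∀ σ ∈ A, ∀ σ' ∈ tops K n, val σ' < val σ → σ' ∈ A) →
      ∀ f : Finset Y → N, Supp K S (c + 1) f → (∀ τ, f τ ∈ P) → cob ℝ N K f = 0 →
        (∀ τ, f τ ≠ 0 → (∃ σ ∈ A, R σ ⊆ τ ∧ τ ⊆ σ) ∨ (τ ∈ tops K n ∧ R τ = τ)) →
        ∃ g : Finset Y → N, Supp K S c g ∧ (∀ τ, g τ ∈ P) ∧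
          ∀ τ, (f - cob ℝ N K g) τ ≠ 0 → τ ∈ tops K n ∧ R τ = τ := by
  classical
  induction A using Finset.induction_on_max_value val with
  | empty =>
    intro _ _ f _ _ _ hsup
    refine ⟨0, fun τ hτ => absurd rfl hτ, fun _ => P.zero_mem, fun τ hτ => ?_⟩
    rw [map_zero, sub_zero] at hτ
    rcases hsup τ hτ with ⟨σ, hσ, -⟩ | h1
    · exact absurd hσ (notMem_empty _)
    · exact h1
  | insert σ s hσs hmax ih =>
    intro hA hcl f hf hP hc hsup
    have hσt : σ ∈ tops K n := hA (mem_insert_self _ _)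
    have hσK : σ ∈ K := (mem_tops.1 hσt).1
    have hs : s ⊆ tops K n := fun x hx => hA (mem_insert_of_mem hx)
    have hcl' : ∀ σ1 ∈ s, ∀ σ' ∈ tops K n, val σ' < val σ1 → σ' ∈ s := by
      intro σ1 h1 σ' h2 h3
      rcases mem_insert.1 (hcl σ1 (mem_insert_of_mem h1) σ' h2 h3) with e | e
      · subst e
        exact absurd (hmax σ1 h1) (not_le.2 h3)
      · exact e
    by_cases hR : σ ⊆ R σ
    · refine ih hs hcl' f hf hP hc fun τ hτ => ?_
      rcases hsup τ hτ with ⟨σ1, h1, h2, h3⟩ | h1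
      · rcases mem_insert.1 h1 with e | e
        · subst e
          have : τ = σ1 := Subset.antisymm h3 (hR.trans h2)
          subst this
          exact Or.inr ⟨hσt, Subset.antisymm h2 hR⟩
        · exact Or.inl ⟨σ1, e, h2, h3⟩
      · exact Or.inr h1
    obtain ⟨j, hjσ, hjR⟩ := not_subset.1 hR
    let g : Finset Y → N := fun τ =>
      if R σ ⊆ τ ∧ τ ⊆ σ ∧ j ∉ τ then (sgn j τ : ℝ) • f (insert j τ) else 0
    have hgne : ∀ τ, g τ ≠ 0 → (R σ ⊆ τ ∧ τ ⊆ σ ∧ j ∉ τ) ∧ f (insert j τ) ≠ 0 := by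
      intro τ hτ
      simp only [g] at hτ
      split_ifs at hτ with h1
      · exact ⟨h1, right_ne_zero_of_smul hτ⟩
      · exact absurd rfl hτ
    have hg : Supp K S c g := by
      intro τ hτ
      obtain ⟨⟨h1, h2, h3⟩, h4⟩ := hgne τ hτ
      refine ⟨h.down σ hσK τ h2, (h.sub σ).trans h1, ?_⟩
      have := (hf _ h4).2.2
      rw [card_insert_of_notMem h3] at this
      omega
    have hgP : ∀ τ, g τ ∈ P := by
      intro τ
      simp only [g]
      split_ifs
      · exact P.smul_mem _ (hP _)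
      · exact P.zero_mem
    have hint : ∀ τ, R σ ⊆ τ → τ ⊆ σ → cob ℝ N K g τ = f τ := by
      intro τ h1 h2
      have hτK : τ ∈ K := h.down σ hσK τ h2
      rw [cob_apply, if_pos hτK]
      by_cases hj : j ∈ τ
      · rw [sum_eq_single_of_mem j hj]
        · have h3 : R σ ⊆ τ.erase j := fun x hx =>
            mem_erase.2 ⟨fun e => hjR (e ▸ hx), h1 hx⟩
          simp only [g]
          rw [if_pos ⟨h3, (erase_subset _ _).trans h2, notMem_erase _ _⟩, insert_erase hj,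
            sgn_erase_self, smul_smul, sgn_cast_mul_self, one_smul]
        · intro y _ hyj
          have : g (τ.erase y) = 0 := by
            by_contra hne
            exact (hgne _ hne).1.2.2 (mem_erase.2 ⟨hyj.symm, hj⟩)
          rw [this, smul_zero]
      · have hτ' : insert j τ ⊆ σ := insert_subset hjσ h2
        have h0 := congrFun hc (insert j τ)
        rw [cob_apply, if_pos (h.down σ hσK _ hτ'), sum_insert hj, erase_insert hj,
          sgn_insert_self, Pi.zero_apply] at h0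
        have h4 : f τ = -((sgn j τ : ℝ) • ∑ y ∈ τ, (sgn y (insert j τ) : ℝ) •
            f ((insert j τ).erase y)) := by
          rw [← eq_neg_iff_add_eq_zero] at h0
          rw [← smul_neg, ← h0, smul_smul, sgn_cast_mul_self, one_smul]
        rw [h4, Finset.smul_sum, ← sum_neg_distrib]
        refine sum_congr rfl fun y hy => ?_
        have hyj : y ≠ j := fun e => hj (e ▸ hy)
        by_cases hyR : y ∈ R σ
        · have e1 : g (τ.erase y) = 0 := by
            by_contra hne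
            exact notMem_erase y τ ((hgne _ hne).1.1 hyR)
          have e2 : f ((insert j τ).erase y) = 0 := by
            by_contra hne
            have hsub : (insert j τ).erase y ⊆ σ := (erase_subset _ _).trans hτ'
            rcases hsup _ hne with ⟨σ1, h5, h6, h7⟩ | ⟨h5, -⟩
            · rcases mem_insert.1 h5 with e | e
              · subst e
                exact notMem_erase y _ (h6 hyR)
              · have hne' : σ ≠ σ1 := fun e' => hσs (e' ▸ e)
                exact absurd (hmax σ1 e) (not_le.2 (h.lt σ1 (hs e) σ hσt _ h6 h7 hsub hne'))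
            · have : (insert j τ).erase y = σ := eq_of_subset_of_card_le hsub
                (by rw [(mem_tops.1 h5).2, (mem_tops.1 hσt).2])
              exact notMem_erase y _ (this ▸ h2 hy)
          rw [e1, e2]; simp
        · have h3 : R σ ⊆ τ.erase y := fun x hx =>
            mem_erase.2 ⟨fun e => hyR (e ▸ hx), h1 hx⟩
          have hj' : j ∉ τ.erase y := fun hx => hj (mem_of_mem_erase hx)
          simp only [g]
          rw [if_pos ⟨h3, (erase_subset _ _).trans h2, hj'⟩, erase_insert_of_ne hyj.symm,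
            smul_smul, smul_smul, ← neg_smul]
          congr 1
          have a1 := sgn_anti hyj (notMem_erase y τ) hj'
          rw [insert_erase hy, sgn_erase_self, ← erase_insert_of_ne hyj.symm, sgn_erase_self] at a1
          have a2 := sgn_mul_self j τ
          have a3 := sgn_mul_self j (τ.erase y)
          have a4 : sgn y τ * sgn j (τ.erase y) = -(sgn j τ * sgn y (insert j τ)) := by
            linear_combination (sgn j τ * sgn j (τ.erase y)) * a1 -
              (sgn y τ * sgn j (τ.erase y)) * a2 - (sgn j τ * sgn y (insert j τ)) * a3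
          exact_mod_cast a4
    obtain ⟨g', hg1, hg2, hg3⟩ := ih hs hcl' (f - cob ℝ N K g) (link_supp_sub hf (link_supp_cob hg))
      (fun τ => P.sub_mem (hP τ) (link_cob_mem hgP τ))
      (by rw [map_sub, hc, cob_cob h.down, sub_zero]) (by
        intro τ hτ
        by_cases hI : R σ ⊆ τ ∧ τ ⊆ σ
        · exact absurd (by rw [Pi.sub_apply, hint τ hI.1 hI.2, sub_self]) hτ
        by_cases hf0 : f τ = 0
        · have h1 : cob ℝ N K g τ ≠ 0 := by simpa [hf0] using hτ
          obtain ⟨hτK, hS, -⟩ := link_supp_cob hg τ h1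
          rw [cob_apply, if_pos hτK] at h1
          obtain ⟨y, -, hne⟩ := exists_ne_zero_of_sum_ne_zero h1
          obtain ⟨⟨h2, h3, -⟩, -⟩ := hgne _ (right_ne_zero_of_smul hne)
          obtain ⟨σ', h4, h5, h6⟩ := h.ex τ hτK hS
          have hne' : σ' ≠ σ := fun e => hI (e ▸ ⟨h5, h6⟩)
          have h7 := h.lt σ hσt σ' h4 _ h2 h3 ((erase_subset _ _).trans h6) hne'
          exact Or.inl ⟨σ', (mem_insert.1 (hcl σ (mem_insert_self _ _) σ' h4 h7)).resolve_left hne',
            h5, h6⟩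
        · rcases hsup τ hf0 with ⟨σ1, h1, h2, h3⟩ | h1
          · rcases mem_insert.1 h1 with e | e
            · exact absurd (e ▸ ⟨h2, h3⟩) hI
            · exact Or.inl ⟨σ1, e, h2, h3⟩
          · exact Or.inr h1)
    refine ⟨g + g', link_supp_add hg hg1, fun τ => P.add_mem (hgP τ) (hg2 τ), fun τ hτ => hg3 τ ?_⟩
    rwa [map_add, ← sub_sub] at hτ

lemma link_sum_cob [Fintype Y] {K : Finset (Finset Y)} {n : ℕ} {o : Finset Y → ℝ}
    (hK : ∀ σ ∈ K, ∀ τ, τ ⊆ σ → τ ∈ K) (hc : Cyc K n o) (g : Finset Y → N) :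
    ∑ σ ∈ tops K n, o σ • cob ℝ N K g σ = 0 := by
  classical
  have e1 : ∀ σ ∈ tops K n, o σ • cob ℝ N K g σ =
      ∑ y ∈ σ, (o σ * (sgn y σ : ℝ)) • g (σ.erase y) := by
    intro σ hσ
    rw [cob_apply, if_pos (mem_tops.1 hσ).1, Finset.smul_sum]
    simp only [smul_smul]
  have e2 : ∑ σ ∈ tops K n, ∑ y ∈ σ, (o σ * (sgn y σ : ℝ)) • g (σ.erase y) =
      ∑ τ ∈ K.filter (fun τ => τ.card = n), ∑ y ∈ τᶜ.filter (fun y => insert y τ ∈ K),
        (o (insert y τ) * (sgn y (insert y τ) : ℝ)) • g τ := by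
    rw [sum_sigma', sum_sigma']
    refine sum_bij' (fun p _ => ⟨p.1.erase p.2, p.2⟩) (fun p _ => ⟨insert p.2 p.1, p.2⟩)
      ?_ ?_ ?_ ?_ ?_
    · rintro ⟨σ, y⟩ hp
      obtain ⟨h1, h2⟩ := mem_sigma.1 hp
      obtain ⟨h3, h4⟩ := mem_tops.1 h1
      simp only at h2 h3 h4
      simp only [mem_sigma, mem_filter, mem_compl, notMem_erase, not_false_eq_true, true_and]
      refine ⟨⟨hK σ h3 _ (erase_subset _ _), by rw [card_erase_of_mem h2, h4]; rfl⟩, ?_⟩
      rwa [insert_erase h2]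
    · rintro ⟨τ, y⟩ hp
      simp only [mem_sigma, mem_filter, mem_compl] at hp
      simp only [mem_sigma, mem_insert_self, and_true]
      exact mem_tops.2 ⟨hp.2.2, by rw [card_insert_of_notMem hp.2.1, hp.1.2]⟩
    · rintro ⟨σ, y⟩ hp
      have h2 := (mem_sigma.1 hp).2
      simp only at h2
      simp only [insert_erase h2]
    · rintro ⟨τ, y⟩ hp
      simp only [mem_sigma, mem_filter, mem_compl] at hp
      simp only [erase_insert hp.2.1]
    · rintro ⟨σ, y⟩ hp
      have h2 := (mem_sigma.1 hp).2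
      simp only at h2
      simp only [insert_erase h2]
  rw [sum_congr rfl e1, e2]
  refine sum_eq_zero fun τ hτ => ?_
  rw [← Finset.sum_smul, hc τ (mem_filter.1 hτ).1 (mem_filter.1 hτ).2, zero_smul]

end Shell

theorem Fan.linkExact {n : ℕ} {Y : Type} [Fintype Y] [LinearOrder Y] (D : Fan n Y) (hn : 1 ≤ n)
    {o : Finset Y → ℝ} (ho : D.IsOri o) (N : Type) [AddCommGroup N] [Module ℝ N] :
    LinkExact D.K n o N := by
  classical
  intro S _ ⟨a, ha⟩ P c f hf hP hc hsum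
  obtain ⟨w, hw⟩ := D.exists_gen a
  obtain ⟨val, hv1, hv2⟩ := D.star a w hw
  obtain ⟨val', -, hv2'⟩ := D.star a (-w) hw.neg
  have hco : ∀ σ : Finset Y, ∃ co : Y → ℝ, σ ∈ tops D.K n → a ∈ σ →
      w = ∑ j ∈ σ.erase a, co j • D.pos a j := by
    intro σ
    by_cases h : σ ∈ tops D.K n ∧ a ∈ σ
    · obtain ⟨h1, h2⟩ := mem_tops.1 h.1
      obtain ⟨co, hco⟩ := exists_coord (v := D.pos a) (S := σ.erase a)
        (by rw [card_erase_of_mem h.2, h2]; rfl) (D.indep σ h1 h2 a h.2) w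
      exact ⟨co, fun _ _ => hco⟩
    · exact ⟨0, fun h1 h2 => absurd ⟨h1, h2⟩ h⟩
  choose co hco using hco
  let R : Finset Y → Finset Y := fun σ => S ∪ (σ.erase a).filter (fun j => co σ j < 0)
  have hsub : ∀ σ, S ⊆ R σ := fun σ => subset_union_left
  have hsh : LinkShell D.K n S R val := by
    refine ⟨D.down, hsub, fun τ hτ hS => ?_, fun σ hσ σ' hσ' τ h1 h2 h3 h4 => ?_⟩
    · obtain ⟨σ, h1, h2, h3, c', h4, h5⟩ := hv1 τ hτ (hS ha)
      have ht : σ ∈ tops D.K n := mem_tops.2 ⟨h1, h2⟩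
      have haσ : a ∈ σ := h3 (hS ha)
      refine ⟨σ, ht, union_subset hS fun j hj => ?_, h3⟩
      obtain ⟨h6, h7⟩ := mem_filter.1 hj
      by_contra hjτ
      have h8 := h5 j (mem_sdiff.2 ⟨mem_of_mem_erase h6, hjτ⟩)
      have h9 := coord_unique (D.indep σ h1 h2 a haσ) (h4.symm.trans (hco σ ht haσ)) j h6
      linarith only [h7, h8, h9]
    · have haτ : a ∈ τ := h1 (hsub σ ha)
      obtain ⟨k1, k2⟩ := mem_tops.1 hσ
      obtain ⟨k3, k4⟩ := mem_tops.1 hσ'
      refine hv2 τ σ σ' haτ k1 k2 h2 ⟨co σ, hco σ hσ (h2 haτ), fun j hj => ?_⟩ k3 k4 h3 h4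
      obtain ⟨k5, k6⟩ := mem_sdiff.1 hj
      have k7 : j ∈ σ.erase a := mem_erase.2 ⟨fun e => k6 (e ▸ haτ), k5⟩
      have k8 := hw σ k1 k2 (h2 haτ) _ (hco σ hσ (h2 haτ)) j k7
      by_contra hneg
      exact k6 (h1 (mem_union_right _ (mem_filter.2 ⟨k7, lt_of_le_of_ne (not_lt.1 hneg) k8⟩)))
  have hneg : ∀ σ ∈ tops D.K n, R σ = σ → S ⊆ σ ∧ PosOff (D.pos a) a σ S (-w) := by
    intro σ hσ hR
    have hS : S ⊆ σ := hR ▸ hsub σ
    refine ⟨hS, fun j => -co σ j, ?_, fun j hj => ?_⟩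
    · conv_lhs => rw [hco σ hσ (hS ha)]
      simp [neg_smul, sum_neg_distrib]
    · obtain ⟨k1, k2⟩ := mem_sdiff.1 hj
      rw [← hR] at k1
      have := (mem_filter.1 ((mem_union.1 k1).resolve_left k2)).2
      simpa using this
  have huniq : ∀ σ ∈ tops D.K n, R σ = σ → ∀ σ' ∈ tops D.K n, R σ' = σ' → σ' = σ := by
    intro σ hσ hR σ' hσ' hR'
    by_contra hne
    obtain ⟨k1, k2⟩ := mem_tops.1 hσ
    obtain ⟨k3, k4⟩ := mem_tops.1 hσ'
    have l1 := hv2' S σ σ' ha k1 k2 (hneg σ hσ hR).1 (hneg σ hσ hR).2 k3 k4 (hneg σ' hσ' hR').1 hne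
    have l2 := hv2' S σ' σ ha k3 k4 (hneg σ' hσ' hR').1 (hneg σ' hσ' hR').2 k1 k2
      (hneg σ hσ hR).1 (Ne.symm hne)
    linarith
  obtain ⟨g, hg1, hg2, hg3⟩ := hsh.main P c (tops D.K n) subset_rfl (fun _ _ _ h _ => h) f hf hP hc
    (fun τ hτ => Or.inl (hsh.ex τ (hf τ hτ).1 (hf τ hτ).2.1))
  refine ⟨g, hg1, hg2, ?_⟩
  symm
  rw [← sub_eq_zero]
  funext τ
  by_contra hne
  obtain ⟨k1, k2⟩ := hg3 τ hne
  have hcn : c = n := by
    have h1 := (link_supp_sub hf (link_supp_cob hg1) τ hne).2.2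
    have h2 := (mem_tops.1 k1).2
    omega
  have h0 : ∑ σ ∈ tops D.K n, o σ • (f - cob ℝ N D.K g) σ = 0 := by
    simp only [Pi.sub_apply, smul_sub, sum_sub_distrib]
    rw [hsum hcn, link_sum_cob D.down (D.cyc hn ho), sub_zero]
  rw [sum_eq_single_of_mem τ k1] at h0
  · apply hne
    rcases (ho τ (mem_tops.1 k1).1 (mem_tops.1 k1).2).1 with e | e
    · simpa [e] using h0
    · rw [e, neg_smul, one_smul, neg_eq_zero] at h0
      exact h0
  · intro σ _ hστ
    by_cases h1 : (f - cob ℝ N D.K g) σ = 0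
    · rw [h1, smul_zero]
    · exact absurd (huniq τ k1 k2 σ (hg3 σ h1).1 (hg3 σ h1).2) hστ

end Pool.Agent.Work.MP_dd0bbc_gt
end

-- merged part: Pool.Agent.Work.MP_dd0bbc_gt.Iso
section
/-! The isotropy identity. -/

set_option autoImplicit false

namespace Pool.Agent.Work.MP_dd0bbc_gt

open Finset Matrix

variable {m : ℕ} {Y : Type} [Fintype Y] [LinearOrder Y]

/-- A vector all of whose coordinates in `n` of the given vectors are nonzero. -/
lemma iso_exists_gen {n : ℕ} (w : Y → Fin n → ℝ) :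
    ∃ z : Fin n → ℝ, ∀ τ : Finset Y, τ.card = n → ∀ c : Y → ℝ, z = ∑ j ∈ τ, c j • w j →
      ∀ j ∈ τ, c j ≠ 0 := by
  classical
  let p : {R : Finset Y // R.card < n} → Submodule ℝ (Fin n → ℝ) :=
    fun R => Submodule.span ℝ ((R.1.image w : Finset (Fin n → ℝ)) : Set (Fin n → ℝ))
  have hp : ∀ R, p R ≠ ⊤ := by
    intro R hR
    have h1 : Module.finrank ℝ (p R) ≤ (R.1.image w).card :=
      finrank_span_finset_le_card (R := ℝ) (R.1.image w)
    rw [hR, finrank_top, Module.finrank_fin_fun] at h1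
    have h2 := card_image_le (s := R.1) (f := w)
    have h3 := R.2
    omega
  obtain ⟨z, hz⟩ := Submodule.exists_forall_notMem_of_forall_ne_top p hp
  refine ⟨z, fun τ hτ c hc j hj h0 => ?_⟩
  have hlt : (τ.erase j).card < n := by
    rw [← hτ]; exact card_erase_lt_of_mem hj
  refine hz ⟨τ.erase j, hlt⟩ ?_
  rw [hc, ← add_sum_erase τ _ hj, h0, zero_smul, zero_add]
  refine Submodule.sum_mem _ (fun i hi => Submodule.smul_mem _ _ (Submodule.subset_span ?_))
  exact mem_coe.2 (mem_image_of_mem w hi)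

omit [Fintype Y] in
/-- Lagrange interpolation for the product of two families of linear factors. -/
lemma iso_lagrange {σ S S' : Finset Y} (hσ : σ.card = 2 * m + 1) (hS : S.card = m)
    (hS' : S'.card = m) {t : Y → ℝ} (ht : Set.InjOn t σ) :
    ∑ x ∈ σ, ((∏ y ∈ S, (t y - t x)) * ∏ y ∈ S', (t y - t x)) / ∏ y ∈ σ.erase x, (t y - t x)
      = 1 := by
  let P : Polynomial ℝ := (∏ y ∈ S, (Polynomial.X - Polynomial.C (t y))) *
    ∏ y ∈ S', (Polynomial.X - Polynomial.C (t y))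
  have m1 := Polynomial.monic_prod_X_sub_C t S
  have m2 := Polynomial.monic_prod_X_sub_C t S'
  have hm : P.Monic := m1.mul m2
  have hd : P.natDegree = 2 * m := by
    rw [m1.natDegree_mul m2, Polynomial.natDegree_finsetProd_X_sub_C_eq_card,
      Polynomial.natDegree_finsetProd_X_sub_C_eq_card, hS, hS']
    ring
  have hdeg : ((σ.card : ℕ) : WithBot ℕ) = P.degree + 1 := by
    rw [Polynomial.degree_eq_natDegree hm.ne_zero, hd, hσ]; push_cast; rfl
  have h := Lagrange.leadingCoeff_eq_sum ht hdeg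
  rw [hm.leadingCoeff] at h
  rw [h]
  refine sum_congr rfl (fun x hx => ?_)
  have neg : ∀ R : Finset Y, ∏ y ∈ R, (t y - t x) = (-1) ^ R.card * ∏ y ∈ R, (t x - t y) := by
    intro R
    rw [← prod_neg]
    exact prod_congr rfl (fun y _ => by ring)
  have hc : (σ.erase x).card = 2 * m := by rw [card_erase_of_mem hx, hσ]; rfl
  have e1 : ((-1 : ℝ)) ^ m * (-1) ^ m = 1 := by rw [← pow_add, ← two_mul, pow_mul]; simp
  have e2 : ((-1 : ℝ)) ^ (2 * m) = 1 := by rw [pow_mul]; simp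
  rw [neg S, neg S', neg (σ.erase x), hS, hS', hc, e2, one_mul]
  simp only [P, Polynomial.eval_mul, Polynomial.eval_prod, Polynomial.eval_sub, Polynomial.eval_X,
    Polynomial.eval_C]
  congr 1
  rw [mul_mul_mul_comm, e1, one_mul]

omit [Fintype Y] in
/-- The local identity on one top simplex. -/
lemma iso_local {w : Y → Fin (2 * m) → ℝ} {z : Fin (2 * m) → ℝ}
    (hz : ∀ τ : Finset Y, τ.card = 2 * m → ∀ c : Y → ℝ, z = ∑ j ∈ τ, c j • w j →
      ∀ j ∈ τ, c j ≠ 0)
    {κ : Finset Y → Y → ℝ}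
    (hκ : ∀ τ : Finset Y, (∃ c : Y → ℝ, z = ∑ j ∈ τ, c j • w j) → z = ∑ j ∈ τ, κ τ j • w j)
    {σ S S' : Finset Y} (hσ : σ.card = 2 * m + 1) (hS : S.card = m) (hS' : S'.card = m)
    (h1 : S ⊆ σ) (h2 : S' ⊆ σ) (ha : ∀ y ∈ σ, aa (2 * m) w σ y ≠ 0) :
    ∑ x ∈ σ, (sgn x σ : ℝ) * (if S ⊆ σ.erase x ∧ S' ⊆ σ.erase x then
        (∏ y ∈ S, κ (σ.erase x) y) * (∏ y ∈ S', κ (σ.erase x) y) /
          (detS (2 * m) w (σ.erase x) * ∏ y ∈ σ.erase x, κ (σ.erase x) y) else 0) =
      (∏ y ∈ S, aa (2 * m) w σ y) * (∏ y ∈ S', aa (2 * m) w σ y) /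
        ∏ y ∈ σ, aa (2 * m) w σ y := by
  have hcard : ∀ x ∈ σ, (σ.erase x).card = 2 * m := fun x hx => by
    rw [card_erase_of_mem hx, hσ]; rfl
  have hli : ∀ x ∈ σ, LinearIndependent ℝ (fun j : {j // j ∈ σ.erase x} => w j.1) :=
    fun x hx => (detS_ne_zero_iff (hcard x hx)).1 (right_ne_zero_of_mul (ha x hx))
  have hκ' : ∀ x ∈ σ, z = ∑ j ∈ σ.erase x, κ (σ.erase x) j • w j :=
    fun x hx => hκ _ (exists_coord (hcard x hx) (hli x hx) z)
  obtain ⟨x0, hx0⟩ : σ.Nonempty := card_pos.1 (by omega)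
  obtain ⟨c, hc⟩ : ∃ c : Y → ℝ, z = ∑ j ∈ σ, c j • w j := by
    refine ⟨fun j => if j = x0 then 0 else κ (σ.erase x0) j, ?_⟩
    rw [← add_sum_erase σ _ hx0]
    beta_reduce
    rw [if_pos rfl, zero_smul, zero_add]
    conv_lhs => rw [hκ' x0 hx0]
    exact sum_congr rfl (fun j hj => by rw [if_neg (mem_erase.1 hj).1])
  set a : Y → ℝ := aa (2 * m) w σ with ha_def
  let t : Y → ℝ := fun y => c y / a y
  have hct : ∀ y ∈ σ, c y = a y * t y := fun y hy => by
    simp only [t]; rw [mul_div_cancel₀ _ (ha y hy)]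
  have hk : ∀ x ∈ σ, ∀ y ∈ σ.erase x, κ (σ.erase x) y = a y * (t y - t x) := by
    intro x hx
    refine coord_unique (hli x hx) ?_
    rw [← hκ' x hx]
    have h0 := aa_rel w hσ
    have e : ∑ j ∈ σ, (a j * (t j - t x)) • w j = z := by
      have : ∀ j ∈ σ, (a j * (t j - t x)) • w j = c j • w j - t x • (a j • w j) := by
        intro j hj
        rw [hct j hj, smul_smul, ← sub_smul]; congr 1; ring
      rw [sum_congr rfl this, sum_sub_distrib, ← Finset.smul_sum, h0, smul_zero, sub_zero, ← hc]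
    rw [← e, ← add_sum_erase σ _ hx, sub_self, mul_zero, zero_smul, zero_add]
  have hne : ∀ x ∈ σ, ∀ y ∈ σ.erase x, t y - t x ≠ 0 := by
    intro x hx y hy
    have := hz _ (hcard x hx) _ (hκ' x hx) y hy
    rw [hk x hx y hy] at this
    exact right_ne_zero_of_mul this
  have hinj : Set.InjOn t σ := by
    intro y hy x hx e
    by_contra hxy
    exact hne x hx y (mem_erase.2 ⟨hxy, hy⟩) (sub_eq_zero.2 e)
  have hL := iso_lagrange hσ hS hS' hinj
  rw [← mul_one (_ / ∏ y ∈ σ, a y), ← hL, mul_sum]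
  refine sum_congr rfl (fun x hx => ?_)
  split_ifs with hsub
  · have p1 : ∀ R : Finset Y, R ⊆ σ.erase x →
        ∏ y ∈ R, κ (σ.erase x) y = (∏ y ∈ R, a y) * ∏ y ∈ R, (t y - t x) := by
      intro R hR
      rw [← prod_mul_distrib]
      exact prod_congr rfl (fun y hy => hk x hx y (hR hy))
    have hdet : detS (2 * m) w (σ.erase x) = (sgn x σ : ℝ) * a x := by
      rw [ha_def, aa, ← mul_assoc, sgn_cast_mul_self, one_mul]
    have q1 : ∏ y ∈ σ.erase x, a y ≠ 0 := prod_ne_zero_iff.2 (fun y hy => ha y (mem_of_mem_erase hy))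
    have q2 : ∏ y ∈ σ.erase x, (t y - t x) ≠ 0 := prod_ne_zero_iff.2 (hne x hx)
    have q3 : (sgn x σ : ℝ) ≠ 0 := left_ne_zero_of_mul_eq_one (sgn_cast_mul_self ℝ x σ)
    have q4 := ha x hx
    rw [p1 S hsub.1, p1 S' hsub.2, p1 _ subset_rfl, hdet, ← mul_prod_erase σ a hx]
    field_simp
  · have : (∏ y ∈ S, (t y - t x)) * ∏ y ∈ S', (t y - t x) = 0 := by
      by_cases hxS : x ∈ S
      · rw [prod_eq_zero hxS (sub_self _), zero_mul]
      · by_cases hxS' : x ∈ S'
        · rw [prod_eq_zero (s := S') hxS' (sub_self _), mul_zero]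
        · exact absurd ⟨subset_erase.2 ⟨h1, hxS⟩, subset_erase.2 ⟨h2, hxS'⟩⟩ hsub
    rw [this, mul_zero, zero_div, mul_zero]

/-- Pairing a coboundary with the fundamental cycle gives zero. -/
lemma iso_stokes {n : ℕ} {K : Finset (Finset Y)} (hK : ∀ S ∈ K, ∀ T, T ⊆ S → T ∈ K)
    {o : Finset Y → ℝ} (hc : Cyc K n o) (g : Finset Y → ℝ) :
    ∑ σ ∈ tops K n, o σ * ∑ x ∈ σ, (sgn x σ : ℝ) * g (σ.erase x) = 0 := by
  have e : ∑ σ ∈ tops K n, o σ * ∑ x ∈ σ, (sgn x σ : ℝ) * g (σ.erase x) =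
      ∑ τ ∈ K.filter (·.card = n), ∑ y ∈ τᶜ.filter (fun y => insert y τ ∈ K),
        g τ * (o (insert y τ) * (sgn y (insert y τ) : ℝ)) := by
    simp only [mul_sum]
    rw [sum_sigma', sum_sigma']
    refine sum_bij' (fun p _ => ⟨p.1.erase p.2, p.2⟩) (fun p _ => ⟨insert p.2 p.1, p.2⟩)
      ?_ ?_ ?_ ?_ ?_
    · rintro ⟨σ, x⟩ h
      obtain ⟨h1, h2⟩ := mem_sigma.1 h
      obtain ⟨h3, h4⟩ := mem_tops.1 h1
      refine mem_sigma.2 ⟨mem_filter.2 ⟨hK σ h3 _ (erase_subset _ _), ?_⟩,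
        mem_filter.2 ⟨mem_compl.2 (notMem_erase _ _), ?_⟩⟩
      · rw [card_erase_of_mem h2, h4]; rfl
      · dsimp only at h2 ⊢
        rw [insert_erase h2]; exact h3
    · rintro ⟨τ, y⟩ h
      obtain ⟨h1, h2⟩ := mem_sigma.1 h
      obtain ⟨h3, h4⟩ := mem_filter.1 h2
      refine mem_sigma.2 ⟨mem_tops.2 ⟨h4, ?_⟩, mem_insert_self _ _⟩
      rw [card_insert_of_notMem (mem_compl.1 h3), (mem_filter.1 h1).2]
    · rintro ⟨σ, x⟩ h
      obtain ⟨_, h2⟩ := mem_sigma.1 h
      dsimp only at h2 ⊢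
      rw [insert_erase h2]
    · rintro ⟨τ, y⟩ h
      obtain ⟨_, h2⟩ := mem_sigma.1 h
      dsimp only at h2 ⊢
      rw [erase_insert (mem_compl.1 (mem_filter.1 h2).1)]
    · rintro ⟨σ, x⟩ h
      obtain ⟨_, h2⟩ := mem_sigma.1 h
      dsimp only at h2 ⊢
      rw [insert_erase h2]; ring
  rw [e]
  refine sum_eq_zero (fun τ hτ => ?_)
  rw [← mul_sum, hc τ (mem_filter.1 hτ).1 (mem_filter.1 hτ).2, mul_zero]

/-- Version in a fixed chart. -/
theorem iso_chart (hm : 1 ≤ m) {K : Finset (Finset Y)} (hK : ∀ S ∈ K, ∀ T, T ⊆ S → T ∈ K)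
    {o : Finset Y → ℝ} (hc : Cyc K (2 * m) o) (w : Y → Fin (2 * m) → ℝ) {S S' : Finset Y}
    (hS : S.card = m) (hS' : S'.card = m)
    (hw : ∀ σ ∈ tops K (2 * m), S ⊆ σ → S' ⊆ σ → ∀ y ∈ σ, aa (2 * m) w σ y ≠ 0) :
    ∑ σ ∈ (tops K (2 * m)).filter (fun σ => S ⊆ σ ∧ S' ⊆ σ),
      o σ * (∏ y ∈ S, aa (2 * m) w σ y) * (∏ y ∈ S', aa (2 * m) w σ y) /
        ∏ y ∈ σ, aa (2 * m) w σ y = 0 := by
  classical
  obtain ⟨z, hz⟩ := iso_exists_gen w
  obtain ⟨κ, hκ⟩ : ∃ κ : Finset Y → Y → ℝ, ∀ τ : Finset Y,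
      (∃ c : Y → ℝ, z = ∑ j ∈ τ, c j • w j) → z = ∑ j ∈ τ, κ τ j • w j := by
    refine ⟨fun τ => if h : ∃ c : Y → ℝ, z = ∑ j ∈ τ, c j • w j then h.choose else 0, ?_⟩
    intro τ h
    simp only [dif_pos h]
    exact h.choose_spec
  let g : Finset Y → ℝ := fun τ => if S ⊆ τ ∧ S' ⊆ τ then
    (∏ y ∈ S, κ τ y) * (∏ y ∈ S', κ τ y) / (detS (2 * m) w τ * ∏ y ∈ τ, κ τ y) else 0
  rw [← iso_stokes hK hc g, sum_filter]
  refine sum_congr rfl (fun σ hσ => ?_)
  split_ifs with h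
  · have := iso_local hz hκ (mem_tops.1 hσ).2 hS hS' h.1 h.2 (hw σ hσ h.1 h.2)
    simp only [g]
    rw [this]; ring
  · have : ∀ x ∈ σ, (sgn x σ : ℝ) * g (σ.erase x) = 0 := by
      intro x _
      have : ¬ (S ⊆ σ.erase x ∧ S' ⊆ σ.erase x) := fun h' =>
        h ⟨h'.1.trans (erase_subset _ _), h'.2.trans (erase_subset _ _)⟩
      simp only [g, if_neg this, mul_zero]
    rw [sum_eq_zero this, mul_zero]

omit [Fintype Y] in
theorem Fan.aa_chart {n : ℕ} (D : Fan n Y) (hD : D.Det1) (v : Y → Fin n → ℝ) {σ : Finset Y}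
    (hσ : σ ∈ D.K) {a b : Y} (ha : a ∈ σ) (hb : b ∈ σ) (y : Y) :
    aa n (D.vv v a) σ y = aa n (D.vv v b) σ y := by
  have h1 : aa n (D.vv v a) σ y = aa n (fun x => D.T a b *ᵥ D.vv v b x) σ y := by
    refine aa_congr (fun x hx => ?_)
    have hx' := mem_of_mem_erase hx
    have : ({a, b, x} : Finset Y) ∈ D.K := D.down σ hσ _ (by
      intro u hu
      simp only [mem_insert, mem_singleton] at hu
      rcases hu with rfl | rfl | rfl <;> assumption)
    rw [Fan.vv, Fan.vv, mulVec_mulVec, D.T_mul a b x this]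
  have h2 : ({a, b} : Finset Y) ∈ D.K := D.down σ hσ _ (by
    intro u hu
    simp only [mem_insert, mem_singleton] at hu
    rcases hu with rfl | rfl <;> assumption)
  rw [h1, aa_mulVec, hD a b h2, one_mul]

theorem Fan.iso (hm : 1 ≤ m) (D : Fan (2 * m) Y) (hD : D.Det1) {o : Finset Y → ℝ}
    (hc : Cyc D.K (2 * m) o) {bs : Finset Y → Y} (hbs : ∀ S : Finset Y, S.Nonempty → bs S ∈ S)
    {v : Y → Fin (2 * m) → ℝ} (hv : D.GP v) {S S' : Finset Y} (hS : S.card = m)
    (hS' : S'.card = m) :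
    ∑ σ ∈ (tops D.K (2 * m)).filter (fun σ => S ⊆ σ ∧ S' ⊆ σ),
      o σ * (∏ y ∈ S, aa (2 * m) (D.vv v (bs σ)) σ y) *
        (∏ y ∈ S', aa (2 * m) (D.vv v (bs σ)) σ y) / ∏ y ∈ σ, aa (2 * m) (D.vv v (bs σ)) σ y
      = 0 := by
  obtain ⟨a, ha⟩ : S.Nonempty := card_pos.1 (by omega)
  rw [← iso_chart hm D.down hc (D.vv v a) hS hS' (fun σ hσ h1 _ y hy =>
    hv σ (mem_tops.1 hσ).1 (mem_tops.1 hσ).2 a (h1 ha) y hy)]
  refine sum_congr rfl (fun σ hσ => ?_)
  obtain ⟨h1, h2, _⟩ := mem_filter.1 hσ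
  have e : ∀ y, aa (2 * m) (D.vv v (bs σ)) σ y = aa (2 * m) (D.vv v a) σ y :=
    D.aa_chart hD v (mem_tops.1 h1).1 (hbs σ ⟨a, h2 ha⟩) (h2 ha)
  simp only [e]

end Pool.Agent.Work.MP_dd0bbc_gt
end

-- merged part: Pool.Agent.Work.MP_dd0bbc_gt.Core
section
/-! The inequality for an oriented complex with local linear models. -/

set_option autoImplicit false

namespace Pool.Agent.Work.MP_dd0bbc_gt

open Finset Matrix

variable {m : ℕ} {Y : Type} [Fintype Y] [LinearOrder Y]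

omit [Fintype Y] in
lemma Fan.GP.li {n : ℕ} {D : Fan n Y} {v : Y → Fin n → ℝ} (hv : D.GP v) {τ : Finset Y}
    (hτ : τ ∈ D.K) (hc : τ.card ≤ n) {a : Y} (ha : a ∈ τ) :
    LinearIndependent ℝ (fun y : {y // y ∈ τ} => D.vv v a y.1) := by
  obtain ⟨σ, hσ, hσc, hs⟩ := D.pure hτ ⟨a, ha⟩
  obtain ⟨x, hx, hxτ⟩ := exists_mem_notMem_of_card_lt_card (s := τ) (t := σ) (by omega)
  have h' : (σ.erase x).card = n := by rw [card_erase_of_mem hx, hσc]; rfl
  have h1 := (detS_ne_zero_iff h').1 (right_ne_zero_of_mul (hv σ hσ hσc a (hs ha) x hx))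
  exact h1.comp (fun y : {y // y ∈ τ} =>
    (⟨y.1, mem_erase.2 ⟨fun e => hxτ (e ▸ y.2), hs y.2⟩⟩ : {y // y ∈ σ.erase x}))
    (fun y y' e => Subtype.ext (by simpa using e))

omit [Fintype Y] in
lemma Fan.vv_map {n : ℕ} (D : Fan n Y) (v : Y → Fin n → ℝ) {a b y : Y} (h : {a, b, y} ∈ D.K) :
    D.T a b *ᵥ D.vv v b y = D.vv v a y := by
  rw [Fan.vv, Fan.vv, mulVec_mulVec, D.T_mul a b y h]

theorem core (hm : 1 ≤ m) (D : Fan (2 * m) Y) (hD : D.Det1) {bs : Finset Y → Y}
    (hbs : ∀ S : Finset Y, S.Nonempty → bs S ∈ S) :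
    4 ^ m * |(chi D.K (2 * m) : ℝ)| + (tw D.K bs (fun a b => cmp m (D.T a b)) (m - 1)).rank +
      2 * (tw D.K bs (fun a b => cmp m (D.T a b)) m).rank +
      (tw D.K bs (fun a b => cmp m (D.T a b)) (m + 1)).rank ≤
        (2 * m).choose m * (fn D.K m + fn D.K (m + 1)) := by
  obtain ⟨o, ho⟩ := D.exists_ori hD
  obtain ⟨v, hv, hph⟩ := poincare_hopf (by omega) (even_two_mul m) D hD ho hbs
  obtain ⟨Bf, hB1, hB2, hB3⟩ := exists_wedge (m := m)
  have hc := D.cyc (by omega) ho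
  let W : WData m Y (Idx (2 * m) m) :=
    { K := D.K
      o := o
      bs := bs
      U := fun a b => cmp m (D.T a b)
      L := fun a y => Lv m (D.vv v a y)
      vS := fun a S => plkS m (D.vv v a) S
      A := fun σ y => aa (2 * m) (D.vv v (bs σ)) σ y
      Bf := Bf
      m_pos := hm
      down := D.down
      card_le := D.card_le
      bs_mem := hbs
      o_eq := fun σ hσ => (ho σ (mem_tops.1 hσ).1 (mem_tops.1 hσ).2).1
      pure := fun τ hτ hne => by
        obtain ⟨σ, h1, h2, h3⟩ := D.pure hτ hne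
        exact ⟨σ, mem_tops.2 ⟨h1, h2⟩, h3⟩
      cyc := hc
      link := D.linkExact (by omega) ho _
      U_self := fun a => by rw [D.T_self, cmp_one]
      U_mul := fun a b c h => by rw [← cmp_mul, D.T_mul a b c h]
      L_map := fun a b y h x hx => by
        rw [← D.vv_map v h]; exact Lv_map _ _ hx
      vS_map := fun a b S h => by
        rw [cmp_mulVec_plkS]
        refine plkS_congr (fun y hy => D.vv_map v (D.down _ h _ ?_))
        intro z hz
        simp only [mem_insert, mem_singleton] at hz ⊢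
        rcases hz with e | e | e
        · exact Or.inl e
        · exact Or.inr (Or.inl e)
        · exact Or.inr (Or.inr (e ▸ hy))
      adapted := fun τ hτ h a ha => Lv_adapted (hv.li hτ h ha)
      span_top := fun τ hτ h a ha => Lv_span_top rfl h (hv.li hτ (by omega) ha)
      inter_bot := fun S hS h a ha x hx => Lv_inter_bot h (hv.li hS (by omega) ha) hx
      inter_line := fun S hS h a ha x => Lv_inter_line h (hv.li hS (by omega) ha) x
      vS_ne := fun S hS h a ha => plkS_ne h (hv.li hS (by omega) ha)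
      A_ne := fun σ hσ y hy =>
        hv σ (mem_tops.1 hσ).1 (mem_tops.1 hσ).2 _ (hbs σ ⟨y, hy⟩) y hy
      ker_top := fun σ hσ c => ker_top_iff hm (by omega) (mem_tops.1 hσ).2
        (fun y hy => hv σ (mem_tops.1 hσ).1 (mem_tops.1 hσ).2 _ (hbs σ ⟨y, hy⟩) y hy) c
      iso := fun S S' hS hS' => D.iso hm hD hc hbs hv hS hS'
      Bf_inv := fun a b h x y => hB1 _ (hD a b h) x y
      Bf_nondeg := hB2
      Bf_perp := fun S hS h a ha x hx => hB3 Y _ S h (hv.li hS (by omega) ha) x hx }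
  have hw := W.witt
  rw [card_Idx] at hw
  have e : ∑ σ ∈ tops W.K (2 * m), W.o σ * (SignType.sign (∏ y ∈ σ, W.A σ y) : ℝ) =
      2 ^ (2 * m) * (chi D.K (2 * m) : ℝ) := hph
  rw [e, abs_mul, pow_mul, abs_of_pos (by positivity)] at hw
  norm_num at hw ⊢
  exact hw

end Pool.Agent.Work.MP_dd0bbc_gt
end

-- merged part: Pool.Agent.Work.MP_dd0bbc_gt.SingCmp
section
/-! Comparison of the concrete singular chains with the library; contractible sets. -/

set_option autoImplicit false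

namespace Pool.Agent.Work.MP_dd0bbc_gt

open Finsupp

variable {X : Type} [TopologicalSpace X]

theorem map_supported_cmp {S : Set (Sx X)} {V : Type} [AddCommGroup V] [Module ℚ V]
    (T : Submodule ℚ V) (F : SC X →ₗ[ℚ] V) (h : ∀ s ∈ S, F (single s 1) ∈ T) {x : SC X}
    (hx : x ∈ supported ℚ ℚ S) : F x ∈ T := by
  have : supported ℚ ℚ S ≤ T.comap F := by
    rw [supported_eq_span_single, Submodule.span_le]
    rintro _ ⟨s, hs, rfl⟩
    exact h s hs
  exact this hx

theorem sbd_single_cmp (s : Sx X) : sbd X (single s 1) = sbd1 s := by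
  rw [sbd, linearCombination_single, one_smul]

theorem sbd_mem (U : Set X) (q : ℕ) {x : SC X} (hx : x ∈ SCq U (q + 1)) : sbd X x ∈ SCq U q := by
  refine map_supported_cmp _ _ ?_ hx
  rintro ⟨q', s⟩ ⟨rfl, hs⟩
  rw [sbd_single_cmp, sbd1]
  refine Submodule.sum_mem _ fun i _ => Submodule.smul_mem _ _ (single_mem_supported ℚ _ ?_)
  refine ⟨rfl, ?_⟩
  rintro _ ⟨y, rfl⟩
  exact hs ⟨_, rfl⟩

theorem sbd_zero (U : Set X) {x : SC X} (hx : x ∈ SCq U 0) : sbd X x = 0 := by
  refine (Submodule.mem_bot ℚ).mp (map_supported_cmp _ _ ?_ hx)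
  rintro ⟨q', s⟩ ⟨rfl, hs⟩
  rw [sbd_single_cmp, sbd1]
  exact zero_mem _

section Cmp

open CategoryTheory Limits AlgebraicTopology Simplicial

variable (X) in
/-- The singular simplicial set. -/
noncomputable abbrev SSCmp : SSet.{0} := TopCat.toSSet.obj (TopCat.of X)

variable (X) in
/-- The singular chain complex of the library. -/
noncomputable abbrev CXCmp : ChainComplex (ModuleCat.{0} ℚ) ℕ :=
  (SSCmp X).chainComplex (ModuleCat.of ℚ ℚ)

/-- The basis element of a singular simplex. -/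
noncomputable def basCmp {n : ℕ} (s : SSCmp X _⦋n⦌) : (CXCmp X).X n :=
  ((SSCmp X).ιChainComplex (R := ModuleCat.of ℚ ℚ) s).hom (1 : ℚ)

theorem d_basCmp {n : ℕ} (s : SSCmp X _⦋n + 1⦌) :
    ((CXCmp X).d (n + 1) n).hom (basCmp s) =
      ∑ i : Fin (n + 2), (-1 : ℚ) ^ (i : ℕ) • basCmp ((SSCmp X).δ i s) := by
  have h := congrArg (fun φ => φ.hom (1 : ℚ)) ((SSCmp X).ιChainComplex_d (ModuleCat.of ℚ ℚ) s)
  simp only [ModuleCat.hom_comp, LinearMap.comp_apply, ModuleCat.hom_sum,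
    LinearMap.sum_apply] at h
  refine h.trans (Finset.sum_congr rfl (fun i _ => ?_))
  rw [ModuleCat.hom_zsmul, LinearMap.smul_apply, ← Int.cast_smul_eq_zsmul ℚ]
  simp [basCmp]

theorem span_basCmp {n : ℕ} (T : Submodule ℚ ((CXCmp X).X n)) (h : ∀ s, basCmp s ∈ T)
    (c : (CXCmp X).X n) : c ∈ T := by
  have h1 : ModuleCat.ofHom T.mkQ = 0 := by
    refine SSet.chainComplex_hom_ext (fun s => ?_)
    rw [comp_zero]
    ext
    exact (Submodule.Quotient.mk_eq_zero T).2 (h s)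
  have h2 := congrArg (fun φ => φ.hom c) h1
  exact (Submodule.Quotient.mk_eq_zero T).1 h2

theorem exists_descCmp {n : ℕ} {M : Type} [AddCommGroup M] [Module ℚ M]
    (f : SSCmp X _⦋n⦌ → M) : ∃ φ : (CXCmp X).X n →ₗ[ℚ] M, ∀ s, φ (basCmp s) = f s := by
  let c : Cofan (fun _ : SSCmp X _⦋n⦌ => ModuleCat.of ℚ ℚ) := Cofan.mk (ModuleCat.of ℚ M)
    (fun s => ModuleCat.ofHom (LinearMap.toSpanSingleton ℚ M (f s)))
  refine ⟨(((SSCmp X).isColimitChainComplexXCofan (ModuleCat.of ℚ ℚ) n).desc c).hom,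
    fun s => ?_⟩
  have h := congrArg (fun φ => φ.hom (1 : ℚ))
    (((SSCmp X).isColimitChainComplexXCofan (ModuleCat.of ℚ ℚ) n).fac c ⟨s⟩)
  exact h.trans (one_smul _ _)

/-- Singular simplices as continuous maps. -/
noncomputable def eqvCmp (n : ℕ) : SSCmp X _⦋n⦌ ≃ C(stdSimplex ℝ (Fin (n + 1)), X) :=
  (TopCat.of X).toSSetObjEquiv (Opposite.op ⦋n⦌)

theorem eqvCmp_δ {n : ℕ} (s : SSCmp X _⦋n + 1⦌) (i : Fin (n + 2)) :
    eqvCmp n ((SSCmp X).δ i s) = face (eqvCmp (n + 1) s) i := rfl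

variable (X) in
/-- The comparison map. -/
noncomputable def phiCmp (n : ℕ) : (CXCmp X).X n →ₗ[ℚ] SC X :=
  (exists_descCmp (fun s => (single ⟨n, eqvCmp n s⟩ 1 : SC X))).choose

theorem phiCmp_bas {n : ℕ} (s : SSCmp X _⦋n⦌) :
    phiCmp X n (basCmp s) = single ⟨n, eqvCmp n s⟩ 1 :=
  (exists_descCmp (fun s => (single ⟨n, eqvCmp n s⟩ 1 : SC X))).choose_spec s

theorem phiCmp_injective (n : ℕ) : Function.Injective (phiCmp X n) := by
  classical
  let ψ : SC X →ₗ[ℚ] (CXCmp X).X n := linearCombination ℚ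
    (fun s : Sx X => if h : s.1 = n then basCmp ((eqvCmp n).symm (h ▸ s.2)) else 0)
  refine Function.LeftInverse.injective (g := ψ) fun c => ?_
  refine span_basCmp (LinearMap.eqLocus (ψ ∘ₗ phiCmp X n) LinearMap.id) (fun s => ?_) c
  rw [LinearMap.mem_eqLocus, LinearMap.comp_apply, phiCmp_bas, linearCombination_single,
    one_smul, dif_pos rfl, Equiv.symm_apply_apply, LinearMap.id_apply]

theorem range_phiCmp (n : ℕ) : LinearMap.range (phiCmp X n) = SCq Set.univ n := by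
  apply le_antisymm
  · rintro _ ⟨c, rfl⟩
    refine span_basCmp ((SCq Set.univ n).comap (phiCmp X n)) (fun s => ?_) c
    rw [Submodule.mem_comap, phiCmp_bas]
    exact single_mem_supported ℚ _ ⟨rfl, Set.subset_univ _⟩
  · intro x hx
    refine map_supported_cmp _ LinearMap.id ?_ hx
    rintro ⟨q, s⟩ ⟨rfl, -⟩
    exact ⟨basCmp ((eqvCmp q).symm s), by rw [phiCmp_bas, Equiv.apply_symm_apply]; rfl⟩

theorem sbd_phiCmp (n : ℕ) (c : (CXCmp X).X (n + 1)) :
    sbd X (phiCmp X (n + 1) c) = phiCmp X n (((CXCmp X).d (n + 1) n).hom c) := by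
  refine span_basCmp (LinearMap.eqLocus (sbd X ∘ₗ phiCmp X (n + 1))
    (phiCmp X n ∘ₗ ((CXCmp X).d (n + 1) n).hom)) (fun s => ?_) c
  rw [LinearMap.mem_eqLocus, LinearMap.comp_apply, LinearMap.comp_apply, d_basCmp, map_sum,
    phiCmp_bas, sbd_single_cmp, sbd1]
  refine Finset.sum_congr rfl fun i _ => ?_
  rw [map_smul, phiCmp_bas, eqvCmp_δ]

theorem sbd_phiCmp_eq_zero_iff (n : ℕ) (c : (CXCmp X).X n) :
    sbd X (phiCmp X n c) = 0 ↔ ((CXCmp X).d n ((ComplexShape.down ℕ).next n)).hom c = 0 := by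
  rcases n with _ | n
  · rw [(CXCmp X).shape 0 _ (by simp)]
    refine iff_of_true (sbd_zero Set.univ ?_) rfl
    rw [← range_phiCmp]
    exact ⟨c, rfl⟩
  · rw [ChainComplex.next_nat_succ, sbd_phiCmp, map_eq_zero_iff _ (phiCmp_injective n)]

/-- Transport of a subquotient along an injective linear map. -/
noncomputable def quotEquivCmp {A V : Type} [AddCommGroup A] [Module ℚ A] [AddCommGroup V]
    [Module ℚ V] (φ : A →ₗ[ℚ] V) (hφ : Function.Injective φ) (Z : Submodule ℚ A)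
    (B : Submodule ℚ Z) (Z' B' : Submodule ℚ V) (hZ : Z' = Z.map φ)
    (hB : B' = (B.map Z.subtype).map φ) : (Z ⧸ B) ≃ₗ[ℚ] Z'.map B'.mkQ :=
  (Submodule.quotEquivOfEq B (LinearMap.ker (B'.mkQ ∘ₗ φ ∘ₗ Z.subtype)) (by
    ext z
    rw [LinearMap.mem_ker, LinearMap.comp_apply, Submodule.mkQ_apply,
      Submodule.Quotient.mk_eq_zero, hB, ← Submodule.map_comp]
    constructor
    · intro hz
      exact ⟨z, hz, rfl⟩
    · rintro ⟨y, hy, e⟩
      rwa [← Z.injective_subtype (hφ e)])).trans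
  ((LinearMap.quotKerEquivRange _).trans (LinearEquiv.ofEq _ _ (by
    rw [LinearMap.range_comp, LinearMap.range_comp, Submodule.range_subtype, hZ])))

variable (X) in
theorem nonempty_equivCmp (k : ℕ) :
    Nonempty ((((AlgebraicTopology.singularHomologyFunctor (ModuleCat.{0} ℚ) k).obj
      (ModuleCat.of ℚ ℚ)).obj (TopCat.of X)) ≃ₗ[ℚ]
      (SCq Set.univ k ⊓ LinearMap.ker (sbd X)).map
        ((SCq Set.univ (k + 1)).map (sbd X)).mkQ) := by
  let S := (CXCmp X).sc' (k + 1) k ((ComplexShape.down ℕ).next k)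
  let e1 : (CXCmp X).homology k ≅ S.homology :=
    (CXCmp X).homologyIsoSc' (k + 1) k _ (by simp) rfl
  let e2 := (e1 ≪≫ S.moduleCatHomologyIso).toLinearEquiv
  refine ⟨e2.trans (quotEquivCmp (phiCmp X k) (phiCmp_injective k) (LinearMap.ker S.g.hom)
    (LinearMap.range S.moduleCatToCycles) _ _ ?_ ?_)⟩
  · ext x
    rw [← range_phiCmp]
    constructor
    · rintro ⟨⟨c, rfl⟩, hc⟩
      exact ⟨c, (sbd_phiCmp_eq_zero_iff k c).mp hc, rfl⟩
    · rintro ⟨c, hc, rfl⟩
      exact ⟨⟨c, rfl⟩, (sbd_phiCmp_eq_zero_iff k c).mpr hc⟩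
  · ext x
    rw [← range_phiCmp]
    constructor
    · rintro ⟨_, ⟨c, rfl⟩, rfl⟩
      exact ⟨_, ⟨_, ⟨c, rfl⟩, rfl⟩, (sbd_phiCmp k c).symm⟩
    · rintro ⟨_, ⟨_, ⟨c, rfl⟩, rfl⟩, rfl⟩
      exact ⟨_, ⟨c, rfl⟩, sbd_phiCmp k c⟩

end Cmp

theorem sbd_sbd (x : SC X) : sbd X (sbd X x) = 0 := by
  have : sbd X ∘ₗ sbd X = 0 := by
    refine Finsupp.lhom_ext' fun s => LinearMap.ext_ring ?_
    change sbd X (sbd X (single s 1)) = 0
    obtain ⟨q, s⟩ := s
    have hs : (single ⟨q, s⟩ 1 : SC X) ∈ SCq Set.univ q :=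
      single_mem_supported ℚ _ ⟨rfl, Set.subset_univ _⟩
    rcases q with _ | _ | q
    · rw [sbd_zero _ hs, map_zero]
    · exact sbd_zero _ (sbd_mem _ _ hs)
    · rw [← range_phiCmp] at hs
      obtain ⟨c, hc⟩ := hs
      rw [← hc, sbd_phiCmp, sbd_phiCmp, ← LinearMap.comp_apply ((CXCmp X).d (q + 1) q).hom,
        ← ModuleCat.hom_comp, HomologicalComplex.d_comp_d, ModuleCat.hom_zero,
        LinearMap.zero_apply, map_zero]
  exact LinearMap.congr_fun this x

theorem aug_sbd (x : SC X) : aug X (sbd X x) = 0 := by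
  have : aug X ∘ₗ sbd X = 0 := by
    refine Finsupp.lhom_ext' fun s => LinearMap.ext_ring ?_
    change aug X (sbd X (single s 1)) = 0
    obtain ⟨q, s⟩ := s
    rw [sbd_single_cmp]
    rcases q with _ | _ | q
    · rw [sbd1, map_zero]
    · simp [sbd1, aug, Fin.sum_univ_two]
    · simp [sbd1, aug]
  exact LinearMap.congr_fun this x

variable (X) in
theorem rank_homology (k : ℕ) :
    Module.rank ℚ (((AlgebraicTopology.singularHomologyFunctor (ModuleCat.{0} ℚ) k).obj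
      (ModuleCat.of ℚ ℚ)).obj (TopCat.of X)) =
    hrank (SCq Set.univ k ⊓ LinearMap.ker (sbd X)) ((SCq Set.univ (k + 1)).map (sbd X)) := by
  obtain ⟨e⟩ := nonempty_equivCmp X k
  exact e.rank_eq

variable (X) in
theorem betti_eq (k : ℕ) : betti X k =
    hdim (SCq Set.univ k ⊓ LinearMap.ker (sbd X)) ((SCq Set.univ (k + 1)).map (sbd X)) := by
  obtain ⟨e⟩ := nonempty_equivCmp X k
  exact e.finrank_eq

end Pool.Agent.Work.MP_dd0bbc_gt
end

-- merged part: Pool.Agent.Work.MP_dd0bbc_gt.SingAcyc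
section
/-! Contractible sets are acyclic; small chains compute homology given a subdivision. -/

set_option autoImplicit false

namespace Pool.Agent.Work.MP_dd0bbc_gt

open Finsupp

variable {X : Type} [TopologicalSpace X]

namespace SingAcycAux

open CategoryTheory Limits AlgebraicTopology in
theorem isZero_homology_contr (Z : Type) [TopologicalSpace Z] [ContractibleSpace Z] (k : ℕ)
    (hk : k ≠ 0) :
    IsZero (((singularHomologyFunctor (ModuleCat.{0} ℚ) k).obj (ModuleCat.of ℚ ℚ)).obj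
      (TopCat.of Z)) := by
  obtain ⟨z, ⟨H⟩⟩ := id_nullhomotopic Z
  let F := (singularHomologyFunctor (ModuleCat.{0} ℚ) k).obj (ModuleCat.of ℚ ℚ)
  let p : TopCat.of Z ⟶ TopCat.of PUnit.{1} := TopCat.ofHom (ContinuousMap.const _ PUnit.unit)
  let i : TopCat.of PUnit.{1} ⟶ TopCat.of Z := TopCat.ofHom (ContinuousMap.const _ z)
  have h0 : IsZero (F.obj (TopCat.of PUnit.{1})) :=
    isZero_singularHomologyFunctor_of_totallyDisconnectedSpace _ _ _ _ hk
  have h1 : F.map (𝟙 (TopCat.of Z)) = F.map (p ≫ i) :=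
    TopCat.Homotopy.congr_homologyMap_singularChainComplexFunctor (f := 𝟙 _) (g := p ≫ i) H _ k
  change IsZero (F.obj (TopCat.of Z))
  rw [IsZero.iff_id_eq_zero, ← F.map_id, h1, F.map_comp, h0.eq_zero_of_tgt (F.map p), zero_comp]

theorem le_of_hrank_eq_zero {k V : Type} [Field k] [AddCommGroup V] [Module k V]
    {Z B : Submodule k V} (h : hrank Z B = 0) : Z ≤ B := by
  intro x hx
  have hs : Subsingleton (Z.map B.mkQ) := rank_zero_iff.1 h
  have h1 : (⟨B.mkQ x, Submodule.mem_map_of_mem hx⟩ : Z.map B.mkQ) = 0 := Subsingleton.elim _ _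
  have h2 : B.mkQ x = 0 := congrArg Subtype.val h1
  exact (Submodule.Quotient.mk_eq_zero B).1 h2

theorem hrank_eq_of_comap {k V : Type} [Field k] [AddCommGroup V] [Module k V]
    {Z B B' : Submodule k V} (h : ∀ x ∈ Z, x ∈ B ↔ x ∈ B') : hrank Z B = hrank Z B' := by
  have key : ∀ C : Submodule k V,
      hrank Z C = Module.rank k (Z ⧸ LinearMap.ker (C.mkQ ∘ₗ Z.subtype)) := by
    intro C
    rw [(LinearMap.quotKerEquivRange (C.mkQ ∘ₗ Z.subtype)).rank_eq, LinearMap.range_comp,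
      Submodule.range_subtype]
    rfl
  have hk : LinearMap.ker (B.mkQ ∘ₗ Z.subtype) = LinearMap.ker (B'.mkQ ∘ₗ Z.subtype) := by
    ext x
    simp only [LinearMap.mem_ker, LinearMap.comp_apply, Submodule.mkQ_apply,
      Submodule.Quotient.mk_eq_zero, Submodule.subtype_apply]
    exact h x.1 x.2
  rw [key B, key B', hk]

theorem hrank_eq_of_sup {k V : Type} [Field k] [AddCommGroup V] [Module k V]
    {Z Z' B : Submodule k V} (h1 : Z' ≤ Z) (h2 : ∀ x ∈ Z, ∃ y ∈ Z', x - y ∈ B) :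
    hrank Z' B = hrank Z B := by
  have : Z'.map B.mkQ = Z.map B.mkQ := by
    refine le_antisymm (Submodule.map_mono h1) ?_
    rintro _ ⟨x, hx, rfl⟩
    obtain ⟨y, hy, hxy⟩ := h2 x hx
    exact ⟨y, hy, ((Submodule.Quotient.eq B).2 hxy).symm⟩
  unfold hrank
  rw [this]

/-- Push-forward of simplices. -/
def pushSx {Z : Type} [TopologicalSpace Z] (f : C(Z, X)) (s : Sx Z) : Sx X := ⟨s.1, f.comp s.2⟩

/-- Push-forward of chains. -/
noncomputable def push {Z : Type} [TopologicalSpace Z] (f : C(Z, X)) : SC Z →ₗ[ℚ] SC X :=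
  lmapDomain ℚ ℚ (pushSx f)

theorem push_single {Z : Type} [TopologicalSpace Z] (f : C(Z, X)) (s : Sx Z) (c : ℚ) :
    push f (single s c) = single (pushSx f s) c := by
  simp [push]

theorem sbd_single (s : Sx X) (c : ℚ) : sbd X (single s c) = c • sbd1 s := by
  simp [sbd]

theorem sbd_push {Z : Type} [TopologicalSpace Z] (f : C(Z, X)) (x : SC Z) :
    sbd X (push f x) = push f (sbd Z x) := by
  induction x using Finsupp.induction_linear with
  | zero => simp
  | add a b ha hb => simp [ha, hb]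
  | single s c =>
    rw [push_single, sbd_single, sbd_single, map_smul]
    congr 1
    obtain ⟨q, s⟩ := s
    cases q with
    | zero => simp [pushSx, sbd1]
    | succ q =>
      simp only [pushSx, sbd1, map_sum, map_smul, push_single]
      rfl

theorem pushSx_injective {Z : Type} [TopologicalSpace Z] (f : C(Z, X))
    (hf : Function.Injective f) : Function.Injective (pushSx f) := by
  rintro ⟨q, s⟩ ⟨q', s'⟩ h
  simp only [pushSx, Sigma.mk.injEq] at h
  obtain ⟨rfl, h⟩ := h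
  have h' := eq_of_heq h
  congr 1
  ext t
  exact hf (congrArg (fun g : C(_, X) => g t) h')

theorem push_injective {Z : Type} [TopologicalSpace Z] (f : C(Z, X))
    (hf : Function.Injective f) : Function.Injective (push f) :=
  mapDomain_injective (pushSx_injective f hf)

/-- The inclusion of a subset. -/
def incl (U : Set X) : C(U, X) := ⟨Subtype.val, continuous_subtype_val⟩

theorem map_push_incl (U : Set X) (q : ℕ) :
    (SCq (Set.univ : Set U) q).map (push (incl U)) = SCq U q := by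
  unfold SCq push
  rw [lmapDomain_supported]
  congr 1
  ext s
  constructor
  · rintro ⟨t, ⟨h, -⟩, rfl⟩
    refine ⟨h, ?_⟩
    rintro _ ⟨a, rfl⟩
    exact (t.2 a).2
  · rintro ⟨h, hr⟩
    obtain ⟨p, s⟩ := s
    refine ⟨⟨p, ⟨fun a => ⟨s a, hr ⟨a, rfl⟩⟩, s.continuous.subtype_mk _⟩⟩,
      ⟨h, Set.subset_univ _⟩, rfl⟩

/-- The constant `0`-simplex. -/
def pt (a : X) : Sx X := ⟨0, ContinuousMap.const _ a⟩

theorem eq_pt (s : C(stdSimplex ℝ (Fin (0 + 1)), X)) :
    (⟨0, s⟩ : Sx X) = pt (s (stdSimplex.vertex 0)) := by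
  unfold pt
  congr 1
  ext t
  have : Subsingleton (Fin (0 + 1)) := inferInstanceAs (Subsingleton (Fin 1))
  rw [Subsingleton.elim t (stdSimplex.vertex 0)]
  rfl

theorem aug_single (s : Sx X) (c : ℚ) : aug X (single s c) = if s.1 = 0 then c else 0 := by
  simp [aug]

theorem path_bd (U : Set X) {a b : U} (h : Joined a b) :
    ∃ y ∈ SCq U 1, sbd X y = single (pt (b : X)) 1 - single (pt (a : X)) 1 := by
  obtain ⟨γ⟩ := h
  let σ : C(stdSimplex ℝ (Fin (0 + 2)), X) :=
    ⟨fun t => (γ (stdSimplexHomeomorphUnitInterval t) : X),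
      continuous_subtype_val.comp
        (γ.continuous.comp stdSimplexHomeomorphUnitInterval.continuous)⟩
  refine ⟨single ⟨0 + 1, σ⟩ 1, single_mem_supported _ _ ⟨rfl, ?_⟩, ?_⟩
  · rintro _ ⟨t, rfl⟩
    exact (γ _).2
  · have h0 : (⟨0, face σ 0⟩ : Sx X) = pt (b : X) := by
      rw [eq_pt]
      congr 1
      change (γ (stdSimplexHomeomorphUnitInterval
        (stdSimplex.map (Fin.succAbove (0 : Fin 2)) (stdSimplex.vertex 0))) : X) = b
      rw [stdSimplex.map_vertex]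
      have : stdSimplexHomeomorphUnitInterval
          (stdSimplex.vertex (Fin.succAbove (0 : Fin 2) 0)) = 1 :=
        stdSimplexHomeomorphUnitInterval_one
      rw [this, γ.target]
    have h1 : (⟨0, face σ 1⟩ : Sx X) = pt (a : X) := by
      rw [eq_pt]
      congr 1
      change (γ (stdSimplexHomeomorphUnitInterval
        (stdSimplex.map (Fin.succAbove (1 : Fin 2)) (stdSimplex.vertex 0))) : X) = a
      rw [stdSimplex.map_vertex]
      have : stdSimplexHomeomorphUnitInterval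
          (stdSimplex.vertex (Fin.succAbove (1 : Fin 2) 0)) = 0 :=
        stdSimplexHomeomorphUnitInterval_zero
      rw [this, γ.source]
    rw [sbd_single, one_smul]
    change ∑ i : Fin 2, (-1 : ℚ) ^ (i : ℕ) • single (⟨0, face σ i⟩ : Sx X) (1 : ℚ) = _
    rw [Fin.sum_univ_two, h0, h1]
    simp [sub_eq_add_neg]

theorem small_eq {Y : Type} (U : Y → Set X) (q : ℕ) : Small U q = ⨆ y, SCq (U y) q := by
  unfold Small SCq
  rw [← supported_iUnion]
  congr 1
  ext s
  simp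

theorem small_le {Y : Type} (U : Y → Set X) (q : ℕ) : Small U q ≤ SCq Set.univ q :=
  supported_mono fun _ h => ⟨h.1, Set.subset_univ _⟩

theorem map_small {Y : Type} (U : Y → Set X) (L : SC X →ₗ[ℚ] SC X) (q q' : ℕ)
    (h : ∀ y, ∀ x ∈ SCq (U y) q, L x ∈ SCq (U y) q') {x : SC X} (hx : x ∈ Small U q) :
    L x ∈ Small U q' := by
  have : Small U q ≤ (Small U q').comap L := by
    rw [small_eq U q]
    refine iSup_le fun y x hx => ?_
    rw [Submodule.mem_comap, small_eq]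
    exact Submodule.mem_iSup_of_mem y (h y x hx)
  exact this hx

end SingAcycAux

open SingAcycAux

theorem acyclic (U : Set X) [ContractibleSpace U] (q : ℕ) {x : SC X} (hx : x ∈ SCq U (q + 1))
    (h0 : sbd X x = 0) : ∃ y ∈ SCq U (q + 2), sbd X y = x := by
  rw [← map_push_incl] at hx
  obtain ⟨x', hx', rfl⟩ := hx
  have hinj : Function.Injective (push (incl U)) := push_injective _ Subtype.val_injective
  have h0' : sbd U x' = 0 := by
    apply hinj
    rw [← sbd_push, h0, map_zero]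
  have hz := isZero_homology_contr U (q + 1) (Nat.succ_ne_zero q)
  have hr := rank_homology U (q + 1)
  have hsub := ModuleCat.subsingleton_of_isZero hz
  rw [rank_subsingleton'] at hr
  obtain ⟨y', hy', hyx⟩ := le_of_hrank_eq_zero hr.symm (Submodule.mem_inf.2 ⟨hx', h0'⟩)
  refine ⟨push (incl U) y', ?_, ?_⟩
  · rw [← map_push_incl]
    exact Submodule.mem_map_of_mem hy'
  · rw [sbd_push, hyx]

theorem acyclic_zero (U : Set X) [ContractibleSpace U] {x : SC X} (hx : x ∈ SCq U 0)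
    (h0 : aug X x = 0) : ∃ y ∈ SCq U 1, sbd X y = x := by
  obtain ⟨a⟩ : Nonempty U := inferInstance
  have key : ∀ x ∈ SCq U 0,
      x - aug X x • single (pt (a : X)) 1 ∈ (SCq U 1).map (sbd X) := by
    intro x hx
    unfold SCq at hx
    rw [supported_eq_span_single] at hx
    induction hx using Submodule.span_induction with
    | mem z hz =>
      obtain ⟨⟨q, s⟩, ⟨hq, hs⟩, rfl⟩ := hz
      obtain rfl : q = 0 := hq
      obtain ⟨y, hy, hb⟩ := path_bd U
        (PathConnectedSpace.joined a ⟨s (stdSimplex.vertex 0), hs ⟨_, rfl⟩⟩)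
      refine ⟨y, hy, ?_⟩
      rw [hb, aug_single, if_pos rfl, one_smul]
      exact congrArg (fun t : Sx X => single t (1 : ℚ) - single (pt (a : X)) 1) (eq_pt s).symm
    | zero => simp
    | add u v _ _ hu hv =>
      have := Submodule.add_mem _ hu hv
      rw [map_add, add_smul]
      convert this using 1
      abel
    | smul c u _ hu =>
      have := Submodule.smul_mem _ c hu
      rw [map_smul, smul_eq_mul, mul_smul, ← smul_sub]
      exact this
  have := key x hx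
  rw [h0, zero_smul, sub_zero] at this
  exact this

theorem aug_surj {U : Set X} (hU : U.Nonempty) (c : ℚ) : ∃ x ∈ SCq U 0, aug X x = c := by
  obtain ⟨a, ha⟩ := hU
  refine ⟨single (pt a) c, single_mem_supported _ _ ⟨rfl, ?_⟩, ?_⟩
  · rintro _ ⟨t, rfl⟩
    exact ha
  · rw [aug_single]
    exact if_pos rfl

theorem hrank_small_of_subdiv {Y : Type} (U : Y → Set X) (Sd T : SC X →ₗ[ℚ] SC X)
    (h1 : ∀ x, sbd X (Sd x) = Sd (sbd X x))
    (h2 : ∀ x, sbd X (T x) + T (sbd X x) = x - Sd x)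
    (h3 : ∀ (V : Set X) (q : ℕ), ∀ x ∈ SCq V q, Sd x ∈ SCq V q ∧ T x ∈ SCq V (q + 1))
    (h4 : ∀ s : Sx X, ∃ N : ℕ, (Sd ^ N) (single s 1) ∈ Small U s.1) (k : ℕ) :
    hrank (Small U k ⊓ LinearMap.ker (sbd X)) ((Small U (k + 1)).map (sbd X)) =
      hrank (SCq Set.univ k ⊓ LinearMap.ker (sbd X)) ((SCq Set.univ (k + 1)).map (sbd X)) := by
  have hpow : ∀ (N : ℕ) (x : SC X), sbd X ((Sd ^ N) x) = (Sd ^ N) (sbd X x) := by
    intro N
    induction N with
    | zero => intro x; simp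
    | succ N ih => intro x; rw [pow_succ', Module.End.mul_apply, h1, ih, Module.End.mul_apply]
  have hSd : ∀ q, ∀ x ∈ Small U q, Sd x ∈ Small U q := fun q x hx =>
    map_small U Sd q q (fun y z hz => (h3 _ _ z hz).1) hx
  have hT : ∀ q, ∀ x ∈ Small U q, T x ∈ Small U (q + 1) := fun q x hx =>
    map_small U T q (q + 1) (fun y z hz => (h3 _ _ z hz).2) hx
  have hSdN : ∀ q (N : ℕ), ∀ x ∈ Small U q, (Sd ^ N) x ∈ Small U q := by
    intro q N
    induction N with
    | zero => intro x hx; simpa using hx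
    | succ N ih => intro x hx; rw [pow_succ', Module.End.mul_apply]; exact hSd q _ (ih x hx)
  have hSdU : ∀ q (N : ℕ), ∀ x ∈ SCq (Set.univ : Set X) q, (Sd ^ N) x ∈ SCq Set.univ q := by
    intro q N
    induction N with
    | zero => intro x hx; simpa using hx
    | succ N ih =>
      intro x hx; rw [pow_succ', Module.End.mul_apply]; exact (h3 _ q _ (ih x hx)).1
  -- every chain becomes small
  have hev : ∀ q, ∀ x ∈ SCq (Set.univ : Set X) q, ∃ N : ℕ, (Sd ^ N) x ∈ Small U q := by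
    intro q x hx
    unfold SCq at hx
    rw [supported_eq_span_single] at hx
    induction hx using Submodule.span_induction with
    | mem z hz =>
      obtain ⟨s, ⟨hq, -⟩, rfl⟩ := hz
      subst hq
      exact h4 s
    | zero => exact ⟨0, by simp⟩
    | add u v _ _ hu hv =>
      obtain ⟨N, hN⟩ := hu
      obtain ⟨M, hM⟩ := hv
      refine ⟨N + M, ?_⟩
      rw [map_add]
      refine Submodule.add_mem _ ?_ ?_
      · rw [add_comm, pow_add, Module.End.mul_apply]
        exact hSdN q M _ hN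
      · rw [pow_add, Module.End.mul_apply]
        exact hSdN q N _ hM
    | smul c u _ hu =>
      obtain ⟨N, hN⟩ := hu
      exact ⟨N, by rw [map_smul]; exact Submodule.smul_mem _ c hN⟩
  -- cycles are homologous to their subdivisions
  have hcyc : ∀ (P Q : Submodule ℚ (SC X)), (∀ (N : ℕ), ∀ x ∈ P, (Sd ^ N) x ∈ P) →
      (∀ x ∈ P, T x ∈ Q) → ∀ x ∈ P, sbd X x = 0 → ∀ N : ℕ,
        x - (Sd ^ N) x ∈ Q.map (sbd X) := by
    intro P Q hP hQ x hx hx0 N
    induction N with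
    | zero => simp
    | succ N ih =>
      have h := h2 ((Sd ^ N) x)
      rw [hpow, hx0, map_zero, map_zero, add_zero] at h
      have hm : (Sd ^ N) x - Sd ((Sd ^ N) x) ∈ Q.map (sbd X) := ⟨_, hQ _ (hP N x hx), h⟩
      have := Submodule.add_mem _ ih hm
      rw [pow_succ', Module.End.mul_apply]
      convert this using 1
      abel
  rw [← hrank_eq_of_sup (Z := SCq Set.univ k ⊓ LinearMap.ker (sbd X))
    (Z' := Small U k ⊓ LinearMap.ker (sbd X)) (inf_le_inf_right _ (small_le U k))]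
  · refine hrank_eq_of_comap fun x hx => ⟨fun h => Submodule.map_mono (small_le U _) h, ?_⟩
    rintro ⟨y, hy, hyx⟩
    obtain ⟨N, hN⟩ := hev _ y hy
    have ha := hcyc _ _ (hSdN k) (hT k) x hx.1 hx.2 N
    have hb : (Sd ^ N) x ∈ (Small U (k + 1)).map (sbd X) := ⟨_, hN, by rw [hpow, hyx]⟩
    have := Submodule.add_mem _ ha hb
    rwa [sub_add_cancel] at this
  · intro x hx
    obtain ⟨N, hN⟩ := hev _ x hx.1
    have hx0 : sbd X x = 0 := hx.2
    refine ⟨(Sd ^ N) x, ⟨hN, ?_⟩, ?_⟩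
    · change sbd X ((Sd ^ N) x) = 0
      rw [hpow, hx0, map_zero]
    · exact hcyc _ _ (hSdU k) (fun z hz => (h3 _ k z hz).2) x hx.1 hx0 N

end Pool.Agent.Work.MP_dd0bbc_gt
end

-- merged part: Pool.Agent.Work.MP_dd0bbc_gt.SubdivLin
section
/-! Barycentric subdivision of linear chains. -/

set_option autoImplicit false

namespace Pool.Agent.Work.MP_dd0bbc_gt

open Finsupp Pool.Agent.Lib.RipsHom

/-- The centroid of a list of vectors. -/
noncomputable def bary {V : Type} [AddCommGroup V] [Module ℝ V] (l : List V) : V :=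
  (l.length : ℝ)⁻¹ • l.sum

section aux

variable {E E' : Type} [NormedAddCommGroup E] [NormedSpace ℝ E] [NormedAddCommGroup E']
  [NormedSpace ℝ E']

/-- Subdivision in a fixed length. -/
noncomputable def sdNSL : ℕ → List E → Ch ℚ E
  | 0 => fun l => single l 1
  | n + 1 => fun l => cone ℚ (bary l) (linearCombination ℚ (sdNSL n) (bdL ℚ l))

/-- Homotopy in a fixed length. -/
noncomputable def ttNSL : ℕ → List E → Ch ℚ E
  | 0 => fun _ => 0
  | n + 1 => fun l => cone ℚ (bary l) (single l 1 - linearCombination ℚ (ttNSL n) (bdL ℚ l))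

/-- Barycentric subdivision. -/
noncomputable def sdSL : Ch ℚ E →ₗ[ℚ] Ch ℚ E := linearCombination ℚ fun l => sdNSL l.length l

/-- The homotopy from the subdivision to the identity. -/
noncomputable def ttSL : Ch ℚ E →ₗ[ℚ] Ch ℚ E := linearCombination ℚ fun l => ttNSL l.length l

lemma sdSL_nil : sdSL (single ([] : List E) 1) = single [] 1 := by simp [sdSL, sdNSL]

lemma ttSL_nil : ttSL (single ([] : List E) 1) = 0 := by simp [ttSL, ttNSL]

lemma sdSL_succ {l : List E} {n : ℕ} (h : l.length = n + 1) :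
    sdSL (single l 1) = cone ℚ (bary l) (sdSL (bdL ℚ l)) := by
  have : sdSL (bdL ℚ l) = linearCombination ℚ (sdNSL n) (bdL ℚ l) := by
    refine map_eq (R := ℚ) _ _ (fun m hm => ?_) _ (bdL_mem l)
    have : m.length = n := by have := hm.2; omega
    simp [sdSL, this]
  rw [this, sdSL, linearCombination_single, one_smul, h, sdNSL]

lemma ttSL_succ {l : List E} {n : ℕ} (h : l.length = n + 1) :
    ttSL (single l 1) = cone ℚ (bary l) (single l 1 - ttSL (bdL ℚ l)) := by
  have : ttSL (bdL ℚ l) = linearCombination ℚ (ttNSL n) (bdL ℚ l) := by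
    refine map_eq (R := ℚ) _ _ (fun m hm => ?_) _ (bdL_mem l)
    have : m.length = n := by have := hm.2; omega
    simp [ttSL, this]
  rw [this, ttSL, linearCombination_single, one_smul, h, ttNSL]

/-- Induction on the length for identities between linear maps. -/
lemma ext_len_SL {V W : Type} (F G : Ch ℚ V →ₗ[ℚ] Ch ℚ W)
    (h0 : F (single [] 1) = G (single [] 1))
    (h1 : ∀ (l : List V) (n : ℕ), l.length = n + 1 → F (bdL ℚ l) = G (bdL ℚ l) →
      F (single l 1) = G (single l 1)) (c : Ch ℚ V) : F c = G c := by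
  have : ∀ n (l : List V), l.length = n → F (single l 1) = G (single l 1) := by
    intro n
    induction n with
    | zero =>
      intro l hl
      rw [List.length_eq_zero_iff.1 hl, h0]
    | succ n ih =>
      intro l hl
      exact h1 l n hl (map_eq F G (fun m hm => ih m (by have := hm.2; omega)) _ (bdL_mem l))
  exact map_eq (K := Set.univ) F G (fun l _ => this _ l rfl) c fun _ _ => trivial

lemma bd_sdSL (c : Ch ℚ E) : bd ℚ (sdSL c) = sdSL (bd ℚ c) := by
  refine (LinearMap.comp_apply _ _ c).symm.trans ((ext_len_SL (bd ℚ ∘ₗ sdSL) (sdSL ∘ₗ bd ℚ) ?_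
    (fun l n hl h => ?_) c).trans (LinearMap.comp_apply _ _ c))
  · simp [sdSL_nil, bdL]
  · simp only [LinearMap.comp_apply] at h ⊢
    rw [sdSL_succ hl, bd_cone, h, bd_bdL]
    simp

lemma bd_ttSL (c : Ch ℚ E) : bd ℚ (ttSL c) + ttSL (bd ℚ c) = c - sdSL c := by
  refine ext_len_SL (bd ℚ ∘ₗ ttSL + ttSL ∘ₗ bd ℚ) (LinearMap.id - sdSL) ?_ (fun l n hl h => ?_) c
  · simp [sdSL_nil, ttSL_nil, bdL]
  · simp only [LinearMap.comp_apply, LinearMap.add_apply, LinearMap.sub_apply,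
      LinearMap.id_apply] at h ⊢
    rw [bd_bdL, map_zero, add_zero] at h
    rw [ttSL_succ hl, sdSL_succ hl, bd_cone, map_sub, h, bd_single, one_smul, sub_sub_cancel]
    abel

lemma bary_map_SL (f : E →ₗ[ℝ] E') (l : List E) : bary (l.map f) = f (bary l) := by
  simp [bary, map_list_sum]

lemma push_sdSL (f : E →ₗ[ℝ] E') (c : Ch ℚ E) : push f (sdSL c) = sdSL (push f c) := by
  refine ext_len_SL (push f ∘ₗ sdSL) (sdSL ∘ₗ push f) ?_ (fun l n hl h => ?_) c
  · simp [sdSL_nil]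
  · simp only [LinearMap.comp_apply] at h ⊢
    rw [sdSL_succ hl, push_cone, h, push_single, sdSL_succ (n := n) (by simpa using hl),
      push_bdL, bary_map_SL]

lemma push_ttSL (f : E →ₗ[ℝ] E') (c : Ch ℚ E) : push f (ttSL c) = ttSL (push f c) := by
  refine ext_len_SL (push f ∘ₗ ttSL) (ttSL ∘ₗ push f) ?_ (fun l n hl h => ?_) c
  · simp [ttSL_nil]
  · simp only [LinearMap.comp_apply] at h ⊢
    rw [ttSL_succ hl, push_cone, map_sub, h, push_single, ttSL_succ (n := n) (by simpa using hl),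
      push_bdL, bary_map_SL]

lemma bary_mem_SL {A : Set E} (hA : Convex ℝ A) {l : List E} (hl : l ≠ [])
    (h : ∀ x ∈ l, x ∈ A) : bary l ∈ A := by
  have hpos : (0 : ℝ) < l.length := by exact_mod_cast List.length_pos_iff.2 hl
  have := hA.sum_mem (t := Finset.univ) (w := fun _ : Fin l.length => (l.length : ℝ)⁻¹)
    (z := fun i => l[i.1]) (fun _ _ => by positivity) (by simp [hpos.ne'])
    (fun i _ => h _ (List.getElem_mem _))
  rwa [← Finset.smul_sum, Fin.sum_univ_getElem] at this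

lemma norm_sum_sub_SL (x : E) (r : ℝ) (m : List E) (h : ∀ y ∈ m, dist y x ≤ r) :
    ‖m.sum - (m.length : ℝ) • x‖ ≤ m.length * r := by
  induction m with
  | nil => simp
  | cons a m ih =>
    have h1 := ih fun y hy => h y (List.mem_cons_of_mem _ hy)
    have h2 := h a List.mem_cons_self
    rw [dist_eq_norm] at h2
    have : (a :: m).sum - ((a :: m).length : ℝ) • x = (a - x) + (m.sum - (m.length : ℝ) • x) := by
      simp only [List.sum_cons, List.length_cons, Nat.cast_succ, add_smul, one_smul]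
      abel
    rw [this]
    refine (norm_add_le _ _).trans ?_
    simp only [List.length_cons, Nat.cast_succ]
    linarith

lemma dist_bary_SL {l : List E} {r : ℝ} (h : ∀ x ∈ l, ∀ y ∈ l, dist x y ≤ r) {x : E}
    (hx : x ∈ l) : dist x (bary l) ≤ (1 - 1 / (l.length : ℝ)) * r := by
  obtain ⟨s, t, rfl⟩ := List.append_of_mem hx
  have h1 := norm_sum_sub_SL x r s fun y hy => h y (by simp [hy]) x hx
  have h2 := norm_sum_sub_SL x r t fun y hy => h y (by simp [hy]) x hx
  have hlen : ((s ++ x :: t).length : ℝ) = s.length + t.length + 1 := by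
    simp only [List.length_append, List.length_cons]; push_cast; ring
  have hpos : (0 : ℝ) < s.length + t.length + 1 := by positivity
  have : bary (s ++ x :: t) - x = (s.length + t.length + 1 : ℝ)⁻¹ •
      ((s.sum - (s.length : ℝ) • x) + (t.sum - (t.length : ℝ) • x)) := by
    rw [bary, hlen, List.sum_append, List.sum_cons]
    have hx : x = (s.length + t.length + 1 : ℝ)⁻¹ • ((s.length + t.length + 1 : ℝ) • x) := by
      rw [smul_smul, inv_mul_cancel₀ hpos.ne', one_smul]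
    conv_lhs => enter [2]; rw [hx]
    rw [← smul_sub]
    congr 1
    simp only [add_smul, one_smul]
    abel
  rw [dist_comm, dist_eq_norm, this, norm_smul, Real.norm_eq_abs, abs_of_pos (inv_pos.2 hpos),
    hlen]
  calc _ ≤ (s.length + t.length + 1 : ℝ)⁻¹ * (s.length * r + t.length * r) := by
        gcongr
        exact (norm_add_le _ _).trans (add_le_add h1 h2)
    _ = _ := by field_simp; ring

lemma ttSL_mem {A : Set E} (hA : Convex ℝ A) (n : ℕ) : ∀ l : List E, l.length = n →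
    (∀ x ∈ l, x ∈ A) →
      ttSL (single l 1) ∈ C ℚ {l' | l'.length = n + 1 ∧ ∀ x ∈ l', x ∈ A} := by
  induction n with
  | zero =>
    intro l hl _
    rw [List.length_eq_zero_iff.1 hl, ttSL_nil]
    exact Submodule.zero_mem _
  | succ n ih =>
    intro l hl h
    have hne : l ≠ [] := by rintro rfl; simp at hl
    rw [ttSL_succ hl]
    refine map_mem (K := {l' | l'.length = n + 1 ∧ ∀ x ∈ l', x ∈ A}) _ (fun m hm => ?_) _
      (Submodule.sub_mem _ (single_mem (And.intro hl h) _) (map_mem _ (fun m hm => ?_) _ (bdL_mem l)))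
    · rw [cone_single]
      refine single_mem (And.intro (by simp [hm.1]) fun x hx => ?_) _
      rcases List.mem_cons.1 hx with rfl | hx
      exacts [bary_mem_SL hA hne h, hm.2 x hx]
    · exact ih m (by have := hm.2; omega) fun x hx => h x (hm.1.subset hx)

lemma sdSL_mem (r : ℝ) (n : ℕ) : ∀ (A : Set E), Convex ℝ A → ∀ l : List E, l.length = n →
    (∀ x ∈ l, x ∈ A) → (∀ x ∈ l, ∀ y ∈ l, dist x y ≤ r) →
      sdSL (single l 1) ∈ C ℚ {l' | l'.length = n ∧ (∀ x ∈ l', x ∈ A) ∧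
        ∀ x ∈ l', ∀ y ∈ l', dist x y ≤ (1 - 1 / (n + 1 : ℝ)) * r} := by
  induction n with
  | zero =>
    intro A _ l hl _ _
    rw [List.length_eq_zero_iff.1 hl, sdSL_nil]
    exact single_mem (And.intro rfl ⟨by simp, by simp⟩) _
  | succ n ih =>
    intro A hA l hl h hd
    have hne : l ≠ [] := by rintro rfl; simp at hl
    obtain ⟨a, ha⟩ := List.exists_mem_of_ne_nil l hne
    have hr : 0 ≤ r := dist_nonneg.trans (hd a ha a ha)
    have hle : (1 - 1 / (n + 1 : ℝ)) * r ≤ (1 - 1 / ((n + 1 : ℕ) + 1 : ℝ)) * r := by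
      gcongr
      omega
    have h0 : 0 ≤ (1 - 1 / (n + 1 : ℝ)) * r := by
      refine mul_nonneg (sub_nonneg.2 ?_) hr
      rw [div_le_one (by positivity)]
      simp
    set A' := A ∩ Metric.closedBall (bary l) ((1 - 1 / (n + 1 : ℝ)) * r) with hA'
    rw [sdSL_succ hl]
    refine map_mem (K := {l' | l'.length = n ∧ (∀ x ∈ l', x ∈ A') ∧
        ∀ x ∈ l', ∀ y ∈ l', dist x y ≤ (1 - 1 / (n + 1 : ℝ)) * r}) _ (fun m hm => ?_) _
      (map_mem _ (fun m hm => ?_) _ (bdL_mem l))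
    · rw [cone_single]
      refine single_mem
        (And.intro (by simp [hm.1]) ⟨fun x hx => ?_, fun x hx y hy => le_trans ?_ hle⟩) _
      · rcases List.mem_cons.1 hx with rfl | hx
        exacts [bary_mem_SL hA hne h, (hm.2.1 x hx).1]
      · rcases List.mem_cons.1 hx with rfl | hx <;> rcases List.mem_cons.1 hy with rfl | hy
        · rwa [dist_self]
        · rw [dist_comm]; exact (hm.2.1 y hy).2
        · exact (hm.2.1 x hx).2
        · exact hm.2.2 x hx y hy
    · refine ih A' (hA.inter (convex_closedBall _ _)) m (by have := hm.2; omega)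
        (fun x hx => ⟨h x (hm.1.subset hx), ?_⟩)
        fun x hx y hy => hd x (hm.1.subset hx) y (hm.1.subset hy)
      have := dist_bary_SL hd (hm.1.subset hx)
      rwa [hl, Nat.cast_succ] at this

end aux

/-- Subdivision and homotopy on chains of lists of vectors, natural under linear maps. -/
theorem exists_subdivLin :
    ∃ (sd tt : ∀ (ι : Type) [Fintype ι], Ch ℚ (ι → ℝ) →ₗ[ℚ] Ch ℚ (ι → ℝ)),
      (∀ (ι : Type) [Fintype ι] (c : Ch ℚ (ι → ℝ)), bd ℚ (sd ι c) = sd ι (bd ℚ c)) ∧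
      (∀ (ι : Type) [Fintype ι] (c : Ch ℚ (ι → ℝ)),
        bd ℚ (tt ι c) + tt ι (bd ℚ c) = c - sd ι c) ∧
      (∀ (ι : Type) [Fintype ι], tt ι (single [] 1) = 0) ∧
      (∀ (ι ι' : Type) [Fintype ι] [Fintype ι'] (f : (ι → ℝ) →ₗ[ℝ] (ι' → ℝ)) (c : Ch ℚ (ι → ℝ)),
        push f (sd ι c) = sd ι' (push f c) ∧ push f (tt ι c) = tt ι' (push f c)) ∧
      (∀ (ι : Type) [Fintype ι] (A : Set (ι → ℝ)), Convex ℝ A → ∀ l : List (ι → ℝ),
        (∀ x ∈ l, x ∈ A) →
          tt ι (single l 1) ∈ C ℚ {l' | l'.length = l.length + 1 ∧ ∀ x ∈ l', x ∈ A}) ∧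
      (∀ (ι : Type) [Fintype ι] (A : Set (ι → ℝ)), Convex ℝ A → ∀ (l : List (ι → ℝ)) (r : ℝ),
        (∀ x ∈ l, x ∈ A) → (∀ x ∈ l, ∀ y ∈ l, dist x y ≤ r) →
          sd ι (single l 1) ∈ C ℚ {l' | l'.length = l.length ∧ (∀ x ∈ l', x ∈ A) ∧
            ∀ x ∈ l', ∀ y ∈ l', dist x y ≤ (1 - 1 / (l.length + 1 : ℝ)) * r}) :=
  ⟨fun _ _ => sdSL, fun _ _ => ttSL, fun _ _ => bd_sdSL, fun _ _ => bd_ttSL, fun _ _ => ttSL_nil,
    fun _ _ _ _ f c => ⟨push_sdSL f c, push_ttSL f c⟩,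
    fun _ _ _ hA l h => ttSL_mem hA _ l rfl h, fun _ _ A hA l r h hd => sdSL_mem r _ A hA l rfl h hd⟩

end Pool.Agent.Work.MP_dd0bbc_gt
end

-- merged part: Pool.Agent.Work.MP_dd0bbc_gt.Subdiv
section
/-! Barycentric subdivision of singular chains. -/

set_option autoImplicit false

namespace Pool.Agent.Work.MP_dd0bbc_gt

open Finsupp Pool.Agent.Lib.RipsHom

section aux

variable {V M : Type} [AddCommGroup M] [Module ℚ M]

theorem mem_on_subdiv {K : Set (List V)} {S : Submodule ℚ M} (F : Ch ℚ V →ₗ[ℚ] M)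
    (h : ∀ l ∈ K, F (single l 1) ∈ S) : ∀ c ∈ C ℚ K, F c ∈ S := by
  refine C_induction (by simp) (fun x y hx hy => by rw [map_add]; exact S.add_mem hx hy) ?_
  intro l hl r
  have : single l r = r • single l (1 : ℚ) := by simp
  rw [this, map_smul]
  exact S.smul_mem _ (h l hl)

theorem eq_on_subdiv {K : Set (List V)} (F G : Ch ℚ V →ₗ[ℚ] M)
    (h : ∀ l ∈ K, F (single l 1) = G (single l 1)) : ∀ c ∈ C ℚ K, F c = G c :=
  mem_on_subdiv (S := LinearMap.eqLocus F G) LinearMap.id h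

theorem exists_ofFn_subdiv (l : List V) : ∃ (n : ℕ) (v : Fin n → V), List.ofFn v = l :=
  ⟨_, l.get, List.ofFn_get l⟩

theorem bdL_ofFn_subdiv {n : ℕ} (v : Fin (n + 1) → V) :
    bdL ℚ (List.ofFn v) =
      ∑ i : Fin (n + 1), (-1 : ℚ) ^ (i : ℕ) • single (List.ofFn (v ∘ i.succAbove)) 1 := by
  induction n with
  | zero => simp [bdL]
  | succ n ih =>
    rw [List.ofFn_succ, bdL, ih, Fin.sum_univ_succ (n := n + 1), map_sum, sub_eq_add_neg,
      ← Finset.sum_neg_distrib]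
    congr 1
    · simp [Function.comp_def]
    · refine Finset.sum_congr rfl fun i _ => ?_
      rw [map_smul, cone_single, Fin.val_succ, pow_succ, mul_neg_one, neg_smul,
        List.ofFn_succ (f := v ∘ i.succ.succAbove)]
      simp [Function.comp_def]

end aux

variable {X : Type} [TopologicalSpace X] {ι : Type} [Fintype ι]

/-- The affine simplex spanned by points of a standard simplex. -/
noncomputable def affS {κ : Type} [Fintype κ] (v : κ → ι → ℝ) (hv : ∀ i, v i ∈ stdSimplex ℝ ι) :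
    C(stdSimplex ℝ κ, stdSimplex ℝ ι) :=
  ⟨fun t => ⟨Fintype.linearCombination ℝ v t.1,
      (convex_stdSimplex ℝ ι).sum_mem (fun i _ => t.2.1 i) t.2.2 fun i _ => hv i⟩,
    (((Fintype.linearCombination ℝ v).continuous_of_finiteDimensional).comp
      continuous_subtype_val).subtype_mk _⟩

open Classical in
/-- The singular simplex of a tuple of points. -/
noncomputable def tupS (s : C(stdSimplex ℝ ι, X)) : (Σ n : ℕ, Fin n → ι → ℝ) → SC X
  | ⟨0, _⟩ => 0
  | ⟨k + 1, v⟩ => if h : ∀ i, v i ∈ stdSimplex ℝ ι then single ⟨k, s.comp (affS v h)⟩ 1 else 0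

/-- Realisation of linear chains in a singular simplex. -/
noncomputable def rea (s : C(stdSimplex ℝ ι, X)) : Ch ℚ (ι → ℝ) →ₗ[ℚ] SC X :=
  linearCombination ℚ fun l => tupS s (List.equivSigmaTuple l)

theorem rea_ofFn (s : C(stdSimplex ℝ ι, X)) {n : ℕ} (v : Fin n → ι → ℝ) :
    rea s (single (List.ofFn v) 1) = tupS s ⟨n, v⟩ := by
  rw [rea, linearCombination_single, one_smul]
  exact congrArg _ (List.equivSigmaTuple.apply_symm_apply ⟨n, v⟩)

theorem rea_succ (s : C(stdSimplex ℝ ι, X)) {k : ℕ} (v : Fin (k + 1) → ι → ℝ)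
    (hv : ∀ i, v i ∈ stdSimplex ℝ ι) :
    rea s (single (List.ofFn v) 1) = single ⟨k, s.comp (affS v hv)⟩ 1 := by
  rw [rea_ofFn, tupS, dif_pos hv]

theorem rea_nil (s : C(stdSimplex ℝ ι, X)) : rea s (single [] 1) = 0 :=
  rea_ofFn s (n := 0) Fin.elim0

theorem rea_mem (s : C(stdSimplex ℝ ι, X)) {K : Set (List (ι → ℝ))} {P : Set (Sx X)}
    (h : ∀ (k : ℕ) (v : Fin (k + 1) → ι → ℝ) (hv : ∀ i, v i ∈ stdSimplex ℝ ι),
      List.ofFn v ∈ K → (⟨k, s.comp (affS v hv)⟩ : Sx X) ∈ P) :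
    ∀ c ∈ C ℚ K, rea s c ∈ supported ℚ ℚ P := by
  refine mem_on_subdiv _ fun l hl => ?_
  obtain ⟨_ | k, v, rfl⟩ := exists_ofFn_subdiv l
  · rw [List.ofFn_zero, rea_nil]
    exact zero_mem _
  · by_cases hv : ∀ i, v i ∈ stdSimplex ℝ ι
    · rw [rea_succ s v hv]
      exact single_mem_supported ℚ _ (h k v hv hl)
    · rw [rea_ofFn, tupS, dif_neg hv]
      exact zero_mem _

theorem mem_of_full_subdiv {V : Type} {A : Set V} {n : ℕ} {v : Fin n → V}
    (h : List.ofFn v ∈ Full A) (i : Fin n) : v i ∈ A := h _ (List.mem_ofFn.2 ⟨i, rfl⟩)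

theorem face_affS (s : C(stdSimplex ℝ ι, X)) {k : ℕ} (v : Fin (k + 2) → ι → ℝ)
    (hv : ∀ i, v i ∈ stdSimplex ℝ ι) (i : Fin (k + 2)) :
    face (s.comp (affS v hv)) i = s.comp (affS (v ∘ i.succAbove) fun _ => hv _) := by
  have h : (Fintype.linearCombination ℝ v).comp (FunOnFinite.linearMap ℝ ℝ i.succAbove) =
      Fintype.linearCombination ℝ (v ∘ i.succAbove) := by
    refine (Pi.basisFun ℝ _).ext fun j => ?_
    simp
  ext t
  exact congrArg s (Subtype.ext (LinearMap.congr_fun h t.1))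

theorem sbd_rea (s : C(stdSimplex ℝ ι, X)) :
    ∀ c ∈ C ℚ (Full (stdSimplex ℝ ι)), sbd X (rea s c) = rea s (bd ℚ c) := by
  refine eq_on_subdiv (sbd X ∘ₗ rea s) (rea s ∘ₗ bd ℚ) fun l hl => ?_
  simp only [LinearMap.comp_apply, bd_single, one_smul]
  obtain ⟨_ | k, v, rfl⟩ := exists_ofFn_subdiv l
  · simp [rea_nil, bdL]
  have hv := mem_of_full_subdiv hl
  rw [rea_succ s v hv, sbd, linearCombination_single, one_smul, bdL_ofFn_subdiv, map_sum]
  cases k with
  | zero => simp [sbd1, rea_nil]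
  | succ k =>
    rw [sbd1]
    refine Finset.sum_congr rfl fun i _ => ?_
    rw [map_smul, rea_succ s (v ∘ i.succAbove) fun _ => hv _, face_affS]

theorem rea_comp (s : C(stdSimplex ℝ ι, X)) {κ : Type} [Fintype κ] (v : κ → ι → ℝ)
    (hv : ∀ i, v i ∈ stdSimplex ℝ ι) : ∀ c ∈ C ℚ (Full (stdSimplex ℝ κ)),
      rea (s.comp (affS v hv)) c = rea s (push (Fintype.linearCombination ℝ v) c) := by
  refine eq_on_subdiv _ (rea s ∘ₗ push (Fintype.linearCombination ℝ v)) fun l hl => ?_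
  simp only [LinearMap.comp_apply, push_single]
  obtain ⟨_ | k, w, rfl⟩ := exists_ofFn_subdiv l
  · simp [rea_nil]
  have hw := mem_of_full_subdiv hl
  rw [List.map_ofFn, rea_succ _ w hw, rea_succ s (Fintype.linearCombination ℝ v ∘ w)
    fun i => (affS v hv ⟨w i, hw i⟩).2]
  congr 2
  ext t
  refine congrArg s (Subtype.ext ?_)
  change Fintype.linearCombination ℝ v (Fintype.linearCombination ℝ w t.1) =
    Fintype.linearCombination ℝ (Fintype.linearCombination ℝ v ∘ w) t.1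
  rw [Fintype.linearCombination_apply ℝ w, map_sum, Fintype.linearCombination_apply]
  simp

/-- The vertices of the standard simplex. -/
noncomputable def stdL (n : ℕ) : List (Fin n → ℝ) := List.ofFn fun i => Pi.single i 1

theorem stdL_mem (n : ℕ) : stdL n ∈ Full (stdSimplex ℝ (Fin n)) := by
  intro x hx
  obtain ⟨i, rfl⟩ := List.mem_ofFn.1 hx
  exact single_mem_stdSimplex ℝ i

theorem rea_stdL (s : Sx X) : rea s.2 (single (stdL (s.1 + 1)) 1) = single s 1 := by
  obtain ⟨q, s⟩ := s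
  rw [stdL, rea_succ s _ fun i => single_mem_stdSimplex ℝ i]
  congr 2
  ext t
  refine congrArg s (Subtype.ext ?_)
  change Fintype.linearCombination ℝ (fun i => Pi.single i 1) t.1 = t.1
  rw [Fintype.linearCombination_apply]
  exact (pi_eq_sum_univ' t.1).symm

variable (X) in
/-- An operator on linear chains, transported to singular chains. -/
noncomputable def liftOp (op : ∀ (ι : Type) [Fintype ι], Ch ℚ (ι → ℝ) →ₗ[ℚ] Ch ℚ (ι → ℝ)) :
    SC X →ₗ[ℚ] SC X :=
  linearCombination ℚ fun s : Sx X => rea s.2 (op (Fin (s.1 + 1)) (single (stdL (s.1 + 1)) 1))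

theorem liftOp_rea {op : ∀ (ι : Type) [Fintype ι], Ch ℚ (ι → ℝ) →ₗ[ℚ] Ch ℚ (ι → ℝ)}
    (hnat : ∀ (ι ι' : Type) [Fintype ι] [Fintype ι'] (f : (ι → ℝ) →ₗ[ℝ] (ι' → ℝ))
      (c : Ch ℚ (ι → ℝ)), push f (op ι c) = op ι' (push f c))
    (hmem : ∀ (ι : Type) [Fintype ι], ∀ c ∈ C ℚ (Full (stdSimplex ℝ ι)),
      op ι c ∈ C ℚ (Full (stdSimplex ℝ ι)))
    (s : C(stdSimplex ℝ ι, X)) (hnil : rea s (op ι (single [] 1)) = 0) :
    ∀ c ∈ C ℚ (Full (stdSimplex ℝ ι)), liftOp X op (rea s c) = rea s (op ι c) := by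
  refine eq_on_subdiv (liftOp X op ∘ₗ rea s) (rea s ∘ₗ op ι) fun l hl => ?_
  simp only [LinearMap.comp_apply]
  obtain ⟨_ | k, v, rfl⟩ := exists_ofFn_subdiv l
  · simp [rea_nil, hnil]
  have hv := mem_of_full_subdiv hl
  rw [rea_succ s v hv, liftOp, linearCombination_single, one_smul,
    rea_comp s v hv _ (hmem _ _ (single_mem (stdL_mem _) _)), hnat, push_single, stdL,
    List.map_ofFn]
  congr 4
  funext i
  simp

theorem ext_sx_subdiv {M : Type} [AddCommGroup M] [Module ℚ M] (F G : SC X →ₗ[ℚ] M)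
    (h : ∀ s, F (single s 1) = G (single s 1)) (x : SC X) : F x = G x :=
  LinearMap.congr_fun (Finsupp.lhom_ext' fun s => LinearMap.ext_ring (h s)) x

theorem mem_sx_subdiv {P : Set (Sx X)} {S : Submodule ℚ (SC X)} (F : SC X →ₗ[ℚ] SC X)
    (h : ∀ s ∈ P, F (single s 1) ∈ S) : ∀ x ∈ supported ℚ ℚ P, F x ∈ S := by
  intro x hx
  rw [supported_eq_span_single] at hx
  refine (Submodule.span_le (p := S.comap F)).2 ?_ hx
  rintro _ ⟨s, hs, rfl⟩
  exact h s hs

theorem exists_subdiv {X : Type} [TopologicalSpace X] {Y : Type} (U : Y → Set X)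
    (hU : ∀ y, IsOpen (U y)) (hc : ∀ x, ∃ y, x ∈ U y) :
    ∃ Sd T : SC X →ₗ[ℚ] SC X, (∀ x, sbd X (Sd x) = Sd (sbd X x)) ∧
      (∀ x, sbd X (T x) + T (sbd X x) = x - Sd x) ∧
      (∀ (V : Set X) (q : ℕ), ∀ x ∈ SCq V q, Sd x ∈ SCq V q ∧ T x ∈ SCq V (q + 1)) ∧
      ∀ s : Sx X, ∃ N : ℕ, (Sd ^ N) (single s 1) ∈ Small U s.1 := by
  obtain ⟨sd, tt, h1, h2, h3, h4, h5, h6⟩ := exists_subdivLin
  have hd : ∀ (ι : Type) [Fintype ι] (l : List (ι → ℝ)), l ∈ Full (stdSimplex ℝ ι) →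
      ∀ x ∈ l, ∀ y ∈ l, dist x y ≤ 1 := fun ι _ l hl x hx y hy =>
    (Metric.dist_le_diam_of_mem (bounded_stdSimplex ι) (hl x hx) (hl y hy)).trans
      diam_stdSimplex_le
  have hsd := fun (ι : Type) [Fintype ι] (l : List (ι → ℝ)) (hl : l ∈ Full (stdSimplex ℝ ι)) =>
    h6 ι _ (convex_stdSimplex ℝ ι) l 1 hl (hd ι l hl)
  have htt := fun (ι : Type) [Fintype ι] (l : List (ι → ℝ)) (hl : l ∈ Full (stdSimplex ℝ ι)) =>
    h5 ι _ (convex_stdSimplex ℝ ι) l hl
  have msd : ∀ (ι : Type) [Fintype ι], ∀ c ∈ C ℚ (Full (stdSimplex ℝ ι)),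
      sd ι c ∈ C ℚ (Full (stdSimplex ℝ ι)) := fun ι _ =>
    map_mem _ fun l hl => C_mono (fun _ h => h.2.1) (hsd ι l hl)
  have mtt : ∀ (ι : Type) [Fintype ι], ∀ c ∈ C ℚ (Full (stdSimplex ℝ ι)),
      tt ι c ∈ C ℚ (Full (stdSimplex ℝ ι)) := fun ι _ =>
    map_mem _ fun l hl => C_mono (fun _ h => h.2) (htt ι l hl)
  have kS : ∀ s : Sx X, ∀ c ∈ C ℚ (Full (stdSimplex ℝ (Fin (s.1 + 1)))),
      liftOp X sd (rea s.2 c) = rea s.2 (sd _ c) := fun s =>
    liftOp_rea (fun ι ι' _ _ f c => (h4 ι ι' f c).1) msd s.2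
      (eq_on_subdiv (rea s.2) 0 (fun l hl => by
        rw [List.length_eq_zero_iff.1 hl.1, rea_nil, LinearMap.zero_apply]) _
        (hsd _ [] (by simp [Full])))
  have kT : ∀ s : Sx X, ∀ c ∈ C ℚ (Full (stdSimplex ℝ (Fin (s.1 + 1)))),
      liftOp X tt (rea s.2 c) = rea s.2 (tt _ c) := fun s =>
    liftOp_rea (fun ι ι' _ _ f c => (h4 ι ι' f c).2) mtt s.2 (by rw [h3, map_zero])
  have hstd : ∀ n, single (stdL n) (1 : ℚ) ∈ C ℚ (Full (stdSimplex ℝ (Fin n))) := fun n =>
    single_mem (stdL_mem n) _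
  have hbd : ∀ n, bd ℚ (single (stdL n) (1 : ℚ)) ∈ C ℚ (Full (stdSimplex ℝ (Fin n))) := fun n =>
    Down.bd_mem (K := Full _) (fun l hl m hm a ha => hl a (hm.subset ha)) _ (hstd n)
  have hlen : ∀ n, (stdL n).length = n := fun n => List.length_ofFn
  refine ⟨liftOp X sd, liftOp X tt,
    ext_sx_subdiv (sbd X ∘ₗ liftOp X sd) (liftOp X sd ∘ₗ sbd X) fun s => ?_,
    ext_sx_subdiv (sbd X ∘ₗ liftOp X tt + liftOp X tt ∘ₗ sbd X) (LinearMap.id - liftOp X sd)
      fun s => ?_, fun V q x hx => ⟨mem_sx_subdiv _ ?_ x hx, mem_sx_subdiv _ ?_ x hx⟩,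
    fun s => ?_⟩
  · simp only [LinearMap.comp_apply]
    rw [← rea_stdL, kS s _ (hstd _), sbd_rea _ _ (msd _ _ (hstd _)), sbd_rea _ _ (hstd _),
      kS s _ (hbd _), h1]
  · simp only [LinearMap.add_apply, LinearMap.comp_apply, LinearMap.sub_apply, LinearMap.id_apply]
    rw [← rea_stdL, kS s _ (hstd _), kT s _ (hstd _), sbd_rea _ _ (mtt _ _ (hstd _)),
      sbd_rea _ _ (hstd _), kT s _ (hbd _), ← map_add, h2, map_sub]
  · rintro s ⟨rfl, hs⟩
    rw [← rea_stdL, kS s _ (hstd _)]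
    refine rea_mem s.2 (fun k v hv h => And.intro ?_ ?_) _ (hsd _ _ (stdL_mem _))
    · simpa [hlen] using h.1
    · rintro _ ⟨t, rfl⟩
      exact hs ⟨_, rfl⟩
  · rintro s ⟨rfl, hs⟩
    rw [← rea_stdL, kT s _ (hstd _)]
    refine rea_mem s.2 (fun k v hv h => And.intro ?_ ?_) _ (htt _ _ (stdL_mem _))
    · simpa [hlen] using h.1
    · rintro _ ⟨t, rfl⟩
      exact hs ⟨_, rfl⟩
  · set ρ : ℝ := 1 - 1 / ((s.1 + 1 : ℕ) + 1 : ℝ) with hρ
    have hpow : ∀ N : ℕ, (sd _ ^ N) (single (stdL (s.1 + 1)) 1) ∈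
        C ℚ {l | l.length = s.1 + 1 ∧ l ∈ Full (stdSimplex ℝ (Fin (s.1 + 1))) ∧
          ∀ x ∈ l, ∀ y ∈ l, dist x y ≤ ρ ^ N} ∧
        (liftOp X sd ^ N) (single s 1) = rea s.2 ((sd _ ^ N) (single (stdL (s.1 + 1)) 1)) := by
      intro N
      induction N with
      | zero =>
        refine ⟨single_mem (And.intro (hlen _) ⟨stdL_mem _, ?_⟩) _, (rea_stdL s).symm⟩
        rw [pow_zero]
        exact hd _ _ (stdL_mem _)
      | succ N ih =>
        rw [pow_succ', pow_succ', pow_succ', Module.End.mul_apply, Module.End.mul_apply, ih.2]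
        refine ⟨map_mem _ (fun l hl => C_mono (fun l' hl' => ?_)
          (h6 _ _ (convex_stdSimplex ℝ _) l _ hl.2.1 hl.2.2)) _ ih.1,
          kS s _ (C_mono (fun _ h => h.2.1) ih.1)⟩
        refine ⟨hl'.1.trans hl.1, hl'.2.1, ?_⟩
        have := hl'.2.2
        rwa [hl.1] at this
    obtain ⟨δ, hδ, hL⟩ := lebesgue_number_lemma_of_metric (s := Set.univ)
      (c := fun y => s.2 ⁻¹' U y) isCompact_univ (fun y => (hU y).preimage s.2.continuous)
      fun t _ => Set.mem_iUnion.2 (hc _)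
    obtain ⟨N, hN⟩ := exists_pow_lt_of_lt_one hδ (show ρ < 1 from sub_lt_self _ (by positivity))
    refine ⟨N, ?_⟩
    rw [(hpow N).2]
    refine rea_mem s.2 (fun k v hv h => And.intro ?_ ?_) _ (hpow N).1
    · simpa using h.1
    · obtain ⟨y, hy⟩ := hL ⟨v 0, hv 0⟩ (Set.mem_univ _)
      refine ⟨y, ?_⟩
      rintro _ ⟨t, rfl⟩
      refine hy (lt_of_le_of_lt ?_ hN)
      rw [Subtype.dist_eq]
      exact Metric.mem_closedBall.1 ((convex_closedBall (v 0) (ρ ^ N)).sum_mem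
        (fun i _ => t.2.1 i) t.2.2 fun i _ => Metric.mem_closedBall.2
          (h.2.2 _ (List.mem_ofFn.2 ⟨i, rfl⟩) _ (List.mem_ofFn.2 ⟨0, rfl⟩)))

end Pool.Agent.Work.MP_dd0bbc_gt
end

-- merged part: Pool.Agent.Work.MP_dd0bbc_gt.Nerve
section
/-! The homological nerve theorem. -/

set_option autoImplicit false

namespace Pool.Agent.Work.MP_dd0bbc_gt

open Finset

variable {X Y : Type} [TopologicalSpace X] [Fintype Y] [LinearOrder Y]

/-- Simplicial cycles (not augmented). -/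
noncomputable def cycK (K : Finset (Finset Y)) : ℕ → Submodule ℚ (Finset Y → ℚ)
  | 0 => Fc ℚ ℚ K 1
  | k + 1 => Fc ℚ ℚ K (k + 2) ⊓ LinearMap.ker (bdy ℚ ℚ)

/-- The double complex of a family of sets. -/
def DC (U : Y → Set X) (p q : ℕ) : Submodule ℚ (Finset Y → SC X) where
  carrier := {x | (∀ S, x S ≠ 0 → S.card = p + 1) ∧ ∀ S, ∀ y ∈ S, x S ∈ SCq (U y) q}
  add_mem' := by
    intro f g hf hg
    refine ⟨fun S h => ?_, fun S y hy => add_mem (hf.2 S y hy) (hg.2 S y hy)⟩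
    by_cases e : f S = 0
    · exact hg.1 S (by simpa [e] using h)
    · exact hf.1 S e
  zero_mem' := ⟨fun S h => (h rfl).elim, fun S y _ => zero_mem _⟩
  smul_mem' := fun r f hf => ⟨fun S h => hf.1 S fun e => h (by simp [e]),
    fun S y hy => Submodule.smul_mem _ _ (hf.2 S y hy)⟩

/-- The vertical differential. -/
noncomputable def vD : (Finset Y → SC X) →ₗ[ℚ] (Finset Y → SC X) := (sbd X).compLeft (Finset Y)

/-- The augmentation of the rows. -/
noncomputable def aD : (Finset Y → SC X) →ₗ[ℚ] SC X := LinearMap.proj ∅ ∘ₗ bdy ℚ (SC X)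

/-- The augmentation of the columns. -/
noncomputable def bD : (Finset Y → SC X) →ₗ[ℚ] (Finset Y → ℚ) := (aug X).compLeft (Finset Y)

lemma bdy_compLeft {N N' : Type} [AddCommGroup N] [Module ℚ N] [AddCommGroup N'] [Module ℚ N']
    (f : N →ₗ[ℚ] N') (x : Finset Y → N) :
    bdy ℚ N' (f.compLeft (Finset Y) x) = f.compLeft (Finset Y) (bdy ℚ N x) := by
  ext1 S
  simp [bdy_apply, map_sum]

lemma SCq_mono {V W : Set X} (h : V ⊆ W) (q : ℕ) : SCq V q ≤ SCq W q :=
  Finsupp.supported_mono fun _ hs => ⟨hs.1, hs.2.trans h⟩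

lemma h_v (x : Finset Y → SC X) : bdy ℚ (SC X) (vD x) = vD (bdy ℚ (SC X) x) := bdy_compLeft _ x

omit [Fintype Y] [LinearOrder Y] in
lemma v_v (x : Finset Y → SC X) : vD (vD x) = 0 := funext fun S => sbd_sbd (x S)

lemma a_h (x : Finset Y → SC X) : aD (bdy ℚ (SC X) x) = 0 := congrFun (bdy_bdy x) ∅

omit [Fintype Y] [LinearOrder Y] in
lemma b_v (x : Finset Y → SC X) : bD (vD x) = 0 := funext fun S => aug_sbd (x S)

lemma a_v (x : Finset Y → SC X) : aD (vD x) = sbd X (aD x) := congrFun (h_v x) ∅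

lemma b_h (x : Finset Y → SC X) : bD (bdy ℚ (SC X) x) = bdy ℚ ℚ (bD x) := (bdy_compLeft _ x).symm

variable {U : Y → Set X}

omit [Fintype Y] [LinearOrder Y] in
lemma DC_inter {p q : ℕ} {x : Finset Y → SC X} (hx : x ∈ DC U p q) (S : Finset Y) :
    x S ∈ SCq (⋂ y ∈ S, U y) q := by
  by_cases e : x S = 0
  · rw [e]; exact zero_mem _
  · obtain ⟨y0, h0⟩ := card_pos.1 (show 0 < S.card by rw [hx.1 S e]; omega)
    intro s hs
    exact ⟨(hx.2 S y0 h0 hs).1, Set.subset_iInter₂ fun y hy => (hx.2 S y hy hs).2⟩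

omit [LinearOrder Y] in
lemma DC_nerve {p q : ℕ} {x : Finset Y → SC X} (hx : x ∈ DC U p q) {S : Finset Y}
    (h : x S ≠ 0) : S ∈ nerve U := by
  obtain ⟨s, hs⟩ := Finsupp.support_nonempty_iff.2 h
  obtain ⟨t⟩ : Nonempty (stdSimplex ℝ (Fin (s.1 + 1))) := inferInstance
  exact mem_nerve.2 ⟨s.2 t, fun y hy => (hx.2 S y hy hs).2 ⟨t, rfl⟩⟩

omit [Fintype Y] [LinearOrder Y] in
/-- Solving an equation separately for every face. -/
lemma DC_solve {N : Type} [AddCommGroup N] [Module ℚ N] (f : SC X →ₗ[ℚ] N) {p q : ℕ}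
    (b : Finset Y → N) (hc : ∀ S, b S ≠ 0 → S.card = p + 1)
    (h : ∀ S, b S ≠ 0 → ∃ z ∈ SCq (⋂ y ∈ S, U y) q, f z = b S) :
    ∃ x ∈ DC U p q, f.compLeft (Finset Y) x = b := by
  have h' : ∀ S, ∃ z ∈ SCq (⋂ y ∈ S, U y) q, f z = b S ∧ (z ≠ 0 → b S ≠ 0) := fun S => by
    by_cases e : b S = 0
    · exact ⟨0, zero_mem _, by simp [e], fun h0 => (h0 rfl).elim⟩
    · obtain ⟨z, h1, h2⟩ := h S e
      exact ⟨z, h1, h2, fun _ => e⟩
  choose x h1 h2 h3 using h'
  exact ⟨x, ⟨fun S hS => hc S (h3 S hS),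
    fun S y hy => SCq_mono (Set.biInter_subset_of_mem (s := (S : Set Y)) hy) q (h1 S)⟩, funext h2⟩

lemma h_mem {p q : ℕ} {x : Finset Y → SC X} (hx : x ∈ DC U (p + 1) q) :
    bdy ℚ (SC X) x ∈ DC U p q := by
  refine ⟨fun S hS => ?_, fun S y hy => ?_⟩
  · rw [bdy_apply] at hS
    obtain ⟨y, hy, h⟩ := exists_ne_zero_of_sum_ne_zero hS
    have := hx.1 _ (right_ne_zero_of_smul h)
    rw [card_insert_of_notMem (mem_compl.1 hy)] at this
    omega
  · rw [bdy_apply]
    exact Submodule.sum_mem _ fun z _ =>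
      Submodule.smul_mem _ _ (hx.2 _ y (mem_insert_of_mem hy))

omit [Fintype Y] [LinearOrder Y] in
lemma v_mem {p q : ℕ} {x : Finset Y → SC X} (hx : x ∈ DC U p (q + 1)) : vD x ∈ DC U p q :=
  ⟨fun S hS => hx.1 S fun e => hS (by simp [vD, e]), fun S y hy => sbd_mem _ _ (hx.2 S y hy)⟩

omit [Fintype Y] [LinearOrder Y] in
lemma v_zero {p : ℕ} {x : Finset Y → SC X} (hx : x ∈ DC U p 0) : vD x = 0 :=
  funext fun S => sbd_zero _ (DC_inter hx S)

lemma a_mem {p q : ℕ} {x : Finset Y → SC X} (hx : x ∈ DC U p q) : aD x ∈ Small U q := by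
  show bdy ℚ (SC X) x ∅ ∈ _
  rw [bdy_empty]
  refine Submodule.sum_mem _ fun y _ s hs => ?_
  have := hx.2 {y} y (mem_singleton_self y) hs
  exact ⟨this.1, y, this.2⟩

omit [LinearOrder Y] in
lemma b_mem {p q : ℕ} {x : Finset Y → SC X} (hx : x ∈ DC U p q) :
    bD x ∈ Fc ℚ ℚ (nerve U) (p + 1) := fun S hS =>
  have h : x S ≠ 0 := fun e => hS (by simp [bD, e])
  ⟨DC_nerve hx h, hx.1 S h⟩

lemma a_surj {q : ℕ} {b : SC X} (hb : b ∈ Small U q) : ∃ x ∈ DC U 0 q, aD x = b := by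
  have h1 : b ∈ ⨆ y ∈ (univ : Finset Y), SCq (U y) q := by
    simp only [mem_univ, iSup_pos, SCq]
    rw [← Finsupp.supported_iUnion]
    refine Finsupp.supported_mono (fun s hs => ?_) hb
    obtain ⟨h1, y, h2⟩ := hs
    exact Set.mem_iUnion.2 ⟨y, h1, h2⟩
  obtain ⟨x, h2, h3, h4⟩ := cech_surj (fun y => SCq (U y) q) univ h1
  exact ⟨x, ⟨fun S hS => (h2 S hS).2, h3⟩, h4⟩

lemma row_exact {p q : ℕ} {x : Finset Y → SC X} (hx : x ∈ DC U p q) (h0 : bdy ℚ (SC X) x = 0) :
    ∃ y ∈ DC U (p + 1) q, bdy ℚ (SC X) y = x := by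
  obtain ⟨y, h1, h2, h3⟩ := cech_exact (L := fun y => SCq (U y) q) (τ := univ)
    (adapted_supported _ _) p x (fun S hS => ⟨subset_univ _, hx.1 S hS⟩) hx.2 h0
  exact ⟨y, ⟨fun S hS => (h1 S hS).2, h2⟩, h3⟩

lemma row_zero {q : ℕ} {x : Finset Y → SC X} (hx : x ∈ DC U 0 q) (h0 : aD x = 0) :
    ∃ y ∈ DC U 1 q, bdy ℚ (SC X) y = x := by
  refine row_exact hx (funext fun S => ?_)
  rcases S.eq_empty_or_nonempty with rfl | hS
  · exact h0
  · rw [bdy_apply]
    refine sum_eq_zero fun y hy => ?_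
    have : x (insert y S) = 0 := by
      by_contra e
      have h1 := hx.1 _ e
      have h2 := hS.card_pos
      rw [card_insert_of_notMem (mem_compl.1 hy)] at h1
      omega
    rw [this, smul_zero]

omit [LinearOrder Y] in
lemma b_surj {p : ℕ} {b : Finset Y → ℚ} (hb : b ∈ Fc ℚ ℚ (nerve U) (p + 1)) :
    ∃ x ∈ DC U p 0, bD x = b := by
  refine DC_solve (aug X) b (fun S hS => (hb S hS).2) fun S hS => aug_surj ?_ _
  obtain ⟨x, hx⟩ := mem_nerve.1 (hb S hS).1
  exact ⟨x, Set.mem_iInter₂.2 hx⟩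

omit [LinearOrder Y] in
lemma DC_contr (hU : GoodCover U) {p q : ℕ} {x : Finset Y → SC X} (hx : x ∈ DC U p q)
    {S : Finset Y} (h : x S ≠ 0) : ContractibleSpace (⋂ y ∈ S, U y : Set X) :=
  hU.contr S (card_pos.1 (by rw [hx.1 S h]; omega)) (DC_nerve hx h)

omit [LinearOrder Y] in
lemma col_zero (hU : GoodCover U) {p : ℕ} {x : Finset Y → SC X} (hx : x ∈ DC U p 0)
    (h0 : bD x = 0) : ∃ y ∈ DC U p 1, vD y = x :=
  DC_solve (sbd X) x hx.1 fun S hS =>
    have := DC_contr hU hx hS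
    acyclic_zero _ (DC_inter hx S) (congrFun h0 S)

omit [LinearOrder Y] in
lemma col_exact (hU : GoodCover U) {p q : ℕ} {x : Finset Y → SC X} (hx : x ∈ DC U p (q + 1))
    (h0 : vD x = 0) : ∃ y ∈ DC U p (q + 2), vD y = x :=
  DC_solve (sbd X) x hx.1 fun S hS =>
    have := DC_contr hU hx hS
    acyclic _ q (DC_inter hx S) (congrFun h0 S)

lemma cycK_le (K : Finset (Finset Y)) (k : ℕ) : cycK K k ≤ Fc ℚ ℚ K (k + 1) := by
  cases k
  exacts [le_rfl, inf_le_left]

theorem hrank_nerve {U : Y → Set X} (hU : GoodCover U) (k : ℕ) :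
    hrank (Small U k ⊓ LinearMap.ker (sbd X)) ((Small U (k + 1)).map (sbd X)) =
      hrank (cycK (nerve U) k) ((Fc ℚ ℚ (nerve U) (k + 2)).map (bdy ℚ ℚ)) := by
  apply le_antisymm
  · refine zigzag (bdy ℚ (SC X)) vD aD bD (sbd X) (bdy ℚ ℚ) (DC U)
      (fun p => Fc ℚ ℚ (nerve U) (p + 1)) k _ _ _ (fun _ _ x _ => bdy_bdy x)
      (fun _ _ x _ => h_v x) (fun _ _ x _ => v_v x) (fun _ x _ => a_h x) (fun _ x _ => b_v x)
      (fun _ x _ => a_v x) (fun _ x _ => b_h x) (fun _ _ _ => h_mem) (fun _ _ _ => v_mem)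
      (fun z hz => a_surj hz.1) (fun _ z hz => hz.2) (fun _ _ _ => row_zero)
      (fun _ _ _ _ => row_exact) ?_ ?_ (fun _ => b_surj) (fun _ _ => col_zero hU)
      (fun _ _ _ _ => col_exact hU) ?_
    · rintro rfl x hx -
      exact b_mem hx
    · intro hk x hx h0
      obtain ⟨j, rfl⟩ := Nat.exists_eq_succ_of_ne_zero hk
      exact ⟨b_mem hx, h0⟩
    · intro x hx h1 h2
      obtain ⟨y, hy, rfl⟩ : ∃ y ∈ DC U 0 (k + 1), vD y = x := by
        cases k with
        | zero => exact col_zero hU hx (h2 rfl)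
        | succ j => exact col_exact hU hx (h1 (Nat.succ_ne_zero j))
      exact ⟨aD y, a_mem hy, (a_v y).symm⟩
  · refine zigzag vD (bdy ℚ (SC X)) bD aD (bdy ℚ ℚ) (sbd X) (fun p q => DC U q p)
      (Small U) k _ _ _ (fun _ _ x _ => v_v x) (fun _ _ x _ => (h_v x).symm)
      (fun _ _ x _ => bdy_bdy x) (fun _ x _ => b_v x) (fun _ x _ => a_h x)
      (fun _ x _ => b_h x) (fun _ x _ => a_v x) (fun _ _ _ => v_mem) (fun _ _ _ => h_mem)
      (fun z hz => b_surj (cycK_le _ _ hz)) ?_ (fun _ _ _ => col_zero hU)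
      (fun _ _ _ _ => col_exact hU) ?_ (fun _ x hx h0 => ⟨a_mem hx, h0⟩) (fun _ => a_surj)
      (fun _ _ => row_zero) (fun _ _ _ _ => row_exact) ?_
    · intro hk z hz
      obtain ⟨j, rfl⟩ := Nat.exists_eq_succ_of_ne_zero hk
      exact hz.2
    · rintro rfl x hx -
      refine ⟨a_mem hx, ?_⟩
      show sbd X (aD x) = 0
      rw [← a_v, v_zero hx, map_zero]
    · intro x hx h1 h2
      obtain ⟨y, hy, rfl⟩ : ∃ y ∈ DC U (k + 1) 0, bdy ℚ (SC X) y = x := by
        cases k with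
        | zero => exact row_zero hx (h2 rfl)
        | succ j => exact row_exact hx (h1 (Nat.succ_ne_zero j))
      exact ⟨bD y, b_mem hy, (b_h y).symm⟩

theorem nerve_theorem {U : Y → Set X} (hU : GoodCover U) (k : ℕ) :
    betti X k + rkb ℚ (nerve U) k + rkb ℚ (nerve U) (k + 1) = fn (nerve U) k := by
  obtain ⟨Sd, T, h1, h2, h3, h4⟩ := exists_subdiv U hU.isOpen hU.cover
  have hK := nerve_down U
  have hle : ∀ c, (Fc ℚ ℚ (nerve U) (c + 1)).map (bdy ℚ ℚ) ≤
      Fc ℚ ℚ (nerve U) c ⊓ LinearMap.ker (bdy ℚ ℚ) := by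
    rintro c _ ⟨f, hf, rfl⟩
    exact ⟨bdy_mem_Fc hK hf, bdy_bdy f⟩
  rw [betti_eq, hdim_eq_toNat, ← hrank_small_of_subdiv U Sd T h1 h2 h3 h4 k, hrank_nerve hU,
    ← hdim_eq_toNat, ← finrank_Fc' (k := ℚ)]
  cases k with
  | zero =>
    have h := hdim_add (Fc ℚ ℚ (nerve U) 1) ((Fc ℚ ℚ (nerve U) 2).map (bdy ℚ ℚ))
    rw [inf_eq_right.2 ((hle 1).trans inf_le_left), finrank_map_bdy hK 0] at h
    exact h
  | succ j =>
    have h := hdim_ranks (bdy ℚ ℚ) _ _ (hle (j + 2))
    rw [finrank_map_bdy hK j, finrank_map_bdy hK (j + 1)] at h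
    exact h

end Pool.Agent.Work.MP_dd0bbc_gt
end
end

-- merged part: Pool.Agent.Work.MP_dd0bbc_gt.Main
section
-- merged part: Pool.Agent.Work.MP_dd0bbc_gt.ModP
section
/-! Reduction modulo a maximal ideal. -/

set_option autoImplicit false

namespace Pool.Agent.Work.MP_dd0bbc_gt

open Finset Matrix

theorem isJacobsonRing_int_modp : IsJacobsonRing ℤ := by
  refine isJacobsonRing_iff_prime_eq.mpr fun P hP => ?_
  by_cases h0 : P = ⊥
  · subst h0
    refine le_antisymm (fun x hx => ?_) Ideal.le_jacobson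
    rw [Ideal.mem_jacobson_bot] at hx
    rw [Ideal.mem_bot]
    have h1 := Int.isUnit_iff.mp (hx x)
    have h2 := mul_self_nonneg x
    rcases h1 with h1 | h1
    · exact mul_self_eq_zero.mp (by linarith)
    · linarith
  · have := hP.isMaximal h0
    exact Ideal.jacobson_eq_self_of_isMaximal

theorem exists_residue (s : Finset ℝ) (P : ℕ) :
    ∃ (A : Subring ℝ) (F : Type) (_ : Field F) (_ : Finite F) (p : ℕ) (_ : CharP F p)
      (_ : A →+* F), p.Prime ∧ P < p ∧ ∀ x ∈ s, x ∈ A := by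
  classical
  let t : Finset ℝ := insert ((P.factorial : ℝ))⁻¹ s
  let A : Subalgebra ℤ ℝ := Algebra.adjoin ℤ (t : Set ℝ)
  have : Algebra.FiniteType ℤ A := .adjoin_of_finite t.finite_toSet
  have := isJacobsonRing_int_modp
  obtain ⟨m, hm⟩ := Ideal.exists_maximal A
  let : Field (A ⧸ m) := Ideal.Quotient.field m
  have hfin : Module.Finite ℤ (A ⧸ m) := finite_of_finite_type_of_isJacobsonRing ℤ (A ⧸ m)
  obtain ⟨p, hp⟩ := CharP.exists (A ⧸ m)
  have hpr : p.Prime := by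
    rcases CharP.char_is_prime_or_zero (A ⧸ m) p with h | h
    · exact h
    · exfalso
      subst h
      have := CharP.charP_to_charZero (A ⧸ m)
      exact Int.not_isField (isField_of_isIntegral_of_isField (R := ℤ) (S := A ⧸ m)
        (algebraMap ℤ (A ⧸ m)).injective_int (Field.toIsField _))
  have : Fact p.Prime := ⟨hpr⟩
  let : Algebra (ZMod p) (A ⧸ m) := ZMod.algebra _ p
  have : Module.Finite (ZMod p) (A ⧸ m) :=
    Module.Finite.of_restrictScalars_finite ℤ (ZMod p) (A ⧸ m)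
  have hF : Finite (A ⧸ m) := Module.finite_of_finite (ZMod p)
  have hmem : ∀ x ∈ t, x ∈ A := fun x hx => Algebra.subset_adjoin hx
  refine ⟨A.toSubring, A ⧸ m, inferInstance, hF, p, hp, Ideal.Quotient.mk m, hpr, ?_,
    fun x hx => hmem x (Finset.mem_insert_of_mem hx)⟩
  by_contra hle
  have hd : p ∣ P.factorial := (hpr.dvd_factorial).mpr (not_lt.mp hle)
  have h0 : ((P.factorial : ℕ) : A ⧸ m) = 0 := (CharP.cast_eq_zero_iff _ p _).mpr hd
  let u : A := ⟨((P.factorial : ℝ))⁻¹, hmem _ (Finset.mem_insert_self _ _)⟩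
  have h1 : ((P.factorial : ℕ) : A) * u = 1 := by
    apply Subtype.ext
    have : (P.factorial : ℝ) ≠ 0 := by exact_mod_cast P.factorial_ne_zero
    simp [u, this]
  have h2 := congrArg (Ideal.Quotient.mk m) h1
  rw [map_mul, map_natCast, h0, zero_mul, map_one] at h2
  exact zero_ne_one h2

section Rank

variable {I J : Type} [Fintype I] [Fintype J]

theorem exists_rows_modp {F : Type} [Field F] (M : Matrix I J F) {r : ℕ} (hr : M.rank = r) :
    ∃ f : Fin r → I, LinearIndependent F (M.submatrix f id).row := by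
  obtain ⟨κ, a, ha, hsp, hli⟩ := exists_linearIndependent' F M.row
  have : Finite κ := Finite.of_injective a ha
  have := Fintype.ofFinite κ
  have hc : Fintype.card κ = r := by
    rw [linearIndependent_iff_card_eq_finrank_span.mp hli, Set.finrank, hsp,
      ← M.rank_eq_finrank_span_row, hr]
  let e : κ ≃ Fin r := Fintype.equivFinOfCardEq hc
  exact ⟨a ∘ e.symm, hli.comp e.symm e.symm.injective⟩

theorem exists_minor {F : Type} [Field F] (M : Matrix I J F) :
    ∃ (f : Fin M.rank → I) (g : Fin M.rank → J), (M.submatrix f g).det ≠ 0 := by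
  obtain ⟨f, hf⟩ := exists_rows_modp M rfl
  have h1 : (M.submatrix f id)ᵀ.rank = M.rank := by
    rw [rank_transpose, hf.rank_matrix, Fintype.card_fin]
  obtain ⟨g, hg⟩ := exists_rows_modp _ h1
  refine ⟨f, g, ?_⟩
  have h2 : IsUnit ((M.submatrix f id)ᵀ.submatrix g id) :=
    Matrix.linearIndependent_rows_iff_isUnit.mp hg
  have h3 : (M.submatrix f id)ᵀ.submatrix g id = (M.submatrix f g)ᵀ := rfl
  rw [h3, isUnit_iff_isUnit_det, det_transpose] at h2
  exact h2.ne_zero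

theorem le_rank_of_minor {F : Type} [Field F] (M : Matrix I J F) {r : ℕ} (f : Fin r → I)
    (g : Fin r → J) (h : (M.submatrix f g).det ≠ 0) : r ≤ M.rank := by
  have h1 := rank_of_isUnit _ ((isUnit_iff_isUnit_det _).mpr (isUnit_iff_ne_zero.mpr h))
  rw [Fintype.card_fin] at h1
  exact h1 ▸ rank_submatrix_le M f g

theorem rank_map_le {A F F' : Type} [CommRing A] [Field F] [Field F'] (φ : A →+* F)
    (ψ : A →+* F') (hψ : Function.Injective ψ) (M : Matrix I J A) :
    (M.map φ).rank ≤ (M.map ψ).rank := by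
  obtain ⟨f, g, h⟩ := exists_minor (M.map φ)
  refine le_rank_of_minor _ f g ?_
  have h1 : (M.map φ).submatrix f g = φ.mapMatrix (M.submatrix f g) := rfl
  have h2 : (M.map ψ).submatrix f g = ψ.mapMatrix (M.submatrix f g) := rfl
  rw [h1, ← RingHom.map_det] at h
  rw [h2, ← RingHom.map_det]
  intro h0
  apply h
  rw [hψ (h0.trans (map_zero ψ).symm), map_zero]

theorem pow_dvd_det_modp {p r : ℕ} [Fact p.Prime] (N : Matrix (Fin r) (Fin r) ℤ) :
    (p : ℤ) ^ (r - (N.map (Int.castRingHom (ZMod p))).rank) ∣ N.det := by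
  classical
  obtain ⟨L, L', D, h⟩ :=
    Pivot.exists_list_transvec_mul_mul_list_transvec_eq_diagonal (N.map (Int.castRingHom (ZMod p)))
  set U := (L.map TransvectionStruct.toMatrix).prod with hU
  set V := (L'.map TransvectionStruct.toMatrix).prod with hV
  have hUd : U.det = 1 := TransvectionStruct.det_toMatrix_prod L
  have hVd : V.det = 1 := TransvectionStruct.det_toMatrix_prod L'
  have hrk : (N.map (Int.castRingHom (ZMod p))).rank = Fintype.card {i // D i ≠ 0} := by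
    rw [← rank_diagonal, ← h, rank_mul_eq_left_of_isUnit_det V _ (hVd ▸ isUnit_one),
      rank_mul_eq_right_of_isUnit_det U _ (hUd ▸ isUnit_one)]
  let U' : Matrix (Fin r) (Fin r) ℤ := U.map ZMod.cast
  let V' : Matrix (Fin r) (Fin r) ℤ := V.map ZMod.cast
  have hU' : (Int.castRingHom (ZMod p)).mapMatrix U' = U := by
    ext i j; simp [U']
  have hV' : (Int.castRingHom (ZMod p)).mapMatrix V' = V := by
    ext i j; simp [V']
  set T := U' * N * V' with hT
  have hT' : (Int.castRingHom (ZMod p)).mapMatrix T = diagonal D := by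
    rw [hT, map_mul, map_mul, hU', hV', ← h]; rfl
  have hdv : ∀ i j, D i = 0 → (p : ℤ) ∣ T i j := fun i j hi => by
    rw [← ZMod.intCast_zmod_eq_zero_iff_dvd]
    have := congrFun (congrFun hT' i) j
    simp only [RingHom.mapMatrix_apply, map_apply, eq_intCast] at this
    rw [this, diagonal_apply]
    split_ifs with hij
    · exact hi
    · rfl
  let e : Fin r → ℤ := fun i => if D i = 0 then p else 1
  have hfac : T = diagonal e * Matrix.of fun i j => T i j / e i := by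
    ext i j
    rw [diagonal_mul, of_apply]
    by_cases hi : D i = 0
    · simp only [e, if_pos hi]
      exact (Int.mul_ediv_cancel' (hdv i j hi)).symm
    · simp [e, if_neg hi]
  have hprod : ∏ i, e i = (p : ℤ) ^ (r - (N.map (Int.castRingHom (ZMod p))).rank) := by
    rw [hrk, Fintype.card_subtype_compl, Fintype.card_fin]
    have h1 : Fintype.card {i // D i = 0} ≤ r :=
      (Fintype.card_subtype_le _).trans (Fintype.card_fin r).le
    rw [Nat.sub_sub_self h1, Fintype.card_subtype]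
    simp [e, Finset.prod_ite]
  have h1 : (p : ℤ) ^ (r - (N.map (Int.castRingHom (ZMod p))).rank) ∣ T.det := by
    rw [hfac, det_mul, det_diagonal, hprod]
    exact dvd_mul_right _ _
  have hpp : Prime (p : ℤ) := Nat.prime_iff_prime_int.mp Fact.out
  have hnd : ∀ W : Matrix (Fin r) (Fin r) ℤ,
      ((Int.castRingHom (ZMod p)).mapMatrix W).det = 1 → ¬ (p : ℤ) ∣ W.det := fun W hW hd => by
    rw [← RingHom.map_det, eq_intCast, (ZMod.intCast_zmod_eq_zero_iff_dvd _ _).mpr hd] at hW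
    exact zero_ne_one hW
  rw [hT, det_mul, det_mul] at h1
  exact hpp.pow_dvd_of_dvd_mul_left _ (hnd U' (hU' ▸ hUd))
    (hpp.pow_dvd_of_dvd_mul_right _ (hnd V' (hV' ▸ hVd)) h1)

theorem abs_det_le_modp {r : ℕ} (N : Matrix (Fin r) (Fin r) ℤ) :
    |N.det| ≤ ∏ i, ∑ j, |N i j| := by
  classical
  rw [← det_transpose, det_apply', Finset.prod_univ_sum]
  refine (Finset.abs_sum_le_sum_abs _ _).trans ?_
  have h1 : ∀ σ : Equiv.Perm (Fin r),
      |((Equiv.Perm.sign σ : ℤˣ) : ℤ) * ∏ i, Nᵀ (σ i) i| = ∏ i, |N i (σ i)| := fun σ => by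
    rw [abs_mul, Finset.abs_prod]
    rcases Int.units_eq_one_or (Equiv.Perm.sign σ) with h | h <;> simp [h]
  have h2 : ∑ σ : Equiv.Perm (Fin r), ∏ i, |N i (σ i)| =
      ∑ x ∈ Finset.univ.image (fun σ : Equiv.Perm (Fin r) => (σ : Fin r → Fin r)),
        ∏ i, |N i (x i)| := by
    rw [Finset.sum_image]
    intro a _ b _ hab
    exact DFunLike.coe_injective hab
  calc _ = ∑ σ : Equiv.Perm (Fin r), ∏ i, |N i (σ i)| :=
        Finset.sum_congr rfl fun σ _ => by simpa using h1 σ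
    _ ≤ _ := by
        rw [h2]
        refine Finset.sum_le_sum_of_subset_of_nonneg (fun x _ => by simp) fun x _ _ => ?_
        exact Finset.prod_nonneg fun i _ => abs_nonneg _

theorem rank_modp {F : Type} [Field F] {p : ℕ} [CharP F p] (hp : p.Prime) (M : Matrix I J ℤ)
    {B : ℕ} (hB : 1 ≤ B) (hM : ∀ i, ∑ j, |M i j| ≤ B) :
    p ^ ((M.map (Int.cast : ℤ → ℚ)).rank - (M.map (Int.cast : ℤ → F)).rank) ≤
      B ^ Fintype.card I := by
  classical
  have : Fact p.Prime := ⟨hp⟩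
  obtain ⟨r, hr⟩ : ∃ r, r = (M.map (Int.cast : ℤ → ℚ)).rank := ⟨_, rfl⟩
  obtain ⟨f, g, h⟩ : ∃ (f : Fin r → I) (g : Fin r → J),
      ((M.map (Int.cast : ℤ → ℚ)).submatrix f g).det ≠ 0 := by
    rw [hr]; exact exists_minor _
  rw [← hr]
  set N : Matrix (Fin r) (Fin r) ℤ := M.submatrix f g with hN
  have hN0 : N.det ≠ 0 := by
    intro h0
    apply h
    have h1 : (M.map (Int.cast : ℤ → ℚ)).submatrix f g = (Int.castRingHom ℚ).mapMatrix N := rfl
    rw [h1, ← RingHom.map_det, h0, map_zero]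
  have hg : Function.Injective g := fun a b hab => by
    by_contra hne
    exact hN0 (det_zero_of_column_eq hne fun k => by simp [hN, hab])
  have h1 : (N.map (Int.castRingHom (ZMod p))).rank ≤ (M.map (Int.cast : ℤ → F)).rank := by
    have h2 : (N.map (Int.castRingHom (ZMod p))).rank ≤
        (M.map (Int.castRingHom (ZMod p))).rank :=
      rank_submatrix_le (M.map (Int.castRingHom (ZMod p))) f g
    have h3 := rank_map_le (RingHom.id (ZMod p)) (ZMod.castHom (dvd_refl p) F)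
      (RingHom.injective _) (M.map (Int.castRingHom (ZMod p)))
    have h4 : (M.map (Int.castRingHom (ZMod p))).map (ZMod.castHom (dvd_refl p) F) =
        M.map (Int.cast : ℤ → F) := by
      ext i j; simp
    rw [h4] at h3
    exact h2.trans h3
  have h2 : (p : ℤ) ^ (r - (N.map (Int.castRingHom (ZMod p))).rank) ≤ |N.det| :=
    Int.le_of_dvd (abs_pos.mpr hN0) ((dvd_abs _ _).mpr (pow_dvd_det_modp N))
  have h3 : |N.det| ≤ (B : ℤ) ^ r := by
    refine (abs_det_le_modp N).trans ?_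
    calc ∏ i, ∑ j, |N i j| ≤ ∏ _i : Fin r, (B : ℤ) := by
          refine Finset.prod_le_prod (fun i _ => Finset.sum_nonneg fun j _ => abs_nonneg _)
            fun i _ => le_trans ?_ (hM (f i))
          have h5 : ∑ j, |N i j| = ∑ j ∈ Finset.univ.image g, |M (f i) j| := by
            rw [Finset.sum_image fun a _ b _ hab => hg hab]
            rfl
          rw [h5]
          exact Finset.sum_le_sum_of_subset_of_nonneg (Finset.subset_univ _)
            fun j _ _ => abs_nonneg _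
      _ = _ := by simp
  have h4 : p ^ (r - (N.map (Int.castRingHom (ZMod p))).rank) ≤ B ^ r := by
    exact_mod_cast h2.trans h3
  calc p ^ (r - (M.map (Int.cast : ℤ → F)).rank)
      ≤ p ^ (r - (N.map (Int.castRingHom (ZMod p))).rank) :=
        Nat.pow_le_pow_right hp.pos (Nat.sub_le_sub_left h1 r)
    _ ≤ B ^ r := h4
    _ ≤ B ^ Fintype.card I := Nat.pow_le_pow_right hB (hr ▸ rank_le_card_height _)

end Rank

end Pool.Agent.Work.MP_dd0bbc_gt
end

-- merged part: Pool.Agent.Work.MP_dd0bbc_gt.ModP2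
section
/-! Lower bound for the rank of the twisted coboundary. -/

set_option autoImplicit false

namespace Pool.Agent.Work.MP_dd0bbc_gt

open Finset Matrix

variable {Y ι : Type} [Fintype Y] [LinearOrder Y] [Fintype ι] [DecidableEq ι]

theorem rank_blockDiagonal_mp2 {F I J : Type} [Field F] [Fintype J] (A : Matrix I J F) :
    (blockDiagonal fun _ : ι => A).rank = Fintype.card ι * A.rank := by
  have hv : ∀ (v : J × ι → F) (a : I) (i : ι),
      ((blockDiagonal fun _ : ι => A) *ᵥ v) (a, i) = (A *ᵥ fun b => v (b, i)) a := by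
    intro v a i
    simp [mulVec, dotProduct, Fintype.sum_prod_type, blockDiagonal_apply]
  let Φ : (ι → LinearMap.range A.mulVecLin) →ₗ[F] (I × ι → F) :=
    { toFun := fun w p => (w p.2).1 p.1
      map_add' := fun _ _ => rfl
      map_smul' := fun _ _ => rfl }
  have hi : Function.Injective Φ := fun w w' h => by
    ext i a
    exact congrFun h (a, i)
  have hr : LinearMap.range Φ = LinearMap.range (blockDiagonal fun _ : ι => A).mulVecLin := by
    ext u
    constructor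
    · rintro ⟨w, rfl⟩
      choose v hv' using fun i => (w i).2
      refine ⟨fun q => v q.2 q.1, funext fun ⟨a, i⟩ => (hv _ a i).trans ?_⟩
      exact congrFun (hv' i) a
    · rintro ⟨v, rfl⟩
      exact ⟨fun i => ⟨_, fun b => v (b, i), rfl⟩, funext fun ⟨a, i⟩ => (hv v a i).symm⟩
  rw [Matrix.rank, ← hr, LinearMap.finrank_range_of_inj hi, Module.finrank_pi_fintype]
  simp [Matrix.rank]

/-- Block diagonal matrix with the block index first. -/
def dg_mp2 {F X : Type} [Zero F] [DecidableEq X] (f : X → Matrix ι ι F) :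
    Matrix (X × ι) (X × ι) F :=
  (blockDiagonal f).submatrix Prod.swap Prod.swap

theorem dg_det_mp2 {F X : Type} [Field F] [DecidableEq X] [Fintype X] (f g : X → Matrix ι ι F)
    (h : ∀ x, f x * g x = 1) : IsUnit (dg_mp2 f).det ∧ IsUnit (dg_mp2 g).det := by
  have e : dg_mp2 f * dg_mp2 g = 1 := by
    have := submatrix_mul_equiv (blockDiagonal f) (blockDiagonal g) Prod.swap
      (Equiv.prodComm X ι) Prod.swap
    rw [← blockDiagonal_mul, show (fun x => f x * g x) = 1 from funext h, blockDiagonal_one] at this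
    exact this.trans (submatrix_one_equiv (Equiv.prodComm X ι))
  exact ⟨isUnit_det_of_right_inverse e, isUnit_det_of_left_inverse e⟩

omit [Fintype Y] in
theorem inc_ne_zero_mp2 {R : Type} [CommRing R] {K : Finset (Finset Y)} {k : ℕ}
    {τ : Face K (k + 1)} {S : Face K k} (h : inc R K k τ S ≠ 0) : S.1 ⊆ τ.1 := by
  obtain ⟨y, -, hy⟩ := exists_ne_zero_of_sum_ne_zero h
  have : τ.1.erase y = S.1 := by
    by_contra e
    exact hy (if_neg e)
  exact this ▸ erase_subset _ _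

omit [Fintype Y] in
theorem inc_map_mp2 {R S : Type} [CommRing R] [CommRing S] (φ : R →+* S)
    (K : Finset (Finset Y)) (k : ℕ) (τ : Face K (k + 1)) (σ : Face K k) :
    φ (inc R K k τ σ) = inc S K k τ σ := by
  simp [inc, apply_ite φ]

omit [Fintype Y] [Fintype ι] [DecidableEq ι] in
theorem tw_map_mp2 {R S : Type} [CommRing R] [CommRing S] (φ : R →+* S)
    (K : Finset (Finset Y)) (bs : Finset Y → Y) (U : Y → Y → Matrix ι ι R) (k : ℕ) :
    (tw K bs U k).map φ = tw K bs (fun a b => (U a b).map φ) k := by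
  ext p q
  simp [tw, inc_map_mp2]

theorem rank_tw_gauge {F : Type} [Field F] {K : Finset (Finset Y)}
    (hK : ∀ S ∈ K, ∀ T, T ⊆ S → T ∈ K) {bs : Finset Y → Y}
    (hbs : ∀ S : Finset Y, S.Nonempty → bs S ∈ S) (U : Y → Y → Matrix ι ι F)
    (H H' : Y → Matrix ι ι F) (hH : ∀ a, H a * H' a = 1)
    (hU : ∀ a b, {a, b} ∈ K → U a b = H' a * H b) (k : ℕ) :
    (tw K bs U k).rank = Fintype.card ι * (inc F K k).rank := by
  have e : tw K bs U k = dg_mp2 (fun τ : Face K (k + 1) => H' (bs τ.1)) *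
      (blockDiagonal fun _ : ι => inc F K k) * dg_mp2 (fun S : Face K k => H (bs S.1)) := by
    ext ⟨τ, a⟩ ⟨S, b⟩
    have e1 : tw K bs U k (τ, a) (S, b) = inc F K k τ S * (H' (bs τ.1) * H (bs S.1)) a b := by
      by_cases h0 : inc F K k τ S = 0
      · simp [tw, h0]
      · have h1 : bs τ.1 ∈ τ.1 := hbs _ (card_pos.1 (by rw [τ.2.2]; omega))
        have h2 : bs S.1 ∈ τ.1 := inc_ne_zero_mp2 h0 (hbs _ (card_pos.1 (by rw [S.2.2]; omega)))
        rw [← hU _ _ (hK _ τ.2.1 _ (insert_subset h1 (singleton_subset_iff.2 h2)))]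
        rfl
    rw [e1]
    simp [dg_mp2, mul_apply, Fintype.sum_prod_type, blockDiagonal_apply, mul_sum, mul_comm,
      mul_left_comm, mul_assoc]
  rw [e, rank_mul_eq_left_of_isUnit_det _ _
      (dg_det_mp2 (fun S : Face K k => H (bs S.1)) (fun S => H' (bs S.1)) fun _ => hH _).1,
    rank_mul_eq_right_of_isUnit_det _ _
      (dg_det_mp2 (fun S : Face K (k + 1) => H (bs S.1)) (fun S => H' (bs S.1)) fun _ => hH _).2,
    rank_blockDiagonal_mp2]

theorem rank_inc_modp {F : Type} [Field F] {p : ℕ} [CharP F p] (hp : p.Prime)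
    (K : Finset (Finset Y)) (k L : ℕ) (hL : (k + 2) ^ L ≤ p) :
    L * (inc ℚ K k).rank ≤ L * (inc F K k).rank + fn K (k + 1) := by
  have hm : ∀ (R : Type) [CommRing R], (inc ℤ K k).map (Int.cast : ℤ → R) = inc R K k :=
    fun R _ => by
      ext τ S
      exact inc_map_mp2 (Int.castRingHom R) K k τ S
  have hrow : ∀ τ, ∑ S, |inc ℤ K k τ S| ≤ ((k + 2 : ℕ) : ℤ) := fun τ => by
    calc ∑ S, |inc ℤ K k τ S|
        ≤ ∑ S : Face K k, ∑ y ∈ τ.1, if τ.1.erase y = S.1 then (1 : ℤ) else 0 := by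
          refine sum_le_sum fun S _ => (abs_sum_le_sum_abs _ _).trans (sum_le_sum fun y _ => ?_)
          split_ifs
          · rcases sgn_eq_or y τ.1 with e | e <;> simp [e]
          · simp
      _ ≤ ∑ y ∈ τ.1, (1 : ℤ) := by
          rw [sum_comm]
          refine sum_le_sum fun y _ => ?_
          rw [sum_boole]
          have : (univ.filter fun S : Face K k => τ.1.erase y = S.1).card ≤ 1 :=
            card_le_one.2 fun a ha b hb =>
              Subtype.ext ((mem_filter.1 ha).2.symm.trans (mem_filter.1 hb).2)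
          exact_mod_cast this
      _ = _ := by simp [τ.2.2]; ring
  have h := rank_modp (F := F) hp (inc ℤ K k) (B := k + 2) (by omega) hrow
  have hc : Fintype.card (Face K (k + 1)) = fn K (k + 1) :=
    Fintype.card_of_subtype _ fun S => mem_filter
  rw [hm, hm, hc] at h
  have h2 := (Nat.pow_le_pow_left hL ((inc ℚ K k).rank - (inc F K k).rank)).trans h
  rw [← pow_mul, Nat.pow_le_pow_iff_right (by omega)] at h2
  have h3 : (inc ℚ K k).rank ≤ (inc F K k).rank + ((inc ℚ K k).rank - (inc F K k).rank) := by omega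
  calc _ ≤ L * ((inc F K k).rank + ((inc ℚ K k).rank - (inc F K k).rank)) :=
        Nat.mul_le_mul_left L h3
    _ ≤ _ := by rw [mul_add]; omega

theorem rank_tw_ge {F : Type} [Field F] {p : ℕ} [CharP F p] (hp : p.Prime) (A : Subring ℝ)
    (φ : A →+* F) {K : Finset (Finset Y)} (hK : ∀ S ∈ K, ∀ T, T ⊆ S → T ∈ K)
    {bs : Finset Y → Y} (hbs : ∀ S : Finset Y, S.Nonempty → bs S ∈ S)
    (U : Y → Y → Matrix ι ι A) (H H' : Y → Matrix ι ι F) (hH : ∀ a, H a * H' a = 1)
    (hU : ∀ a b, {a, b} ∈ K → (U a b).map φ = H' a * H b) (k L : ℕ) (hL : (k + 2) ^ L ≤ p) :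
    Fintype.card ι * (L * (inc ℚ K k).rank) ≤
      L * (tw K bs (fun a b => (U a b).map A.subtype) k).rank +
        Fintype.card ι * fn K (k + 1) := by
  have h1 := rank_map_le φ A.subtype Subtype.val_injective (tw K bs U k)
  rw [tw_map_mp2, tw_map_mp2, rank_tw_gauge hK hbs _ H H' hH hU] at h1
  calc _ ≤ Fintype.card ι * (L * (inc F K k).rank + fn K (k + 1)) :=
        Nat.mul_le_mul_left _ (rank_inc_modp hp K k L hL)
    _ = L * (Fintype.card ι * (inc F K k).rank) + Fintype.card ι * fn K (k + 1) := by ring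
    _ ≤ _ := Nat.add_le_add_right (Nat.mul_le_mul_left L h1) _

end Pool.Agent.Work.MP_dd0bbc_gt
end

-- merged part: Pool.Agent.Work.MP_dd0bbc_gt.Sheets
section
/-! Good covers of covering spaces. -/

set_option autoImplicit false

namespace Pool.Agent.Work.MP_dd0bbc_gt

open Finset

section Aux

variable {M M' : Type} [TopologicalSpace M] [TopologicalSpace M'] {f : M' → M}

lemma sheets_exists_sec [LocallyPathConnectedSpace M] (hf : IsCoveringMap f) {W : Set M}
    (hW : IsOpen W) [ContractibleSpace W] {e : M'} (he : f e ∈ W) :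
    ∃ σ : M → M', ContinuousOn σ W ∧ (∀ w ∈ W, f (σ w) = w) ∧ σ (f e) = e := by
  classical
  have := hW.locallyPathConnectedSpace
  obtain ⟨F, ⟨h1, h2⟩, -⟩ := hf.existsUnique_continuousMap_lifts
    (⟨Subtype.val, continuous_subtype_val⟩ : C(W, M)) ⟨f e, he⟩ e rfl
  refine ⟨fun w => if h : w ∈ W then F ⟨w, h⟩ else e, ?_, fun w hw => ?_, ?_⟩
  · rw [continuousOn_iff_continuous_domRestrict]
    refine F.continuous.congr fun w => ?_
    simp only [Set.domRestrict_apply, dif_pos w.2]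
  · simp only [dif_pos hw]
    exact congrFun h2 ⟨w, hw⟩
  · simp only [dif_pos he]
    exact h1

lemma sheets_isOpen (hf : IsCoveringMap f) {W : Set M} (hW : IsOpen W) {σ : M → M'}
    (hσ : ContinuousOn σ W) (hs : ∀ w ∈ W, f (σ w) = w) : IsOpen (σ '' W) := by
  have h1 : f ∘ (fun w : W => σ w) = Subtype.val := funext fun w => hs w w.2
  have h2 := hf.isLocalHomeomorph.isOpenEmbedding_of_comp (f := fun w : W => σ w)
    (by rw [h1]; exact hW.isOpenEmbedding_subtypeVal) (continuousOn_iff_continuous_domRestrict.1 hσ)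
  rw [Set.image_eq_range]
  exact h2.isOpen_range

lemma sheets_contr (hf : Continuous f) {W : Set M} [ContractibleSpace W] {σ : M → M'}
    (hσ : ContinuousOn σ W) (hs : ∀ w ∈ W, f (σ w) = w) : ContractibleSpace (σ '' W) := by
  have h1 : f ∘ (fun w : W => σ w) = Subtype.val := funext fun w => hs w w.2
  have h2 : Topology.IsEmbedding (fun w : W => σ w) :=
    Topology.IsEmbedding.of_comp (continuousOn_iff_continuous_domRestrict.1 hσ) hf
      (by rw [h1]; exact Topology.IsEmbedding.subtypeVal)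
  rw [Set.image_eq_range]
  exact h2.toHomeomorph.symm.contractibleSpace

variable {Y : Type} [Fintype Y] [LinearOrder Y] {U : Y → Set M}

lemma sheets_contr_pair (hU : GoodCover U) {a b : Y} {z : M} (ha : z ∈ U a) (hb : z ∈ U b) :
    ContractibleSpace (U a ∩ U b : Set M) := by
  have h := hU.contr {a, b} (by simp) (mem_nerve.2 ⟨z, by simp [ha, hb]⟩)
  have e : (⋂ y ∈ ({a, b} : Finset Y), U y) = U a ∩ U b := by
    ext w; simp
  rwa [e] at h

lemma sheets_contr_one (hU : GoodCover U) (a : Y) : ContractibleSpace (U a) := by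
  obtain ⟨z, hz⟩ := hU.ne a
  have h := sheets_contr_pair hU hz hz
  rwa [Set.inter_self] at h

lemma sheets_agree (hU : GoodCover U) (hf : IsCoveringMap f) {a b : Y} {σ τ : M → M'}
    (hσ : ContinuousOn σ (U a)) (hs : ∀ w ∈ U a, f (σ w) = w) (hτ : ContinuousOn τ (U b))
    (ht : ∀ w ∈ U b, f (τ w) = w) {z w : M} (ha : z ∈ U a) (hb : z ∈ U b) (h : σ z = τ z)
    (ha' : w ∈ U a) (hb' : w ∈ U b) : σ w = τ w := by
  have := sheets_contr_pair hU ha hb
  have hc : IsPreconnected (U a ∩ U b) := isPreconnected_iff_preconnectedSpace.2 inferInstance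
  exact hf.eqOn_of_comp_eqOn hc (hσ.mono Set.inter_subset_left) (hτ.mono Set.inter_subset_right)
    (fun v hv => (hs v hv.1).trans (ht v hv.2).symm) ⟨ha, hb⟩ h ⟨ha', hb'⟩

lemma sheets_family [LocallyPathConnectedSpace M] (hU : GoodCover U) (hf : IsCoveringMap f)
    {d : ℕ} (hd : 0 < d) (hfd : ∀ x, (f ⁻¹' {x}).ncard = d) :
    ∃ (k : ℕ) (pr : Fin k → Y) (sec : Fin k → M → M'),
      (∀ x, ContinuousOn (sec x) (U (pr x))) ∧ (∀ x, ∀ w ∈ U (pr x), f (sec x w) = w) ∧
      (∀ x x' z, pr x = pr x' → z ∈ U (pr x) → sec x z = sec x' z → x = x') ∧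
      (∀ y e, f e ∈ U y → ∃ x, pr x = y ∧ sec x (f e) = e) ∧
      ∀ y, (univ.filter (fun x => pr x = y)).card = d := by
  choose s hs using hU.ne
  have hφ : ∀ y, Nonempty (Fin d ≃ (f ⁻¹' {s y} : Set M')) := fun y => by
    have : Finite (f ⁻¹' {s y} : Set M') := Set.finite_of_ncard_pos (by rw [hfd]; exact hd)
    exact ⟨(Finite.equivFinOfCardEq (by rw [Nat.card_coe_set_eq, hfd])).symm⟩
  let φ : ∀ y, Fin d ≃ (f ⁻¹' {s y} : Set M') := fun y => (hφ y).some
  have hφs : ∀ y i, f (φ y i) = s y := fun y i => (φ y i).2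
  have hsec : ∀ p : Y × Fin d, ∃ σ : M → M', ContinuousOn σ (U p.1) ∧
      (∀ w ∈ U p.1, f (σ w) = w) ∧ σ (s p.1) = φ p.1 p.2 := fun p => by
    have := sheets_contr_one hU p.1
    obtain ⟨σ, h1, h2, h3⟩ := sheets_exists_sec hf (hU.isOpen p.1) (e := φ p.1 p.2)
      (by rw [hφs]; exact hs _)
    exact ⟨σ, h1, h2, by rwa [hφs] at h3⟩
  choose sec h1 h2 h3 using hsec
  let E := (Fintype.equivFin (Y × Fin d)).symm
  refine ⟨_, fun x => (E x).1, fun x => sec (E x), fun x => h1 _, fun x => h2 _,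
    fun x x' z hx hz h => ?_, fun y e he => ?_, fun y => ?_⟩
  · apply E.injective
    beta_reduce at hx hz h
    generalize E x = p at hx hz h
    generalize E x' = p' at hx hz h
    obtain ⟨y, i⟩ := p
    obtain ⟨y', i'⟩ := p'
    obtain rfl : y = y' := hx
    have h4 := sheets_agree hU hf (h1 (y, i)) (h2 (y, i)) (h1 (y, i')) (h2 (y, i')) hz hz h
      (hs y) (hs y)
    rw [h3 (y, i), h3 (y, i')] at h4
    exact Prod.ext rfl ((φ y).injective (Subtype.ext h4))
  · have := sheets_contr_one hU y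
    obtain ⟨σ, g1, g2, g3⟩ := sheets_exists_sec hf (hU.isOpen y) he
    obtain ⟨i, hi⟩ := (φ y).surjective ⟨σ (s y), g2 _ (hs y)⟩
    refine ⟨E.symm (y, i), by simp, ?_⟩
    simp only [Equiv.apply_symm_apply]
    refine Eq.trans ?_ g3
    exact sheets_agree hU hf (h1 (y, i)) (h2 (y, i)) g1 g2 (hs y) (hs y)
      ((h3 (y, i)).trans (congrArg Subtype.val hi)) he he
  · rw [Finset.card_equiv (t := {y} ×ˢ univ) E (fun i => by
      simp only [mem_filter, mem_univ, true_and, mem_product, mem_singleton, and_true])]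
    simp

end Aux

theorem exists_sheets {M M' Y : Type} [TopologicalSpace M] [TopologicalSpace M']
    [LocallyPathConnectedSpace M] [Fintype Y] [LinearOrder Y] {U : Y → Set M} (hU : GoodCover U)
    {f : M' → M} (hf : IsCoveringMap f) {d : ℕ} (hd : 0 < d) (hfd : ∀ x, (f ⁻¹' {x}).ncard = d) :
    ∃ (k : ℕ) (U' : Fin k → Set M') (pr : Fin k → Y) (lift : Fin k → Y → Fin k),
      GoodCover U' ∧ (∀ x, Set.MapsTo f (U' x) (U (pr x))) ∧
      IsCov (nerve U) (nerve U') pr lift ∧ ∀ y, (univ.filter (fun x => pr x = y)).card = d := by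
  classical
  obtain ⟨k, pr, sec, h1, h2, h3, h4, h5⟩ := sheets_family hU hf hd hfd
  let U' : Fin k → Set M' := fun x => sec x '' U (pr x)
  have hmem : ∀ x e, e ∈ U' x ↔ f e ∈ U (pr x) ∧ sec x (f e) = e := fun x e => by
    constructor
    · rintro ⟨w, hw, rfl⟩
      rw [h2 x w hw]
      exact ⟨hw, rfl⟩
    · exact fun h => ⟨f e, h.1, h.2⟩
  have hag : ∀ x x' z w, z ∈ U (pr x) → z ∈ U (pr x') → sec x z = sec x' z → w ∈ U (pr x) →
      w ∈ U (pr x') → sec x w = sec x' w := fun x x' z w a b c a' b' =>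
    sheets_agree hU hf (h1 x) (h2 x) (h1 x') (h2 x') a b c a' b'
  have hl : ∀ x j, ∃ x', ∀ z ∈ U (pr x), z ∈ U j → pr x' = j ∧ sec x z = sec x' z := by
    intro x j
    by_cases h : ∃ z ∈ U (pr x), z ∈ U j
    · obtain ⟨z, a, b⟩ := h
      obtain ⟨x', rfl, c⟩ := h4 j (sec x z) (by rwa [h2 x z a])
      rw [h2 x z a] at c
      exact ⟨x', fun w a' b' => ⟨rfl, hag x x' z w a b c.symm a' b'⟩⟩
    · exact ⟨x, fun z a b => (h ⟨z, a, b⟩).elim⟩
  choose lift hl using hl
  have hle : ∀ x x' z, z ∈ U (pr x) → z ∈ U (pr x') → sec x z = sec x' z →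
      lift x (pr x') = x' := fun x x' z a b c => by
    obtain ⟨g1, g2⟩ := hl x (pr x') z a b
    exact h3 _ _ z g1 (by rwa [g1]) (g2.symm.trans c)
  refine ⟨k, U', pr, lift, ⟨fun x => sheets_isOpen hf (hU.isOpen _) (h1 x) (h2 x),
    fun x => (hU.ne _).image _, fun e => ?_, fun S hS hS' => ?_⟩,
    fun x e he => ((hmem x e).1 he).1, ⟨fun x j h => ?_, fun x S hS hx => ?_, fun x => ?_,
      fun S hS => ?_, fun S hS x hx x' hx' => ?_, nerve_down U'⟩, h5⟩
  · obtain ⟨y, hy⟩ := hU.cover (f e)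
    obtain ⟨x, rfl, hx⟩ := h4 y e hy
    exact ⟨x, (hmem x e).2 ⟨hy, hx⟩⟩
  · obtain ⟨e, he⟩ := mem_nerve.1 hS'
    obtain ⟨x₀, hx₀⟩ := hS
    have hW : ∀ w, w ∈ (⋂ y ∈ S.image pr, U y) ↔ ∀ x ∈ S, w ∈ U (pr x) := fun w => by simp
    have := hU.contr (S.image pr) ⟨_, mem_image_of_mem pr hx₀⟩
      (mem_nerve.2 ⟨f e, by simpa using fun x hx => ((hmem x e).1 (he x hx)).1⟩)
    have hsub : (⋂ y ∈ S.image pr, U y) ⊆ U (pr x₀) := fun w hw => (hW w).1 hw x₀ hx₀
    have e1 : (⋂ x ∈ S, U' x) = sec x₀ '' (⋂ y ∈ S.image pr, U y) := by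
      ext e'
      rw [Set.mem_image, Set.mem_iInter₂]
      simp only [hW]
      constructor
      · exact fun h => ⟨f e', fun x hx => ((hmem x e').1 (h x hx)).1, ((hmem _ e').1 (h _ hx₀)).2⟩
      · rintro ⟨w, hw, rfl⟩ x hx
        obtain ⟨a, b⟩ := (hmem x e).1 (he x hx)
        obtain ⟨a', b'⟩ := (hmem x₀ e).1 (he x₀ hx₀)
        exact ⟨w, hw x hx, hag x x₀ (f e) w a a' (b.trans b'.symm) (hw x hx) (hw x₀ hx₀)⟩
    rw [e1]
    exact sheets_contr hf.continuous ((h1 x₀).mono hsub) fun w hw => h2 x₀ w (hsub hw)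
  · obtain ⟨z, hz⟩ := mem_nerve.1 h
    exact (hl x j z (hz _ (by simp)) (hz _ (by simp))).1
  · obtain ⟨z, hz⟩ := mem_nerve.1 hS
    refine mem_nerve.2 ⟨sec x z, fun x' hx' => ?_⟩
    obtain ⟨j, hj, rfl⟩ := mem_image.1 hx'
    obtain ⟨g1, g2⟩ := hl x j z (hz _ hx) (hz _ hj)
    exact ⟨z, by rw [g1]; exact hz _ hj, g2.symm⟩
  · obtain ⟨z, hz⟩ := hU.ne (pr x)
    exact hle x x z hz hz rfl
  · obtain ⟨e, he⟩ := mem_nerve.1 hS
    exact mem_nerve.2 ⟨f e, by simpa using fun x hx => ((hmem x e).1 (he x hx)).1⟩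
  · obtain ⟨e, he⟩ := mem_nerve.1 hS
    obtain ⟨a, b⟩ := (hmem x e).1 (he x hx)
    obtain ⟨a', b'⟩ := (hmem x' e).1 (he x' hx')
    exact hle x x' (f e) a a' (b.trans b'.symm)

end Pool.Agent.Work.MP_dd0bbc_gt
end

-- merged part: Pool.Agent.Work.MP_dd0bbc_gt.Transfer
section
/-! Transfer of the local models to simplicial coverings. -/

set_option autoImplicit false

namespace Pool.Agent.Work.MP_dd0bbc_gt

open Finset Matrix

variable {n : ℕ} {Y Y' : Type} [LinearOrder Y] [LinearOrder Y']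

section Cov

variable {K : Finset (Finset Y)} {K' : Finset (Finset Y')} {pr : Y' → Y} {lift : Y' → Y → Y'}

lemma IsCov.tr_injOn (h : IsCov K K' pr lift) {S : Finset Y'} (hS : S ∈ K') :
    Set.InjOn pr (S : Set Y') := by
  intro x hx x' hx' e
  rw [← h.lift_pr S hS x hx x' hx', ← e, h.lift_self]

lemma IsCov.tr_card (h : IsCov K K' pr lift) {S : Finset Y'} (hS : S ∈ K') :
    (S.image pr).card = S.card :=
  card_image_of_injOn (h.tr_injOn hS)

lemma IsCov.tr_image_erase (h : IsCov K K' pr lift) {S : Finset Y'} (hS : S ∈ K') {x : Y'}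
    (hx : x ∈ S) : (S.erase x).image pr = (S.image pr).erase (pr x) := by
  ext j
  simp only [mem_image, mem_erase]
  constructor
  · rintro ⟨y, ⟨hy, hyS⟩, rfl⟩
    exact ⟨fun e => hy (h.tr_injOn hS hyS hx e), y, hyS, rfl⟩
  · rintro ⟨hj, y, hy, rfl⟩
    exact ⟨y, ⟨fun e => hj (by rw [e]), hy⟩, rfl⟩

lemma IsCov.tr_sum {N : Type} [AddCommMonoid N] (h : IsCov K K' pr lift) {S : Finset Y'}
    (hS : S ∈ K') {x : Y'} (hx : x ∈ S) (f : Y → N) :
    ∑ j ∈ (S.image pr).erase (pr x), f j = ∑ j ∈ S.erase x, f (pr j) := by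
  rw [← h.tr_image_erase hS hx, sum_image]
  exact (h.tr_injOn hS).mono (by exact_mod_cast erase_subset _ _)

lemma IsCov.tr_pr_lift (h : IsCov K K' pr lift) (hK : ∀ S ∈ K, ∀ R, R ⊆ S → R ∈ K) {x : Y'}
    {S : Finset Y} (hS : S ∈ K) (hx : pr x ∈ S) : (S.image (lift x)).image pr = S := by
  rw [image_image]
  conv_rhs => rw [← image_id (s := S)]
  refine image_congr (fun j hj => h.pr_lift x j (hK S hS _ ?_))
  intro z hz
  simp only [mem_insert, mem_singleton] at hz
  rcases hz with e | e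
  · rw [e]; exact hx
  · rw [e]; exact hj

lemma IsCov.tr_lift_pr (h : IsCov K K' pr lift) {x : Y'} {S : Finset Y'} (hS : S ∈ K')
    (hx : x ∈ S) : (S.image pr).image (lift x) = S := by
  rw [image_image]
  conv_rhs => rw [← image_id (s := S)]
  exact image_congr (fun j hj => h.lift_pr S hS x hx j hj)

lemma IsCov.tr_self_mem (h : IsCov K K' pr lift) {x : Y'} {S : Finset Y} (hx : pr x ∈ S) :
    x ∈ S.image (lift x) :=
  mem_image.2 ⟨pr x, hx, h.lift_self x⟩

lemma IsCov.tr_posOff (h : IsCov K K' pr lift) {x : Y'} {σ τ : Finset Y'} (hσ : σ ∈ K')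
    (hx : x ∈ σ) (hτ : τ ⊆ σ) (p : Y → Fin n → ℝ) (w : Fin n → ℝ) :
    PosOff (fun j => p (pr j)) x σ τ w ↔ PosOff p (pr x) (σ.image pr) (τ.image pr) w := by
  constructor
  · rintro ⟨c, hc, hpos⟩
    refine ⟨fun j => c (lift x j), ?_, ?_⟩
    · rw [h.tr_sum hσ hx, hc]
      refine sum_congr rfl (fun j hj => ?_)
      beta_reduce
      rw [h.lift_pr σ hσ x hx j (mem_of_mem_erase hj)]
    · intro j hj
      obtain ⟨hj1, hj2⟩ := mem_sdiff.1 hj
      obtain ⟨y, hy, rfl⟩ := mem_image.1 hj1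
      beta_reduce
      rw [h.lift_pr σ hσ x hx y hy]
      exact hpos y (mem_sdiff.2 ⟨hy, fun hy' => hj2 (mem_image_of_mem _ hy')⟩)
  · rintro ⟨c, hc, hpos⟩
    refine ⟨fun j => c (pr j), ?_, ?_⟩
    · rw [hc, h.tr_sum hσ hx]
    · intro j hj
      obtain ⟨hj1, hj2⟩ := mem_sdiff.1 hj
      refine hpos _ (mem_sdiff.2 ⟨mem_image_of_mem _ hj1, fun hj' => ?_⟩)
      obtain ⟨y, hy, e⟩ := mem_image.1 hj'
      exact hj2 (h.tr_injOn hσ (hτ hy) hj1 e ▸ hy)

lemma IsCov.tr_star (h : IsCov K K' pr lift) (hK : ∀ S ∈ K, ∀ R, R ⊆ S → R ∈ K) {x : Y'}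
    {p : Y → Fin n → ℝ} (hs : Star K n p (pr x)) : Star K' n (fun j => p (pr j)) x := by
  intro w hw
  have hg : Gen K n p (pr x) w := by
    intro σ hσ hc hx c hcw j hj
    have h1 := h.lift_mem x σ hσ hx
    have h2 := h.tr_pr_lift hK hσ hx
    have h3 := h.tr_self_mem hx
    have h4 : (σ.image (lift x)).card = n + 1 := by rw [← h.tr_card h1, h2, hc]
    have h5 := hw _ h1 h4 h3 (fun j => c (pr j))
      (by rw [hcw, ← h.tr_sum h1 h3 (fun j => c j • p j), h2])
    rw [← h2, ← h.tr_image_erase h1 h3] at hj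
    obtain ⟨y, hy, rfl⟩ := mem_image.1 hj
    exact h5 y hy
  obtain ⟨val, hv1, hv2⟩ := hs w hg
  refine ⟨fun S => val (S.image pr), ?_, ?_⟩
  · intro τ hτ hx
    obtain ⟨σ, hσ, hc, hts, hpo⟩ := hv1 _ (h.pr_mem τ hτ) (mem_image_of_mem _ hx)
    have hxσ : pr x ∈ σ := hts (mem_image_of_mem _ hx)
    have h1 := h.lift_mem x σ hσ hxσ
    have h2 := h.tr_pr_lift hK hσ hxσ
    have h3 := h.tr_self_mem hxσ
    have h4 : (σ.image (lift x)).card = n + 1 := by rw [← h.tr_card h1, h2, hc]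
    have h5 : τ ⊆ σ.image (lift x) := by
      rw [← h.tr_lift_pr hτ hx]; exact image_subset_image hts
    refine ⟨_, h1, h4, h5, (h.tr_posOff h1 h3 h5 p w).2 ?_⟩
    rw [h2]; exact hpo
  · intro τ σ σ' hx hσ hc hts hpo hσ' hc' hts' hne
    refine hv2 (τ.image pr) _ _ (mem_image_of_mem _ hx) (h.pr_mem σ hσ)
      (by rw [h.tr_card hσ, hc]) (image_subset_image hts)
      ((h.tr_posOff hσ (hts hx) hts p w).1 hpo) (h.pr_mem σ' hσ') (by rw [h.tr_card hσ', hc'])
      (image_subset_image hts') (fun e => hne ?_)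
    rw [← h.tr_lift_pr hσ' (hts' hx), e, h.tr_lift_pr hσ (hts hx)]

end Cov

theorem Fan.exists_lift (D : Fan n Y) {K' : Finset (Finset Y')} {pr : Y' → Y}
    {lift : Y' → Y → Y'} (h : IsCov D.K K' pr lift) :
    ∃ D' : Fan n Y', D'.K = K' ∧ ∀ x x', D'.T x x' = D.T (pr x) (pr x') := by
  refine ⟨{ K := K'
            pos := fun x x' => D.pos (pr x) (pr x')
            T := fun x x' => D.T (pr x) (pr x')
            down := h.down
            sing := fun x => ?_
            card_le := fun S hS => ?_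
            pos_self := fun a => D.pos_self _
            T_self := fun a => D.T_self _
            T_mul := fun a b c habc => D.T_mul _ _ _ ?_
            indep := fun σ hσ hc a ha => ?_
            star := fun a => h.tr_star D.down (D.star (pr a))
            close := fun σ hσ hc a ha b hb c hcσ hcb => ?_ }, rfl, fun _ _ => rfl⟩
  · have := h.lift_mem x {pr x} (D.sing _) (mem_singleton_self _)
    rwa [image_singleton, h.lift_self] at this
  · rw [← h.tr_card hS]; exact D.card_le _ (h.pr_mem S hS)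
  · have := h.pr_mem _ habc
    rwa [image_insert, image_insert, image_singleton] at this
  · have h1 := D.indep _ (h.pr_mem σ hσ) (by rw [h.tr_card hσ, hc]) (pr a) (mem_image_of_mem _ ha)
    exact h1.comp (fun j : {j // j ∈ σ.erase a} =>
      (⟨pr j.1, by rw [← h.tr_image_erase hσ ha]; exact mem_image_of_mem _ j.2⟩ :
        {j // j ∈ (σ.image pr).erase (pr a)}))
      (fun j j' e => Subtype.ext (h.tr_injOn hσ (mem_of_mem_erase j.2) (mem_of_mem_erase j'.2)
        (congrArg Subtype.val e)))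
  · obtain ⟨t, ht, β, hβ, hb'⟩ := D.close _ (h.pr_mem σ hσ) (by rw [h.tr_card hσ, hc]) (pr a)
      (mem_image_of_mem _ ha) (pr b) (mem_image_of_mem _ hb) (pr c) (mem_image_of_mem _ hcσ)
      (fun e => hcb (h.tr_injOn hσ hcσ hb e))
    refine ⟨t, ht, fun j => β (pr j), ?_, fun j hj => ?_⟩
    · rw [hβ, h.tr_sum hσ ha]
    · have h1 := hb' (pr j) (by rw [← h.tr_image_erase hσ ha]; exact mem_image_of_mem _ hj)
      have e1 : pr j = pr c ↔ j = c :=
        ⟨fun e => h.tr_injOn hσ (mem_of_mem_erase hj) hcσ e, fun e => by rw [e]⟩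
      have e2 : pr j = pr b ↔ j = b :=
        ⟨fun e => h.tr_injOn hσ (mem_of_mem_erase hj) hb e, fun e => by rw [e]⟩
      simp only [e1, e2] at h1
      exact h1

omit [LinearOrder Y] in
lemma tr_comb_iff {G G' : Matrix (Fin n) (Fin n) ℝ} (hG : G * G' = 1) (p : Y → Fin n → ℝ)
    (S : Finset Y) (c : Y → ℝ) (w : Fin n → ℝ) :
    w = ∑ j ∈ S, c j • (G *ᵥ p j) ↔ G' *ᵥ w = ∑ j ∈ S, c j • p j := by
  have hG' : G' * G = 1 := mul_eq_one_comm.1 hG
  have e : ∑ j ∈ S, c j • (G *ᵥ p j) = G *ᵥ ∑ j ∈ S, c j • p j := by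
    rw [mulVec_sum]; simp only [mulVec_smul]
  rw [e]
  constructor
  · intro h
    rw [h, mulVec_mulVec, hG', one_mulVec]
  · intro h
    rw [← h, mulVec_mulVec, hG, one_mulVec]

lemma tr_star_gauge {K : Finset (Finset Y)} {G G' : Matrix (Fin n) (Fin n) ℝ} (hG : G * G' = 1)
    {p : Y → Fin n → ℝ} {a : Y} (hs : Star K n p a) : Star K n (fun j => G *ᵥ p j) a := by
  intro w hw
  have hg : Gen K n p a (G' *ᵥ w) := fun σ hσ hc ha c hcw =>
    hw σ hσ hc ha c ((tr_comb_iff hG p _ c w).2 hcw)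
  have hp : ∀ σ τ, PosOff (fun j => G *ᵥ p j) a σ τ w ↔ PosOff p a σ τ (G' *ᵥ w) := by
    intro σ τ
    unfold PosOff
    simp only [tr_comb_iff hG]
  obtain ⟨val, hv1, hv2⟩ := hs _ hg
  refine ⟨val, fun τ hτ ha => ?_, fun τ σ σ' ha hσ hc hts hpo => ?_⟩
  · obtain ⟨σ, h1, h2, h3, h4⟩ := hv1 τ hτ ha
    exact ⟨σ, h1, h2, h3, (hp σ τ).2 h4⟩
  · exact hv2 τ σ σ' ha hσ hc hts ((hp σ τ).1 hpo)

theorem Fan.exists_gauge (D : Fan n Y) (G G' : Y → Matrix (Fin n) (Fin n) ℝ)
    (hG : ∀ a, G a * G' a = 1) :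
    ∃ D' : Fan n Y, D'.K = D.K ∧ ∀ a b, D'.T a b = G a * D.T a b * G' b := by
  have hG' : ∀ a, G' a * G a = 1 := fun a => mul_eq_one_comm.1 (hG a)
  refine ⟨{ K := D.K
            pos := fun a j => G a *ᵥ D.pos a j
            T := fun a b => G a * D.T a b * G' b
            down := D.down
            sing := D.sing
            card_le := D.card_le
            pos_self := fun a => by rw [D.pos_self, mulVec_zero]
            T_self := fun a => by rw [D.T_self, mul_one, hG]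
            T_mul := fun a b c habc => ?_
            indep := fun σ hσ hc a ha => ?_
            star := fun a => tr_star_gauge (hG a) (D.star a)
            close := fun σ hσ hc a ha b hb c hcσ hcb => ?_ }, rfl, fun _ _ => rfl⟩
  · rw [← D.T_mul a b c habc]
    calc G a * D.T a b * G' b * (G b * D.T b c * G' c)
        = G a * D.T a b * (G' b * G b) * D.T b c * G' c := by simp only [mul_assoc]
      _ = _ := by rw [hG', mul_one]; simp only [mul_assoc]
  · refine (D.indep σ hσ hc a ha).map' (Matrix.mulVecLin (G a)) ?_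
    rw [LinearMap.ker_eq_bot']
    intro v hv
    have : G' a *ᵥ (G a *ᵥ v) = 0 := by
      rw [show G a *ᵥ v = 0 from hv, mulVec_zero]
    rwa [mulVec_mulVec, hG', one_mulVec] at this
  · obtain ⟨t, ht, β, hβ, hb'⟩ := D.close σ hσ hc a ha b hb c hcσ hcb
    refine ⟨t, ht, β, ?_, hb'⟩
    rw [tr_comb_iff (hG a), ← hβ, mulVec_smul, mulVec_mulVec, mulVec_mulVec]
    congr 2
    calc G' a * (G a * D.T a b * G' b) * G b
        = (G' a * G a) * D.T a b * (G' b * G b) := by simp only [mul_assoc]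
      _ = _ := by rw [hG', hG', one_mul, mul_one]

theorem Fan.exists_normalised (D : Fan n Y) (hn : 1 ≤ n) :
    ∃ D' : Fan n Y, D'.K = D.K ∧
      ∀ a b, {a, b} ∈ D.K → (D'.T a b).det = 1 ∨ (D'.T a b).det = -1 := by
  have hne : ∀ a b, {a, b} ∈ D.K → (D.T a b).det ≠ 0 := by
    intro a b hab
    have h1 : ({a, b, a} : Finset Y) ∈ D.K := D.down _ hab _ (by
      intro z hz
      simp only [mem_insert, mem_singleton] at hz ⊢
      tauto)
    have h2 := congrArg Matrix.det (D.T_mul a b a h1)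
    rw [det_mul, D.T_self, det_one] at h2
    exact left_ne_zero_of_mul_eq_one h2
  let s : Y → Y → ℝ := fun a b => |(D.T a b).det| ^ (-(1 / (n : ℝ)))
  have hs : ∀ a b, {a, b} ∈ D.K → 0 < s a b := fun a b hab =>
    Real.rpow_pos_of_pos (abs_pos.2 (hne a b hab)) _
  refine ⟨{ K := D.K
            pos := D.pos
            T := fun a b => s a b • D.T a b
            down := D.down
            sing := D.sing
            card_le := D.card_le
            pos_self := D.pos_self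
            T_self := fun a => by simp [s, D.T_self]
            T_mul := fun a b c habc => ?_
            indep := D.indep
            star := D.star
            close := fun σ hσ hc a ha b hb c hcσ hcb => ?_ }, rfl, fun a b hab => ?_⟩
  · have e : s a c = s a b * s b c := by
      simp only [s]
      rw [← D.T_mul a b c habc, det_mul, abs_mul, Real.mul_rpow (abs_nonneg _) (abs_nonneg _)]
    rw [smul_mul_smul_comm, D.T_mul a b c habc, e]
  · obtain ⟨t, ht, β, hβ, hb'⟩ := D.close σ hσ hc a ha b hb c hcσ hcb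
    have hab : ({a, b} : Finset Y) ∈ D.K := D.down σ hσ _ (by
      intro z hz
      simp only [mem_insert, mem_singleton] at hz
      rcases hz with e | e
      · rw [e]; exact ha
      · rw [e]; exact hb)
    have h0 := hs a b hab
    refine ⟨t / s a b, div_pos ht h0, β, ?_, hb'⟩
    rw [← hβ, smul_mulVec, smul_smul, div_mul_cancel₀ _ h0.ne']
  · have h0 := hne a b hab
    have hn' : (n : ℝ) ≠ 0 := by positivity
    have e : s a b ^ n = |(D.T a b).det|⁻¹ := by
      simp only [s]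
      rw [← Real.rpow_natCast, ← Real.rpow_mul (abs_nonneg _), neg_mul, one_div,
        inv_mul_cancel₀ hn', Real.rpow_neg_one]
    show (s a b • D.T a b).det = 1 ∨ (s a b • D.T a b).det = -1
    rw [det_smul, Fintype.card_fin, e]
    rcases lt_or_gt_of_ne h0 with hl | hl
    · right; rw [abs_of_neg hl]; field_simp
    · left; rw [abs_of_pos hl]; field_simp

end Pool.Agent.Work.MP_dd0bbc_gt
end

-- merged part: Pool.Agent.Work.MP_dd0bbc_gt.Bundle
section
/-! The finite covering defined by a cocycle; counting faces of a simplicial covering. -/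

set_option autoImplicit false

namespace Pool.Agent.Work.MP_dd0bbc_gt

open Finset

theorem exists_principal {M Y G : Type} [TopologicalSpace M] [Group G] [Finite G]
    (U : Y → Set M) (hU : ∀ y, IsOpen (U y)) (hc : ∀ x, ∃ y, x ∈ U y) (t : Y → Y → G)
    (ht : ∀ a b c, (U a ∩ U b ∩ U c).Nonempty → t a b * t b c = t a c) :
    ∃ (M₀ : Type) (_ : TopologicalSpace M₀) (p : M₀ → M), IsCoveringMap p ∧
      Function.Surjective p ∧ (∀ x, (p ⁻¹' {x}).Finite) ∧
      ∀ (M₁ Y₁ : Type) [TopologicalSpace M₁] (q : M₁ → M₀) (U₁ : Y₁ → Set M₁) (pr : Y₁ → Y),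
        Continuous q → (∀ x, IsPreconnected (U₁ x)) →
        (∀ x, Set.MapsTo (p ∘ q) (U₁ x) (U (pr x))) →
        ∃ g : Y₁ → G, ∀ x x', (U₁ x ∩ U₁ x').Nonempty → g x' = g x * t (pr x) (pr x') := by
  let _ : TopologicalSpace G := ⊥
  have : DiscreteTopology G := ⟨rfl⟩
  choose ix hix using hc
  let Z : FiberBundleCore Y M G :=
    { baseSet := U
      isOpen_baseSet := hU
      indexAt := ix
      mem_baseSet_at := hix
      coordChange := fun i j _ g => g * t i j
      coordChange_self := fun i x hx v => by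
        have := ht i i i ⟨x, ⟨hx, hx⟩, hx⟩
        rw [mul_eq_left.1 this, mul_one]
      continuousOn_coordChange := fun i j =>
        ((continuous_of_discreteTopology (f := fun g : G => g * t i j)).comp
          continuous_snd).continuousOn
      coordChange_comp := fun i j k x hx v => by rw [mul_assoc, ht i j k ⟨x, hx⟩] }
  refine ⟨Z.TotalSpace, inferInstance, Z.proj,
    IsFiberBundle.isCoveringMap fun x => ⟨Z.localTriv (ix x), hix x⟩,
    fun x => ⟨⟨x, (1 : G)⟩, rfl⟩, fun x => ?_, fun M₁ Y₁ _ q U₁ pr hq hU₁ hm => ?_⟩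
  · refine (Set.finite_range fun g : G => (⟨x, g⟩ : Z.TotalSpace)).subset ?_
    rintro ⟨b, g⟩ rfl
    exact ⟨g, rfl⟩
  · have hcont : ∀ x, ContinuousOn (fun z => (Z.localTriv (pr x) (q z)).2) (U₁ x) := fun x =>
      continuous_snd.comp_continuousOn
        ((Z.localTriv (pr x)).continuousOn.comp hq.continuousOn fun z hz => hm x hz)
    have hg : ∀ x, ∃ g : G, ∀ z ∈ U₁ x, (Z.localTriv (pr x) (q z)).2 = g := fun x => by
      rcases (U₁ x).eq_empty_or_nonempty with e | ⟨z, hz⟩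
      · exact ⟨1, by simp [e]⟩
      · exact ⟨_, fun w hw => (hU₁ x).constant (hcont x) hw hz⟩
    choose g hg using hg
    refine ⟨g, fun x x' ⟨z, hz, hz'⟩ => ?_⟩
    rw [← hg x z hz, ← hg x' z hz']
    exact (Z.coordChange_comp (ix (q z).1) (pr x) (pr x') (q z).1
      ⟨⟨hix _, hm x hz⟩, hm x' hz'⟩ (q z).2).symm

variable {Y Y' : Type} [LinearOrder Y] [LinearOrder Y'] [Fintype Y] [Fintype Y']

theorem double_count_bundle (F : Finset (Finset Y)) (m : ℕ) (h : ∀ S ∈ F, S.card = m) :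
    ∑ x, (F.filter (x ∈ ·)).card = F.card * m := by
  simp only [card_filter]
  rw [sum_comm, ← smul_eq_mul, ← sum_const]
  refine sum_congr rfl fun S hS => ?_
  rw [← card_filter]
  simp [h S hS]

theorem IsCov.fn_eq {K : Finset (Finset Y)} {K' : Finset (Finset Y')} {pr : Y' → Y}
    {lift : Y' → Y → Y'} (h : IsCov K K' pr lift) (hK : ∀ S ∈ K, ∀ T, T ⊆ S → T ∈ K) {d : ℕ}
    (hd : ∀ y, (univ.filter (fun x => pr x = y)).card = d) (k : ℕ) :
    fn K' k = d * fn K k := by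
  have hb : ∀ x, ((K'.filter (·.card = k + 1)).filter (x ∈ ·)).card =
      ((K.filter (·.card = k + 1)).filter (pr x ∈ ·)).card := fun x => by
    have h1 : ∀ S ∈ K, pr x ∈ S → ∀ j ∈ S, pr (lift x j) = j := fun S hS hx j hj =>
      h.pr_lift x j (hK S hS _ (insert_subset hx (singleton_subset_iff.2 hj)))
    refine card_nbij' (fun S => S.image pr) (fun S => S.image (lift x)) (fun S hS => ?_)
      (fun S hS => ?_) (fun S hS => ?_) fun S hS => ?_
    all_goals simp only [coe_filter, mem_filter, Set.mem_ofPred_eq] at hS ⊢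
    · refine ⟨⟨h.pr_mem S hS.1.1, ?_⟩, mem_image_of_mem _ hS.2⟩
      rw [card_image_of_injOn fun a ha b hb e => ?_, hS.1.2]
      rw [← h.lift_pr S hS.1.1 x hS.2 a ha, e, h.lift_pr S hS.1.1 x hS.2 b hb]
    · refine ⟨⟨h.lift_mem x S hS.1.1 hS.2, ?_⟩, mem_image.2 ⟨_, hS.2, h.lift_self x⟩⟩
      rw [card_image_of_injOn fun a ha b hb e => ?_, hS.1.2]
      rw [← h1 S hS.1.1 hS.2 a ha, e, h1 S hS.1.1 hS.2 b hb]
    · rw [image_image]
      exact (image_congr (g := id) fun a ha => h.lift_pr S hS.1.1 x hS.2 a ha).trans image_id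
    · rw [image_image]
      exact (image_congr (g := id) fun a ha => h1 S hS.1.1 hS.2 a ha).trans image_id
  have e1 := double_count_bundle (K'.filter (·.card = k + 1)) (k + 1) fun S hS =>
    (mem_filter.1 hS).2
  have e2 := double_count_bundle (K.filter (·.card = k + 1)) (k + 1) fun S hS =>
    (mem_filter.1 hS).2
  rw [sum_congr rfl fun x _ => hb x, ← sum_fiberwise' univ pr
    fun y => ((K.filter (·.card = k + 1)).filter (y ∈ ·)).card] at e1
  simp only [sum_const, hd, smul_eq_mul, ← mul_sum, e2] at e1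
  exact Nat.eq_of_mul_eq_mul_right (Nat.succ_pos k) (e1.symm.trans (mul_assoc _ _ _).symm)

theorem IsCov.chi_eq {K : Finset (Finset Y)} {K' : Finset (Finset Y')} {pr : Y' → Y}
    {lift : Y' → Y → Y'} (h : IsCov K K' pr lift) (hK : ∀ S ∈ K, ∀ T, T ⊆ S → T ∈ K) {d : ℕ}
    (hd : ∀ y, (univ.filter (fun x => pr x = y)).card = d) (n : ℕ) :
    chi K' n = d * chi K n := by
  simp only [chi, h.fn_eq hK hd, mul_sum]
  exact sum_congr rfl fun k _ => by push_cast; ring

end Pool.Agent.Work.MP_dd0bbc_gt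
end

-- merged part: Pool.Agent.Work.MP_dd0bbc_gt.Ineq
section
/-! The inequality on finite coverings. -/

set_option autoImplicit false

namespace Pool.Agent.Work.MP_dd0bbc_gt

open Finset Matrix

/-- A diagonal matrix of determinant `s`. -/
def dg (R : Type) [CommRing R] {n : ℕ} (i₀ : Fin n) (s : ℤˣ) : Matrix (Fin n) (Fin n) R :=
  diagonal (fun i => if i = i₀ then ((s : ℤ) : R) else 1)

lemma dg_mul_self (R : Type) [CommRing R] {n : ℕ} (i₀ : Fin n) (s : ℤˣ) :
    dg R i₀ s * dg R i₀ s = 1 := by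
  rw [dg, diagonal_mul_diagonal, ← diagonal_one]
  congr 1; ext i
  split_ifs
  · rw [← Int.cast_mul, ← Units.val_mul, Int.units_mul_self]; simp
  · simp

lemma det_dg (R : Type) [CommRing R] {n : ℕ} (i₀ : Fin n) (s : ℤˣ) :
    (dg R i₀ s).det = ((s : ℤ) : R) := by
  rw [dg, det_diagonal, prod_ite_eq']; simp

lemma dg_map {R S : Type} [CommRing R] [CommRing S] (φ : R →+* S) {n : ℕ} (i₀ : Fin n) (s : ℤˣ) :
    (dg R i₀ s).map φ = dg S i₀ s := by
  rw [dg, dg, diagonal_map (map_zero φ)]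
  congr 1; ext i; split_ifs <;> simp

lemma pair_mem {Y : Type} [LinearOrder Y] {K : Finset (Finset Y)}
    (hK : ∀ S ∈ K, ∀ T, T ⊆ S → T ∈ K) {S : Finset Y} (hS : S ∈ K) {a b : Y} (ha : a ∈ S)
    (hb : b ∈ S) : {a, b} ∈ K :=
  hK S hS _ (by intro x hx; rcases mem_insert.1 hx with e | e; exacts [e ▸ ha, mem_singleton.1 e ▸ hb])

/-- The combinatorial inequality on a complex whose holonomy is trivial modulo `p`. -/
theorem ineq_modp {m : ℕ} (hm : 1 ≤ m) {Y : Type} [Fintype Y] [LinearOrder Y] [Nonempty Y]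
    (D : Fan (2 * m) Y) {F : Type} [Field F] {p : ℕ} [CharP F p] (hp : p.Prime) (A : Subring ℝ)
    (φ : A →+* F) (TA : Y → Y → Matrix (Fin (2 * m)) (Fin (2 * m)) A)
    (hT : ∀ a b, (TA a b).map A.subtype = D.T a b)
    (g : Y → (Matrix (Fin (2 * m)) (Fin (2 * m)) F)ˣ) (s : Y → ℤˣ)
    (hg : ∀ a b, {a, b} ∈ D.K → (g b).val = (g a).val * (TA a b).map φ)
    (hs : ∀ a b, {a, b} ∈ D.K → (D.T a b).det = ((s a * s b : ℤˣ) : ℤ)) (L : ℕ)
    (hL : (m + 3) ^ L ≤ p) (b : ℕ → ℕ)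
    (hb : ∀ j, b j + rkb ℚ D.K j + rkb ℚ D.K (j + 1) = fn D.K j) :
    (L : ℝ) * (4 ^ m * |(chi D.K (2 * m) : ℝ)|) ≤ L * ((2 * m).choose m * (b m + b (m + 1))) +
      (2 * m).choose m * (fn D.K m + 2 * fn D.K (m + 1) + fn D.K (m + 2)) := by
  classical
  let i₀ : Fin (2 * m) := ⟨0, by omega⟩
  obtain ⟨D', hK, hT'⟩ := D.exists_gauge (fun a => dg ℝ i₀ (s a)) (fun a => dg ℝ i₀ (s a))
    (fun a => dg_mul_self _ _ _)
  have hD : D'.Det1 := by
    intro a b h
    rw [hK] at h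
    rw [hT', det_mul, det_mul, det_dg, det_dg, hs a b h]
    have h1 := Int.units_mul_self (s a)
    have h2 := Int.units_mul_self (s b)
    rw [← Int.cast_mul, ← Int.cast_mul, ← Units.val_mul, ← Units.val_mul, ← mul_assoc, h1,
      one_mul, h2]
    simp
  let bs : Finset Y → Y := fun S => if h : S.Nonempty then S.min' h else Classical.arbitrary Y
  have hbs : ∀ S : Finset Y, S.Nonempty → bs S ∈ S := fun S h => by
    simp only [bs, dif_pos h]; exact min'_mem _ _
  have hc := core hm D' hD hbs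
  let UA : Y → Y → Matrix (Idx (2 * m) m) (Idx (2 * m) m) A :=
    fun a b => cmp m (dg A i₀ (s a) * TA a b * dg A i₀ (s b))
  have hU : (fun a b => cmp m (D'.T a b)) = fun a b => (UA a b).map A.subtype := by
    ext1 a; ext1 b
    rw [hT', ← cmp_map, Matrix.map_mul, Matrix.map_mul, dg_map, dg_map, hT]
  have hr := fun (k : ℕ) (hk : k ≤ m + 1) => rank_tw_ge hp A φ D.down hbs UA
    (fun a => cmp m ((g a).val * dg F i₀ (s a))) (fun a => cmp m (dg F i₀ (s a) * (g a)⁻¹.val))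
    (fun a => by
      rw [← cmp_mul, mul_assoc, ← mul_assoc (dg F i₀ _), dg_mul_self, one_mul, Units.mul_inv,
        cmp_one])
    (fun a b h => by
      rw [← cmp_mul, ← cmp_map, Matrix.map_mul, Matrix.map_mul, dg_map, dg_map, hg a b h]
      simp only [mul_assoc]
      rw [← mul_assoc (g a)⁻¹.val, Units.inv_mul, one_mul])
    k L ((Nat.pow_le_pow_left (by omega) L).trans hL)
  rw [hK, hU] at hc
  obtain ⟨m', rfl⟩ : ∃ m', m = m' + 1 := ⟨m - 1, by omega⟩
  have h1 := hr m' (by omega)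
  have h2 := hr (m' + 1) (by omega)
  have h3 := hr (m' + 1 + 1) le_rfl
  have e1 := hb (m' + 1)
  have e2 := hb (m' + 1 + 1)
  rw [card_Idx] at h1 h2 h3
  simp only [rkb] at e1 e2
  rw [Nat.add_sub_cancel] at hc
  have h1' := (Nat.cast_le (α := ℝ)).2 h1
  have h2' := (Nat.cast_le (α := ℝ)).2 h2
  have h3' := (Nat.cast_le (α := ℝ)).2 h3
  have e1' := congrArg (Nat.cast : ℕ → ℝ) e1
  have e2' := congrArg (Nat.cast : ℕ → ℝ) e2
  push_cast at h1' h2' h3' e1' e2'
  have hc' := mul_le_mul_of_nonneg_left hc (Nat.cast_nonneg (α := ℝ) L)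
  rw [← e1', ← e2'] at hc'
  nlinarith only [hc', h1', h2', h3']

theorem ineq_cover {m : ℕ} (hm : 1 ≤ m) {M : Type} [TopologicalSpace M] [Nonempty M]
    [LocallyPathConnectedSpace M] {Y : Type} [Fintype Y] [LinearOrder Y] {U : Y → Set M}
    (hU : GoodCover U) (D : Fan (2 * m) Y) (hK : D.K = nerve U) (L : ℕ) :
    ∃ (M₀ : Type) (_ : TopologicalSpace M₀) (p : M₀ → M), IsCoveringMap p ∧
      Function.Surjective p ∧ (∀ x, (p ⁻¹' {x}).Finite) ∧
      ∀ (M₁ : Type) [TopologicalSpace M₁] (q : M₁ → M₀) (d : ℕ), 0 < d → Continuous q →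
        IsCoveringMap (p ∘ q) → (∀ x, ((p ∘ q) ⁻¹' {x}).ncard = d) →
        (L : ℝ) * (4 ^ m * (d * |(chi D.K (2 * m) : ℝ)|)) ≤
          L * ((2 * m).choose m * (betti M₁ m + betti M₁ (m + 1))) +
            (2 * m).choose m * (d * (fn D.K m + 2 * fn D.K (m + 1) + fn D.K (m + 2))) ∧
        ∑ j ∈ range (2 * m + 1), (-1 : ℤ) ^ j * (betti M₁ j : ℤ) = d * chi D.K (2 * m) := by
  classical
  obtain ⟨D₁, hK₁, hdet⟩ := D.exists_normalised (by omega)
  obtain ⟨A, F, _, _, p, _, φ, hp, hP, hA⟩ := exists_residue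
    (univ.image (fun x : Y × Y × Fin (2 * m) × Fin (2 * m) => D₁.T x.1 x.2.1 x.2.2.1 x.2.2.2))
    ((m + 3) ^ L)
  let TA : Y → Y → Matrix (Fin (2 * m)) (Fin (2 * m)) A := fun a b i j =>
    ⟨D₁.T a b i j, hA _ (mem_image.2 ⟨(a, b, i, j), mem_univ _, rfl⟩)⟩
  have hT : ∀ a b, (TA a b).map A.subtype = D₁.T a b := fun a b => rfl
  have hinj : Function.Injective
      (fun N : Matrix (Fin (2 * m)) (Fin (2 * m)) A => N.map A.subtype) :=
    Matrix.map_injective Subtype.val_injective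
  have hmul : ∀ a b c, {a, b, c} ∈ D.K → (TA a b).map φ * (TA b c).map φ = (TA a c).map φ := by
    intro a b c h
    rw [← Matrix.map_mul]
    congr 1
    apply hinj
    beta_reduce
    rw [Matrix.map_mul, hT, hT, hT, D₁.T_mul a b c (hK₁ ▸ h)]
  have hone : ∀ a, (TA a a).map φ = 1 := by
    intro a
    have : TA a a = 1 := hinj (by
      beta_reduce
      rw [hT, D₁.T_self, Matrix.map_one _ (map_zero _) (map_one _)])
    rw [this, Matrix.map_one _ (map_zero _) (map_one _)]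
  have hinv : ∀ a b, {a, b} ∈ D.K → (TA a b).map φ * (TA b a).map φ = 1 := by
    intro a b h
    rw [hmul a b a (D.down _ h _ (by intro x; simp; tauto)), hone]
  let sg : Y → Y → ℤˣ := fun a b => if (D₁.T a b).det = 1 then 1 else -1
  have hsg : ∀ a b, {a, b} ∈ D.K → (D₁.T a b).det = ((sg a b : ℤˣ) : ℤ) := by
    intro a b h
    rcases hdet a b h with e | e
    · simp [sg, e]
    · have : (-1 : ℝ) ≠ 1 := by norm_num
      simp [sg, e, this]
  let t : Y → Y → (Matrix (Fin (2 * m)) (Fin (2 * m)) F)ˣ × ℤˣ := fun a b =>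
    if h : {a, b} ∈ D.K then
      (⟨(TA a b).map φ, (TA b a).map φ, hinv a b h, hinv b a (pair_comm a b ▸ h)⟩, sg a b) else 1
  have ht : ∀ a b c, (U a ∩ U b ∩ U c).Nonempty → t a b * t b c = t a c := by
    rintro a b c ⟨x, ⟨hxa, hxb⟩, hxc⟩
    have h : ({a, b, c} : Finset Y) ∈ D.K := by
      rw [hK, mem_nerve]
      refine ⟨x, fun y hy => ?_⟩
      simp only [mem_insert, mem_singleton] at hy
      rcases hy with e | e | e <;> rwa [e]
    have hab := pair_mem D.down h (a := a) (b := b) (by simp) (by simp)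
    have hbc := pair_mem D.down h (a := b) (b := c) (by simp) (by simp)
    have hac := pair_mem D.down h (a := a) (b := c) (by simp) (by simp)
    simp only [t, dif_pos hab, dif_pos hbc, dif_pos hac, Prod.mk_mul_mk]
    refine Prod.ext (Units.ext (hmul a b c h)) ?_
    have e := congrArg Matrix.det (D₁.T_mul a b c (hK₁ ▸ h))
    rw [det_mul, hsg a b hab, hsg b c hbc, hsg a c hac] at e
    exact Units.ext (by exact_mod_cast e)
  obtain ⟨M₀, _, p₀, h1, h2, h3, h4⟩ := exists_principal U hU.isOpen hU.cover t ht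
  refine ⟨M₀, inferInstance, p₀, h1, h2, h3, fun M₁ _ q d hd hq hc hfd => ?_⟩
  obtain ⟨k, U', pr, lift, hU', hmaps, hcov, hcard⟩ := exists_sheets hU hc hd hfd
  have hpc : ∀ x, IsPreconnected (U' x) := by
    intro x
    have := hU'.contr {x} (singleton_nonempty x) (mem_nerve.2 (by simpa [Set.Nonempty] using hU'.ne x))
    have e : (⋂ y ∈ ({x} : Finset (Fin k)), U' y) = U' x := by simp
    rw [e] at this
    exact isPreconnected_iff_preconnectedSpace.2 inferInstance
  obtain ⟨g, hg⟩ := h4 M₁ (Fin k) q U' pr hq hpc hmaps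
  rw [← hK, ← hK₁] at hcov
  obtain ⟨D₂, hK₂, hT₂⟩ := D₁.exists_lift hcov
  have hne : Nonempty (Fin k) := by
    obtain ⟨x⟩ := ‹Nonempty M›
    obtain ⟨z, -⟩ := Set.nonempty_of_ncard_ne_zero (s := (p₀ ∘ q) ⁻¹' {x}) (by rw [hfd]; omega)
    exact ⟨(hU'.cover z).choose⟩
  have hb : ∀ j, betti M₁ j + rkb ℚ D₂.K j + rkb ℚ D₂.K (j + 1) = fn D₂.K j := by
    rw [hK₂]; exact nerve_theorem hU'
  have hedge : ∀ a b, {a, b} ∈ D₂.K → {pr a, pr b} ∈ D.K ∧ g b = g a * t (pr a) (pr b) := by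
    intro a b h
    rw [hK₂] at h
    refine ⟨by simpa [hK₁] using hcov.pr_mem _ h, hg a b ?_⟩
    obtain ⟨z, hz⟩ := mem_nerve.1 h
    exact ⟨z, hz a (by simp), hz b (by simp)⟩
  have hi := ineq_modp hm D₂ hp A φ (fun a b => TA (pr a) (pr b)) (fun a b => by rw [hT, hT₂])
    (fun a => (g a).1) (fun a => (g a).2)
    (fun a b h => by
      obtain ⟨e1, e2⟩ := hedge a b h
      rw [e2]; simp only [t, dif_pos e1]; rfl)
    (fun a b h => by
      obtain ⟨e1, e2⟩ := hedge a b h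
      rw [hT₂, hsg _ _ e1, e2]
      simp only [t, dif_pos e1, Prod.snd_mul]
      rw [← mul_assoc, Int.units_mul_self, one_mul])
    L hP.le (betti M₁) hb
  have hχ := chi_eq D₂.card_le (betti M₁) hb
  have hf := hcov.fn_eq D₁.down hcard
  have hχ' := hcov.chi_eq D₁.down hcard (2 * m)
  rw [hK₁] at hf hχ'
  rw [hK₂] at hi hχ
  rw [hχ', hf, hf, hf] at hi
  refine ⟨?_, hχ.trans hχ'⟩
  push_cast at hi
  rw [abs_mul, Nat.abs_cast] at hi
  linarith only [hi]

end Pool.Agent.Work.MP_dd0bbc_gt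
end

-- merged part: Pool.Agent.Work.MP_dd0bbc_gt.GeoFrame
section
/-! Flat frames of an embedded manifold. -/

set_option autoImplicit false
open scoped Manifold ContDiff

namespace Pool.Agent.Work.MP_dd0bbc_gt

open Set Metric Topology Filter

lemma gf_pos_le {A : Type} [Finite A] (f : A → ℝ) (hf : ∀ a, 0 < f a) :
    ∃ r, 0 < r ∧ ∀ a, r ≤ f a := by
  rcases isEmpty_or_nonempty A with h | h
  · exact ⟨1, one_pos, fun a => h.elim a⟩
  · obtain ⟨a, ha⟩ := Finite.exists_min f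
    exact ⟨f a, hf a, ha⟩

/-- A locally constant function is uniformly locally constant near a compact set. -/
lemma gf_unif_const {M α : Type} [MetricSpace M] {K : Set M} (hK : IsCompact K) (f : M → α)
    (h : ∀ x ∈ K, ∀ᶠ y in 𝓝 x, f y = f x) :
    ∃ r, 0 < r ∧ ∀ x ∈ K, ∀ y, dist y x < r → f y = f x := by
  obtain ⟨r, hr, h1⟩ := lebesgue_number_lemma_of_metric (c := fun i : K => interior {y | f y = f i})
    hK (fun _ => isOpen_interior) fun x hx =>
      mem_iUnion.2 ⟨⟨x, hx⟩, mem_interior_iff_mem_nhds.2 (h x hx)⟩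
  refine ⟨r, hr, fun x hx y hy => ?_⟩
  obtain ⟨i, hi⟩ := h1 x hx
  exact (interior_subset (hi hy)).trans (interior_subset (hi (mem_ball_self hr))).symm

/-- A finite family of compact sets subordinate to an open cover, with a Lebesgue number. -/
lemma gf_cover {M ι : Type} [MetricSpace M] [CompactSpace M] (W : ι → Set M)
    (hW : ∀ i, IsOpen (W i)) (hc : ∀ x, ∃ i, x ∈ W i) :
    ∃ (A : Type) (_ : Finite A) (K : A → Set M) (j : A → ι) (idx : M → A) (R : ℝ), 0 < R ∧
      (∀ a, IsCompact (K a)) ∧ (∀ a, K a ⊆ W (j a)) ∧ ∀ p q, dist q p < R → q ∈ K (idx p) := by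
  obtain ⟨r, hr, h1⟩ := lebesgue_number_lemma_of_metric isCompact_univ hW
    fun x _ => mem_iUnion.2 (hc x)
  choose j hj using fun x => h1 x (mem_univ x)
  obtain ⟨t, -, ht, h2⟩ := finite_cover_balls_of_compact (isCompact_univ (X := M))
    (show 0 < r / 4 by positivity)
  have h3 : ∀ p, ∃ a : t, p ∈ ball a.1 (r / 4) := fun p => by
    obtain ⟨a, ha, hp⟩ := mem_iUnion₂.1 (h2 (mem_univ p))
    exact ⟨⟨a, ha⟩, hp⟩
  choose idx hidx using h3
  refine ⟨t, ht, fun a => closedBall a.1 (r / 2), fun a => j a.1, idx, r / 4, by positivity,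
    fun a => isClosed_closedBall.isCompact,
    fun a => (closedBall_subset_ball (by linarith)).trans (hj a.1), fun p q h => ?_⟩
  have h4 := mem_ball.1 (hidx p)
  have h5 := dist_triangle q p (idx p).1
  exact mem_closedBall.2 (by linarith only [h, h4, h5])

section Abstract

variable {E F : Type} [NormedAddCommGroup E] [NormedSpace ℝ E] [FiniteDimensional ℝ E]
  [NormedAddCommGroup F] [NormedSpace ℝ F]

lemma gf_lower {M : Type} [TopologicalSpace M] {K : Set M} (hK : IsCompact K)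
    {B : M → E →L[ℝ] F} (hB : ContinuousOn B K) (hi : ∀ z ∈ K, Function.Injective (B z)) :
    ∃ c, 0 < c ∧ ∀ z ∈ K, ∀ u, c * ‖u‖ ≤ ‖B z u‖ := by
  have h1 : ContinuousOn (fun x : M × E => ‖B x.1 x.2‖) (K ×ˢ sphere 0 1) :=
    ((hB.comp continuousOn_fst fun x hx => hx.1).clm_apply continuousOn_snd).norm
  obtain ⟨c, hc, h2⟩ := (hK.prod (isCompact_sphere (0 : E) 1)).exists_forall_le' h1 (a := 0)
    fun x hx => norm_pos_iff.2 fun h0 => by
      have h3 : x.2 = 0 := hi x.1 hx.1 (h0.trans (map_zero _).symm)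
      have h4 := hx.2
      rw [h3] at h4
      simp at h4
  refine ⟨c, hc, fun z hz u => ?_⟩
  rcases eq_or_ne u 0 with rfl | hu
  · simp
  · have h3 := norm_pos_iff.2 hu
    have h4 := h2 (z, ‖u‖⁻¹ • u) ⟨hz, by simp [norm_smul, h3.ne']⟩
    simp only [map_smul, norm_smul, norm_inv, norm_norm] at h4
    rwa [le_inv_mul_iff₀ h3, mul_comm] at h4

theorem gf_abstract {M ι : Type} [MetricSpace M] [CompactSpace M] (W : ι → Set M)
    (hW : ∀ i, IsOpen (W i)) (hc : ∀ x, ∃ i, x ∈ W i) (Bf : ι → M → E →L[ℝ] F)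
    (Tr : ι → ι → M → E →L[ℝ] E) (cont : ∀ i, ContinuousOn (Bf i) (W i))
    (inj : ∀ i, ∀ z ∈ W i, Function.Injective (Bf i z))
    (chg : ∀ i j, ∀ z ∈ W i, ∀ u, Bf i z (Tr i j z u) = Bf j z u)
    (loc : ∀ i j, ∀ x ∈ W i ∩ W j, ∀ᶠ y in 𝓝 x, Tr i j y = Tr i j x) :
    ∃ (idx : M → ι) (T : M → M → E →L[ℝ] E) (c C : ℝ), (∀ p, p ∈ W (idx p)) ∧
      0 < c ∧ (∀ p u, c * ‖u‖ ≤ ‖Bf (idx p) p u‖) ∧ (∀ p, ‖Bf (idx p) p‖ ≤ C) ∧
      (∀ p u, T p p u = u) ∧
      ∀ δ : ℝ, 0 < δ → ∃ r : ℝ, 0 < r ∧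
        (∀ p q s, dist p q < r → dist q s < r → dist p s < r →
          ∀ u, T p q (T q s u) = T p s u) ∧
        (∀ p q, dist p q < r → ∀ u, ‖Bf (idx q) q u - Bf (idx p) p (T p q u)‖ ≤ δ * ‖u‖) := by
  obtain ⟨A, _, K, j, idx, R, hR, hK, hKW, hidx⟩ := gf_cover W hW hc
  have self : ∀ p, p ∈ K (idx p) := fun p => hidx p p (by simpa using hR)
  choose cl hcl hcl' using fun a =>
    gf_lower (hK a) ((cont (j a)).mono (hKW a)) fun z hz => inj _ z (hKW a hz)
  obtain ⟨c, hc0, hc1⟩ := gf_pos_le cl hcl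
  have low : ∀ a, ∀ z ∈ K a, ∀ u, c * ‖u‖ ≤ ‖Bf (j a) z u‖ := fun a z hz u =>
    (mul_le_mul_of_nonneg_right (hc1 a) (norm_nonneg u)).trans (hcl' a z hz u)
  choose Cu hCu using fun a => (hK a).exists_bound_of_continuousOn ((cont (j a)).mono (hKW a))
  obtain ⟨C0, hC0⟩ := Finite.exists_le Cu
  set C := max C0 1 with hC
  have C1 : 0 < C := lt_max_of_lt_right one_pos
  have up : ∀ a, ∀ z ∈ K a, ‖Bf (j a) z‖ ≤ C := fun a z hz =>
    (hCu a z hz).trans ((hC0 a).trans (le_max_left _ _))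
  choose rc hrc hrc' using fun ab : A × A => gf_unif_const ((hK ab.1).inter (hK ab.2))
    (Tr (j ab.1) (j ab.2)) fun x hx => loc _ _ x ⟨hKW _ hx.1, hKW _ hx.2⟩
  obtain ⟨r1, hr1, hr1'⟩ := gf_pos_le rc hrc
  refine ⟨fun p => j (idx p), fun p q => Tr (j (idx p)) (j (idx q)) q, c, C,
    fun p => hKW _ (self p), hc0, fun p => low _ p (self p), fun p => up _ p (self p),
    fun p u => inj _ p (hKW _ (self p)) (chg _ _ p (hKW _ (self p)) u), fun δ hδ => ?_⟩
  choose ru hru hru' using fun a => Metric.uniformContinuousOn_iff.1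
    ((hK a).uniformContinuousOn_of_continuous ((cont (j a)).mono (hKW a))) (δ * c / C)
    (by positivity)
  obtain ⟨r2, hr2, hr2'⟩ := gf_pos_le ru hru
  refine ⟨min R (min r1 r2), by positivity, fun p q s hpq hqs hps u => ?_, fun p q hpq u => ?_⟩
  · simp only [lt_min_iff] at hpq hqs hps
    have q1 : q ∈ K (idx p) := hidx p q (by rw [dist_comm]; exact hpq.1)
    have s1 : s ∈ K (idx p) := hidx p s (by rw [dist_comm]; exact hps.1)
    have s2 : s ∈ K (idx q) := hidx q s (by rw [dist_comm]; exact hqs.1)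
    have e := hrc' (idx p, idx q) s ⟨s1, s2⟩ q (hqs.2.1.trans_le (hr1' _))
    refine inj _ s (hKW _ s1) ?_
    beta_reduce
    rw [e, chg _ _ s (hKW _ s1), chg _ _ s (hKW _ s2), chg _ _ s (hKW _ s1)]
  · simp only [lt_min_iff] at hpq
    have q1 : q ∈ K (idx p) := hidx p q (by rw [dist_comm]; exact hpq.1)
    have e := chg _ (j (idx q)) q (hKW _ q1) u
    have h1 := hru' (idx p) q q1 p (self p) (by rw [dist_comm]; exact hpq.2.2.trans_le (hr2' _))
    have h2 := low _ q q1 (Tr (j (idx p)) (j (idx q)) q u)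
    have h3 := ((Bf (j (idx q)) q).le_opNorm u).trans
      (mul_le_mul_of_nonneg_right (up _ q (self q)) (norm_nonneg u))
    rw [dist_eq_norm] at h1
    beta_reduce
    rw [← e] at h3 ⊢
    rw [← sub_apply]
    refine (ContinuousLinearMap.le_opNorm _ _).trans ?_
    calc _ ≤ δ * c / C * ‖Tr (j (idx p)) (j (idx q)) q u‖ := by gcongr
      _ = δ / C * (c * ‖Tr (j (idx p)) (j (idx q)) q u‖) := by ring
      _ ≤ δ / C * (C * ‖u‖) := mul_le_mul_of_nonneg_left (h2.trans h3) (by positivity)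
      _ = δ * ‖u‖ := by field_simp

end Abstract

theorem exists_frames {n N : ℕ} {M : Type} [TopologicalSpace M] [T2Space M] [CompactSpace M]
    [ChartedSpace (EuclideanSpace ℝ (Fin n)) M] [IsManifold (𝓡 n) ∞ M]
    (hf : TangentiallyFlat n M) {e : M → EuclideanSpace ℝ (Fin N)}
    (he : ContMDiff (𝓡 n) (𝓡 N) 1 e) (hi : Function.Injective e)
    (hd : ∀ x, Function.Injective (mfderiv (𝓡 n) (𝓡 N) e x)) :
    ∃ (B : M → EuclideanSpace ℝ (Fin n) →L[ℝ] EuclideanSpace ℝ (Fin N))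
      (T : M → M → EuclideanSpace ℝ (Fin n) →L[ℝ] EuclideanSpace ℝ (Fin n)) (c C : ℝ),
      0 < c ∧ (∀ p u, c * ‖u‖ ≤ ‖B p u‖) ∧ (∀ p, ‖B p‖ ≤ C) ∧ (∀ p u, T p p u = u) ∧
      (∀ p, Set.range (B p) = Set.range (mfderiv (𝓡 n) (𝓡 N) e p)) ∧
      ∀ δ : ℝ, 0 < δ → ∃ r : ℝ, 0 < r ∧
        (∀ p q s, dist (e p) (e q) < r → dist (e q) (e s) < r → dist (e p) (e s) < r →
          ∀ u, T p q (T q s u) = T p s u) ∧
        (∀ p q, dist (e p) (e q) < r → ∀ u, ‖B q u - B p (T p q u)‖ ≤ δ * ‖u‖) := by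
  obtain ⟨ι, t, hl, hc, hloc⟩ := hf
  have emb : IsEmbedding e := (he.continuous.isClosedEmbedding hi).isEmbedding
  let _ : MetricSpace M := emb.comapMetricSpace e
  let Bf : ι → M → EuclideanSpace ℝ (Fin n) →L[ℝ] EuclideanSpace ℝ (Fin N) := fun i z =>
    LinearMap.toContinuousLinearMap
      ((mfderiv (𝓡 n) (𝓡 N) e z).toLinearMap ∘ₗ (t i).symmₗ ℝ z)
  let Tr : ι → ι → M → EuclideanSpace ℝ (Fin n) →L[ℝ] EuclideanSpace ℝ (Fin n) := fun i j z =>
    LinearMap.toContinuousLinearMap ((t i).linearMapAt ℝ z ∘ₗ (t j).symmₗ ℝ z)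
  have hB : ∀ i z u, Bf i z u = mfderiv (𝓡 n) (𝓡 N) e z ((t i).symmₗ ℝ z u) := fun _ _ _ => rfl
  have hT : ∀ i j z u, Tr i j z u = (t i).linearMapAt ℝ z ((t j).symmₗ ℝ z u) := fun _ _ _ _ => rfl
  have hT' : ∀ i j, ∀ z ∈ (t i).baseSet ∩ (t j).baseSet, ∀ u,
      Tr i j z u = Bundle.Trivialization.coordChange (t j) (t i) z u := fun i j z hz u => by
    rw [hT, (t i).coe_linearMapAt_of_mem hz.1, (t j).symmₗ_apply hz.2]
    beta_reduce
    rw [(t j).mk_symm hz.2]
    rfl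
  have cont : ∀ i, ContinuousOn (Bf i) (t i).baseSet := fun i => by
    refine continuousOn_clm_apply.2 fun u => ?_
    have a1 : ContinuousOn (fun z : M => (z, u)) (t i).baseSet := by fun_prop
    have a2 := (t i).continuousOn_symm.comp a1 fun z hz => ⟨hz, mem_univ _⟩
    have a3 := (he.continuous_tangentMap le_rfl).comp_continuousOn a2
    have a4 := continuous_snd.comp_continuousOn
      ((tangentBundleModelSpaceHomeomorph (𝓡 N)).continuous.comp_continuousOn a3)
    refine a4.congr fun z hz => ?_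
    rw [hB, (t i).symmₗ_apply hz]
    rfl
  have inj : ∀ i, ∀ z ∈ (t i).baseSet, Function.Injective (Bf i z) := fun i z hz u v h => by
    rw [hB, hB] at h
    rw [← (t i).linearMapAt_symmₗ (R := ℝ) hz u, hd z h, (t i).linearMapAt_symmₗ hz]
  have chg : ∀ i j, ∀ z ∈ (t i).baseSet, ∀ u, Bf i z (Tr i j z u) = Bf j z u :=
    fun i j z hz u => by rw [hB, hB, hT, (t i).symmₗ_linearMapAt hz]
  have loc : ∀ i j, ∀ x ∈ (t i).baseSet ∩ (t j).baseSet, ∀ᶠ y in 𝓝 x, Tr i j y = Tr i j x :=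
    fun i j x hx => by
      filter_upwards [hloc j i x ⟨hx.2, hx.1⟩,
        ((t i).open_baseSet.inter (t j).open_baseSet).mem_nhds hx] with y h1 h2
      ext1 u
      rw [hT' i j y h2, hT' i j x hx, h1]
  obtain ⟨idx, T, c, C, h0, h1, h2, h3, h4, h5⟩ := gf_abstract (fun i => (t i).baseSet)
    (fun i => (t i).open_baseSet) hc Bf Tr cont inj chg loc
  refine ⟨fun p => Bf (idx p) p, T, c, C, h1, h2, h3, h4, fun p => ?_, h5⟩
  apply Subset.antisymm
  · rintro _ ⟨u, rfl⟩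
    exact ⟨_, (hB _ _ _).symm⟩
  · rintro _ ⟨v, rfl⟩
    refine ⟨(t (idx p)).linearMapAt ℝ p v, ?_⟩
    rw [hB, (t (idx p)).symmₗ_linearMapAt (h0 p)]

end Pool.Agent.Work.MP_dd0bbc_gt
end

-- merged part: Pool.Agent.Work.MP_dd0bbc_gt.GeoChart
section
/-! Almost linear charts of uniform size. -/

set_option autoImplicit false
open scoped Manifold ContDiff

namespace Pool.Agent.Work.MP_dd0bbc_gt

open Set Metric Filter Topology

theorem GeoChart_lin {E F : Type} [NormedAddCommGroup E] [NormedSpace ℝ E] [NormedAddCommGroup F]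
    [NormedSpace ℝ F] {G : E → F} {y₀ : E} {ρ η a c C δ r : ℝ} {A B : E →L[ℝ] F} (ha : 0 < a)
    (hA : ∀ u, a * ‖u‖ ≤ ‖A u‖) (hG : ∀ y ∈ ball y₀ ρ, DifferentiableAt ℝ G y)
    (hη : ∀ y ∈ ball y₀ ρ, ‖fderiv ℝ G y - A‖ ≤ η) (η1 : η ≤ a / 2) (hC : ‖B‖ ≤ C)
    (hB : ∀ u, c * ‖u‖ ≤ ‖B u‖) (η2 : 2 * η * (2 * C / a) ≤ δ) (η3 : 2 * η * (2 * C / a) ≤ c / 2)
    (hc : 0 < c) {y : E} (hy : y ∈ ball y₀ (ρ / 2)) (hr : range B = range (fderiv ℝ G y))
    (r1 : 2 * C / a * r ≤ ρ / 2) : ∃ L : E → E, L 0 = 0 ∧ (∀ u, ‖u‖ < r → y + L u ∈ ball y₀ ρ) ∧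
      (∀ u u', ‖u‖ < r → ‖u'‖ < r →
        ‖G (y + L u) - G (y + L u') - B (u - u')‖ ≤ δ * ‖u - u'‖) ∧
      ∀ z ∈ ball y₀ ρ, dist (G z) (G y) < c * r / 2 → ∃ u, ‖u‖ < r ∧ y + L u = z := by
  have ρ0 : 0 < ρ / 2 := pos_of_mem_ball hy
  have hy' : y ∈ ball y₀ ρ := ball_subset_ball (by linarith only [ρ0]) hy
  have η0 : 0 ≤ η := (norm_nonneg _).trans (hη y hy')
  have C0 : 0 ≤ C := (norm_nonneg _).trans hC
  have K0 : 0 ≤ 2 * C / a := by positivity
  set D := fderiv ℝ G y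
  have low : ∀ v u, D v = B u → ‖v‖ ≤ 2 * C / a * ‖u‖ := fun v u e => by
    have h1 := (D - A).le_of_opNorm_le (hη y hy') v
    have h2 := norm_sub_le (D v) ((D - A) v)
    have h3 := B.le_of_opNorm_le hC u
    have h4 := mul_le_mul_of_nonneg_right η1 (norm_nonneg v)
    rw [ContinuousLinearMap.sub_apply, sub_sub_cancel, ← ContinuousLinearMap.sub_apply, e] at h2
    rw [div_mul_eq_mul_div, le_div_iff₀ ha]
    linarith only [h1, h2, h3, h4, hA v]
  have mv : ∀ z ∈ ball y₀ ρ, ∀ z' ∈ ball y₀ ρ, ∀ u, D (z - z') = B u →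
      ‖G z - G z' - B u‖ ≤ 2 * η * (2 * C / a) * ‖u‖ := fun z hz z' hz' u e => by
    have := (convex_ball y₀ ρ).norm_image_sub_le_of_norm_fderiv_le' (φ := D) (C := 2 * η) hG
      (fun x hx => by
        have := norm_sub_le (fderiv ℝ G x - A) (D - A)
        rw [sub_sub_sub_cancel_right] at this
        linarith only [this, hη x hx, hη y hy']) hz' hz
    rw [e] at this
    rw [mul_assoc (2 * η)]
    exact this.trans (mul_le_mul_of_nonneg_left (low _ _ e) (by positivity))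
  have ex : ∀ u, ∃ v, D v = B u := fun u => hr.subset (mem_range_self u)
  choose L hL using ex
  have mem : ∀ u, ‖u‖ < r → y + L u ∈ ball y₀ ρ := fun u hu => by
    have h1 := dist_triangle (y + L u) y y₀
    rw [dist_self_add_left] at h1
    have h2 := mul_le_mul_of_nonneg_left hu.le K0
    rw [mem_ball] at hy ⊢
    linarith only [hy, r1, h1, h2, low _ _ (hL u)]
  refine ⟨L, norm_le_zero_iff.1 (by simpa using low _ _ (hL 0)), mem, fun u u' hu hu' => ?_,
    fun z hz hd => ?_⟩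
  · exact (mv _ (mem u hu) _ (mem u' hu') _ (by
      rw [add_sub_add_left_eq_sub, map_sub, map_sub, hL, hL])).trans
      (mul_le_mul_of_nonneg_right η2 (norm_nonneg _))
  · obtain ⟨u, hu⟩ : D (z - y) ∈ range B := hr.superset (mem_range_self _)
    have h1 := (mv z hz y hy' u hu.symm).trans (mul_le_mul_of_nonneg_right η3 (norm_nonneg _))
    have h2 := norm_sub_le (G z - G y) (G z - G y - B u)
    rw [sub_sub_cancel] at h2
    rw [dist_eq_norm] at hd
    refine ⟨u, lt_of_mul_lt_mul_left (a := c / 2) (by linarith only [hd, h1, h2, hB u]) (by linarith only [hc]), ?_⟩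
    have h3 := low (L u - (z - y)) 0 (by rw [map_sub, hL, hu, sub_self, map_zero])
    rw [norm_zero, mul_zero, norm_le_zero_iff, sub_eq_zero] at h3
    rw [h3, add_sub_cancel]

theorem exists_charts {n N : ℕ} {M : Type} [TopologicalSpace M] [T2Space M] [CompactSpace M]
    [ChartedSpace (EuclideanSpace ℝ (Fin n)) M] [IsManifold (𝓡 n) ∞ M]
    {e : M → EuclideanSpace ℝ (Fin N)}
    (he : ContMDiff (𝓡 n) (𝓡 N) 1 e) (hi : Function.Injective e)
    (hd : ∀ x, Function.Injective (mfderiv (𝓡 n) (𝓡 N) e x))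
    {B : M → EuclideanSpace ℝ (Fin n) →L[ℝ] EuclideanSpace ℝ (Fin N)} {c C : ℝ} (hc : 0 < c)
    (hB : ∀ p u, c * ‖u‖ ≤ ‖B p u‖) (hC : ∀ p, ‖B p‖ ≤ C)
    (hr : ∀ p, Set.range (B p) = Set.range (mfderiv (𝓡 n) (𝓡 N) e p)) {δ : ℝ} (hδ : 0 < δ) :
    ∃ r₀ : ℝ, 0 < r₀ ∧ ∀ r, 0 < r → r ≤ r₀ → ∀ p, ∃ κ : EuclideanSpace ℝ (Fin n) → M, κ 0 = p ∧
      (∀ u u', ‖u‖ < r → ‖u'‖ < r → ‖e (κ u) - e (κ u') - B p (u - u')‖ ≤ δ * ‖u - u'‖) ∧
      ∀ z, dist (e z) (e p) < c * r / 2 → ∃ u, ‖u‖ < r ∧ κ u = z := by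
  have emb := (he.continuous.isClosedEmbedding hi).isEmbedding
  have loc : ∀ x : M, ∃ U ∈ 𝓝 x, ∃ r₀ : ℝ, 0 < r₀ ∧ ∀ r, 0 < r → r ≤ r₀ → ∀ p ∈ U,
      ∃ κ : EuclideanSpace ℝ (Fin n) → M, κ 0 = p ∧
      (∀ u u', ‖u‖ < r → ‖u'‖ < r → ‖e (κ u) - e (κ u') - B p (u - u')‖ ≤ δ * ‖u - u'‖) ∧
      ∀ z, dist (e z) (e p) < c * r / 2 → ∃ u, ‖u‖ < r ∧ κ u = z := by
    intro x
    have C0 : 0 ≤ C := (norm_nonneg _).trans (hC x)
    set φ := extChartAt (𝓡 n) x with hφ
    have op : IsOpen φ.target := isOpen_extChartAt_target x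
    have cG : ContDiffOn ℝ 1 (e ∘ φ.symm) φ.target :=
      contMDiffOn_iff_contDiffOn.1 (he.comp_contMDiffOn (contMDiffOn_extChartAt_symm x))
    have dG : ∀ y ∈ φ.target, DifferentiableAt ℝ (e ∘ φ.symm) y := fun y hy =>
      (cG.differentiableOn one_ne_zero).differentiableAt (op.mem_nhds hy)
    have ch : ∀ p ∈ φ.source, ∃ T : EuclideanSpace ℝ (Fin n) → EuclideanSpace ℝ (Fin n),
        Function.Surjective T ∧
          ∀ v, mfderiv (𝓡 n) (𝓡 N) e p v = fderiv ℝ (e ∘ φ.symm) (φ p) (T v) := by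
      intro p hp
      obtain ⟨T, hT⟩ := isInvertible_mfderiv_extChartAt hp
      refine ⟨T, T.surjective, fun v => ?_⟩
      have h1 : e =ᶠ[𝓝 p] (e ∘ φ.symm) ∘ φ := by
        filter_upwards [(isOpen_extChartAt_source x).mem_nhds hp] with q hq
        simp only [Function.comp, φ.left_inv hq]
      rw [h1.mfderiv_eq, mfderiv_comp p (dG _ (φ.map_source hp)).mdifferentiableAt
        (mdifferentiableAt_extChartAt (by rwa [← extChartAt_source (𝓡 n)])), mfderiv_eq_fderiv,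
        ← hT]
      rfl
    have xs : x ∈ φ.source := mem_extChartAt_source x
    obtain ⟨a, a0, hA⟩ : ∃ a : ℝ, 0 < a ∧ ∀ u, a * ‖u‖ ≤ ‖fderiv ℝ (e ∘ φ.symm) (φ x) u‖ := by
      obtain ⟨T, t1, t2⟩ := ch x xs
      obtain ⟨K, K0, hK⟩ := (fderiv ℝ (e ∘ φ.symm) (φ x)).toLinearMap.exists_antilipschitzWith
        (LinearMap.ker_eq_bot.2 fun u u' h => by
          obtain ⟨v, rfl⟩ := t1 u
          obtain ⟨v', rfl⟩ := t1 u'
          rw [hd x ((t2 v).trans (h.trans (t2 v').symm))])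
      have K1 : (0 : ℝ) < K := K0
      refine ⟨1 / K, by positivity, fun u => ?_⟩
      rw [div_mul_eq_mul_div, one_mul, div_le_iff₀ K1, mul_comm]
      simpa using hK.le_mul_dist u 0
    obtain ⟨η, η0, η1, η2, η3⟩ : ∃ η : ℝ, 0 < η ∧ η ≤ a / 2 ∧ 2 * η * (2 * C / a) ≤ δ ∧
        2 * η * (2 * C / a) ≤ c / 2 := by
      have K0 : 0 ≤ 2 * C / a := by positivity
      generalize 2 * C / a = K at K0
      have h1 : min (a / 2) (min δ (c / 2) / (2 * (K + 1))) * (2 * (K + 1)) ≤ min δ (c / 2) :=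
        (le_div_iff₀ (by positivity)).1 (min_le_right _ _)
      have h0 : 0 < min (a / 2) (min δ (c / 2) / (2 * (K + 1))) := by positivity
      exact ⟨_, h0, min_le_left _ _, by linarith only [h1, h0, min_le_left δ (c / 2)],
        by linarith only [h1, h0, min_le_right δ (c / 2)]⟩
    have yt := op.mem_nhds (φ.map_source xs)
    obtain ⟨ρ, ρ0, hρ⟩ := Metric.eventually_nhds_iff_ball.1 ((show ∀ᶠ y in 𝓝 (φ x), y ∈ φ.target
      from yt).and (((cG.continuousOn_fderiv_of_isOpen op le_rfl).continuousAt yt).eventually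
        (closedBall_mem_nhds _ η0)))
    have nb : ∀ s : ℝ, 0 < s → φ.source ∩ φ ⁻¹' ball (φ x) s ∈ 𝓝 x := fun s hs =>
      inter_mem (extChartAt_source_mem_nhds x) (continuousAt_extChartAt x (ball_mem_nhds _ hs))
    obtain ⟨s, s0, hs⟩ : ∃ s : ℝ, 0 < s ∧ e ⁻¹' ball (e x) s ⊆ φ.source ∩ φ ⁻¹' ball (φ x) ρ := by
      have := nb ρ ρ0
      rw [emb.nhds_eq_comap] at this
      obtain ⟨W, hW, h⟩ := this
      obtain ⟨s, s0, h'⟩ := Metric.mem_nhds_iff.1 hW
      exact ⟨s, s0, (preimage_mono h').trans h⟩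
    refine ⟨(φ.source ∩ φ ⁻¹' ball (φ x) (ρ / 2)) ∩ e ⁻¹' ball (e x) (s / 2),
      inter_mem (nb _ (half_pos ρ0)) (he.continuous.continuousAt (ball_mem_nhds _ (half_pos s0))),
      min (ρ / 2 / (2 * C / a + 1)) (s / c), by positivity, fun r r0 r1 p ⟨⟨p1, p2⟩, p3⟩ => ?_⟩
    have r2 := (le_div_iff₀ (by positivity)).1 (r1.trans (min_le_left _ _))
    have r3 := (le_div_iff₀ hc).1 (r1.trans (min_le_right _ _))
    obtain ⟨L, l0, l1, l2, l3⟩ := GeoChart_lin (r := r) a0 hA (fun y hy => dG y (hρ y hy).1)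
      (fun y hy => by simpa only [mem_closedBall, dist_eq_norm] using (hρ y hy).2) η1 (hC p) (hB p)
      η2 η3 hc p2 (by
        obtain ⟨T, t1, t2⟩ := ch p p1
        rw [hr p, ← t1.range_comp]
        exact congrArg range (funext t2)) (by linarith only [r0, r2])
    refine ⟨fun u => φ.symm (φ p + L u), by simp only [l0, add_zero, φ.left_inv p1], l2,
      fun z hz => ?_⟩
    obtain ⟨z1, z2⟩ := hs (a := z) (by
      have := dist_triangle (e z) (e p) (e x)
      simp only [mem_preimage, mem_ball] at p3 ⊢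
      linarith only [r3, hz, this, p3])
    obtain ⟨u, u1, u2⟩ := l3 (φ z) z2 (by
      simpa only [Function.comp, φ.left_inv z1, φ.left_inv p1] using hz)
    exact ⟨u, u1, by simp only [u2, φ.left_inv z1]⟩
  choose U hU ρ ρ0 h using loc
  obtain ⟨t, ht⟩ := CompactSpace.elim_nhds_subcover U hU
  obtain ⟨r₀, r0, h0⟩ : ∃ r₀ : ℝ, 0 < r₀ ∧ ∀ x ∈ t, r₀ ≤ ρ x := by
    rcases t.eq_empty_or_nonempty with rfl | ne
    · exact ⟨1, one_pos, by simp⟩
    · obtain ⟨x, -, hx⟩ := t.exists_min_image ρ ne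
      exact ⟨ρ x, ρ0 x, hx⟩
  refine ⟨r₀, r0, fun r r1 r2 p => ?_⟩
  obtain ⟨x, hx, hp⟩ := mem_iUnion₂.1 (ht ▸ mem_univ p : p ∈ ⋃ x ∈ t, U x)
  exact h x r r1 (r2.trans (h0 x hx)) p hp

theorem geo_of_flat {n : ℕ} {M : Type} [TopologicalSpace M] [T2Space M] [CompactSpace M]
    [ChartedSpace (EuclideanSpace ℝ (Fin n)) M] [IsManifold (𝓡 n) ∞ M]
    (hf : TangentiallyFlat n M) : Geo n M := by
  obtain ⟨N, e, he, hemb, hd⟩ := exists_embedding_euclidean_of_compact (I := 𝓡 n) (M := M)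
  have he1 : ContMDiff (𝓡 n) (𝓡 N) 1 e := he.of_le (by exact_mod_cast le_top)
  obtain ⟨B, T, c, C, hc, hB, hC, hT, hr, h⟩ := exists_frames hf he1 hemb.injective hd
  refine ⟨N, e, B, T, c, C, hemb.isEmbedding, hc, hB, hC, hT, fun δ hδ => ?_⟩
  obtain ⟨r, r0, h1, h2⟩ := h δ hδ
  obtain ⟨r', r0', h3⟩ := exists_charts he1 hemb.injective hd hc hB hC hr hδ
  have m := min_le_left r r'
  exact ⟨min r r', lt_min r0 r0', fun p q s a b c => h1 p q s (a.trans_le m) (b.trans_le m)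
    (c.trans_le m), fun p q a => h2 p q (a.trans_le m), h3 _ (lt_min r0 r0') (min_le_right _ _)⟩

end Pool.Agent.Work.MP_dd0bbc_gt
end

-- merged part: Pool.Agent.Work.MP_dd0bbc_gt.Main
section
/-! The vanishing theorem. -/

set_option autoImplicit false
open scoped Manifold ContDiff

namespace Pool.Agent.Work.MP_dd0bbc_gt

open Finset

lemma middle_le {m : ℕ} (b : ℕ → ℕ) {x : ℤ} {η : ℝ}
    (h : ∑ j ∈ range (2 * m + 1), (-1 : ℤ) ^ j * (b j : ℤ) = x)
    (hb : ∀ k, k ≤ 2 * m → k ≠ m → (b k : ℝ) ≤ η) : (b m : ℝ) ≤ |(x : ℝ)| + 2 * m * η := by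
  have hm : m ∈ range (2 * m + 1) := mem_range.2 (by omega)
  rw [← add_sum_erase _ _ hm] at h
  have h' := congrArg (Int.cast : ℤ → ℝ) h
  push_cast at h'
  have h1 : |∑ j ∈ (range (2 * m + 1)).erase m, (-1 : ℝ) ^ j * (b j : ℝ)| ≤ 2 * m * η := by
    refine (abs_sum_le_sum_abs _ _).trans ((sum_le_card_nsmul _ _ η (fun j hj => ?_)).trans ?_)
    · rw [abs_mul, abs_pow, abs_neg, abs_one, one_pow, one_mul, Nat.abs_cast]
      exact hb j (Nat.lt_succ_iff.1 (mem_range.1 (mem_erase.1 hj).2)) (mem_erase.1 hj).1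
    · rw [card_erase_of_mem hm, card_range]; simp
  have h2 : (b m : ℝ) = |(-1 : ℝ) ^ m * (b m : ℝ)| := by
    rw [abs_mul, abs_pow, abs_neg, abs_one, one_pow, one_mul, Nat.abs_cast]
  rw [h2, eq_sub_of_add_eq h']
  exact (abs_sub _ _).trans (by linarith only [h1])

theorem chi_zero_of_fan {m : ℕ} (hm : 1 ≤ m) {M : Type} [TopologicalSpace M] [Nonempty M]
    [LocallyPathConnectedSpace M] {Y : Type} [Fintype Y] [LinearOrder Y] {U : Y → Set M}
    (hU : GoodCover U) (D : Fan (2 * m) Y) (hK : D.K = nerve U) (h : SmallOffMiddle m M) :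
    chi D.K (2 * m) = 0 := by
  by_contra hne
  have h1 : (1 : ℝ) ≤ |(chi D.K (2 * m) : ℝ)| := by exact_mod_cast Int.one_le_abs hne
  set N : ℕ := (2 * m).choose m with hN
  set f : ℕ := fn D.K m + 2 * fn D.K (m + 1) + fn D.K (m + 2) with hf
  have hN4 : (N : ℝ) + 1 ≤ 4 ^ m := by
    have : N < 4 ^ m := by
      have h2 := Nat.sum_range_choose (2 * m)
      have h3 : ∑ j ∈ ({0, m} : Finset ℕ), (2 * m).choose j ≤
          ∑ j ∈ range (2 * m + 1), (2 * m).choose j :=
        sum_le_sum_of_subset (by intro j; simp only [mem_insert, mem_singleton, mem_range]; omega)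
      rw [sum_pair (by omega), h2, pow_mul] at h3
      simp at h3; omega
    exact_mod_cast this
  obtain ⟨M₀, _, p, hp1, hp2, hp3, H⟩ := ineq_cover hm hU D hK (3 * (N * f + 1))
  have hε : (0 : ℝ) < 1 / (3 * (N * (2 * m + 1) + 1)) := by positivity
  obtain ⟨M₁, _, q, d, hd, hq, hc, hfd, hb⟩ := h M₀ p hp1 hp2 hp3 _ hε
  obtain ⟨i1, i2⟩ := H M₁ q d hd hq hc hfd
  have i3 := middle_le (betti M₁) i2 hb
  have i4 := hb (m + 1) (by omega) (by omega)
  have hd' : (0 : ℝ) < d := by exact_mod_cast hd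
  push_cast at i1 i3
  rw [abs_mul, Nat.abs_cast] at i3
  set ε : ℝ := 1 / (3 * (N * (2 * m + 1) + 1)) with hε'
  set c : ℝ := |(chi D.K (2 * m) : ℝ)|
  have e1 : (N : ℝ) * (2 * m + 1) * ε ≤ 1 / 3 := by
    rw [hε', mul_one_div, div_le_div_iff₀ (by positivity) (by positivity)]; linarith only []
  have hN0 : (0 : ℝ) ≤ N := Nat.cast_nonneg _
  have hf' : ((fn D.K m : ℝ) + 2 * fn D.K (m + 1) + fn D.K (m + 2)) = f := by simp [hf]
  rw [hf'] at i1
  have hf0 : (0 : ℝ) ≤ N * f := by positivity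
  have i5 : (N : ℝ) * (betti M₁ m + betti M₁ (m + 1)) ≤ N * (d * c) + d / 3 := by
    have := mul_le_mul_of_nonneg_left (add_le_add i3 i4) hN0
    nlinarith only [this, e1, hd', mul_le_mul_of_nonneg_left e1 hd'.le]
  have i6 : (N : ℝ) * (d * c) + d ≤ 4 ^ m * (d * c) := by
    have h0 : (d : ℝ) ≤ d * c := le_mul_of_one_le_right hd'.le h1
    nlinarith only [h0, hN4, hd', mul_le_mul_of_nonneg_right hN4 (hd'.le.trans h0)]
  have i7 := mul_le_mul_of_nonneg_left i5 (by positivity : (0 : ℝ) ≤ 3 * (N * f + 1))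
  have i8 := mul_le_mul_of_nonneg_left i6 (by positivity : (0 : ℝ) ≤ 3 * (N * f + 1))
  nlinarith only [hd', i1, i7, i8, hf0, mul_nonneg hf0 hd'.le]

theorem main (m : ℕ) (hm : 1 ≤ m) (M : Type) [TopologicalSpace M] [T2Space M] [CompactSpace M]
    [ConnectedSpace M] [ChartedSpace (EuclideanSpace ℝ (Fin (2 * m))) M]
    [IsManifold (𝓡 (2 * m)) ∞ M] (hf : TangentiallyFlat (2 * m) M) (h : SmallOffMiddle m M) :
    ∑ k ∈ range (2 * m + 1), (-1 : ℤ) ^ k * (betti M k : ℤ) = 0 := by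
  have := ChartedSpace.locallyPathConnectedSpace (EuclideanSpace ℝ (Fin (2 * m))) M
  obtain ⟨k, U, D, hU, hK⟩ := exists_fan (geo_of_flat hf)
  rw [chi_eq (k := ℚ) D.card_le (betti M) (by rw [hK]; exact nerve_theorem hU)]
  exact chi_zero_of_fan hm hU D hK h

end Pool.Agent.Work.MP_dd0bbc_gt
end
end
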