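import Pool.Agent.Work.MP_dd0bbc_gt.TeleBCx
import Pool.Agent.Work.MP_dd0bbc_gt.Main
import Pool.Agent.Work.MP_dd0bbc_gt.LatDefs

-- merged part: Pool.Agent.Work.MP_dd0bbc_gt.Controlled
section
/-! Controlled chain maps and homotopies; the spectral gap. -/

set_option autoImplicit false

namespace Pool.Agent.Work.MP_dd0bbc_gt

open Finsupp

variable {P B B' : Type} {co : Coarse P}

theorem Controlled_ext {N : Type} [AddCommGroup N] [Module ℚ N] {φ ψ : (B →₀ ℚ) →ₗ[ℚ] N}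
    {x : B →₀ ℚ} (h : ∀ b ∈ x.support, φ (single b 1) = ψ (single b 1)) : φ x = ψ x := by
  rw [TwBasic_map_eq φ x, TwBasic_map_eq ψ x]
  exact Finset.sum_congr rfl fun b hb => by rw [h b hb]

theorem Controlled_zero_of {N : Type} [AddCommGroup N] [Module ℚ N] {φ : (B →₀ ℚ) →ₗ[ℚ] N}
    {x : B →₀ ℚ} (h : ∀ b ∈ x.support, φ (single b 1) = 0) : φ x = 0 :=
  Controlled_ext (ψ := 0) h

theorem Controlled_inDeg_zero (deg : B → ℕ) (k : ℕ) : InDeg deg k 0 := fun b hb => by simp at hb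

theorem Controlled_inDeg_add {deg : B → ℕ} {k : ℕ} {x y : B →₀ ℚ} (hx : InDeg deg k x)
    (hy : InDeg deg k y) : InDeg deg k (x + y) := by
  classical
  intro b hb
  rcases Finset.mem_union.1 (support_add hb) with h | h
  · exact hx b h
  · exact hy b h

theorem Controlled_inDeg_sub {deg : B → ℕ} {k : ℕ} {x y : B →₀ ℚ} (hx : InDeg deg k x)
    (hy : InDeg deg k y) : InDeg deg k (x - y) := by
  rw [sub_eq_add_neg]
  exact Controlled_inDeg_add hx fun b hb => hy b (by rwa [support_neg] at hb)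

theorem Controlled_inDeg_single {deg : B → ℕ} (b : B) : InDeg deg (deg b) (single b 1) := by
  intro b' hb'
  rw [Finset.mem_singleton.1 (support_single_subset hb')]

theorem Controlled_inDeg_map {deg : B → ℕ} {deg' : B' → ℕ} {r k : ℕ}
    {φ : (B →₀ ℚ) →ₗ[ℚ] (B' →₀ ℚ)} (h : Raises deg deg' r φ) {x : B →₀ ℚ} (hx : InDeg deg k x) :
    InDeg deg' (k + r) (φ x) := by
  intro b' hb'
  obtain ⟨b, hb, hb2⟩ := mem_support_map φ hb'
  rw [h b b' hb2, hx b hb]

theorem Controlled_inDeg_d (C : BCx co B) {k : ℕ} {x : B →₀ ℚ} (hx : InDeg C.deg (k + 1) x) :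
    InDeg C.deg k (C.d x) := by
  intro b' hb'
  obtain ⟨b, hb, hb2⟩ := mem_support_map C.d hb'
  have := C.d_deg b b' hb2
  have := hx b hb
  omega

theorem Controlled_d_zero (C : BCx co B) {x : B →₀ ℚ} (hx : InDeg C.deg 0 x) : C.d x = 0 := by
  by_contra h
  obtain ⟨b', hb'⟩ := support_nonempty_iff.2 h
  obtain ⟨b, hb, hb2⟩ := mem_support_map C.d hb'
  have := C.d_deg b b' hb2
  have := hx b hb
  omega

theorem Controlled_aug_single (deg : B → ℕ) (b : B) :
    augD deg (single b 1) = if deg b = 0 then 1 else 0 := by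
  simp [augD]

theorem Controlled_aug_zero {deg : B → ℕ} {k : ℕ} {x : B →₀ ℚ} (hx : InDeg deg (k + 1) x) :
    augD deg x = 0 :=
  Controlled_zero_of fun b hb => by
    rw [Controlled_aug_single, if_neg]
    rw [hx b hb]
    omega

theorem Controlled_ctl_zero (pos : B → P) (pos' : B' → P) :
    Ctl co pos pos' (0 : (B →₀ ℚ) →ₗ[ℚ] (B' →₀ ℚ)) :=
  ⟨0, 0, fun b => ⟨fun b' hb' => by simp at hb', by simp [l1]⟩⟩

theorem Controlled_ctl_id (pos : B → P) :
    Ctl co pos pos (LinearMap.id : (B →₀ ℚ) →ₗ[ℚ] (B →₀ ℚ)) :=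
  ⟨1, 1, fun b => ⟨fun b' hb' => by
    rw [Finset.mem_singleton.1 (support_single_subset hb')]
    exact co.refl _, by simp [l1_single]⟩⟩

theorem Controlled_ctl_add {pos : B → P} {pos' : B' → P} {φ ψ : (B →₀ ℚ) →ₗ[ℚ] (B' →₀ ℚ)}
    (hφ : Ctl co pos pos' φ) (hψ : Ctl co pos pos' ψ) : Ctl co pos pos' (φ + ψ) := by
  classical
  obtain ⟨L, M, h⟩ := hφ
  obtain ⟨L', M', h'⟩ := hψ
  refine ⟨max L L', M + M', fun b => ⟨fun b' hb' => ?_, ?_⟩⟩
  · rcases Finset.mem_union.1 (support_add hb') with h1 | h1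
    · exact ((h b).1 b' h1).trans (le_max_left _ _)
    · exact ((h' b).1 b' h1).trans (le_max_right _ _)
  · exact (l1_add_le _ _).trans (add_le_add (h b).2 (h' b).2)

theorem Controlled_ctl_sub {pos : B → P} {pos' : B' → P} {φ ψ : (B →₀ ℚ) →ₗ[ℚ] (B' →₀ ℚ)}
    (hφ : Ctl co pos pos' φ) (hψ : Ctl co pos pos' ψ) : Ctl co pos pos' (φ - ψ) := by
  rw [sub_eq_add_neg]
  refine Controlled_ctl_add hφ ?_
  obtain ⟨L, M, h⟩ := hψ
  refine ⟨L, M, fun b => ⟨fun b' hb' => (h b).1 b' ?_, ?_⟩⟩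
  · rwa [LinearMap.neg_apply, support_neg] at hb'
  · rw [LinearMap.neg_apply, ← neg_one_smul ℚ, l1_smul]
    simpa using (h b).2

theorem Ctl.comp {B'' : Type} {pos : B → P} {pos' : B' → P} {pos'' : B'' → P}
    {φ : (B →₀ ℚ) →ₗ[ℚ] (B' →₀ ℚ)} {ψ : (B' →₀ ℚ) →ₗ[ℚ] (B'' →₀ ℚ)} (hψ : Ctl co pos' pos'' ψ)
    (hφ : Ctl co pos pos' φ) : Ctl co pos pos'' (ψ ∘ₗ φ) := by
  obtain ⟨L, M, h⟩ := hφ
  obtain ⟨L', M', h'⟩ := hψ
  obtain ⟨L'', hL⟩ := co.tri (max L L')
  refine ⟨L'', |M'| * M, fun b => ⟨fun b'' hb'' => ?_, ?_⟩⟩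
  · obtain ⟨b', hb', hb2⟩ := mem_support_map ψ hb''
    exact hL _ _ _ (((h' b').1 b'' hb2).trans (le_max_right _ _))
      (((h b).1 b' hb').trans (le_max_left _ _))
  · exact (l1_map_le ψ _ fun b' _ => (h' b').2.trans (le_abs_self _)).trans
      (mul_le_mul_of_nonneg_left (h b).2 (abs_nonneg _))

theorem Ctl.bound (C : BCx co B) {pos' : B' → P} {φ : (B →₀ ℚ) →ₗ[ℚ] (B' →₀ ℚ)}
    (hφ : Ctl co C.pos pos' φ) : ∃ M : ℚ, 0 < M ∧ ∀ x, n2 (φ x) ≤ M * n2 x := by
  classical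
  obtain ⟨L, M, h⟩ := hφ
  obtain ⟨N, hN⟩ := C.ulf L
  refine ⟨|M| * (N * |M|) + 1, by positivity, fun x => ?_⟩
  have key := schur_test φ x (M := |M|) (M' := N * |M|) (by positivity)
    (fun b _ => (h b).2.trans (le_abs_self _)) (fun b' => by
      obtain ⟨s, hs, hs2⟩ := hN (pos' b')
      have h1 : ∀ b, |φ (single b 1) b'| ≤ |M| := fun b => by
        have := TwBasic_sum_le_l1 (φ (single b 1)) {b'}
        rw [Finset.sum_singleton] at this
        exact this.trans ((h b).2.trans (le_abs_self _))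
      calc ∑ b ∈ x.support, |φ (single b 1) b'|
          = ∑ b ∈ x.support ∩ s, |φ (single b 1) b'| := by
            refine (Finset.sum_subset Finset.inter_subset_left fun b hb hb2 => ?_).symm
            by_contra hne
            refine hb2 (Finset.mem_inter.2 ⟨hb, hs2 b ?_⟩)
            rw [co.symm]
            exact (h b).1 b' (mem_support_iff.2 fun h0 => hne (by rw [h0, abs_zero]))
        _ ≤ ∑ _b ∈ x.support ∩ s, |M| := Finset.sum_le_sum fun b _ => h1 b
        _ ≤ N * |M| := by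
            rw [Finset.sum_const, nsmul_eq_mul]
            refine mul_le_mul_of_nonneg_right ?_ (abs_nonneg _)
            exact_mod_cast (Finset.card_le_card Finset.inter_subset_right).trans hs)
  have := n2_nonneg x
  linarith

theorem Controlled_step (C : BCx co B) (C' : BCx co B') (h : C'.UAcyc)
    {G : (B →₀ ℚ) →ₗ[ℚ] (B' →₀ ℚ)} (hG : Ctl co C.pos C'.pos G) (k r : ℕ)
    (h1 : ∀ b, C.deg b = k → InDeg C'.deg r (G (single b 1)) ∧ C'.d (G (single b 1)) = 0 ∧
      augD C'.deg (G (single b 1)) = 0) :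
    ∃ D : (B →₀ ℚ) →ₗ[ℚ] (B' →₀ ℚ), Ctl co C.pos C'.pos D ∧
      (∀ b, C.deg b ≠ k → D (single b 1) = 0) ∧
      ∀ b, C.deg b = k → InDeg C'.deg (r + 1) (D (single b 1)) ∧
        C'.d (D (single b 1)) = G (single b 1) := by
  obtain ⟨L, M, hG⟩ := hG
  obtain ⟨L', M', hU⟩ := h L
  have key : ∀ b, ∃ y : B' →₀ ℚ, (∀ b' ∈ y.support, co.Λ (C'.pos b') (C.pos b) ≤ L') ∧
      l1 y ≤ |M'| * |M| ∧ (C.deg b ≠ k → y = 0) ∧
      (C.deg b = k → InDeg C'.deg (r + 1) y ∧ C'.d y = G (single b 1)) := by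
    intro b
    by_cases hb : C.deg b = k
    · obtain ⟨a1, a2, a3⟩ := h1 b hb
      obtain ⟨y, y1, y2, y3, y4⟩ := hU (C.pos b) r _ a1 (hG b).1 a2 a3
      refine ⟨y, y2, y4.trans ?_, fun hh => absurd hb hh, fun _ => ⟨y1, y3⟩⟩
      exact mul_le_mul (le_abs_self _) ((hG b).2.trans (le_abs_self _)) (l1_nonneg _)
        (abs_nonneg _)
    · refine ⟨0, fun b' hb' => by simp at hb', ?_, fun _ => rfl, fun hh => absurd hh hb⟩
      have : l1 (0 : B' →₀ ℚ) = 0 := by simp [l1]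
      rw [this]
      positivity
  choose y hy using key
  have e : ∀ b, linearCombination ℚ y (single b 1) = y b := fun b => by simp
  refine ⟨linearCombination ℚ y, ⟨L', |M'| * |M|, fun b => ?_⟩, fun b hb => ?_, fun b hb => ?_⟩
  · rw [e]
    exact ⟨(hy b).1, (hy b).2.1⟩
  · rw [e]
    exact (hy b).2.2.1 hb
  · rw [e]
    exact (hy b).2.2.2 hb

theorem exists_ctl_map (C : BCx co B) (C' : BCx co B') (h : C'.UAcyc) :
    ∃ φ : (B →₀ ℚ) →ₗ[ℚ] (B' →₀ ℚ), Ctl co C.pos C'.pos φ ∧ Raises C.deg C'.deg 0 φ ∧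
      (∀ x, C'.d (φ x) = φ (C.d x)) ∧ ∀ x, augD C'.deg (φ x) = augD C.deg x := by
  have main : ∀ K : ℕ, ∃ φ : (B →₀ ℚ) →ₗ[ℚ] (B' →₀ ℚ), Ctl co C.pos C'.pos φ ∧
      Raises C.deg C'.deg 0 φ ∧
      (∀ b, C.deg b ≤ K → C'.d (φ (single b 1)) = φ (C.d (single b 1))) ∧
      ∀ x, augD C'.deg (φ x) = augD C.deg x := by
    intro K
    induction K with
    | zero =>
      obtain ⟨L, hL⟩ := C'.dense
      choose nr hnr using hL
      set y : B → (B' →₀ ℚ) := fun b => if C.deg b = 0 then single (nr (C.pos b)) 1 else 0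
        with hy
      have e : ∀ b, linearCombination ℚ y (single b 1) = y b := fun b => by simp
      have hR : Raises C.deg C'.deg 0 (linearCombination ℚ y) := by
        intro b
        rw [e, hy]
        simp only
        split_ifs with hb
        · have := Controlled_inDeg_single (deg := C'.deg) (nr (C.pos b))
          rwa [(hnr _).1, ← hb] at this
        · exact Controlled_inDeg_zero _ _
      refine ⟨linearCombination ℚ y, ⟨L, 1, fun b => ?_⟩, hR, fun b hb => ?_, fun x => ?_⟩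
      · rw [e, hy]
        simp only
        split_ifs with hb
        · refine ⟨fun b' hb' => ?_, by simp [l1_single]⟩
          rw [Finset.mem_singleton.1 (support_single_subset hb')]
          exact (hnr _).2
        · exact ⟨fun b' hb' => by simp at hb', by simp [l1]⟩
      · have hb0 : C.deg b = 0 := by omega
        have a1 := hR b
        have a2 := Controlled_inDeg_single (deg := C.deg) b
        rw [hb0] at a1 a2
        rw [Controlled_d_zero C' a1, Controlled_d_zero C a2, map_zero]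
      · refine Controlled_ext (φ := augD C'.deg ∘ₗ linearCombination ℚ y) fun b _ => ?_
        rw [LinearMap.comp_apply, e, hy, Controlled_aug_single]
        simp only
        split_ifs with hb
        · rw [Controlled_aug_single, if_pos (hnr _).1]
        · exact map_zero _
    | succ K ih =>
      obtain ⟨φ, p1, p2, p3, p4⟩ := ih
      have hdb : ∀ b, C.deg b = K + 1 → InDeg C.deg K (C.d (single b 1)) := fun b hb =>
        Controlled_inDeg_d C (hb ▸ Controlled_inDeg_single b)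
      obtain ⟨D, d1, d2, d3⟩ := Controlled_step C C' h
        (G := φ ∘ₗ C.d - C'.d ∘ₗ φ)
        (Controlled_ctl_sub (p1.comp C.d_ctl) (C'.d_ctl.comp p1)) (K + 1) K (by
          intro b hb
          simp only [LinearMap.sub_apply, LinearMap.comp_apply]
          refine ⟨Controlled_inDeg_sub (Controlled_inDeg_map p2 (hdb b hb))
            (Controlled_inDeg_d C' (by simpa [hb] using p2 b)), ?_, ?_⟩
          · have : (C'.d ∘ₗ φ) (C.d (single b 1)) = (φ ∘ₗ C.d) (C.d (single b 1)) :=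
              Controlled_ext fun b' hb' => p3 b' (hdb b hb b' hb').le
            simp only [LinearMap.comp_apply] at this
            rw [map_sub, this, C.dd, C'.dd, map_zero, sub_zero]
          · rw [map_sub, p4, C.aug_d, C'.aug_d, sub_zero])
      have hD0 : ∀ b, C.deg b ≤ K + 1 → D (C.d (single b 1)) = 0 := fun b hb =>
        Controlled_zero_of fun b' hb' => d2 b' (by
          have := C.d_deg b b' hb'
          omega)
      have hDR : Raises C.deg C'.deg 0 D := by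
        intro b
        by_cases hb : C.deg b = K + 1
        · simpa [hb] using (d3 b hb).1
        · rw [d2 b hb]
          exact Controlled_inDeg_zero _ _
      refine ⟨φ + D, Controlled_ctl_add p1 d1, fun b => Controlled_inDeg_add (p2 b) (hDR b),
        fun b hb => ?_, fun x => ?_⟩
      · simp only [LinearMap.add_apply, map_add]
        rw [hD0 b hb, add_zero]
        by_cases hb' : C.deg b = K + 1
        · rw [(d3 b hb').2]
          simp
        · rw [d2 b hb', map_zero, add_zero]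
          exact p3 b (by omega)
      · have : (augD C'.deg ∘ₗ D) x = 0 := Controlled_zero_of fun b _ => by
          by_cases hb : C.deg b = K + 1
          · exact Controlled_aug_zero (d3 b hb).1
          · rw [LinearMap.comp_apply, d2 b hb, map_zero]
        rw [LinearMap.comp_apply] at this
        rw [LinearMap.add_apply, map_add, p4, this, add_zero]
  obtain ⟨φ, p1, p2, p3, p4⟩ := main C.dim
  exact ⟨φ, p1, p2, fun x => Controlled_ext (φ := C'.d ∘ₗ φ) (ψ := φ ∘ₗ C.d)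
    fun b _ => p3 b (C.deg_le b), p4⟩

theorem exists_ctl_htpy (C : BCx co B) (C' : BCx co B') (h : C'.UAcyc)
    {F : (B →₀ ℚ) →ₗ[ℚ] (B' →₀ ℚ)} (h1 : Ctl co C.pos C'.pos F) (h2 : Raises C.deg C'.deg 0 F)
    (h3 : ∀ x, C'.d (F x) = F (C.d x)) (h4 : ∀ x, augD C'.deg (F x) = 0) :
    ∃ H : (B →₀ ℚ) →ₗ[ℚ] (B' →₀ ℚ), Ctl co C.pos C'.pos H ∧
      ∀ x, C'.d (H x) + H (C.d x) = F x := by
  have main : ∀ K : ℕ, ∃ H : (B →₀ ℚ) →ₗ[ℚ] (B' →₀ ℚ), Ctl co C.pos C'.pos H ∧
      Raises C.deg C'.deg 1 H ∧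
      ∀ b, C.deg b < K → C'.d (H (single b 1)) + H (C.d (single b 1)) = F (single b 1) := by
    intro K
    induction K with
    | zero =>
      exact ⟨0, Controlled_ctl_zero _ _, fun b => Controlled_inDeg_zero _ _,
        fun b hb => absurd hb (Nat.not_lt_zero _)⟩
    | succ K ih =>
      obtain ⟨H, p1, p2, p3⟩ := ih
      obtain ⟨D, d1, d2, d3⟩ := Controlled_step C C' h
        (G := F - C'.d ∘ₗ H - H ∘ₗ C.d)
        (Controlled_ctl_sub (Controlled_ctl_sub h1 (C'.d_ctl.comp p1)) (p1.comp C.d_ctl)) K K (by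
          intro b hb
          simp only [LinearMap.sub_apply, LinearMap.comp_apply]
          refine ⟨Controlled_inDeg_sub (Controlled_inDeg_sub (by simpa [hb] using h2 b)
            (Controlled_inDeg_d C' (by simpa [hb] using p2 b))) ?_, ?_, ?_⟩
          · intro b'' hb''
            obtain ⟨b', hb', hb2⟩ := mem_support_map H hb''
            rw [p2 b' b'' hb2, C.d_deg b b' hb', hb]
          · have : (C'.d ∘ₗ H + H ∘ₗ C.d) (C.d (single b 1)) = F (C.d (single b 1)) :=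
              Controlled_ext fun b' hb' => p3 b' (by
                have := C.d_deg b b' hb'
                omega)
            simp only [LinearMap.add_apply, LinearMap.comp_apply] at this
            rw [C.dd, map_zero, add_zero] at this
            rw [map_sub, map_sub, h3, this, C'.dd, sub_zero, sub_self]
          · have : (augD C'.deg ∘ₗ H) (C.d (single b 1)) = 0 :=
              Controlled_zero_of fun b' _ => Controlled_aug_zero (p2 b')
            rw [LinearMap.comp_apply] at this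
            rw [map_sub, map_sub, h4, C'.aug_d, this, sub_zero, sub_zero])
      have hD0 : ∀ b, C.deg b < K + 1 → D (C.d (single b 1)) = 0 := fun b hb =>
        Controlled_zero_of fun b' hb' => d2 b' (by
          have := C.d_deg b b' hb'
          omega)
      have hDR : Raises C.deg C'.deg 1 D := by
        intro b
        by_cases hb : C.deg b = K
        · simpa [hb] using (d3 b hb).1
        · rw [d2 b hb]
          exact Controlled_inDeg_zero _ _
      refine ⟨H + D, Controlled_ctl_add p1 d1, fun b => Controlled_inDeg_add (p2 b) (hDR b),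
        fun b hb => ?_⟩
      simp only [LinearMap.add_apply, map_add]
      rw [hD0 b hb, add_zero]
      by_cases hb' : C.deg b = K
      · rw [(d3 b hb').2]
        simp only [LinearMap.sub_apply, LinearMap.comp_apply]
        abel
      · rw [d2 b hb', map_zero, add_zero]
        exact p3 b (by omega)
  obtain ⟨H, p1, _, p3⟩ := main (C.dim + 1)
  exact ⟨H, p1, fun x => Controlled_ext (φ := C'.d ∘ₗ H + H ∘ₗ C.d) (ψ := F)
    fun b _ => p3 b (Nat.lt_succ_of_le (C.deg_le b))⟩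

theorem Controlled_ip_add_right (x y y' : B →₀ ℚ) : ip x (y + y') = ip x y + ip x y' := by
  rw [ip_comm, ip_add_left, ip_comm y, ip_comm y']

theorem gap (C : BCx co B) (X : BCx co B') (hC : C.UAcyc) (hX : X.UAcyc)
    {f : (B' →₀ ℚ) →ₗ[ℚ] (B' →₀ ℚ)} (h1 : Ctl co X.pos X.pos f) (h2 : Raises X.deg X.deg 0 f)
    (h3 : ∀ x, X.d (f x) = f (X.d x)) (h4 : ∀ x, augD X.deg (f x) = augD X.deg x) {k : ℕ}
    (h5 : ∀ x, InDeg X.deg k x → n2 (f x) ≤ 1 / 2 * n2 x) {dT : (B →₀ ℚ) →ₗ[ℚ] (B →₀ ℚ)}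
    (hT : ∀ x y, ip (dT x) y = ip x (C.d y)) :
    ∃ κ : ℚ, 0 < κ ∧ ∀ u, InDeg C.deg k u → κ * n2 u ≤ n2 (C.d u) + n2 (dT u) := by
  obtain ⟨a, a1, a2, a3, a4⟩ := exists_ctl_map C X hX
  obtain ⟨b, b1, b2, b3, b4⟩ := exists_ctl_map X C hC
  obtain ⟨Ma, hMa, ha⟩ := Ctl.bound C a1
  obtain ⟨Mb, hMb, hb⟩ := Ctl.bound X b1
  have pw : ∀ J : ℕ, ∃ F : (B' →₀ ℚ) →ₗ[ℚ] (B' →₀ ℚ), Ctl co X.pos X.pos F ∧
      (∀ j x, InDeg X.deg j x → InDeg X.deg j (F x)) ∧ (∀ x, X.d (F x) = F (X.d x)) ∧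
      (∀ x, augD X.deg (F x) = augD X.deg x) ∧
      ∀ x, InDeg X.deg k x → n2 (F x) ≤ (1 / 2) ^ J * n2 x := by
    intro J
    induction J with
    | zero =>
      exact ⟨LinearMap.id, Controlled_ctl_id _, fun _ _ h => h, fun _ => rfl, fun _ => rfl,
        fun x _ => by simp⟩
    | succ J ih =>
      obtain ⟨F, q1, q2, q3, q4, q5⟩ := ih
      refine ⟨f ∘ₗ F, h1.comp q1, fun j x hx => Controlled_inDeg_map h2 (q2 j x hx),
        fun x => ?_, fun x => ?_, fun x hx => ?_⟩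
      · simp only [LinearMap.comp_apply]
        rw [h3, q3]
      · simp only [LinearMap.comp_apply]
        rw [h4, q4]
      · have e1 := h5 _ (q2 k x hx)
        have e2 := q5 x hx
        rw [LinearMap.comp_apply, pow_succ]
        linarith
  obtain ⟨J, hJ⟩ := exists_pow_lt_of_lt_one (x := 1 / (4 * (Mb * Ma))) (y := (1 / 2 : ℚ))
    (by positivity) (by norm_num)
  obtain ⟨F, q1, q2, q3, q4, q5⟩ := pw J
  obtain ⟨H, H1, H2⟩ := exists_ctl_htpy C C hC (F := LinearMap.id - b ∘ₗ F ∘ₗ a)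
    (Controlled_ctl_sub (Controlled_ctl_id _) (b1.comp (q1.comp a1)))
    (fun c => Controlled_inDeg_sub (Controlled_inDeg_single c)
      (Controlled_inDeg_map b2 (q2 _ _ (a2 c))))
    (fun x => by
      simp only [LinearMap.sub_apply, LinearMap.comp_apply, LinearMap.id_apply]
      rw [map_sub, b3, q3, a3])
    (fun x => by
      simp only [LinearMap.sub_apply, LinearMap.comp_apply, LinearMap.id_apply]
      rw [map_sub, b4, q4, a4, sub_self])
  obtain ⟨M, hM, hH⟩ := Ctl.bound C H1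
  refine ⟨1 / (8 * M), by positivity, fun u hu => ?_⟩
  have hu0 := n2_nonneg u
  have g1 : n2 (b (F (a u))) ≤ 1 / 4 * n2 u := by
    have e1 := hb (F (a u))
    have e2 := q5 (a u) (Controlled_inDeg_map a2 hu)
    have e3 := ha u
    have e4 : (1 / 2 : ℚ) ^ J * (Mb * Ma) ≤ 1 / 4 := by
      have := mul_le_mul_of_nonneg_right hJ.le (show 0 ≤ Mb * Ma by positivity)
      refine this.trans (le_of_eq ?_)
      field_simp
    calc _ ≤ Mb * ((1 / 2) ^ J * (Ma * n2 u)) := by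
          refine e1.trans (mul_le_mul_of_nonneg_left (e2.trans ?_) hMb.le)
          exact mul_le_mul_of_nonneg_left e3 (by positivity)
      _ = (1 / 2 : ℚ) ^ J * (Mb * Ma) * n2 u := by ring
      _ ≤ _ := mul_le_mul_of_nonneg_right e4 hu0
  have e : n2 u = ip u (b (F (a u))) + ip (dT u) (H u) + ip u (H (C.d u)) := by
    have := H2 u
    simp only [LinearMap.sub_apply, LinearMap.comp_apply, LinearMap.id_apply] at this
    rw [hT, add_assoc, ← Controlled_ip_add_right, ← Controlled_ip_add_right, this, add_sub_cancel]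
    rfl
  have t1 := two_ip_le u (b (F (a u))) (t := 1 / 2) (by norm_num)
  have t2 := two_ip_le (dT u) (H u) (t := 4 * M) (by positivity)
  have t3 := two_ip_le u (H (C.d u)) (t := 1 / 4) (by norm_num)
  have t4 : n2 (H u) / (4 * M) ≤ n2 u / 4 := by
    rw [div_le_div_iff₀ (by positivity) (by norm_num)]
    have := hH u
    linarith
  have t5 := hH (C.d u)
  rw [div_mul_eq_mul_div, one_mul, div_le_iff₀ (by positivity)]
  have t6 : n2 (b (F (a u))) / (1 / 2) = 2 * n2 (b (F (a u))) := by ring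
  have t7 : n2 (H (C.d u)) / (1 / 4) = 4 * n2 (H (C.d u)) := by ring
  rw [t6] at t1
  rw [t7] at t3
  nlinarith

end Pool.Agent.Work.MP_dd0bbc_gt
end

-- merged part: Pool.Agent.Work.MP_dd0bbc_gt.Kazhdan
section
/-! A spectral gap bounds the Betti numbers of finite coverings. -/

set_option autoImplicit false

namespace Pool.Agent.Work.MP_dd0bbc_gt

open Finsupp Matrix

theorem Kazhdan_rank_add {F I J : Type} [Field F] [Fintype I] [Fintype J] (X Z : Matrix I J F) :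
    (X + Z).rank ≤ X.rank + Z.rank := by
  unfold Matrix.rank
  refine le_trans (Submodule.finrank_mono ?_) (Submodule.finrank_add_le_finrank_add_finrank _ _)
  rintro _ ⟨v, rfl⟩
  rw [mulVecLin_add]
  exact Submodule.add_mem_sup ⟨v, rfl⟩ ⟨v, rfl⟩

theorem Kazhdan_real {I : Type} [Fintype I] [DecidableEq I] (D : Matrix I I ℝ)
    (hD : D.IsHermitian) (r : ℝ) (j : ℕ) :
    (Fintype.card I : ℝ) ≤ D.rank + (((1 : Matrix I I ℝ) - r • D) ^ (2 * j)).trace := by
  have e : ((1 : Matrix I I ℝ) - r • D) ^ (2 * j) =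
      Unitary.conjStarAlgAut ℝ _ hD.eigenvectorUnitary
        (diagonal fun i => (1 - r * hD.eigenvalues i) ^ (2 * j)) := by
    have e1 : (diagonal fun i => (1 - r * hD.eigenvalues i) ^ (2 * j)) =
        ((1 : Matrix I I ℝ) - r • diagonal (RCLike.ofReal ∘ hD.eigenvalues)) ^ (2 * j) := by
      rw [← diagonal_one, ← diagonal_smul, diagonal_sub, diagonal_pow]
      rfl
    rw [e1, map_pow, map_sub, map_one, map_smul, ← hD.spectral_theorem]
  rw [e, Unitary.conjStarAlgAut_apply, trace_mul_cycle, Unitary.coe_star_mul_self, one_mul,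
    trace_diagonal, hD.rank_eq_card_non_zero_eigs, Fintype.card_subtype, Finset.card_filter,
    ← Finset.card_univ, Finset.card_eq_sum_ones]
  push_cast
  rw [← Finset.sum_add_distrib]
  refine Finset.sum_le_sum fun i _ => ?_
  split_ifs with h
  · have := (even_two_mul j).pow_nonneg (1 - r * hD.eigenvalues i)
    linarith
  · rw [not_not.1 h]
    simp

theorem card_le_rank_add_trace {I J J' : Type} [Fintype I] [Fintype J] [Fintype J']
    [DecidableEq I] (A : Matrix I J ℚ) (B : Matrix J' I ℚ) (r : ℚ) (j : ℕ) :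
    (Fintype.card I : ℚ) ≤ A.rank + B.rank +
      (((1 : Matrix I I ℚ) - r • (A * Aᵀ + Bᵀ * B)) ^ (2 * j)).trace := by
  obtain ⟨D, hD⟩ : ∃ D, D = A * Aᵀ + Bᵀ * B := ⟨_, rfl⟩
  have h1 : D.rank ≤ A.rank + B.rank := by
    rw [hD]
    exact (Kazhdan_rank_add _ _).trans (add_le_add (rank_mul_le_left _ _) (rank_mul_le_right _ _))
  have h2 : (D.map (algebraMap ℚ ℝ)).rank ≤ D.rank :=
    rank_map_le (algebraMap ℚ ℝ) (RingHom.id ℚ) Function.injective_id D
  have h3 : Dᵀ = D := by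
    rw [hD, transpose_add, transpose_mul, transpose_mul, transpose_transpose, transpose_transpose]
  have h4 : (D.map (algebraMap ℚ ℝ)).IsHermitian := by
    ext a b
    have := congrFun (congrFun h3 a) b
    rw [transpose_apply] at this
    simp [conjTranspose_apply, this]
  have h5 := Kazhdan_real _ h4 r j
  have h6 : ((1 : Matrix I I ℝ) - (r : ℝ) • D.map (algebraMap ℚ ℝ)) ^ (2 * j) =
      (((1 : Matrix I I ℚ) - r • D) ^ (2 * j)).map (algebraMap ℚ ℝ) := by
    have e : (1 : Matrix I I ℝ) - (r : ℝ) • D.map (algebraMap ℚ ℝ) =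
        (algebraMap ℚ ℝ).mapMatrix ((1 : Matrix I I ℚ) - r • D) := by
      rw [map_sub, map_one]
      congr 1
      ext a b
      simp
    rw [e, ← map_pow]
    rfl
  have h7 : ((((1 : Matrix I I ℚ) - r • D) ^ (2 * j)).map (algebraMap ℚ ℝ)).trace =
      ((((1 : Matrix I I ℚ) - r • D) ^ (2 * j)).trace : ℚ) := by
    simp [trace]
  rw [h6, h7] at h5
  rw [← hD]
  have h8 : ((D.map (algebraMap ℚ ℝ)).rank : ℝ) ≤ A.rank + B.rank := by exact_mod_cast h2.trans h1
  have h9 : (Fintype.card I : ℝ) ≤ A.rank + B.rank +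
      ((((1 : Matrix I I ℚ) - r • D) ^ (2 * j)).trace : ℚ) := by linarith
  exact_mod_cast h9

section Norm

variable {B : Type}

theorem Kazhdan_ip_sub (x y z : B →₀ ℚ) (r : ℚ) : ip (x - r • y) z = ip x z - r * ip y z := by
  rw [sub_eq_add_neg, ← neg_smul, ip_add_left, ip_smul_left]
  ring

theorem Kazhdan_n2_sub (x y : B →₀ ℚ) (r : ℚ) :
    n2 (x - r • y) = n2 x - 2 * r * ip y x + r ^ 2 * n2 y := by
  unfold n2
  rw [Kazhdan_ip_sub, ip_comm x (x - r • y), ip_comm y (x - r • y), Kazhdan_ip_sub,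
    Kazhdan_ip_sub, ip_comm x y]
  ring

theorem Kazhdan_n2_add (x y : B →₀ ℚ) : n2 (x + y) ≤ 2 * n2 x + 2 * n2 y := by
  have h := two_ip_le x y one_pos
  unfold n2 at h ⊢
  rw [ip_add_left, ip_comm x (x + y), ip_comm y (x + y), ip_add_left, ip_add_left, ip_comm y x]
  linarith

end Norm

section Tw

variable {Y Γ : Type} [Fintype Y] [LinearOrder Y] [Group Γ] (K : Finset (Finset Y))
  (bs : Finset Y → Y) (c : Y → Y → Γ)

/-- The averaging operator. -/
noncomputable def Kazhdan_T (r : ℚ) : Module.End ℚ (Γ × NF K →₀ ℚ) :=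
  1 - r • (twdT K bs c * twd K bs c + twd K bs c * twdT K bs c)

theorem Kazhdan_T_apply (r : ℚ) (u : Γ × NF K →₀ ℚ) : Kazhdan_T K bs c r u =
    u - r • (twdT K bs c (twd K bs c u) + twd K bs c (twdT K bs c u)) := rfl

variable {K bs c}

theorem Kazhdan_deg (r : ℚ) {k : ℕ} {u : Γ × NF K →₀ ℚ} (hu : InDeg (twDeg K) k u) :
    InDeg (twDeg K) k (Kazhdan_T K bs c r u) := by
  intro b hb
  by_contra hk
  have h1 : u b = 0 := by
    by_contra e
    exact hk (hu b (mem_support_iff.2 e))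
  have h2 : twdT K bs c (twd K bs c u) b = 0 := by
    by_contra e
    obtain ⟨b1, h1, e1⟩ := mem_support_map _ (mem_support_iff.2 e)
    obtain ⟨b2, h2, e2⟩ := mem_support_map _ h1
    have := twdT_deg _ _ e1
    have := twd_deg _ _ e2
    have := hu _ h2
    omega
  have h3 : twd K bs c (twdT K bs c u) b = 0 := by
    by_contra e
    obtain ⟨b1, h1, e1⟩ := mem_support_map _ (mem_support_iff.2 e)
    obtain ⟨b2, h2, e2⟩ := mem_support_map _ h1
    have := twd_deg _ _ e1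
    have := twdT_deg _ _ e2
    have := hu _ h2
    omega
  apply mem_support_iff.1 hb
  simp [Kazhdan_T_apply, h1, h2, h3]

theorem Kazhdan_symm (hK : ∀ S ∈ K, ∀ T, T ⊆ S → T ∈ K)
    (hbs : ∀ S : Finset Y, S.Nonempty → bs S ∈ S) (hc : Cocycle K c) (r : ℚ) (j : ℕ)
    (x y : Γ × NF K →₀ ℚ) :
    ip ((Kazhdan_T K bs c r ^ j) x) y = ip x ((Kazhdan_T K bs c r ^ j) y) := by
  have h1 : ∀ x y, ip (Kazhdan_T K bs c r x) y = ip x (Kazhdan_T K bs c r y) := by
    intro x y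
    rw [ip_comm x, Kazhdan_T_apply, Kazhdan_T_apply, Kazhdan_ip_sub, Kazhdan_ip_sub, ip_add_left,
      ip_add_left, ip_twdT hK hbs hc, ip_twdT hK hbs hc, ip_comm (twd K bs c (twdT K bs c x)),
      ip_comm (twd K bs c (twdT K bs c y)), ← ip_twdT hK hbs hc, ← ip_twdT hK hbs hc x,
      ← ip_twdT hK hbs hc y, ip_comm x y, ip_comm (twdT K bs c x), ip_twdT hK hbs hc,
      ip_comm (twd K bs c x)]
  induction j generalizing x y with
  | zero => rfl
  | succ j ih =>
    conv_lhs => rw [pow_succ']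
    conv_rhs => rw [pow_succ]
    rw [Module.End.mul_apply, Module.End.mul_apply, h1, ih]

theorem Kazhdan_decay (hK : ∀ S ∈ K, ∀ T, T ⊆ S → T ∈ K)
    (hbs : ∀ S : Finset Y, S.Nonempty → bs S ∈ S) (hc : Cocycle K c) (k : ℕ)
    {κ : ℚ} (hκ : 0 < κ) (hgap : ∀ u, InDeg (twDeg K) k u →
      κ * n2 u ≤ n2 (twd K bs c u) + n2 (twdT K bs c u)) :
    ∃ r t : ℚ, 0 ≤ t ∧ t < 1 ∧ ∀ (j : ℕ) (u : Γ × NF K →₀ ℚ), InDeg (twDeg K) k u →
      n2 ((Kazhdan_T K bs c r ^ j) u) ≤ t ^ j * n2 u := by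
  obtain ⟨M, hM, hb⟩ := twd_bound (K := K) (bs := bs) (c := c)
  obtain ⟨r, hr⟩ : ∃ r : ℚ, r = 1 / (2 * M) := ⟨_, rfl⟩
  have hr0 : 0 < r := by rw [hr]; positivity
  have hrM : r * (2 * M) = 1 := by rw [hr]; field_simp
  have h1 : ∀ u, InDeg (twDeg K) k u →
      n2 (Kazhdan_T K bs c r u) ≤ max (1 - r * κ) 0 * n2 u := by
    intro u hu
    have e1 : ip (twdT K bs c (twd K bs c u) + twd K bs c (twdT K bs c u)) u =
        n2 (twd K bs c u) + n2 (twdT K bs c u) := by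
      rw [ip_add_left, ip_twdT hK hbs hc, ip_comm (twd K bs c (twdT K bs c u)),
        ← ip_twdT hK hbs hc u]
      rfl
    have e2 := Kazhdan_n2_add (twdT K bs c (twd K bs c u)) (twd K bs c (twdT K bs c u))
    have e3 := (hb (twd K bs c u)).2
    have e4 := (hb (twdT K bs c u)).1
    have e5 := hgap u hu
    have e6 := mul_le_mul_of_nonneg_right (le_max_left (1 - r * κ) 0) (n2_nonneg u)
    rw [Kazhdan_T_apply, Kazhdan_n2_sub, e1]
    obtain ⟨E, hE⟩ : ∃ E, E = n2 (twd K bs c u) + n2 (twdT K bs c u) := ⟨_, rfl⟩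
    have e7 : n2 (twdT K bs c (twd K bs c u) + twd K bs c (twdT K bs c u)) ≤ 2 * M * E := by
      rw [hE]
      linarith
    rw [← hE] at e5 ⊢
    have e8 := mul_le_mul_of_nonneg_left e7 (sq_nonneg r)
    have e9 : r ^ 2 * (2 * M * E) = r * E := by
      rw [show r ^ 2 * (2 * M * E) = r * (r * (2 * M)) * E by ring, hrM, mul_one]
    have e10 := mul_le_mul_of_nonneg_left e5 hr0.le
    linarith
  refine ⟨r, max (1 - r * κ) 0, le_max_right _ _,
    max_lt (by have := mul_pos hr0 hκ; linarith) one_pos, fun j => ?_⟩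
  induction j with
  | zero => intro u _; simp
  | succ j ih =>
    intro u hu
    rw [pow_succ, Module.End.mul_apply, pow_succ, mul_assoc]
    exact (ih _ (Kazhdan_deg r hu)).trans
      (mul_le_mul_of_nonneg_left (h1 u hu) (pow_nonneg (le_max_right _ _) _))

variable {Q : Type} [Group Q] [Fintype Q] [DecidableEq Q]

/-- The push-forward to a finite covering. -/
noncomputable def Kazhdan_π (K : Finset (Finset Y)) (θ : Γ →* Q) (g : Q) (m : ℕ) :
    (Γ × NF K →₀ ℚ) →ₗ[ℚ] (Q × Face K m → ℚ) :=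
  linearCombination ℚ (fun b p => if g * θ b.1 = p.1 ∧ b.2.1 = p.2.1 then 1 else 0)

omit [Fintype Y] [Fintype Q] in
theorem Kazhdan_π_single (θ : Γ →* Q) (g : Q) (m : ℕ) (b : Γ × NF K) (p : Q × Face K m) :
    Kazhdan_π K θ g m (single b 1) p = if g * θ b.1 = p.1 ∧ b.2.1 = p.2.1 then 1 else 0 := by
  simp [Kazhdan_π]

omit [Fintype Y] in
/-- A face as a nonempty face. -/
def Kazhdan_nf {m : ℕ} (S : Face K m) : NF K :=
  ⟨S.1, S.2.1, Finset.card_pos.1 (by rw [S.2.2]; omega)⟩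

omit [Fintype Q] in
theorem Kazhdan_π_op (θ : Γ →* Q) (g : Q) (m : ℕ) (a : NF K → NF K → ℚ) (e : NF K → NF K → Γ)
    (b : Γ × NF K) (p : Q × Face K m) :
    Kazhdan_π K θ g m (TwBasic_op a e (single b 1)) p =
      if g * θ b.1 * θ (e b.2 (Kazhdan_nf p.2)) = p.1 then a b.2 (Kazhdan_nf p.2) else 0 := by
  rw [TwBasic_op_single, map_sum, Finset.sum_apply, Finset.sum_eq_single (Kazhdan_nf p.2)]
  · rw [map_smul, Pi.smul_apply, Kazhdan_π_single, map_mul, ← mul_assoc]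
    simp [Kazhdan_nf]
  · intro S _ hS
    rw [map_smul, Pi.smul_apply, Kazhdan_π_single, if_neg, smul_zero]
    exact fun h => hS (Subtype.ext h.2)
  · simp

theorem Kazhdan_sum (θ : Γ →* Q) (g : Q) (m : ℕ) (b : Γ × NF K) (w : Q × Face K m → ℚ) :
    ∑ p, w p * Kazhdan_π K θ g m (single b 1) p =
      if h : b.2.1.card = m + 1 then w (g * θ b.1, ⟨b.2.1, b.2.2.1, h⟩) else 0 := by
  simp only [Kazhdan_π_single]
  split_ifs with h
  · rw [Finset.sum_eq_single (g * θ b.1, (⟨b.2.1, b.2.2.1, h⟩ : Face K m))]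
    · simp
    · intro p _ hp
      rw [if_neg, mul_zero]
      exact fun e => hp (Prod.ext e.1.symm (Subtype.ext e.2.symm))
    · simp
  · refine Finset.sum_eq_zero fun p _ => ?_
    rw [if_neg, mul_zero]
    exact fun e => h (by rw [e.2, p.2.2.2])

theorem Kazhdan_π_d (θ : Γ →* Q) (g : Q) (m : ℕ) (u : Γ × NF K →₀ ℚ) :
    Kazhdan_π K θ g m (twd K bs c u) =
      (tinc K bs (fun a b => θ (c a b)) m)ᵀ *ᵥ Kazhdan_π K θ g (m + 1) u := by
  have : Kazhdan_π K θ g m ∘ₗ twd K bs c =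
      (tinc K bs (fun a b => θ (c a b)) m)ᵀ.mulVecLin ∘ₗ Kazhdan_π K θ g (m + 1) := by
    refine Finsupp.lhom_ext' fun b => LinearMap.ext_ring ?_
    funext p
    change Kazhdan_π K θ g m (twd K bs c (single b 1)) p =
      ∑ p', tinc K bs (fun a b => θ (c a b)) m p' p * Kazhdan_π K θ g (m + 1) (single b 1) p'
    rw [Kazhdan_sum, TwBasic_twd, Kazhdan_π_op]
    by_cases h : b.2.1.card = m + 1 + 1
    · rw [dif_pos h]
      exact if_congr eq_comm rfl rfl
    · rw [dif_neg h]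
      have : inc' b.2.1 (Kazhdan_nf p.2).1 = 0 := by
        by_contra e
        have h1 := (TwBasic_inc_ne e).2
        have h2 : (Kazhdan_nf p.2).1.card = m + 1 := p.2.2.2
        omega
      rw [this, ite_self]
  exact LinearMap.congr_fun this u

theorem Kazhdan_π_dT (hK : ∀ S ∈ K, ∀ T, T ⊆ S → T ∈ K)
    (hbs : ∀ S : Finset Y, S.Nonempty → bs S ∈ S) (hc : Cocycle K c) (θ : Γ →* Q) (g : Q) (m : ℕ)
    (u : Γ × NF K →₀ ℚ) : Kazhdan_π K θ g (m + 1) (twdT K bs c u) =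
      tinc K bs (fun a b => θ (c a b)) m *ᵥ Kazhdan_π K θ g m u := by
  have : Kazhdan_π K θ g (m + 1) ∘ₗ twdT K bs c =
      (tinc K bs (fun a b => θ (c a b)) m).mulVecLin ∘ₗ Kazhdan_π K θ g m := by
    refine Finsupp.lhom_ext' fun b => LinearMap.ext_ring ?_
    funext p
    change Kazhdan_π K θ g (m + 1) (twdT K bs c (single b 1)) p =
      ∑ p', tinc K bs (fun a b => θ (c a b)) m p p' * Kazhdan_π K θ g m (single b 1) p'
    rw [Kazhdan_sum, TwBasic_twdT, Kazhdan_π_op]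
    by_cases h0 : inc' (Kazhdan_nf p.2).1 b.2.1 = 0
    · rw [h0, ite_self]
      split_ifs with h
      · exact ((if_congr Iff.rfl h0 rfl).trans (ite_self 0)).symm
      · rfl
    · obtain ⟨h1, h2⟩ := TwBasic_inc_ne h0
      have h3 : (Kazhdan_nf p.2).1.card = m + 1 + 1 := p.2.2.2
      rw [dif_pos (by omega)]
      have e : c (bs b.2.1) (bs p.2.1) * c (bs p.2.1) (bs b.2.1) = 1 := by
        rw [hc.mul _ _ _ (hK _ p.2.2.1 _ ?_), hc.self]
        simp only [Finset.insert_subset_iff, Finset.singleton_subset_iff]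
        exact ⟨h1 (hbs _ b.2.2.2), hbs _ (Kazhdan_nf p.2).2.2, h1 (hbs _ b.2.2.2)⟩
      refine if_congr ?_ rfl rfl
      change g * θ b.1 * θ (c (bs b.2.1) (bs p.2.1)) = p.1 ↔
        g * θ b.1 = p.1 * θ (c (bs p.2.1) (bs b.2.1))
      rw [eq_inv_of_mul_eq_one_left e, map_inv, mul_inv_eq_iff_eq_mul]
  exact LinearMap.congr_fun this u

theorem Kazhdan_π_T (hK : ∀ S ∈ K, ∀ T, T ⊆ S → T ∈ K)
    (hbs : ∀ S : Finset Y, S.Nonempty → bs S ∈ S) (hc : Cocycle K c) (θ : Γ →* Q) (g : Q) (k : ℕ)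
    (r : ℚ) (j : ℕ) (u : Γ × NF K →₀ ℚ) :
    Kazhdan_π K θ g (k + 1) ((Kazhdan_T K bs c r ^ j) u) =
      ((1 - r • (tinc K bs (fun a b => θ (c a b)) k * (tinc K bs (fun a b => θ (c a b)) k)ᵀ +
        (tinc K bs (fun a b => θ (c a b)) (k + 1))ᵀ * tinc K bs (fun a b => θ (c a b)) (k + 1))) ^
        j) *ᵥ Kazhdan_π K θ g (k + 1) u := by
  induction j with
  | zero => simp
  | succ j ih =>
    rw [pow_succ', pow_succ', Module.End.mul_apply, ← mulVec_mulVec, ← ih, Kazhdan_T_apply,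
      map_sub, map_smul, map_add, Kazhdan_π_dT hK hbs hc, Kazhdan_π_d, Kazhdan_π_d,
      Kazhdan_π_dT hK hbs hc, sub_mulVec, one_mulVec, smul_mulVec, add_mulVec, mulVec_mulVec,
      mulVec_mulVec]

omit [Fintype Y] [Fintype Q] in
theorem Kazhdan_π_val (θ : Γ →* Q) (g : Q) (m : ℕ) (u : Γ × NF K →₀ ℚ) (σ : Face K m)
    (h : ∀ b ∈ u.support, θ b.1 = 1 → b.1 = 1) :
    Kazhdan_π K θ g m u (g, σ) = u (1, Kazhdan_nf σ) := by
  rw [TwBasic_map_eq _ u, Finset.sum_apply, Finset.sum_eq_single (1, Kazhdan_nf σ)]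
  · rw [Pi.smul_apply, Kazhdan_π_single]
    simp [Kazhdan_nf]
  · intro b hb hne
    rw [Pi.smul_apply, Kazhdan_π_single, if_neg, smul_zero]
    exact fun e => hne (Prod.ext (h b hb (mul_eq_left.1 e.1)) (Subtype.ext e.2))
  · intro h0
    rw [notMem_support_iff.1 h0, zero_smul]
    rfl

end Tw

theorem kazhdan {Y Γ : Type} [Fintype Y] [LinearOrder Y] [Group Γ] {K : Finset (Finset Y)}
    (hK : ∀ S ∈ K, ∀ T, T ⊆ S → T ∈ K) {bs : Finset Y → Y}
    (hbs : ∀ S : Finset Y, S.Nonempty → bs S ∈ S) {c : Y → Y → Γ} (hc : Cocycle K c) (k : ℕ)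
    {κ : ℚ} (hκ : 0 < κ) (hgap : ∀ u, InDeg (twDeg K) (k + 1) u →
      κ * n2 u ≤ n2 (twd K bs c u) + n2 (twdT K bs c u)) {ε : ℝ} (hε : 0 < ε) :
    ∃ s : Finset Γ, ∀ (Q : Type) [Group Q] [Fintype Q] [DecidableEq Q] (θ : Γ →* Q),
      (∀ γ ∈ s, θ γ = 1 → γ = 1) →
        (Fintype.card Q * fn K (k + 1) : ℝ) ≤ (tinc K bs (fun a b => θ (c a b)) k).rank +
          (tinc K bs (fun a b => θ (c a b)) (k + 1)).rank + ε * Fintype.card Q := by
  classical
  obtain ⟨r, t, ht0, ht1, hd⟩ := Kazhdan_decay hK hbs hc (k + 1) hκ hgap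
  obtain ⟨j, hj⟩ := exists_pow_lt_of_lt_one (x := ε / (fn K (k + 1) + 1)) (y := (t : ℝ))
    (by positivity) (by exact_mod_cast ht1)
  have hj' : (fn K (k + 1) : ℝ) * (t : ℝ) ^ j ≤ ε := by
    rw [lt_div_iff₀ (by positivity)] at hj
    have : (0 : ℝ) ≤ (t : ℝ) ^ j := pow_nonneg (by exact_mod_cast ht0) _
    linarith
  refine ⟨Finset.univ.biUnion fun σ : Face K (k + 1) =>
    ((Kazhdan_T K bs c r ^ (2 * j)) (single (1, Kazhdan_nf σ) 1)).support.image Prod.fst,
    fun Q _ _ _ θ hθ => ?_⟩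
  have h1 := card_le_rank_add_trace (tinc K bs (fun a b => θ (c a b)) k)
    (tinc K bs (fun a b => θ (c a b)) (k + 1)) r j
  obtain ⟨T, hT⟩ : ∃ T, T = ((1 - r • (tinc K bs (fun a b => θ (c a b)) k *
      (tinc K bs (fun a b => θ (c a b)) k)ᵀ + (tinc K bs (fun a b => θ (c a b)) (k + 1))ᵀ *
        tinc K bs (fun a b => θ (c a b)) (k + 1))) ^ (2 * j) :
      Matrix (Q × Face K (k + 1)) (Q × Face K (k + 1)) ℚ) := ⟨_, rfl⟩
  have h2 : ∀ p, T p p ≤ t ^ j := by
    rintro ⟨g, σ⟩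
    have e1 := congrFun (Kazhdan_π_T hK hbs hc θ g k r (2 * j) (single (1, Kazhdan_nf σ) 1)) (g, σ)
    rw [← hT, Kazhdan_π_val θ g _ _ σ (fun b hb => hθ _ (Finset.mem_biUnion.2
      ⟨σ, Finset.mem_univ _, Finset.mem_image_of_mem _ hb⟩))] at e1
    have e2 := Kazhdan_sum θ g (k + 1) (1, Kazhdan_nf σ) (T (g, σ))
    rw [dif_pos (show (Kazhdan_nf σ).1.card = k + 1 + 1 from σ.2.2), map_one, mul_one] at e2
    have e3 : T (g, σ) (g, σ) =
        (Kazhdan_T K bs c r ^ (2 * j)) (single (1, Kazhdan_nf σ) 1) (1, Kazhdan_nf σ) :=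
      (e1.trans e2).symm
    have e4 := hd j (single (1, Kazhdan_nf σ) 1) (fun b hb => by
      rw [Finset.mem_singleton.1 (support_single_subset hb)]
      change σ.1.card - 1 = k + 1
      rw [σ.2.2]
      rfl)
    have e5 : n2 (single ((1 : Γ), Kazhdan_nf σ) (1 : ℚ)) = 1 := by
      rw [n2, ip_single_left]
      simp
    rw [e5, mul_one, n2, Kazhdan_symm hK hbs hc, ← Module.End.mul_apply, ← pow_add, ← two_mul,
      ip_single_left, one_mul] at e4
    rw [e3]
    exact e4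
  have h3 : T.trace ≤ Fintype.card Q * fn K (k + 1) * t ^ j := by
    have := Finset.sum_le_card_nsmul Finset.univ _ _ fun p _ => h2 p
    rw [Finset.card_univ, Fintype.card_prod, card_face, nsmul_eq_mul, Nat.cast_mul] at this
    exact this
  rw [← hT, Fintype.card_prod, card_face, Nat.cast_mul] at h1
  have h4 : (Fintype.card Q * fn K (k + 1) : ℝ) ≤ (tinc K bs (fun a b => θ (c a b)) k).rank +
      (tinc K bs (fun a b => θ (c a b)) (k + 1)).rank +
        Fintype.card Q * fn K (k + 1) * (t : ℝ) ^ j := by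
    exact_mod_cast h1.trans (add_le_add le_rfl h3)
  have h5 := mul_le_mul_of_nonneg_left hj' (Nat.cast_nonneg (α := ℝ) (Fintype.card Q))
  linarith

end Pool.Agent.Work.MP_dd0bbc_gt
end

-- merged part: Pool.Agent.Work.MP_dd0bbc_gt.FinCov
section
/-! The finite simplicial covering defined by a cocycle. -/

set_option autoImplicit false

namespace Pool.Agent.Work.MP_dd0bbc_gt

open Finset

lemma FinCov_sgn {Y Y' : Type} [LinearOrder Y] [LinearOrder Y'] {f : Y → Y'} (hf : StrictMono f)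
    (y : Y) (τ : Finset Y) : sgn (f y) (τ.image f) = sgn y τ := by
  unfold sgn
  rw [filter_image, card_image_of_injective _ hf.injective]
  simp only [hf.lt_iff_lt]

theorem FinCov_aux {Y Q Y' : Type} [Fintype Y] [LinearOrder Y] [Group Q] [Fintype Q]
    [DecidableEq Q] [Fintype Y'] [LinearOrder Y'] {K : Finset (Finset Y)}
    (hK : ∀ S ∈ K, ∀ T, T ⊆ S → T ∈ K) {bs : Finset Y → Y}
    (hbs : ∀ S : Finset Y, S.Nonempty → bs S ∈ S) {c : Y → Y → Q} (hc : Cocycle K c)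
    (mk : Y → Q → Y') (pr : Y' → Y) (lab : Y' → Q) (h1 : ∀ y q, pr (mk y q) = y)
    (h2 : ∀ y q, lab (mk y q) = q) (h3 : ∀ x, mk (pr x) (lab x) = x)
    (h4 : ∀ x x', pr x < pr x' → x < x') :
    ∃ (K' : Finset (Finset Y')) (lift : Y' → Y → Y'), IsCov K K' pr lift ∧
      (∀ y, (univ.filter (fun x => pr x = y)).card = Fintype.card Q) ∧
      (∀ x x', {x, x'} ∈ K' → lab x' = lab x * c (pr x) (pr x')) ∧
      ∀ k, (inc ℚ K' k).rank = (tinc K bs c k).rank := by
  obtain ⟨K', hK'⟩ : ∃ K' : Finset (Finset Y'), ∀ S, S ∈ K' ↔ S.image pr ∈ K ∧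
      ∀ x ∈ S, ∀ x' ∈ S, lab x' = lab x * c (pr x) (pr x') :=
    ⟨univ.filter (fun S => S.image pr ∈ K ∧
      ∀ x ∈ S, ∀ x' ∈ S, lab x' = lab x * c (pr x) (pr x')), fun S => by simp⟩
  have hmul : ∀ S ∈ K, ∀ a ∈ S, ∀ b ∈ S, ∀ e ∈ S, c a b * c b e = c a e := by
    intro S hS a ha b hb e he
    refine hc.mul a b e (hK S hS _ ?_)
    simp only [insert_subset_iff, singleton_subset_iff]
    exact ⟨ha, hb, he⟩
  obtain ⟨f, hf⟩ : ∃ f : Q → Y → Y → Y', ∀ q a j, f q a j = mk j (q * c a j) :=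
    ⟨_, fun _ _ _ => rfl⟩
  have f1 : ∀ q a j, pr (f q a j) = j := fun q a j => by rw [hf, h1]
  have f2 : ∀ q a j, lab (f q a j) = q * c a j := fun q a j => by rw [hf, h2]
  have f3 : ∀ q a, StrictMono (f q a) := fun q a j j' h => h4 _ _ (by rwa [f1, f1])
  have f4 : ∀ q a (S : Finset Y), (S.image (f q a)).image pr = S := by
    intro q a S
    rw [image_image]
    conv_rhs => rw [← image_id (s := S)]
    exact image_congr fun j _ => f1 q a j
  have f5 : ∀ q, ∀ S ∈ K, ∀ a ∈ S, S.image (f q a) ∈ K' := by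
    intro q S hS a ha
    rw [hK', f4]
    refine ⟨hS, fun x hx x' hx' => ?_⟩
    obtain ⟨j, hj, rfl⟩ := mem_image.1 hx
    obtain ⟨j', hj', rfl⟩ := mem_image.1 hx'
    rw [f2, f2, f1, f1, mul_assoc, hmul S hS a ha j hj j' hj']
  have f6 : ∀ S ∈ K', ∀ x ∈ S, ∀ x' ∈ S, f (lab x) (pr x) (pr x') = x' := by
    intro S hS x hx x' hx'
    rw [hf, ← ((hK' S).1 hS).2 x hx x' hx', h3]
  have f7 : ∀ q q' a b (S : Finset Y), b ∈ S → S.image (f q a) = S.image (f q' b) →
      q' = q * c a b := by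
    intro q q' a b S hb e
    have : f q' b b ∈ S.image (f q a) := e ▸ mem_image_of_mem _ hb
    obtain ⟨j, -, hj⟩ := mem_image.1 this
    have e1 : j = b := by rw [← f1 q a j, hj, f1]
    have e2 := congrArg lab hj
    rw [f2, f2, hc.self, mul_one, e1] at e2
    exact e2.symm
  have hne : ∀ {k : ℕ} (S : Face K k), bs S.1 ∈ S.1 := fun S =>
    hbs _ (card_pos.1 (by rw [S.2.2]; omega))
  obtain ⟨F, hF⟩ : ∃ F : ∀ k, Q × Face K k → Face K' k,
      ∀ k p, (F k p).1 = p.2.1.image (f p.1 (bs p.2.1)) :=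
    ⟨fun k p => ⟨p.2.1.image (f p.1 (bs p.2.1)), f5 _ _ p.2.2.1 _ (hne p.2), by
      rw [card_image_of_injective _ (f3 _ _).injective, p.2.2.2]⟩, fun _ _ => rfl⟩
  have hbij : ∀ k, Function.Bijective (F k) := by
    intro k
    constructor
    · rintro ⟨q, S⟩ ⟨q', S'⟩ e
      have e1 := congrArg Subtype.val e
      rw [hF, hF] at e1
      have e2 : S = S' := by
        apply Subtype.ext
        have := congrArg (image pr) e1
        rwa [f4, f4] at this
      subst e2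
      have := f7 _ _ _ _ _ (hne S) e1
      rw [hc.self, mul_one] at this
      exact Prod.ext this.symm rfl
    · intro T
      have hT : T.1.image pr ∈ K ∧ (T.1.image pr).card = k + 1 := by
        refine ⟨((hK' _).1 T.2.1).1, ?_⟩
        rw [card_image_of_injOn, T.2.2]
        intro x hx x' hx' e
        rw [← f6 _ T.2.1 x hx x hx, ← f6 _ T.2.1 x hx x' hx', e]
      obtain ⟨x, hx, e⟩ := mem_image.1 (hne (⟨_, hT⟩ : Face K k))
      refine ⟨(lab x, ⟨_, hT⟩), Subtype.ext ?_⟩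
      rw [hF]
      simp only at e ⊢
      rw [← e, image_image]
      conv_rhs => rw [← image_id (s := T.1)]
      exact image_congr fun x' hx' => f6 _ T.2.1 x hx x' hx'
  refine ⟨K', fun x => f (lab x) (pr x), ⟨fun x j _ => f1 _ _ _, fun x S hS h => f5 _ S hS _ h,
    fun x => by rw [hf, hc.self, mul_one, h3], fun S hS => ((hK' S).1 hS).1, f6,
    fun S hS R hR => (hK' R).2 ⟨hK _ ((hK' S).1 hS).1 _ (image_subset_image hR),
      fun x hx x' hx' => ((hK' S).1 hS).2 x (hR hx) x' (hR hx')⟩⟩, fun y => ?_,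
    fun x x' h => ((hK' _).1 h).2 x (by simp) x' (by simp), fun k => ?_⟩
  · rw [← card_univ]
    refine card_bij' (fun x _ => lab x) (fun q _ => mk y q) (fun _ _ => mem_univ _)
      (fun q _ => by simp [h1]) (fun x hx => ?_) (fun q _ => h2 y q)
    rw [← (mem_filter.1 hx).2, h3]
  · have e : tinc K bs c k = (inc ℚ K' k).submatrix (Equiv.ofBijective _ (hbij (k + 1)))
        (Equiv.ofBijective _ (hbij k)) := by
      ext ⟨q, τ⟩ ⟨q', S⟩
      simp only [tinc, inc, Matrix.submatrix_apply, Equiv.ofBijective_apply, hF]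
      rw [sum_image (f3 _ _).injective.injOn]
      have key : ∀ y ∈ τ.1, (τ.1.image (f q (bs τ.1))).erase (f q (bs τ.1) y) =
          S.1.image (f q' (bs S.1)) ↔ τ.1.erase y = S.1 ∧ q' = q * c (bs τ.1) (bs S.1) := by
        intro y _
        rw [← image_erase (f3 _ _).injective]
        constructor
        · intro h
          have e1 : τ.1.erase y = S.1 := by
            have := congrArg (image pr) h
            rwa [f4, f4] at this
          rw [e1] at h
          exact ⟨e1, f7 _ _ _ _ _ (hne S) h⟩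
        · rintro ⟨e1, e2⟩
          have hs : S.1 ⊆ τ.1 := e1 ▸ erase_subset _ _
          rw [e1]
          refine image_congr fun j hj => ?_
          rw [hf, hf, e2, mul_assoc, hmul _ τ.2.1 _ (hne τ) _ (hs (hne S)) _ (hs hj)]
      split_ifs with hq
      · refine sum_congr rfl fun y hy => ?_
        rw [FinCov_sgn (f3 _ _)]
        exact if_congr (by rw [key y hy]; exact ⟨fun h => ⟨h, hq⟩, fun h => h.1⟩) rfl rfl
      · refine (sum_eq_zero fun y hy => if_neg ?_).symm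
        rw [key y hy]
        exact fun h => hq h.2
    rw [e, Matrix.rank_submatrix]

theorem exists_finCov {Y Q : Type} [Fintype Y] [LinearOrder Y] [Group Q] [Fintype Q]
    [DecidableEq Q] {K : Finset (Finset Y)} (hK : ∀ S ∈ K, ∀ T, T ⊆ S → T ∈ K) (h0 : ∅ ∈ K)
    {bs : Finset Y → Y} (hbs : ∀ S : Finset Y, S.Nonempty → bs S ∈ S) {c : Y → Y → Q}
    (hc : Cocycle K c) :
    ∃ (Y' : Type) (_ : Fintype Y') (_ : LinearOrder Y') (K' : Finset (Finset Y')) (pr : Y' → Y)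
      (lift : Y' → Y → Y') (lab : Y' → Q), IsCov K K' pr lift ∧
      (∀ y, (univ.filter (fun x => pr x = y)).card = Fintype.card Q) ∧
      (∀ x x', {x, x'} ∈ K' → lab x' = lab x * c (pr x) (pr x')) ∧
      ∀ k, (inc ℚ K' k).rank = (tinc K bs c k).rank := by
  obtain ⟨K', lift, h⟩ := FinCov_aux (Y' := Y ×ₗ Fin (Fintype.card Q)) hK hbs hc
    (fun y q => toLex (y, Fintype.equivFin Q q)) (fun x => (ofLex x).1)
    (fun x => (Fintype.equivFin Q).symm (ofLex x).2) (fun _ _ => rfl) (fun _ _ => by simp)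
    (fun x => by simp) (fun x x' h => Prod.Lex.lt_iff.2 (Or.inl h))
  exact ⟨_, _, _, K', _, lift, _, h⟩

end Pool.Agent.Work.MP_dd0bbc_gt
end

-- merged part: Pool.Agent.Work.MP_dd0bbc_gt.ProdDefs
section
/-! Tensor products of based chain complexes. -/

set_option autoImplicit false

namespace Pool.Agent.Work.MP_dd0bbc_gt

open Finsupp

/-- A chain self-map that contracts in degree `k`. -/
def BCx.Contr {P B : Type} {co : Coarse P} (X : BCx co B) (k : ℕ) : Prop :=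
  ∃ f : (B →₀ ℚ) →ₗ[ℚ] (B →₀ ℚ), Ctl co X.pos X.pos f ∧ Raises X.deg X.deg 0 f ∧
    (∀ x, X.d (f x) = f (X.d x)) ∧ (∀ x, augD X.deg (f x) = augD X.deg x) ∧
    ∀ x, InDeg X.deg k x → n2 (f x) ≤ 1 / 2 * n2 x

/-- The coarse space has a model with a spectral gap above degree `m`. -/
def GapAbove {P : Type} (co : Coarse P) (m : ℕ) : Prop :=
  ∃ (B : Type) (X : BCx co B), X.UAcyc ∧ ∀ k, m + 1 ≤ k → X.Contr k

/-- A chain self-map of norm at most one that contracts above degree `m`. -/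
def BCx.Strong {P B : Type} {co : Coarse P} (X : BCx co B) (m : ℕ) : Prop :=
  ∃ f : (B →₀ ℚ) →ₗ[ℚ] (B →₀ ℚ), Ctl co X.pos X.pos f ∧ Raises X.deg X.deg 0 f ∧
    (∀ x, X.d (f x) = f (X.d x)) ∧ (∀ x, augD X.deg (f x) = augD X.deg x) ∧
    (∀ x, n2 (f x) ≤ n2 x) ∧
    ∀ x : B →₀ ℚ, (∀ b ∈ x.support, m + 1 ≤ X.deg b) → n2 (f x) ≤ 1 / 2 * n2 x

variable {B₁ B₂ B₁' B₂' : Type}

/-- The tensor product of two chains. -/
noncomputable def tens : (B₁ →₀ ℚ) →ₗ[ℚ] (B₂ →₀ ℚ) →ₗ[ℚ] (B₁ × B₂ →₀ ℚ) :=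
  linearCombination ℚ (fun b => lmapDomain ℚ ℚ (Prod.mk b))

/-- The tensor product of two linear maps. -/
noncomputable def tmap (φ : (B₁ →₀ ℚ) →ₗ[ℚ] (B₁' →₀ ℚ)) (ψ : (B₂ →₀ ℚ) →ₗ[ℚ] (B₂' →₀ ℚ)) :
    (B₁ × B₂ →₀ ℚ) →ₗ[ℚ] (B₁' × B₂' →₀ ℚ) :=
  linearCombination ℚ (fun b => tens (φ (single b.1 1)) (ψ (single b.2 1)))

/-- The sign of the degree. -/
noncomputable def sgD (deg : B₁ → ℕ) : (B₁ →₀ ℚ) →ₗ[ℚ] (B₁ →₀ ℚ) :=
  linearCombination ℚ (fun b => single b ((-1 : ℚ) ^ deg b))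

/-- The product of two coarse distances. -/
def Coarse.prod {P₁ P₂ : Type} (co₁ : Coarse P₁) (co₂ : Coarse P₂) : Coarse (P₁ × P₂) where
  Λ a b := max (co₁.Λ a.1 b.1) (co₂.Λ a.2 b.2)
  symm a b := by rw [co₁.symm, co₂.symm]
  refl a := max_le (co₁.refl _) (co₂.refl _)
  tri L := by
    obtain ⟨L₁, h₁⟩ := co₁.tri L
    obtain ⟨L₂, h₂⟩ := co₂.tri L
    exact ⟨max L₁ L₂, fun a b c h h' => max_le_max
      (h₁ _ _ _ (le_of_max_le_left h) (le_of_max_le_left h'))
      (h₂ _ _ _ (le_of_max_le_right h) (le_of_max_le_right h'))⟩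

/-- `C` is the tensor product of `C₁` and `C₂`. -/
structure IsProd {P₁ P₂ : Type} {co₁ : Coarse P₁} {co₂ : Coarse P₂} (C₁ : BCx co₁ B₁)
    (C₂ : BCx co₂ B₂) (C : BCx (co₁.prod co₂) (B₁ × B₂)) : Prop where
  deg : ∀ b, C.deg b = C₁.deg b.1 + C₂.deg b.2
  pos : ∀ b, C.pos b = (C₁.pos b.1, C₂.pos b.2)
  d : C.d = tmap C₁.d LinearMap.id + tmap (sgD C₁.deg) C₂.d

end Pool.Agent.Work.MP_dd0bbc_gt
end

-- merged part: Pool.Agent.Work.MP_dd0bbc_gt.GapMain
section
/-! Vanishing of the Euler characteristic from a spectral gap. -/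

set_option autoImplicit false

namespace Pool.Agent.Work.MP_dd0bbc_gt

open Finset

theorem chi_zero_of_gap {m : ℕ} (hm : 1 ≤ m) {M : Type} [TopologicalSpace M] [Nonempty M]
    [LocallyPathConnectedSpace M] {Y : Type} [Fintype Y] [LinearOrder Y] {U : Y → Set M}
    (hU : GoodCover U) (D : Fan (2 * m) Y) (hK : D.K = nerve U) {X Γ P : Type}
    [TopologicalSpace X] [ContractibleSpace X] [LocallyPathConnectedSpace X] [Group Γ]
    [MulAction Γ X] {p : X → M} (hp : Deck Γ p) [MulAction Γ P] (co : Coarse P)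
    (hinv : ∀ (γ : Γ) (u v : P), co.Λ (γ • u) (γ • v) = co.Λ u v)
    (hprop : ∀ (L : ℝ) (u v : P), {γ : Γ | co.Λ (γ • u) v ≤ L}.Finite) (v : P)
    (hcoc : ∃ L : ℝ, ∀ u, ∃ γ : Γ, co.Λ (γ • v) u ≤ L) (hgap : GapAbove co m)
    (hres : ∀ g : Finset Γ, Subgroup.closure (g : Set Γ) = ⊤ → ∀ s : Finset Γ,
      ∃ (Q : Type) (_ : Group Q) (_ : Finite Q) (θ : Γ →* Q), ∀ γ ∈ s, θ γ = 1 → γ = 1) :
    chi D.K (2 * m) = 0 := by
  classical
  obtain ⟨y₀, -⟩ := hU.cover (Classical.arbitrary M)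
  let bs : Finset Y → Y := fun S => if h : S.Nonempty then S.min' h else y₀
  have hbs : ∀ S : Finset Y, S.Nonempty → bs S ∈ S := fun S h => by
    simp only [bs, dif_pos h]; exact min'_mem _ _
  obtain ⟨comp, c, hS, hc⟩ := exists_sheeting hp hU
  have hac := hS.acyc hp hU hc hbs
  obtain ⟨gen, hgen⟩ := hS.gen hp hU
  rw [← hK] at hc hac
  obtain ⟨C, hCdeg, hCd, hC⟩ := exists_twBCx co hinv hprop v hcoc D.down ⟨y₀, D.sing y₀⟩ hbs hc hac
  obtain ⟨B, Z, hZ, hZc⟩ := hgap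
  have hg : ∀ k, m ≤ k → ∃ κ : ℚ, 0 < κ ∧ ∀ u, InDeg (twDeg D.K) (k + 1) u →
      κ * n2 u ≤ n2 (twd D.K bs c u) + n2 (twdT D.K bs c u) := by
    intro k hk
    obtain ⟨f, h1, h2, h3, h4, h5⟩ := hZc (k + 1) (by omega)
    have := gap C Z hC hZ h1 h2 h3 h4 h5 (dT := twdT D.K bs c)
      (fun x y => by rw [hCd]; exact ip_twdT D.down hbs hc x y)
    rwa [hCdeg, hCd] at this
  refine chi_zero_arith hm _ (fn D.K m + 2 * fn D.K (m + 1) + fn D.K (m + 2)) fun L ε hε => ?_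
  obtain ⟨G, _, _, t, ht, H⟩ := ineq_comb hm D L
  obtain ⟨ρ, g₀, hρ⟩ := hS.holonomy hp hU (t := t) (hK ▸ ht)
  rw [← hK] at hρ
  have hk : ∀ k, ∃ s : Finset Γ, m ≤ k → ∀ (Q : Type) [Group Q] [Fintype Q] [DecidableEq Q]
      (θ : Γ →* Q), (∀ γ ∈ s, θ γ = 1 → γ = 1) →
        (Fintype.card Q * fn D.K (k + 1) : ℝ) ≤ (tinc D.K bs (fun a b => θ (c a b)) k).rank +
          (tinc D.K bs (fun a b => θ (c a b)) (k + 1)).rank + ε * Fintype.card Q := by
    intro k
    by_cases hk : m ≤ k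
    · obtain ⟨κ, h1, h2⟩ := hg k hk
      obtain ⟨s, hs⟩ := kazhdan D.down hbs hc k h1 h2 hε
      exact ⟨s, fun _ => hs⟩
    · exact ⟨∅, fun h => absurd h hk⟩
  choose s hs using hk
  obtain ⟨Q₀, _, _, θ₀, hθ₀⟩ := hres gen hgen ((range (2 * m)).biUnion s)
  let θ : Γ →* G × Q₀ := ρ.prod θ₀
  have : Fintype (G × Q₀) := Fintype.ofFinite _
  have hcθ : Cocycle D.K (fun a b => θ (c a b)) :=
    ⟨fun a => by rw [hc.self, map_one], fun a b e h => by rw [← map_mul, hc.mul a b e h]⟩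
  obtain ⟨Y', _, _, K', pr, lift, lab, hcov, hcard, hlab, hrank⟩ :=
    exists_finCov D.down (D.down _ (D.sing y₀) _ (empty_subset _)) hbs hcθ
  have hd : 0 < Fintype.card (G × Q₀) := Fintype.card_pos
  have : Nonempty Y' := by
    obtain ⟨x, -⟩ := card_pos.1 (hd.trans_eq (hcard y₀).symm)
    exact ⟨x⟩
  obtain ⟨b, hb⟩ := exists_betti hcov.down
  obtain ⟨i1, i2, i3⟩ := H Y' K' pr lift _ (fun x => (lab x).1 * g₀ (pr x)) b hcov hcard
    (fun x x' h => by
      have e : {pr x, pr x'} ∈ D.K := by simpa using hcov.pr_mem _ h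
      rw [hlab x x' h, Prod.fst_mul, mul_assoc, mul_assoc, ← hρ _ _ e]; rfl) hb
  have hup : ∀ k, m ≤ k → k < 2 * m → (b (k + 1) : ℝ) ≤ ε * Fintype.card (G × Q₀) := by
    intro k h1 h2
    have h3 := hs k h1 (G × Q₀) θ (fun γ hγ e =>
      hθ₀ γ (mem_biUnion.2 ⟨k, mem_range.2 h2, hγ⟩) (congrArg Prod.snd e))
    have h4 := congrArg (Nat.cast : ℕ → ℝ) (hb (k + 1))
    rw [hcov.fn_eq D.down hcard] at h4
    simp only [rkb, hrank] at h4
    push_cast at h4
    linarith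
  refine ⟨_, b, hd, by exact_mod_cast i1, i2, fun k h1 h2 => ?_⟩
  rcases lt_or_gt_of_ne h2 with h | h
  · obtain ⟨j, hj⟩ : ∃ j, k + (j + 1) = 2 * m := ⟨2 * m - k - 1, by omega⟩
    exact ((Nat.cast_le.2 (i3 k (j + 1) hj)).trans (hup j (by omega) (by omega)))
  · obtain ⟨j, rfl⟩ : ∃ j, k = j + 1 := ⟨k - 1, by omega⟩
    exact hup j (by omega) (by omega)

end Pool.Agent.Work.MP_dd0bbc_gt
end

-- merged part: Pool.Agent.Work.MP_dd0bbc_gt.Tensor
section
/-! Algebra of tensor products. -/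

set_option autoImplicit false

namespace Pool.Agent.Work.MP_dd0bbc_gt

open Finsupp

variable {B₁ B₂ B₁' B₂' B₁'' B₂'' : Type}

theorem tens_single (b₁ : B₁) (b₂ : B₂) (r s : ℚ) :
    tens (single b₁ r) (single b₂ s) = single (b₁, b₂) (r * s) := by
  simp [tens, linearCombination_single, mapDomain_single]

theorem tens_apply (x : B₁ →₀ ℚ) (y : B₂ →₀ ℚ) (b : B₁ × B₂) : tens x y b = x b.1 * y b.2 := by
  classical
  induction x using Finsupp.induction_linear with
  | zero => simp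
  | add x x' h h' => simp [h, h', add_mul]
  | single b₁ r =>
    induction y using Finsupp.induction_linear with
    | zero => simp
    | add y y' h h' => rw [map_add, Finsupp.add_apply, h, h', Finsupp.add_apply, mul_add]
    | single b₂ s =>
      obtain ⟨c₁, c₂⟩ := b
      rw [tens_single, single_apply, single_apply, single_apply]
      by_cases h1 : b₁ = c₁ <;> by_cases h2 : b₂ = c₂ <;> simp [h1, h2]

theorem mem_support_tens {x : B₁ →₀ ℚ} {y : B₂ →₀ ℚ} {b : B₁ × B₂} :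
    b ∈ (tens x y).support ↔ b.1 ∈ x.support ∧ b.2 ∈ y.support := by
  simp [tens_apply]

theorem support_tens (x : B₁ →₀ ℚ) (y : B₂ →₀ ℚ) :
    (tens x y).support = x.support ×ˢ y.support := by
  ext b; rw [mem_support_tens, Finset.mem_product]

theorem l1_tens (x : B₁ →₀ ℚ) (y : B₂ →₀ ℚ) : l1 (tens x y) = l1 x * l1 y := by
  simp only [l1, Finsupp.sum, support_tens, Finset.sum_product, tens_apply, abs_mul,
    Finset.sum_mul_sum]

theorem tmap_single (φ : (B₁ →₀ ℚ) →ₗ[ℚ] (B₁' →₀ ℚ)) (ψ : (B₂ →₀ ℚ) →ₗ[ℚ] (B₂' →₀ ℚ))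
    (b : B₁ × B₂) : tmap φ ψ (single b 1) = tens (φ (single b.1 1)) (ψ (single b.2 1)) := by
  simp [tmap, linearCombination_single]

theorem tmap_tens (φ : (B₁ →₀ ℚ) →ₗ[ℚ] (B₁' →₀ ℚ)) (ψ : (B₂ →₀ ℚ) →ₗ[ℚ] (B₂' →₀ ℚ))
    (x : B₁ →₀ ℚ) (y : B₂ →₀ ℚ) : tmap φ ψ (tens x y) = tens (φ x) (ψ y) := by
  induction x using Finsupp.induction_linear with
  | zero => simp
  | add x x' h h' => simp [h, h']
  | single b₁ r =>
    induction y using Finsupp.induction_linear with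
    | zero => simp
    | add y y' h h' => simp only [map_add, h, h']
    | single b₂ s =>
      rw [tens_single, ← smul_single_one, map_smul, tmap_single, ← smul_single_one b₁ r,
        ← smul_single_one b₂ s]
      simp only [map_smul, LinearMap.smul_apply, smul_smul, mul_comm]

/-- Two linear maps that agree on tensors agree. -/
theorem tens_ext {N : Type} [AddCommGroup N] [Module ℚ N] {F G : (B₁ × B₂ →₀ ℚ) →ₗ[ℚ] N}
    (h : ∀ b₁ b₂, F (tens (single b₁ 1) (single b₂ 1)) = G (tens (single b₁ 1) (single b₂ 1))) :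
    F = G := by
  ext1 b
  ext1
  simpa [tens_single] using h b.1 b.2

theorem tmap_tmap (φ : (B₁' →₀ ℚ) →ₗ[ℚ] (B₁'' →₀ ℚ)) (ψ : (B₂' →₀ ℚ) →ₗ[ℚ] (B₂'' →₀ ℚ))
    (φ' : (B₁ →₀ ℚ) →ₗ[ℚ] (B₁' →₀ ℚ)) (ψ' : (B₂ →₀ ℚ) →ₗ[ℚ] (B₂' →₀ ℚ)) (z : B₁ × B₂ →₀ ℚ) :
    tmap φ ψ (tmap φ' ψ' z) = tmap (φ ∘ₗ φ') (ψ ∘ₗ ψ') z := by
  have : tmap φ ψ ∘ₗ tmap φ' ψ' = tmap (φ ∘ₗ φ') (ψ ∘ₗ ψ') :=
    tens_ext fun b₁ b₂ => by simp [tmap_tens]
  exact LinearMap.congr_fun this z

theorem sgD_single (deg : B₁ → ℕ) (b : B₁) (r : ℚ) :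
    sgD deg (single b r) = (-1 : ℚ) ^ deg b • single b r := by
  simp [sgD, linearCombination_single, mul_comm]

theorem sgD_of_inDeg {deg : B₁ → ℕ} {k : ℕ} {x : B₁ →₀ ℚ} (h : InDeg deg k x) :
    sgD deg x = (-1 : ℚ) ^ k • x := by
  conv_lhs => rw [← sum_single x]
  conv_rhs => rw [← sum_single x]
  rw [Finsupp.sum, map_sum, Finset.smul_sum]
  exact Finset.sum_congr rfl fun b hb => by rw [sgD_single, h b hb]

theorem augD_single (deg : B₁ → ℕ) (b : B₁) (r : ℚ) :
    augD deg (single b r) = if deg b = 0 then r else 0 := by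
  simp [augD, linearCombination_single]

theorem augD_tens (deg₁ : B₁ → ℕ) (deg₂ : B₂ → ℕ) {deg : B₁ × B₂ → ℕ}
    (h : ∀ b, deg b = deg₁ b.1 + deg₂ b.2) (x : B₁ →₀ ℚ) (y : B₂ →₀ ℚ) :
    augD deg (tens x y) = augD deg₁ x * augD deg₂ y := by
  induction x using Finsupp.induction_linear with
  | zero => simp
  | add x x' h h' => simp [h, h', add_mul]
  | single b₁ r =>
    induction y using Finsupp.induction_linear with
    | zero => simp
    | add y y' h h' => simp only [map_add, h, h', mul_add]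
    | single b₂ s =>
      rw [tens_single, augD_single, augD_single, augD_single, h]
      by_cases h1 : deg₁ b₁ = 0 <;> by_cases h2 : deg₂ b₂ = 0 <;> simp [h1, h2]

/-- The slice with fixed second coordinate. -/
noncomputable def slc (b₂ : B₂) : (B₁ × B₂ →₀ ℚ) →ₗ[ℚ] (B₁ →₀ ℚ) :=
  lcomapDomain (fun b₁ => (b₁, b₂)) (Prod.mk_left_injective b₂)

theorem slc_apply (b₂ : B₂) (z : B₁ × B₂ →₀ ℚ) (b₁ : B₁) : slc b₂ z b₁ = z (b₁, b₂) := rfl

theorem slc_tens (b₂ : B₂) (x : B₁ →₀ ℚ) (y : B₂ →₀ ℚ) : slc b₂ (tens x y) = y b₂ • x := by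
  ext b; simp [slc_apply, tens_apply, mul_comm]

theorem slc_tmap (φ : (B₁ →₀ ℚ) →ₗ[ℚ] (B₁' →₀ ℚ)) (b₂ : B₂) (z : B₁ × B₂ →₀ ℚ) :
    slc b₂ (tmap φ LinearMap.id z) = φ (slc b₂ z) := by
  have : slc b₂ ∘ₗ tmap φ LinearMap.id = φ ∘ₗ slc b₂ :=
    tens_ext fun b₁ b => by
      simp only [LinearMap.comp_apply, tmap_tens, slc_tens, map_smul, LinearMap.id_apply]
  exact LinearMap.congr_fun this z

theorem sum_slc (z : B₁ × B₂ →₀ ℚ) {s : Finset B₂} (h : ∀ b ∈ z.support, b.2 ∈ s) :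
    ∑ b₂ ∈ s, tens (slc b₂ z) (single b₂ 1) = z := by
  classical
  ext b
  simp only [finsetSum_apply, tens_apply, slc_apply, single_apply, mul_ite, mul_one, mul_zero,
    Finset.sum_ite_eq']
  split_ifs with hb
  · rfl
  · by_contra e
    exact hb (h b (mem_support_iff.2 (Ne.symm e)))

theorem sum_slc_fun (g : ℚ → ℚ) (hg : g 0 = 0) (z : B₁ × B₂ →₀ ℚ) {s : Finset B₂}
    (h : ∀ b ∈ z.support, b.2 ∈ s) :
    ∑ b₂ ∈ s, (slc b₂ z).sum (fun _ a => g a) = z.sum (fun _ a => g a) := by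
  classical
  have h1 : z.support ⊆ z.support.image Prod.fst ×ˢ s := fun b hb =>
    Finset.mem_product.2 ⟨Finset.mem_image_of_mem _ hb, h b hb⟩
  rw [sum_of_support_subset z h1 _ (fun _ _ => hg), Finset.sum_product_right]
  refine Finset.sum_congr rfl fun b₂ _ => ?_
  exact sum_of_support_subset _ (fun b hb => Finset.mem_image.2 ⟨(b, b₂), by
    simpa [slc_apply] using hb, rfl⟩) _ (fun _ _ => hg)

theorem l1_slc (z : B₁ × B₂ →₀ ℚ) {s : Finset B₂} (h : ∀ b ∈ z.support, b.2 ∈ s) :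
    ∑ b₂ ∈ s, l1 (slc b₂ z) = l1 z := sum_slc_fun (fun a => |a|) abs_zero z h

theorem n2_slc (z : B₁ × B₂ →₀ ℚ) {s : Finset B₂} (h : ∀ b ∈ z.support, b.2 ∈ s) :
    ∑ b₂ ∈ s, n2 (slc b₂ z) = n2 z := by
  have e : ∀ {B : Type} (x : B →₀ ℚ), n2 x = x.sum (fun _ a => a * a) := fun x => rfl
  simp only [e]
  exact sum_slc_fun (fun a => a * a) (mul_zero 0) z h

theorem n2_tmap_left (φ : (B₁ →₀ ℚ) →ₗ[ℚ] (B₁' →₀ ℚ)) (S : Set B₁) {c : ℚ}
    (h : ∀ x : B₁ →₀ ℚ, (∀ b ∈ x.support, b ∈ S) → n2 (φ x) ≤ c * n2 x) (z : B₁ × B₂ →₀ ℚ)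
    (hz : ∀ b ∈ z.support, b.1 ∈ S) : n2 (tmap φ LinearMap.id z) ≤ c * n2 z := by
  classical
  have h1 : ∀ b ∈ z.support, b.2 ∈ z.support.image Prod.snd := fun b hb =>
    Finset.mem_image_of_mem _ hb
  have h2 : ∀ b ∈ (tmap φ LinearMap.id z).support, b.2 ∈ z.support.image Prod.snd := by
    intro b hb
    obtain ⟨b', hb', h3⟩ := mem_support_map _ hb
    rw [tmap_single, mem_support_tens, LinearMap.id_apply] at h3
    rw [Finset.mem_singleton.1 (support_single_subset h3.2)]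
    exact h1 b' hb'
  rw [← n2_slc _ h1, ← n2_slc _ h2, Finset.mul_sum]
  refine Finset.sum_le_sum fun b₂ _ => ?_
  rw [slc_tmap]
  exact h _ fun b hb => hz (b, b₂) (by simpa [slc_apply] using hb)

theorem n2_swap (z : B₁ × B₂ →₀ ℚ) : n2 (lmapDomain ℚ ℚ Prod.swap z) = n2 z := by
  have e : ∀ {B : Type} (x : B →₀ ℚ), n2 x = x.sum (fun _ a => a * a) := fun x => rfl
  rw [e, e, lmapDomain_apply, sum_mapDomain_index_inj Prod.swap_injective]

theorem swap_tmap (φ : (B₁ →₀ ℚ) →ₗ[ℚ] (B₁' →₀ ℚ)) (ψ : (B₂ →₀ ℚ) →ₗ[ℚ] (B₂' →₀ ℚ))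
    (z : B₁ × B₂ →₀ ℚ) :
    lmapDomain ℚ ℚ Prod.swap (tmap φ ψ z) = tmap ψ φ (lmapDomain ℚ ℚ Prod.swap z) := by
  have e : ∀ {B B' : Type} (x : B →₀ ℚ) (y : B' →₀ ℚ),
      lmapDomain ℚ ℚ Prod.swap (tens x y) = tens y x := by
    intro B B' x y
    ext b
    have := mapDomain_apply Prod.swap_injective (tens x y) b.swap
    rw [Prod.swap_swap] at this
    rw [lmapDomain_apply, this, tens_apply, tens_apply, mul_comm]; rfl
  have : lmapDomain ℚ ℚ Prod.swap ∘ₗ tmap φ ψ = tmap ψ φ ∘ₗ lmapDomain ℚ ℚ Prod.swap :=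
    tens_ext fun b₁ b₂ => by simp only [LinearMap.comp_apply, tmap_tens, e]
  exact LinearMap.congr_fun this z

theorem n2_tmap_right (ψ : (B₂ →₀ ℚ) →ₗ[ℚ] (B₂' →₀ ℚ)) (S : Set B₂) {c : ℚ}
    (h : ∀ x : B₂ →₀ ℚ, (∀ b ∈ x.support, b ∈ S) → n2 (ψ x) ≤ c * n2 x) (z : B₁ × B₂ →₀ ℚ)
    (hz : ∀ b ∈ z.support, b.2 ∈ S) : n2 (tmap LinearMap.id ψ z) ≤ c * n2 z := by
  classical
  rw [← n2_swap, swap_tmap, ← n2_swap z]
  refine n2_tmap_left ψ S h _ fun b hb => ?_
  obtain ⟨b', hb', rfl⟩ := Finset.mem_image.1 (mapDomain_support hb)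
  exact hz b' hb'

theorem Ctl.tmap {P₁ P₂ : Type} {co₁ : Coarse P₁} {co₂ : Coarse P₂} {p₁ : B₁ → P₁}
    {p₁' : B₁' → P₁} {p₂ : B₂ → P₂} {p₂' : B₂' → P₂} {φ : (B₁ →₀ ℚ) →ₗ[ℚ] (B₁' →₀ ℚ)}
    {ψ : (B₂ →₀ ℚ) →ₗ[ℚ] (B₂' →₀ ℚ)} (h₁ : Ctl co₁ p₁ p₁' φ) (h₂ : Ctl co₂ p₂ p₂' ψ) :
    Ctl (co₁.prod co₂) (fun b => (p₁ b.1, p₂ b.2)) (fun b => (p₁' b.1, p₂' b.2)) (tmap φ ψ) := by
  obtain ⟨L₁, M₁, h₁⟩ := h₁
  obtain ⟨L₂, M₂, h₂⟩ := h₂
  refine ⟨max L₁ L₂, M₁ * M₂, fun b => ⟨fun b' hb' => ?_, ?_⟩⟩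
  · rw [tmap_single, mem_support_tens] at hb'
    exact max_le_max ((h₁ _).1 _ hb'.1) ((h₂ _).1 _ hb'.2)
  · rw [tmap_single, l1_tens]
    exact mul_le_mul (h₁ _).2 (h₂ _).2 (l1_nonneg _) ((l1_nonneg _).trans (h₁ b.1).2)

theorem Ctl.add {P : Type} {co : Coarse P} {p : B₁ → P} {p' : B₁' → P}
    {φ ψ : (B₁ →₀ ℚ) →ₗ[ℚ] (B₁' →₀ ℚ)} (h₁ : Ctl co p p' φ) (h₂ : Ctl co p p' ψ) :
    Ctl co p p' (φ + ψ) := by
  classical
  obtain ⟨L₁, M₁, h₁⟩ := h₁
  obtain ⟨L₂, M₂, h₂⟩ := h₂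
  refine ⟨max L₁ L₂, M₁ + M₂, fun b => ⟨fun b' hb' => ?_, ?_⟩⟩
  · rcases Finset.mem_union.1 (support_add hb') with h | h
    exacts [le_max_of_le_left ((h₁ _).1 _ h), le_max_of_le_right ((h₂ _).1 _ h)]
  · exact (l1_add_le _ _).trans (add_le_add (h₁ b).2 (h₂ b).2)

theorem Ctl.smul {P : Type} {co : Coarse P} {p : B₁ → P} {p' : B₁' → P}
    {φ : (B₁ →₀ ℚ) →ₗ[ℚ] (B₁' →₀ ℚ)} (h : Ctl co p p' φ) (r : ℚ) : Ctl co p p' (r • φ) := by
  obtain ⟨L, M, h⟩ := h
  refine ⟨L, |r| * M, fun b => ⟨fun b' hb' => (h _).1 _ (support_smul hb'), ?_⟩⟩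
  rw [LinearMap.smul_apply, l1_smul]
  exact mul_le_mul_of_nonneg_left (h b).2 (abs_nonneg r)

theorem Ctl.id {P : Type} (co : Coarse P) (p : B₁ → P) : Ctl co p p LinearMap.id :=
  ⟨1, 1, fun b => ⟨fun b' hb' => by
    rw [Finset.mem_singleton.1 (support_single_subset hb')]; exact co.refl _, by
    simp [l1_single]⟩⟩

theorem Ctl.sgD {P : Type} (co : Coarse P) (p : B₁ → P) (deg : B₁ → ℕ) : Ctl co p p (sgD deg) :=
  ⟨1, 1, fun b => ⟨fun b' hb' => by
    rw [sgD_single] at hb'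
    rw [Finset.mem_singleton.1 (support_single_subset (support_smul hb'))]; exact co.refl _, by
    rw [sgD_single, l1_smul, l1_single]; simp⟩⟩

end Pool.Agent.Work.MP_dd0bbc_gt
end

-- merged part: Pool.Agent.Work.MP_dd0bbc_gt.TensorAcyc
section
/-! The tensor product of uniformly acyclic complexes is uniformly acyclic. -/

set_option autoImplicit false

namespace Pool.Agent.Work.MP_dd0bbc_gt

open Finsupp

/-- Cycles with property `Q` are uniformly homologous to cycles with property `Q'`. -/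
def TensorAcyc_Red {P B : Type} {co : Coarse P} (C : BCx co B) (Q Q' : (B →₀ ℚ) → Prop) : Prop :=
  ∀ L : ℝ, ∃ (L' : ℝ) (M : ℚ), 0 ≤ M ∧ ∀ (a : P) (k : ℕ) (z : B →₀ ℚ), InDeg C.deg k z →
    (∀ b ∈ z.support, co.Λ (C.pos b) a ≤ L) → C.d z = 0 → Q z →
      ∃ y, InDeg C.deg (k + 1) y ∧ (∀ b ∈ y.support, co.Λ (C.pos b) a ≤ L') ∧ Q' (z - C.d y) ∧
        l1 y ≤ M * l1 z

theorem TensorAcyc_trans {P B : Type} {co : Coarse P} {C : BCx co B}
    {Q Q' Q'' : (B →₀ ℚ) → Prop} (h : TensorAcyc_Red C Q Q') (h' : TensorAcyc_Red C Q' Q'') :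
    TensorAcyc_Red C Q Q'' := by
  classical
  intro L
  obtain ⟨L₁, M₁, hM₁, H⟩ := h L
  obtain ⟨Ld, Md, hd⟩ := C.d_ctl
  obtain ⟨L₂, h₂⟩ := co.tri (max Ld L₁)
  obtain ⟨L₃, M₃, hM₃, H'⟩ := h' (max L L₂)
  refine ⟨max L₁ L₃, M₁ + M₃ * (1 + |Md| * M₁), by positivity, fun a k z hz nz cz qz => ?_⟩
  obtain ⟨y, y1, y2, y3, y4⟩ := H a k z hz nz cz qz
  have sup : ∀ b ∈ (z - C.d y).support, b ∈ z.support ∨
      ∃ b' ∈ y.support, b ∈ (C.d (single b' 1)).support := fun b hb =>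
    (Finset.mem_union.1 (support_sub hb)).imp id fun c => mem_support_map _ c
  obtain ⟨w, w1, w2, w3, w4⟩ := H' a k (z - C.d y) (fun b hb => by
      rcases sup b hb with c | ⟨b', c, e⟩
      · exact hz b c
      · have := C.d_deg b' b e
        have := y1 b' c
        omega)
    (fun b hb => by
      rcases sup b hb with c | ⟨b', c, e⟩
      · exact le_max_of_le_left (nz b c)
      · exact le_max_of_le_right (h₂ _ _ _ (le_max_of_le_left ((hd b').1 b e))
          (le_max_of_le_right (y2 b' c))))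
    (by rw [map_sub, cz, C.dd, sub_zero]) y3
  refine ⟨y + w, fun b hb => ?_, fun b hb => ?_, ?_, ?_⟩
  · rcases Finset.mem_union.1 (support_add hb) with c | c
    exacts [y1 b c, w1 b c]
  · rcases Finset.mem_union.1 (support_add hb) with c | c
    exacts [le_max_of_le_left (y2 b c), le_max_of_le_right (w2 b c)]
  · rwa [map_add, ← sub_sub]
  · have e1 : l1 (C.d y) ≤ |Md| * l1 y :=
      l1_map_le _ y fun b _ => (hd b).2.trans (le_abs_self _)
    have e2 : l1 (z - C.d y) ≤ l1 z + l1 (C.d y) := by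
      have := l1_add_le z ((-1 : ℚ) • C.d y)
      rwa [l1_smul, abs_neg, abs_one, one_mul, neg_one_smul, ← sub_eq_add_neg] at this
    have e3 := mul_le_mul_of_nonneg_left y4 (abs_nonneg Md)
    have e4 : l1 (z - C.d y) ≤ (1 + |Md| * M₁) * l1 z := by linarith
    have e5 := mul_le_mul_of_nonneg_left e4 hM₃
    have e6 := l1_add_le y w
    linarith

variable {B₁ B₂ : Type}

/-- Augmentation in the first factor. -/
noncomputable def TensorAcyc_E (deg : B₁ → ℕ) : (B₁ × B₂ →₀ ℚ) →ₗ[ℚ] (B₂ →₀ ℚ) :=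
  linearCombination ℚ (fun b => if deg b.1 = 0 then single b.2 1 else 0)

theorem TensorAcyc_E_single (deg : B₁ → ℕ) (b : B₁ × B₂) :
    TensorAcyc_E deg (single b 1) = if deg b.1 = 0 then single b.2 1 else 0 := by
  simp [TensorAcyc_E, linearCombination_single]

theorem TensorAcyc_E_apply (deg : B₁ → ℕ) (z : B₁ × B₂ →₀ ℚ) (c : B₂) :
    TensorAcyc_E deg z c = augD deg (slc c z) := by
  have : lapply c ∘ₗ TensorAcyc_E deg = augD deg ∘ₗ slc c := tens_ext fun b₁ b₂ => by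
    rw [LinearMap.comp_apply, LinearMap.comp_apply, slc_tens, tens_single, mul_one,
      TensorAcyc_E_single, map_smul, augD_single, lapply_apply]
    split_ifs <;> simp
  exact LinearMap.congr_fun this z

theorem TensorAcyc_E_tens (deg : B₁ → ℕ) (x : B₁ →₀ ℚ) (y : B₂ →₀ ℚ) :
    TensorAcyc_E deg (tens x y) = augD deg x • y := by
  ext c
  rw [TensorAcyc_E_apply, slc_tens, map_smul, Finsupp.smul_apply, smul_eq_mul, smul_eq_mul,
    mul_comm]

theorem TensorAcyc_E_supp {deg : B₁ → ℕ} {z : B₁ × B₂ →₀ ℚ} {c : B₂}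
    (h : c ∈ (TensorAcyc_E deg z).support) : ∃ b, (b, c) ∈ z.support ∧ deg b = 0 := by
  obtain ⟨b, hb, e⟩ := mem_support_map _ h
  rw [TensorAcyc_E_single] at e
  split_ifs at e with a
  · rw [Finset.mem_singleton.1 (support_single_subset e)]
    exact ⟨b.1, hb, a⟩
  · simp at e

theorem TensorAcyc_E_l1 (deg : B₁ → ℕ) (z : B₁ × B₂ →₀ ℚ) : l1 (TensorAcyc_E deg z) ≤ l1 z := by
  have := l1_map_le (TensorAcyc_E deg) (M := 1) z fun b _ => by
    rw [TensorAcyc_E_single]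
    split_ifs
    · simp [l1_single]
    · simp [l1]
  rwa [one_mul] at this

variable {P₁ P₂ : Type} {co₁ : Coarse P₁} {co₂ : Coarse P₂} {C₁ : BCx co₁ B₁}
  {C₂ : BCx co₂ B₂} {C : BCx (co₁.prod co₂) (B₁ × B₂)}

theorem TensorAcyc_E_d (h : IsProd C₁ C₂ C) (z : B₁ × B₂ →₀ ℚ) :
    TensorAcyc_E C₁.deg (C.d z) = C₂.d (TensorAcyc_E C₁.deg z) := by
  have : TensorAcyc_E C₁.deg ∘ₗ C.d = C₂.d ∘ₗ TensorAcyc_E C₁.deg := tens_ext fun b₁ b₂ => by
    rw [LinearMap.comp_apply, LinearMap.comp_apply, h.d, LinearMap.add_apply, tmap_tens, tmap_tens,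
      map_add, TensorAcyc_E_tens, TensorAcyc_E_tens, TensorAcyc_E_tens, C₁.aug_d, zero_smul,
      zero_add, map_smul, sgD_single, map_smul, augD_single]
    split_ifs with a <;> simp [a]
  exact LinearMap.congr_fun this z

theorem TensorAcyc_E_aug (h : IsProd C₁ C₂ C) (z : B₁ × B₂ →₀ ℚ) :
    augD C₂.deg (TensorAcyc_E C₁.deg z) = augD C.deg z := by
  have : augD C₂.deg ∘ₗ TensorAcyc_E C₁.deg = augD C.deg := tens_ext fun b₁ b₂ => by
    rw [LinearMap.comp_apply, TensorAcyc_E_tens, augD_tens _ _ h.deg, map_smul, smul_eq_mul]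
  exact LinearMap.congr_fun this z

theorem TensorAcyc_slc_d (h : IsProd C₁ C₂ C) {j : ℕ} {w : B₁ × B₂ →₀ ℚ}
    (hw : ∀ b ∈ w.support, C₂.deg b.2 < j + 1) {c : B₂} (hc : j ≤ C₂.deg c) :
    slc c (C.d w) = C₁.d (slc c w) := by
  rw [h.d, LinearMap.add_apply, map_add, slc_tmap, add_eq_left]
  ext b₁
  by_contra n
  obtain ⟨b, hb, e⟩ := mem_support_map (tmap (sgD C₁.deg) C₂.d) (b' := (b₁, c))
    (mem_support_iff.2 n)
  rw [tmap_single, mem_support_tens] at e
  have := C₂.d_deg _ _ e.2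
  have := hw b hb
  dsimp only at *
  omega

theorem TensorAcyc_near (h : IsProd C₁ C₂ C) (b : B₁ × B₂) (a : P₁ × P₂) (L : ℝ) :
    (co₁.prod co₂).Λ (C.pos b) a ≤ L ↔
      co₁.Λ (C₁.pos b.1) a.1 ≤ L ∧ co₂.Λ (C₂.pos b.2) a.2 ≤ L := by
  rw [h.pos]
  exact max_le_iff

theorem TensorAcyc_step (h : IsProd C₁ C₂ C) (h₁ : C₁.UAcyc) (j : ℕ) :
    TensorAcyc_Red C
      (fun z => TensorAcyc_E C₁.deg z = 0 ∧ ∀ b ∈ z.support, C₂.deg b.2 < j + 1)
      fun z => TensorAcyc_E C₁.deg z = 0 ∧ ∀ b ∈ z.support, C₂.deg b.2 < j := by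
  classical
  intro L
  obtain ⟨L₁, M, H⟩ := h₁ L
  refine ⟨max L₁ L, |M|, abs_nonneg _, fun a k z hz nz cz ⟨ez, dz⟩ => ?_⟩
  have ms : ∀ c b, b ∈ (slc c z).support → (b, c) ∈ z.support := fun c b hb => by
    simpa [slc_apply] using hb
  have ex : ∀ c, ∃ y, C₂.deg c = j → InDeg C₁.deg (k - j + 1) y ∧
      (∀ b ∈ y.support, co₁.Λ (C₁.pos b) a.1 ≤ L₁) ∧ C₁.d y = slc c z ∧
      l1 y ≤ M * l1 (slc c z) := fun c => by
    by_cases hc : C₂.deg c = j
    · obtain ⟨y, hy⟩ := H a.1 (k - j) (slc c z) (fun b hb => by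
          have := hz _ (ms c b hb)
          rw [h.deg] at this
          dsimp only at this
          omega)
        (fun b hb => ((TensorAcyc_near h _ a L).1 (nz _ (ms c b hb))).1)
        (by rw [← TensorAcyc_slc_d h dz hc.ge, cz, map_zero])
        (by rw [← TensorAcyc_E_apply, ez, Finsupp.zero_apply])
      exact ⟨y, fun _ => hy⟩
    · exact ⟨0, fun e => (hc e).elim⟩
  choose Y hY using ex
  set s := (z.support.image Prod.snd).filter fun c => C₂.deg c = j with hs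
  have mem : ∀ c, c ∈ s ↔ (∃ b, (b, c) ∈ z.support) ∧ C₂.deg c = j := fun c => by
    simp [hs]
  set y := ∑ c ∈ s, tens (Y c) (single c 1) with hy
  have sy : ∀ c, slc c y = if c ∈ s then Y c else 0 := fun c => by
    simp only [hy, map_sum, slc_tens, single_apply, ite_smul, one_smul, zero_smul,
      Finset.sum_ite_eq']
  have my : ∀ b ∈ y.support, b.2 ∈ s ∧ b.1 ∈ (Y b.2).support := fun b hb => by
    have e : slc b.2 y b.1 ≠ 0 := mem_support_iff (f := y).1 hb
    rw [sy] at e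
    split_ifs at e with c
    · exact ⟨c, mem_support_iff.2 e⟩
    · simp at e
  have dy : ∀ b ∈ y.support, C₂.deg b.2 = j ∧ C₁.deg b.1 = k - j + 1 ∧ j ≤ k := fun b hb => by
    obtain ⟨c, e⟩ := my b hb
    obtain ⟨⟨b', c1⟩, c2⟩ := (mem _).1 c
    have := hz _ c1
    rw [h.deg] at this
    dsimp only at this
    exact ⟨c2, (hY _ c2).1 _ e, by omega⟩
  refine ⟨y, fun b hb => ?_, fun b hb => ?_, ⟨?_, fun b hb => ?_⟩, ?_⟩
  · have := dy b hb
    rw [h.deg]
    omega
  · obtain ⟨c, e⟩ := my b hb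
    obtain ⟨⟨b', c1⟩, c2⟩ := (mem _).1 c
    exact (TensorAcyc_near h _ a _).2 ⟨le_max_of_le_left ((hY _ c2).2.1 _ e),
      le_max_of_le_right ((TensorAcyc_near h _ a L).1 (nz _ c1)).2⟩
  · have e : TensorAcyc_E C₁.deg y = 0 := by
      ext c
      by_contra n
      obtain ⟨b, hb, e⟩ := TensorAcyc_E_supp (mem_support_iff.2 n)
      have := (dy _ hb).2.1
      dsimp only at this
      omega
    rw [map_sub, ez, TensorAcyc_E_d h, e, map_zero, sub_zero]
  · by_contra n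
    have e : slc b.2 (z - C.d y) b.1 ≠ 0 := mem_support_iff (f := z - C.d y).1 hb
    rw [map_sub, TensorAcyc_slc_d h (j := j) (fun b hb => by have := dy b hb; omega)
      (not_lt.1 n), sy] at e
    split_ifs at e with c
    · rw [(hY _ ((mem _).1 c).2).2.2.1, sub_self] at e
      exact e rfl
    · rw [map_zero, sub_zero] at e
      have hb' : (b.1, b.2) ∈ z.support := mem_support_iff (f := z).2 e
      have := dz _ hb'
      exact c ((mem _).2 ⟨⟨_, hb'⟩, by dsimp only at this; omega⟩)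
  · refine (l1_sum_le _ _).trans ?_
    rw [← l1_slc z (s := z.support.image Prod.snd) fun b hb => Finset.mem_image_of_mem _ hb,
      Finset.mul_sum]
    refine le_trans (Finset.sum_le_sum fun c hc => ?_)
      (Finset.sum_le_sum_of_subset_of_nonneg (Finset.filter_subset _ _) fun c _ _ =>
        mul_nonneg (abs_nonneg _) (l1_nonneg _))
    rw [l1_tens, l1_single, abs_one, mul_one]
    exact (hY c ((mem c).1 hc).2).2.2.2.trans
      (mul_le_mul_of_nonneg_right (le_abs_self M) (l1_nonneg _))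

theorem TensorAcyc_ind (h : IsProd C₁ C₂ C) (h₁ : C₁.UAcyc) (j : ℕ) :
    TensorAcyc_Red C (fun z => TensorAcyc_E C₁.deg z = 0 ∧ ∀ b ∈ z.support, C₂.deg b.2 < j)
      fun z => z = 0 := by
  induction j with
  | zero =>
    refine fun L => ⟨0, 0, le_rfl, fun a k z _ _ _ ⟨_, dz⟩ => ⟨0, fun b hb => by simp at hb,
      fun b hb => by simp at hb, ?_, by simp [l1]⟩⟩
    rw [map_zero, sub_zero]
    ext b
    by_contra n
    exact absurd (dz b (mem_support_iff.2 n)) (Nat.not_lt_zero _)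
  | succ j ih => exact TensorAcyc_trans (TensorAcyc_step h h₁ j) ih

theorem TensorAcyc_start (h : IsProd C₁ C₂ C) (h₂ : C₂.UAcyc) :
    TensorAcyc_Red C (fun z => augD C.deg z = 0)
      fun z => TensorAcyc_E C₁.deg z = 0 ∧ ∀ b ∈ z.support, C₂.deg b.2 < C₂.dim + 1 := by
  intro L
  obtain ⟨L₂, M, H⟩ := h₂ L
  obtain ⟨L₁, hv⟩ := C₁.dense
  refine ⟨max L₁ L₂, |M|, abs_nonneg _, fun a k z hz nz cz az => ?_⟩
  obtain ⟨v, v1, v2⟩ := hv a.1
  obtain ⟨β, b1, b2, b3, b4⟩ := H a.2 k (TensorAcyc_E C₁.deg z) (fun c hc => by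
      obtain ⟨b, hb, e⟩ := TensorAcyc_E_supp hc
      have := hz _ hb
      rw [h.deg] at this
      dsimp only at this
      omega)
    (fun c hc => by
      obtain ⟨b, hb, -⟩ := TensorAcyc_E_supp hc
      exact ((TensorAcyc_near h _ a L).1 (nz _ hb)).2)
    (by rw [← TensorAcyc_E_d h, cz, map_zero]) (by rw [TensorAcyc_E_aug h, az])
  have my : ∀ b ∈ (tens (single v (1 : ℚ)) β).support, b.1 = v ∧ b.2 ∈ β.support := fun b hb =>
    ⟨Finset.mem_singleton.1 (support_single_subset (mem_support_tens.1 hb).1),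
      (mem_support_tens.1 hb).2⟩
  refine ⟨tens (single v 1) β, fun b hb => ?_, fun b hb => ?_,
    ⟨?_, fun b _ => Nat.lt_succ_of_le (C₂.deg_le _)⟩, ?_⟩
  · rw [h.deg, (my b hb).1, v1, b1 _ (my b hb).2, zero_add]
  · refine (TensorAcyc_near h _ a _).2 ⟨?_, le_max_of_le_right (b2 _ (my b hb).2)⟩
    rw [(my b hb).1]
    exact le_max_of_le_left v2
  · rw [map_sub, TensorAcyc_E_d h, TensorAcyc_E_tens, augD_single, if_pos v1, one_smul, b3,
      sub_self]
  · rw [l1_tens, l1_single, abs_one, one_mul]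
    exact b4.trans ((mul_le_mul_of_nonneg_right (le_abs_self M) (l1_nonneg _)).trans
      (mul_le_mul_of_nonneg_left (TensorAcyc_E_l1 _ z) (abs_nonneg M)))

theorem IsProd.uacyc {P₁ P₂ B₁ B₂ : Type} {co₁ : Coarse P₁} {co₂ : Coarse P₂} {C₁ : BCx co₁ B₁}
    {C₂ : BCx co₂ B₂} {C : BCx (co₁.prod co₂) (B₁ × B₂)} (h : IsProd C₁ C₂ C) (h₁ : C₁.UAcyc)
    (h₂ : C₂.UAcyc) : C.UAcyc := by
  intro L
  obtain ⟨L', M, -, H⟩ := TensorAcyc_trans (TensorAcyc_start h h₂) (TensorAcyc_ind h h₁ _) L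
  refine ⟨L', M, fun a k z hz nz cz az => ?_⟩
  obtain ⟨y, y1, y2, y3, y4⟩ := H a k z hz nz cz az
  exact ⟨y, y1, y2, (sub_eq_zero.1 y3).symm, y4⟩

end Pool.Agent.Work.MP_dd0bbc_gt
end

-- merged part: Pool.Agent.Work.MP_dd0bbc_gt.Laplace
section
/-! The Laplacian of a complex of bounded geometry. -/

set_option autoImplicit false

namespace Pool.Agent.Work.MP_dd0bbc_gt

open Finsupp

variable {P B : Type} {co : Coarse P}

theorem Laplace_ip_zero_left (y : B →₀ ℚ) : ip (0 : B →₀ ℚ) y = 0 := by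
  simp [ip]

theorem Laplace_ip_zero_right (x : B →₀ ℚ) : ip x (0 : B →₀ ℚ) = 0 := by
  rw [ip_comm, Laplace_ip_zero_left]

theorem Laplace_ip_smul_right (r : ℚ) (x y : B →₀ ℚ) : ip x (r • y) = r * ip x y := by
  rw [ip_comm, ip_smul_left, ip_comm]

theorem Laplace_n2_add (x y : B →₀ ℚ) : n2 (x + y) = n2 x + 2 * ip x y + n2 y := by
  rw [n2, n2, n2, ip_add_left, Controlled_ip_add_right, Controlled_ip_add_right, ip_comm y x]
  ring

theorem Laplace_n2_smul (r : ℚ) (x : B →₀ ℚ) : n2 (r • x) = r * r * n2 x := by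
  rw [n2, n2, ip_smul_left, Laplace_ip_smul_right, mul_assoc]

theorem Laplace_ip_disj {deg : B → ℕ} {j : ℕ} {x y : B →₀ ℚ} (hx : InDeg deg j x)
    (hy : ∀ b ∈ y.support, deg b < j) : ip x y = 0 := by
  rw [ip_eq_sum y subset_rfl]
  refine Finset.sum_eq_zero fun b hb => ?_
  have : y b = 0 := by
    by_contra h
    have h1 := hy b (mem_support_iff.2 h)
    have h2 := hx b hb
    omega
  rw [this, mul_zero]

theorem Laplace_supp {deg : B → ℕ} {φ : (B →₀ ℚ) →ₗ[ℚ] (B →₀ ℚ)} (h : Raises deg deg 0 φ)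
    (p : ℕ → Prop) {x : B →₀ ℚ} (hx : ∀ b ∈ x.support, p (deg b)) :
    ∀ b ∈ (φ x).support, p (deg b) := by
  intro b' hb'
  obtain ⟨b, hb, hb2⟩ := mem_support_map φ hb'
  rw [h b b' hb2]
  exact hx b hb

theorem Laplace_split {deg : B → ℕ} {φ : (B →₀ ℚ) →ₗ[ℚ] (B →₀ ℚ)} (h : Raises deg deg 0 φ)
    {θ : ℚ} {m : ℕ} (j : ℕ)
    (hθ : ∀ k, m ≤ k → k < j → ∀ u, InDeg deg k u → n2 (φ u) ≤ θ * n2 u) :
    ∀ x : B →₀ ℚ, (∀ b ∈ x.support, m ≤ deg b ∧ deg b < j) → n2 (φ x) ≤ θ * n2 x := by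
  classical
  induction j with
  | zero =>
    intro x hx
    have : x = 0 := by
      by_contra h0
      obtain ⟨b, hb⟩ := support_nonempty_iff.2 h0
      exact absurd (hx b hb).2 (Nat.not_lt_zero _)
    subst this
    simp [n2, ip]
  | succ j ih =>
    intro x hx
    have e := filter_add_filter_not x (fun b => deg b = j)
    set y := x.filter (fun b => deg b = j) with hy
    set z := x.filter (fun b => ¬ deg b = j) with hz
    have hy1 : InDeg deg j y := fun b hb => by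
      rw [hy, support_filter] at hb
      exact (Finset.mem_filter.1 hb).2
    have hz1 : ∀ b ∈ z.support, m ≤ deg b ∧ deg b < j := fun b hb => by
      rw [hz, support_filter] at hb
      have h1 := hx b (Finset.mem_filter.1 hb).1
      have h2 := (Finset.mem_filter.1 hb).2
      omega
    have h1 : n2 (φ z) ≤ θ * n2 z := ih (fun k a b => hθ k a (by omega)) z hz1
    have h2 : n2 (φ y) ≤ θ * n2 y := by
      by_cases h0 : y = 0
      · rw [h0]
        simp [n2, ip]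
      · obtain ⟨b, hb⟩ := support_nonempty_iff.2 h0
        have h3 := hy1 b hb
        rw [hy, support_filter] at hb
        have h4 := hx b (Finset.mem_filter.1 hb).1
        exact hθ j (by omega) (by omega) y hy1
    have h3 : ip y z = 0 := Laplace_ip_disj hy1 fun b hb => (hz1 b hb).2
    have h4 : ip (φ y) (φ z) = 0 :=
      Laplace_ip_disj (Controlled_inDeg_map h hy1)
        (Laplace_supp h (fun n => n < j + 0) fun b hb => (hz1 b hb).2)
    rw [← e, map_add, Laplace_n2_add, Laplace_n2_add, h3, h4]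
    linarith

theorem BCx.exists_adj (X : BCx co B) : ∃ dT : (B →₀ ℚ) →ₗ[ℚ] (B →₀ ℚ),
    Ctl co X.pos X.pos dT ∧ Raises X.deg X.deg 1 dT ∧ ∀ x y, ip (dT x) y = ip x (X.d y) := by
  classical
  obtain ⟨L, M, h⟩ := X.d_ctl
  obtain ⟨N, hN⟩ := X.ulf L
  choose s hs hs2 using hN
  let dT : (B →₀ ℚ) →ₗ[ℚ] (B →₀ ℚ) :=
    linearCombination ℚ (fun b => ∑ b' ∈ s (X.pos b), single b' (X.d (single b' 1) b))
  have e0 : ∀ b, dT (single b 1) = ∑ b' ∈ s (X.pos b), single b' (X.d (single b' 1) b) :=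
    fun b => by simp [dT]
  have e : ∀ b b', dT (single b 1) b' = X.d (single b' 1) b := by
    intro b b'
    rw [e0, Finsupp.finsetSum_apply, Finset.sum_eq_single b']
    · simp
    · intro c _ hc
      exact single_eq_of_ne' hc
    · intro hb'
      have : X.d (single b' 1) b = 0 := by
        by_contra h0
        refine hb' (hs2 _ _ ?_)
        rw [co.symm]
        exact (h b').1 b (mem_support_iff.2 h0)
      simp [this]
  refine ⟨dT, ⟨L, N * |M|, fun b => ⟨fun b' hb' => ?_, ?_⟩⟩, fun b b' hb' => ?_, fun x y => ?_⟩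
  · rw [co.symm]
    refine (h b').1 b (mem_support_iff.2 ?_)
    rw [← e]
    exact mem_support_iff.1 hb'
  · rw [e0]
    refine (l1_sum_le _ _).trans ?_
    have h1 : ∀ b' ∈ s (X.pos b), l1 (single b' (X.d (single b' 1) b)) ≤ |M| := fun b' _ => by
      rw [l1_single]
      have := TwBasic_sum_le_l1 (X.d (single b' 1)) {b}
      rw [Finset.sum_singleton] at this
      exact this.trans ((h b').2.trans (le_abs_self _))
    refine (Finset.sum_le_sum h1).trans ?_
    rw [Finset.sum_const, nsmul_eq_mul]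
    refine mul_le_mul_of_nonneg_right ?_ (abs_nonneg _)
    exact_mod_cast hs _
  · refine (X.d_deg b' b (mem_support_iff.2 ?_)).symm
    rw [← e]
    exact mem_support_iff.1 hb'
  · induction x using Finsupp.induction_linear with
    | zero => rw [map_zero, Laplace_ip_zero_left, Laplace_ip_zero_left]
    | add x x' h1 h2 => rw [map_add, ip_add_left, ip_add_left, h1, h2]
    | single b r =>
      induction y using Finsupp.induction_linear with
      | zero => rw [map_zero, Laplace_ip_zero_right, Laplace_ip_zero_right]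
      | add y y' h1 h2 => rw [map_add, Controlled_ip_add_right, Controlled_ip_add_right, h1, h2]
      | single b' r' =>
        have e1 : single b r = r • single b (1 : ℚ) := by simp
        have e2 : single b' r' = r' • single b' (1 : ℚ) := by simp
        rw [ip_comm, ip_single_left, ip_single_left, e1, e2, map_smul, map_smul,
          Finsupp.smul_apply, Finsupp.smul_apply, e]
        simp only [smul_eq_mul]
        ring

theorem Laplace_pow (X : BCx co B) {m : ℕ} {g : (B →₀ ℚ) →ₗ[ℚ] (B →₀ ℚ)} {θ : ℚ} (hθ : 0 ≤ θ)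
    (g1 : Ctl co X.pos X.pos g) (g2 : Raises X.deg X.deg 0 g) (g3 : ∀ x, X.d (g x) = g (X.d x))
    (g4 : ∀ x, augD X.deg (g x) = augD X.deg x) (g5 : ∀ x, n2 (g x) ≤ n2 x)
    (g6 : ∀ x : B →₀ ℚ, (∀ b ∈ x.support, m + 1 ≤ X.deg b) → n2 (g x) ≤ θ * n2 x) (N : ℕ) :
    ∃ f : (B →₀ ℚ) →ₗ[ℚ] (B →₀ ℚ), Ctl co X.pos X.pos f ∧ Raises X.deg X.deg 0 f ∧
      (∀ x, X.d (f x) = f (X.d x)) ∧ (∀ x, augD X.deg (f x) = augD X.deg x) ∧
      (∀ x, n2 (f x) ≤ n2 x) ∧
      ∀ x : B →₀ ℚ, (∀ b ∈ x.support, m + 1 ≤ X.deg b) → n2 (f x) ≤ θ ^ N * n2 x := by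
  induction N with
  | zero =>
    exact ⟨LinearMap.id, Ctl.id _ _, fun b => Controlled_inDeg_single b, fun _ => rfl,
      fun _ => rfl, fun _ => le_rfl, fun x _ => by simp⟩
  | succ N ih =>
    obtain ⟨f, f1, f2, f3, f4, f5, f6⟩ := ih
    refine ⟨f ∘ₗ g, f1.comp g1, fun b => Controlled_inDeg_map f2 (g2 b), fun x => ?_,
      fun x => ?_, fun x => (f5 _).trans (g5 x), fun x hx => ?_⟩
    · simp only [LinearMap.comp_apply]
      rw [f3, g3]
    · simp only [LinearMap.comp_apply]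
      rw [f4, g4]
    · refine (f6 (g x) (Laplace_supp g2 (fun n => m + 1 ≤ n) hx)).trans ?_
      rw [pow_succ, mul_assoc]
      exact mul_le_mul_of_nonneg_left (g6 x hx) (pow_nonneg hθ _)

theorem BCx.strong (X : BCx co B) (hX : X.UAcyc) {m : ℕ} (h : ∀ k, m + 1 ≤ k → X.Contr k) :
    X.Strong m := by
  obtain ⟨dT, t1, t2, t3⟩ := X.exists_adj
  obtain ⟨M₁, hM₁, b1⟩ := Ctl.bound X X.d_ctl
  obtain ⟨M₂, hM₂, b2⟩ := Ctl.bound X t1
  set M := max M₁ M₂ with hMdef
  have hM : 0 < M := lt_max_of_lt_left hM₁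
  have b1' : ∀ x, n2 (X.d x) ≤ M * n2 x := fun x =>
    (b1 x).trans (mul_le_mul_of_nonneg_right (le_max_left _ _) (n2_nonneg x))
  have b2' : ∀ x, n2 (dT x) ≤ M * n2 x := fun x =>
    (b2 x).trans (mul_le_mul_of_nonneg_right (le_max_right _ _) (n2_nonneg x))
  let g : (B →₀ ℚ) →ₗ[ℚ] (B →₀ ℚ) := LinearMap.id + (-M⁻¹) • (X.d ∘ₗ dT + dT ∘ₗ X.d)
  have ge : ∀ x, g x = x + (-M⁻¹) • (X.d (dT x) + dT (X.d x)) := fun x => rfl
  have g1 : Ctl co X.pos X.pos g :=
    (Ctl.id _ _).add (((X.d_ctl.comp t1).add (t1.comp X.d_ctl)).smul _)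
  have g2 : Raises X.deg X.deg 0 g := fun b => by
    rw [ge]
    refine Controlled_inDeg_add (Controlled_inDeg_single b) fun b' hb' => ?_
    refine Controlled_inDeg_add (k := X.deg b) (Controlled_inDeg_d X (t2 b)) ?_ b'
      (support_smul hb')
    rcases hk : X.deg b with _ | k
    · rw [Controlled_d_zero X (hk ▸ Controlled_inDeg_single b), map_zero]
      exact Controlled_inDeg_zero _ _
    · exact Controlled_inDeg_map t2 (Controlled_inDeg_d X (hk ▸ Controlled_inDeg_single b))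
  have g3 : ∀ x, X.d (g x) = g (X.d x) := fun x => by
    rw [ge, ge, map_add, map_smul, map_add, X.dd, X.dd, map_zero, zero_add, add_zero]
  have g4 : ∀ x, augD X.deg (g x) = augD X.deg x := fun x => by
    have : augD X.deg (dT (X.d x)) = 0 :=
      Controlled_zero_of (φ := augD X.deg ∘ₗ dT) fun b _ => Controlled_aug_zero (t2 b)
    rw [ge, map_add, map_smul, map_add, X.aug_d, this, add_zero, smul_zero, add_zero]
  have key : ∀ u, n2 (g u) ≤ n2 u - (n2 (X.d u) + n2 (dT u)) / M := fun u => by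
    have e1 : ip u (X.d (dT u) + dT (X.d u)) = n2 (X.d u) + n2 (dT u) := by
      rw [Controlled_ip_add_right, ← t3 u, ip_comm u, t3 (X.d u) u, add_comm]
      rfl
    have e2 : n2 (X.d (dT u) + dT (X.d u)) ≤ M * (n2 (X.d u) + n2 (dT u)) := by
      rw [Laplace_n2_add, ip_comm, t3, X.dd, Laplace_ip_zero_right]
      have := b1' (dT u)
      have := b2' (X.d u)
      linarith
    rw [ge, Laplace_n2_add, Laplace_ip_smul_right, Laplace_n2_smul, e1]
    have e3 := mul_le_mul_of_nonneg_left e2 (mul_self_nonneg (-M⁻¹))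
    have e4 : -M⁻¹ * -M⁻¹ * (M * (n2 (X.d u) + n2 (dT u))) = (n2 (X.d u) + n2 (dT u)) / M := by
      field_simp
    have e5 : 2 * (-M⁻¹ * (n2 (X.d u) + n2 (dT u))) = -2 * ((n2 (X.d u) + n2 (dT u)) / M) := by
      field_simp
    linarith
  have g5 : ∀ x, n2 (g x) ≤ n2 x := fun x => by
    have h1 : 0 ≤ (n2 (X.d x) + n2 (dT x)) / M :=
      div_nonneg (add_nonneg (n2_nonneg _) (n2_nonneg _)) hM.le
    linarith [key x]
  have hκ : ∀ j : ℕ, ∃ κ : ℚ, 0 < κ ∧ ∀ k, m + 1 ≤ k → k < j → ∀ u, InDeg X.deg k u →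
      κ * n2 u ≤ n2 (X.d u) + n2 (dT u) := by
    intro j
    induction j with
    | zero => exact ⟨1, one_pos, fun k _ hk => absurd hk (Nat.not_lt_zero _)⟩
    | succ j ih =>
      obtain ⟨κ, hκ, h1⟩ := ih
      by_cases hj : m + 1 ≤ j
      · obtain ⟨f, f1, f2, f3, f4, f5⟩ := h j hj
        obtain ⟨κ', hκ', h2⟩ := gap X X hX hX f1 f2 f3 f4 f5 t3
        refine ⟨min κ κ', lt_min hκ hκ', fun k a b u hu => ?_⟩
        rcases Nat.lt_succ_iff_lt_or_eq.1 b with hk | hk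
        · exact (mul_le_mul_of_nonneg_right (min_le_left _ _) (n2_nonneg u)).trans (h1 k a hk u hu)
        · subst hk
          exact (mul_le_mul_of_nonneg_right (min_le_right _ _) (n2_nonneg u)).trans (h2 u hu)
      · exact ⟨κ, hκ, fun k a b u hu => h1 k a (by omega) u hu⟩
  obtain ⟨κ, hκ0, hκ⟩ := hκ (X.dim + 1)
  have hθ : max 0 (1 - κ / M) < 1 := max_lt one_pos (by linarith [div_pos hκ0 hM])
  have g6 : ∀ x : B →₀ ℚ, (∀ b ∈ x.support, m + 1 ≤ X.deg b) →
      n2 (g x) ≤ max 0 (1 - κ / M) * n2 x := fun x hx =>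
    Laplace_split g2 (m := m + 1) (X.dim + 1) (fun k a b u hu => by
      have h1 := div_le_div_of_nonneg_right (hκ k a b u hu) hM.le
      have h2 := mul_le_mul_of_nonneg_right (le_max_right 0 (1 - κ / M)) (n2_nonneg u)
      have h3 : (1 - κ / M) * n2 u = n2 u - κ * n2 u / M := by ring
      linarith [key u]) x fun b hb => ⟨hx b hb, Nat.lt_succ_of_le (X.deg_le b)⟩
  obtain ⟨N, hN⟩ := exists_pow_lt_of_lt_one (show (0 : ℚ) < 1 / 2 by norm_num) hθ
  obtain ⟨f, f1, f2, f3, f4, f5, f6⟩ := Laplace_pow X (le_max_left _ _) g1 g2 g3 g4 g5 g6 N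
  exact ⟨f, f1, f2, f3, f4, f5, fun x hx =>
    (f6 x hx).trans (mul_le_mul_of_nonneg_right hN.le (n2_nonneg x))⟩

end Pool.Agent.Work.MP_dd0bbc_gt
end

-- merged part: Pool.Agent.Work.MP_dd0bbc_gt.TensorGap
section
/-! The spectral gap for products. -/

set_option autoImplicit false

namespace Pool.Agent.Work.MP_dd0bbc_gt

open Finsupp

variable {P₁ P₂ B₁ B₂ : Type} {co₁ : Coarse P₁} {co₂ : Coarse P₂}

theorem BCx.d_sgD {P B : Type} {co : Coarse P} (C : BCx co B) (x : B →₀ ℚ) :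
    C.d (sgD C.deg x) = -sgD C.deg (C.d x) := by
  have : C.d ∘ₗ sgD C.deg = -(sgD C.deg ∘ₗ C.d) := by
    ext1 b
    ext1
    simp only [LinearMap.comp_apply, lsingle_apply, LinearMap.neg_apply, sgD_single, map_smul]
    rcases h : C.deg b with _ | k
    · have : C.d (single b 1) = 0 := by
        rw [← support_eq_empty, Finset.eq_empty_iff_forall_notMem]
        intro b' hb'
        have := C.d_deg b b' hb'
        omega
      simp [this]
    · rw [sgD_of_inDeg (k := k) (fun b' hb' => by have := C.d_deg b b' hb'; omega), pow_succ]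
      simp
  exact LinearMap.congr_fun this x

theorem Raises.sgD_comm {B : Type} {deg : B → ℕ} {f : (B →₀ ℚ) →ₗ[ℚ] (B →₀ ℚ)}
    (h : Raises deg deg 0 f) (x : B →₀ ℚ) : sgD deg (f x) = f (sgD deg x) := by
  have : sgD deg ∘ₗ f = f ∘ₗ sgD deg := by
    ext1 b
    ext1
    simp only [LinearMap.comp_apply, lsingle_apply, sgD_single, map_smul]
    exact sgD_of_inDeg (h b)
  exact LinearMap.congr_fun this x

theorem exists_prod (C₁ : BCx co₁ B₁) (C₂ : BCx co₂ B₂) :
    ∃ C : BCx (co₁.prod co₂) (B₁ × B₂), IsProd C₁ C₂ C := by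
  classical
  refine ⟨{ deg := fun b => C₁.deg b.1 + C₂.deg b.2
            pos := fun b => (C₁.pos b.1, C₂.pos b.2)
            d := tmap C₁.d LinearMap.id + tmap (sgD C₁.deg) C₂.d
            dim := C₁.dim + C₂.dim
            deg_le := fun b => add_le_add (C₁.deg_le _) (C₂.deg_le _)
            d_deg := fun b b' hb' => ?_
            dd := fun x => ?_
            aug_d := fun x => ?_
            d_ctl := (C₁.d_ctl.tmap (Ctl.id _ _)).add ((Ctl.sgD _ _ _).tmap C₂.d_ctl)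
            ulf := fun L => ?_
            dense := ?_ }, fun _ => rfl, fun _ => rfl, rfl⟩
  · rcases Finset.mem_union.1 (support_add hb') with h | h
    · rw [tmap_single, mem_support_tens, LinearMap.id_apply] at h
      have := C₁.d_deg _ _ h.1
      rw [Finset.mem_singleton.1 (support_single_subset h.2)]; omega
    · rw [tmap_single, mem_support_tens, sgD_single] at h
      have := C₂.d_deg _ _ h.2
      rw [Finset.mem_singleton.1 (support_single_subset (support_smul h.1))]; omega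
  · have : (tmap C₁.d LinearMap.id + tmap (sgD C₁.deg) C₂.d) ∘ₗ
        (tmap C₁.d LinearMap.id + tmap (sgD C₁.deg) C₂.d) = 0 :=
      tens_ext fun b₁ b₂ => by
        simp only [LinearMap.comp_apply, LinearMap.add_apply, map_add, tmap_tens, C₁.dd, C₂.dd,
          C₁.d_sgD, LinearMap.id_apply, map_zero, map_neg, LinearMap.zero_apply,
          LinearMap.neg_apply]
        abel
    exact LinearMap.congr_fun this x
  · have : augD (fun b : B₁ × B₂ => C₁.deg b.1 + C₂.deg b.2) ∘ₗ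
        (tmap C₁.d LinearMap.id + tmap (sgD C₁.deg) C₂.d) = 0 :=
      tens_ext fun b₁ b₂ => by
        simp only [LinearMap.comp_apply, LinearMap.add_apply, map_add, tmap_tens,
          augD_tens C₁.deg C₂.deg (fun _ => rfl), C₁.aug_d, C₂.aug_d]
        simp
    exact LinearMap.congr_fun this x
  · obtain ⟨N₁, h₁⟩ := C₁.ulf L
    obtain ⟨N₂, h₂⟩ := C₂.ulf L
    refine ⟨N₁ * N₂, fun a => ?_⟩
    obtain ⟨s₁, e₁, f₁⟩ := h₁ a.1
    obtain ⟨s₂, e₂, f₂⟩ := h₂ a.2
    exact ⟨s₁ ×ˢ s₂, by rw [Finset.card_product]; exact Nat.mul_le_mul e₁ e₂, fun b hb =>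
      Finset.mem_product.2 ⟨f₁ _ (le_of_max_le_left hb), f₂ _ (le_of_max_le_right hb)⟩⟩
  · obtain ⟨L₁, h₁⟩ := C₁.dense
    obtain ⟨L₂, h₂⟩ := C₂.dense
    refine ⟨max L₁ L₂, fun a => ?_⟩
    obtain ⟨b₁, e₁, f₁⟩ := h₁ a.1
    obtain ⟨b₂, e₂, f₂⟩ := h₂ a.2
    exact ⟨(b₁, b₂), by simp [e₁, e₂], max_le_max f₁ f₂⟩

theorem n2_add_of_disj {B : Type} {x y : B →₀ ℚ} (p : B → Prop) (hx : ∀ b ∈ x.support, p b)
    (hy : ∀ b ∈ y.support, ¬p b) : n2 (x + y) = n2 x + n2 y := by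
  have h : ip x y = 0 := by
    rw [ip_eq_sum y subset_rfl]
    refine Finset.sum_eq_zero fun b hb => ?_
    rw [notMem_support_iff.1 (fun h => hy b h (hx b hb)), mul_zero]
  rw [n2, ip_add_left, ip_comm x, ip_comm y, ip_add_left, ip_add_left, ip_comm y x, h, n2, n2]
  ring

theorem GapAbove.prod {m₁ m₂ : ℕ} (h₁ : GapAbove co₁ m₁) (h₂ : GapAbove co₂ m₂) :
    GapAbove (co₁.prod co₂) (m₁ + m₂) := by
  classical
  obtain ⟨B₁, C₁, u₁, h₁⟩ := h₁
  obtain ⟨B₂, C₂, u₂, h₂⟩ := h₂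
  obtain ⟨f₁, a₁, b₁, c₁, d₁, e₁, g₁⟩ := C₁.strong u₁ h₁
  obtain ⟨f₂, a₂, b₂, c₂, d₂, e₂, g₂⟩ := C₂.strong u₂ h₂
  obtain ⟨C, hC⟩ := exists_prod C₁ C₂
  have hpos : C.pos = fun b => (C₁.pos b.1, C₂.pos b.2) := funext hC.pos
  have hsupp : ∀ (x : B₁ × B₂ →₀ ℚ), ∀ b' ∈ (tmap f₁ f₂ x).support, ∃ b ∈ x.support,
      C₁.deg b'.1 = C₁.deg b.1 ∧ C₂.deg b'.2 = C₂.deg b.2 := by
    intro x b' hb'
    obtain ⟨b, hb, h⟩ := mem_support_map _ hb'
    rw [tmap_single, mem_support_tens] at h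
    exact ⟨b, hb, b₁ _ _ h.1, b₂ _ _ h.2⟩
  refine ⟨_, C, hC.uacyc u₁ u₂, fun k hk => ⟨tmap f₁ f₂, hpos ▸ a₁.tmap a₂, fun b b' hb' => ?_,
    fun x => ?_, fun x => ?_, fun x hx => ?_⟩⟩
  · obtain ⟨b'', hb, h1, h2⟩ := hsupp _ b' hb'
    rw [Finset.mem_singleton.1 (support_single_subset hb)] at h1 h2
    rw [hC.deg, hC.deg, h1, h2, add_zero]
  · have : C.d ∘ₗ tmap f₁ f₂ = tmap f₁ f₂ ∘ₗ C.d := tens_ext fun b b' => by
      simp only [hC.d, LinearMap.comp_apply, LinearMap.add_apply, map_add, tmap_tens, c₁, c₂,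
        LinearMap.id_apply, b₁.sgD_comm]
    exact LinearMap.congr_fun this x
  · have : augD C.deg ∘ₗ tmap f₁ f₂ = augD C.deg := tens_ext fun b b' => by
      simp only [LinearMap.comp_apply, tmap_tens, augD_tens C₁.deg C₂.deg hC.deg, d₁, d₂]
    exact LinearMap.congr_fun this x
  · let p : B₁ × B₂ → Prop := fun b => m₁ + 1 ≤ C₁.deg b.1
    have s1 : ∀ b ∈ (x.filter p).support, p b := fun b hb => by
      rw [support_filter] at hb; exact (Finset.mem_filter.1 hb).2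
    have s2 : ∀ b ∈ (x.filter fun b => ¬p b).support, ¬p b := fun b hb => by
      rw [support_filter] at hb; exact (Finset.mem_filter.1 hb).2
    have s3 : ∀ b ∈ (x.filter fun b => ¬p b).support, m₂ + 1 ≤ C₂.deg b.2 := fun b hb => by
      have h1 := s2 b hb
      rw [support_filter] at hb
      have h2 := hx b (Finset.mem_filter.1 hb).1
      rw [hC.deg] at h2
      simp only [p] at h1
      omega
    have t1 : n2 (tmap f₁ f₂ (x.filter p)) ≤ 1 / 2 * n2 (x.filter p) := by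
      have : tmap f₁ f₂ (x.filter p) =
        tmap LinearMap.id f₂ (tmap f₁ LinearMap.id (x.filter p)) := by rw [tmap_tmap]; rfl
      rw [this]
      refine (n2_tmap_right f₂ Set.univ (c := 1) (fun y _ => by simpa using e₂ y) _
        (fun _ _ => trivial)).trans ?_
      rw [one_mul]
      exact n2_tmap_left f₁ {b | m₁ + 1 ≤ C₁.deg b} g₁ _ s1
    have t2 : n2 (tmap f₁ f₂ (x.filter fun b => ¬p b)) ≤ 1 / 2 * n2 (x.filter fun b => ¬p b) := by
      have : tmap f₁ f₂ (x.filter fun b => ¬p b) = tmap f₁ LinearMap.id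
        (tmap LinearMap.id f₂ (x.filter fun b => ¬p b)) := by rw [tmap_tmap]; rfl
      rw [this]
      refine (n2_tmap_left f₁ Set.univ (c := 1) (fun y _ => by simpa using e₁ y) _
        (fun _ _ => trivial)).trans ?_
      rw [one_mul]
      exact n2_tmap_right f₂ {b | m₂ + 1 ≤ C₂.deg b} g₂ _ s3
    rw [← filter_add_filter_not x p, map_add, n2_add_of_disj p s1 s2, n2_add_of_disj p]
    · linarith
    · intro b' hb'
      obtain ⟨b, hb, h1, -⟩ := hsupp _ b' hb'
      simpa only [p, h1] using s1 b hb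
    · intro b' hb'
      obtain ⟨b, hb, h1, -⟩ := hsupp _ b' hb'
      simpa only [p, h1] using s2 b hb

end Pool.Agent.Work.MP_dd0bbc_gt
end

-- merged part: Pool.Agent.Work.MP_dd0bbc_gt.HypDeck
section
/-! The deck group of a closed hyperbolic manifold; residual finiteness. -/

set_option autoImplicit false

namespace Pool.Agent.Work.MP_dd0bbc_gt

open Matrix

theorem HypDeck_cont {n : ℕ} {g : Hyp n → Hyp n} (hg : HypIsometry g) : Continuous g := by
  obtain ⟨A, hA⟩ := hg.exists_matrix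
  refine continuous_induced_rng.2 ?_
  have e : Subtype.val ∘ g = fun u : Hyp n => A *ᵥ u.1 := funext hA
  have hv : Continuous fun u : Hyp n => u.1 := continuous_induced_dom
  exact e ▸ continuous_const.matrix_mulVec hv

theorem HypDeck_lor_cont {n : ℕ} (v : Hyp n) : Continuous fun u : Hyp n => -lor u.1 v.1 := by
  have hv : Continuous fun u : Hyp n => u.1 := continuous_induced_dom
  have h0 : ∀ i, Continuous fun u : Hyp n => u.1 i := fun i => (continuous_apply i).comp hv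
  unfold lor
  exact (((h0 0).mul continuous_const).neg.add
    (continuous_finsetSum _ fun i _ => (h0 _).mul continuous_const)).neg

theorem HypDeck_fix {n : ℕ} {M : Type} [TopologicalSpace M] {p : Hyp n → M}
    (hp : IsCoveringMap p) {g : Hyp n → Hyp n} (hg : HypIsometry g) (hpg : p ∘ g = p)
    {x : Hyp n} (hx : g x = x) : g = id := by
  have := hyp_contractible (n := n)
  exact hp.eq_of_comp_eq (HypDeck_cont hg) continuous_id hpg x hx

/-- The isometric deck transformations. -/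
def HypDeck_grp {n : ℕ} {M : Type} (p : Hyp n → M) : Subgroup (Equiv.Perm (Hyp n)) where
  carrier := {g | HypIsometry g ∧ p ∘ g = p}
  mul_mem' := by
    rintro a b ⟨a1, a2⟩ ⟨b1, b2⟩
    refine ⟨fun u v => (a1 _ _).trans (b1 u v), funext fun u => ?_⟩
    exact (congrFun a2 (b u)).trans (congrFun b2 u)
  one_mem' := ⟨fun _ _ => rfl, rfl⟩
  inv_mem' := by
    rintro a ⟨a1, a2⟩
    refine ⟨fun u v => ?_, funext fun u => ?_⟩
    · have := a1 (a⁻¹ u) (a⁻¹ v)
      simpa using this.symm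
    · have := congrFun a2 (a⁻¹ u)
      simpa using this.symm

theorem HypDeck_deck {n : ℕ} {M : Type} [TopologicalSpace M] {p : Hyp n → M}
    (hp : IsCoveringMap p) (hs : Function.Surjective p)
    (ht : ∀ x y, p x = p y → ∃ g : Hyp n → Hyp n, HypIsometry g ∧ p ∘ g = p ∧ g x = y) :
    Deck (HypDeck_grp p) p where
  cov := hp
  surj := hs
  cont := fun γ => HypDeck_cont γ.2.1
  inv := fun γ x => congrFun γ.2.2 x
  trans := by
    intro x y hxy
    obtain ⟨g, g1, g2, g3⟩ := ht x y hxy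
    obtain ⟨h, h1, h2, h3⟩ := ht y x hxy.symm
    have e1 : h ∘ g = id := HypDeck_fix hp (g := h ∘ g) (fun u v => (h1 _ _).trans (g1 u v))
      (by rw [← Function.comp_assoc, h2, g2]) (x := x) (by simp [g3, h3])
    have e2 : g ∘ h = id := HypDeck_fix hp (g := g ∘ h) (fun u v => (g1 _ _).trans (h1 u v))
      (by rw [← Function.comp_assoc, g2, h2]) (x := y) (by simp [g3, h3])
    exact ⟨⟨⟨g, h, congrFun e1, congrFun e2⟩, g1, g2⟩, g3⟩
  free := by
    intro γ x hx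
    have := HypDeck_fix hp γ.2.1 γ.2.2 (x := x) hx
    exact Subtype.ext (Equiv.ext (congrFun this))

theorem exists_deck {n : ℕ} {M : Type} [TopologicalSpace M] [T2Space M] [CompactSpace M]
    (h : IsHyperbolic n M) :
    ∃ (Γ : Type) (_ : Group Γ) (_ : MulAction Γ (Hyp n)) (p : Hyp n → M), Deck Γ p ∧
      (∀ (γ : Γ) (u v : Hyp n), (hypCoarse n).Λ (γ • u) (γ • v) = (hypCoarse n).Λ u v) ∧
      (∀ (L : ℝ) (u v : Hyp n), {γ : Γ | (hypCoarse n).Λ (γ • u) v ≤ L}.Finite) ∧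
      (∀ v : Hyp n, ∃ L : ℝ, ∀ u, ∃ γ : Γ, (hypCoarse n).Λ (γ • v) u ≤ L) ∧
      ∃ ρ : Γ →* (Matrix (Fin (n + 1)) (Fin (n + 1)) ℝ)ˣ, Function.Injective ρ := by
  obtain ⟨p, hp, hs, ht⟩ := h
  have hD := HypDeck_deck hp hs ht
  have hiso : ∀ (γ : HypDeck_grp p) (u v : Hyp n),
      (hypCoarse n).Λ (γ • u) (γ • v) = (hypCoarse n).Λ u v :=
    fun γ u v => congrArg Neg.neg (γ.2.1 u v)
  refine ⟨HypDeck_grp p, inferInstance, inferInstance, p, hD, hiso, ?_, ?_, ?_⟩
  · intro L u v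
    have hc : IsCompact ({w : Hyp n | -lor w.1 v.1 ≤ L} ∩ p ⁻¹' {p u}) :=
      (isCompact_ball v L).inter_right (isClosed_singleton.preimage hp.continuous)
    have hd : IsDiscrete (p ⁻¹' {p u}) := ⟨(hp (p u)).1⟩
    have hf := hc.finite (hd.mono Set.inter_subset_right)
    refine Set.Finite.of_finite_image (f := fun γ : HypDeck_grp p => γ • u) (hf.subset ?_) ?_
    · rintro _ ⟨γ, hγ, rfl⟩
      exact ⟨hγ, hD.inv γ u⟩
    · intro γ _ δ _ e
      have e' : γ • u = δ • u := e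
      have : (δ⁻¹ * γ) • u = u := by rw [mul_smul, e', inv_smul_smul]
      exact (inv_mul_eq_one.1 (hD.free _ _ this)).symm
  · intro v
    obtain ⟨L, hL⟩ := isCompact_univ.elim_directed_cover
      (fun L : ℕ => p '' {w : Hyp n | -lor w.1 v.1 < L})
      (fun L => hp.isOpenMap _ (isOpen_lt (HypDeck_lor_cont v) continuous_const))
      (by
        intro m _
        obtain ⟨w, rfl⟩ := hs m
        obtain ⟨L, hL⟩ := exists_nat_gt (-lor w.1 v.1)
        exact Set.mem_iUnion.2 ⟨L, w, hL, rfl⟩)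
      (directed_of_isDirected_le fun a b hab => Set.image_mono fun w hw =>
        lt_of_lt_of_le (show -lor w.1 v.1 < (a : ℝ) from hw) (Nat.cast_le.2 hab))
    refine ⟨L, fun u => ?_⟩
    obtain ⟨w, hw, e⟩ := hL (Set.mem_univ (p u))
    obtain ⟨γ, rfl⟩ := hD.trans w u e
    refine ⟨γ, ?_⟩
    rw [hiso, (hypCoarse n).symm]
    exact le_of_lt hw
  · choose A hA using fun γ : HypDeck_grp p => γ.2.1.exists_matrix
    let ρ0 : HypDeck_grp p →* Matrix (Fin (n + 1)) (Fin (n + 1)) ℝ :=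
      { toFun := A
        map_one' := matrix_ext_hyp fun u => by rw [← hA, one_mulVec]; rfl
        map_mul' := fun γ δ => matrix_ext_hyp fun u => by
          rw [← mulVec_mulVec, ← hA δ, ← hA, ← hA]; rfl }
    refine ⟨ρ0.toHomUnits, fun γ δ e => ?_⟩
    have e' : A γ = A δ := congrArg Units.val e
    refine Subtype.ext (Equiv.ext fun u => Subtype.ext ?_)
    rw [hA, hA, e']

theorem malcev {Γ : Type} [Group Γ] {N : ℕ} (ρ : Γ →* (Matrix (Fin N) (Fin N) ℝ)ˣ)
    (hρ : Function.Injective ρ) (g : Finset Γ) (hg : Subgroup.closure (g : Set Γ) = ⊤)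
    (s : Finset Γ) :
    ∃ (Q : Type) (_ : Group Q) (_ : Finite Q) (θ : Γ →* Q), ∀ γ ∈ s, θ γ = 1 → γ = 1 := by
  classical
  obtain ⟨A, F, _, _, p, _, φ, -, -, hA⟩ := exists_residue
    ((g ×ˢ (Finset.univ : Finset (Fin N × Fin N))).image
        (fun q => (ρ q.1).val q.2.1 q.2.2) ∪
      ((g ×ˢ (Finset.univ : Finset (Fin N × Fin N))).image
        (fun q => (ρ q.1⁻¹).val q.2.1 q.2.2) ∪
      (s ×ˢ (Finset.univ : Finset (Fin N × Fin N))).image
        (fun q => (((ρ q.1).val - 1) q.2.1 q.2.2)⁻¹))) 0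
  have hmul : ∀ γ δ : Γ, (∀ i j, (ρ γ).val i j ∈ A) → (∀ i j, (ρ δ).val i j ∈ A) →
      ∀ i j, (ρ (γ * δ)).val i j ∈ A := by
    intro γ δ h1 h2 i j
    rw [map_mul, Units.val_mul, Matrix.mul_apply]
    exact A.sum_mem fun k _ => A.mul_mem (h1 _ _) (h2 _ _)
  have hone : ∀ i j, (ρ 1).val i j ∈ A := by
    intro i j
    rw [map_one, Units.val_one, Matrix.one_apply]
    split_ifs
    · exact A.one_mem
    · exact A.zero_mem
  have hall : ∀ γ : Γ, (∀ i j, (ρ γ).val i j ∈ A) ∧ ∀ i j, (ρ γ⁻¹).val i j ∈ A := by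
    intro γ
    have hγ : γ ∈ Subgroup.closure (g : Set Γ) := hg ▸ Subgroup.mem_top γ
    induction hγ using Subgroup.closure_induction with
    | mem x hx =>
      refine ⟨fun i j => hA _ ?_, fun i j => hA _ ?_⟩
      · exact Finset.mem_union_left _ (Finset.mem_image.2
          ⟨(x, i, j), Finset.mem_product.2 ⟨hx, Finset.mem_univ _⟩, rfl⟩)
      · exact Finset.mem_union_right _ (Finset.mem_union_left _ (Finset.mem_image.2
          ⟨(x, i, j), Finset.mem_product.2 ⟨hx, Finset.mem_univ _⟩, rfl⟩))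
    | one => exact ⟨hone, by rw [inv_one]; exact hone⟩
    | mul x y _ _ hx hy =>
      exact ⟨hmul x y hx.1 hy.1, by rw [_root_.mul_inv_rev]; exact hmul _ _ hy.2 hx.2⟩
    | inv x _ hx => exact ⟨hx.2, by rw [inv_inv]; exact hx.1⟩
  let B : Γ → Matrix (Fin N) (Fin N) A := fun γ => Matrix.of fun i j => ⟨_, (hall γ).1 i j⟩
  have hB : ∀ γ, (B γ).map A.subtype = (ρ γ).val := fun γ => rfl
  have hinj : Function.Injective fun X : Matrix (Fin N) (Fin N) A => X.map A.subtype :=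
    Matrix.map_injective Subtype.val_injective
  have hB1 : B 1 = 1 := hinj (by
    simp only [hB]
    rw [map_one, Units.val_one, Matrix.map_one _ (map_zero _) (map_one _)])
  have hBm : ∀ γ δ, B (γ * δ) = B γ * B δ := fun γ δ => hinj (by
    simp only [Matrix.map_mul, hB]
    rw [map_mul, Units.val_mul])
  let θ0 : Γ →* Matrix (Fin N) (Fin N) F :=
    { toFun := fun γ => (B γ).map φ
      map_one' := by rw [hB1, Matrix.map_one _ (map_zero _) (map_one _)]
      map_mul' := fun γ δ => by rw [hBm, Matrix.map_mul] }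
  refine ⟨(Matrix (Fin N) (Fin N) F)ˣ, inferInstance, inferInstance, θ0.toHomUnits, ?_⟩
  intro γ hγ h1
  have h2 : (B γ).map φ = 1 := congrArg Units.val h1
  apply hρ
  rw [map_one]
  refine Units.ext (sub_eq_zero.1 ?_)
  ext i j
  by_contra hne
  have hi : (((ρ γ).val - 1) i j)⁻¹ ∈ A := hA _ (Finset.mem_union_right _
    (Finset.mem_union_right _ (Finset.mem_image.2
      ⟨(γ, i, j), Finset.mem_product.2 ⟨hγ, Finset.mem_univ _⟩, rfl⟩)))
  have hv : (((B γ - 1) i j : A) : ℝ) = ((ρ γ).val - 1) i j := by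
    rw [Matrix.sub_apply, Matrix.sub_apply, Matrix.one_apply, Matrix.one_apply]
    split_ifs <;> rfl
  have h3 : (B γ - 1) i j * ⟨_, hi⟩ = 1 := by
    apply Subtype.ext
    rw [Subring.coe_mul, hv]
    exact mul_inv_cancel₀ hne
  have h4 : φ ((B γ - 1) i j) = 0 := by
    have := congrFun (congrFun h2 i) j
    rw [Matrix.map_apply] at this
    rw [Matrix.sub_apply, map_sub, this, Matrix.one_apply, Matrix.one_apply]
    split_ifs <;> simp
  have h5 := congrArg φ h3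
  rw [map_mul, h4, zero_mul, map_one] at h5
  exact zero_ne_one h5

end Pool.Agent.Work.MP_dd0bbc_gt
end

-- merged part: Pool.Agent.Work.MP_dd0bbc_gt.CoarseEq
section
/-! Coarse equivalences; the coarse distance on a product of hyperbolic spaces. -/

set_option autoImplicit false

namespace Pool.Agent.Work.MP_dd0bbc_gt

theorem GapAbove.of_equiv {P P' : Type} {co : Coarse P} {co' : Coarse P'} (e : P ≃ P')
    (h1 : ∀ L : ℝ, ∃ L' : ℝ, ∀ a b, co.Λ a b ≤ L → co'.Λ (e a) (e b) ≤ L')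
    (h2 : ∀ L : ℝ, ∃ L' : ℝ, ∀ a b, co'.Λ (e a) (e b) ≤ L → co.Λ a b ≤ L') {m : ℕ}
    (h : GapAbove co m) : GapAbove co' m := by
  obtain ⟨B, X, hX, hc⟩ := h
  have hctl : ∀ φ, Ctl co X.pos X.pos φ → Ctl co' (e ∘ X.pos) (e ∘ X.pos) φ := by
    rintro φ ⟨L, M, h⟩
    obtain ⟨L', hL⟩ := h1 L
    exact ⟨L', M, fun b => ⟨fun b' hb' => hL _ _ ((h b).1 b' hb'), (h b).2⟩⟩
  refine ⟨B, { X with pos := e ∘ X.pos, d_ctl := hctl _ X.d_ctl, ulf := fun L => ?_, dense := ?_ },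
    fun L => ?_, fun k hk => ?_⟩
  · obtain ⟨L', hL⟩ := h2 L
    obtain ⟨N, hN⟩ := X.ulf L'
    refine ⟨N, fun a => ?_⟩
    obtain ⟨a, rfl⟩ := e.surjective a
    obtain ⟨s, s1, s2⟩ := hN a
    exact ⟨s, s1, fun b hb => s2 b (hL _ _ hb)⟩
  · obtain ⟨L, h⟩ := X.dense
    obtain ⟨L', hL⟩ := h1 L
    refine ⟨L', fun a => ?_⟩
    obtain ⟨a, rfl⟩ := e.surjective a
    obtain ⟨b, s1, s2⟩ := h a
    exact ⟨b, s1, hL _ _ s2⟩
  · obtain ⟨L₁, hL₁⟩ := h2 L
    obtain ⟨L₂, M, h⟩ := hX L₁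
    obtain ⟨L₃, hL₃⟩ := h1 L₂
    refine ⟨L₃, M, fun a k z z1 z2 z3 z4 => ?_⟩
    obtain ⟨a, rfl⟩ := e.surjective a
    obtain ⟨y, y1, y2, y3, y4⟩ := h a k z z1 (fun b hb => hL₁ _ _ (z2 b hb)) z3 z4
    exact ⟨y, y1, fun b hb => hL₃ _ _ (y2 b hb), y3, y4⟩
  · obtain ⟨f, f1, f2⟩ := hc k hk
    exact ⟨f, hctl f f1, f2⟩

theorem chd_nonneg {r : ℕ} {n : Fin r → ℕ} (u v : ∀ i, Hyp (n i)) : 0 ≤ chd u v :=
  Finset.sum_nonneg fun i _ => zero_le_one.trans (one_le_neg_lor (u i) (v i))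

theorem le_chd {r : ℕ} {n : Fin r → ℕ} (u v : ∀ i, Hyp (n i)) (i : Fin r) :
    -lor (u i).1 (v i).1 ≤ chd u v :=
  Finset.single_le_sum (f := fun i => -lor (u i).1 (v i).1)
    (fun i _ => zero_le_one.trans (one_le_neg_lor (u i) (v i))) (Finset.mem_univ i)

/-- The coarse distance on a product of hyperbolic spaces. -/
noncomputable def prodCoarse {r : ℕ} (n : Fin r → ℕ) : Coarse (∀ i, Hyp (n i)) where
  Λ u v := chd u v / r
  symm u v := by simp only [chd, HypGeom_comm (u _).1]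
  refl u := by
    have : chd u u = r := by simp [chd, (u _).2.1]
    rw [this]; exact div_self_le_one _
  tri L := by
    refine ⟨2 * (r * L) ^ 2, fun a b c h h' => ?_⟩
    rcases Nat.eq_zero_or_pos r with e | e
    · subst e; simp
    have hr : (0 : ℝ) < r := by exact_mod_cast e
    rw [div_le_iff₀' hr] at h h' ⊢
    refine (Finset.sum_le_card_nsmul _ _ (2 * (r * L) ^ 2) fun i _ => ?_).trans (by simp)
    have h1 := (le_chd a b i).trans h
    have h2 := (le_chd b c i).trans h'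
    have h3 := one_le_neg_lor (a i) (b i)
    have h4 := one_le_neg_lor (b i) (c i)
    have h5 := mul_le_mul h1 h2 (by linarith) (by linarith)
    nlinarith [lor_tri (a i) (b i) (c i)]

theorem gapAbove_point {P : Type} [Unique P] (co : Coarse P) : GapAbove co 0 := by
  have h0 : ∀ z : Unit →₀ ℚ, augD (fun _ => 0) z = 0 → z = 0 := by
    intro z hz
    rw [Finsupp.unique_single z, augD_single, if_pos rfl] at hz
    rw [Finsupp.unique_single z, hz, Finsupp.single_zero]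
  refine ⟨Unit, { deg := fun _ => 0
                  pos := fun _ => default
                  d := 0
                  dim := 0
                  deg_le := fun _ => le_rfl
                  d_deg := by simp
                  dd := by simp
                  aug_d := by simp
                  d_ctl := ⟨0, 0, fun b => by simp [l1]⟩
                  ulf := fun L => ⟨1, fun a => ⟨{()}, by simp, by simp⟩⟩
                  dense := ⟨1, fun a => ⟨(), rfl, Subsingleton.elim a default ▸ co.refl _⟩⟩ },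
    fun L => ⟨0, 0, fun a k z _ _ _ hz => ⟨0, by simp [InDeg], by simp, by simp [h0 z hz],
      by simp [l1]⟩⟩,
    fun k hk => ⟨LinearMap.id, Ctl.id _ _, fun b b' _ => rfl, by simp, by simp, fun x hx => ?_⟩⟩
  have : x = 0 := by
    rw [← Finsupp.support_eq_empty, Finset.eq_empty_iff_forall_notMem]
    intro b hb
    have : 0 = k := hx b hb
    omega
  simp [this, n2, ip]

theorem gapAbove_prodCoarse
    (hprod : ∀ {P₁ P₂ : Type} {co₁ : Coarse P₁} {co₂ : Coarse P₂} {m₁ m₂ : ℕ},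
      GapAbove co₁ m₁ → GapAbove co₂ m₂ → GapAbove (co₁.prod co₂) (m₁ + m₂))
    {r : ℕ} (n k : Fin r → ℕ) (h : ∀ i, GapAbove (hypCoarse (n i)) (k i)) :
    GapAbove (prodCoarse n) (∑ i, k i) := by
  induction r with
  | zero => simpa using gapAbove_point _
  | succ r ih =>
    rw [Fin.sum_univ_succ]
    have key : ∀ a b : Hyp (n 0) × ∀ i : Fin r, Hyp (n i.succ),
        chd (Fin.consEquiv (fun i => Hyp (n i)) a) (Fin.consEquiv (fun i => Hyp (n i)) b) =
          -lor a.1.1 b.1.1 + chd a.2 b.2 := fun a b => by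
      rw [chd, Fin.sum_univ_succ]; rfl
    have hr : (0 : ℝ) < (r + 1 : ℕ) := by positivity
    refine (hprod (h 0) (ih (fun i => n i.succ) (fun i => k i.succ) fun i => h i.succ)).of_equiv
      (Fin.consEquiv fun i => Hyp (n i)) (fun L => ⟨L, fun a b hab => ?_⟩)
      (fun L => ⟨(r + 1 : ℕ) * L, fun a b hab => ?_⟩)
    · have h1 : -lor a.1.1 b.1.1 ≤ L := le_of_max_le_left hab
      have h2 : chd a.2 b.2 / r ≤ L := le_of_max_le_right hab
      change chd _ _ / _ ≤ L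
      rw [key, div_le_iff₀' hr]
      rcases Nat.eq_zero_or_pos r with e | e
      · subst e; simpa [chd] using h1
      · rw [div_le_iff₀' (by exact_mod_cast e)] at h2
        push_cast; linarith
    · change chd _ _ / _ ≤ L at hab
      rw [key, div_le_iff₀' hr] at hab
      have h1 := chd_nonneg a.2 b.2
      have h2 := one_le_neg_lor a.1 b.1
      refine max_le (show -lor a.1.1 b.1.1 ≤ _ by linarith) (show chd a.2 b.2 / r ≤ _ from ?_)
      rcases Nat.eq_zero_or_pos r with e | e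
      · subst e; simp only [Nat.cast_zero, div_zero]; linarith
      · exact (div_le_self h1 (by exact_mod_cast e)).trans (by linarith)

end Pool.Agent.Work.MP_dd0bbc_gt
end

-- merged part: Pool.Agent.Work.MP_dd0bbc_gt.HypMain
section
/-! The vanishing theorem for lattices in products of hyperbolic spaces. -/

set_option autoImplicit false
open scoped Manifold ContDiff

namespace Pool.Agent.Work.MP_dd0bbc_gt

open Finset

theorem gapAbove_hyp {k : ℕ} (hk : 1 ≤ k) : GapAbove (hypCoarse (2 * k)) k := by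
  obtain ⟨d, hd⟩ : ∃ d, 2 * k = d + 1 := ⟨2 * k - 1, by omega⟩
  rw [hd]
  obtain ⟨ι, hι⟩ := exists_horo d
  obtain ⟨X, h1, h2, h3, h4⟩ := exists_teleBCx hι
  refine ⟨_, X, h3, fun j hj => ⟨tUp, h4, fun b b' hb' => ?_, ?_, ?_, ?_⟩⟩
  · rw [h1, tDeg, (tUp_support b b' hb').2.1]; rfl
  · rw [h2]; exact td_tUp
  · rw [h1]; exact aug_tUp
  · rw [h1]; exact n2_tUp (by omega)

theorem locPath_of_cov {X M : Type} [TopologicalSpace X] [TopologicalSpace M]
    [LocallyPathConnectedSpace M] {p : X → M} (hp : IsCoveringMap p) :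
    LocallyPathConnectedSpace X := by
  refine ⟨fun x => ?_⟩
  obtain ⟨e, hx, he⟩ := hp.isLocalHomeomorph x
  have h1 : Topology.IsOpenEmbedding (fun y : e.source => p y) := by
    rw [he]; exact e.isOpenEmbedding_restrict
  have := h1.locallyPathConnectedSpace
  have h2 := e.open_source.isOpenEmbedding_subtypeVal
  refine Filter.hasBasis_self.2 fun t ht => ?_
  obtain ⟨s, ⟨s1, s2⟩, s3⟩ := (path_connected_basis (⟨x, hx⟩ : e.source)).mem_iff.1
    (h2.continuous.continuousAt.preimage_mem_nhds ht)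
  exact ⟨Subtype.val '' s, h2.image_mem_nhds.2 s1, s2.image h2.continuous,
    Set.image_subset_iff.2 s3⟩

theorem main_lattice (m : ℕ) (hm : 1 ≤ m) (M : Type) [TopologicalSpace M] [T2Space M]
    [CompactSpace M] [ConnectedSpace M] [ChartedSpace (EuclideanSpace ℝ (Fin (2 * m))) M]
    [IsManifold (𝓡 (2 * m)) ∞ M] (hf : TangentiallyFlat (2 * m) M) (h : LatticeType m M) :
    ∑ k ∈ range (2 * m + 1), (-1 : ℤ) ^ k * (betti M k : ℤ) = 0 := by
  have := ChartedSpace.locallyPathConnectedSpace (EuclideanSpace ℝ (Fin (2 * m))) M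
  obtain ⟨N, U, D, hU, hK⟩ := exists_fan (geo_of_flat hf)
  rw [chi_eq (k := ℚ) D.card_le (betti M) (by rw [hK]; exact nerve_theorem hU)]
  obtain ⟨r, k, X, Γ, _, _, _, p, act, hk, hs, hX, hq, hL⟩ := h
  have := locPath_of_cov hq.isCoveringMap
  have hp : Deck Γ p :=
    { cov := hq.isCoveringMap
      surj := hq.surjective
      cont := hq.continuous_const_smul
      inv := fun γ x => hq.map_smul γ
      trans := fun x y e => hq.apply_eq_iff_mem_orbit.1 e.symm
      free := fun γ x e => hq.isCancelSMul.right_cancel' γ 1 x (by rw [e, one_smul]) }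
  let _ : MulAction Γ (∀ i, Hyp (2 * k i)) := MulAction.compHom _ act
  have hr : (0 : ℝ) < r := by
    rcases r with _ | r
    · simp at hs; omega
    · positivity
  obtain ⟨v, L, hv⟩ := hL.cocompact
  obtain ⟨N', ρ, hρ⟩ := exists_rep (fun i => by have := hk i; omega) act hL.inj hL.isom
  refine chi_zero_of_gap hm hU D hK hp (prodCoarse fun i => 2 * k i)
    (fun γ u v => congrArg (· / (r : ℝ)) (hL.isom γ u v))
    (fun L u v => (hL.proper (L * r) u v).subset fun γ hγ => (div_le_iff₀ hr).1 hγ) v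
    ⟨L / r, fun u => (hv u).imp fun γ hγ => div_le_div_of_nonneg_right hγ hr.le⟩
    (hs ▸ gapAbove_prodCoarse GapAbove.prod _ k fun i => gapAbove_hyp (hk i))
    (fun g hg s => malcev ρ hρ g hg s)

end Pool.Agent.Work.MP_dd0bbc_gt
end
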