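import Pool.Agent.Work.MP_dd0bbc_gt.Weights
import Pool.Agent.Work.MP_dd0bbc_gt.HypDefs
import Pool.Agent.Work.MP_dd0bbc_gt.Main
import Pool.Agent.Work.MP_dd0bbc_gt.LatDefs

-- merged part: Pool.Agent.Work.MP_dd0bbc_gt.LatRep
section
-- merged part: Pool.Agent.Work.MP_dd0bbc_gt.CoarseDefs
section
/-! Controlled chain complexes, regular coverings, twisted complexes. -/

set_option autoImplicit false

namespace Pool.Agent.Work.MP_dd0bbc_gt

open Finsupp

/-- A regular covering with deck group `Γ`. -/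
structure Deck (Γ : Type) {X M : Type} [TopologicalSpace X] [TopologicalSpace M] [Group Γ]
    [MulAction Γ X] (p : X → M) : Prop where
  cov : IsCoveringMap p
  surj : Function.Surjective p
  cont : ∀ γ : Γ, Continuous (fun x : X => γ • x)
  inv : ∀ (γ : Γ) (x : X), p (γ • x) = p x
  trans : ∀ x y, p x = p y → ∃ γ : Γ, γ • x = y
  free : ∀ (γ : Γ) (x : X), γ • x = x → γ = 1

/-- Labelling of the sheets over the members of a cover by the deck group. -/
structure Sheeting {Γ X M Y : Type} [TopologicalSpace X] [Group Γ] [MulAction Γ X] [Fintype Y]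
    (p : X → M) (U : Y → Set M) (comp : Y → X → Γ) (c : Y → Y → Γ) : Prop where
  loc : ∀ a x, p x ∈ U a → ∀ᶠ x' in nhds x, comp a x' = comp a x
  equi : ∀ a (γ : Γ) x, p x ∈ U a → comp a (γ • x) = γ * comp a x
  coc : ∀ a b x, p x ∈ U a → p x ∈ U b → comp b x = comp a x * c a b
  contr : ∀ S ∈ nerve U, ∀ a ∈ S, ∀ γ : Γ,
    ContractibleSpace {x : X | (∀ y ∈ S, p x ∈ U y) ∧ comp a x = γ}

/-- A group valued cocycle on a simplicial complex. -/
structure Cocycle {Γ Y : Type} [Group Γ] [LinearOrder Y] (K : Finset (Finset Y))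
    (c : Y → Y → Γ) : Prop where
  self : ∀ a, c a a = 1
  mul : ∀ a b e, {a, b, e} ∈ K → c a b * c b e = c a e

/-- A coarse distance. -/
structure Coarse (P : Type) where
  Λ : P → P → ℝ
  symm : ∀ a b, Λ a b = Λ b a
  refl : ∀ a, Λ a a ≤ 1
  tri : ∀ L : ℝ, ∃ L' : ℝ, ∀ a b c, Λ a b ≤ L → Λ b c ≤ L → Λ a c ≤ L'

/-- Horospherical coordinates. -/
structure Horo (d : ℕ) {P : Type} (co : Coarse P) (ι : (Fin d → ℝ) → ℝ → P) : Prop where
  eq : ∀ y y' t t', 0 < t → 0 < t' →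
    co.Λ (ι y t) (ι y' t') = (∑ i, (y i - y' i) ^ 2 + t ^ 2 + t' ^ 2) / (2 * t * t')
  surj : ∀ a, ∃ y t, 0 < t ∧ ι y t = a

section Norms

variable {B : Type}

/-- The sum of the absolute values of the coefficients. -/
noncomputable def l1 (x : B →₀ ℚ) : ℚ := x.sum (fun _ a => |a|)

/-- The scalar product. -/
noncomputable def ip (x y : B →₀ ℚ) : ℚ := x.sum (fun b a => a * y b)

/-- The square of the Euclidean norm. -/
noncomputable def n2 (x : B →₀ ℚ) : ℚ := ip x x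

/-- The sum of the coefficients in degree zero. -/
noncomputable def augD (deg : B → ℕ) : (B →₀ ℚ) →ₗ[ℚ] ℚ :=
  linearCombination ℚ (fun b => if deg b = 0 then 1 else 0)

/-- Chains of degree `k`. -/
def InDeg (deg : B → ℕ) (k : ℕ) (x : B →₀ ℚ) : Prop := ∀ b ∈ x.support, deg b = k

/-- A map raising the degree by `r`. -/
def Raises {B' : Type} (deg : B → ℕ) (deg' : B' → ℕ) (r : ℕ) (φ : (B →₀ ℚ) →ₗ[ℚ] (B' →₀ ℚ)) :
    Prop := ∀ b, InDeg deg' (deg b + r) (φ (single b 1))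

/-- A controlled map. -/
def Ctl {B' P : Type} (co : Coarse P) (pos : B → P) (pos' : B' → P)
    (φ : (B →₀ ℚ) →ₗ[ℚ] (B' →₀ ℚ)) : Prop :=
  ∃ (L : ℝ) (M : ℚ), ∀ b, (∀ b' ∈ (φ (single b 1)).support, co.Λ (pos' b') (pos b) ≤ L) ∧
    l1 (φ (single b 1)) ≤ M

/-- Acyclicity of the augmented complex. -/
def Acyc (deg : B → ℕ) (d : (B →₀ ℚ) →ₗ[ℚ] (B →₀ ℚ)) : Prop :=
  ∀ k z, InDeg deg k z → d z = 0 → augD deg z = 0 → ∃ y, InDeg deg (k + 1) y ∧ d y = z

end Norms

/-- A based chain complex of bounded geometry. -/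
structure BCx {P : Type} (co : Coarse P) (B : Type) where
  deg : B → ℕ
  pos : B → P
  d : (B →₀ ℚ) →ₗ[ℚ] (B →₀ ℚ)
  dim : ℕ
  deg_le : ∀ b, deg b ≤ dim
  d_deg : ∀ b, ∀ b' ∈ (d (single b 1)).support, deg b' + 1 = deg b
  dd : ∀ x, d (d x) = 0
  aug_d : ∀ x, augD deg (d x) = 0
  d_ctl : Ctl co pos pos d
  ulf : ∀ L : ℝ, ∃ N : ℕ, ∀ a, ∃ s : Finset B, s.card ≤ N ∧ ∀ b, co.Λ (pos b) a ≤ L → b ∈ s
  dense : ∃ L : ℝ, ∀ a, ∃ b, deg b = 0 ∧ co.Λ (pos b) a ≤ L

/-- Uniform acyclicity. -/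
def BCx.UAcyc {P B : Type} {co : Coarse P} (C : BCx co B) : Prop :=
  ∀ L : ℝ, ∃ (L' : ℝ) (M : ℚ), ∀ (a : P) (k : ℕ) (z : B →₀ ℚ), InDeg C.deg k z →
    (∀ b ∈ z.support, co.Λ (C.pos b) a ≤ L) → C.d z = 0 → augD C.deg z = 0 →
      ∃ y, InDeg C.deg (k + 1) y ∧ (∀ b ∈ y.support, co.Λ (C.pos b) a ≤ L') ∧ C.d y = z ∧
        l1 y ≤ M * l1 z

section Tw

variable {Y : Type} [LinearOrder Y]

/-- The nonempty faces. -/
abbrev NF (K : Finset (Finset Y)) : Type := {S : Finset Y // S ∈ K ∧ S.Nonempty}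

/-- Incidence numbers. -/
def inc' (τ S : Finset Y) : ℚ := ∑ y ∈ τ, if τ.erase y = S then (sgn y τ : ℚ) else 0

variable {Γ : Type} [Group Γ] (K : Finset (Finset Y)) (bs : Finset Y → Y) (c : Y → Y → Γ)

/-- Degree of a cell of the covering complex. -/
def twDeg (b : Γ × NF K) : ℕ := b.2.1.card - 1

/-- Boundary in the covering complex. -/
noncomputable def twd [Fintype Y] : (Γ × NF K →₀ ℚ) →ₗ[ℚ] (Γ × NF K →₀ ℚ) :=
  linearCombination ℚ (fun b => ∑ S : NF K,
    inc' b.2.1 S.1 • single (b.1 * c (bs b.2.1) (bs S.1), S) (1 : ℚ))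

/-- Coboundary in the covering complex. -/
noncomputable def twdT [Fintype Y] : (Γ × NF K →₀ ℚ) →ₗ[ℚ] (Γ × NF K →₀ ℚ) :=
  linearCombination ℚ (fun b => ∑ τ : NF K,
    inc' τ.1 b.2.1 • single (b.1 * c (bs b.2.1) (bs τ.1), τ) (1 : ℚ))

/-- Incidence matrix of the covering complex. -/
def tinc [DecidableEq Γ] (k : ℕ) : Matrix (Γ × Face K (k + 1)) (Γ × Face K k) ℚ :=
  fun p q => if q.1 = p.1 * c (bs p.2.1) (bs q.2.1) then inc ℚ K k p.2 q.2 else 0

end Tw

section Tele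

/-- Cells of the dyadic model: level, lattice point, directions (`0` is vertical). -/
abbrev TB (d : ℕ) : Type := ℤ × (Fin d → ℤ) × Finset (Fin (d + 1))

variable {d : ℕ}

/-- Removing a direction. -/
noncomputable def tEr (i : Fin (d + 1)) : (TB d →₀ ℚ) →ₗ[ℚ] (TB d →₀ ℚ) :=
  linearCombination ℚ (fun b =>
    if i ∈ b.2.2 then single (b.1, b.2.1, b.2.2.erase i) (sgn i b.2.2 : ℚ) else 0)

/-- Horizontal shift. -/
noncomputable def tSh (i : Fin d) : (TB d →₀ ℚ) →ₗ[ℚ] (TB d →₀ ℚ) :=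
  lmapDomain ℚ ℚ (fun b => (b.1, b.2.1 + Pi.single i 1, b.2.2))

/-- The averaged map to the next level. -/
noncomputable def tUp : (TB d →₀ ℚ) →ₗ[ℚ] (TB d →₀ ℚ) :=
  linearCombination ℚ (fun b => ∑ ω : Fin d → Fin 2,
    if ∀ i : Fin d, i.succ ∈ b.2.2 → (b.2.1 i + (ω i : ℕ)) % 2 = 1 then
      single (b.1 + 1, fun i => (b.2.1 i + (ω i : ℕ)) / 2, b.2.2) ((1 / 2 : ℚ) ^ d) else 0)

/-- The horizontal boundary. -/
noncomputable def tdh : (TB d →₀ ℚ) →ₗ[ℚ] (TB d →₀ ℚ) :=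
  ∑ i : Fin d, (tSh i - LinearMap.id) ∘ₗ tEr i.succ

/-- The boundary of the dyadic model. -/
noncomputable def td : (TB d →₀ ℚ) →ₗ[ℚ] (TB d →₀ ℚ) := (tUp - LinearMap.id) ∘ₗ tEr 0 + tdh

/-- Degree of a cell. -/
def tDeg (b : TB d) : ℕ := b.2.2.card

/-- Position of a cell. -/
noncomputable def tPos {P : Type} (ι : (Fin d → ℝ) → ℝ → P) (b : TB d) : P :=
  ι (fun i => (2 : ℝ) ^ b.1 * b.2.1 i) ((2 : ℝ) ^ b.1)

end Tele

end Pool.Agent.Work.MP_dd0bbc_gt
end

-- merged part: Pool.Agent.Work.MP_dd0bbc_gt.PD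
section
/-! Poincare duality for Betti numbers. -/

set_option autoImplicit false

namespace Pool.Agent.Work.MP_dd0bbc_gt

open Finset

variable {Y : Type} [Fintype Y] [LinearOrder Y]

theorem PD_cob_mem {k : Type} [Field k] (K : Finset (Finset Y)) {c : ℕ} {f : Finset Y → k}
    (hf : f ∈ Fc k k K c) : cob k k K f ∈ Fc k k K (c + 1) := by
  intro τ hτ
  rw [cob_apply] at hτ
  split_ifs at hτ with hK
  · obtain ⟨y, hy, hne⟩ := exists_ne_zero_of_sum_ne_zero hτ
    obtain ⟨-, h2⟩ := hf _ (right_ne_zero_of_smul hne)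
    exact ⟨hK, by rw [← card_erase_add_one hy, h2]⟩
  · exact (hτ rfl).elim

theorem PD_finrank_cob {k : Type} [Field k] (K : Finset (Finset Y)) (c : ℕ) :
    Module.finrank k ((Fc k k K (c + 1)).map (cob k k K)) = (inc k K c).rank := by
  rw [← range_extZ]
  refine finrank_map_of_comm _ (extZ k k K (c + 1)) (extZ_injective K (c + 1)) _
    (inc k K c).mulVecLin ?_
  refine LinearMap.ext fun g => funext fun τ => ?_
  change cob k k K (extZ k k K c g) τ = extZ k k K (c + 1) ((inc k K c).mulVec g) τ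
  rw [extZ_apply]
  by_cases h : τ ∈ K ∧ τ.card = c + 1 + 1
  · rw [dif_pos h, cob_apply, if_pos h.1]
    simp only [← sum_face_ite (k := k) K c g, Matrix.mulVec, dotProduct, inc, smul_eq_mul,
      Finset.mul_sum, Finset.sum_mul]
    rw [sum_comm]
    refine sum_congr rfl fun S _ => sum_congr rfl fun y _ => ?_
    split_ifs <;> simp
  · rw [dif_neg h]
    by_contra e
    exact h (PD_cob_mem K (c := c + 1) (by rw [← range_extZ]; exact ⟨g, rfl⟩) τ e)

theorem PD_finrank_B {k : Type} [Field k] (K : Finset (Finset Y)) (j : ℕ) :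
    Module.finrank k ((if j = 0 then ⊥ else Fc k k K j).map (cob k k K)) = rkb k K j := by
  cases j with
  | zero => simp [rkb]
  | succ j => rw [if_neg (Nat.succ_ne_zero j)]; exact PD_finrank_cob K j

/-- Cohomology by ranks. -/
theorem PD_coh {k : Type} [Field k] {K : Finset (Finset Y)} (hK : ∀ S ∈ K, ∀ T, T ⊆ S → T ∈ K)
    (j : ℕ) : hdim (Fc k k K (j + 1) ⊓ LinearMap.ker (cob k k K))
      ((if j = 0 then ⊥ else Fc k k K j).map (cob k k K)) + rkb k K j + rkb k K (j + 1) =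
      fn K j := by
  have h := hdim_ranks (cob k k K) (Fc k k K (j + 1)) (if j = 0 then ⊥ else Fc k k K j) (by
    rintro _ ⟨f, hf, rfl⟩
    refine ⟨?_, cob_cob hK f⟩
    split_ifs at hf with hj
    · rw [(Submodule.mem_bot k).1 hf, map_zero]
      exact zero_mem _
    · exact PD_cob_mem K hf)
  rw [PD_finrank_B, PD_finrank_cob, finrank_Fc'] at h
  change _ + _ + (inc k K j).rank = _
  omega

/-- Homology by ranks. -/
theorem PD_hom {k : Type} [Field k] {K : Finset (Finset Y)} (hK : ∀ S ∈ K, ∀ T, T ⊆ S → T ∈ K)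
    (i : ℕ) : hdim (Fc k k K (i + 1) ⊓ if i = 0 then ⊤ else LinearMap.ker (bdy k k))
      ((Fc k k K (i + 2)).map (bdy k k)) + rkb k K i + rkb k K (i + 1) = fn K i := by
  have hle : (Fc k k K (i + 2)).map (bdy k k) ≤ Fc k k K (i + 1) ⊓ LinearMap.ker (bdy k k) := by
    rintro _ ⟨f, hf, rfl⟩
    exact ⟨bdy_mem_Fc hK hf, bdy_bdy f⟩
  cases i with
  | zero =>
    have h := hdim_add (Fc k k K 1) ((Fc k k K 2).map (bdy k k))
    rw [inf_eq_right.2 (hle.trans inf_le_left), finrank_map_bdy hK 0, finrank_Fc' K 0] at h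
    rw [if_pos rfl, inf_top_eq]
    exact h
  | succ i =>
    have h := hdim_ranks (bdy k k) _ _ hle
    rw [finrank_map_bdy hK, finrank_map_bdy hK, finrank_Fc'] at h
    rw [if_neg (Nat.succ_ne_zero i)]
    exact h

theorem exists_betti {K : Finset (Finset Y)} (hK : ∀ S ∈ K, ∀ T, T ⊆ S → T ∈ K) :
    ∃ b : ℕ → ℕ, ∀ j, b j + rkb ℚ K j + rkb ℚ K (j + 1) = fn K j :=
  ⟨_, PD_hom hK⟩

theorem PD_rkb (K : Finset (Finset Y)) (j : ℕ) : rkb ℝ K j = rkb ℚ K j := by
  cases j with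
  | zero => rfl
  | succ j =>
    have e1 : inc ℝ K j = (inc ℚ K j).map (algebraMap ℚ ℝ) := by
      ext τ S
      simp only [inc, Matrix.map_apply, map_sum]
      refine sum_congr rfl fun y _ => ?_
      split_ifs <;> simp
    have e2 : inc ℚ K j = (inc ℚ K j).map (RingHom.id ℚ) := rfl
    change (inc ℝ K j).rank = (inc ℚ K j).rank
    refine le_antisymm ?_ ?_
    · rw [e1]
      conv_rhs => rw [e2]
      exact rank_map_le _ _ Function.injective_id _
    · rw [e1]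
      conv_lhs => rw [e2]
      exact rank_map_le _ _ (algebraMap ℚ ℝ).injective _

/-- The horizontal differential. -/
def PD_h (K : Finset (Finset Y)) :
    (Finset Y → Finset Y → ℝ) →ₗ[ℝ] (Finset Y → Finset Y → ℝ) := cob ℝ (Finset Y → ℝ) K

/-- The vertical differential. -/
def PD_v : (Finset Y → Finset Y → ℝ) →ₗ[ℝ] (Finset Y → Finset Y → ℝ) :=
  (bdy ℝ ℝ).compLeft (Finset Y)

/-- The augmentation of the rows. -/
noncomputable def PD_α (K : Finset (Finset Y)) (n : ℕ) (o : Finset Y → ℝ) :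
    (Finset Y → Finset Y → ℝ) →ₗ[ℝ] (Finset Y → ℝ) :=
  ∑ σ ∈ tops K n, o σ • LinearMap.proj σ

/-- The augmentation of the columns. -/
def PD_β : (Finset Y → Finset Y → ℝ) →ₗ[ℝ] (Finset Y → ℝ) where
  toFun x τ := PD_v x τ ∅
  map_add' x y := by ext1 τ; rw [map_add]; rfl
  map_smul' c x := by ext1 τ; rw [map_smul]; rfl

/-- The terms of the double complex. -/
def PD_D (K : Finset (Finset Y)) (n p q : ℕ) : Submodule ℝ (Finset Y → Finset Y → ℝ) where
  carrier := {x | ∀ τ S, x τ S ≠ 0 → τ ∈ K ∧ τ.card + p = n + 1 ∧ S ⊆ τ ∧ S.card = q + 1}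
  add_mem' := by
    intro f g hf hg τ S h
    by_cases e : f τ S = 0
    · exact hg τ S (by simpa [e] using h)
    · exact hf τ S e
  zero_mem' := fun τ S h => (h rfl).elim
  smul_mem' := by
    intro r f hf τ S h
    exact hf τ S (fun e => h (by simp [e]))

section DC

variable {K : Finset (Finset Y)} {n : ℕ} {o : Finset Y → ℝ}

omit [Fintype Y] in
lemma PD_h_apply (x : Finset Y → Finset Y → ℝ) (τ S : Finset Y) :
    PD_h K x τ S = cob ℝ ℝ K (fun τ' => x τ' S) τ := by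
  unfold PD_h
  rw [cob_apply, cob_apply]
  split_ifs
  · rw [Finset.sum_apply]
    rfl
  · rfl

lemma PD_v_apply (x : Finset Y → Finset Y → ℝ) (τ : Finset Y) : PD_v x τ = bdy ℝ ℝ (x τ) := rfl

omit [Fintype Y] in
lemma PD_α_apply (x : Finset Y → Finset Y → ℝ) :
    PD_α K n o x = ∑ σ ∈ tops K n, o σ • x σ := by
  simp [PD_α, LinearMap.sum_apply]

lemma PD_β_apply (x : Finset Y → Finset Y → ℝ) (τ : Finset Y) :
    PD_β x τ = bdy ℝ ℝ (x τ) ∅ := rfl

omit [Fintype Y] in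
lemma PD_h_mem (p q : ℕ) (x : Finset Y → Finset Y → ℝ) (hx : x ∈ PD_D K n (p + 1) q) :
    PD_h K x ∈ PD_D K n p q := by
  intro τ S h
  rw [PD_h_apply, cob_apply] at h
  split_ifs at h with hτ
  · obtain ⟨y, hy, h1⟩ := exists_ne_zero_of_sum_ne_zero h
    obtain ⟨-, h2, h3, h4⟩ := hx _ _ (right_ne_zero_of_smul h1)
    have := card_erase_add_one hy
    exact ⟨hτ, by omega, h3.trans (erase_subset _ _), h4⟩
  · exact (h rfl).elim

lemma PD_v_mem (p q : ℕ) (x : Finset Y → Finset Y → ℝ) (hx : x ∈ PD_D K n p (q + 1)) :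
    PD_v x ∈ PD_D K n p q := by
  intro τ S h
  rw [PD_v_apply, bdy_apply] at h
  obtain ⟨y, hy, h1⟩ := exists_ne_zero_of_sum_ne_zero h
  obtain ⟨h2, h3, h4, h5⟩ := hx _ _ (right_ne_zero_of_smul h1)
  rw [card_insert_of_notMem (mem_compl.1 hy)] at h5
  exact ⟨h2, h3, (subset_insert _ _).trans h4, by omega⟩

lemma PD_hv (x : Finset Y → Finset Y → ℝ) : PD_h K (PD_v x) = PD_v (PD_h K x) := by
  ext1 τ
  rw [PD_v_apply]
  unfold PD_h
  rw [cob_apply, cob_apply]
  split_ifs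
  · simp only [map_sum, map_smul, PD_v_apply]
  · simp

lemma PD_vv (x : Finset Y → Finset Y → ℝ) : PD_v (PD_v x) = 0 := by
  ext1 τ; exact bdy_bdy _

lemma PD_βv (x : Finset Y → Finset Y → ℝ) : PD_β (PD_v x) = 0 := by
  ext1 τ; exact congrFun (congrFun (PD_vv x) τ) ∅

lemma PD_βh (x : Finset Y → Finset Y → ℝ) : PD_β (PD_h K x) = cob ℝ ℝ K (PD_β x) := by
  ext1 τ
  have := congrFun (congrFun (PD_hv (K := K) x) τ) ∅
  rw [PD_h_apply] at this
  exact this.symm

lemma PD_αv (x : Finset Y → Finset Y → ℝ) :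
    PD_α K n o (PD_v x) = bdy ℝ ℝ (PD_α K n o x) := by
  simp only [PD_α_apply, map_sum, map_smul, PD_v_apply]

omit [Fintype Y] in
lemma PD_α_mem (hK : ∀ S ∈ K, ∀ T, T ⊆ S → T ∈ K) {q : ℕ} {x : Finset Y → Finset Y → ℝ}
    (hx : x ∈ PD_D K n 0 q) : PD_α K n o x ∈ Fc ℝ ℝ K (q + 1) := by
  intro S h
  rw [PD_α_apply, Finset.sum_apply] at h
  obtain ⟨σ, -, h1⟩ := exists_ne_zero_of_sum_ne_zero h
  obtain ⟨h2, -, h4, h5⟩ := hx σ S (fun e => h1 (by simp [e]))
  exact ⟨hK _ h2 _ h4, h5⟩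

omit [Fintype Y] in
lemma PD_row (hK : ∀ S ∈ K, ∀ T, T ⊆ S → T ∈ K) (hl : LinkExact K n o ℝ) {p q : ℕ}
    {x : Finset Y → Finset Y → ℝ} (hx : x ∈ PD_D K n p q) (h0 : PD_h K x = 0)
    (h1 : p = 0 → PD_α K n o x = 0) : ∃ y ∈ PD_D K n (p + 1) q, PD_h K y = x := by
  have key : ∀ S : Finset Y, ∃ g : Finset Y → ℝ,
      (∀ τ, g τ ≠ 0 → τ ∈ K ∧ τ.card + (p + 1) = n + 1 ∧ S ⊆ τ ∧ S.card = q + 1) ∧
      cob ℝ ℝ K g = fun τ => x τ S := by
    intro S
    by_cases e : ∀ τ, x τ S = 0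
    · exact ⟨0, fun τ h => (h rfl).elim, by ext1 τ; simp [e]⟩
    push Not at e
    obtain ⟨τ₀, e⟩ := e
    obtain ⟨a1, a2, a3, a4⟩ := hx _ _ e
    have a5 := card_le_card a3
    obtain ⟨g, g1, -, g3⟩ := hl S (hK _ a1 _ a3) (card_pos.1 (by omega)) ⊤ (n - p)
      (fun τ => x τ S)
      (fun τ h => by
        obtain ⟨b1, b2, b3, -⟩ := hx τ S h
        exact ⟨b1, b3, by omega⟩)
      (fun τ => trivial)
      (by ext1 τ; rw [← PD_h_apply, h0]; rfl)
      (fun hc => by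
        have := congrFun (h1 (by omega)) S
        rw [PD_α_apply, Finset.sum_apply] at this
        exact this)
    refine ⟨g, fun τ h => ?_, g3⟩
    obtain ⟨b1, b2, b3⟩ := g1 τ h
    exact ⟨b1, by omega, b2, a4⟩
  choose g g1 g3 using key
  refine ⟨fun τ S => g S τ, fun τ S => g1 S τ, ?_⟩
  ext τ S
  rw [PD_h_apply]
  exact congrFun (g3 S) τ

lemma PD_col {p q : ℕ} {x : Finset Y → Finset Y → ℝ} (hx : x ∈ PD_D K n p q)
    (h0 : PD_v x = 0) : ∃ y ∈ PD_D K n p (q + 1), PD_v y = x := by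
  have key : ∀ τ : Finset Y, ∃ g : Finset Y → ℝ,
      (∀ S, g S ≠ 0 → τ ∈ K ∧ τ.card + p = n + 1 ∧ S ⊆ τ ∧ S.card = q + 1 + 1) ∧
      bdy ℝ ℝ g = x τ := by
    intro τ
    by_cases e : ∀ S, x τ S = 0
    · exact ⟨0, fun τ h => (h rfl).elim, by ext1 S; simp [e]⟩
    push Not at e
    obtain ⟨S₀, e⟩ := e
    obtain ⟨a1, a2, a3, a4⟩ := hx _ _ e
    obtain ⟨a, ha⟩ : S₀.Nonempty := card_pos.1 (by omega)
    have had : Adapted (fun _ : Y => (⊤ : Submodule ℝ ℝ)) τ :=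
      ⟨fun c => if c = a then LinearMap.id else 0, fun _ _ _ => trivial,
        fun _ _ _ _ _ _ => trivial, fun _ _ z _ => by
          rw [sum_eq_single_of_mem a (a3 ha) (fun c _ hc => by simp [hc])]
          simp⟩
    obtain ⟨g, g1, -, g3⟩ := cech_exact had q (x τ) (fun S h => (hx τ S h).2.2)
      (fun _ _ _ => trivial) (congrFun h0 τ)
    exact ⟨g, fun S h => ⟨a1, a2, g1 S h⟩, g3⟩
  choose g g1 g3 using key
  exact ⟨g, g1, funext g3⟩

lemma PD_v_zero {p : ℕ} {x : Finset Y → Finset Y → ℝ} (hx : x ∈ PD_D K n p 0)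
    (h0 : PD_β x = 0) : PD_v x = 0 := by
  ext τ S
  rcases S.eq_empty_or_nonempty with rfl | hS
  · exact congrFun h0 τ
  · rw [PD_v_apply, bdy_apply]
    refine sum_eq_zero (fun y hy => ?_)
    have : x τ (insert y S) = 0 := by
      by_contra e
      have := (hx _ _ e).2.2.2
      rw [card_insert_of_notMem (mem_compl.1 hy)] at this
      have := card_pos.2 hS
      omega
    simp [this]

lemma PD_β_mem {p c : ℕ} (hc : c + p = n + 1) {x : Finset Y → Finset Y → ℝ}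
    (hx : x ∈ PD_D K n p 0) : PD_β x ∈ Fc ℝ ℝ K c := by
  intro τ h
  rw [PD_β_apply, bdy_empty] at h
  obtain ⟨y, -, h1⟩ := exists_ne_zero_of_sum_ne_zero h
  obtain ⟨h2, h3, -, -⟩ := hx _ _ h1
  exact ⟨h2, by omega⟩

lemma PD_β_surj {p c : ℕ} (hc : c + p = n + 1) (h0 : c ≠ 0) {b : Finset Y → ℝ}
    (hb : b ∈ Fc ℝ ℝ K c) : ∃ x ∈ PD_D K n p 0, PD_β x = b := by
  have key : ∀ τ : Finset Y, ∃ g : Finset Y → ℝ,
      (∀ S, g S ≠ 0 → τ ∈ K ∧ τ.card + p = n + 1 ∧ S ⊆ τ ∧ S.card = 0 + 1) ∧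
      bdy ℝ ℝ g ∅ = b τ := by
    intro τ
    by_cases e : b τ = 0
    · exact ⟨0, fun τ h => (h rfl).elim, by simp [e]⟩
    obtain ⟨a1, a2⟩ := hb τ e
    obtain ⟨a, ha⟩ : τ.Nonempty := card_pos.1 (by omega)
    obtain ⟨g, g1, -, g3⟩ := cech_surj (fun _ : Y => (⊤ : Submodule ℝ ℝ)) τ (e := b τ)
      (Submodule.mem_iSup_of_mem a (Submodule.mem_iSup_of_mem ha trivial))
    exact ⟨g, fun S h => ⟨a1, by omega, g1 S h⟩, g3⟩
  choose g g1 g3 using key
  exact ⟨g, g1, funext g3⟩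

omit [Fintype Y] in
lemma PD_top (hc : ∀ S ∈ K, S.card ≤ n + 1) {q : ℕ} {x : Finset Y → Finset Y → ℝ}
    (hx : x ∈ PD_D K n 0 q) : PD_h K x = 0 := by
  ext τ S
  rw [PD_h_apply, cob_apply]
  split_ifs with hτ
  · refine sum_eq_zero (fun y hy => ?_)
    have : x (τ.erase y) S = 0 := by
      by_contra e
      have h1 := (hx _ _ e).2.1
      have := card_erase_add_one hy
      have := hc τ hτ
      omega
    rw [this]; simp
  · rfl

end DC

theorem Fan.duality {n : ℕ} (hn : 1 ≤ n) (D : Fan n Y) (hD : D.Det1) (b : ℕ → ℕ)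
    (hb : ∀ j, b j + rkb ℚ D.K j + rkb ℚ D.K (j + 1) = fn D.K j) (i j : ℕ) (h : i + j = n) :
    b i ≤ b j := by
  obtain ⟨o, ho⟩ := D.exists_ori hD
  have hl := D.linkExact hn ho ℝ
  have hcyc := D.cyc hn ho
  have e1 := PD_hom (k := ℝ) D.down i
  have e2 := PD_coh (k := ℝ) D.down j
  rw [PD_rkb, PD_rkb] at e1 e2
  have e3 := hb i
  have e4 := hb j
  have key : hdim (Fc ℝ ℝ D.K (i + 1) ⊓ if i = 0 then ⊤ else LinearMap.ker (bdy ℝ ℝ))
      ((Fc ℝ ℝ D.K (i + 2)).map (bdy ℝ ℝ)) ≤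
      hdim (Fc ℝ ℝ D.K (j + 1) ⊓ LinearMap.ker (cob ℝ ℝ D.K))
      ((if j = 0 then ⊥ else Fc ℝ ℝ D.K j).map (cob ℝ ℝ D.K)) := by
    refine hdim_le_of_hrank_le (zigzag (PD_h D.K) PD_v (PD_α D.K n o) PD_β (bdy ℝ ℝ)
      (cob ℝ ℝ D.K) (PD_D D.K n) (fun _ => if j = 0 then ⊥ else Fc ℝ ℝ D.K j) i _ _ _
      (fun p q x _ => cob_cob D.down x) (fun p q x _ => PD_hv x) (fun p q x _ => PD_vv x)
      (fun q x _ => ?_) (fun p x _ => PD_βv x) (fun q x _ => PD_αv x) (fun p x _ => PD_βh x)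
      PD_h_mem PD_v_mem (fun z hz => ?_) (fun hi z hz => ?_)
      (fun q _ x hx h0 => PD_row D.down hl hx (PD_top D.card_le hx) (fun _ => h0))
      (fun p q _ x hx h0 => PD_row D.down hl hx h0 (by omega))
      (fun hi x hx _ => ⟨PD_β_mem (by omega) hx, ?_⟩)
      (fun _ x hx h0 => ⟨PD_β_mem (by omega) hx, h0⟩) (fun c hc => ?_)
      (fun _ x hx h0 => PD_col hx (PD_v_zero hx h0)) (fun p q _ x hx h0 => PD_col hx h0)
      (fun x hx h1 h2 => ?_))
    · rw [PD_α_apply]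
      exact sum_o_cob D.down hcyc x
    · have key : ∀ S, z S ≠ 0 → ∃ σ ∈ D.K, σ.card = n + 1 ∧ S ⊆ σ := fun S h =>
        D.pure (hz.1 S h).1 (card_pos.1 (by have := (hz.1 S h).2; omega))
      choose! c hc1 hc2 hc3 using key
      refine ⟨fun σ S => if σ = c S then o σ * z S else 0, fun σ S hne => ?_, ?_⟩
      · beta_reduce at hne
        split_ifs at hne with h1
        · subst h1
          have e := right_ne_zero_of_mul hne
          exact ⟨hc1 S e, hc2 S e, hc3 S e, (hz.1 S e).2⟩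
        · exact (hne rfl).elim
      · ext1 S
        rw [PD_α_apply, Finset.sum_apply]
        by_cases e : z S = 0
        · simp [e]
        rw [sum_eq_single_of_mem (c S) (mem_tops.2 ⟨hc1 S e, hc2 S e⟩) (fun σ _ h => by simp [h])]
        rcases (ho _ (hc1 S e) (hc2 S e)).1 with h1 | h1 <;> simp [h1]
    · have := hz.2
      rwa [if_neg hi] at this
    · rw [SetLike.mem_coe, LinearMap.mem_ker, ← PD_βh, PD_top D.card_le hx, map_zero]
    · by_cases hj : j = 0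
      · rw [if_pos hj] at hc
        exact ⟨0, zero_mem _, by rw [(Submodule.mem_bot ℝ).1 hc, map_zero]⟩
      · rw [if_neg hj] at hc
        exact PD_β_surj (by omega) hj hc
    · have h0 : PD_v x = 0 := by
        by_cases hi : i = 0
        · subst hi
          exact PD_v_zero hx (h2 rfl)
        · exact h1 hi
      obtain ⟨y, hy, rfl⟩ := PD_col hx h0
      exact ⟨_, PD_α_mem D.down hy, (PD_αv y).symm⟩
  omega

end Pool.Agent.Work.MP_dd0bbc_gt
end

-- merged part: Pool.Agent.Work.MP_dd0bbc_gt.IneqComb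
section
/-! The combinatorial inequality on finite simplicial coverings. -/

set_option autoImplicit false

namespace Pool.Agent.Work.MP_dd0bbc_gt

open Finset Matrix

theorem Fan.duality' {n : ℕ} (hn : 1 ≤ n) {Y : Type} [Fintype Y] [LinearOrder Y] (D : Fan n Y)
    (s : Y → ℤˣ) (hs : ∀ a b, {a, b} ∈ D.K → (D.T a b).det = ((s a * s b : ℤˣ) : ℤ)) (b : ℕ → ℕ)
    (hb : ∀ j, b j + rkb ℚ D.K j + rkb ℚ D.K (j + 1) = fn D.K j) (i j : ℕ) (h : i + j = n) :
    b i ≤ b j := by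
  let i₀ : Fin n := ⟨0, by omega⟩
  obtain ⟨D', hK, hT'⟩ := D.exists_gauge (fun a => dg ℝ i₀ (s a)) (fun a => dg ℝ i₀ (s a))
    (fun a => dg_mul_self _ _ _)
  have hD : D'.Det1 := by
    intro a b h
    rw [hK] at h
    rw [hT', det_mul, det_mul, det_dg, det_dg, hs a b h]
    have h1 := Int.units_mul_self (s a)
    have h2 := Int.units_mul_self (s b)
    rw [← Int.cast_mul, ← Int.cast_mul, ← Units.val_mul, ← Units.val_mul, ← mul_assoc, h1,
      one_mul, h2]
    simp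
  exact D'.duality hn hD b (by rw [hK]; exact hb) i j h

theorem ineq_comb {m : ℕ} (hm : 1 ≤ m) {Y : Type} [Fintype Y] [LinearOrder Y]
    (D : Fan (2 * m) Y) (L : ℕ) :
    ∃ (G : Type) (_ : Group G) (_ : Finite G) (t : Y → Y → G), Cocycle D.K t ∧
      ∀ (Y' : Type) [Fintype Y'] [LinearOrder Y'] [Nonempty Y'] (K' : Finset (Finset Y'))
        (pr : Y' → Y) (lift : Y' → Y → Y') (d : ℕ) (g : Y' → G) (b : ℕ → ℕ),
        IsCov D.K K' pr lift → (∀ y, (univ.filter (fun x => pr x = y)).card = d) →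
        (∀ x x', {x, x'} ∈ K' → g x' = g x * t (pr x) (pr x')) →
        (∀ j, b j + rkb ℚ K' j + rkb ℚ K' (j + 1) = fn K' j) →
        (L : ℝ) * (4 ^ m * (d * |(chi D.K (2 * m) : ℝ)|)) ≤
          L * ((2 * m).choose m * (b m + b (m + 1))) +
            (2 * m).choose m * (d * (fn D.K m + 2 * fn D.K (m + 1) + fn D.K (m + 2))) ∧
        ∑ j ∈ range (2 * m + 1), (-1 : ℤ) ^ j * (b j : ℤ) = d * chi D.K (2 * m) ∧
        ∀ i j, i + j = 2 * m → b i ≤ b j := by
  classical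
  obtain ⟨D₁, hK₁, hdet⟩ := D.exists_normalised (by omega)
  obtain ⟨A, F, _, _, p, _, φ, hp, hP, hA⟩ := exists_residue
    (univ.image (fun x : Y × Y × Fin (2 * m) × Fin (2 * m) => D₁.T x.1 x.2.1 x.2.2.1 x.2.2.2))
    ((m + 3) ^ L)
  let TA : Y → Y → Matrix (Fin (2 * m)) (Fin (2 * m)) A := fun a b i j =>
    ⟨D₁.T a b i j, hA _ (mem_image.2 ⟨(a, b, i, j), mem_univ _, rfl⟩)⟩
  have hT : ∀ a b, (TA a b).map A.subtype = D₁.T a b := fun a b => rfl
  have hinj : Function.Injective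
      (fun N : Matrix (Fin (2 * m)) (Fin (2 * m)) A => N.map A.subtype) :=
    Matrix.map_injective Subtype.val_injective
  have hmul : ∀ a b c, {a, b, c} ∈ D.K → (TA a b).map φ * (TA b c).map φ = (TA a c).map φ := by
    intro a b c h
    rw [← Matrix.map_mul]
    congr 1
    apply hinj
    beta_reduce
    rw [Matrix.map_mul, hT, hT, hT, D₁.T_mul a b c (hK₁ ▸ h)]
  have hone : ∀ a, (TA a a).map φ = 1 := by
    intro a
    have : TA a a = 1 := hinj (by
      beta_reduce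
      rw [hT, D₁.T_self, Matrix.map_one _ (map_zero _) (map_one _)])
    rw [this, Matrix.map_one _ (map_zero _) (map_one _)]
  have hinv : ∀ a b, {a, b} ∈ D.K → (TA a b).map φ * (TA b a).map φ = 1 := by
    intro a b h
    rw [hmul a b a (D.down _ h _ (by intro x; simp; tauto)), hone]
  let sg : Y → Y → ℤˣ := fun a b => if (D₁.T a b).det = 1 then 1 else -1
  have hsg : ∀ a b, {a, b} ∈ D.K → (D₁.T a b).det = ((sg a b : ℤˣ) : ℤ) := by
    intro a b h
    rcases hdet a b h with e | e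
    · simp [sg, e]
    · have : (-1 : ℝ) ≠ 1 := by norm_num
      simp [sg, e, this]
  let t : Y → Y → (Matrix (Fin (2 * m)) (Fin (2 * m)) F)ˣ × ℤˣ := fun a b =>
    if h : {a, b} ∈ D.K then
      (⟨(TA a b).map φ, (TA b a).map φ, hinv a b h, hinv b a (pair_comm a b ▸ h)⟩, sg a b) else 1
  have ht : ∀ a b c, {a, b, c} ∈ D.K → t a b * t b c = t a c := by
    intro a b c h
    have hab := pair_mem D.down h (a := a) (b := b) (by simp) (by simp)
    have hbc := pair_mem D.down h (a := b) (b := c) (by simp) (by simp)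
    have hac := pair_mem D.down h (a := a) (b := c) (by simp) (by simp)
    simp only [t, dif_pos hab, dif_pos hbc, dif_pos hac, Prod.mk_mul_mk]
    refine Prod.ext (Units.ext (hmul a b c h)) ?_
    have e := congrArg Matrix.det (D₁.T_mul a b c (hK₁ ▸ h))
    rw [det_mul, hsg a b hab, hsg b c hbc, hsg a c hac] at e
    exact Units.ext (by exact_mod_cast e)
  refine ⟨_, inferInstance, inferInstance, t, ⟨fun a => ?_, ht⟩,
    fun Y' _ _ _ K' pr lift d g b hcov hcard hg hb => ?_⟩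
  · exact mul_eq_left.1 (ht a a a (by simpa using D.sing a))
  rw [← hK₁] at hcov
  obtain ⟨D₂, hK₂, hT₂⟩ := D₁.exists_lift hcov
  rw [← hK₂] at hb hg
  have hedge : ∀ a b, {a, b} ∈ D₂.K → {pr a, pr b} ∈ D.K := by
    intro a b h
    rw [hK₂] at h
    simpa [hK₁] using hcov.pr_mem _ h
  have hs : ∀ a b, {a, b} ∈ D₂.K → (D₂.T a b).det = (((g a).2 * (g b).2 : ℤˣ) : ℤ) := by
    intro a b h
    have e1 := hedge a b h
    rw [hT₂, hsg _ _ e1, hg a b h]
    simp only [t, dif_pos e1, Prod.snd_mul]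
    rw [← mul_assoc, Int.units_mul_self, one_mul]
  have hi := ineq_modp hm D₂ hp A φ (fun a b => TA (pr a) (pr b)) (fun a b => by rw [hT, hT₂])
    (fun a => (g a).1) (fun a => (g a).2)
    (fun a b h => by rw [hg a b h]; simp only [t, dif_pos (hedge a b h)]; rfl) hs L hP.le b hb
  have hχ := chi_eq D₂.card_le b hb
  have hf := hcov.fn_eq D₁.down hcard
  have hχ' := hcov.chi_eq D₁.down hcard (2 * m)
  rw [hK₁] at hf hχ'
  rw [hK₂] at hi hχ
  rw [hχ', hf, hf, hf] at hi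
  refine ⟨?_, hχ.trans hχ', D₂.duality' (by omega) _ hs b hb⟩
  push_cast at hi
  rw [abs_mul, Nat.abs_cast] at hi
  linarith only [hi]

/-- The final estimate. -/
theorem chi_zero_arith {m : ℕ} (hm : 1 ≤ m) (x : ℤ) (f : ℕ)
    (h : ∀ (L : ℕ) (ε : ℝ), 0 < ε → ∃ (d : ℕ) (b : ℕ → ℕ), 0 < d ∧
      (L : ℝ) * (4 ^ m * (d * |(x : ℝ)|)) ≤
        L * ((2 * m).choose m * (b m + b (m + 1))) + (2 * m).choose m * (d * f) ∧
      ∑ j ∈ range (2 * m + 1), (-1 : ℤ) ^ j * (b j : ℤ) = d * x ∧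
      ∀ k, k ≤ 2 * m → k ≠ m → (b k : ℝ) ≤ ε * d) : x = 0 := by
  by_contra hne
  have h1 : (1 : ℝ) ≤ |(x : ℝ)| := by exact_mod_cast Int.one_le_abs hne
  set N : ℕ := (2 * m).choose m with hN
  have hN4 : (N : ℝ) + 1 ≤ 4 ^ m := by
    have : N < 4 ^ m := by
      have h2 := Nat.sum_range_choose (2 * m)
      have h3 : ∑ j ∈ ({0, m} : Finset ℕ), (2 * m).choose j ≤
          ∑ j ∈ range (2 * m + 1), (2 * m).choose j :=
        sum_le_sum_of_subset (by intro j; simp only [mem_insert, mem_singleton, mem_range]; omega)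
      rw [sum_pair (by omega), h2, pow_mul] at h3
      simp at h3; omega
    exact_mod_cast this
  have hε : (0 : ℝ) < 1 / (3 * (N * (2 * m + 1) + 1)) := by positivity
  obtain ⟨d, b, hd, i1, i2, hb⟩ := h (3 * (N * f + 1)) _ hε
  have i3 := middle_le b i2 hb
  have i4 := hb (m + 1) (by omega) (by omega)
  have hd' : (0 : ℝ) < d := by exact_mod_cast hd
  push_cast at i1 i3
  rw [abs_mul, Nat.abs_cast] at i3
  set ε : ℝ := 1 / (3 * (N * (2 * m + 1) + 1)) with hε'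
  set c : ℝ := |(x : ℝ)|
  have e1 : (N : ℝ) * (2 * m + 1) * ε ≤ 1 / 3 := by
    rw [hε', mul_one_div, div_le_div_iff₀ (by positivity) (by positivity)]; linarith only []
  have hN0 : (0 : ℝ) ≤ N := Nat.cast_nonneg _
  have hf0 : (0 : ℝ) ≤ N * f := by positivity
  have i5 : (N : ℝ) * (b m + b (m + 1)) ≤ N * (d * c) + d / 3 := by
    have := mul_le_mul_of_nonneg_left (add_le_add i3 i4) hN0
    nlinarith only [this, e1, hd', mul_le_mul_of_nonneg_left e1 hd'.le]
  have i6 : (N : ℝ) * (d * c) + d ≤ 4 ^ m * (d * c) := by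
    have h0 : (d : ℝ) ≤ d * c := le_mul_of_one_le_right hd'.le h1
    nlinarith only [h0, hN4, hd', mul_le_mul_of_nonneg_right hN4 (hd'.le.trans h0)]
  have i7 := mul_le_mul_of_nonneg_left i5 (by positivity : (0 : ℝ) ≤ 3 * (N * f + 1))
  have i8 := mul_le_mul_of_nonneg_left i6 (by positivity : (0 : ℝ) ≤ 3 * (N * f + 1))
  nlinarith only [hd', i1, i7, i8, hf0, mul_nonneg hf0 hd'.le]

end Pool.Agent.Work.MP_dd0bbc_gt
end

-- merged part: Pool.Agent.Work.MP_dd0bbc_gt.Sheeting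
section
/-! Sheets of a regular covering over a good cover; holonomy. -/

set_option autoImplicit false

namespace Pool.Agent.Work.MP_dd0bbc_gt

variable {Γ X M Y : Type} [TopologicalSpace X] [TopologicalSpace M] [Group Γ] [MulAction Γ X]
  [Fintype Y] [LinearOrder Y] {p : X → M} {U : Y → Set M}

omit [Fintype Y] [LinearOrder Y] in
theorem Sheeting_uniq (hp : Deck Γ p) {γ δ : Γ} {x : X} (h : γ • x = δ • x) : γ = δ := by
  have := hp.free (δ⁻¹ * γ) x (by rw [mul_smul, h, inv_smul_smul])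
  exact (inv_mul_eq_one.1 this).symm

theorem exists_sheeting [LocallyPathConnectedSpace M] (hp : Deck Γ p) (hU : GoodCover U) :
    ∃ (comp : Y → X → Γ) (c : Y → Y → Γ), Sheeting p U comp c ∧ Cocycle (nerve U) c := by
  have h0 : ∀ a, ∃ σ : M → X, ContinuousOn σ (U a) ∧ ∀ w ∈ U a, p (σ w) = w := fun a => by
    obtain ⟨z, hz⟩ := hU.ne a
    obtain ⟨e, rfl⟩ := hp.surj z
    have := sheets_contr_one hU a
    obtain ⟨σ, h1, h2, -⟩ := sheets_exists_sec hp.cov (hU.isOpen a) hz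
    exact ⟨σ, h1, h2⟩
  choose σ h1 h2 using h0
  have h3 : ∀ a x, ∃ γ : Γ, p x ∈ U a → γ • σ a (p x) = x := fun a x => by
    by_cases h : p x ∈ U a
    · obtain ⟨γ, hγ⟩ := hp.trans _ x (h2 a _ h)
      exact ⟨γ, fun _ => hγ⟩
    · exact ⟨1, fun h' => (h h').elim⟩
  choose comp hc using h3
  have h4 : ∀ (γ : Γ) a, ContinuousOn (fun w => γ • σ a w) (U a) := fun γ a =>
    (hp.cont γ).comp_continuousOn (h1 a)
  have h5 : ∀ (γ : Γ) a, ∀ w ∈ U a, p (γ • σ a w) = w := fun γ a w hw => by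
    rw [hp.inv, h2 a w hw]
  have h6 : ∀ a b, ∃ g : Γ, ∀ z ∈ U a, z ∈ U b → g • σ b z = σ a z := fun a b => by
    by_cases h : ∃ z ∈ U a, z ∈ U b
    · obtain ⟨z, ha, hb⟩ := h
      obtain ⟨g, hg⟩ := hp.trans (σ b z) (σ a z) ((h2 b z hb).trans (h2 a z ha).symm)
      exact ⟨g, fun w ha' hb' =>
        sheets_agree hU hp.cov (h4 g b) (h5 g b) (h1 a) (h2 a) hb ha hg hb' ha'⟩
    · exact ⟨1, fun z ha hb => (h ⟨z, ha, hb⟩).elim⟩
  choose c hcc using h6
  have hu : ∀ a x (γ : Γ), p x ∈ U a → γ • σ a (p x) = x → comp a x = γ := fun a x γ h e =>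
    Sheeting_uniq hp ((hc a x h).trans e.symm)
  refine ⟨comp, c, ⟨fun a x h => ?_, fun a γ x h => ?_, fun a b x ha hb => ?_,
    fun S hS a ha γ => ?_⟩, fun a => ?_, fun a b e h => ?_⟩
  · obtain ⟨V, hV, hx, hi⟩ := hp.cov.isLocalHomeomorph.isLocallyInjective x
    have e1 : ∀ᶠ x' in nhds x, p x' ∈ U a :=
      hp.cov.continuous.continuousAt.eventually_mem ((hU.isOpen a).mem_nhds h)
    have e2 : ContinuousAt (fun x' => comp a x • σ a (p x')) x :=
      ContinuousAt.comp (g := fun w => comp a x • σ a w)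
        ((h4 _ a).continuousAt ((hU.isOpen a).mem_nhds h)) hp.cov.continuous.continuousAt
    have e3 := e2.eventually_mem (s := V) (by rw [hc a x h]; exact hV.mem_nhds hx)
    filter_upwards [e1, e3, hV.mem_nhds hx] with x' a1 a2 a3
    exact hu a x' _ a1 (hi a2 a3 (h5 _ a _ a1))
  · refine hu a _ _ (by rwa [hp.inv]) ?_
    rw [hp.inv, mul_smul, hc a x h]
  · refine hu b x _ hb ?_
    rw [mul_smul, hcc a b _ ha hb, hc a x ha]
  · have := hU.contr S ⟨a, ha⟩ hS
    have hsub : (⋂ y ∈ S, U y) ⊆ U a := Set.biInter_subset_of_mem (s := (S : Set Y)) ha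
    have e : {x : X | (∀ y ∈ S, p x ∈ U y) ∧ comp a x = γ} =
        (fun w => γ • σ a w) '' (⋂ y ∈ S, U y) := by
      ext x
      constructor
      · rintro ⟨h, rfl⟩
        exact ⟨p x, Set.mem_iInter₂.2 h, hc a x (h a ha)⟩
      · rintro ⟨w, hw, rfl⟩
        have e := h5 γ a w (hsub hw)
        refine ⟨by rw [e]; exact Set.mem_iInter₂.1 hw, hu a _ _ ?_ ?_⟩
        · rw [e]; exact hsub hw
        · rw [e]
    rw [e]
    exact sheets_contr hp.cov.continuous ((h4 γ a).mono hsub) fun w hw => h5 γ a w (hsub hw)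
  · obtain ⟨z, hz⟩ := hU.ne a
    exact hp.free _ _ (hcc a a z hz hz)
  · obtain ⟨z, hz⟩ := mem_nerve.1 h
    have ha := hz a (by simp)
    have hb := hz b (by simp)
    have he := hz e (by simp)
    refine Sheeting_uniq hp (x := σ e z) ?_
    rw [mul_smul, hcc b e z hb he, hcc a b z ha hb, hcc a e z ha he]

variable {comp : Y → X → Γ} {c : Y → Y → Γ}

omit [LinearOrder Y] in
theorem Sheeting_onto (hp : Deck Γ p) (h : Sheeting p U comp c) {a : Y} {z : M} (hz : z ∈ U a)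
    (γ : Γ) : ∃ x, p x = z ∧ comp a x = γ := by
  obtain ⟨x, rfl⟩ := hp.surj z
  exact ⟨(γ * (comp a x)⁻¹) • x, hp.inv _ _, by rw [h.equi a _ x hz, inv_mul_cancel_right]⟩

theorem Sheeting.const [ConnectedSpace X] (hp : Deck Γ p) (hU : GoodCover U)
    (h : Sheeting p U comp c) {α : Type} (F : Γ → Y → α)
    (hF : ∀ γ a b, {a, b} ∈ nerve U → F (γ * c a b) b = F γ a) :
    ∀ γ γ' a b, F γ a = F γ' b := by
  choose ix hix using hU.cover
  have h1 : ∀ a x, p x ∈ U a → F (comp (ix (p x)) x) (ix (p x)) = F (comp a x) a :=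
    fun a x ha => by
      rw [h.coc a _ x ha (hix _)]
      exact hF _ _ _ (mem_nerve.2 ⟨p x, by simp [ha, hix]⟩)
  have h2 : IsLocallyConstant fun x => F (comp (ix (p x)) x) (ix (p x)) :=
    (IsLocallyConstant.iff_eventually_eq _).2 fun x => by
      filter_upwards [h.loc _ x (hix _), hp.cov.continuous.continuousAt.eventually_mem
        ((hU.isOpen _).mem_nhds (hix (p x)))] with x' e1 e2
      rw [h1 _ x' e2, e1]
  intro γ γ' a b
  obtain ⟨z, hz⟩ := hU.ne a
  obtain ⟨z', hz'⟩ := hU.ne b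
  obtain ⟨x, rfl, rfl⟩ := Sheeting_onto hp h hz γ
  obtain ⟨x', rfl, rfl⟩ := Sheeting_onto hp h hz' γ'
  rw [← h1 a x hz, ← h1 b x' hz']
  exact h2.apply_eq_of_preconnectedSpace x x'

theorem Sheeting.gen [ConnectedSpace X] (hp : Deck Γ p) (hU : GoodCover U)
    (h : Sheeting p U comp c) : ∃ g : Finset Γ, Subgroup.closure (g : Set Γ) = ⊤ := by
  classical
  refine ⟨Finset.univ.image fun q : Y × Y => c q.1 q.2, (Subgroup.eq_top_iff' _).2 fun γ => ?_⟩
  obtain ⟨a, -⟩ := hU.cover (p (Classical.arbitrary X))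
  have := h.const hp hU (fun γ _ => (QuotientGroup.mk γ : Γ ⧸ Subgroup.closure
    ((Finset.univ.image fun q : Y × Y => c q.1 q.2 : Finset Γ) : Set Γ)))
    (fun γ a b _ => QuotientGroup.mk_mul_of_mem γ (Subgroup.subset_closure
      (Finset.mem_coe.2 (Finset.mem_image_of_mem _ (Finset.mem_univ (a, b)))))) 1 γ a a
  simpa using QuotientGroup.eq.1 this

theorem Sheeting.holonomy [ContractibleSpace X] [LocallyPathConnectedSpace X] (hp : Deck Γ p)
    (hU : GoodCover U) (h : Sheeting p U comp c) {G : Type} [Group G] [Finite G]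
    {t : Y → Y → G} (ht : Cocycle (nerve U) t) :
    ∃ (ρ : Γ →* G) (g : Y → G), ∀ a b, {a, b} ∈ nerve U → ρ (c a b) * g b = g a * t a b := by
  obtain ⟨M₀, _, p₀, h1, h2, -, h3⟩ := exists_principal U hU.isOpen hU.cover t
    fun a b e ⟨z, hz⟩ => ht.mul a b e (mem_nerve.2 ⟨z, by simp [hz.1.1, hz.1.2, hz.2]⟩)
  obtain ⟨x₀⟩ : Nonempty X := inferInstance
  obtain ⟨e₀, he₀⟩ := h2 (p x₀)
  obtain ⟨q, ⟨-, hq⟩, -⟩ := h1.existsUnique_continuousMap_lifts
    (⟨p, hp.cov.continuous⟩ : C(X, M)) x₀ e₀ he₀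
  obtain ⟨g, hg⟩ := h3 X (Γ × Y) q (fun r => {x | p x ∈ U r.2 ∧ comp r.2 x = r.1}) Prod.snd
    q.continuous (fun r => by
      obtain ⟨z, hz⟩ := hU.ne r.2
      have := h.contr {r.2} (mem_nerve.2 ⟨z, by simpa using hz⟩) r.2 (by simp) r.1
      have e : {x | p x ∈ U r.2 ∧ comp r.2 x = r.1} =
          {x | (∀ y ∈ ({r.2} : Finset Y), p x ∈ U y) ∧ comp r.2 x = r.1} := by simp
      rw [e]
      exact isPreconnected_iff_preconnectedSpace.2 inferInstance)
    (fun r x hx => by rw [hq]; exact hx.1)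
  have h4 : ∀ γ a b, {a, b} ∈ nerve U → g (γ * c a b, b) = g (γ, a) * t a b := fun γ a b hab => by
    obtain ⟨z, hz⟩ := mem_nerve.1 hab
    have ha := hz a (by simp)
    have hb := hz b (by simp)
    obtain ⟨x, rfl, rfl⟩ := Sheeting_onto hp h ha γ
    exact hg (comp a x, a) (comp a x * c a b, b) ⟨x, ⟨ha, rfl⟩, hb, h.coc a b x ha hb⟩
  have h5 := fun γ => h.const hp hU (fun δ a => g (γ * δ, a) * (g (δ, a))⁻¹) fun δ a b hab => by
    rw [← mul_assoc, h4 _ a b hab, h4 _ a b hab]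
    group
  obtain ⟨a₀, -⟩ := hU.cover (p x₀)
  refine ⟨MonoidHom.mk' (fun γ => g (γ * 1, a₀) * (g (1, a₀))⁻¹) fun γ δ => ?_, fun a => g (1, a),
    fun a b hab => ?_⟩
  · rw [h5 γ 1 δ a₀ a₀]
    simp only [mul_one]
    group
  · rw [MonoidHom.mk'_apply, h5 _ 1 1 a₀ b, ← h4 1 a b hab]
    simp

end Pool.Agent.Work.MP_dd0bbc_gt
end

-- merged part: Pool.Agent.Work.MP_dd0bbc_gt.HypGeom
section
/-! Geometry of the hyperboloid. -/

set_option autoImplicit false

namespace Pool.Agent.Work.MP_dd0bbc_gt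

open Matrix

variable {n : ℕ}

theorem HypGeom_comm (x y : Fin (n + 1) → ℝ) : lor x y = lor y x := by
  unfold lor
  rw [mul_comm (x 0)]
  congr 1
  exact Finset.sum_congr rfl (fun i _ => mul_comm _ _)

theorem HypGeom_lin3 (a b c : ℝ) (u v w y : Fin (n + 1) → ℝ) :
    lor (fun i => a * u i + b * v i + c * w i) y = a * lor u y + b * lor v y + c * lor w y := by
  unfold lor
  have : ∑ i : Fin n, (a * u i.succ + b * v i.succ + c * w i.succ) * y i.succ =
      a * ∑ i : Fin n, u i.succ * y i.succ + b * ∑ i : Fin n, v i.succ * y i.succ +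
        c * ∑ i : Fin n, w i.succ * y i.succ := by
    rw [Finset.mul_sum, Finset.mul_sum, Finset.mul_sum, ← Finset.sum_add_distrib,
      ← Finset.sum_add_distrib]
    exact Finset.sum_congr rfl (fun i _ => by ring)
  rw [this]
  ring

theorem HypGeom_sq (u : Hyp n) : u.1 0 ^ 2 = 1 + ∑ i : Fin n, u.1 i.succ ^ 2 := by
  have h := u.2.1
  unfold lor at h
  have : ∑ i : Fin n, u.1 i.succ * u.1 i.succ = ∑ i : Fin n, u.1 i.succ ^ 2 :=
    Finset.sum_congr rfl (fun i _ => by ring)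
  rw [this] at h
  nlinarith only [h]

theorem HypGeom_perp (v : Hyp n) (x : Fin (n + 1) → ℝ) (hx : lor x v.1 = 0) : 0 ≤ lor x x := by
  have h1 := HypGeom_sq v
  have hv := v.2.2
  unfold lor at hx ⊢
  have hcs := Finset.sum_mul_sq_le_sq_mul_sq Finset.univ (fun i : Fin n => x i.succ)
    (fun i : Fin n => v.1 i.succ)
  have e : ∑ i : Fin n, x i.succ * x i.succ = ∑ i : Fin n, x i.succ ^ 2 :=
    Finset.sum_congr rfl (fun i _ => by ring)
  rw [e]
  have hA : 0 ≤ ∑ i : Fin n, x i.succ ^ 2 := Finset.sum_nonneg (fun i _ => sq_nonneg _)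
  set A := ∑ i : Fin n, x i.succ ^ 2
  set B := ∑ i : Fin n, v.1 i.succ ^ 2
  set s := ∑ i : Fin n, x i.succ * v.1 i.succ
  have hs : s = x 0 * v.1 0 := by linarith
  have hB : B = v.1 0 ^ 2 - 1 := by linarith
  rw [hs, hB] at hcs
  have hp : 0 < v.1 0 ^ 2 := by positivity
  have h2 : x 0 ^ 2 * v.1 0 ^ 2 ≤ A * v.1 0 ^ 2 := by nlinarith only [hA, hcs]
  have h3 : x 0 ^ 2 ≤ A := le_of_mul_le_mul_right h2 hp
  nlinarith only [h3]

/-- The lift of a point of Euclidean space. -/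
noncomputable def HypGeom_lift (y : Fin n → ℝ) : Hyp n :=
  ⟨Fin.cons (Real.sqrt (1 + ∑ i, y i ^ 2)) y, by
    have h0 : 0 ≤ ∑ i, y i ^ 2 := Finset.sum_nonneg (fun i _ => sq_nonneg _)
    refine ⟨?_, ?_⟩
    · unfold lor
      simp only [Fin.cons_zero, Fin.cons_succ]
      rw [Real.mul_self_sqrt (by linarith)]
      have : ∑ i : Fin n, y i * y i = ∑ i : Fin n, y i ^ 2 :=
        Finset.sum_congr rfl (fun i _ => by ring)
      rw [this]
      ring
    · simp only [Fin.cons_zero]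
      exact Real.sqrt_pos.2 (by linarith)⟩

theorem HypGeom_cont_val : Continuous (fun u : Hyp n => u.1) := continuous_induced_dom

/-- The homeomorphism with Euclidean space. -/
noncomputable def HypGeom_homeo (n : ℕ) : Hyp n ≃ₜ (Fin n → ℝ) where
  toFun u := fun i => u.1 i.succ
  invFun := HypGeom_lift
  left_inv u := by
    apply Subtype.ext
    funext i
    refine Fin.cases ?_ (fun j => ?_) i
    · simp only [HypGeom_lift, Fin.cons_zero]
      rw [← HypGeom_sq u]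
      exact Real.sqrt_sq u.2.2.le
    · simp only [HypGeom_lift, Fin.cons_succ]
  right_inv y := by
    funext i
    simp only [HypGeom_lift, Fin.cons_succ]
  continuous_toFun := continuous_pi (fun i => (continuous_apply i.succ).comp HypGeom_cont_val)
  continuous_invFun := by
    refine continuous_induced_rng.2 ?_
    refine continuous_pi (fun i => ?_)
    refine Fin.cases ?_ (fun j => ?_) i
    · simp only [Function.comp, HypGeom_lift, Fin.cons_zero]
      fun_prop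
    · simp only [Function.comp, HypGeom_lift, Fin.cons_succ]
      fun_prop

theorem hyp_homeo : Nonempty (Hyp n ≃ₜ (Fin n → ℝ)) := ⟨HypGeom_homeo n⟩

theorem hyp_contractible : ContractibleSpace (Hyp n) :=
  (HypGeom_homeo n).contractibleSpace

theorem hyp_locPath : LocallyPathConnectedSpace (Hyp n) :=
  (HypGeom_homeo n).isOpenEmbedding.locallyPathConnectedSpace

theorem one_le_neg_lor (u v : Hyp n) : 1 ≤ -lor u.1 v.1 := by
  have hu := HypGeom_sq u
  have hv := HypGeom_sq v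
  have hu0 := u.2.2
  have hv0 := v.2.2
  unfold lor
  have hcs := Finset.sum_mul_sq_le_sq_mul_sq Finset.univ (fun i : Fin n => u.1 i.succ)
    (fun i : Fin n => v.1 i.succ)
  have h2 : 2 * ∑ i : Fin n, u.1 i.succ * v.1 i.succ ≤
      ∑ i : Fin n, u.1 i.succ ^ 2 + ∑ i : Fin n, v.1 i.succ ^ 2 := by
    rw [Finset.mul_sum, ← Finset.sum_add_distrib]
    exact Finset.sum_le_sum (fun i _ => by nlinarith only [sq_nonneg (u.1 i.succ - v.1 i.succ)])
  set A := ∑ i : Fin n, u.1 i.succ ^ 2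
  set B := ∑ i : Fin n, v.1 i.succ ^ 2
  set s := ∑ i : Fin n, u.1 i.succ * v.1 i.succ
  have h3 : (1 + s) ^ 2 ≤ (u.1 0 * v.1 0) ^ 2 := by
    rw [mul_pow, hu, hv]
    nlinarith only [hcs, h2]
  have h4 : 1 + s ≤ u.1 0 * v.1 0 :=
    le_trans (le_abs_self _) (abs_le_of_sq_le_sq' h3 (by positivity) |> fun h => abs_le.2 h)
  linarith

theorem lor_tri (u v w : Hyp n) : -lor u.1 w.1 ≤ 2 * lor u.1 v.1 * lor v.1 w.1 := by
  obtain ⟨a, ha⟩ : ∃ a, a = -lor u.1 v.1 := ⟨_, rfl⟩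
  obtain ⟨b, hb⟩ : ∃ b, b = -lor v.1 w.1 := ⟨_, rfl⟩
  have ha1 : 1 ≤ a := ha ▸ one_le_neg_lor u v
  have hb1 : 1 ≤ b := hb ▸ one_le_neg_lor v w
  have e1 : lor u.1 v.1 = -a := by linarith
  have e2 : lor v.1 w.1 = -b := by linarith
  have e3 : lor w.1 v.1 = -b := by rw [HypGeom_comm, e2]
  have e4 : lor v.1 u.1 = -a := by rw [HypGeom_comm, e1]
  have e5 : lor w.1 u.1 = lor u.1 w.1 := HypGeom_comm _ _
  have hp := HypGeom_perp v (fun i => b * u.1 i + a * w.1 i + (-(2 * a * b)) * v.1 i) (by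
    rw [HypGeom_lin3, e1, e3, v.2.1]; ring)
  rw [HypGeom_lin3, HypGeom_comm u.1, HypGeom_comm w.1, HypGeom_comm v.1, HypGeom_lin3,
    HypGeom_lin3, HypGeom_lin3, u.2.1, v.2.1, w.2.1, e1, e2, e3, e4, e5] at hp
  rw [e1, e2]
  have hab : 0 < a * b := by positivity
  have h1 : (a * b) * (-lor u.1 w.1) ≤ (a * b) * (2 * -a * -b) := by nlinarith only [ha1, hb1, hp]
  exact le_of_mul_le_mul_left h1 hab

/-- The coarse distance of hyperbolic space. -/
def hypCoarse (n : ℕ) : Coarse (Hyp n) where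
  Λ u v := -lor u.1 v.1
  symm := fun a b => by rw [HypGeom_comm]
  refl := fun a => by rw [a.2.1]; norm_num
  tri := fun L => ⟨2 * L * L, fun a b c hab hbc => by
    have h1 := one_le_neg_lor a b
    have h2 := one_le_neg_lor b c
    have h3 := lor_tri a b c
    have h4 : (-lor a.1 b.1) * (-lor b.1 c.1) ≤ L * L :=
      mul_le_mul hab hbc (by linarith) (by linarith)
    nlinarith⟩

theorem HypGeom_cont_lor (v : Fin (n + 1) → ℝ) : Continuous (fun u : Hyp n => lor u.1 v) := by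
  have h : ∀ i, Continuous (fun u : Hyp n => u.1 i) :=
    fun i => (continuous_apply i).comp HypGeom_cont_val
  unfold lor
  exact ((h 0).mul continuous_const).neg.add
    (continuous_finsetSum _ (fun i _ => (h i.succ).mul continuous_const))

theorem HypGeom_base (u : Hyp n) : lor u.1 (HypGeom_lift (0 : Fin n → ℝ)).1 = -u.1 0 := by
  simp [lor, HypGeom_lift]

theorem isCompact_ball (v : Hyp n) (L : ℝ) : IsCompact {u : Hyp n | -lor u.1 v.1 ≤ L} := by
  have hc : IsCompact ((HypGeom_homeo n) ⁻¹' Metric.closedBall 0 (2 * |L| * v.1 0)) :=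
    (HypGeom_homeo n).isCompact_preimage.2 (isCompact_closedBall _ _)
  refine hc.of_isClosed_subset (isClosed_le (HypGeom_cont_lor v.1).neg continuous_const) ?_
  intro u hu
  have hv0 := v.2.2
  have hu0 := u.2.2
  have hu' : -lor u.1 v.1 ≤ |L| := le_trans hu (le_abs_self _)
  have h1 := lor_tri u v (HypGeom_lift 0)
  rw [HypGeom_base, HypGeom_base] at h1
  have h2 : u.1 0 ≤ 2 * |L| * v.1 0 := by nlinarith only [h1, hv0, hu']
  simp only [Set.mem_preimage, Metric.mem_closedBall, dist_zero_right]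
  refine (pi_norm_le_iff_of_nonneg (by positivity)).2 (fun i => ?_)
  have h3 : u.1 i.succ ^ 2 ≤ ∑ j : Fin n, u.1 j.succ ^ 2 :=
    Finset.single_le_sum (f := fun j : Fin n => u.1 j.succ ^ 2) (fun j _ => sq_nonneg _)
      (Finset.mem_univ i)
  have h4 := HypGeom_sq u
  have h5 : |u.1 i.succ| ≤ u.1 0 := abs_le.2 (abs_le_of_sq_le_sq' (by linarith) hu0.le)
  change ‖u.1 i.succ‖ ≤ _
  rw [Real.norm_eq_abs]
  linarith

/-- Horospherical parametrisation. -/
noncomputable def HypGeom_hv {d : ℕ} (y : Fin d → ℝ) (t : ℝ) : Fin (d + 1 + 1) → ℝ :=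
  Fin.cons ((1 + (∑ i, y i ^ 2 + t ^ 2)) / (2 * t))
    (Fin.cons (((∑ i, y i ^ 2 + t ^ 2) - 1) / (2 * t)) (fun i => y i / t))

theorem HypGeom_hv_lor {d : ℕ} (y y' : Fin d → ℝ) {t t' : ℝ} (ht : 0 < t) (ht' : 0 < t') :
    -lor (HypGeom_hv y t) (HypGeom_hv y' t') =
      (∑ i, (y i - y' i) ^ 2 + t ^ 2 + t' ^ 2) / (2 * t * t') := by
  unfold lor HypGeom_hv
  simp only [Fin.cons_zero, Fin.cons_succ, Fin.sum_univ_succ]
  have e1 : ∑ i, (y i - y' i) ^ 2 = ∑ i, y i ^ 2 + ∑ i, y' i ^ 2 - 2 * ∑ i, y i * y' i := by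
    rw [Finset.mul_sum, ← Finset.sum_add_distrib, ← Finset.sum_sub_distrib]
    exact Finset.sum_congr rfl (fun i _ => by ring)
  have e2 : ∑ i, y i / t * (y' i / t') = (∑ i, y i * y' i) / (t * t') := by
    rw [Finset.sum_div]
    exact Finset.sum_congr rfl (fun i _ => by field_simp)
  rw [e1, e2]
  field_simp
  ring

theorem exists_horo (d : ℕ) : ∃ ι, Horo d (hypCoarse (d + 1)) ι := by
  have hmem : ∀ (y : Fin d → ℝ) (t : ℝ), 0 < t →
      lor (HypGeom_hv y t) (HypGeom_hv y t) = -1 ∧ 0 < HypGeom_hv y t 0 := by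
    intro y t ht
    refine ⟨?_, ?_⟩
    · have := HypGeom_hv_lor y y ht ht
      have e : (∑ i, (y i - y i) ^ 2 + t ^ 2 + t ^ 2) / (2 * t * t) = 1 := by
        simp only [sub_self]
        simp
        field_simp
        ring
      linarith only [this, e]
    · have h0 : 0 ≤ ∑ i, y i ^ 2 := Finset.sum_nonneg (fun i _ => sq_nonneg _)
      unfold HypGeom_hv
      simp only [Fin.cons_zero]
      positivity
  obtain ⟨ι, hι⟩ : ∃ ι : (Fin d → ℝ) → ℝ → Hyp (d + 1), ∀ y t, 0 < t → (ι y t).1 = HypGeom_hv y t := by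
    refine ⟨fun y t => if h : 0 < t then (⟨HypGeom_hv y t, hmem y t h⟩ : Hyp (d + 1))
      else HypGeom_lift 0, fun y t ht => ?_⟩
    exact congrArg Subtype.val (dif_pos ht)
  refine ⟨ι, ?_, ?_⟩
  · intro y y' t t' ht ht'
    change -lor (ι y t).1 (ι y' t').1 = _
    rw [hι y t ht, hι y' t' ht']
    exact HypGeom_hv_lor y y' ht ht'
  · intro a
    have h1 := HypGeom_sq a
    rw [Fin.sum_univ_succ] at h1
    have h0 : 0 ≤ ∑ i : Fin d, a.1 i.succ.succ ^ 2 := Finset.sum_nonneg (fun i _ => sq_nonneg _)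
    have ha := a.2.2
    have h2 : a.1 (Fin.succ 0) < a.1 0 := by
      by_contra hcon
      push Not at hcon
      nlinarith only [h1, h0, ha, hcon]
    have hD : 0 < a.1 0 - a.1 (Fin.succ 0) := by linarith
    obtain ⟨D, hDe⟩ : ∃ D, D = a.1 0 - a.1 (Fin.succ 0) := ⟨_, rfl⟩
    rw [← hDe] at hD
    have ht : 0 < 1 / D := by positivity
    refine ⟨fun i => a.1 i.succ.succ / D, 1 / D, ht, ?_⟩
    apply Subtype.ext
    rw [hι _ _ ht]
    have hs : ∑ i : Fin d, (a.1 i.succ.succ / D) ^ 2 + (1 / D) ^ 2 =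
        (a.1 0 + a.1 (Fin.succ 0)) / D := by
      have : ∑ i : Fin d, (a.1 i.succ.succ / D) ^ 2 = (∑ i : Fin d, a.1 i.succ.succ ^ 2) / D ^ 2 := by
        rw [Finset.sum_div]
        exact Finset.sum_congr rfl (fun i _ => by rw [div_pow])
      rw [this]
      have e : ∑ i : Fin d, a.1 i.succ.succ ^ 2 = D * (a.1 0 + a.1 (Fin.succ 0)) - 1 := by
        rw [hDe]; nlinarith only [h1]
      rw [e]
      field_simp
      ring
    funext i
    refine Fin.cases ?_ (fun j => Fin.cases ?_ (fun k => ?_) j) i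
    · simp only [HypGeom_hv, Fin.cons_zero]
      rw [hs]
      field_simp
      linarith only [hDe]
    · simp only [HypGeom_hv, Fin.cons_zero, Fin.cons_succ]
      rw [hs]
      field_simp
      linarith only [hDe]
    · simp only [HypGeom_hv, Fin.cons_succ]
      field_simp

/-- A frame of points of hyperbolic space. -/
noncomputable def HypGeom_fr (j : Fin (n + 1)) : Hyp n :=
  HypGeom_lift (fun i => if i.succ = j then 1 else 0)

/-- The matrix of the frame. -/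
noncomputable def HypGeom_U (n : ℕ) : Matrix (Fin (n + 1)) (Fin (n + 1)) ℝ :=
  Matrix.of (fun i j => (HypGeom_fr j).1 i)

theorem HypGeom_detU : (HypGeom_U n).det ≠ 0 := by
  intro h
  obtain ⟨c, hc0, hc⟩ := Matrix.exists_mulVec_eq_zero_iff.2 h
  apply hc0
  have h1 : ∀ i : Fin n, c i.succ = 0 := by
    intro i
    have := congrFun hc i.succ
    simpa [HypGeom_U, HypGeom_fr, HypGeom_lift, Matrix.mulVec, dotProduct] using this
  have h2 : c 0 = 0 := by
    have := congrFun hc 0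
    simpa [HypGeom_U, HypGeom_fr, HypGeom_lift, Matrix.mulVec, dotProduct, Fin.sum_univ_succ,
      h1] using this
  funext i
  exact Fin.cases h2 h1 i

/-- The Gram matrix of the Lorentz form. -/
def HypGeom_J (n : ℕ) : Matrix (Fin (n + 1)) (Fin (n + 1)) ℝ :=
  Matrix.diagonal (Fin.cons (-1) (fun _ => 1))

theorem HypGeom_lor_eq (x y : Fin (n + 1) → ℝ) : lor x y = x ⬝ᵥ (HypGeom_J n *ᵥ y) := by
  simp [lor, HypGeom_J, dotProduct, Matrix.mulVec_diagonal, Fin.sum_univ_succ]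

theorem HypGeom_detJ : (HypGeom_J n).det ≠ 0 := by
  simp [HypGeom_J, Matrix.det_diagonal, Fin.prod_univ_succ]

theorem HypIsometry.exists_matrix {g : Hyp n → Hyp n} (hg : HypIsometry g) :
    ∃ A : Matrix (Fin (n + 1)) (Fin (n + 1)) ℝ, ∀ u, (g u).1 = A *ᵥ u.1 := by
  let G : Matrix (Fin (n + 1)) (Fin (n + 1)) ℝ := Matrix.of (fun i j => (g (HypGeom_fr j)).1 i)
  have key : ∀ u : Hyp n, (Gᵀ * HypGeom_J n) *ᵥ (g u).1 = ((HypGeom_U n)ᵀ * HypGeom_J n) *ᵥ u.1 := by
    intro u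
    funext j
    rw [← Matrix.mulVec_mulVec, ← Matrix.mulVec_mulVec]
    have := hg (HypGeom_fr j) u
    rw [HypGeom_lor_eq, HypGeom_lor_eq] at this
    exact this
  have gram : (Gᵀ * HypGeom_J n) * G = ((HypGeom_U n)ᵀ * HypGeom_J n) * HypGeom_U n := by
    ext i j
    exact congrFun (key (HypGeom_fr j)) i
  have hdet : (Gᵀ * HypGeom_J n).det ≠ 0 := by
    intro h
    have := congrArg Matrix.det gram
    rw [Matrix.det_mul, h, zero_mul, Matrix.det_mul, Matrix.det_mul, Matrix.det_transpose] at this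
    exact mul_ne_zero (mul_ne_zero HypGeom_detU HypGeom_detJ) HypGeom_detU this.symm
  refine ⟨(Gᵀ * HypGeom_J n)⁻¹ * ((HypGeom_U n)ᵀ * HypGeom_J n), fun u => ?_⟩
  rw [← Matrix.mulVec_mulVec, ← key, Matrix.mulVec_mulVec,
    Matrix.nonsing_inv_mul _ (isUnit_iff_ne_zero.2 hdet), Matrix.one_mulVec]

theorem matrix_ext_hyp {A A' : Matrix (Fin (n + 1)) (Fin (n + 1)) ℝ}
    (h : ∀ u : Hyp n, A *ᵥ u.1 = A' *ᵥ u.1) : A = A' := by
  have e : A * HypGeom_U n = A' * HypGeom_U n := by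
    ext i j
    exact congrFun (h (HypGeom_fr j)) i
  have hU : IsUnit (HypGeom_U n).det := isUnit_iff_ne_zero.2 HypGeom_detU
  calc A = A * HypGeom_U n * (HypGeom_U n)⁻¹ := by
        rw [Matrix.mul_assoc, Matrix.mul_nonsing_inv _ hU, Matrix.mul_one]
    _ = A' := by rw [e, Matrix.mul_assoc, Matrix.mul_nonsing_inv _ hU, Matrix.mul_one]

end Pool.Agent.Work.MP_dd0bbc_gt
end

-- merged part: Pool.Agent.Work.MP_dd0bbc_gt.LatRep
section
/-! Isometry groups of products of hyperbolic spaces are linear. -/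

set_option autoImplicit false

namespace Pool.Agent.Work.MP_dd0bbc_gt

theorem LatRep_eq {n : ℕ} (u v : Hyp n) (h : -lor u.1 v.1 = 1) : u = v := by
  have hu := HypGeom_sq u
  have hv := HypGeom_sq v
  unfold lor at h
  have hcs := Finset.sum_mul_sq_le_sq_mul_sq Finset.univ (fun i : Fin n => u.1 i.succ)
    (fun i : Fin n => v.1 i.succ)
  have h2 : ∑ i : Fin n, (u.1 i.succ - v.1 i.succ) ^ 2 =
      ∑ i : Fin n, u.1 i.succ ^ 2 + ∑ i : Fin n, v.1 i.succ ^ 2 -
        2 * ∑ i : Fin n, u.1 i.succ * v.1 i.succ := by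
    rw [Finset.mul_sum, ← Finset.sum_add_distrib, ← Finset.sum_sub_distrib]
    exact Finset.sum_congr rfl (fun i _ => by ring)
  have h3 : ∑ i : Fin n, (u.1 i.succ - v.1 i.succ) ^ 2 ≤ 0 := by
    rw [h2]
    generalize ∑ i : Fin n, u.1 i.succ ^ 2 = A at *
    generalize ∑ i : Fin n, v.1 i.succ ^ 2 = B at *
    generalize ∑ i : Fin n, u.1 i.succ * v.1 i.succ = s at *
    have h4 : (1 + s) ^ 2 = (1 + A) * (1 + B) := by
      rw [← hu, ← hv, ← mul_pow]
      congr 1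
      linarith
    nlinarith only [hcs, h4]
  have h5 := (Finset.sum_eq_zero_iff_of_nonneg (fun i _ => sq_nonneg _)).1
    (le_antisymm h3 (Finset.sum_nonneg (fun i _ => sq_nonneg _)))
  apply (HypGeom_homeo n).injective
  funext i
  have := h5 i (Finset.mem_univ i)
  exact sub_eq_zero.1 (pow_eq_zero_iff two_ne_zero |>.1 this)

theorem LatRep_sep {r : ℕ} {n : Fin r → ℕ} (u v : ∀ i, Hyp (n i)) (h : chd u v = chd v v) :
    u = v := by
  have h1 : ∑ i, (-lor (u i).1 (v i).1 - 1) = 0 := by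
    rw [Finset.sum_sub_distrib]
    have : chd v v = ∑ _i : Fin r, (1 : ℝ) :=
      Finset.sum_congr rfl (fun i _ => by rw [(v i).2.1]; norm_num)
    rw [← this, ← h]
    exact sub_self _
  have h2 := (Finset.sum_eq_zero_iff_of_nonneg
    (fun i _ => sub_nonneg.2 (one_le_neg_lor (u i) (v i)))).1 h1
  funext i
  exact LatRep_eq _ _ (sub_eq_zero.1 (h2 i (Finset.mem_univ i)))

theorem LatRep_gen {X Γ : Type} [Group Γ] (k : X → X → ℝ) (act : Γ →* Equiv.Perm X)
    (hinj : Function.Injective act) (hiso : ∀ γ u v, k (act γ u) (act γ v) = k u v)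
    (hsep : ∀ u v, k u = k v → u = v)
    [FiniteDimensional ℝ (Submodule.span ℝ (Set.range k))] :
    ∃ (N : ℕ) (ρ : Γ →* (Matrix (Fin N) (Fin N) ℝ)ˣ), Function.Injective ρ := by
  set V := Submodule.span ℝ (Set.range k) with hV
  have hk : ∀ γ u, LinearMap.funLeft ℝ ℝ (act γ⁻¹) (k u) = k (act γ u) := by
    intro γ u
    funext w
    rw [LinearMap.funLeft_apply, ← hiso γ]
    simp
  have hmap : ∀ γ, ∀ f ∈ V, LinearMap.funLeft ℝ ℝ (act γ⁻¹) f ∈ V := by
    intro γ f hf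
    have : V ≤ V.comap (LinearMap.funLeft ℝ ℝ (act γ⁻¹)) := by
      refine Submodule.span_le.2 ?_
      rintro _ ⟨u, rfl⟩
      change LinearMap.funLeft ℝ ℝ (act γ⁻¹) (k u) ∈ V
      rw [hk]
      exact Submodule.subset_span ⟨_, rfl⟩
    exact this hf
  let ρ1 : Γ →* Module.End ℝ V :=
    { toFun := fun γ => (LinearMap.funLeft ℝ ℝ (act γ⁻¹)).restrict (hmap γ)
      map_one' := by
        ext f w
        simp [LinearMap.funLeft_apply]
      map_mul' := fun a b => by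
        ext f w
        simp [LinearMap.funLeft_apply] }
  let b := Module.finBasis ℝ V
  refine ⟨Module.finrank ℝ V,
    ((LinearMap.toMatrixAlgEquiv b).toMulEquiv.toMonoidHom.comp ρ1).toHomUnits, ?_⟩
  rw [injective_iff_map_eq_one]
  intro γ hγ
  have h1 : LinearMap.toMatrixAlgEquiv b (ρ1 γ) = 1 := congrArg Units.val hγ
  have h2 : ρ1 γ = 1 := (LinearMap.toMatrixAlgEquiv b).injective (by rw [h1, map_one])
  apply hinj
  rw [map_one]
  ext u
  have h3 := congrArg Subtype.val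
    (LinearMap.congr_fun h2 ⟨k u, Submodule.subset_span ⟨_, rfl⟩⟩)
  exact hsep _ _ ((hk γ u).symm.trans h3)

theorem exists_rep {r : ℕ} {n : Fin r → ℕ} (hn : ∀ i, 1 ≤ n i) {Γ : Type} [Group Γ]
    (act : Γ →* Equiv.Perm (∀ i, Hyp (n i))) (hinj : Function.Injective act)
    (hiso : ∀ γ u v, chd (act γ u) (act γ v) = chd u v) :
    ∃ (N : ℕ) (ρ : Γ →* (Matrix (Fin N) (Fin N) ℝ)ˣ), Function.Injective ρ := by
  have _ := hn
  let c : ((i : Fin r) × Fin (n i + 1)) → (∀ i, Hyp (n i)) → ℝ := fun j w => (w j.1).1 j.2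
  have hle : Submodule.span ℝ (Set.range (chd (n := n))) ≤ Submodule.span ℝ (Set.range c) := by
    refine Submodule.span_le.2 ?_
    rintro _ ⟨u, rfl⟩
    have : chd u = ∑ i, ((u i).1 0 • c ⟨i, 0⟩ - ∑ j : Fin (n i), (u i).1 j.succ • c ⟨i, j.succ⟩) := by
      funext w
      simp only [chd, lor, c, Finset.sum_apply, Pi.sub_apply, Pi.smul_apply, smul_eq_mul]
      exact Finset.sum_congr rfl (fun i _ => by ring)
    rw [this]
    refine Submodule.sum_mem _ (fun i _ => Submodule.sub_mem _ ?_ (Submodule.sum_mem _ fun j _ => ?_))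
    · exact Submodule.smul_mem _ _ (Submodule.subset_span ⟨_, rfl⟩)
    · exact Submodule.smul_mem _ _ (Submodule.subset_span ⟨_, rfl⟩)
  have : FiniteDimensional ℝ (Submodule.span ℝ (Set.range c)) :=
    FiniteDimensional.span_of_finite ℝ (Set.finite_range c)
  have := Submodule.finiteDimensional_of_le hle
  exact LatRep_gen chd act hinj hiso (fun u v h => LatRep_sep u v (congrFun h v))

end Pool.Agent.Work.MP_dd0bbc_gt
end
end

-- merged part: Pool.Agent.Work.MP_dd0bbc_gt.TeleBCx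
section
-- merged part: Pool.Agent.Work.MP_dd0bbc_gt.TwBasic
section
/-! The covering complex of a cocycle. -/

set_option autoImplicit false

namespace Pool.Agent.Work.MP_dd0bbc_gt

open Finsupp

section Norms

variable {B : Type}

theorem TwBasic_l1_eq {x : B →₀ ℚ} {s : Finset B} (h : x.support ⊆ s) :
    l1 x = ∑ b ∈ s, |x b| :=
  Finsupp.sum_of_support_subset x h (fun _ a => |a|) (fun _ _ => abs_zero)

theorem TwBasic_sum_le_l1 (x : B →₀ ℚ) (s : Finset B) : ∑ b ∈ s, |x b| ≤ l1 x := by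
  classical
  rw [TwBasic_l1_eq (s := x.support ∪ s) Finset.subset_union_left]
  exact Finset.sum_le_sum_of_subset_of_nonneg Finset.subset_union_right
    (fun _ _ _ => abs_nonneg _)

theorem TwBasic_map_eq {N : Type} [AddCommGroup N] [Module ℚ N] (φ : (B →₀ ℚ) →ₗ[ℚ] N)
    (x : B →₀ ℚ) : φ x = ∑ b ∈ x.support, x b • φ (single b 1) := by
  conv_lhs => rw [← Finsupp.sum_single x, Finsupp.sum, map_sum]
  refine Finset.sum_congr rfl fun b _ => ?_
  rw [← map_smul, smul_single, smul_eq_mul, mul_one]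

theorem l1_nonneg (x : B →₀ ℚ) : 0 ≤ l1 x :=
  Finset.sum_nonneg fun _ _ => abs_nonneg _

theorem l1_add_le (x y : B →₀ ℚ) : l1 (x + y) ≤ l1 x + l1 y := by
  rw [TwBasic_l1_eq (x := x + y) subset_rfl]
  refine le_trans (Finset.sum_le_sum fun b _ => abs_add_le (x b) (y b)) ?_
  rw [Finset.sum_add_distrib]
  exact add_le_add (TwBasic_sum_le_l1 x _) (TwBasic_sum_le_l1 y _)

theorem l1_smul (r : ℚ) (x : B →₀ ℚ) : l1 (r • x) = |r| * l1 x := by
  rw [TwBasic_l1_eq (x := r • x) support_smul, TwBasic_l1_eq (x := x) subset_rfl, Finset.mul_sum]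
  simp [abs_mul]

theorem l1_single (b : B) (r : ℚ) : l1 (single b r) = |r| := by
  rw [TwBasic_l1_eq (x := single b r) support_single_subset]
  simp

theorem l1_sum_le {ι : Type} (s : Finset ι) (f : ι → B →₀ ℚ) :
    l1 (∑ i ∈ s, f i) ≤ ∑ i ∈ s, l1 (f i) := by
  classical
  induction s using Finset.induction_on with
  | empty => simp [l1]
  | insert a s ha ih =>
    rw [Finset.sum_insert ha, Finset.sum_insert ha]
    exact (l1_add_le _ _).trans (by linarith)

theorem l1_map_le {B' : Type} (φ : (B →₀ ℚ) →ₗ[ℚ] (B' →₀ ℚ)) {M : ℚ} (x : B →₀ ℚ)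
    (h : ∀ b ∈ x.support, l1 (φ (single b 1)) ≤ M) : l1 (φ x) ≤ M * l1 x := by
  rw [TwBasic_map_eq φ x, TwBasic_l1_eq (x := x) subset_rfl, Finset.mul_sum]
  refine (l1_sum_le _ _).trans (Finset.sum_le_sum fun b hb => ?_)
  rw [l1_smul, mul_comm]
  exact mul_le_mul_of_nonneg_right (h b hb) (abs_nonneg _)

theorem mem_support_map {B' : Type} (φ : (B →₀ ℚ) →ₗ[ℚ] (B' →₀ ℚ)) {x : B →₀ ℚ} {b' : B'}
    (h : b' ∈ (φ x).support) : ∃ b ∈ x.support, b' ∈ (φ (single b 1)).support := by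
  by_contra hc
  push Not at hc
  refine mem_support_iff.mp h ?_
  rw [TwBasic_map_eq φ x, Finsupp.finsetSum_apply]
  refine Finset.sum_eq_zero fun b hb => ?_
  rw [Finsupp.smul_apply, notMem_support_iff.mp (hc b hb), smul_zero]

theorem ip_eq_sum {x : B →₀ ℚ} (y : B →₀ ℚ) {s : Finset B} (h : x.support ⊆ s) :
    ip x y = ∑ b ∈ s, x b * y b :=
  Finsupp.sum_of_support_subset x h (fun b a => a * y b) (fun _ _ => zero_mul _)

theorem ip_comm (x y : B →₀ ℚ) : ip x y = ip y x := by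
  classical
  rw [ip_eq_sum (s := x.support ∪ y.support) y Finset.subset_union_left,
    ip_eq_sum (s := x.support ∪ y.support) x Finset.subset_union_right]
  simp only [mul_comm]

theorem ip_add_left (x x' y : B →₀ ℚ) : ip (x + x') y = ip x y + ip x' y := by
  classical
  rw [ip_eq_sum (x := x + x') y support_add,
    ip_eq_sum (s := x.support ∪ x'.support) y Finset.subset_union_left,
    ip_eq_sum (s := x.support ∪ x'.support) y Finset.subset_union_right, ← Finset.sum_add_distrib]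
  simp only [Finsupp.add_apply, add_mul]

theorem ip_smul_left (r : ℚ) (x y : B →₀ ℚ) : ip (r • x) y = r * ip x y := by
  rw [ip_eq_sum (x := r • x) y support_smul, ip_eq_sum (x := x) y subset_rfl, Finset.mul_sum]
  simp only [Finsupp.smul_apply, smul_eq_mul, mul_assoc]

theorem ip_single_left (b : B) (r : ℚ) (y : B →₀ ℚ) : ip (single b r) y = r * y b := by
  rw [ip_eq_sum (x := single b r) y support_single_subset]
  simp

theorem n2_nonneg (x : B →₀ ℚ) : 0 ≤ n2 x :=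
  Finset.sum_nonneg fun _ _ => mul_self_nonneg _

theorem two_ip_le (x y : B →₀ ℚ) {t : ℚ} (ht : 0 < t) : 2 * ip x y ≤ t * n2 x + n2 y / t := by
  classical
  rw [n2, n2, ip_eq_sum (s := x.support ∪ y.support) y Finset.subset_union_left,
    ip_eq_sum (s := x.support ∪ y.support) x Finset.subset_union_left,
    ip_eq_sum (s := x.support ∪ y.support) y Finset.subset_union_right, Finset.mul_sum,
    Finset.mul_sum, Finset.sum_div, ← Finset.sum_add_distrib]
  refine Finset.sum_le_sum fun b _ => ?_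
  have e : t * (x b * x b) + y b * y b / t - 2 * (x b * y b) = (t * x b - y b) ^ 2 / t := by
    field_simp
    ring
  have : 0 ≤ (t * x b - y b) ^ 2 / t := by positivity
  linarith only [e, this]

/-- The Schur test. -/
theorem schur_test {B' : Type} (φ : (B →₀ ℚ) →ₗ[ℚ] (B' →₀ ℚ)) (x : B →₀ ℚ) {M M' : ℚ}
    (hM : 0 ≤ M') (h1 : ∀ b ∈ x.support, l1 (φ (single b 1)) ≤ M)
    (h2 : ∀ b', ∑ b ∈ x.support, |φ (single b 1) b'| ≤ M') : n2 (φ x) ≤ M * M' * n2 x := by
  have key : ∀ b', φ x b' * φ x b' ≤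
      M' * ∑ b ∈ x.support, |φ (single b 1) b'| * (x b * x b) := by
    intro b'
    have e : φ x b' = ∑ b ∈ x.support, x b * φ (single b 1) b' := by
      rw [TwBasic_map_eq φ x, Finsupp.finsetSum_apply]
      rfl
    have cs := Finset.sum_sq_le_sum_mul_sum_of_sq_le_mul x.support
      (r := fun b => x b * φ (single b 1) b') (f := fun b => |φ (single b 1) b'|)
      (g := fun b => |φ (single b 1) b'| * (x b * x b)) (fun _ _ => abs_nonneg _)
      (fun _ _ => mul_nonneg (abs_nonneg _) (mul_self_nonneg _)) (fun b _ => by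
        rw [← mul_assoc, abs_mul_abs_self]
        exact le_of_eq (by ring))
    rw [← sq, e]
    exact cs.trans (mul_le_mul_of_nonneg_right (h2 b')
      (Finset.sum_nonneg fun _ _ => mul_nonneg (abs_nonneg _) (mul_self_nonneg _)))
  rw [n2, n2, ip_eq_sum (x := φ x) _ subset_rfl, ip_eq_sum (x := x) _ subset_rfl]
  refine (Finset.sum_le_sum fun b' _ => key b').trans ?_
  rw [← Finset.mul_sum, Finset.sum_comm, mul_comm M, mul_assoc]
  refine mul_le_mul_of_nonneg_left ?_ hM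
  rw [Finset.mul_sum]
  refine Finset.sum_le_sum fun b hb => ?_
  rw [← Finset.sum_mul]
  exact mul_le_mul_of_nonneg_right ((TwBasic_sum_le_l1 _ _).trans (h1 b hb)) (mul_self_nonneg _)

end Norms

variable {Y Γ : Type} [Fintype Y] [LinearOrder Y] [Group Γ] {K : Finset (Finset Y)}
  {bs : Finset Y → Y} {c : Y → Y → Γ}

/-- An equivariant operator given by a matrix and a transition function. -/
noncomputable def TwBasic_op {F : Type} [Fintype F] (a : F → F → ℚ) (e : F → F → Γ) :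
    (Γ × F →₀ ℚ) →ₗ[ℚ] (Γ × F →₀ ℚ) :=
  linearCombination ℚ (fun b => ∑ S : F, a b.2 S • single (b.1 * e b.2 S, S) (1 : ℚ))

theorem TwBasic_op_single {F : Type} [Fintype F] (a : F → F → ℚ) (e : F → F → Γ) (b : Γ × F) :
    TwBasic_op a e (single b 1) = ∑ S : F, a b.2 S • single (b.1 * e b.2 S, S) (1 : ℚ) := by
  simp [TwBasic_op]

open Classical in
theorem TwBasic_op_apply {F : Type} [Fintype F] (a : F → F → ℚ) (e : F → F → Γ) (b b' : Γ × F) :
    TwBasic_op a e (single b 1) b' = if b'.1 = b.1 * e b.2 b'.2 then a b.2 b'.2 else 0 := by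
  rw [TwBasic_op_single, Finsupp.finsetSum_apply, Finset.sum_eq_single b'.2]
  · rw [Finsupp.smul_apply, single_apply]
    obtain ⟨g, S⟩ := b'
    by_cases h : g = b.1 * e b.2 S
    · simp [h]
    · simp [h, Ne.symm h]
  · intro S _ hS
    rw [Finsupp.smul_apply, single_eq_of_ne fun k => hS (congrArg Prod.snd k).symm, smul_zero]
  · simp

theorem TwBasic_op_bound {F : Type} [Fintype F] (a : F → F → ℚ) (e : F → F → Γ) {A : ℚ}
    (h0 : 0 ≤ A) (hA : ∀ S T, |a S T| ≤ A) (x : Γ × F →₀ ℚ) :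
    n2 (TwBasic_op a e x) ≤ (Fintype.card F * A) * (Fintype.card F * A) * n2 x := by
  classical
  refine schur_test _ x (by positivity) (fun b _ => ?_) (fun b' => ?_)
  · rw [TwBasic_op_single]
    refine (l1_sum_le _ _).trans ?_
    simp only [l1_smul, l1_single, abs_one, mul_one]
    simpa using Finset.sum_le_card_nsmul Finset.univ _ A fun S _ => hA b.2 S
  · have le : ∀ b ∈ x.support, |TwBasic_op a e (single b 1) b'| ≤
        if b'.1 = b.1 * e b.2 b'.2 then A else 0 := by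
      intro b _
      rw [TwBasic_op_apply]
      split_ifs
      · exact hA _ _
      · simp
    refine (Finset.sum_le_sum le).trans ?_
    rw [← Finset.sum_filter, Finset.sum_const, nsmul_eq_mul]
    refine mul_le_mul_of_nonneg_right ?_ h0
    have := Finset.card_le_card_of_injOn (s := x.support.filter fun b => b'.1 = b.1 * e b.2 b'.2)
      (t := (Finset.univ : Finset F)) Prod.snd (fun _ _ => Finset.mem_coe.mpr (Finset.mem_univ _))
      (fun p hp q hq k => by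
        have h1 := (Finset.mem_filter.mp hp).2
        have h2 := (Finset.mem_filter.mp hq).2
        rw [h1, k] at h2
        exact Prod.ext (mul_right_cancel h2) k)
    exact_mod_cast this

theorem TwBasic_twd : twd K bs c =
    TwBasic_op (fun τ S : NF K => inc' τ.1 S.1) (fun τ S => c (bs τ.1) (bs S.1)) := rfl

theorem TwBasic_twdT : twdT K bs c =
    TwBasic_op (fun S τ : NF K => inc' τ.1 S.1) (fun S τ => c (bs S.1) (bs τ.1)) := rfl

omit [Fintype Y] in
theorem TwBasic_inc_ne {τ S : Finset Y} (h : inc' τ S ≠ 0) : S ⊆ τ ∧ S.card + 1 = τ.card := by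
  obtain ⟨y, hy, k⟩ := Finset.exists_ne_zero_of_sum_ne_zero h
  have e : τ.erase y = S := by
    by_contra e
    exact k (if_neg e)
  rw [← e]
  exact ⟨Finset.erase_subset _ _, Finset.card_erase_add_one hy⟩

theorem TwBasic_inc_le (τ S : Finset Y) : |inc' τ S| ≤ Fintype.card Y := by
  refine (Finset.abs_sum_le_sum_abs _ _).trans ?_
  refine (Finset.sum_le_card_nsmul τ _ 1 fun y _ => ?_).trans ?_
  · split_ifs
    · rcases sgn_eq_or y τ with e | e <;> simp [e]
    · simp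
  · simpa using Finset.card_le_univ τ

theorem TwBasic_inc_inc (hK : ∀ S ∈ K, ∀ T, T ⊆ S → T ∈ K) {τ : Finset Y} (hτ : τ ∈ K)
    (R : Finset Y) : ∑ S : NF K, inc' τ S.1 * inc' S.1 R = 0 := by
  have e : ∀ y ∈ τ, ∑ S : NF K, (if τ.erase y = S.1 then (sgn y τ : ℚ) else 0) * inc' S.1 R =
      ∑ x ∈ τ.erase y, if (τ.erase y).erase x = R then
        ((sgn y τ * sgn x (τ.erase y) : ℤ) : ℚ) else 0 := by
    intro y _
    rcases (τ.erase y).eq_empty_or_nonempty with h | h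
    · rw [h, Finset.sum_empty]
      refine Finset.sum_eq_zero fun S _ => ?_
      rw [if_neg S.2.2.ne_empty.symm, zero_mul]
    · rw [Finset.sum_eq_single (⟨τ.erase y, hK τ hτ _ (Finset.erase_subset _ _), h⟩ : NF K)]
      · rw [if_pos rfl, inc', Finset.mul_sum]
        simp only [mul_ite, mul_zero, Int.cast_mul]
      · intro S _ hS
        rw [if_neg fun k => hS (Subtype.ext k.symm), zero_mul]
      · simp
  have e2 : ∀ S : NF K, inc' τ S.1 * inc' S.1 R =
      ∑ y ∈ τ, (if τ.erase y = S.1 then (sgn y τ : ℚ) else 0) * inc' S.1 R := fun S => by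
    rw [← Finset.sum_mul]
    rfl
  rw [Finset.sum_congr rfl fun S _ => e2 S, Finset.sum_comm, Finset.sum_congr rfl e]
  refine sum_anti_eq_zero τ _ fun x hx y hy hxy => ?_
  rw [sgn_anti_erase hxy hx hy, Finset.erase_right_comm, Int.cast_neg]
  split_ifs <;> simp

omit [Fintype Y] in
theorem TwBasic_inc_empty {S : Finset Y} (h : S.Nonempty) :
    inc' S ∅ = if S.card - 1 = 0 then 1 else 0 := by
  split_ifs with k
  · obtain ⟨y, rfl⟩ := Finset.card_eq_one.mp (show S.card = 1 by have := h.card_pos; omega)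
    simp [inc', sgn, Finset.filter_singleton]
  · by_contra e
    have := (TwBasic_inc_ne e).2
    rw [Finset.card_empty] at this
    omega

theorem twd_deg (b : Γ × NF K) :
    ∀ b' ∈ (twd K bs c (single b 1)).support, twDeg K b' + 1 = twDeg K b := by
  intro b' hb
  rw [mem_support_iff, TwBasic_twd, TwBasic_op_apply] at hb
  have := (TwBasic_inc_ne (τ := b.2.1) (S := b'.2.1) fun k => hb (by simp [k])).2
  have := b'.2.2.2.card_pos
  unfold twDeg
  omega

theorem twdT_deg (b : Γ × NF K) :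
    ∀ b' ∈ (twdT K bs c (single b 1)).support, twDeg K b' = twDeg K b + 1 := by
  intro b' hb
  rw [mem_support_iff, TwBasic_twdT, TwBasic_op_apply] at hb
  have := (TwBasic_inc_ne (τ := b'.2.1) (S := b.2.1) fun k => hb (by simp [k])).2
  have := b.2.2.2.card_pos
  unfold twDeg
  omega

theorem twd_twd (hK : ∀ S ∈ K, ∀ T, T ⊆ S → T ∈ K) (hbs : ∀ S : Finset Y, S.Nonempty → bs S ∈ S)
    (hc : Cocycle K c) (x : Γ × NF K →₀ ℚ) : twd K bs c (twd K bs c x) = 0 := by
  rw [TwBasic_map_eq (twd K bs c) x, map_sum]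
  refine Finset.sum_eq_zero fun b _ => ?_
  rw [map_smul, TwBasic_twd, TwBasic_op_single, map_sum]
  simp only [map_smul, TwBasic_op_single, Finset.smul_sum, smul_smul]
  rw [Finset.sum_comm]
  refine Finset.sum_eq_zero fun R _ => ?_
  have e : ∀ S : NF K, (x b * (inc' b.2.1 S.1 * inc' S.1 R.1)) •
      single (b.1 * c (bs b.2.1) (bs S.1) * c (bs S.1) (bs R.1), R) (1 : ℚ) =
      (x b * (inc' b.2.1 S.1 * inc' S.1 R.1)) • single (b.1 * c (bs b.2.1) (bs R.1), R) 1 := by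
    intro S
    by_cases h : inc' b.2.1 S.1 * inc' S.1 R.1 = 0
    · simp [h]
    · have h1 := (TwBasic_inc_ne (left_ne_zero_of_mul h)).1
      have h2 := (TwBasic_inc_ne (right_ne_zero_of_mul h)).1
      rw [mul_assoc b.1, hc.mul _ _ _ (hK _ b.2.2.1 _ ?_)]
      simp only [Finset.insert_subset_iff, Finset.singleton_subset_iff]
      exact ⟨hbs _ b.2.2.2, h1 (hbs _ S.2.2), h1 (h2 (hbs _ R.2.2))⟩
  rw [Finset.sum_congr rfl fun S _ => e S, ← Finset.sum_smul, ← Finset.mul_sum,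
    TwBasic_inc_inc hK b.2.2.1, mul_zero, zero_smul]

theorem aug_twd (hK : ∀ S ∈ K, ∀ T, T ⊆ S → T ∈ K) (x : Γ × NF K →₀ ℚ) :
    augD (twDeg K) (twd K bs c x) = 0 := by
  rw [TwBasic_map_eq (twd K bs c) x, map_sum]
  refine Finset.sum_eq_zero fun b _ => ?_
  rw [map_smul, TwBasic_twd, TwBasic_op_single, map_sum, ← smul_zero (x b),
    ← TwBasic_inc_inc hK b.2.2.1 ∅]
  congr 1
  refine Finset.sum_congr rfl fun S _ => ?_
  rw [map_smul, TwBasic_inc_empty S.2.2, augD, linearCombination_single, one_smul, smul_eq_mul]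
  rfl

theorem ip_twdT (hK : ∀ S ∈ K, ∀ T, T ⊆ S → T ∈ K) (hbs : ∀ S : Finset Y, S.Nonempty → bs S ∈ S)
    (hc : Cocycle K c) (x y : Γ × NF K →₀ ℚ) :
    ip (twdT K bs c x) y = ip x (twd K bs c y) := by
  classical
  have key : ∀ a b : Γ × NF K, twdT K bs c (single a 1) b = twd K bs c (single b 1) a := by
    intro a b
    rw [TwBasic_twd, TwBasic_twdT, TwBasic_op_apply, TwBasic_op_apply]
    by_cases h : inc' b.2.1 a.2.1 = 0
    · simp [h]
    · have h1 := (TwBasic_inc_ne h).1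
      have e : c (bs a.2.1) (bs b.2.1) * c (bs b.2.1) (bs a.2.1) = 1 := by
        rw [hc.mul _ _ _ (hK _ b.2.2.1 _ ?_), hc.self]
        simp only [Finset.insert_subset_iff, Finset.singleton_subset_iff]
        exact ⟨h1 (hbs _ a.2.2.2), hbs _ b.2.2.2, h1 (hbs _ a.2.2.2)⟩
      refine if_congr ?_ rfl rfl
      rw [eq_inv_of_mul_eq_one_left e, eq_mul_inv_iff_mul_eq, eq_comm]
  have ex : ∀ (φ : (Γ × NF K →₀ ℚ) →ₗ[ℚ] (Γ × NF K →₀ ℚ)) (z : Γ × NF K →₀ ℚ) (b : Γ × NF K),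
      φ z b = ∑ a ∈ z.support, z a * φ (single a 1) b := fun φ z b => by
    rw [TwBasic_map_eq φ z, Finsupp.finsetSum_apply]
    rfl
  rw [ip_comm, ip_eq_sum (x := y) _ subset_rfl, ip_eq_sum (x := x) _ subset_rfl]
  simp only [ex _ x, ex _ y, Finset.mul_sum, key]
  rw [Finset.sum_comm]
  exact Finset.sum_congr rfl fun _ _ => Finset.sum_congr rfl fun _ _ => by ring

theorem twd_bound : ∃ M : ℚ, 0 < M ∧ ∀ x : Γ × NF K →₀ ℚ,
    n2 (twd K bs c x) ≤ M * n2 x ∧ n2 (twdT K bs c x) ≤ M * n2 x := by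
  refine ⟨(Fintype.card (NF K) * Fintype.card Y) * (Fintype.card (NF K) * Fintype.card Y) + 1,
    by positivity, fun x => ⟨?_, ?_⟩⟩
  · rw [TwBasic_twd, add_mul, one_mul]
    exact (TwBasic_op_bound _ _ (by positivity) (fun _ _ => TwBasic_inc_le _ _) x).trans
      (le_add_of_nonneg_right (n2_nonneg x))
  · rw [TwBasic_twdT, add_mul, one_mul]
    exact (TwBasic_op_bound _ _ (by positivity) (fun _ _ => TwBasic_inc_le _ _) x).trans
      (le_add_of_nonneg_right (n2_nonneg x))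

end Pool.Agent.Work.MP_dd0bbc_gt
end

-- merged part: Pool.Agent.Work.MP_dd0bbc_gt.TwAcyc
section
/-! The covering complex of a contractible regular covering is acyclic. -/

set_option autoImplicit false

namespace Pool.Agent.Work.MP_dd0bbc_gt

open Finsupp

section Aux

variable {X : Type} [TopologicalSpace X]

theorem TwAcyc_small {Y : Type} (U : Y → Set X) (hU : ∀ y, IsOpen (U y)) (hc : ∀ x, ∃ y, x ∈ U y)
    (k : ℕ) :
    Small U k ⊓ (SCq Set.univ (k + 1)).map (sbd X) ≤ (Small U (k + 1)).map (sbd X) := by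
  obtain ⟨Sd, T, h1, h2, h3, h4⟩ := exists_subdiv U hU hc
  have hpow : ∀ (N : ℕ) (x : SC X), sbd X ((Sd ^ N) x) = (Sd ^ N) (sbd X x) := by
    intro N
    induction N with
    | zero => intro x; simp
    | succ N ih => intro x; rw [pow_succ', Module.End.mul_apply, h1, ih, Module.End.mul_apply]
  have hSd : ∀ q, ∀ x ∈ Small U q, Sd x ∈ Small U q := fun q x hx =>
    SingAcycAux.map_small U Sd q q (fun y z hz => (h3 _ _ z hz).1) hx
  have hT : ∀ q, ∀ x ∈ Small U q, T x ∈ Small U (q + 1) := fun q x hx =>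
    SingAcycAux.map_small U T q (q + 1) (fun y z hz => (h3 _ _ z hz).2) hx
  have hSdN : ∀ q (N : ℕ), ∀ x ∈ Small U q, (Sd ^ N) x ∈ Small U q := by
    intro q N
    induction N with
    | zero => intro x hx; simpa using hx
    | succ N ih => intro x hx; rw [pow_succ', Module.End.mul_apply]; exact hSd q _ (ih x hx)
  have hev : ∀ q, ∀ x ∈ SCq (Set.univ : Set X) q, ∃ N : ℕ, (Sd ^ N) x ∈ Small U q := by
    intro q x hx
    unfold SCq at hx
    rw [supported_eq_span_single] at hx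
    induction hx using Submodule.span_induction with
    | mem z hz =>
      obtain ⟨s, ⟨hq, -⟩, rfl⟩ := hz
      subst hq
      exact h4 s
    | zero => exact ⟨0, by simp⟩
    | add u v _ _ hu hv =>
      obtain ⟨N, hN⟩ := hu
      obtain ⟨M, hM⟩ := hv
      refine ⟨N + M, ?_⟩
      rw [map_add]
      refine Submodule.add_mem _ ?_ ?_
      · rw [add_comm, pow_add, Module.End.mul_apply]
        exact hSdN q M _ hN
      · rw [pow_add, Module.End.mul_apply]
        exact hSdN q N _ hM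
    | smul c u _ hu =>
      obtain ⟨N, hN⟩ := hu
      exact ⟨N, by rw [map_smul]; exact Submodule.smul_mem _ c hN⟩
  rintro x ⟨hx, y, hy, hyx⟩
  have hx0 : sbd X x = 0 := by rw [← hyx, sbd_sbd]
  have hcyc : ∀ N : ℕ, x - (Sd ^ N) x ∈ (Small U (k + 1)).map (sbd X) := by
    intro N
    induction N with
    | zero => simp
    | succ N ih =>
      have h := h2 ((Sd ^ N) x)
      rw [hpow, hx0, map_zero, map_zero, add_zero] at h
      have hm : (Sd ^ N) x - Sd ((Sd ^ N) x) ∈ (Small U (k + 1)).map (sbd X) :=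
        ⟨_, hT k _ (hSdN k N x hx), h⟩
      have := Submodule.add_mem _ ih hm
      rw [pow_succ', Module.End.mul_apply]
      convert this using 1
      abel
  obtain ⟨N, hN⟩ := hev _ y hy
  have hb : (Sd ^ N) x ∈ (Small U (k + 1)).map (sbd X) := ⟨_, hN, by rw [hpow, hyx]⟩
  have := Submodule.add_mem _ (hcyc N) hb
  rwa [sub_add_cancel] at this

theorem TwAcyc_hrank {k V : Type} [Field k] [AddCommGroup V] [Module k V]
    {Z B : Submodule k V} (h : Z ≤ B) : hrank Z B = 0 := by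
  have : Z.map B.mkQ = ⊥ := by
    rw [eq_bot_iff]
    rintro _ ⟨x, hx, rfl⟩
    exact (Submodule.Quotient.mk_eq_zero B).2 (h hx)
  rw [hrank, this, rank_bot]

theorem TwAcyc_ind {B N : Type} [AddCommGroup N] [Module ℚ N] {P : Set B}
    (F G : (B →₀ ℚ) →ₗ[ℚ] N) (h : ∀ s ∈ P, F (single s 1) = G (single s 1)) :
    ∀ x ∈ supported ℚ ℚ P, F x = G x := by
  intro x hx
  rw [supported_eq_span_single] at hx
  refine (Submodule.span_le (p := LinearMap.eqLocus F G)).2 ?_ hx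
  rintro _ ⟨s, hs, rfl⟩
  exact h s hs

/-- A point of a singular simplex. -/
noncomputable def TwAcyc_pt (s : Sx X) : X := s.2 (stdSimplex.vertex 0)

theorem TwAcyc_pt_mem {s : Sx X} {W : Set X} (h : Set.range s.2 ⊆ W) : TwAcyc_pt s ∈ W :=
  h ⟨_, rfl⟩

open Classical in
/-- The part of a chain with a given label. -/
noncomputable def TwAcyc_fl {Γ : Type} (f : X → Γ) (γ : Γ) : SC X →ₗ[ℚ] SC X where
  toFun := Finsupp.filter fun s => f (TwAcyc_pt s) = γ
  map_add' _ _ := filter_add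
  map_smul' _ _ := filter_smul

open Classical in
theorem TwAcyc_fl_apply {Γ : Type} (f : X → Γ) (γ : Γ) (x : SC X) (s : Sx X) :
    TwAcyc_fl f γ x s = if f (TwAcyc_pt s) = γ then x s else 0 := filter_apply _ _ _

open Classical in
theorem TwAcyc_fl_sheet {Γ : Type} {f : X → Γ} {W : Set X} {γ0 : Γ} (hW : ∀ x ∈ W, f x = γ0)
    (γ : Γ) {q : ℕ} {x : SC X} (hx : x ∈ SCq W q) :
    TwAcyc_fl f γ x = if γ0 = γ then x else 0 := by
  ext s
  rw [TwAcyc_fl_apply]
  by_cases e : x s = 0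
  · split_ifs <;> simp [e]
  · rw [hW _ (TwAcyc_pt_mem (hx (mem_support_iff.2 e)).2)]
    split_ifs <;> simp

theorem TwAcyc_range {Γ : Type} {f : X → Γ} {I : Set X}
    (hf : ∀ x ∈ I, ∀ᶠ x' in nhds x, f x' = f x) {s : Sx X} (h : Set.range s.2 ⊆ I) :
    Set.range s.2 ⊆ {x | x ∈ I ∧ f x = f (TwAcyc_pt s)} := by
  have : PreconnectedSpace (stdSimplex ℝ (Fin (s.1 + 1))) :=
    isPreconnected_iff_preconnectedSpace.1 (convex_stdSimplex ℝ _).isPreconnected
  have hl : IsLocallyConstant fun t => f (s.2 t) :=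
    (IsLocallyConstant.iff_eventually_eq _).2 fun t =>
      s.2.continuous.continuousAt.eventually (hf _ (h ⟨t, rfl⟩))
  rintro _ ⟨t, rfl⟩
  exact ⟨h ⟨t, rfl⟩, hl.apply_eq_of_preconnectedSpace _ _⟩

theorem TwAcyc_fl_mem {Γ : Type} {f : X → Γ} {I : Set X}
    (hf : ∀ x ∈ I, ∀ᶠ x' in nhds x, f x' = f x) (γ : Γ) {q : ℕ} {x : SC X} (hx : x ∈ SCq I q) :
    TwAcyc_fl f γ x ∈ SCq {x | x ∈ I ∧ f x = γ} q := by
  intro s hs
  have h1 := mem_support_iff.1 hs
  rw [TwAcyc_fl_apply] at h1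
  split_ifs at h1 with h2
  · have h3 := hx (mem_support_iff.2 h1)
    exact ⟨h3.1, h2 ▸ TwAcyc_range hf h3.2⟩
  · exact (h1 rfl).elim

theorem TwAcyc_fl_sbd {Γ : Type} {f : X → Γ} {I : Set X}
    (hf : ∀ x ∈ I, ∀ᶠ x' in nhds x, f x' = f x) (γ : Γ) {q : ℕ} {x : SC X}
    (hx : x ∈ SCq I (q + 1)) : sbd X (TwAcyc_fl f γ x) = TwAcyc_fl f γ (sbd X x) := by
  refine TwAcyc_ind (sbd X ∘ₗ TwAcyc_fl f γ) (TwAcyc_fl f γ ∘ₗ sbd X) (fun s hs => ?_) x hx
  have h1 : single s (1 : ℚ) ∈ SCq {x | x ∈ I ∧ f x = f (TwAcyc_pt s)} (q + 1) :=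
    single_mem_supported _ _ ⟨hs.1, TwAcyc_range hf hs.2⟩
  rw [LinearMap.comp_apply, LinearMap.comp_apply, TwAcyc_fl_sheet (fun _ h => h.2) γ h1,
    TwAcyc_fl_sheet (fun _ h => h.2) γ (sbd_mem _ _ h1)]
  split_ifs <;> simp

theorem TwAcyc_split {Γ : Type} (f : X → Γ) {P : Submodule ℚ (SC X)} {x : SC X}
    (h : ∀ γ, TwAcyc_fl f γ x ∈ P) : x ∈ P := by
  classical
  have : x = ∑ γ ∈ x.support.image fun s => f (TwAcyc_pt s), TwAcyc_fl f γ x := by
    ext s
    simp only [Finsupp.finsetSum_apply, TwAcyc_fl_apply]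
    rw [Finset.sum_ite_eq]
    split_ifs with h1
    · rfl
    · by_contra e
      exact h1 (Finset.mem_image_of_mem _ (mem_support_iff.2 e))
  rw [this]
  exact Submodule.sum_mem _ fun γ _ => h γ

variable {Y : Type} [Fintype Y] [LinearOrder Y]

theorem TwAcyc_sum_NF {N : Type} [AddCommMonoid N] (K : Finset (Finset Y)) (F : Finset Y → N)
    (h : ∀ S, F S ≠ 0 → S ∈ K ∧ S.Nonempty) : ∑ S : NF K, F S.1 = ∑ S, F S := by
  rw [← Finset.sum_subtype (Finset.univ.filter fun S => S ∈ K ∧ S.Nonempty) (by simp) F]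
  exact Finset.sum_filter_of_ne fun S _ => h S

theorem TwAcyc_inc {N : Type} [AddCommGroup N] [Module ℚ N] (x : Finset Y → N) (S : Finset Y) :
    ∑ τ, inc' τ S • x τ = bdy ℚ N x S := by
  have h1 : ∀ τ : Finset Y, inc' τ S • x τ =
      ∑ y, if y ∉ S ∧ τ = insert y S then (sgn y τ : ℚ) • x τ else 0 := by
    intro τ
    rw [inc', Finset.sum_smul, ← Finset.sum_subset (Finset.subset_univ τ)]
    · refine Finset.sum_congr rfl fun y hy => ?_
      by_cases e : τ.erase y = S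
      · rw [if_pos e, if_pos]
        exact ⟨e ▸ Finset.notMem_erase _ _, by rw [← e, Finset.insert_erase hy]⟩
      · rw [if_neg e, if_neg, zero_smul]
        rintro ⟨h2, rfl⟩
        exact e (Finset.erase_insert h2)
    · intro y _ hy
      rw [if_neg]
      rintro ⟨-, rfl⟩
      exact hy (Finset.mem_insert_self _ _)
  simp only [h1]
  rw [Finset.sum_comm, bdy_apply, ← Finset.sum_subset (Finset.subset_univ Sᶜ)]
  · refine Finset.sum_congr rfl fun y hy => ?_
    simp [Finset.mem_compl.1 hy]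
  · intro y _ hy
    simp only [Finset.mem_compl, not_not] at hy
    simp [hy]

theorem TwAcyc_inc_sub {τ S : Finset Y} (h : inc' τ S ≠ 0) : S ⊆ τ := by
  obtain ⟨y, -, hy⟩ := Finset.exists_ne_zero_of_sum_ne_zero h
  split_ifs at hy with e
  · exact e ▸ Finset.erase_subset _ _
  · exact (hy rfl).elim

variable {Γ : Type} (K : Finset (Finset Y)) (f : Finset Y → X → Γ)

/-- The augmentation of one column. -/
noncomputable def TwAcyc_b1 (S : NF K) : SC X →ₗ[ℚ] (Γ × NF K →₀ ℚ) :=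
  linearCombination ℚ fun s => if s.1 = 0 then single (f S.1 (TwAcyc_pt s), S) 1 else 0

/-- The augmentation of the columns. -/
noncomputable def TwAcyc_b : (Finset Y → SC X) →ₗ[ℚ] (Γ × NF K →₀ ℚ) :=
  ∑ S : NF K, TwAcyc_b1 K f S ∘ₗ LinearMap.proj S.1

theorem TwAcyc_b_eq (x : Finset Y → SC X) :
    TwAcyc_b K f x = ∑ S : NF K, TwAcyc_b1 K f S (x S.1) := by
  simp [TwAcyc_b]

omit [Fintype Y] in
theorem TwAcyc_b1_single (S : NF K) (s : Sx X) : TwAcyc_b1 K f S (single s 1) =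
    if s.1 = 0 then single (f S.1 (TwAcyc_pt s), S) 1 else 0 := by
  simp [TwAcyc_b1]

omit [Fintype Y] in
theorem TwAcyc_b1_apply (S S' : NF K) (γ : Γ) (w : SC X) :
    TwAcyc_b1 K f S w (γ, S') = if S = S' then aug X (TwAcyc_fl (f S.1) γ w) else 0 := by
  classical
  have := TwAcyc_ind (P := Set.univ) (lapply (γ, S') ∘ₗ TwAcyc_b1 K f S)
    (if S = S' then aug X ∘ₗ TwAcyc_fl (f S.1) γ else 0) (fun s _ => ?_) w (by simp)
  · split_ifs at this ⊢ <;> exact this
  · have h1 : single s (1 : ℚ) ∈ SCq {x | f S.1 x = f S.1 x} s.1 :=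
      single_mem_supported _ _ ⟨rfl, fun _ _ => rfl⟩
    have h2 : TwAcyc_fl (f S.1) γ (single s 1) =
        if f S.1 (TwAcyc_pt s) = γ then single s 1 else 0 := by
      ext t
      rw [TwAcyc_fl_apply]
      by_cases e : s = t
      · subst e
        split_ifs <;> simp
      · split_ifs <;> simp [e]
    rw [LinearMap.comp_apply, TwAcyc_b1_single, lapply_apply]
    by_cases e : S = S'
    · subst e
      rw [if_pos rfl, LinearMap.comp_apply, h2]
      split_ifs with h3 h4 h4 <;> simp [SingAcycAux.aug_single, single_apply, *]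
    · rw [if_neg e]
      split_ifs <;> simp [single_apply, e]

theorem TwAcyc_b_apply (x : Finset Y → SC X) (γ : Γ) (S : NF K) :
    TwAcyc_b K f x (γ, S) = aug X (TwAcyc_fl (f S.1) γ (x S.1)) := by
  rw [TwAcyc_b_eq, Finsupp.finsetSum_apply]
  simp only [TwAcyc_b1_apply]
  rw [Finset.sum_ite_eq', if_pos (Finset.mem_univ _)]

omit [Fintype Y] in
theorem TwAcyc_aug_b1 (S : NF K) (hS : S.1.card = 1) (w : SC X) :
    augD (twDeg (Γ := Γ) K) (TwAcyc_b1 K f S w) = aug X w := by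
  refine TwAcyc_ind (P := Set.univ) (augD (twDeg K) ∘ₗ TwAcyc_b1 K f S) (aug X) (fun s _ => ?_) w
    (by simp)
  rw [LinearMap.comp_apply, TwAcyc_b1_single, SingAcycAux.aug_single]
  split_ifs <;> simp [augD, twDeg, hS]

end Aux

theorem Sheeting.acyc {Γ X M Y : Type} [TopologicalSpace X] [TopologicalSpace M] [Group Γ]
    [MulAction Γ X] [Fintype Y] [LinearOrder Y] {p : X → M} {U : Y → Set M}
    {comp : Y → X → Γ} {c : Y → Y → Γ} [ContractibleSpace X] (hp : Deck Γ p) (hU : GoodCover U)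
    (h : Sheeting p U comp c) (hc : Cocycle (nerve U) c) {bs : Finset Y → Y}
    (hbs : ∀ S : Finset Y, S.Nonempty → bs S ∈ S) :
    Acyc (twDeg (Γ := Γ) (nerve U)) (twd (nerve U) bs c) := by
  let V : Y → Set X := fun y => p ⁻¹' U y
  let f : Finset Y → X → Γ := fun S => comp (bs S)
  let K := nerve U
  let β := TwAcyc_b K f
  have hI : ∀ {S : Finset Y} {x : X}, x ∈ (⋂ y ∈ S, V y) ↔ ∀ y ∈ S, p x ∈ U y :=
    Set.mem_iInter₂
  have hf : ∀ S : Finset Y, S.Nonempty → ∀ x ∈ (⋂ y ∈ S, V y),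
      ∀ᶠ x' in nhds x, f S x' = f S x := fun S hS x hx => h.loc _ x (hI.1 hx _ (hbs S hS))
  have hW : ∀ S ∈ K, S.Nonempty → ∀ γ,
      ContractibleSpace {x | x ∈ (⋂ y ∈ S, V y) ∧ f S x = γ} := by
    intro S hS hne γ
    have e : {x | x ∈ (⋂ y ∈ S, V y) ∧ f S x = γ} =
        {x : X | (∀ y ∈ S, p x ∈ U y) ∧ comp (bs S) x = γ} := by
      ext x
      exact and_congr_left' hI
    rw [e]
    exact h.contr S hS _ (hbs S hne) γ
  have hNF : ∀ {a q : ℕ} {x : Finset Y → SC X}, x ∈ DC V a q → ∀ S, x S ≠ 0 →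
      S ∈ K ∧ S.Nonempty := by
    intro a q x hx S hS
    obtain ⟨z, hz⟩ := mem_nerve.1 (DC_nerve hx hS)
    exact ⟨mem_nerve.2 ⟨p z, hz⟩, Finset.card_pos.1 (by rw [hx.1 S hS]; omega)⟩
  have hsub : ∀ (S : Finset Y) (γ : Γ) (q : ℕ),
      (SCq {x | x ∈ (⋂ y ∈ S, V y) ∧ f S x = γ} q).map (sbd X) ≤
        (SCq (⋂ y ∈ S, V y) q).map (sbd X) := fun S γ q =>
    Submodule.map_mono (SCq_mono (fun _ hx => hx.1) q)
  have bv : ∀ q, ∀ x ∈ DC V q 1, β (vD x) = 0 := by
    intro q x hx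
    ext ⟨γ, S⟩
    rw [TwAcyc_b_apply]
    change aug X (TwAcyc_fl (f S.1) γ (sbd X (x S.1))) = 0
    rw [← TwAcyc_fl_sbd (hf _ S.2.2) γ (DC_inter hx _), aug_sbd]
  have bh : ∀ q, ∀ x ∈ DC V (q + 1) 0, β (bdy ℚ (SC X) x) = twd K bs c (β x) := by
    intro q x hx
    have h1 : ∀ τ : NF K, twd K bs c (TwAcyc_b1 K f τ (x τ.1)) =
        ∑ S : NF K, TwAcyc_b1 K f S (inc' τ.1 S.1 • x τ.1) := by
      intro τ
      have := TwAcyc_ind (twd K bs c ∘ₗ TwAcyc_b1 K f τ)
        (∑ S : NF K, inc' τ.1 S.1 • TwAcyc_b1 K f S) (fun s hs => ?_) _ (DC_inter hx τ.1)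
      · simpa using this
      · rw [LinearMap.comp_apply, TwAcyc_b1_single, if_pos hs.1, twd, linearCombination_single,
          one_smul, LinearMap.sum_apply]
        refine Finset.sum_congr rfl fun S _ => ?_
        rw [LinearMap.smul_apply, TwAcyc_b1_single, if_pos hs.1]
        by_cases e : inc' τ.1 S.1 = 0
        · rw [e, zero_smul, zero_smul]
        · have h2 := hI.1 (TwAcyc_pt_mem hs.2)
          rw [← h.coc _ _ _ (h2 _ (hbs _ τ.2.2)) (h2 _ (TwAcyc_inc_sub e (hbs _ S.2.2)))]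
    rw [TwAcyc_b_eq, TwAcyc_b_eq, map_sum]
    simp only [h1]
    rw [Finset.sum_comm]
    refine Finset.sum_congr rfl fun S _ => ?_
    rw [← map_sum, ← TwAcyc_inc, TwAcyc_sum_NF K (fun τ => inc' τ S.1 • x τ)
      fun τ hτ => hNF hx τ (right_ne_zero_of_smul hτ)]
  have bmem : ∀ q, ∀ x ∈ DC V q 0, β x ∈ supported ℚ ℚ {b | twDeg K b = q} := by
    rintro q x hx ⟨γ, S⟩ hb
    have h1 := mem_support_iff.1 hb
    rw [TwAcyc_b_apply] at h1
    have h2 := hx.1 S.1 fun e => h1 (by rw [e, map_zero, map_zero])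
    change S.1.card - 1 = q
    omega
  have bsurj : ∀ q, supported ℚ ℚ {b | twDeg K b = q} ≤ (DC V q 0).map β := by
    intro q
    rw [supported_eq_span_single, Submodule.span_le]
    rintro _ ⟨⟨γ, S⟩, hb, rfl⟩
    have hcard : S.1.card = q + 1 := by
      have h1 : S.1.card - 1 = q := hb
      have h2 := S.2.2.card_pos
      omega
    have := hW S.1 S.2.1 S.2.2 γ
    obtain ⟨a, ha, haγ⟩ : Nonempty {x | x ∈ (⋂ y ∈ S.1, V y) ∧ f S.1 x = γ} := inferInstance
    refine ⟨Pi.single S.1 (single (SingAcycAux.pt a) 1), ⟨fun T hT => ?_, fun T y hy => ?_⟩, ?_⟩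
    · by_cases e : T = S.1
      · rw [e, hcard]
      · exact (hT (Pi.single_eq_of_ne e _)).elim
    · by_cases e : T = S.1
      · subst e
        rw [Pi.single_eq_same]
        refine single_mem_supported _ _ ⟨rfl, ?_⟩
        rintro _ ⟨t, rfl⟩
        exact hI.1 ha y hy
      · rw [Pi.single_eq_of_ne e]
        exact zero_mem _
    · rw [TwAcyc_b_eq, Finset.sum_eq_single S]
      · rw [Pi.single_eq_same, TwAcyc_b1_single, ← haγ]
        exact if_pos rfl
      · intro T _ hT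
        rw [Pi.single_eq_of_ne fun e => hT (Subtype.ext e), map_zero]
      · intro hS
        exact (hS (Finset.mem_univ _)).elim
  have col0 : ∀ q, ∀ x ∈ DC V q 0, β x = 0 → ∃ y ∈ DC V q 1, vD y = x := by
    intro q x hx h0
    refine DC_solve (sbd X) x hx.1 fun S hS => ?_
    obtain ⟨h1, h2⟩ := hNF hx S hS
    refine TwAcyc_split (f S) (P := (SCq (⋂ y ∈ S, V y) 1).map (sbd X)) fun γ => hsub S γ 1 ?_
    have := hW S h1 h2 γ
    refine acyclic_zero _ (TwAcyc_fl_mem (hf S h2) γ (DC_inter hx S)) ?_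
    rw [← TwAcyc_b_apply K f x γ ⟨S, h1, h2⟩]
    exact DFunLike.congr_fun h0 _
  have col : ∀ a q, ∀ x ∈ DC V a (q + 1), vD x = 0 → ∃ y ∈ DC V a (q + 2), vD y = x := by
    intro a q x hx h0
    refine DC_solve (sbd X) x hx.1 fun S hS => ?_
    obtain ⟨h1, h2⟩ := hNF hx S hS
    refine TwAcyc_split (f S) (P := (SCq (⋂ y ∈ S, V y) (q + 2)).map (sbd X)) fun γ =>
      hsub S γ _ ?_
    have := hW S h1 h2 γ
    refine acyclic _ q (TwAcyc_fl_mem (hf S h2) γ (DC_inter hx S)) ?_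
    rw [TwAcyc_fl_sbd (hf S h2) γ (DC_inter hx S), show sbd X (x S) = 0 from congrFun h0 S,
      map_zero]
  have haug : ∀ x ∈ DC V 0 0, aug X (aD x) = augD (twDeg K) (β x) := by
    intro x hx
    have h1 : ∀ S : NF K, augD (twDeg K) (TwAcyc_b1 K f S (x S.1)) = aug X (x S.1) := by
      intro S
      by_cases e : x S.1 = 0
      · rw [e, map_zero, map_zero, map_zero]
      · exact TwAcyc_aug_b1 K f S (hx.1 _ e) _
    rw [TwAcyc_b_eq, map_sum]
    simp only [h1]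
    rw [← map_sum, TwAcyc_sum_NF K x (hNF hx)]
    congr 1
    change bdy ℚ (SC X) x ∅ = _
    rw [bdy_empty, ← Finset.sum_image (s := Finset.univ) (g := fun y : Y => ({y} : Finset Y))
      (f := x) fun _ _ _ _ e => Finset.singleton_injective e]
    refine Finset.sum_subset (Finset.subset_univ _) fun S _ hS => ?_
    by_contra e
    obtain ⟨y, rfl⟩ := Finset.card_eq_one.1 (hx.1 S e)
    exact hS (Finset.mem_image_of_mem _ (Finset.mem_univ y))
  have hX : ContractibleSpace (Set.univ : Set X) := (Homeomorph.Set.univ X).contractibleSpace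
  intro k z hz hd ha
  have key := zigzag vD (bdy ℚ (SC X)) β aD (twd K bs c) (sbd X) (fun p q => DC V q p)
    (Small V) k (supported ℚ ℚ {b | twDeg K b = k} ⊓ LinearMap.ker (twd K bs c) ⊓
      LinearMap.ker (augD (twDeg K))) ((supported ℚ ℚ {b | twDeg K b = k + 1}).map (twd K bs c))
    (Small V k ⊓ (SCq Set.univ (k + 1)).map (sbd X)) (fun _ _ x _ => v_v x)
    (fun _ _ x _ => (h_v x).symm) (fun _ _ x _ => bdy_bdy x) bv (fun _ x _ => a_h x) bh
    (fun _ x _ => a_v x) (fun _ _ _ => v_mem) (fun _ _ _ => h_mem)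
    (fun z hz => bsurj k hz.1.1) (fun _ z hz => hz.1.2) (fun q _ => col0 q)
    (fun a q _ => col q a) ?_ ?_ (fun _ => a_surj) (fun _ _ => row_zero)
    (fun _ _ _ _ => row_exact) ?_
  · rw [TwAcyc_hrank (TwAcyc_small V (fun y => (hU.isOpen y).preimage hp.cov.continuous)
      (fun x => hU.cover (p x)) k), nonpos_iff_eq_zero] at key
    obtain ⟨y, hy, e⟩ := SingAcycAux.le_of_hrank_eq_zero key (x := z) ⟨⟨hz, hd⟩, ha⟩
    exact ⟨y, hy, e⟩
  · rintro rfl x hx hZ
    exact ⟨a_mem hx, acyclic_zero _ (SingAcycAux.small_le V 0 (a_mem hx))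
      ((haug x hx).trans hZ.2)⟩
  · intro hk x hx h0
    obtain ⟨j, rfl⟩ := Nat.exists_eq_succ_of_ne_zero hk
    exact ⟨a_mem hx, acyclic _ j (SingAcycAux.small_le V _ (a_mem hx)) h0⟩
  · intro x hx h1 h2
    obtain ⟨y, hy, rfl⟩ : ∃ y ∈ DC V (k + 1) 0, bdy ℚ (SC X) y = x := by
      cases k with
      | zero => exact row_zero hx (h2 rfl)
      | succ j => exact row_exact hx (h1 (Nat.succ_ne_zero j))
    exact ⟨β y, bmem _ y hy, (bh _ y hy).symm⟩

end Pool.Agent.Work.MP_dd0bbc_gt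
end

-- merged part: Pool.Agent.Work.MP_dd0bbc_gt.TwBCx
section
/-! The covering complex as a uniformly acyclic complex of bounded geometry. -/

set_option autoImplicit false

namespace Pool.Agent.Work.MP_dd0bbc_gt

open Finsupp

theorem TwBCx_fill {B : Type} {deg : B → ℕ} {d : (B →₀ ℚ) →ₗ[ℚ] (B →₀ ℚ)} (h : Acyc deg d)
    (k : ℕ) : ∃ φ : (B →₀ ℚ) →ₗ[ℚ] (B →₀ ℚ), ∀ z, InDeg deg (k + 1) (φ z) ∧
      (InDeg deg k z → d z = 0 → augD deg z = 0 → d (φ z) = z) := by
  let W : Submodule ℚ (B →₀ ℚ) := supported ℚ ℚ {b | deg b = k + 1}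
  obtain ⟨g, hg⟩ := (d ∘ₗ W.subtype).rangeRestrict.exists_rightInverse_of_surjective
    (LinearMap.range_rangeRestrict _)
  obtain ⟨g', hg'⟩ := g.exists_extend
  refine ⟨W.subtype ∘ₗ g', fun z => ⟨fun b hb => (g' z).2 hb, fun h1 h2 h3 => ?_⟩⟩
  obtain ⟨y, y1, y2⟩ := h k z h1 h2 h3
  have hz : z ∈ LinearMap.range (d ∘ₗ W.subtype) := ⟨⟨y, fun b hb => y1 b hb⟩, y2⟩
  have e1 : g' z = g ⟨z, hz⟩ := LinearMap.congr_fun hg' ⟨z, hz⟩
  have e2 := congrArg Subtype.val (LinearMap.congr_fun hg ⟨z, hz⟩)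
  rw [LinearMap.comp_apply, e1]
  exact e2

theorem TwBCx_bdd {A B : Type} {S : Set A} (hS : S.Finite) (ψ : A → B →₀ ℚ) (f : B → ℝ) :
    ∃ (L : ℝ) (M : ℚ), 0 ≤ M ∧ ∀ a ∈ S, (∀ b ∈ (ψ a).support, f b ≤ L) ∧ l1 (ψ a) ≤ M := by
  obtain ⟨M, hM⟩ := (hS.image fun a => l1 (ψ a)).bddAbove
  obtain ⟨L, hL⟩ := ((hS.biUnion fun a _ => (ψ a).support.finite_toSet).image f).bddAbove
  exact ⟨L, max M 0, le_max_right _ _, fun a ha => ⟨fun b hb =>
    hL ⟨b, Set.mem_biUnion ha hb, rfl⟩, (hM ⟨a, ha, rfl⟩).trans (le_max_left _ _)⟩⟩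

section

variable {Y Γ : Type} [LinearOrder Y] [Group Γ] {K : Finset (Finset Y)}

/-- Left translation. -/
noncomputable def TwBCx_tr (K : Finset (Finset Y)) (γ : Γ) :
    (Γ × NF K →₀ ℚ) →ₗ[ℚ] (Γ × NF K →₀ ℚ) := lmapDomain ℚ ℚ fun b => (γ * b.1, b.2)

omit [LinearOrder Y] in
theorem TwBCx_single (γ : Γ) (b : Γ × NF K) (r : ℚ) :
    TwBCx_tr K γ (single b r) = single (γ * b.1, b.2) r := mapDomain_single

omit [LinearOrder Y] in
theorem TwBCx_supp {γ : Γ} {x : Γ × NF K →₀ ℚ} {b : Γ × NF K}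
    (h : b ∈ (TwBCx_tr K γ x).support) : ∃ b' ∈ x.support, b = (γ * b'.1, b'.2) := by
  obtain ⟨b', h1, h2⟩ := mem_support_map _ h
  rw [TwBCx_single] at h2
  exact ⟨b', h1, Finset.mem_singleton.1 (support_single_subset h2)⟩

omit [LinearOrder Y] in
theorem TwBCx_l1 (γ : Γ) (x : Γ × NF K →₀ ℚ) : l1 (TwBCx_tr K γ x) ≤ l1 x := by
  have h := l1_map_le (TwBCx_tr K γ) (M := 1) x fun b _ => by
    rw [TwBCx_single, l1_single, abs_one]
  rwa [one_mul] at h

omit [LinearOrder Y] in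
theorem TwBCx_inv (γ : Γ) (x : Γ × NF K →₀ ℚ) : TwBCx_tr K γ (TwBCx_tr K γ⁻¹ x) = x := by
  induction x using Finsupp.induction_linear with
  | zero => rw [map_zero, map_zero]
  | add x y hx hy => rw [map_add, map_add, hx, hy]
  | single b r => rw [TwBCx_single, TwBCx_single, mul_inv_cancel_left]

omit [LinearOrder Y] in
theorem TwBCx_aug (γ : Γ) (x : Γ × NF K →₀ ℚ) :
    augD (twDeg K) (TwBCx_tr K γ x) = augD (twDeg K) x := by
  induction x using Finsupp.induction_linear with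
  | zero => rw [map_zero]
  | add x y hx hy => rw [map_add, map_add, map_add, hx, hy]
  | single b r =>
    rw [TwBCx_single, augD, linearCombination_single, linearCombination_single]
    rfl

omit [LinearOrder Y] in
theorem TwBCx_deg (γ : Γ) {x : Γ × NF K →₀ ℚ} {k : ℕ} (h : InDeg (twDeg K) k x) :
    InDeg (twDeg K) k (TwBCx_tr K γ x) := fun b hb => by
  obtain ⟨b', h1, rfl⟩ := TwBCx_supp hb
  exact h b' h1

theorem TwBCx_twd [Fintype Y] (bs : Finset Y → Y) (c : Y → Y → Γ) (γ : Γ) (x : Γ × NF K →₀ ℚ) :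
    twd K bs c (TwBCx_tr K γ x) = TwBCx_tr K γ (twd K bs c x) := by
  induction x using Finsupp.induction_linear with
  | zero => rw [map_zero, map_zero, map_zero]
  | add x y hx hy => rw [map_add, map_add, map_add, map_add, hx, hy]
  | single b r =>
    rw [TwBCx_single, twd, linearCombination_single, linearCombination_single, map_smul, map_sum]
    simp only [map_smul, TwBCx_single, mul_assoc]

end

theorem exists_twBCx {P Y Γ : Type} [Fintype Y] [LinearOrder Y] [Group Γ] [MulAction Γ P]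
    (co : Coarse P) (hinv : ∀ (γ : Γ) (u v : P), co.Λ (γ • u) (γ • v) = co.Λ u v)
    (hprop : ∀ (L : ℝ) (u v : P), {γ : Γ | co.Λ (γ • u) v ≤ L}.Finite) (v : P)
    (hcoc : ∃ L : ℝ, ∀ u, ∃ γ : Γ, co.Λ (γ • v) u ≤ L) {K : Finset (Finset Y)}
    (hK : ∀ S ∈ K, ∀ T, T ⊆ S → T ∈ K) (hne : ∃ y, {y} ∈ K) {bs : Finset Y → Y}
    (hbs : ∀ S : Finset Y, S.Nonempty → bs S ∈ S) {c : Y → Y → Γ} (hc : Cocycle K c)
    (hac : Acyc (twDeg (Γ := Γ) K) (twd K bs c)) :
    ∃ C : BCx co (Γ × NF K), C.deg = twDeg K ∧ C.d = twd K bs c ∧ C.UAcyc := by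
  classical
  obtain ⟨L0, hL0⟩ := hcoc
  have near : ∀ L : ℝ, ∃ S : Set (Γ × NF K), S.Finite ∧ ∀ (a : P) (γ : Γ) (b : Γ × NF K),
      co.Λ (γ • v) a ≤ L0 → co.Λ (b.1 • v) a ≤ L → (γ⁻¹ * b.1, b.2) ∈ S := fun L => by
    obtain ⟨L1, h1⟩ := co.tri (max L L0)
    refine ⟨_, (hprop L1 v v).prod (Set.finite_univ (α := NF K)), fun a γ b h2 h3 => ⟨?_, trivial⟩⟩
    have h4 := h1 _ a (γ • v) (h3.trans (le_max_left _ _))
      (co.symm _ _ ▸ h2.trans (le_max_right _ _))
    rwa [← hinv γ⁻¹, inv_smul_smul, smul_smul] at h4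
  refine ⟨⟨twDeg K, fun b => b.1 • v, twd K bs c, Fintype.card Y,
    fun b => (Nat.sub_le _ _).trans (Finset.card_le_univ _), twd_deg, twd_twd hK hbs hc,
    aug_twd hK, ?_, fun L => ?_, ⟨L0, fun a => ?_⟩⟩, rfl, rfl, fun L => ?_⟩
  · obtain ⟨L, M, -, h⟩ := TwBCx_bdd (Set.finite_univ (α := NF K))
      (fun S => twd K bs c (single ((1 : Γ), S) 1)) fun b => co.Λ (b.1 • v) v
    refine ⟨L, M, fun b => ?_⟩
    have e : twd K bs c (single b 1) = TwBCx_tr K b.1 (twd K bs c (single ((1 : Γ), b.2) 1)) := by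
      rw [← TwBCx_twd, TwBCx_single, mul_one]
    rw [e]
    refine ⟨fun b' hb' => ?_, (TwBCx_l1 _ _).trans (h b.2 trivial).2⟩
    obtain ⟨b'', h1, rfl⟩ := TwBCx_supp hb'
    change co.Λ ((b.1 * b''.1) • v) (b.1 • v) ≤ L
    rw [mul_smul, hinv]
    exact (h b.2 trivial).1 b'' h1
  · obtain ⟨S, hS, h⟩ := near L
    refine ⟨hS.toFinset.card, fun a => ?_⟩
    obtain ⟨γ, hγ⟩ := hL0 a
    refine ⟨hS.toFinset.image fun b => (γ * b.1, b.2), Finset.card_image_le, fun b hb => ?_⟩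
    exact Finset.mem_image.2 ⟨_, hS.mem_toFinset.2 (h a γ b hγ hb), by
      rw [mul_inv_cancel_left]⟩
  · obtain ⟨γ, hγ⟩ := hL0 a
    obtain ⟨y, hy⟩ := hne
    exact ⟨(γ, ⟨{y}, hy, Finset.singleton_nonempty y⟩), rfl, hγ⟩
  · obtain ⟨S, hS, h⟩ := near L
    choose φ hφ using TwBCx_fill hac
    obtain ⟨L2, M, hM, h2⟩ := TwBCx_bdd hS (fun b => φ (twDeg K b) (single b 1))
      fun b => co.Λ (b.1 • v) v
    obtain ⟨L3, h3⟩ := co.tri (max L2 L0)
    refine ⟨L3, M, fun a k z z1 z2 z3 z4 => ?_⟩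
    obtain ⟨γ, hγ⟩ := hL0 a
    have w1 := TwBCx_deg γ⁻¹ z1
    have w2 : ∀ b ∈ (TwBCx_tr K γ⁻¹ z).support, b ∈ S := fun b hb => by
      obtain ⟨b', h1, rfl⟩ := TwBCx_supp hb
      exact h a γ b' hγ (z2 b' h1)
    have w3 : twd K bs c (TwBCx_tr K γ⁻¹ z) = 0 := by
      rw [TwBCx_twd, show twd K bs c z = 0 from z3, map_zero]
    refine ⟨TwBCx_tr K γ (φ k (TwBCx_tr K γ⁻¹ z)), TwBCx_deg γ (hφ k _).1, fun b hb => ?_, ?_, ?_⟩
    · obtain ⟨b', h1, rfl⟩ := TwBCx_supp hb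
      obtain ⟨b'', h4, h5⟩ := mem_support_map _ h1
      refine h3 _ (γ • v) _ ?_ (hγ.trans (le_max_right _ _))
      change co.Λ ((γ * b'.1) • v) (γ • v) ≤ _
      rw [mul_smul, hinv]
      exact ((h2 b'' (w2 b'' h4)).1 b' (by rwa [w1 b'' h4])).trans (le_max_left _ _)
    · change twd K bs c _ = z
      rw [TwBCx_twd, (hφ k _).2 w1 w3 ((TwBCx_aug _ _).trans z4), TwBCx_inv]
    · refine (TwBCx_l1 _ _).trans ((l1_map_le _ _ fun b hb => ?_).trans
        (mul_le_mul_of_nonneg_left (TwBCx_l1 _ _) hM))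
      rw [← w1 b hb]
      exact (h2 b (w2 b hb)).2

end Pool.Agent.Work.MP_dd0bbc_gt
end

-- merged part: Pool.Agent.Work.MP_dd0bbc_gt.TeleAlg
section
/-! Algebra of the dyadic model. -/

set_option autoImplicit false

namespace Pool.Agent.Work.MP_dd0bbc_gt

open Finsupp

variable {d : ℕ}

theorem TeleAlg_ext {N : Type} [AddCommGroup N] [Module ℚ N] {φ ψ : (TB d →₀ ℚ) →ₗ[ℚ] N}
    (h : ∀ b, φ (single b 1) = ψ (single b 1)) (x : TB d →₀ ℚ) : φ x = ψ x :=
  LinearMap.congr_fun (lhom_ext' fun b => LinearMap.ext_ring (h b)) x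

theorem TeleAlg_er (i : Fin (d + 1)) (b : TB d) (a : ℚ) : tEr i (single b a) =
    if i ∈ b.2.2 then single (b.1, b.2.1, b.2.2.erase i) (a * (sgn i b.2.2 : ℚ)) else 0 := by
  rw [tEr, linearCombination_single]
  split_ifs <;> simp

theorem TeleAlg_sh (i : Fin d) (b : TB d) (a : ℚ) :
    tSh i (single b a) = single (b.1, b.2.1 + Pi.single i 1, b.2.2) a := by
  rw [tSh, lmapDomain_apply, mapDomain_single]

/-- One summand of the averaged map. -/
noncomputable def TeleAlg_r (ω : Fin d → Fin 2) : (TB d →₀ ℚ) →ₗ[ℚ] (TB d →₀ ℚ) :=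
  linearCombination ℚ (fun b =>
    if ∀ i : Fin d, i.succ ∈ b.2.2 → (b.2.1 i + (ω i : ℕ)) % 2 = 1 then
      single (b.1 + 1, fun i => (b.2.1 i + (ω i : ℕ)) / 2, b.2.2) ((1 / 2 : ℚ) ^ d) else 0)

theorem TeleAlg_r_single (ω : Fin d → Fin 2) (b : TB d) (a : ℚ) : TeleAlg_r ω (single b a) =
    if ∀ i : Fin d, i.succ ∈ b.2.2 → (b.2.1 i + (ω i : ℕ)) % 2 = 1 then
      single (b.1 + 1, fun i => (b.2.1 i + (ω i : ℕ)) / 2, b.2.2) (a * (1 / 2 : ℚ) ^ d) else 0 := by
  rw [TeleAlg_r, linearCombination_single]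
  split_ifs
  · rw [smul_single, smul_eq_mul]
  · rw [smul_zero]

theorem TeleAlg_up (x : TB d →₀ ℚ) : tUp x = ∑ ω, TeleAlg_r ω x := by
  rw [← LinearMap.sum_apply]
  refine TeleAlg_ext (fun b => ?_) x
  rw [LinearMap.sum_apply, tUp, linearCombination_single, one_smul]
  exact Finset.sum_congr rfl fun ω _ => by rw [TeleAlg_r_single, one_mul]

theorem TeleAlg_dh (x : TB d →₀ ℚ) : tdh x = ∑ i : Fin d, (tSh i (tEr i.succ x) - tEr i.succ x) := by
  rw [tdh, LinearMap.sum_apply]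
  rfl

theorem TeleAlg_d (x : TB d →₀ ℚ) : td x = tUp (tEr 0 x) - tEr 0 x + tdh x := rfl

theorem TeleAlg_er_er (i k : Fin (d + 1)) (x : TB d →₀ ℚ) : tEr i (tEr k x) = -tEr k (tEr i x) := by
  refine TeleAlg_ext (φ := tEr i ∘ₗ tEr k) (ψ := -(tEr k ∘ₗ tEr i)) (fun b => ?_) x
  simp only [LinearMap.comp_apply, LinearMap.neg_apply]
  rw [TeleAlg_er, TeleAlg_er]
  by_cases hik : i = k
  · subst hik
    split_ifs
    · rw [TeleAlg_er, if_neg (Finset.notMem_erase _ _), neg_zero]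
    · rw [map_zero, neg_zero]
  by_cases hi : i ∈ b.2.2 <;> by_cases hk : k ∈ b.2.2
  · rw [if_pos hi, if_pos hk, TeleAlg_er, TeleAlg_er, if_pos (Finset.mem_erase.2 ⟨hik, hi⟩),
      if_pos (Finset.mem_erase.2 ⟨Ne.symm hik, hk⟩), ← single_neg, one_mul, one_mul]
    have := congrArg (Int.cast : ℤ → ℚ) (sgn_anti_erase (Ne.symm hik) hk hi)
    push_cast at this
    rw [this, Finset.erase_right_comm]
  · rw [if_pos hi, if_neg hk, TeleAlg_er, if_neg fun h => hk (Finset.mem_of_mem_erase h),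
      map_zero, neg_zero]
  · rw [if_neg hi, if_pos hk, TeleAlg_er, if_neg fun h => hi (Finset.mem_of_mem_erase h),
      map_zero, neg_zero]
  · rw [if_neg hi, if_neg hk, map_zero, map_zero, neg_zero]

theorem TeleAlg_er_sh (i : Fin (d + 1)) (k : Fin d) (x : TB d →₀ ℚ) :
    tEr i (tSh k x) = tSh k (tEr i x) := by
  refine TeleAlg_ext (φ := tEr i ∘ₗ tSh k) (ψ := tSh k ∘ₗ tEr i) (fun b => ?_) x
  simp only [LinearMap.comp_apply]
  rw [TeleAlg_sh, TeleAlg_er, TeleAlg_er]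
  split_ifs
  · rw [TeleAlg_sh]
  · rw [map_zero]

theorem TeleAlg_sh_sh (i k : Fin d) (x : TB d →₀ ℚ) : tSh i (tSh k x) = tSh k (tSh i x) := by
  refine TeleAlg_ext (φ := tSh i ∘ₗ tSh k) (ψ := tSh k ∘ₗ tSh i) (fun b => ?_) x
  simp only [LinearMap.comp_apply, TeleAlg_sh]
  rw [add_right_comm]

theorem TeleAlg_r_dir (ω : Fin d → Fin 2) (i : Fin d) (x : TB d →₀ ℚ) :
    tSh i (tEr i.succ (TeleAlg_r ω x)) - tEr i.succ (TeleAlg_r ω x) =
      TeleAlg_r ω (tSh i (tEr i.succ x) - tEr i.succ x) := by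
  refine TeleAlg_ext (φ := ((tSh i - LinearMap.id) ∘ₗ tEr i.succ) ∘ₗ TeleAlg_r ω)
    (ψ := TeleAlg_r ω ∘ₗ ((tSh i - LinearMap.id) ∘ₗ tEr i.succ)) (fun b => ?_) x
  obtain ⟨l, y, S⟩ := b
  simp only [LinearMap.comp_apply, LinearMap.sub_apply, LinearMap.id_apply, map_sub]
  by_cases hi : i.succ ∈ S
  swap
  · rw [TeleAlg_er _ (l, y, S), if_neg hi, TeleAlg_r_single]
    split_ifs
    · rw [TeleAlg_er, if_neg hi]
      simp
    · simp
  have hc : (∀ j : Fin d, j.succ ∈ S.erase i.succ →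
      ((y + Pi.single i 1 : Fin d → ℤ) j + (ω j : ℕ)) % 2 = 1) ↔
      ∀ j : Fin d, j.succ ∈ S.erase i.succ → (y j + (ω j : ℕ)) % 2 = 1 := by
    refine forall_congr' fun j => imp_congr_right fun hj => ?_
    have : j ≠ i := fun e => (Finset.mem_erase.1 hj).1 (by rw [e])
    rw [Pi.add_apply, Pi.single_eq_of_ne this, add_zero]
  rw [TeleAlg_er _ (l, y, S), if_pos hi, TeleAlg_sh, TeleAlg_r_single, TeleAlg_r_single,
    TeleAlg_r_single]
  simp only [hc]
  by_cases h1 : ∀ j : Fin d, j.succ ∈ S → (y j + (ω j : ℕ)) % 2 = 1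
  · have h2 : ∀ j : Fin d, j.succ ∈ S.erase i.succ → (y j + (ω j : ℕ)) % 2 = 1 :=
      fun j hj => h1 j (Finset.mem_of_mem_erase hj)
    rw [if_pos h1, if_pos h2, if_pos h2, TeleAlg_er, if_pos hi, TeleAlg_sh]
    have h3 : (fun j => ((y + Pi.single i 1 : Fin d → ℤ) j + (ω j : ℕ)) / 2) =
        (fun j => (y j + (ω j : ℕ)) / 2) + Pi.single i 1 := by
      funext j
      rw [Pi.add_apply, Pi.add_apply]
      by_cases e : j = i
      · subst e
        have := h1 j hi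
        rw [Pi.single_eq_same]
        omega
      · rw [Pi.single_eq_of_ne e, add_zero, add_zero]
    rw [h3, one_mul, one_mul, mul_comm]
  · rw [if_neg h1, map_zero, map_zero, sub_zero]
    split_ifs with h2
    · have h3 : (fun j => ((y + Pi.single i 1 : Fin d → ℤ) j + (ω j : ℕ)) / 2) =
          (fun j => (y j + (ω j : ℕ)) / 2) := by
        funext j
        rw [Pi.add_apply]
        by_cases e : j = i
        · subst e
          have : ¬ (y j + (ω j : ℕ)) % 2 = 1 := fun h => h1 fun k hk => by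
            by_cases e : k = j
            · rwa [e]
            · exact h2 k (Finset.mem_erase.2 ⟨fun h' => e (Fin.succ_injective _ h'), hk⟩)
          rw [Pi.single_eq_same]
          omega
        · rw [Pi.single_eq_of_ne e, add_zero]
      rw [h3, sub_self]
    · rw [sub_zero]

theorem TeleAlg_aug (b : TB d) (a : ℚ) :
    augD tDeg (single b a) = if b.2.2.card = 0 then a else 0 := by
  rw [augD, linearCombination_single, tDeg]
  split_ifs <;> simp

theorem TeleAlg_card : ∑ _ω : Fin d → Fin 2, (1 / 2 : ℚ) ^ d = 1 := by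
  rw [Finset.sum_const, Finset.card_univ, Fintype.card_fun, Fintype.card_fin, Fintype.card_fin,
    nsmul_eq_mul, Nat.cast_pow, ← mul_pow]
  norm_num

/-- Prescribing the parity in the directions of `S`. -/
theorem TeleAlg_count (S : Finset (Fin (d + 1))) (p : Fin d → Fin 2 → Prop)
    [∀ i a, Decidable (p i a)] (hp : ∀ i, ¬ (p i 0 ∧ p i 1)) :
    ∑ ω : Fin d → Fin 2, (if ∀ i : Fin d, i.succ ∈ S → p i (ω i) then (1 / 2 : ℚ) ^ d else 0) ≤
      (1 / 2) ^ (S.card - 1) := by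
  have h1 : ∀ ω : Fin d → Fin 2,
      (if ∀ i : Fin d, i.succ ∈ S → p i (ω i) then (1 / 2 : ℚ) ^ d else 0) =
        ∏ i : Fin d, if i.succ ∈ S → p i (ω i) then (1 / 2 : ℚ) else 0 := by
    intro ω
    rw [Fintype.prod_ite_zero, Finset.prod_const, Finset.card_univ, Fintype.card_fin]
    congr
  have h2 : S.card - 1 ≤ (Finset.univ.filter fun i : Fin d => i.succ ∈ S).card := by
    have h3 : S ⊆ insert 0 ((Finset.univ.filter fun i : Fin d => i.succ ∈ S).image Fin.succ) := by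
      intro j hj
      rcases Fin.eq_zero_or_eq_succ j with rfl | ⟨i, rfl⟩
      · exact Finset.mem_insert_self _ _
      · exact Finset.mem_insert_of_mem
          (Finset.mem_image_of_mem _ (Finset.mem_filter.2 ⟨Finset.mem_univ _, hj⟩))
    have h4 := (Finset.card_le_card h3).trans (Finset.card_insert_le _ _)
    have h5 := Finset.card_image_le (s := Finset.univ.filter fun i : Fin d => i.succ ∈ S)
      (f := Fin.succ)
    omega
  rw [Finset.sum_congr rfl fun ω _ => h1 ω, ← Fintype.piFinset_univ,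
    ← Finset.prod_univ_sum (fun _ => Finset.univ)
      (fun (i : Fin d) (a : Fin 2) => if i.succ ∈ S → p i a then (1 / 2 : ℚ) else 0)]
  refine le_trans (Finset.prod_le_prod (g := fun i : Fin d => if i.succ ∈ S then (1 / 2 : ℚ) else 1)
    (fun i _ => Finset.sum_nonneg fun a _ => by split_ifs <;> norm_num) fun i _ => ?_) ?_
  · rw [Fin.sum_univ_two]
    have := hp i
    by_cases h : i.succ ∈ S <;> by_cases h0 : p i 0 <;> by_cases h1 : p i 1 <;>
      simp only [h, h0, h1, and_self, not_true, forall_const, if_true, if_false, false_imp_iff,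
        imp_false, not_true] at this ⊢ <;> norm_num
  · rw [Finset.prod_ite, Finset.prod_const_one, mul_one, Finset.prod_const]
    exact pow_le_pow_of_le_one (by norm_num) (by norm_num) h2

theorem TeleAlg_col (b : TB d) : l1 (tUp (single b 1)) ≤ (1 / 2) ^ (tDeg b - 1) := by
  rw [TeleAlg_up]
  refine (l1_sum_le _ _).trans (le_trans (le_of_eq (Finset.sum_congr rfl fun ω _ => ?_))
    (TeleAlg_count b.2.2 (fun i a => (b.2.1 i + (a : ℕ)) % 2 = 1) fun i h => ?_))
  · rw [TeleAlg_r_single]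
    split_ifs
    · rw [l1_single, one_mul, abs_of_nonneg (by positivity)]
    · exact sum_zero_index
  · have h0 := h.1
    have h1 := h.2
    simp only [Fin.val_zero, Fin.val_one] at h0 h1
    omega

theorem TeleAlg_row {k : ℕ} (s : Finset (TB d)) (hs : ∀ b ∈ s, tDeg b = k) (ω : Fin d → Fin 2)
    (b' : TB d) : ∑ b ∈ s, |TeleAlg_r ω (single b 1) b'| ≤ (1 / 2) ^ (k - 1) := by
  classical
  let t := s.filter fun b : TB d =>
    (∀ i : Fin d, i.succ ∈ b.2.2 → (b.2.1 i + (ω i : ℕ)) % 2 = 1) ∧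
      ((b.1 + 1, fun i => (b.2.1 i + (ω i : ℕ)) / 2, b.2.2) : TB d) = b'
  have h1 : ∑ b ∈ s, |TeleAlg_r ω (single b 1) b'| = ∑ _b ∈ t, (1 / 2 : ℚ) ^ d := by
    rw [Finset.sum_filter]
    refine Finset.sum_congr rfl fun b _ => ?_
    rw [TeleAlg_r_single, ite_and]
    split_ifs with h2 h3
    · rw [h3, single_eq_same, one_mul, abs_of_nonneg (by positivity)]
    · rw [single_eq_of_ne (Ne.symm h3), abs_zero]
    · rw [Finsupp.zero_apply, abs_zero]
  rw [h1]
  rcases t.eq_empty_or_nonempty with h | ⟨b0, hb0⟩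
  · rw [h, Finset.sum_empty]
    positivity
  have hk : b'.2.2.card = k := by
    obtain ⟨h2, -, rfl⟩ := Finset.mem_filter.1 hb0
    exact hs b0 h2
  refine le_trans ?_ (hk ▸ TeleAlg_count b'.2.2 (fun _ a => a = 1) fun _ h => absurd h.1 (by decide))
  rw [← Finset.sum_filter, Finset.sum_const, Finset.sum_const]
  refine nsmul_le_nsmul_left (by positivity) (le_trans (Finset.card_le_card ?_)
    (Finset.card_image_le (f := fun ε : Fin d → Fin 2 =>
      ((b'.1 - 1, fun i => 2 * b'.2.1 i + (ε i : ℕ) - (ω i : ℕ), b'.2.2) : TB d))))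
  intro b hb
  obtain ⟨-, h2, rfl⟩ := Finset.mem_filter.1 hb
  refine Finset.mem_image.2 ⟨fun i => if (b.2.1 i + (ω i : ℕ)) % 2 = 1 then 1 else 0,
    Finset.mem_filter.2 ⟨Finset.mem_univ _, fun i hi => if_pos (h2 i hi)⟩, ?_⟩
  refine Prod.ext (add_sub_cancel_right _ _) (Prod.ext (funext fun i => ?_) rfl)
  simp only
  split_ifs with h3
  · rw [Fin.val_one]
    omega
  · rw [Fin.val_zero]
    omega

theorem tdh_tdh (x : TB d →₀ ℚ) : tdh (tdh x) = 0 := by
  have h1 : tdh (tdh x) = ∑ i : Fin d, ∑ k : Fin d,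
      (tSh i (tSh k (tEr i.succ (tEr k.succ x))) - tSh i (tEr i.succ (tEr k.succ x)) -
        (tSh k (tEr i.succ (tEr k.succ x)) - tEr i.succ (tEr k.succ x))) := by
    rw [TeleAlg_dh, TeleAlg_dh]
    simp only [map_sum, map_sub, TeleAlg_er_sh, Finset.sum_sub_distrib]
  have h2 : tdh (tdh x) = -tdh (tdh x) := by
    conv_rhs => rw [h1, Finset.sum_comm]
    rw [h1, ← Finset.sum_neg_distrib]
    refine Finset.sum_congr rfl fun i _ => ?_
    rw [← Finset.sum_neg_distrib]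
    refine Finset.sum_congr rfl fun k _ => ?_
    rw [TeleAlg_er_er i.succ k.succ, TeleAlg_sh_sh k i]
    simp only [map_neg]
    abel
  ext b
  have := DFunLike.congr_fun h2 b
  rw [Finsupp.neg_apply] at this
  rw [Finsupp.zero_apply]
  linarith

theorem tdh_tUp (x : TB d →₀ ℚ) : tdh (tUp x) = tUp (tdh x) := by
  rw [TeleAlg_up, TeleAlg_up, map_sum]
  refine Finset.sum_congr rfl fun ω _ => ?_
  rw [TeleAlg_dh, TeleAlg_dh, map_sum]
  exact Finset.sum_congr rfl fun i _ => TeleAlg_r_dir ω i x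

theorem tEr_zero_tUp (x : TB d →₀ ℚ) : tEr 0 (tUp x) = tUp (tEr 0 x) := by
  rw [TeleAlg_up, TeleAlg_up, map_sum]
  refine Finset.sum_congr rfl fun ω _ => ?_
  refine TeleAlg_ext (φ := tEr 0 ∘ₗ TeleAlg_r ω) (ψ := TeleAlg_r ω ∘ₗ tEr 0) (fun b => ?_) x
  simp only [LinearMap.comp_apply]
  rw [TeleAlg_r_single, TeleAlg_er]
  by_cases h0 : 0 ∈ b.2.2
  · rw [if_pos h0, TeleAlg_r_single]
    simp only [Finset.mem_erase, ne_eq, Fin.succ_ne_zero, not_false_eq_true, true_and]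
    split_ifs
    · rw [TeleAlg_er, if_pos h0, one_mul, one_mul, mul_comm]
    · rw [map_zero]
  · rw [if_neg h0, map_zero]
    split_ifs
    · rw [TeleAlg_er, if_neg h0]
    · rw [map_zero]

theorem tEr_zero_tdh (x : TB d →₀ ℚ) : tEr 0 (tdh x) = -tdh (tEr 0 x) := by
  rw [TeleAlg_dh, TeleAlg_dh, map_sum, ← Finset.sum_neg_distrib]
  refine Finset.sum_congr rfl fun i _ => ?_
  rw [map_sub, TeleAlg_er_sh, TeleAlg_er_er 0 i.succ, map_neg]
  abel

theorem tEr_tEr (i : Fin (d + 1)) (x : TB d →₀ ℚ) : tEr i (tEr i x) = 0 := by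
  ext b
  have := DFunLike.congr_fun (TeleAlg_er_er i i x) b
  rw [Finsupp.neg_apply] at this
  rw [Finsupp.zero_apply]
  linarith

theorem td_td (x : TB d →₀ ℚ) : td (td x) = 0 := by
  rw [TeleAlg_d (td x), TeleAlg_d x]
  simp only [map_add, map_sub, map_neg, map_zero, tEr_zero_tUp, tEr_tEr, tEr_zero_tdh, tdh_tUp,
    tdh_tdh]
  abel

theorem td_tUp (x : TB d →₀ ℚ) : td (tUp x) = tUp (td x) := by
  rw [TeleAlg_d, TeleAlg_d, tEr_zero_tUp, tdh_tUp, map_add, map_sub]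

theorem aug_tUp (x : TB d →₀ ℚ) : augD tDeg (tUp x) = augD tDeg x := by
  refine TeleAlg_ext (φ := augD tDeg ∘ₗ tUp) (fun b => ?_) x
  rw [LinearMap.comp_apply, TeleAlg_up, map_sum, TeleAlg_aug]
  split_ifs with h
  · rw [← TeleAlg_card (d := d)]
    refine Finset.sum_congr rfl fun ω _ => ?_
    rw [TeleAlg_r_single, if_pos, TeleAlg_aug, if_pos h, TeleAlg_card, one_mul]
    intro i hi
    rw [Finset.card_eq_zero.1 h] at hi
    exact absurd hi (Finset.notMem_empty _)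
  · refine Finset.sum_eq_zero fun ω _ => ?_
    rw [TeleAlg_r_single]
    split_ifs
    · rw [TeleAlg_aug, if_neg h]
    · rw [map_zero]

theorem aug_td (x : TB d →₀ ℚ) : augD tDeg (td x) = 0 := by
  have h : ∀ (i : Fin d) (y : TB d →₀ ℚ), augD tDeg (tSh i y) = augD tDeg y := fun i y =>
    TeleAlg_ext (φ := augD tDeg ∘ₗ tSh i) (fun b => by
      rw [LinearMap.comp_apply, TeleAlg_sh, TeleAlg_aug, TeleAlg_aug]) y
  rw [TeleAlg_d, TeleAlg_dh]
  simp only [map_add, map_sub, map_sum, aug_tUp, h, sub_self, Finset.sum_const_zero, add_zero]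

theorem td_deg (b : TB d) : ∀ b' ∈ (td (single b 1)).support, tDeg b' + 1 = tDeg b := by
  have h1 : ∀ (c : TB d) (a : ℚ), c.2.2.card + 1 = tDeg b →
      single c a ∈ supported ℚ ℚ {b' : TB d | tDeg b' + 1 = tDeg b} := fun c a h =>
    single_mem_supported ℚ a h
  have h : td (single b 1) ∈ supported ℚ ℚ {b' : TB d | tDeg b' + 1 = tDeg b} := by
    rw [TeleAlg_d, TeleAlg_dh, TeleAlg_up]
    refine add_mem ?_ (sum_mem fun i _ => ?_)
    · rw [TeleAlg_er]
      split_ifs with h0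
      · refine sub_mem (sum_mem fun ω _ => ?_) (h1 _ _ (Finset.card_erase_add_one h0))
        rw [TeleAlg_r_single]
        split_ifs
        · exact h1 _ _ (Finset.card_erase_add_one h0)
        · exact zero_mem _
      · simp only [map_zero, Finset.sum_const_zero, sub_zero, zero_mem]
    · rw [TeleAlg_er]
      split_ifs with h0
      · rw [TeleAlg_sh]
        exact sub_mem (h1 _ _ (Finset.card_erase_add_one h0))
          (h1 _ _ (Finset.card_erase_add_one h0))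
      · simp only [map_zero, sub_zero, zero_mem]
  exact fun b' hb' => (mem_supported ℚ _).1 h hb'

theorem tUp_support (b : TB d) : ∀ b' ∈ (tUp (single b 1)).support,
    b'.1 = b.1 + 1 ∧ b'.2.2 = b.2.2 ∧ ∀ i, |2 * b'.2.1 i - b.2.1 i| ≤ 1 := by
  have h : tUp (single b 1) ∈ supported ℚ ℚ {b' : TB d |
      b'.1 = b.1 + 1 ∧ b'.2.2 = b.2.2 ∧ ∀ i, |2 * b'.2.1 i - b.2.1 i| ≤ 1} := by
    rw [TeleAlg_up]
    refine sum_mem fun ω _ => ?_
    rw [TeleAlg_r_single]
    split_ifs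
    · refine single_mem_supported ℚ _ ⟨rfl, rfl, fun i => ?_⟩
      have := (ω i).2
      rw [abs_le]
      simp only
      omega
    · exact zero_mem _
  exact fun b' hb' => (mem_supported ℚ _).1 h hb'

theorem l1_tUp (x : TB d →₀ ℚ) : l1 (tUp x) ≤ l1 x := by
  have := l1_map_le tUp (M := 1) x fun b _ =>
    (TeleAlg_col b).trans (pow_le_one₀ (by norm_num) (by norm_num))
  rwa [one_mul] at this

theorem n2_tUp {k : ℕ} (hk : d + 3 ≤ 2 * k) (x : TB d →₀ ℚ) (hx : InDeg tDeg k x) :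
    n2 (tUp x) ≤ 1 / 2 * n2 x := by
  have h := schur_test tUp x (M := (1 / 2) ^ (k - 1)) (M' := 2 ^ d * (1 / 2) ^ (k - 1))
    (by positivity) (fun b hb => hx b hb ▸ TeleAlg_col b) fun b' => by
      calc ∑ b ∈ x.support, |tUp (single b 1) b'|
          ≤ ∑ b ∈ x.support, ∑ ω, |TeleAlg_r ω (single b 1) b'| :=
            Finset.sum_le_sum fun b _ => by
              rw [TeleAlg_up, finsetSum_apply]
              exact Finset.abs_sum_le_sum_abs _ _
        _ ≤ ∑ _ω : Fin d → Fin 2, (1 / 2 : ℚ) ^ (k - 1) := by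
            rw [Finset.sum_comm]
            exact Finset.sum_le_sum fun ω _ => TeleAlg_row _ hx ω b'
        _ = _ := by
            rw [Finset.sum_const, Finset.card_univ, Fintype.card_fun, Fintype.card_fin,
              Fintype.card_fin, nsmul_eq_mul, Nat.cast_pow, Nat.cast_ofNat]
  refine h.trans (mul_le_mul_of_nonneg_right ?_ (n2_nonneg x))
  have h1 : (1 / 2 : ℚ) ^ (k - 1 + (k - 1)) ≤ (1 / 2) ^ (d + 1) :=
    pow_le_pow_of_le_one (by norm_num) (by norm_num) (by omega)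
  have h2 : (2 : ℚ) ^ d * (1 / 2) ^ (d + 1) = 1 / 2 := by
    rw [pow_succ, ← mul_assoc, ← mul_pow]
    norm_num
  rw [mul_left_comm, ← pow_add, ← h2]
  exact mul_le_mul_of_nonneg_left (by rwa [h2]) (by positivity)

end Pool.Agent.Work.MP_dd0bbc_gt
end

-- merged part: Pool.Agent.Work.MP_dd0bbc_gt.TeleAcyc
section
/-! Fillings in the dyadic model. -/

set_option autoImplicit false

namespace Pool.Agent.Work.MP_dd0bbc_gt

open Finsupp

variable {d : ℕ}

theorem TeleAcyc_supp {φ : (TB d →₀ ℚ) →ₗ[ℚ] (TB d →₀ ℚ)} {S S' : Set (TB d)}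
    (h : ∀ b ∈ S, φ (single b 1) ∈ supported ℚ ℚ S') {x : TB d →₀ ℚ}
    (hx : x ∈ supported ℚ ℚ S) : φ x ∈ supported ℚ ℚ S' := by
  rw [TwBasic_map_eq φ x]
  exact sum_mem fun b hb => Submodule.smul_mem _ _ (h b ((mem_supported ℚ _).1 hx hb))

theorem TeleAcyc_l1_neg (x : TB d →₀ ℚ) : l1 (-x) = l1 x := by
  rw [← neg_one_smul ℚ x, l1_smul]; simp

theorem TeleAcyc_l1_sub (x y : TB d →₀ ℚ) : l1 (x - y) ≤ l1 x + l1 y := by
  rw [sub_eq_add_neg, ← TeleAcyc_l1_neg y]; exact l1_add_le _ _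

theorem TeleAcyc_l1_zero : l1 (0 : TB d →₀ ℚ) = 0 := sum_zero_index

theorem TeleAcyc_abs_sgn (i : Fin (d + 1)) (A : Finset (Fin (d + 1))) : |(sgn i A : ℚ)| = 1 := by
  rcases sgn_eq_or i A with e | e <;> simp [e]

/-- Inserting a direction. -/
noncomputable def TeleAcyc_in (i : Fin (d + 1)) : (TB d →₀ ℚ) →ₗ[ℚ] (TB d →₀ ℚ) :=
  linearCombination ℚ (fun b =>
    if i ∈ b.2.2 then 0 else single (b.1, b.2.1, insert i b.2.2) (sgn i b.2.2 : ℚ))

theorem TeleAcyc_in_single (i : Fin (d + 1)) (b : TB d) (a : ℚ) : TeleAcyc_in i (single b a) =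
    if i ∈ b.2.2 then 0 else single (b.1, b.2.1, insert i b.2.2) (a * (sgn i b.2.2 : ℚ)) := by
  rw [TeleAcyc_in, linearCombination_single]
  split_ifs <;> simp

theorem TeleAcyc_er_in (i : Fin (d + 1)) (b : TB d) (a : ℚ) :
    tEr i (TeleAcyc_in i (single b a)) = if i ∈ b.2.2 then 0 else single b a := by
  rw [TeleAcyc_in_single]
  split_ifs with h
  · rw [map_zero]
  · rw [TeleAlg_er, if_pos (Finset.mem_insert_self _ _)]
    simp only [Finset.erase_insert h, sgn_insert_self]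
    rw [mul_assoc, sgn_cast_mul_self, mul_one]

theorem TeleAcyc_er_in_add (i : Fin (d + 1)) (x : TB d →₀ ℚ) :
    tEr i (TeleAcyc_in i x) + TeleAcyc_in i (tEr i x) = x := by
  refine TeleAlg_ext (φ := tEr i ∘ₗ TeleAcyc_in i + TeleAcyc_in i ∘ₗ tEr i) (ψ := LinearMap.id)
    (fun b => ?_) x
  simp only [LinearMap.add_apply, LinearMap.comp_apply, LinearMap.id_apply]
  rw [TeleAcyc_er_in, TeleAlg_er]
  split_ifs with h
  · rw [TeleAcyc_in_single, if_neg (Finset.notMem_erase _ _)]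
    simp only [Finset.insert_erase h, sgn_erase_self]
    rw [mul_assoc, sgn_cast_mul_self, mul_one, zero_add]
  · rw [map_zero, add_zero]

theorem TeleAcyc_er_in_ne {i k : Fin (d + 1)} (h : k ≠ i) (x : TB d →₀ ℚ) :
    tEr k (TeleAcyc_in i x) = -TeleAcyc_in i (tEr k x) := by
  refine TeleAlg_ext (φ := tEr k ∘ₗ TeleAcyc_in i) (ψ := -(TeleAcyc_in i ∘ₗ tEr k))
    (fun b => ?_) x
  simp only [LinearMap.comp_apply, LinearMap.neg_apply]
  rw [TeleAcyc_in_single, TeleAlg_er]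
  by_cases hi : i ∈ b.2.2 <;> by_cases hk : k ∈ b.2.2
  · rw [if_pos hi, if_pos hk, TeleAcyc_in_single, if_pos (Finset.mem_erase.2 ⟨h.symm, hi⟩),
      map_zero, neg_zero]
  · rw [if_pos hi, if_neg hk, map_zero, map_zero, neg_zero]
  · rw [if_neg hi, if_pos hk, TeleAcyc_in_single, TeleAlg_er,
      if_pos (Finset.mem_insert_of_mem hk), if_neg fun h' => hi (Finset.mem_of_mem_erase h'),
      ← single_neg, one_mul, one_mul]
    have h1 := sgn_anti_erase h.symm (Finset.mem_insert_self i b.2.2) (Finset.mem_insert_of_mem hk)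
    rw [Finset.erase_insert hi, Finset.erase_insert_of_ne h.symm, sgn_insert_self,
      sgn_insert_self] at h1
    have h2 := congrArg (Int.cast : ℤ → ℚ) h1
    push_cast at h2
    have h3 := sgn_cast_mul_self ℚ k b.2.2
    have h4 := sgn_cast_mul_self ℚ k (insert i b.2.2)
    simp only [Finset.erase_insert_of_ne h.symm]
    congr 1
    linear_combination (sgn k b.2.2 * sgn k (insert i b.2.2) : ℚ) * h2 -
      (sgn i b.2.2 * sgn k (insert i b.2.2) : ℚ) * h3 -
      (sgn k b.2.2 * sgn i (b.2.2.erase k) : ℚ) * h4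
  · rw [if_neg hi, if_neg hk, TeleAlg_er, if_neg, map_zero, neg_zero]
    simp [h, hk]

theorem TeleAcyc_sh_in (k : Fin d) (i : Fin (d + 1)) (x : TB d →₀ ℚ) :
    tSh k (TeleAcyc_in i x) = TeleAcyc_in i (tSh k x) := by
  refine TeleAlg_ext (φ := tSh k ∘ₗ TeleAcyc_in i) (ψ := TeleAcyc_in i ∘ₗ tSh k) (fun b => ?_) x
  simp only [LinearMap.comp_apply]
  rw [TeleAlg_sh, TeleAcyc_in_single, TeleAcyc_in_single]
  split_ifs
  · rw [map_zero]
  · rw [TeleAlg_sh]

theorem TeleAcyc_l1_in (i : Fin (d + 1)) (x : TB d →₀ ℚ) : l1 (TeleAcyc_in i x) ≤ l1 x := by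
  have := l1_map_le (TeleAcyc_in i) (M := 1) x fun b _ => by
    rw [TeleAcyc_in_single]
    split_ifs
    · rw [TeleAcyc_l1_zero]; norm_num
    · rw [l1_single, one_mul, TeleAcyc_abs_sgn]
  rwa [one_mul] at this

theorem TeleAcyc_aug_dh (x : TB d →₀ ℚ) : augD tDeg (tdh x) = 0 := by
  have := aug_td x
  rwa [TeleAlg_d, map_add, map_sub, aug_tUp, sub_self, zero_add] at this

/-- Signed sum from `c` to `x`. -/
noncomputable def TeleAcyc_ps {V : Type} [AddCommGroup V] (u : ℤ → V) (c x : ℤ) : V :=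
  ∑ t ∈ Finset.Ico c x, u t - ∑ t ∈ Finset.Ico x c, u t

theorem TeleAcyc_ps_succ {V : Type} [AddCommGroup V] (u : ℤ → V) (c x : ℤ) :
    TeleAcyc_ps u c (x + 1) = TeleAcyc_ps u c x + u x := by
  unfold TeleAcyc_ps
  rcases le_or_gt c x with h | h
  · have e : Finset.Ico c (x + 1) = insert x (Finset.Ico c x) := by
      ext t; simp only [Finset.mem_Ico, Finset.mem_insert]; omega
    rw [e, Finset.sum_insert (by simp), Finset.Ico_eq_empty (a := x + 1) (by omega),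
      Finset.Ico_eq_empty (a := x) (b := c) (by omega)]
    abel
  · have e : Finset.Ico x c = insert x (Finset.Ico (x + 1) c) := by
      ext t; simp only [Finset.mem_Ico, Finset.mem_insert]; omega
    rw [e, Finset.sum_insert (by simp), Finset.Ico_eq_empty (a := c) (b := x + 1) (by omega),
      Finset.Ico_eq_empty (a := c) (b := x) (by omega)]
    abel

theorem TeleAcyc_ps_tel {V : Type} [AddCommGroup V] (u : ℤ → V) (c x : ℤ) :
    TeleAcyc_ps (fun t => u (t + 1)) c x - TeleAcyc_ps u c x = u x - u c := by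
  induction x using Int.inductionOn' (b := c) with
  | zero => simp [TeleAcyc_ps]
  | succ k _ ih => rw [TeleAcyc_ps_succ, TeleAcyc_ps_succ]; linear_combination (norm := abel) ih
  | pred k _ ih =>
    have h1 := TeleAcyc_ps_succ (fun t => u (t + 1)) c (k - 1)
    have h2 := TeleAcyc_ps_succ u c (k - 1)
    simp only [sub_add_cancel] at h1 h2
    rw [h1, h2] at ih
    linear_combination (norm := abel) ih

theorem TeleAcyc_ps_map {V V' : Type} [AddCommGroup V] [AddCommGroup V'] [Module ℚ V] [Module ℚ V']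
    (φ : V →ₗ[ℚ] V') (u : ℤ → V) (c x : ℤ) :
    φ (TeleAcyc_ps u c x) = TeleAcyc_ps (fun t => φ (u t)) c x := by
  simp only [TeleAcyc_ps, map_sub, map_sum]

/-- The path to the base hyperplane. -/
noncomputable def TeleAcyc_g (i : Fin d) (c : ℤ) : (TB d →₀ ℚ) →ₗ[ℚ] (TB d →₀ ℚ) :=
  linearCombination ℚ (fun b =>
    TeleAcyc_ps (fun t => single (b.1, Function.update b.2.1 i t, b.2.2) (1 : ℚ)) c (b.2.1 i))

theorem TeleAcyc_g_single (i : Fin d) (c : ℤ) (b : TB d) (a : ℚ) : TeleAcyc_g i c (single b a) =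
    TeleAcyc_ps (fun t => single (b.1, Function.update b.2.1 i t, b.2.2) a) c (b.2.1 i) := by
  rw [TeleAcyc_g, linearCombination_single]
  simp [TeleAcyc_ps, smul_sub, Finset.smul_sum]

theorem TeleAcyc_er_g (k : Fin (d + 1)) (i : Fin d) (c : ℤ) (x : TB d →₀ ℚ) :
    tEr k (TeleAcyc_g i c x) = TeleAcyc_g i c (tEr k x) := by
  refine TeleAlg_ext (φ := tEr k ∘ₗ TeleAcyc_g i c) (ψ := TeleAcyc_g i c ∘ₗ tEr k) (fun b => ?_) x
  simp only [LinearMap.comp_apply]
  rw [TeleAcyc_g_single, TeleAcyc_ps_map, TeleAlg_er]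
  simp only [TeleAlg_er]
  split_ifs
  · rw [TeleAcyc_g_single]
  · simp [TeleAcyc_ps]

theorem TeleAcyc_sh_g {k i : Fin d} (h : k ≠ i) (c : ℤ) (x : TB d →₀ ℚ) :
    tSh k (TeleAcyc_g i c x) = TeleAcyc_g i c (tSh k x) := by
  refine TeleAlg_ext (φ := tSh k ∘ₗ TeleAcyc_g i c) (ψ := TeleAcyc_g i c ∘ₗ tSh k) (fun b => ?_) x
  simp only [LinearMap.comp_apply]
  rw [TeleAcyc_g_single, TeleAcyc_ps_map, TeleAlg_sh, TeleAcyc_g_single]
  simp only [TeleAlg_sh, Pi.add_apply, Pi.single_eq_of_ne h.symm, add_zero]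
  congr 1
  funext t
  congr 3
  funext l
  by_cases e : l = i
  · subst e; simp [h.symm]
  · simp [e]

theorem TeleAcyc_g_sh (i : Fin d) (c : ℤ) (x : TB d →₀ ℚ) :
    TeleAcyc_g i c (tSh i x) - TeleAcyc_g i c x = x := by
  refine TeleAlg_ext (φ := TeleAcyc_g i c ∘ₗ tSh i - TeleAcyc_g i c) (ψ := LinearMap.id)
    (fun b => ?_) x
  simp only [LinearMap.comp_apply, LinearMap.sub_apply, LinearMap.id_apply]
  rw [TeleAlg_sh, TeleAcyc_g_single, TeleAcyc_g_single]
  have e : ∀ t, Function.update (b.2.1 + Pi.single i 1) i t = Function.update b.2.1 i t := by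
    intro t
    funext l
    by_cases e : l = i
    · subst e; simp
    · simp [e]
  simp only [e, Pi.add_apply, Pi.single_eq_same, TeleAcyc_ps_succ, Function.update_eq_self,
    add_sub_cancel_left]

theorem TeleAcyc_sh_g_same (i : Fin d) (c : ℤ) (b : TB d) :
    tSh i (TeleAcyc_g i c (single b 1)) - TeleAcyc_g i c (single b 1) =
      single b 1 - single (b.1, Function.update b.2.1 i c, b.2.2) 1 := by
  rw [TeleAcyc_g_single, TeleAcyc_ps_map]
  have e : ∀ t, Function.update b.2.1 i t + Pi.single i 1 = Function.update b.2.1 i (t + 1) := by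
    intro t
    funext l
    by_cases e : l = i
    · subst e; simp
    · simp [e]
  simp only [TeleAlg_sh, e]
  rw [TeleAcyc_ps_tel (fun t => single (b.1, Function.update b.2.1 i t, b.2.2) (1 : ℚ))]
  simp

/-- The homotopy formula in one direction. -/
theorem TeleAcyc_homot (i : Fin d) (c : ℤ) (b : TB d) :
    single b 1 - tdh (TeleAcyc_in i.succ (TeleAcyc_g i c (single b 1))) -
      TeleAcyc_in i.succ (TeleAcyc_g i c (tdh (single b 1))) =
      if i.succ ∈ b.2.2 then 0 else single (b.1, Function.update b.2.1 i c, b.2.2) 1 := by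
  rw [TeleAlg_dh, TeleAlg_dh, map_sum, map_sum, sub_sub, ← Finset.sum_add_distrib,
    Finset.sum_eq_single i]
  · rw [map_sub (TeleAcyc_g i c), TeleAcyc_g_sh, ← TeleAlg_er_sh, TeleAcyc_sh_in, ← map_sub,
      ← map_sub, TeleAcyc_sh_g_same, map_sub, map_sub, ← TeleAcyc_er_in i.succ
        (b.1, Function.update b.2.1 i c, b.2.2) 1]
    linear_combination (norm := abel) -TeleAcyc_er_in_add i.succ (single b (1 : ℚ))
  · intro k _ hk
    rw [TeleAcyc_er_in_ne fun e => hk (Fin.succ_injective _ e), map_neg, TeleAcyc_sh_in,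
      TeleAcyc_er_g, TeleAcyc_sh_g hk, map_sub, map_sub]
    abel
  · simp

theorem TeleAcyc_box (W : ℕ) (D : Finset (Fin d)) : ∃ M : ℚ, 0 ≤ M ∧
    ∀ (j : ℤ) (x₀ : Fin d → ℤ) (k : ℕ) (z : TB d →₀ ℚ),
    z ∈ supported ℚ ℚ {b : TB d | (tDeg b = k ∧ b.1 = j ∧ (0 : Fin (d + 1)) ∉ b.2.2 ∧
      ∀ i, |b.2.1 i - x₀ i| ≤ W) ∧ ∀ i ∉ D, b.2.1 i = x₀ i ∧ i.succ ∉ b.2.2} →
    tdh z = 0 → augD tDeg z = 0 →
    ∃ y ∈ supported ℚ ℚ {b : TB d | tDeg b = k + 1 ∧ b.1 = j ∧ (0 : Fin (d + 1)) ∉ b.2.2 ∧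
      ∀ i, |b.2.1 i - x₀ i| ≤ W}, tdh y = z ∧ l1 y ≤ M * l1 z := by
  induction D using Finset.induction_on with
  | empty =>
    refine ⟨0, le_rfl, fun j x₀ k z hz _ ha => ⟨0, zero_mem _, ?_, ?_⟩⟩
    · have h1 : z.support ⊆ {(j, x₀, ∅)} := by
        intro b hb
        obtain ⟨⟨-, h2, h3, -⟩, h4⟩ := (mem_supported ℚ _).1 hz hb
        refine Finset.mem_singleton.2 (Prod.ext h2 (Prod.ext
          (funext fun i => (h4 i (Finset.notMem_empty _)).1) ?_))
        refine Finset.eq_empty_of_forall_notMem fun l hl => ?_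
        rcases Fin.eq_zero_or_eq_succ l with rfl | ⟨i, rfl⟩
        · exact h3 hl
        · exact (h4 i (Finset.notMem_empty _)).2 hl
      rw [support_subset_singleton] at h1
      rw [h1, TeleAlg_aug, if_pos Finset.card_empty] at ha
      rw [h1, ha, single_zero, map_zero]
    · rw [TeleAcyc_l1_zero, zero_mul]
  | insert i D hi ih =>
    obtain ⟨M, hM, ih⟩ := ih
    refine ⟨2 * W + M, by positivity, fun j x₀ k z hz hd ha => ?_⟩
    let s := TeleAcyc_in i.succ ∘ₗ TeleAcyc_g i (x₀ i)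
    let π := LinearMap.id - tdh ∘ₗ s - s ∘ₗ tdh
    have hπ : ∀ b : TB d, π (single b 1) = if i.succ ∈ b.2.2 then 0 else
        single (b.1, Function.update b.2.1 i (x₀ i), b.2.2) 1 := TeleAcyc_homot i (x₀ i)
    have hπz : π z = z - tdh (s z) := by
      change z - tdh (s z) - s (tdh z) = _
      rw [hd, map_zero, sub_zero]
    obtain ⟨y, hy, hy1, hy2⟩ := ih j x₀ k (π z) (TeleAcyc_supp (fun b hb => by
        rw [hπ]
        split_ifs with h
        · exact zero_mem _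
        · obtain ⟨⟨h1, h2, h3, h4⟩, h5⟩ := hb
          refine single_mem_supported ℚ _ ⟨⟨h1, h2, h3, fun l => ?_⟩, fun l hl => ?_⟩
          · by_cases e : l = i
            · subst e; simp
            · simpa [e] using h4 l
          · by_cases e : l = i
            · subst e; exact ⟨by simp, h⟩
            · simpa [e] using h5 l (by simp [e, hl])) hz)
      (by rw [hπz, map_sub, hd, tdh_tdh, sub_zero])
      (by rw [hπz, map_sub, ha, TeleAcyc_aug_dh, sub_zero])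
    have h1 : l1 (π z) ≤ 1 * l1 z := l1_map_le π z fun b _ => by
      rw [hπ]
      split_ifs
      · rw [TeleAcyc_l1_zero]; norm_num
      · rw [l1_single, abs_one]
    have h2 : l1 (s z) ≤ (2 * W) * l1 z := l1_map_le s z fun b hb => by
      have h4 := abs_le.1 (((mem_supported ℚ _).1 hz hb).1.2.2.2 i)
      refine (TeleAcyc_l1_in _ _).trans ?_
      rw [TeleAcyc_g_single, TeleAcyc_ps]
      refine (TeleAcyc_l1_sub _ _).trans ((add_le_add (l1_sum_le _ _) (l1_sum_le _ _)).trans ?_)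
      simp only [l1_single, abs_one, Finset.sum_const, Int.card_Ico, nsmul_eq_mul, mul_one]
      have : (b.2.1 i - x₀ i).toNat + (x₀ i - b.2.1 i).toNat ≤ 2 * W := by omega
      exact_mod_cast this
    refine ⟨s z + y, add_mem (TeleAcyc_supp (fun b hb => ?_) hz) hy, ?_, ?_⟩
    · obtain ⟨⟨h1, h2, h3, h4⟩, -⟩ := hb
      have h6 : ∀ t, |t - x₀ i| ≤ W →
          TeleAcyc_in i.succ (single (b.1, Function.update b.2.1 i t, b.2.2) 1) ∈
          supported ℚ ℚ {b : TB d | tDeg b = k + 1 ∧ b.1 = j ∧ (0 : Fin (d + 1)) ∉ b.2.2 ∧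
            ∀ i, |b.2.1 i - x₀ i| ≤ W} := by
        intro t ht
        rw [TeleAcyc_in_single]
        split_ifs with h
        · exact zero_mem _
        · refine single_mem_supported ℚ _ ⟨?_, h2, ?_, fun l => ?_⟩
          · rw [← h1]; exact Finset.card_insert_of_notMem h
          · simpa [(Fin.succ_ne_zero i).symm] using h3
          · by_cases e : l = i
            · subst e; simpa using ht
            · simpa [e] using h4 l
      have h7 := abs_le.1 (h4 i)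
      change TeleAcyc_in i.succ (TeleAcyc_g i (x₀ i) (single b 1)) ∈ _
      rw [TeleAcyc_g_single, TeleAcyc_ps_map, TeleAcyc_ps]
      refine sub_mem (sum_mem fun t ht => h6 t ?_) (sum_mem fun t ht => h6 t ?_) <;>
      · rw [Finset.mem_Ico] at ht
        rw [abs_le]
        omega
    · rw [map_add, hy1, hπz, add_sub_cancel]
    · refine (l1_add_le _ _).trans ?_
      nlinarith only [hy2, h2, hM, h1, l1_nonneg z]

/-- Horizontal cycles in a box bound in the box. -/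
theorem fill_box (W : ℕ) : ∃ M : ℚ, 0 ≤ M ∧ ∀ (j : ℤ) (x₀ : Fin d → ℤ) (k : ℕ) (z : TB d →₀ ℚ),
    (∀ b ∈ z.support, tDeg b = k ∧ b.1 = j ∧ (0 : Fin (d + 1)) ∉ b.2.2 ∧
      ∀ i, |b.2.1 i - x₀ i| ≤ W) → tdh z = 0 → augD tDeg z = 0 →
    ∃ y : TB d →₀ ℚ, (∀ b ∈ y.support, tDeg b = k + 1 ∧ b.1 = j ∧ (0 : Fin (d + 1)) ∉ b.2.2 ∧
      ∀ i, |b.2.1 i - x₀ i| ≤ W) ∧ tdh y = z ∧ l1 y ≤ M * l1 z := by
  obtain ⟨M, hM, h⟩ := TeleAcyc_box (d := d) W Finset.univ
  refine ⟨M, hM, fun j x₀ k z hz hd ha => ?_⟩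
  obtain ⟨y, hy, h1, h2⟩ := h j x₀ k z ((mem_supported ℚ _).2 fun b hb =>
    ⟨hz b hb, fun i hi => absurd (Finset.mem_univ i) hi⟩) hd ha
  exact ⟨y, fun b hb => (mem_supported ℚ _).1 hy hb, h1, h2⟩

theorem TeleAcyc_up_in (x : TB d →₀ ℚ) : tUp (TeleAcyc_in 0 x) = TeleAcyc_in 0 (tUp x) := by
  rw [TeleAlg_up, TeleAlg_up, map_sum]
  refine Finset.sum_congr rfl fun ω _ => ?_
  refine TeleAlg_ext (φ := TeleAlg_r ω ∘ₗ TeleAcyc_in 0) (ψ := TeleAcyc_in 0 ∘ₗ TeleAlg_r ω)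
    (fun b => ?_) x
  simp only [LinearMap.comp_apply]
  rw [TeleAlg_r_single, TeleAcyc_in_single]
  by_cases h0 : 0 ∈ b.2.2
  · rw [if_pos h0, map_zero]
    split_ifs
    · rw [TeleAcyc_in_single, if_pos h0]
    · rw [map_zero]
  · rw [if_neg h0, TeleAlg_r_single]
    simp only [Finset.mem_insert, Fin.succ_ne_zero, false_or]
    split_ifs
    · rw [TeleAcyc_in_single, if_neg h0, one_mul, one_mul, mul_comm]
    · rw [map_zero]

theorem TeleAcyc_dh_in (x : TB d →₀ ℚ) : tdh (TeleAcyc_in 0 x) = -TeleAcyc_in 0 (tdh x) := by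
  rw [TeleAlg_dh, TeleAlg_dh, map_sum, ← Finset.sum_neg_distrib]
  refine Finset.sum_congr rfl fun i _ => ?_
  rw [TeleAcyc_er_in_ne (Fin.succ_ne_zero i), map_neg, TeleAcyc_sh_in, map_sub]
  abel

theorem TeleAcyc_pow_succ (m : ℕ) (x : TB d →₀ ℚ) : (tUp ^ (m + 1)) x = tUp ((tUp ^ m) x) := by
  rw [pow_succ']; rfl

theorem TeleAcyc_pow_succ' (m : ℕ) (x : TB d →₀ ℚ) : (tUp ^ (m + 1)) x = (tUp ^ m) (tUp x) := by
  rw [pow_succ]; rfl

theorem TeleAcyc_dh_pow (m : ℕ) (x : TB d →₀ ℚ) : tdh ((tUp ^ m) x) = (tUp ^ m) (tdh x) := by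
  induction m with
  | zero => rfl
  | succ m ih => rw [TeleAcyc_pow_succ, TeleAcyc_pow_succ, tdh_tUp, ih]

theorem TeleAcyc_l1_pow (m : ℕ) (x : TB d →₀ ℚ) : l1 ((tUp ^ m) x) ≤ l1 x := by
  induction m with
  | zero => exact le_rfl
  | succ m ih => rw [TeleAcyc_pow_succ]; exact (l1_tUp _).trans ih

/-- The vertical path up to the level `j`. -/
noncomputable def TeleAcyc_v (j : ℤ) : (TB d →₀ ℚ) →ₗ[ℚ] (TB d →₀ ℚ) :=
  linearCombination ℚ (fun b => ∑ m ∈ Finset.range (j - b.1).toNat, (tUp ^ m) (single b 1))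

theorem TeleAcyc_v_lev (j l : ℤ) {x : TB d →₀ ℚ} (hx : x ∈ supported ℚ ℚ {b : TB d | b.1 = l}) :
    TeleAcyc_v j x = ∑ m ∈ Finset.range (j - l).toNat, (tUp ^ m) x := by
  rw [← LinearMap.sum_apply, TwBasic_map_eq _ x, TwBasic_map_eq _ x]
  refine Finset.sum_congr rfl fun b hb => ?_
  have h : b.1 = l := (mem_supported ℚ _).1 hx hb
  rw [TeleAcyc_v, linearCombination_single, one_smul, LinearMap.sum_apply, h]

theorem TeleAcyc_lev_er (i : Fin (d + 1)) (b : TB d) :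
    tEr i (single b 1) ∈ supported ℚ ℚ {b' : TB d | b'.1 = b.1} := by
  rw [TeleAlg_er]
  split_ifs
  · exact single_mem_supported ℚ _ rfl
  · exact zero_mem _

theorem TeleAcyc_homot_v {j : ℤ} {b : TB d} (hb : b.1 < j) :
    single b 1 + td (TeleAcyc_in 0 (TeleAcyc_v j (single b 1))) +
      TeleAcyc_in 0 (TeleAcyc_v j (td (single b 1))) =
      tEr 0 (TeleAcyc_in 0 ((tUp ^ (j - b.1).toNat) (single b 1))) := by
  obtain ⟨n, hn, hn'⟩ : ∃ n : ℕ, (j - b.1).toNat = n + 1 ∧ (j - (b.1 + 1)).toNat = n :=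
    ⟨_, by omega, rfl⟩
  have h0 : single b (1 : ℚ) ∈ supported ℚ ℚ {b' : TB d | b'.1 = b.1} :=
    single_mem_supported ℚ _ rfl
  have h1 := TeleAcyc_lev_er 0 b
  have h2 : tUp (tEr 0 (single b 1)) ∈ supported ℚ ℚ {b' : TB d | b'.1 = b.1 + 1} :=
    TeleAcyc_supp (fun c hc => (mem_supported ℚ _).2 fun c' hc' => by
      have := (tUp_support c c' hc').1
      rwa [show c.1 = b.1 from hc] at this) h1
  have h3 : tdh (single b 1) ∈ supported ℚ ℚ {b' : TB d | b'.1 = b.1} := by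
    rw [TeleAlg_dh]
    refine sum_mem fun i _ => sub_mem (TeleAcyc_supp (fun c hc => ?_) (TeleAcyc_lev_er _ b))
      (TeleAcyc_lev_er _ b)
    rw [TeleAlg_sh]
    exact single_mem_supported ℚ _ hc
  have e1 : TeleAcyc_v j (td (single b 1)) =
      tdh (TeleAcyc_v j (single b 1)) - tEr 0 (single b 1) := by
    rw [TeleAlg_d, map_add, map_sub, TeleAcyc_v_lev j _ h0, TeleAcyc_v_lev j _ h1,
      TeleAcyc_v_lev j _ h2, TeleAcyc_v_lev j _ h3, hn, hn', map_sum,
      Finset.sum_range_succ' (fun m => (tUp ^ m) (tEr 0 (single b 1)))]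
    simp only [TeleAcyc_dh_pow, TeleAcyc_pow_succ', pow_zero, Module.End.one_apply]
    abel
  have e2 : tUp (TeleAcyc_v j (single b 1)) =
      TeleAcyc_v j (single b 1) + (tUp ^ (j - b.1).toNat) (single b 1) - single b 1 := by
    rw [TeleAcyc_v_lev j _ h0, map_sum, ← Finset.sum_range_succ (fun m => (tUp ^ m) (single b 1)),
      Finset.sum_range_succ' (fun m => (tUp ^ m) (single b 1))]
    simp only [TeleAcyc_pow_succ, pow_zero, Module.End.one_apply, add_sub_cancel_right]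
  rw [e1, TeleAlg_d, ← tEr_zero_tUp, TeleAcyc_up_in, e2, TeleAcyc_dh_in]
  simp only [map_add, map_sub]
  linear_combination (norm := abel) -TeleAcyc_er_in_add 0 (single b (1 : ℚ))

theorem TeleAcyc_pow_supp (W : ℕ) (j : ℤ) (x₀ : Fin d → ℤ) {b : TB d} (h1 : j ≤ b.1)
    (h2 : ∀ i, |2 ^ (b.1 - j).toNat * b.2.1 i - x₀ i| ≤ W) (m : ℕ) :
    (tUp ^ m) (single b 1) ∈ supported ℚ ℚ {c : TB d | c.1 = b.1 + m ∧ c.2.2 = b.2.2 ∧
      ∀ i, |2 ^ (c.1 - j).toNat * c.2.1 i - x₀ i| ≤ W + 2 ^ (c.1 - j).toNat} := by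
  induction m with
  | zero =>
    exact single_mem_supported ℚ _ ⟨by simp, rfl, fun i => (h2 i).trans
      (le_add_of_nonneg_right (by positivity))⟩
  | succ m ih =>
    rw [TeleAcyc_pow_succ]
    refine TeleAcyc_supp (fun c hc => (mem_supported ℚ _).2 fun c' hc' => ?_) ih
    obtain ⟨a1, a2, a3⟩ := tUp_support c c' hc'
    obtain ⟨b1, b2, b3⟩ := hc
    refine ⟨by push_cast; omega, a2.trans b2, fun i => ?_⟩
    have e : (c'.1 - j).toNat = (c.1 - j).toNat + 1 := by omega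
    rw [e, pow_succ]
    have p : (0 : ℤ) < 2 ^ (c.1 - j).toNat := by positivity
    have a4 := abs_le.1 (a3 i)
    have b4 := abs_le.1 (b3 i)
    rw [abs_le]
    constructor <;> nlinarith only [a4, b4, p]

/-- Cycles in a bounded region bound in a bounded region. -/
theorem fill_tele (W : ℕ) : ∃ (W' : ℕ) (M : ℚ), ∀ (j : ℤ) (x₀ : Fin d → ℤ) (k : ℕ)
    (z : TB d →₀ ℚ), (∀ b ∈ z.support, tDeg b = k ∧ j ≤ b.1 ∧ b.1 ≤ j + W ∧
      ∀ i, |2 ^ (b.1 - j).toNat * b.2.1 i - x₀ i| ≤ W) → td z = 0 → augD tDeg z = 0 →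
    ∃ y : TB d →₀ ℚ, (∀ b ∈ y.support, tDeg b = k + 1 ∧ j ≤ b.1 ∧ b.1 ≤ j + W' ∧
      ∀ i, |2 ^ (b.1 - j).toNat * b.2.1 i - x₀ i| ≤ W') ∧ td y = z ∧ l1 y ≤ M * l1 z := by
  obtain ⟨M, hM, hbox⟩ := fill_box (d := d) (W + 2)
  refine ⟨2 ^ (W + 1) * (W + 3) + (W + 1), M + (W + 1), fun j x₀ k z hz hd ha => ?_⟩
  obtain ⟨N, hN⟩ : ∃ N : ℤ, N = 2 ^ (W + 1) := ⟨_, rfl⟩
  have hN0 : 1 ≤ N := by rw [hN]; exact one_le_pow₀ (by norm_num)
  have hW : ((2 ^ (W + 1) * (W + 3) + (W + 1) : ℕ) : ℤ) = N * (W + 3) + (W + 1) := by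
    rw [hN]; push_cast; rfl
  rw [hW]
  have hz' : z ∈ supported ℚ ℚ {b : TB d | tDeg b = k ∧ j ≤ b.1 ∧ b.1 ≤ j + W ∧
      ∀ i, |2 ^ (b.1 - j).toNat * b.2.1 i - x₀ i| ≤ W} := (mem_supported ℚ _).2 hz
  let H : (TB d →₀ ℚ) →ₗ[ℚ] (TB d →₀ ℚ) := TeleAcyc_in 0 ∘ₗ TeleAcyc_v (j + W + 1)
  let π := LinearMap.id + td ∘ₗ H + H ∘ₗ td
  have hπ : ∀ b : TB d, b.1 ≤ j + W → π (single b 1) =
      tEr 0 (TeleAcyc_in 0 ((tUp ^ (j + W + 1 - b.1).toNat) (single b 1))) := fun b hb =>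
    TeleAcyc_homot_v (by omega)
  have hπz : π z = z + td (H z) := by
    change z + td (H z) + H (td z) = _
    rw [hd, map_zero, add_zero]
  have hπs : π z ∈ supported ℚ ℚ {b : TB d | tDeg b = k ∧ b.1 = j + W + 1 ∧
      (0 : Fin (d + 1)) ∉ b.2.2 ∧ ∀ i, |b.2.1 i - x₀ i / N| ≤ (W + 2 : ℕ)} := by
    refine TeleAcyc_supp (fun b hb => ?_) hz'
    obtain ⟨h1, h2, h3, h4⟩ := hb
    rw [hπ b h3]
    refine TeleAcyc_supp (φ := tEr 0 ∘ₗ TeleAcyc_in 0) (fun c hc => ?_)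
      (TeleAcyc_pow_supp W j x₀ h2 h4 _)
    obtain ⟨a1, a2, a3⟩ := hc
    rw [LinearMap.comp_apply, TeleAcyc_er_in]
    split_ifs with h
    · exact zero_mem _
    · refine single_mem_supported ℚ _ ⟨by rw [← h1, tDeg, a2, tDeg], by omega, h, fun i => ?_⟩
      have e : (c.1 - j).toNat = W + 1 := by omega
      have a4 := abs_le.1 (a3 i)
      rw [e, ← hN] at a4
      have r0 := Int.emod_nonneg (x₀ i) (show N ≠ 0 by omega)
      have r1 := Int.emod_lt_of_pos (x₀ i) (show 0 < N by omega)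
      have r2 := Int.mul_ediv_add_emod (x₀ i) N
      have hW0 : (0 : ℤ) ≤ W := by positivity
      rw [abs_le]
      push_cast
      constructor <;> (by_contra hc; nlinarith only [hN0, a4, r0, r2, hc, r1, not_le.1 hc])
  have he0 : tEr 0 (π z) = 0 := by
    have := TeleAcyc_supp (φ := tEr 0) (S' := ∅) (fun b hb => by
      rw [TeleAlg_er, if_neg hb.2.2.1]; exact zero_mem _) hπs
    rwa [supported_empty, Submodule.mem_bot] at this
  obtain ⟨y, hy, hy1, hy2⟩ := hbox (j + W + 1) (fun i => x₀ i / N) k (π z)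
    ((mem_supported ℚ _).1 hπs)
    (by
      have : td (π z) = 0 := by rw [hπz, map_add, hd, td_td, add_zero]
      rwa [TeleAlg_d, he0, map_zero, sub_zero, zero_add] at this)
    (by rw [hπz, map_add, ha, aug_td, add_zero])
  have hy0 : tEr 0 y = 0 := by
    have := TeleAcyc_supp (φ := tEr 0) (S' := ∅) (S := {b : TB d | (0 : Fin (d + 1)) ∉ b.2.2})
      (fun b hb => by rw [TeleAlg_er, if_neg hb]; exact zero_mem _)
      ((mem_supported ℚ _).2 fun b hb => (hy b hb).2.2.1)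
    rwa [supported_empty, Submodule.mem_bot] at this
  have l1π : l1 (π z) ≤ 1 * l1 z := l1_map_le π z fun b hb => by
    rw [hπ b (hz b hb).2.2.1]
    have := l1_map_le (tEr 0 ∘ₗ TeleAcyc_in 0) (M := 1)
      ((tUp ^ (j + W + 1 - b.1).toNat) (single b 1)) fun c _ => by
        rw [LinearMap.comp_apply, TeleAcyc_er_in]
        split_ifs
        · rw [TeleAcyc_l1_zero]; norm_num
        · rw [l1_single, abs_one]
    rw [one_mul] at this
    exact this.trans ((TeleAcyc_l1_pow _ _).trans (by rw [l1_single, abs_one]))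
  have l1H : l1 (H z) ≤ (W + 1) * l1 z := l1_map_le H z fun b hb => by
    refine (TeleAcyc_l1_in _ _).trans ?_
    rw [TeleAcyc_v, linearCombination_single, one_smul]
    refine (l1_sum_le _ _).trans ((Finset.sum_le_card_nsmul _ _ 1 fun m _ =>
      (TeleAcyc_l1_pow _ _).trans (by rw [l1_single, abs_one])).trans ?_)
    have h2 := (hz b hb).2.1
    have : (j + W + 1 - b.1).toNat ≤ W + 1 := by omega
    rw [Finset.card_range, nsmul_eq_mul, mul_one]
    exact_mod_cast this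
  have hW0 : (0 : ℤ) ≤ W := by positivity
  have hs : y - H z ∈ supported ℚ ℚ {b : TB d | tDeg b = k + 1 ∧ j ≤ b.1 ∧
      b.1 ≤ j + (N * (W + 3) + (W + 1)) ∧
      ∀ i, |2 ^ (b.1 - j).toNat * b.2.1 i - x₀ i| ≤ N * (W + 3) + (W + 1)} := by
    refine sub_mem ((mem_supported ℚ _).2 fun b hb => ?_) (TeleAcyc_supp (fun b hb => ?_) hz')
    · obtain ⟨a1, a2, -, a4⟩ := hy b hb
      refine ⟨a1, by omega, by nlinarith only [hN0, a2], fun i => ?_⟩
      have e : (b.1 - j).toNat = W + 1 := by omega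
      have a5 := abs_le.1 (a4 i)
      rw [e, ← hN]
      have r0 := Int.emod_nonneg (x₀ i) (show N ≠ 0 by omega)
      have r1 := Int.emod_lt_of_pos (x₀ i) (show 0 < N by omega)
      have r2 := Int.mul_ediv_add_emod (x₀ i) N
      push_cast at a5
      rw [abs_le]
      constructor <;> nlinarith only [r1, r2, a5, hN0, r0]
    · obtain ⟨h1, h2, h3, h4⟩ := hb
      change TeleAcyc_in 0 (TeleAcyc_v (j + W + 1) (single b 1)) ∈ _
      rw [TeleAcyc_v, linearCombination_single, one_smul, map_sum]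
      refine sum_mem fun m hm => TeleAcyc_supp (fun c hc => ?_) (TeleAcyc_pow_supp W j x₀ h2 h4 m)
      obtain ⟨a1, a2, a3⟩ := hc
      rw [Finset.mem_range] at hm
      rw [TeleAcyc_in_single]
      split_ifs with h
      · exact zero_mem _
      · refine single_mem_supported ℚ _ ⟨?_, ?_, ?_, fun i => (a3 i).trans ?_⟩
        · rw [← h1, tDeg, tDeg, ← a2]; exact Finset.card_insert_of_notMem h
        · change j ≤ c.1
          omega
        · change c.1 ≤ _
          have : c.1 ≤ j + (W + 1) := by omega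
          nlinarith only [hN0, this]
        · have : (2 : ℤ) ^ (c.1 - j).toNat ≤ N := by
            rw [hN]; exact pow_le_pow_right₀ (by norm_num) (by omega)
          nlinarith only [hN0, this]
  refine ⟨y - H z, (mem_supported ℚ _).1 hs, ?_, ?_⟩
  · rw [map_sub, TeleAlg_d y, hy0, map_zero, sub_zero, zero_add, hy1, hπz, add_sub_cancel_right]
  · refine (TeleAcyc_l1_sub _ _).trans ?_
    have := mul_le_mul_of_nonneg_left l1π hM
    rw [add_mul M]
    rw [one_mul] at this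
    exact add_le_add (hy2.trans this) l1H

end Pool.Agent.Work.MP_dd0bbc_gt
end

-- merged part: Pool.Agent.Work.MP_dd0bbc_gt.TeleBCx
section
/-! The dyadic model as a uniformly acyclic complex of bounded geometry. -/

set_option autoImplicit false

namespace Pool.Agent.Work.MP_dd0bbc_gt

open Finsupp

variable {d : ℕ} {P : Type} {co : Coarse P} {ι : (Fin d → ℝ) → ℝ → P}

theorem TeleBCx_pow {j l : ℤ} (h : j ≤ l) : (2 : ℝ) ^ l = 2 ^ j * 2 ^ (l - j).toNat := by
  rw [← zpow_natCast, ← zpow_add₀ (by norm_num), Int.toNat_of_nonneg (by omega)]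
  congr 1
  ring

theorem TeleBCx_sum {f : Fin d → ℝ} {c : ℝ} (h : ∀ i, |f i| ≤ c) : ∑ i, f i ^ 2 ≤ d * c ^ 2 := by
  refine (Finset.sum_le_card_nsmul _ _ (c ^ 2) fun i _ => ?_).trans ?_
  · rw [← sq_abs]
    exact pow_le_pow_left₀ (abs_nonneg _) (h i) 2
  · rw [Finset.card_univ, Fintype.card_fin, nsmul_eq_mul]

theorem Horo.box_of_le (h : Horo d co ι) (L : ℝ) : ∃ W : ℕ, ∀ a, ∃ (j : ℤ) (x₀ : Fin d → ℤ),
    co.Λ (tPos ι (j, x₀, ∅)) a ≤ W ∧ ∀ b : TB d, co.Λ (tPos ι b) a ≤ L →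
      j ≤ b.1 ∧ b.1 ≤ j + W ∧ ∀ i, |2 ^ (b.1 - j).toNat * b.2.1 i - x₀ i| ≤ W := by
  obtain ⟨w, hw⟩ := pow_unbounded_of_one_lt (2 * L) (one_lt_two (α := ℝ))
  refine ⟨d + 2 + 2 * w + 2 * (2 ^ w * 2 ^ w), fun a => ?_⟩
  obtain ⟨y, t, ht, rfl⟩ := h.surj a
  have k1 : (2 : ℝ) ^ Int.log 2 t ≤ t := by exact_mod_cast Int.zpow_log_le_self (b := 2) one_lt_two ht
  have k2 : t < (2 : ℝ) ^ (Int.log 2 t + 1) := by
    exact_mod_cast Int.lt_zpow_succ_log_self (b := 2) one_lt_two t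
  generalize Int.log 2 t = k at k1 k2
  obtain ⟨j, rfl⟩ : ∃ j, k = j + w := ⟨k - w, by ring⟩
  have s0 : (0 : ℝ) < 2 ^ j := by positivity
  have q1 : (1 : ℝ) ≤ 2 ^ w := one_le_pow₀ one_le_two
  have w0 : (0 : ℝ) ≤ w := Nat.cast_nonneg w
  have d0 : (0 : ℝ) ≤ d := Nat.cast_nonneg d
  have k1' : (2 : ℝ) ^ j * 2 ^ w ≤ t := by rwa [zpow_add₀ (by norm_num), zpow_natCast] at k1
  have k2' : t ≤ 2 * ((2 : ℝ) ^ j * 2 ^ w) := by
    rw [zpow_add_one₀ (by norm_num), zpow_add₀ (by norm_num), zpow_natCast] at k2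
    linarith
  have hx : ∀ i, |(2 : ℝ) ^ j * (round (y i / 2 ^ j) : ℤ) - y i| ≤ 2 ^ j := by
    intro i
    have h1 := abs_sub_round (y i / 2 ^ j)
    have h2 : (2 : ℝ) ^ j * (round (y i / 2 ^ j) : ℤ) - y i =
        -(2 ^ j * (y i / 2 ^ j - (round (y i / 2 ^ j) : ℤ))) := by
      field_simp
      ring
    rw [h2, abs_neg, abs_mul, abs_of_pos s0]
    exact mul_le_of_le_one_right s0.le (by linarith only [h1])
  refine ⟨j, fun i => round (y i / 2 ^ j), ?_, fun b hb => ?_⟩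
  · unfold tPos
    rw [h.eq _ _ _ _ s0 ht, div_le_iff₀ (by positivity)]
    have h1 := TeleBCx_sum hx
    push_cast
    generalize (2 : ℝ) ^ j = s at *
    generalize (2 : ℝ) ^ w = q at *
    have a1 : s ≤ t := (le_mul_of_one_le_right s0.le q1).trans k1'
    have a2 : s ^ 2 ≤ s * t := by nlinarith only [q1, s0, k1']
    have a3 : t ^ 2 ≤ 2 * (q * q) * (s * t) := by
      have b1 : s * q ≤ s * (q * q) :=
        mul_le_mul_of_nonneg_left (le_mul_of_one_le_right (by linarith) q1) s0.le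
      nlinarith only [ht, k2', b1]
    have a4 := mul_le_mul_of_nonneg_left a2 d0
    have a5 : 0 ≤ s * t := by positivity
    have a6 := mul_nonneg d0 a5
    have a7 := mul_nonneg w0 a5
    have a8 : 0 ≤ q * q * (s * t) := by positivity
    linarith only [h1, a2, a3, a4, a5, a6, a7, a8]
  · have T0 : (0 : ℝ) < 2 ^ b.1 := by positivity
    unfold tPos at hb
    rw [h.eq _ _ _ _ T0 ht, div_le_iff₀ (by positivity)] at hb
    have hs : 0 ≤ ∑ i, ((2 : ℝ) ^ b.1 * b.2.1 i - y i) ^ 2 :=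
      Finset.sum_nonneg fun _ _ => sq_nonneg _
    have hi : ∀ i, ((2 : ℝ) ^ b.1 * b.2.1 i - y i) ^ 2 ≤
        ∑ i, ((2 : ℝ) ^ b.1 * b.2.1 i - y i) ^ 2 := fun i =>
      Finset.single_le_sum (f := fun i => ((2 : ℝ) ^ b.1 * b.2.1 i - y i) ^ 2)
        (fun _ _ => sq_nonneg _) (Finset.mem_univ i)
    generalize ∑ i, ((2 : ℝ) ^ b.1 * b.2.1 i - y i) ^ 2 = A at hb hs hi
    have hb' : A + ((2 : ℝ) ^ b.1) ^ 2 + t ^ 2 ≤ 2 ^ w * (2 ^ b.1 * t) := by
      have := mul_le_mul_of_nonneg_right hw.le (mul_pos T0 ht).le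
      linarith
    have c1 : (2 : ℝ) ^ b.1 ≤ 2 ^ w * t := by
      refine le_of_mul_le_mul_left ?_ T0
      nlinarith only [hs, hb', sq_nonneg t]
    have c2 : t ≤ 2 ^ w * (2 : ℝ) ^ b.1 := by
      refine le_of_mul_le_mul_left ?_ ht
      nlinarith only [hs, hb', sq_nonneg ((2 : ℝ) ^ b.1)]
    have e1 : j ≤ b.1 := by
      refine (zpow_le_zpow_iff_right₀ (one_lt_two (α := ℝ))).1 ?_
      refine le_of_mul_le_mul_left (a := 2 ^ w) ?_ (by positivity)
      linarith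
    have e2 : b.1 ≤ j + (2 * w + 1) := by
      refine (zpow_le_zpow_iff_right₀ (one_lt_two (α := ℝ))).1 ?_
      have f1 : (2 : ℝ) ^ (j + (2 * w + 1)) = 2 ^ w * (2 * (2 ^ j * 2 ^ w)) := by
        rw [zpow_add₀ (by norm_num), zpow_add_one₀ (by norm_num), two_mul (w : ℤ),
          zpow_add₀ (by norm_num), zpow_natCast]
        ring
      rw [f1]
      exact c1.trans (mul_le_mul_of_nonneg_left k2' (by positivity))
    refine ⟨e1, ?_, fun i => ?_⟩
    · have : (0 : ℤ) ≤ 2 ^ w * 2 ^ w := by positivity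
      push_cast
      omega
    · have g1 : |(2 : ℝ) ^ b.1 * b.2.1 i - y i| ≤ 2 ^ w * t := by
        refine abs_le_of_sq_le_sq ?_ (by positivity)
        have g2 := mul_le_mul_of_nonneg_left (mul_le_mul_of_nonneg_right c1 ht.le)
          (by positivity : (0 : ℝ) ≤ 2 ^ w)
        nlinarith only [hb', g2, hi i, sq_nonneg t, sq_nonneg ((2 : ℝ) ^ b.1)]
      have g3 := abs_sub_le ((2 : ℝ) ^ b.1 * b.2.1 i) (y i) (2 ^ j * (round (y i / 2 ^ j) : ℤ))
      rw [abs_sub_comm (y i)] at g3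
      have g4 : (2 : ℝ) ^ b.1 * b.2.1 i - 2 ^ j * (round (y i / 2 ^ j) : ℤ) =
          2 ^ j * (2 ^ (b.1 - j).toNat * b.2.1 i - (round (y i / 2 ^ j) : ℤ)) := by
        rw [TeleBCx_pow e1]
        ring
      rw [g4, abs_mul, abs_of_pos s0] at g3
      have g5 := mul_le_mul_of_nonneg_left k2' (by positivity : (0 : ℝ) ≤ 2 ^ w)
      have g6 : |(2 : ℝ) ^ (b.1 - j).toNat * b.2.1 i - (round (y i / 2 ^ j) : ℤ)| ≤
          d + 2 + 2 * w + 2 * (2 ^ w * 2 ^ w) := by
        refine le_of_mul_le_mul_left ?_ s0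
        have g7 := mul_nonneg s0.le d0
        have g8 := mul_nonneg s0.le w0
        have g9 := hx i
        linarith only [s0, g1, g3, g5, g7, g8, g9]
      exact_mod_cast g6

theorem Horo.le_of_box (h : Horo d co ι) (W : ℕ) : ∃ L : ℝ, ∀ (j : ℤ) (x₀ : Fin d → ℤ) (b : TB d),
    j ≤ b.1 → b.1 ≤ j + W → (∀ i, |2 ^ (b.1 - j).toNat * b.2.1 i - x₀ i| ≤ W) →
      co.Λ (tPos ι b) (tPos ι (j, x₀, ∅)) ≤ L := by
  refine ⟨d * (W : ℝ) ^ 2 + (2 ^ W) ^ 2 + 1, fun j x₀ b h1 h2 h3 => ?_⟩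
  have s0 : (0 : ℝ) < 2 ^ j := by positivity
  have u1 : (1 : ℝ) ≤ 2 ^ (b.1 - j).toNat := one_le_pow₀ one_le_two
  have u2 : (2 : ℝ) ^ (b.1 - j).toNat ≤ 2 ^ W := pow_le_pow_right₀ one_le_two (by omega)
  have hx : ∀ i, |(2 : ℝ) ^ b.1 * b.2.1 i - 2 ^ j * x₀ i| ≤ 2 ^ j * W := by
    intro i
    have g : |(2 : ℝ) ^ (b.1 - j).toNat * b.2.1 i - x₀ i| ≤ W := by exact_mod_cast h3 i
    rw [TeleBCx_pow h1, mul_assoc, ← mul_sub, abs_mul, abs_of_pos s0]
    exact mul_le_mul_of_nonneg_left g s0.le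
  have hs := TeleBCx_sum hx
  unfold tPos
  rw [h.eq _ _ _ _ (by positivity) s0, div_le_iff₀ (by positivity)]
  generalize ∑ i, ((2 : ℝ) ^ b.1 * b.2.1 i - 2 ^ j * x₀ i) ^ 2 = A at hs
  rw [TeleBCx_pow h1]
  generalize (2 : ℝ) ^ (b.1 - j).toNat = u at *
  generalize (2 : ℝ) ^ j = s at *
  have a1 : u ^ 2 ≤ (2 ^ W) ^ 2 := pow_le_pow_left₀ (by linarith) u2 2
  have a2 := mul_le_mul_of_nonneg_left a1 (sq_nonneg s)
  have a3 : 0 ≤ d * (W : ℝ) ^ 2 + (2 ^ W) ^ 2 + 1 := by positivity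
  have a4 : s ^ 2 ≤ 2 * (s * u) * s := by nlinarith only [u1, sq_nonneg s]
  have a5 := mul_le_mul_of_nonneg_left a4 a3
  linarith

theorem TeleBCx_l1_sub (x y : TB d →₀ ℚ) : l1 (x - y) ≤ l1 x + l1 y := by
  rw [sub_eq_add_neg, ← neg_one_smul ℚ y]
  refine (l1_add_le _ _).trans (le_of_eq ?_)
  rw [l1_smul, abs_neg, abs_one, one_mul]

theorem TeleBCx_abs (i : Fin (d + 1)) (S : Finset (Fin (d + 1))) : |1 * (sgn i S : ℚ)| = 1 := by
  rcases sgn_eq_or i S with h | h <;> simp [h]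

theorem TeleBCx_l1_zero : l1 (0 : TB d →₀ ℚ) = 0 := by simp [l1]

theorem TeleBCx_l1_er (i : Fin (d + 1)) (b : TB d) : l1 (tEr i (single b 1)) ≤ 1 := by
  rw [TeleAlg_er]
  split_ifs
  · rw [l1_single, TeleBCx_abs]
  · rw [TeleBCx_l1_zero]
    exact zero_le_one

theorem TeleBCx_l1_sh (i : Fin d) (k : Fin (d + 1)) (b : TB d) :
    l1 (tSh i (tEr k (single b 1))) ≤ 1 := by
  rw [TeleAlg_er]
  split_ifs
  · rw [TeleAlg_sh, l1_single, TeleBCx_abs]
  · rw [map_zero, TeleBCx_l1_zero]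
    exact zero_le_one

theorem TeleBCx_l1_td (b : TB d) : l1 (td (single b 1)) ≤ 2 + d * 2 := by
  rw [TeleAlg_d, TeleAlg_dh]
  refine (l1_add_le _ _).trans (add_le_add ((TeleBCx_l1_sub _ _).trans ?_)
    ((l1_sum_le _ _).trans ?_))
  · linarith [l1_tUp (tEr 0 (single b 1)), TeleBCx_l1_er 0 b]
  · refine (Finset.sum_le_card_nsmul _ _ 2 fun i _ => (TeleBCx_l1_sub _ _).trans ?_).trans ?_
    · linarith [TeleBCx_l1_sh i i.succ b, TeleBCx_l1_er i.succ b]
    · rw [Finset.card_univ, Fintype.card_fin, nsmul_eq_mul]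

/-- Cells next to `b`. -/
def TeleBCx_nb (b : TB d) : Set (TB d) :=
  {b' | b.1 ≤ b'.1 ∧ b'.1 ≤ b.1 + (1 : ℕ) ∧
    ∀ i, |2 ^ (b'.1 - b.1).toNat * b'.2.1 i - b.2.1 i| ≤ (1 : ℕ)}

theorem TeleBCx_up (b : TB d) : ∀ b' ∈ (tUp (single b 1)).support, b' ∈ TeleBCx_nb b := by
  intro b' hb'
  obtain ⟨h1, -, h3⟩ := tUp_support b b' hb'
  refine ⟨by omega, by omega, fun i => ?_⟩
  rw [h1, add_sub_cancel_left]
  simpa using h3 i

theorem TeleBCx_td (b : TB d) : ∀ b' ∈ (td (single b 1)).support, b' ∈ TeleBCx_nb b := by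
  have h1 : ∀ (S : Finset (Fin (d + 1))) (a : ℚ),
      single (b.1, b.2.1, S) a ∈ supported ℚ ℚ (TeleBCx_nb b) := fun S a =>
    single_mem_supported ℚ a ⟨le_rfl, by simp, fun i => by simp⟩
  have h : td (single b 1) ∈ supported ℚ ℚ (TeleBCx_nb b) := by
    rw [TeleAlg_d, TeleAlg_dh]
    refine add_mem ?_ (sum_mem fun i _ => ?_)
    · rw [TeleAlg_er]
      split_ifs with h0
      · refine sub_mem ?_ (h1 _ _)
        rw [← smul_single_one, map_smul]
        exact Submodule.smul_mem _ _ ((mem_supported ℚ _).2 fun b' hb' =>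
          TeleBCx_up (b.1, b.2.1, b.2.2.erase 0) b' hb')
      · simp only [map_zero, sub_zero, zero_mem]
    · rw [TeleAlg_er]
      split_ifs with h0
      · rw [TeleAlg_sh]
        refine sub_mem (single_mem_supported ℚ _ ⟨le_rfl, by simp, fun k => ?_⟩) (h1 _ _)
        by_cases hk : k = i
        · simp [hk]
        · simp [hk]
      · simp only [map_zero, sub_zero, zero_mem]
  exact fun b' hb' => (mem_supported ℚ _).1 h hb'

theorem exists_teleBCx (h : Horo d co ι) : ∃ X : BCx co (TB d), X.deg = tDeg ∧ X.d = td ∧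
    X.UAcyc ∧ Ctl co X.pos X.pos tUp := by
  classical
  obtain ⟨L1, hL1⟩ := h.le_of_box 1
  have hnb : ∀ b b' : TB d, b' ∈ TeleBCx_nb b → co.Λ (tPos ι b') (tPos ι b) ≤ L1 :=
    fun b b' hb => hL1 b.1 b.2.1 b' hb.1 hb.2.1 hb.2.2
  refine ⟨{
    deg := tDeg
    pos := tPos ι
    d := td
    dim := d + 1
    deg_le := fun b => (Finset.card_le_univ _).trans (by rw [Fintype.card_fin])
    d_deg := td_deg
    dd := td_td
    aug_d := aug_td
    d_ctl := ⟨L1, _, fun b => ⟨fun b' hb' => hnb b b' (TeleBCx_td b b' hb'), TeleBCx_l1_td b⟩⟩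
    ulf := fun L => ?_
    dense := ?_ }, rfl, rfl, fun L => ?_,
    ⟨L1, 1, fun b => ⟨fun b' hb' => hnb b b' (TeleBCx_up b b' hb'), ?_⟩⟩⟩
  · obtain ⟨W, hW⟩ := h.box_of_le L
    refine ⟨(Finset.range (W + 1) ×ˢ (Fintype.piFinset fun _ : Fin d => Finset.Icc (-(W : ℤ)) W) ×ˢ
      (Finset.univ : Finset (Finset (Fin (d + 1))))).card, fun a => ?_⟩
    obtain ⟨j, x₀, -, hb⟩ := hW a
    refine ⟨Finset.image (fun p => (j + p.1, fun i => (p.2.1 i + x₀ i) / 2 ^ p.1, p.2.2)) _,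
      Finset.card_image_le, fun b hb' => ?_⟩
    obtain ⟨h1, h2, h3⟩ := hb b hb'
    refine Finset.mem_image.2 ⟨((b.1 - j).toNat,
      fun i => 2 ^ (b.1 - j).toNat * b.2.1 i - x₀ i, b.2.2), ?_, ?_⟩
    · refine Finset.mem_product.2 ⟨Finset.mem_range.2 (by omega),
        Finset.mem_product.2 ⟨Fintype.mem_piFinset.2 fun i => ?_, Finset.mem_univ _⟩⟩
      exact Finset.mem_Icc.2 (abs_le.1 (h3 i))
    · refine Prod.ext (by simp only; omega) (Prod.ext (funext fun i => ?_) rfl)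
      simp only [sub_add_cancel]
      exact Int.mul_ediv_cancel_left _ (by positivity)
  · obtain ⟨W, hW⟩ := h.box_of_le 0
    refine ⟨W, fun a => ?_⟩
    obtain ⟨j, x₀, h1, -⟩ := hW a
    exact ⟨(j, x₀, ∅), rfl, h1⟩
  · obtain ⟨W, hW⟩ := h.box_of_le L
    obtain ⟨W', M, hF⟩ := fill_tele (d := d) W
    obtain ⟨L2, hL2⟩ := h.le_of_box W'
    obtain ⟨L', hL'⟩ := co.tri (max L2 W)
    refine ⟨L', M, fun a k z hz hz' hd ha => ?_⟩
    obtain ⟨j, x₀, h1, h2⟩ := hW a
    obtain ⟨y, hy, hy', hl⟩ := hF j x₀ k z (fun b hb => ⟨hz b hb, h2 b (hz' b hb)⟩) hd ha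
    refine ⟨y, fun b hb => (hy b hb).1, fun b hb => ?_, hy', hl⟩
    obtain ⟨-, g1, g2, g3⟩ := hy b hb
    exact hL' _ _ _ ((hL2 j x₀ b g1 g2 g3).trans (le_max_left _ _)) (h1.trans (le_max_right _ _))
  · refine (l1_tUp _).trans (le_of_eq ?_)
    rw [l1_single, abs_one]

end Pool.Agent.Work.MP_dd0bbc_gt
end
end
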