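import Pool.Agent.Work.MP_dd0bbc_gt.Defs
import Pool.Agent.Lib.RipsHom.Chains

-- merged part: Pool.Agent.Work.MP_dd0bbc_gt.LP
section
-- merged part: Pool.Agent.Work.MP_dd0bbc_gt.Basic
section
/-! Combinatorial set-up shared by all parts of the proof. -/

set_option autoImplicit false

namespace Pool.Agent.Work.MP_dd0bbc_gt

open Finset Matrix

section Comb

variable {Y : Type} [LinearOrder Y]

/-- Sign of the position of `y` in `S`. -/
def sgn (y : Y) (S : Finset Y) : ℤ := (-1) ^ (S.filter (· < y)).card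

/-- The faces with `k + 1` vertices. -/
abbrev Face (K : Finset (Finset Y)) (k : ℕ) : Type := {S : Finset Y // S ∈ K ∧ S.card = k + 1}

/-- The top faces. -/
def tops (K : Finset (Finset Y)) (n : ℕ) : Finset (Finset Y) := K.filter (·.card = n + 1)

/-- Number of `k`-dimensional faces. -/
def fn (K : Finset (Finset Y)) (k : ℕ) : ℕ := (K.filter (·.card = k + 1)).card

/-- Euler characteristic. -/
def chi (K : Finset (Finset Y)) (n : ℕ) : ℤ := ∑ k ∈ range (n + 1), (-1) ^ k * (fn K k : ℤ)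

/-- Incidence matrix. -/
def inc (R : Type) [CommRing R] (K : Finset (Finset Y)) (k : ℕ) :
    Matrix (Face K (k + 1)) (Face K k) R :=
  fun τ S => ∑ y ∈ τ.1, if τ.1.erase y = S.1 then (sgn y τ.1 : R) else 0

/-- Twisted incidence matrix (coboundary with local coefficients). -/
def tw {R ι : Type} [CommRing R] (K : Finset (Finset Y)) (bs : Finset Y → Y)
    (U : Y → Y → Matrix ι ι R) (k : ℕ) : Matrix (Face K (k + 1) × ι) (Face K k × ι) R :=
  fun p q => inc R K k p.1 q.1 * U (bs p.1.1) (bs q.1.1) p.2 q.2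

/-- Rank of the boundary map leaving degree `k`. -/
noncomputable def rkb [Fintype Y] (R : Type) [CommRing R] (K : Finset (Finset Y)) : ℕ → ℕ
  | 0 => 0
  | k + 1 => (inc R K k).rank

/-- Determinant of the vectors indexed by `S`, in increasing order. -/
noncomputable def detS (n : ℕ) (v : Y → Fin n → ℝ) (S : Finset Y) : ℝ :=
  if h : S.card = n then (Matrix.of fun i => v (S.orderEmbOfFin h i)).det else 0

/-- Coefficients of the linear relation between `n + 1` vectors. -/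
noncomputable def aa (n : ℕ) (v : Y → Fin n → ℝ) (σ : Finset Y) (y : Y) : ℝ :=
  (sgn y σ : ℝ) * detS n v (σ.erase y)

open Classical in
/-- The Euler cocycle on a simplex. -/
noncomputable def epsS (n : ℕ) (v : Y → Fin n → ℝ) (σ : Finset Y) : ℝ :=
  if ∀ y ∈ σ, 0 < aa n v σ y then 1 else if ∀ y ∈ σ, aa n v σ y < 0 then -1 else 0

section Lin

variable (R : Type) [CommRing R] (N : Type) [AddCommGroup N] [Module R N]

/-- Coboundary in `K` with constant coefficients. -/
def cob (K : Finset (Finset Y)) : (Finset Y → N) →ₗ[R] (Finset Y → N) where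
  toFun f τ := if τ ∈ K then ∑ y ∈ τ, (sgn y τ : R) • f (τ.erase y) else 0
  map_add' f g := by
    ext τ; simp only [Pi.add_apply]; split_ifs <;> simp [sum_add_distrib]
  map_smul' c f := by
    ext τ; simp only [Pi.smul_apply, RingHom.id_apply]
    split_ifs <;> simp [Finset.smul_sum, smul_comm c]

/-- Boundary in the full augmented simplex with constant coefficients. -/
def bdy [Fintype Y] : (Finset Y → N) →ₗ[R] (Finset Y → N) where
  toFun x S := ∑ y ∈ Sᶜ, (sgn y (insert y S) : R) • x (insert y S)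
  map_add' f g := by
    ext τ; simp [sum_add_distrib]
  map_smul' c f := by
    ext τ; simp [Finset.smul_sum, smul_comm c]

end Lin

/-- Support on the faces with `c` vertices containing `S`. -/
def Supp {N : Type} [Zero N] (K : Finset (Finset Y)) (S : Finset Y) (c : ℕ) (f : Finset Y → N) :
    Prop := ∀ τ, f τ ≠ 0 → τ ∈ K ∧ S ⊆ τ ∧ τ.card = c

/-- The fundamental chain is a cycle. -/
def Cyc [Fintype Y] (K : Finset (Finset Y)) (n : ℕ) (o : Finset Y → ℝ) : Prop :=
  ∀ τ ∈ K, τ.card = n →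
    ∑ y ∈ τᶜ.filter (fun y => insert y τ ∈ K), o (insert y τ) * (sgn y (insert y τ) : ℝ) = 0

/-- Cochains on the star of a simplex are exact below the top degree, and in the top degree the
cokernel is detected by the orientation. -/
def LinkExact (K : Finset (Finset Y)) (n : ℕ) (o : Finset Y → ℝ) (N : Type) [AddCommGroup N]
    [Module ℝ N] : Prop :=
  ∀ S ∈ K, S.Nonempty → ∀ (P : Submodule ℝ N) (c : ℕ) (f : Finset Y → N), Supp K S (c + 1) f →
    (∀ τ, f τ ∈ P) → cob ℝ N K f = 0 → (c = n → ∑ σ ∈ tops K n, o σ • f σ = 0) →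
      ∃ g : Finset Y → N, Supp K S c g ∧ (∀ τ, g τ ∈ P) ∧ cob ℝ N K g = f

/-- `w` has no vanishing coordinate in the top cones at `a`. -/
def Gen (K : Finset (Finset Y)) (n : ℕ) (p : Y → Fin n → ℝ) (a : Y) (w : Fin n → ℝ) : Prop :=
  ∀ σ ∈ K, σ.card = n + 1 → a ∈ σ → ∀ c : Y → ℝ, w = ∑ j ∈ σ.erase a, c j • p j →
    ∀ j ∈ σ.erase a, c j ≠ 0

/-- The coordinates of `w` in the cone of `σ` at `a` are positive outside `τ`. -/
def PosOff {n : ℕ} (p : Y → Fin n → ℝ) (a : Y) (σ τ : Finset Y) (w : Fin n → ℝ) : Prop :=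
  ∃ c : Y → ℝ, w = ∑ j ∈ σ.erase a, c j • p j ∧ ∀ j ∈ σ \ τ, 0 < c j

/-- The linear programming property of the star of `a`. -/
def Star (K : Finset (Finset Y)) (n : ℕ) (p : Y → Fin n → ℝ) (a : Y) : Prop :=
  ∀ w, Gen K n p a w → ∃ val : Finset Y → ℝ,
    (∀ τ ∈ K, a ∈ τ → ∃ σ ∈ K, σ.card = n + 1 ∧ τ ⊆ σ ∧ PosOff p a σ τ w) ∧
    (∀ τ σ σ' : Finset Y, a ∈ τ → σ ∈ K → σ.card = n + 1 → τ ⊆ σ → PosOff p a σ τ w →
      σ' ∈ K → σ'.card = n + 1 → τ ⊆ σ' → σ' ≠ σ → val σ' < val σ)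

end Comb

/-- A simplicial complex with local linear models and a flat transport. -/
structure Fan (n : ℕ) (Y : Type) [LinearOrder Y] where
  K : Finset (Finset Y)
  pos : Y → Y → Fin n → ℝ
  T : Y → Y → Matrix (Fin n) (Fin n) ℝ
  down : ∀ S ∈ K, ∀ R, R ⊆ S → R ∈ K
  sing : ∀ y, {y} ∈ K
  card_le : ∀ S ∈ K, S.card ≤ n + 1
  pos_self : ∀ a, pos a a = 0
  T_self : ∀ a, T a a = 1
  T_mul : ∀ a b c, {a, b, c} ∈ K → T a b * T b c = T a c
  indep : ∀ σ ∈ K, σ.card = n + 1 → ∀ a ∈ σ,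
    LinearIndependent ℝ (fun j : {j // j ∈ σ.erase a} => pos a j.1)
  star : ∀ a, Star K n (pos a) a
  close : ∀ σ ∈ K, σ.card = n + 1 → ∀ a ∈ σ, ∀ b ∈ σ, ∀ c ∈ σ, c ≠ b →
    ∃ t : ℝ, 0 < t ∧ ∃ β : Y → ℝ, t • (T a b *ᵥ pos b c) = ∑ j ∈ σ.erase a, β j • pos a j ∧
      ∀ j ∈ σ.erase a,
        (n : ℝ) ^ 2 * |β j - ((if j = c then 1 else 0) - (if j = b then 1 else 0))| < 1

section FanDefs

variable {n : ℕ} {Y : Type} [LinearOrder Y]

/-- The transports have determinant one. -/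
def Fan.Det1 (D : Fan n Y) : Prop := ∀ a b, {a, b} ∈ D.K → (D.T a b).det = 1

/-- `o` is the orientation of the top simplices in all local models. -/
def Fan.IsOri (D : Fan n Y) (o : Finset Y → ℝ) : Prop :=
  ∀ σ ∈ D.K, σ.card = n + 1 → (o σ = 1 ∨ o σ = -1) ∧ ∀ a ∈ σ, 0 < o σ * aa n (D.pos a) σ a

/-- Vertex vectors seen in the chart at `a`. -/
noncomputable def Fan.vv (D : Fan n Y) (v : Y → Fin n → ℝ) (a y : Y) : Fin n → ℝ :=
  D.T a y *ᵥ v y

/-- Vertex vectors in general position. -/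
def Fan.GP (D : Fan n Y) (v : Y → Fin n → ℝ) : Prop :=
  ∀ σ ∈ D.K, σ.card = n + 1 → ∀ a ∈ σ, ∀ y ∈ σ, aa n (D.vv v a) σ y ≠ 0

end FanDefs

open Classical in
/-- Nerve of a finite family of sets. -/
noncomputable def nerve {Y X : Type} [Fintype Y] (U : Y → Set X) : Finset (Finset Y) :=
  univ.filter (fun S => (⋂ y ∈ S, U y).Nonempty)

/-- A finite open cover with contractible intersections. -/
structure GoodCover {Y X : Type} [Fintype Y] [TopologicalSpace X] (U : Y → Set X) : Prop where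
  isOpen : ∀ y, IsOpen (U y)
  ne : ∀ y, (U y).Nonempty
  cover : ∀ x, ∃ y, x ∈ U y
  contr : ∀ S : Finset Y, S.Nonempty → S ∈ nerve U → ContractibleSpace (⋂ y ∈ S, U y : Set X)

/-- A simplicial covering: stars are mapped isomorphically. -/
structure IsCov {Y Y' : Type} [LinearOrder Y] [LinearOrder Y'] (K : Finset (Finset Y))
    (K' : Finset (Finset Y')) (pr : Y' → Y) (lift : Y' → Y → Y') : Prop where
  pr_lift : ∀ x j, {pr x, j} ∈ K → pr (lift x j) = j
  lift_mem : ∀ x, ∀ S ∈ K, pr x ∈ S → S.image (lift x) ∈ K'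
  lift_self : ∀ x, lift x (pr x) = x
  pr_mem : ∀ S ∈ K', S.image pr ∈ K
  lift_pr : ∀ S ∈ K', ∀ x ∈ S, ∀ x' ∈ S, lift x (pr x') = x'
  down : ∀ S ∈ K', ∀ R, R ⊆ S → R ∈ K'

/-- Rank of the image of `Z` in the quotient by `B`. -/
noncomputable def hrank {k V : Type} [Field k] [AddCommGroup V] [Module k V]
    (Z B : Submodule k V) : Cardinal := Module.rank k (Z.map B.mkQ)

/-- Dimension of the image of `Z` in the quotient by `B`. -/
noncomputable def hdim {k V : Type} [Field k] [AddCommGroup V] [Module k V]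
    (Z B : Submodule k V) : ℕ := Module.finrank k (Z.map B.mkQ)

section Ext

/-- Index set of the exterior power. -/
abbrev Idx (n m : ℕ) : Type := {I : Finset (Fin n) // I.card = m}

variable {R : Type} [CommRing R] {n : ℕ}

/-- Pluecker coordinates. -/
def plk {m : ℕ} (f : Fin m → Fin n → R) : Idx n m → R :=
  fun I => (Matrix.of fun i j => f i (I.1.orderEmbOfFin I.2 j)).det

/-- Compound matrix. -/
def cmp (m : ℕ) (T : Matrix (Fin n) (Fin n) R) : Matrix (Idx n m) (Idx n m) R :=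
  fun I J => (T.submatrix (I.1.orderEmbOfFin I.2) (J.1.orderEmbOfFin J.2)).det

/-- Pluecker coordinates of the vectors indexed by `S`. -/
noncomputable def plkS {Y : Type} [LinearOrder Y] (m : ℕ) (v : Y → Fin n → ℝ) (S : Finset Y) :
    Idx n m → ℝ :=
  if h : S.card = m then plk (fun i => v (S.orderEmbOfFin h i)) else 0

/-- The multiples of `v` in the exterior power. -/
def Lv (m : ℕ) (v : Fin n → ℝ) : Submodule ℝ (Idx n m → ℝ) :=
  Submodule.span ℝ {x | ∃ f : Fin m → Fin n → ℝ, (∃ i, f i = v) ∧ x = plk f}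

end Ext

/-- A family of projections adapted to the subspaces `L y`, `y ∈ τ`. -/
def Adapted {k E Y : Type} [Field k] [AddCommGroup E] [Module k E] (L : Y → Submodule k E)
    (τ : Finset Y) : Prop :=
  ∃ P : Y → E →ₗ[k] E, (∀ c ∈ τ, ∀ x, P c x ∈ L c) ∧
    (∀ c ∈ τ, ∀ y ∈ τ, ∀ x ∈ L y, P c x ∈ L y) ∧ (∀ y ∈ τ, ∀ x ∈ L y, ∑ c ∈ τ, P c x = x)

/-- Uniform local description of an embedded manifold with flat frames. -/
def Geo (n : ℕ) (M : Type) [TopologicalSpace M] : Prop :=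
  ∃ (N : ℕ) (e : M → EuclideanSpace ℝ (Fin N))
    (B : M → EuclideanSpace ℝ (Fin n) →L[ℝ] EuclideanSpace ℝ (Fin N))
    (T : M → M → EuclideanSpace ℝ (Fin n) →L[ℝ] EuclideanSpace ℝ (Fin n)) (c C : ℝ),
    Topology.IsEmbedding e ∧ 0 < c ∧ (∀ p u, c * ‖u‖ ≤ ‖B p u‖) ∧ (∀ p, ‖B p‖ ≤ C) ∧
    (∀ p u, T p p u = u) ∧
    ∀ δ : ℝ, 0 < δ → ∃ r : ℝ, 0 < r ∧
      (∀ p q s, dist (e p) (e q) < r → dist (e q) (e s) < r → dist (e p) (e s) < r →
        ∀ u, T p q (T q s u) = T p s u) ∧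
      (∀ p q, dist (e p) (e q) < r → ∀ u, ‖B q u - B p (T p q u)‖ ≤ δ * ‖u‖) ∧
      ∀ p, ∃ κ : EuclideanSpace ℝ (Fin n) → M, κ 0 = p ∧
        (∀ u u', ‖u‖ < r → ‖u'‖ < r → ‖e (κ u) - e (κ u') - B p (u - u')‖ ≤ δ * ‖u - u'‖) ∧
        ∀ z, dist (e z) (e p) < c * r / 2 → ∃ u, ‖u‖ < r ∧ κ u = z

end Pool.Agent.Work.MP_dd0bbc_gt
end

-- merged part: Pool.Agent.Work.MP_dd0bbc_gt.Sgn
section
/-! Basic lemmas on signs, boundaries and determinants. -/

set_option autoImplicit false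

namespace Pool.Agent.Work.MP_dd0bbc_gt

open Finset Matrix

variable {Y : Type} [LinearOrder Y]

lemma sgn_mul_self (y : Y) (S : Finset Y) : sgn y S * sgn y S = 1 := by
  rw [sgn, ← pow_add, ← two_mul, pow_mul]; simp

lemma sgn_cast_mul_self (R : Type) [CommRing R] (y : Y) (S : Finset Y) :
    (sgn y S : R) * (sgn y S : R) = 1 := by
  rw [← Int.cast_mul, sgn_mul_self, Int.cast_one]

lemma sgn_eq_or (y : Y) (S : Finset Y) : sgn y S = 1 ∨ sgn y S = -1 := neg_one_pow_eq_or ℤ _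

lemma sgn_erase_self (y : Y) (S : Finset Y) : sgn y (S.erase y) = sgn y S := by
  unfold sgn; congr 2; ext x; simp only [mem_filter, mem_erase]
  exact ⟨fun h => ⟨h.1.2, h.2⟩, fun h => ⟨⟨h.2.ne, h.1⟩, h.2⟩⟩

lemma sgn_insert_self (y : Y) (S : Finset Y) : sgn y (insert y S) = sgn y S := by
  unfold sgn; congr 2; ext x; simp only [mem_filter, mem_insert]
  exact ⟨fun h => ⟨h.1.resolve_left h.2.ne, h.2⟩, fun h => ⟨Or.inr h.1, h.2⟩⟩

lemma sgn_insert_of_lt {x y : Y} {S : Finset Y} (hx : x ∉ S) (h : x < y) :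
    sgn y (insert x S) = -sgn y S := by
  unfold sgn
  rw [filter_insert, if_pos h, card_insert_of_notMem (fun h' => hx (mem_filter.1 h').1), pow_succ]
  ring

lemma sgn_insert_of_le {x y : Y} {S : Finset Y} (h : y ≤ x) : sgn y (insert x S) = sgn y S := by
  unfold sgn
  rw [filter_insert, if_neg (not_lt.2 h)]

/-- The basic sign rule. -/
lemma sgn_anti {x y : Y} {S : Finset Y} (hxy : x ≠ y) (hx : x ∉ S) (hy : y ∉ S) :
    sgn x S * sgn y (insert x S) = -(sgn y S * sgn x (insert y S)) := by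
  rcases lt_or_gt_of_ne hxy with h | h
  · rw [sgn_insert_of_lt hx h, sgn_insert_of_le h.le]; ring
  · rw [sgn_insert_of_lt hy h, sgn_insert_of_le h.le]; ring

/-- The basic sign rule, in terms of `erase`. -/
lemma sgn_anti_erase {x y : Y} {S : Finset Y} (hxy : x ≠ y) (hx : x ∈ S) (hy : y ∈ S) :
    sgn x S * sgn y (S.erase x) = -(sgn y S * sgn x (S.erase y)) := by
  rcases lt_or_gt_of_ne hxy with hl | hl
  · have a1 : sgn y S = -sgn y (S.erase x) := by
      conv_lhs => rw [← insert_erase hx]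
      exact sgn_insert_of_lt (notMem_erase _ _) hl
    have a2 : sgn x S = sgn x (S.erase y) := by
      conv_lhs => rw [← insert_erase hy]
      exact sgn_insert_of_le hl.le
    rw [a1, a2]; ring
  · have a1 : sgn x S = -sgn x (S.erase y) := by
      conv_lhs => rw [← insert_erase hy]
      exact sgn_insert_of_lt (notMem_erase _ _) hl
    have a2 : sgn y S = sgn y (S.erase x) := by
      conv_lhs => rw [← insert_erase hx]
      exact sgn_insert_of_le hl.le
    rw [a1, a2]; ring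

/-- A double sum that is antisymmetric vanishes. -/
lemma sum_anti_eq_zero {N : Type} [AddCommGroup N] (S : Finset Y) (F : Y → Y → N)
    (h : ∀ x ∈ S, ∀ y ∈ S, x ≠ y → F x y = -F y x) : ∑ x ∈ S, ∑ y ∈ S.erase x, F x y = 0 := by
  have e : ∀ x ∈ S, ∑ y ∈ S.erase x, F x y =
      ∑ y ∈ S, (if y < x then F x y else 0) + ∑ y ∈ S, (if x < y then F x y else 0) := by
    intro x _
    rw [← sum_add_distrib, ← sum_erase S (a := x) (by simp)]
    refine sum_congr rfl (fun y hy => ?_)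
    rcases lt_or_gt_of_ne (mem_erase.1 hy).1 with hl | hl
    · simp [hl, hl.le]
    · simp [hl, hl.le]
  rw [sum_congr rfl e, sum_add_distrib, sum_comm (s := S) (t := S), ← sum_add_distrib]
  refine sum_eq_zero (fun y hy => ?_)
  rw [← sum_add_distrib]
  refine sum_eq_zero (fun x hx => ?_)
  split_ifs with hl
  · rw [h x hx y hy hl.ne']; simp
  · simp

section Lin

variable {R : Type} [CommRing R] {N : Type} [AddCommGroup N] [Module R N]

lemma cob_apply (K : Finset (Finset Y)) (f : Finset Y → N) (τ : Finset Y) :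
    cob R N K f τ = if τ ∈ K then ∑ y ∈ τ, (sgn y τ : R) • f (τ.erase y) else 0 := rfl

lemma bdy_apply [Fintype Y] (x : Finset Y → N) (S : Finset Y) :
    bdy R N x S = ∑ y ∈ Sᶜ, (sgn y (insert y S) : R) • x (insert y S) := rfl

lemma cob_cob {K : Finset (Finset Y)} (hK : ∀ S ∈ K, ∀ T, T ⊆ S → T ∈ K) (f : Finset Y → N) :
    cob R N K (cob R N K f) = 0 := by
  ext τ
  rw [cob_apply, Pi.zero_apply]
  split_ifs with hτ
  · have : ∀ y ∈ τ, (sgn y τ : R) • cob R N K f (τ.erase y) =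
        ∑ x ∈ τ.erase y, ((sgn y τ * sgn x (τ.erase y) : ℤ) : R) • f ((τ.erase y).erase x) := by
      intro y _
      rw [cob_apply, if_pos (hK τ hτ _ (erase_subset _ _)), Finset.smul_sum]
      simp only [smul_smul, Int.cast_mul]
    rw [sum_congr rfl this]
    refine sum_anti_eq_zero τ _ (fun x hx y hy hxy => ?_)
    rw [sgn_anti_erase hxy hx hy, erase_right_comm, Int.cast_neg, neg_smul]
  · rfl

lemma bdy_bdy [Fintype Y] (x : Finset Y → N) : bdy R N (bdy R N x) = 0 := by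
  ext S
  rw [bdy_apply, Pi.zero_apply]
  have : ∀ y ∈ Sᶜ, (sgn y (insert y S) : R) • bdy R N x (insert y S) =
      ∑ z ∈ Sᶜ.erase y, ((sgn y S * sgn z (insert y S) : ℤ) : R) • x (insert z (insert y S)) := by
    intro y _
    rw [bdy_apply, Finset.smul_sum, compl_insert]
    simp only [smul_smul, Int.cast_mul, sgn_insert_self]
  rw [sum_congr rfl this]
  refine sum_anti_eq_zero _ _ (fun a ha b hb hab => ?_)
  rw [sgn_anti hab (mem_compl.1 ha) (mem_compl.1 hb), Finset.insert_comm, Int.cast_neg, neg_smul]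

end Lin

lemma sgn_orderEmb {k : ℕ} {S : Finset Y} (h : S.card = k) (i : Fin k) :
    sgn (S.orderEmbOfFin h i) S = (-1) ^ (i : ℕ) := by
  unfold sgn
  congr 1
  have : S.filter (· < S.orderEmbOfFin h i) = (Finset.Iio i).map (S.orderEmbOfFin h).toEmbedding := by
    ext x
    simp only [mem_filter, mem_map, mem_Iio, RelEmbedding.coe_toEmbedding]
    constructor
    · rintro ⟨hx, hl⟩
      obtain ⟨j, rfl⟩ : x ∈ Set.range (S.orderEmbOfFin h) := by
        rw [range_orderEmbOfFin]; exact hx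
      exact ⟨j, (S.orderEmbOfFin h).lt_iff_lt.1 hl, rfl⟩
    · rintro ⟨j, hj, rfl⟩
      exact ⟨orderEmbOfFin_mem _ _ _, (S.orderEmbOfFin h).lt_iff_lt.2 hj⟩
  rw [this, card_map, Fin.card_Iio]

lemma orderEmb_erase {k : ℕ} {S : Finset Y} (h : S.card = k + 1) (i : Fin (k + 1))
    (h' : (S.erase (S.orderEmbOfFin h i)).card = k) (j : Fin k) :
    (S.erase (S.orderEmbOfFin h i)).orderEmbOfFin h' j = S.orderEmbOfFin h (i.succAbove j) := by
  have := orderEmbOfFin_unique h' (f := fun j => S.orderEmbOfFin h (i.succAbove j))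
    (fun j => mem_erase.2 ⟨fun e => Fin.succAbove_ne i j ((S.orderEmbOfFin h).injective e),
      orderEmbOfFin_mem _ _ _⟩)
    ((S.orderEmbOfFin h).strictMono.comp (Fin.strictMono_succAbove i))
  exact (congrFun this j).symm

lemma exists_orderEmb_eq {k : ℕ} {S : Finset Y} (h : S.card = k) {y : Y} (hy : y ∈ S) :
    ∃ i, S.orderEmbOfFin h i = y := by
  have : y ∈ Set.range (S.orderEmbOfFin h) := by rw [range_orderEmbOfFin]; exact hy
  exact this

lemma sum_orderEmb {N : Type} [AddCommMonoid N] {k : ℕ} {S : Finset Y} (h : S.card = k)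
    (f : Y → N) : ∑ y ∈ S, f y = ∑ i, f (S.orderEmbOfFin h i) := by
  conv_lhs => rw [← map_orderEmbOfFin_univ S h]
  rw [sum_map]; rfl

lemma prod_orderEmb {N : Type} [CommMonoid N] {k : ℕ} {S : Finset Y} (h : S.card = k)
    (f : Y → N) : ∏ y ∈ S, f y = ∏ i, f (S.orderEmbOfFin h i) := by
  conv_lhs => rw [← map_orderEmbOfFin_univ S h]
  rw [prod_map]; rfl

/-- Moving a vertex to the front in an alternating map. -/
lemma alt_erase {V N : Type} [AddCommGroup V] [Module ℝ V] [AddCommGroup N] [Module ℝ N] {k : ℕ}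
    (φ : V [⋀^Fin (k + 1)]→ₗ[ℝ] N) (v : Y → V) {S : Finset Y} (h : S.card = k + 1) {y : Y}
    (hy : y ∈ S) (h' : (S.erase y).card = k) :
    φ (fun i => v (S.orderEmbOfFin h i)) =
      (sgn y S : ℝ) • φ (Fin.cons (v y) (fun j => v ((S.erase y).orderEmbOfFin h' j))) := by
  obtain ⟨i, rfl⟩ := exists_orderEmb_eq h hy
  have e : (Fin.cons (v (S.orderEmbOfFin h i))
      (fun j => v ((S.erase (S.orderEmbOfFin h i)).orderEmbOfFin h' j)) : Fin (k + 1) → V) =
      (fun i => v (S.orderEmbOfFin h i)) ∘ i.cycleRange.symm := by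
    ext j
    refine Fin.cases ?_ (fun j => ?_) j
    · simp
    · simp [orderEmb_erase h i h' j]
  rw [e, AlternatingMap.map_perm, sgn_orderEmb, Equiv.Perm.sign_symm, Fin.sign_cycleRange]
  rcases neg_one_pow_eq_or ℤˣ (i : ℕ) with e1 | e1
  · have : ((-1 : ℤ) ^ (i : ℕ)) = 1 := by simpa using congrArg Units.val e1
    rw [e1, this]; simp
  · have : ((-1 : ℤ) ^ (i : ℕ)) = -1 := by simpa using congrArg Units.val e1
    rw [e1, this]; simp

variable {n : ℕ}

lemma detS_congr {v w : Y → Fin n → ℝ} {S : Finset Y} (h : ∀ y ∈ S, v y = w y) :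
    detS n v S = detS n w S := by
  unfold detS
  split_ifs with hS
  · congr 2; ext1 i; exact h _ (orderEmbOfFin_mem _ _ _)
  · rfl

lemma detS_mulVec (A : Matrix (Fin n) (Fin n) ℝ) (v : Y → Fin n → ℝ) (S : Finset Y) :
    detS n (fun y => A *ᵥ v y) S = A.det * detS n v S := by
  unfold detS
  split_ifs with hS
  · rw [← det_transpose A, mul_comm, ← det_mul]
    congr 1; ext i j; simp [Matrix.mul_apply, mulVec, dotProduct, mul_comm]
  · simp

lemma detS_smul (c : Y → ℝ) (v : Y → Fin n → ℝ) (S : Finset Y) :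
    detS n (fun y => c y • v y) S = (∏ y ∈ S, c y) * detS n v S := by
  unfold detS
  split_ifs with hS
  · rw [prod_orderEmb hS, ← det_mul_column]; rfl
  · simp

lemma detS_ne_zero_iff {v : Y → Fin n → ℝ} {S : Finset Y} (hS : S.card = n) :
    detS n v S ≠ 0 ↔ LinearIndependent ℝ (fun j : {j // j ∈ S} => v j.1) := by
  unfold detS
  rw [dif_pos hS, ← isUnit_iff_ne_zero, ← isUnit_iff_isUnit_det, ← linearIndependent_rows_iff_isUnit,
    ← linearIndependent_equiv (S.orderIsoOfFin hS).toEquiv]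
  rfl

lemma aa_congr {v w : Y → Fin n → ℝ} {σ : Finset Y} {y : Y} (h : ∀ x ∈ σ.erase y, v x = w x) :
    aa n v σ y = aa n w σ y := by
  rw [aa, aa, detS_congr h]

lemma aa_mulVec (A : Matrix (Fin n) (Fin n) ℝ) (v : Y → Fin n → ℝ) (σ : Finset Y) (y : Y) :
    aa n (fun y => A *ᵥ v y) σ y = A.det * aa n v σ y := by
  rw [aa, aa, detS_mulVec]; ring

lemma aa_orderEmb (v : Y → Fin n → ℝ) {σ : Finset Y} (h : σ.card = n + 1) (i : Fin (n + 1)) :
    aa n v σ (σ.orderEmbOfFin h i) =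
      (-1) ^ (i : ℕ) * (Matrix.of fun j => v (σ.orderEmbOfFin h (i.succAbove j))).det := by
  have h' : (σ.erase (σ.orderEmbOfFin h i)).card = n := by
    rw [card_erase_of_mem (orderEmbOfFin_mem _ _ _), h]; rfl
  rw [aa, sgn_orderEmb, detS, dif_pos h']
  simp only [orderEmb_erase h i h']
  push_cast; rfl

/-- The linear relation between `n + 1` vectors. -/
lemma aa_rel (v : Y → Fin n → ℝ) {σ : Finset Y} (h : σ.card = n + 1) :
    ∑ y ∈ σ, aa n v σ y • v y = 0 := by
  rw [sum_orderEmb h]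
  ext k
  let M : Matrix (Fin (n + 1)) (Fin (n + 1)) ℝ :=
    Matrix.of fun i => Fin.cons (v (σ.orderEmbOfFin h i) k) (v (σ.orderEmbOfFin h i))
  have h0 : M.det = 0 :=
    det_zero_of_column_eq (i := 0) (j := k.succ) (Fin.succ_ne_zero k).symm (fun i => by simp [M])
  rw [det_succ_column_zero] at h0
  rw [Finset.sum_apply, Pi.zero_apply, ← h0]
  refine sum_congr rfl (fun i _ => ?_)
  rw [aa_orderEmb, Pi.smul_apply, smul_eq_mul]
  have : M.submatrix i.succAbove Fin.succ =
      Matrix.of fun j => v (σ.orderEmbOfFin h (i.succAbove j)) := by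
    ext a b; simp [M]
  rw [this]; simp [M]; ring

/-- Uniqueness of the relation. -/
lemma rel_unique {v : Y → Fin n → ℝ} {σ : Finset Y} (h : σ.card = n + 1) {x : Y} (hx : x ∈ σ)
    (hax : aa n v σ x ≠ 0) {c : Y → ℝ} (hc : ∑ y ∈ σ, c y • v y = 0) :
    ∀ y ∈ σ, c y = c x / aa n v σ x * aa n v σ y := by
  have h' : (σ.erase x).card = n := by rw [card_erase_of_mem hx, h]; rfl
  have hli := (detS_ne_zero_iff (v := v) h').1 (right_ne_zero_of_mul hax)
  have h1 : ∑ y ∈ σ, (c y - c x / aa n v σ x * aa n v σ y) • v y = 0 := by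
    simp only [sub_smul, mul_smul, sum_sub_distrib, ← Finset.smul_sum, aa_rel v h, hc, smul_zero,
      sub_zero]
  rw [← add_sum_erase σ _ hx, div_mul_cancel₀ _ hax, sub_self, zero_smul, zero_add,
    ← sum_coe_sort] at h1
  have h2 := Fintype.linearIndependent_iff.1 hli _ h1
  intro y hy
  by_cases e : y = x
  · rw [e, div_mul_cancel₀ _ hax]
  · exact sub_eq_zero.1 (h2 ⟨y, mem_erase.2 ⟨e, hy⟩⟩)

/-- Every vector is a combination of `n` independent vectors. -/
lemma exists_coord {v : Y → Fin n → ℝ} {S : Finset Y} (hS : S.card = n)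
    (hli : LinearIndependent ℝ (fun j : {j // j ∈ S} => v j.1)) (w : Fin n → ℝ) :
    ∃ c : Y → ℝ, w = ∑ j ∈ S, c j • v j := by
  have hsp := hli.span_eq_top_of_card_eq_finrank' (by simp [hS])
  have hw : w ∈ Submodule.span ℝ (Set.range fun j : {j // j ∈ S} => v j.1) := by
    rw [hsp]; trivial
  obtain ⟨c, hc⟩ := (Submodule.mem_span_range_iff_exists_fun ℝ).1 hw
  refine ⟨fun y => if h : y ∈ S then c ⟨y, h⟩ else 0, ?_⟩
  rw [← hc, ← sum_coe_sort S]
  exact sum_congr rfl (fun j _ => by simp)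

omit [LinearOrder Y] in
/-- Coordinates are unique. -/
lemma coord_unique {v : Y → Fin n → ℝ} {S : Finset Y}
    (hli : LinearIndependent ℝ (fun j : {j // j ∈ S} => v j.1)) {c d : Y → ℝ}
    (h : ∑ j ∈ S, c j • v j = ∑ j ∈ S, d j • v j) : ∀ j ∈ S, c j = d j := by
  have h1 : ∑ j : {j // j ∈ S}, (c j - d j) • v j.1 = 0 := by
    rw [sum_coe_sort S (fun j => (c j - d j) • v j)]
    simp only [sub_smul, sum_sub_distrib, h, sub_self]
  intro j hj
  exact sub_eq_zero.1 (Fintype.linearIndependent_iff.1 hli _ h1 ⟨j, hj⟩)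

omit [LinearOrder Y] in
lemma mem_nerve [Fintype Y] {X : Type} {U : Y → Set X} {S : Finset Y} :
    S ∈ nerve U ↔ ∃ x, ∀ y ∈ S, x ∈ U y := by
  simp [nerve, Set.Nonempty]

omit [LinearOrder Y] in
lemma nerve_down [Fintype Y] {X : Type} (U : Y → Set X) :
    ∀ S ∈ nerve U, ∀ T, T ⊆ S → T ∈ nerve U := by
  intro S hS T hT
  obtain ⟨x, hx⟩ := mem_nerve.1 hS
  exact mem_nerve.2 ⟨x, fun y hy => hx y (hT hy)⟩

omit [LinearOrder Y] in
lemma mem_tops {K : Finset (Finset Y)} {σ : Finset Y} : σ ∈ tops K n ↔ σ ∈ K ∧ σ.card = n + 1 :=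
  mem_filter

end Pool.Agent.Work.MP_dd0bbc_gt
end

-- merged part: Pool.Agent.Work.MP_dd0bbc_gt.WittDefs
section
/-! Abstract data for the reduction of the intersection form. -/

set_option autoImplicit false

namespace Pool.Agent.Work.MP_dd0bbc_gt

open Finset Matrix

/-- Functions on the faces of `K` with `c` vertices. -/
def Fc (R N : Type) [CommRing R] [AddCommGroup N] [Module R N] {Y : Type}
    (K : Finset (Finset Y)) (c : ℕ) : Submodule R (Finset Y → N) where
  carrier := {f | ∀ τ, f τ ≠ 0 → τ ∈ K ∧ τ.card = c}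
  add_mem' := by
    intro f g hf hg τ h
    by_cases e : f τ = 0
    · exact hg τ (by simpa [e] using h)
    · exact hf τ e
  zero_mem' := fun τ h => (h rfl).elim
  smul_mem' := by
    intro r f hf τ h
    exact hf τ (fun e => h (by simp [e]))

/-- Coboundary with local coefficients. -/
def tcob {R ι Y : Type} [CommRing R] [Fintype ι] [LinearOrder Y] (K : Finset (Finset Y))
    (bs : Finset Y → Y) (U : Y → Y → Matrix ι ι R) :
    (Finset Y → ι → R) →ₗ[R] (Finset Y → ι → R) where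
  toFun f τ := if τ ∈ K then
    ∑ y ∈ τ, (sgn y τ : R) • (U (bs τ) (bs (τ.erase y)) *ᵥ f (τ.erase y)) else 0
  map_add' f g := by
    ext1 τ; simp only [Pi.add_apply]; split_ifs <;> simp [sum_add_distrib, mulVec_add]
  map_smul' c f := by
    ext1 τ; simp only [Pi.smul_apply, RingHom.id_apply]
    split_ifs <;> simp [Finset.smul_sum, smul_comm c, mulVec_smul]

/-- Boundary with local coefficients (not augmented). -/
def tbdy {R ι Y : Type} [CommRing R] [Fintype ι] [Fintype Y] [LinearOrder Y]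
    (bs : Finset Y → Y) (U : Y → Y → Matrix ι ι R) :
    (Finset Y → ι → R) →ₗ[R] (Finset Y → ι → R) where
  toFun z S := if S = ∅ then 0 else
    ∑ y ∈ Sᶜ, (sgn y (insert y S) : R) • (U (bs S) (bs (insert y S)) *ᵥ z (insert y S))
  map_add' f g := by
    ext1 τ; simp only [Pi.add_apply]; split_ifs <;> simp [sum_add_distrib, mulVec_add]
  map_smul' c f := by
    ext1 τ; simp only [Pi.smul_apply, RingHom.id_apply]
    split_ifs <;> simp [Finset.smul_sum, smul_comm c, mulVec_smul]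

/-- A local system with a Lagrangian subspace at every vertex. -/
structure WData (m : ℕ) (Y ι : Type) [Fintype Y] [LinearOrder Y] [Fintype ι] [DecidableEq ι] where
  K : Finset (Finset Y)
  o : Finset Y → ℝ
  bs : Finset Y → Y
  U : Y → Y → Matrix ι ι ℝ
  L : Y → Y → Submodule ℝ (ι → ℝ)
  vS : Y → Finset Y → ι → ℝ
  A : Finset Y → Y → ℝ
  Bf : (ι → ℝ) →ₗ[ℝ] (ι → ℝ) →ₗ[ℝ] ℝ
  m_pos : 1 ≤ m
  down : ∀ S ∈ K, ∀ R, R ⊆ S → R ∈ K
  card_le : ∀ S ∈ K, S.card ≤ 2 * m + 1
  bs_mem : ∀ S : Finset Y, S.Nonempty → bs S ∈ S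
  o_eq : ∀ σ ∈ tops K (2 * m), o σ = 1 ∨ o σ = -1
  pure : ∀ τ ∈ K, τ.Nonempty → ∃ σ ∈ tops K (2 * m), τ ⊆ σ
  cyc : Cyc K (2 * m) o
  link : LinkExact K (2 * m) o (ι → ℝ)
  U_self : ∀ a, U a a = 1
  U_mul : ∀ a b c, {a, b, c} ∈ K → U a b * U b c = U a c
  L_map : ∀ a b y, {a, b, y} ∈ K → ∀ x ∈ L b y, U a b *ᵥ x ∈ L a y
  vS_map : ∀ a b S, insert a (insert b S) ∈ K → U a b *ᵥ vS b S = vS a S
  adapted : ∀ τ ∈ K, τ.card ≤ 2 * m → ∀ a ∈ τ, Adapted (L a) τ
  span_top : ∀ τ ∈ K, τ.card = m + 1 → ∀ a ∈ τ, ⨆ y ∈ τ, L a y = ⊤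
  inter_bot : ∀ S ∈ K, S.card = m + 1 → ∀ a ∈ S, ∀ x, (∀ y ∈ S, x ∈ L a y) → x = 0
  inter_line : ∀ S ∈ K, S.card = m → ∀ a ∈ S, ∀ x, (∀ y ∈ S, x ∈ L a y) ↔ ∃ t : ℝ, x = t • vS a S
  vS_ne : ∀ S ∈ K, S.card = m → ∀ a ∈ S, vS a S ≠ 0
  A_ne : ∀ σ ∈ tops K (2 * m), ∀ y ∈ σ, A σ y ≠ 0
  ker_top : ∀ σ ∈ tops K (2 * m), ∀ c : Finset Y → ℝ,
    bdy ℝ (ι → ℝ) (fun S => if S ⊆ σ ∧ S.card = m then c S • vS (bs σ) S else 0) = 0 ↔
      ∃ t : ℝ, ∀ S, S ⊆ σ → S.card = m → c S = t * ∏ y ∈ S, A σ y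
  iso : ∀ S S' : Finset Y, S.card = m → S'.card = m →
    ∑ σ ∈ (tops K (2 * m)).filter (fun σ => S ⊆ σ ∧ S' ⊆ σ),
      o σ * (∏ y ∈ S, A σ y) * (∏ y ∈ S', A σ y) / ∏ y ∈ σ, A σ y = 0
  Bf_inv : ∀ a b, {a, b} ∈ K → ∀ x y, Bf (U a b *ᵥ x) (U a b *ᵥ y) = Bf x y
  Bf_nondeg : ∀ x, (∀ y, Bf x y = 0) → x = 0
  Bf_perp : ∀ S ∈ K, S.card = m → ∀ a ∈ S, ∀ x, Bf (vS a S) x = 0 → x ∈ ⨆ y ∈ S, L a y

namespace WData

variable {m : ℕ} {Y ι : Type} [Fintype Y] [LinearOrder Y] [Fintype ι] [DecidableEq ι]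
  (W : WData m Y ι)

/-- The coboundary. -/
abbrev δ : (Finset Y → ι → ℝ) →ₗ[ℝ] (Finset Y → ι → ℝ) := tcob W.K W.bs W.U

/-- Cochains on the faces with `c` vertices. -/
abbrev CE (c : ℕ) : Submodule ℝ (Finset Y → ι → ℝ) := Fc ℝ (ι → ℝ) W.K c

/-- Cochains with values in the sums of the Lagrangians. -/
def CF (c : ℕ) : Submodule ℝ (Finset Y → ι → ℝ) :=
  W.CE c ⊓ Submodule.pi Set.univ (fun τ => ⨆ y ∈ τ, W.L (W.bs τ) y)

/-- Cycles of degree `m - 1` with values in the intersections of the Lagrangians. -/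
def ZI : Submodule ℝ (Finset Y → ι → ℝ) :=
  W.CE m ⊓ Submodule.pi Set.univ (fun S => ⨅ y ∈ S, W.L (W.bs S) y) ⊓
    LinearMap.ker (tbdy W.bs W.U)

/-- Functions on the top faces. -/
abbrev Wt : Submodule ℝ (Finset Y → ℝ) := Fc ℝ ℝ W.K (2 * m + 1)

/-- The map from the top faces to the cycles. -/
noncomputable def astar : (Finset Y → ℝ) →ₗ[ℝ] (Finset Y → ι → ℝ) where
  toFun w S := if S.card = m then
    (∑ σ ∈ (tops W.K (2 * m)).filter (S ⊆ ·), W.o σ * w σ * ∏ y ∈ S, W.A σ y) • W.vS (W.bs S) S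
    else 0
  map_add' f g := by
    ext1 τ; simp only [Pi.add_apply]
    split_ifs <;> simp [sum_add_distrib, mul_add, add_mul, add_smul]
  map_smul' c f := by
    ext1 τ; simp only [Pi.smul_apply, RingHom.id_apply]
    split_ifs
    · rw [smul_smul, Finset.mul_sum]
      congr 1
      exact sum_congr rfl (fun _ _ => by rw [smul_eq_mul]; ring)
    · simp

/-- Dimension of the cohomology on the faces with `c + 1` vertices. -/
noncomputable def hE (c : ℕ) : ℕ := hdim (W.CE (c + 1) ⊓ LinearMap.ker W.δ) ((W.CE c).map W.δ)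

/-- Dimension of the middle cohomology of the sums of the Lagrangians. -/
noncomputable def hF : ℕ := hdim (W.CE (m + 1) ⊓ LinearMap.ker W.δ) ((W.CF m).map W.δ)

end WData

end Pool.Agent.Work.MP_dd0bbc_gt
end

-- merged part: Pool.Agent.Work.MP_dd0bbc_gt.Zigzag
section
/-! The staircase lemma for double complexes, and small facts on `hrank`, `hdim`. -/

set_option autoImplicit false

namespace Pool.Agent.Work.MP_dd0bbc_gt

theorem rank_range_le_of_ker_le_zz {k S A B : Type} [Field k] [AddCommGroup S] [Module k S]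
    [AddCommGroup A] [Module k A] [AddCommGroup B] [Module k B] (f : S →ₗ[k] A) (g : S →ₗ[k] B)
    (H : LinearMap.ker g ≤ LinearMap.ker f) :
    Module.rank k (LinearMap.range f) ≤ Module.rank k (LinearMap.range g) := by
  rw [← (LinearMap.quotKerEquivRange g).rank_eq, ← Submodule.range_liftQ _ f H]
  exact rank_range_le _

/-- Staircases in a double complex. -/
def stair_zz {k D : Type} [Field k] [AddCommGroup D] [Module k D] (h v : D →ₗ[k] D)
    (𝒟 : ℕ → ℕ → Submodule k D) (j : ℕ) : Submodule k (ℕ → D) where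
  carrier := {x | (∀ p q, p + q = j → x p ∈ 𝒟 p q) ∧ ∀ p < j, v (x p) = h (x (p + 1))}
  add_mem' := by
    rintro x y ⟨hx1, hx2⟩ ⟨hy1, hy2⟩
    refine ⟨fun p q e => (𝒟 p q).add_mem (hx1 p q e) (hy1 p q e), fun p hp => ?_⟩
    simp only [Pi.add_apply, map_add, hx2 p hp, hy2 p hp]
  zero_mem' := ⟨fun p q _ => (𝒟 p q).zero_mem, fun p _ => by simp⟩
  smul_mem' := by
    rintro c x ⟨hx1, hx2⟩
    refine ⟨fun p q e => (𝒟 p q).smul_mem c (hx1 p q e), fun p hp => ?_⟩
    simp only [Pi.smul_apply, map_smul, hx2 p hp]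

theorem zigzag {k D A B : Type} [Field k] [AddCommGroup D] [Module k D] [AddCommGroup A]
    [Module k A] [AddCommGroup B] [Module k B]
    (h v : D →ₗ[k] D) (α : D →ₗ[k] A) (β : D →ₗ[k] B) (dA : A →ₗ[k] A) (dB : B →ₗ[k] B)
    (𝒟 : ℕ → ℕ → Submodule k D) (ℬ : ℕ → Submodule k B) (j : ℕ) (Z N : Submodule k A)
    (ZB : Submodule k B)
    (hh : ∀ p q, ∀ x ∈ 𝒟 (p + 2) q, h (h x) = 0)
    (hv : ∀ p q, ∀ x ∈ 𝒟 (p + 1) (q + 1), h (v x) = v (h x))
    (vv : ∀ p q, ∀ x ∈ 𝒟 p (q + 2), v (v x) = 0)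
    (αh : ∀ q, ∀ x ∈ 𝒟 1 q, α (h x) = 0)
    (βv : ∀ p, ∀ x ∈ 𝒟 p 1, β (v x) = 0)
    (αv : ∀ q, ∀ x ∈ 𝒟 0 (q + 1), α (v x) = dA (α x))
    (βh : ∀ p, ∀ x ∈ 𝒟 (p + 1) 0, β (h x) = dB (β x))
    (h_mem : ∀ p q, ∀ x ∈ 𝒟 (p + 1) q, h x ∈ 𝒟 p q)
    (v_mem : ∀ p q, ∀ x ∈ 𝒟 p (q + 1), v x ∈ 𝒟 p q)
    (Z_lift : ∀ z ∈ Z, ∃ x ∈ 𝒟 0 j, α x = z)
    (Z_cyc : j ≠ 0 → ∀ z ∈ Z, dA z = 0)
    (row0 : ∀ q, q + 1 = j → ∀ x ∈ 𝒟 0 q, α x = 0 → ∃ y ∈ 𝒟 1 q, h y = x)
    (row : ∀ p q, p + q + 2 = j → ∀ x ∈ 𝒟 (p + 1) q, h x = 0 → ∃ y ∈ 𝒟 (p + 2) q, h y = x)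
    (ZB_mem0 : j = 0 → ∀ x ∈ 𝒟 0 0, α x ∈ Z → β x ∈ ZB)
    (ZB_mem : j ≠ 0 → ∀ x ∈ 𝒟 j 0, dB (β x) = 0 → β x ∈ ZB)
    (β_surj : ∀ b ∈ ℬ (j + 1), ∃ x ∈ 𝒟 (j + 1) 0, β x = b)
    (col0 : j ≠ 0 → ∀ x ∈ 𝒟 j 0, β x = 0 → ∃ y ∈ 𝒟 j 1, v y = x)
    (col : ∀ p q, p + q + 2 = j → ∀ x ∈ 𝒟 (p + 1) (q + 1), v x = 0 →
      ∃ y ∈ 𝒟 (p + 1) (q + 2), v y = x)
    (N_mem : ∀ x ∈ 𝒟 0 j, (j ≠ 0 → v x = 0) → (j = 0 → β x = 0) → α x ∈ N) :
    hrank Z N ≤ hrank ZB ((ℬ (j + 1)).map dB) := by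
  -- step 1: every cycle has a staircase
  have step1 : ∀ z ∈ Z, ∃ x ∈ stair_zz h v 𝒟 j, α (x 0) = z ∧ β (x j) ∈ ZB := by
    intro z hz
    obtain ⟨x0, hx0, hx0z⟩ := Z_lift z hz
    have key : ∀ p ≤ j, ∃ x : ℕ → D, x 0 = x0 ∧ (∀ i q, i ≤ p → i + q = j → x i ∈ 𝒟 i q) ∧
        ∀ i < p, v (x i) = h (x (i + 1)) := by
      intro p
      induction p with
      | zero =>
        intro _
        refine ⟨fun _ => x0, rfl, fun i q hi e => ?_, fun i hi => absurd hi (Nat.not_lt_zero i)⟩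
        obtain rfl : i = 0 := Nat.le_zero.1 hi
        obtain rfl : q = j := by omega
        exact hx0
      | succ p ih =>
        intro hp
        obtain ⟨x, hx1, hx2, hx3⟩ := ih (by omega)
        obtain ⟨q, hq⟩ : ∃ q, p + q + 1 = j := ⟨j - p - 1, by omega⟩
        have hxp : x p ∈ 𝒟 p (q + 1) := hx2 p (q + 1) le_rfl (by omega)
        have hy : ∃ y ∈ 𝒟 (p + 1) q, h y = v (x p) := by
          cases p with
          | zero =>
            refine row0 q (by omega) _ (v_mem _ _ _ hxp) ?_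
            rw [αv q _ hxp, hx1, hx0z]
            exact Z_cyc (by omega) z hz
          | succ p =>
            refine row p q (by omega) _ (v_mem _ _ _ hxp) ?_
            rw [hv p q _ hxp, ← hx3 p (by omega)]
            exact vv p q _ (hx2 p (q + 2) (by omega) (by omega))
        obtain ⟨y, hy1, hy2⟩ := hy
        refine ⟨Function.update x (p + 1) y, ?_, fun i q' hi e => ?_, fun i hi => ?_⟩
        · rw [Function.update_of_ne (by omega), hx1]
        · by_cases hip : i = p + 1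
          · subst hip
            obtain rfl : q' = q := by omega
            rw [Function.update_self]
            exact hy1
          · rw [Function.update_of_ne hip]
            exact hx2 i q' (by omega) e
        · rw [Function.update_of_ne (by omega : i ≠ p + 1)]
          by_cases hip : i = p
          · subst hip
            rw [Function.update_self, hy2]
          · rw [Function.update_of_ne (by omega : i + 1 ≠ p + 1)]
            exact hx3 i (by omega)
    obtain ⟨x, hx1, hx2, hx3⟩ := key j le_rfl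
    refine ⟨x, ⟨fun p q e => hx2 p q (by omega) e, hx3⟩, by rw [hx1, hx0z], ?_⟩
    rcases Nat.eq_zero_or_eq_succ_pred j with hj | hj
    · have h0 : x 0 ∈ 𝒟 0 0 := hx2 0 0 (by omega) (by omega)
      have := ZB_mem0 hj _ h0 (by rw [hx1, hx0z]; exact hz)
      rw [hj]
      exact this
    · obtain ⟨p, rfl⟩ : ∃ p, j = p + 1 := ⟨_, hj⟩
      have h0 : x (p + 1) ∈ 𝒟 (p + 1) 0 := hx2 _ 0 le_rfl rfl
      refine ZB_mem (by omega) _ h0 ?_
      rw [← βh p _ h0, ← hx3 p (by omega)]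
      exact βv p _ (hx2 p 1 (by omega) rfl)
  -- step 2: a staircase ending at a boundary starts in `N`
  have step2 : ∀ x ∈ stair_zz h v 𝒟 j, β (x j) ∈ (ℬ (j + 1)).map dB → α (x 0) ∈ N := by
    rintro x ⟨hx2, hx3⟩ ⟨b, hb, hbx⟩
    obtain ⟨w, hw, rfl⟩ := β_surj b hb
    have hxj : x j ∈ 𝒟 j 0 := hx2 j 0 rfl
    have hd : x j - h w ∈ 𝒟 j 0 := (𝒟 j 0).sub_mem hxj (h_mem _ _ _ hw)
    have hβ : β (x j - h w) = 0 := by rw [map_sub, βh j _ hw, hbx, sub_self]
    rcases Nat.eq_zero_or_eq_succ_pred j with hj | hj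
    · subst hj
      have := N_mem _ hd (fun e => absurd rfl e) (fun _ => hβ)
      rwa [map_sub, αh 0 _ hw, sub_zero] at this
    · have hj0 : j ≠ 0 := by omega
      have key : ∀ q p, p + q + 1 = j → ∃ u ∈ 𝒟 (p + 1) (q + 1), v (x p - h u) = 0 := by
        intro q
        induction q with
        | zero =>
          intro p hp
          obtain rfl : j = p + 1 := by omega
          obtain ⟨u, hu, hvu⟩ := col0 hj0 _ hd hβ
          refine ⟨u, hu, ?_⟩
          rw [map_sub, ← hv p 0 _ hu, hvu, hx3 p (by omega), map_sub, hh p 0 _ hw, sub_zero,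
            sub_self]
        | succ q ih =>
          intro p hp
          obtain ⟨u', hu', hvu'⟩ := ih (p + 1) (by omega)
          have hd' : x (p + 1) - h u' ∈ 𝒟 (p + 1) (q + 1) :=
            (𝒟 _ _).sub_mem (hx2 _ _ (by omega)) (h_mem _ _ _ hu')
          obtain ⟨u, hu, hvu⟩ := col p q (by omega) _ hd' hvu'
          refine ⟨u, hu, ?_⟩
          rw [map_sub, ← hv p (q + 1) _ hu, hvu, hx3 p (by omega), map_sub, hh p (q + 1) _ hu',
            sub_zero, sub_self]
      obtain ⟨q, rfl⟩ : ∃ q, j = q + 1 := ⟨_, hj⟩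
      obtain ⟨u, hu, hvu⟩ := key q 0 (by omega)
      have hd' : x 0 - h u ∈ 𝒟 0 (q + 1) :=
        (𝒟 _ _).sub_mem (hx2 _ _ (by omega)) (h_mem _ _ _ hu)
      have := N_mem _ hd' (fun _ => hvu) (fun e => absurd e hj0)
      rwa [map_sub, αh _ _ hu, sub_zero] at this
  -- comparison of ranks
  let a0 : (ℕ → D) →ₗ[k] A := α ∘ₗ LinearMap.proj 0
  let bj : (ℕ → D) →ₗ[k] B := β ∘ₗ LinearMap.proj j
  let S : Submodule k (ℕ → D) := stair_zz h v 𝒟 j ⊓ ZB.comap bj
  let f : S →ₗ[k] (A ⧸ N) := N.mkQ ∘ₗ a0 ∘ₗ S.subtype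
  let g : S →ₗ[k] (B ⧸ (ℬ (j + 1)).map dB) := ((ℬ (j + 1)).map dB).mkQ ∘ₗ bj ∘ₗ S.subtype
  have h1 : Z.map N.mkQ ≤ LinearMap.range f := by
    rintro _ ⟨z, hz, rfl⟩
    obtain ⟨x, hx, hxz, hxb⟩ := step1 z hz
    exact ⟨⟨x, hx, hxb⟩, congrArg N.mkQ hxz⟩
  have h2 : LinearMap.range g ≤ ZB.map ((ℬ (j + 1)).map dB).mkQ := by
    rintro _ ⟨x, rfl⟩
    exact ⟨bj x, x.2.2, rfl⟩
  have h3 : LinearMap.ker g ≤ LinearMap.ker f := by
    intro x hx
    have hx' : β (x.1 j) ∈ (ℬ (j + 1)).map dB := (Submodule.Quotient.mk_eq_zero _).1 hx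
    exact (Submodule.Quotient.mk_eq_zero _).2 (step2 x.1 x.2.1 hx')
  exact (Submodule.rank_mono h1).trans
    ((rank_range_le_of_ker_le_zz f g h3).trans (Submodule.rank_mono h2))

section Dim

variable {k V : Type} [Field k] [AddCommGroup V] [Module k V]

theorem hdim_eq_toNat (Z B : Submodule k V) : hdim Z B = Cardinal.toNat (hrank Z B) := rfl

theorem hdim_le_of_hrank_le {W : Type} [AddCommGroup W] [Module k W] [FiniteDimensional k W]
    {Z B : Submodule k V} {Z' B' : Submodule k W} (h : hrank Z B ≤ hrank Z' B') :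
    hdim Z B ≤ hdim Z' B' := by
  rw [hdim_eq_toNat, hdim_eq_toNat]
  exact Cardinal.toNat_le_toNat h (Module.rank_lt_aleph0 k (Z'.map B'.mkQ))

theorem hdim_add [FiniteDimensional k V] (Z B : Submodule k V) :
    hdim Z B + Module.finrank k (Z ⊓ B : Submodule k V) = Module.finrank k Z := by
  have h := LinearMap.finrank_range_add_finrank_ker (B.mkQ.domRestrict Z)
  rw [LinearMap.range_domRestrict, LinearMap.ker_domRestrict, Submodule.ker_mkQ] at h
  rw [← h, hdim, ← Submodule.finrank_map_subtype_eq Z (B.comap Z.subtype),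
    Submodule.map_comap_subtype]

theorem hdim_bot (Z : Submodule k V) : hdim Z ⊥ = Module.finrank k Z := by
  exact (Submodule.equivMapOfInjective _
    (LinearMap.ker_eq_bot.1 (Submodule.ker_mkQ (⊥ : Submodule k V))) Z).finrank_eq.symm

/-- Homology dimension of `C₁ → C₀ → V` by ranks. -/
theorem hdim_ranks [FiniteDimensional k V] (d : V →ₗ[k] V) (C₀ C₁ : Submodule k V)
    (h : C₁.map d ≤ C₀ ⊓ LinearMap.ker d) :
    hdim (C₀ ⊓ LinearMap.ker d) (C₁.map d) + Module.finrank k (C₀.map d) +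
      Module.finrank k (C₁.map d) = Module.finrank k C₀ := by
  have h1 := hdim_add (C₀ ⊓ LinearMap.ker d) (C₁.map d)
  rw [inf_eq_right.2 h] at h1
  have h2 := LinearMap.finrank_range_add_finrank_ker (d.domRestrict C₀)
  rw [LinearMap.range_domRestrict, LinearMap.ker_domRestrict,
    ← Submodule.finrank_map_subtype_eq C₀ ((LinearMap.ker d).comap C₀.subtype),
    Submodule.map_comap_subtype] at h2
  omega

end Dim

end Pool.Agent.Work.MP_dd0bbc_gt
end

-- merged part: Pool.Agent.Work.MP_dd0bbc_gt.WittPerp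
section
/-! The annihilator argument. -/

set_option autoImplicit false

namespace Pool.Agent.Work.MP_dd0bbc_gt.WData

open Finset Matrix

variable {m : ℕ} {Y ι : Type} [Fintype Y] [LinearOrder Y] [Fintype ι] [DecidableEq ι]
  (W : WData m Y ι)

lemma perp_δ_apply (f : Finset Y → ι → ℝ) (τ : Finset Y) : W.δ f τ = if τ ∈ W.K then
    ∑ y ∈ τ, (sgn y τ : ℝ) • (W.U (W.bs τ) (W.bs (τ.erase y)) *ᵥ f (τ.erase y)) else 0 := rfl

theorem δ_mem (c : ℕ) {f : Finset Y → ι → ℝ} (hf : f ∈ W.CE c) : W.δ f ∈ W.CE (c + 1) := by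
  intro τ h
  rw [perp_δ_apply] at h
  split_ifs at h with hτ
  · obtain ⟨y, hy, h1⟩ := exists_ne_zero_of_sum_ne_zero h
    have h2 := (hf (τ.erase y) fun e => h1 (by rw [e, mulVec_zero, smul_zero])).2
    exact ⟨hτ, by rw [← h2, card_erase_add_one hy]⟩
  · exact absurd rfl h

theorem δ_δ (c : ℕ) {f : Finset Y → ι → ℝ} (hf : f ∈ W.CE (c + 1)) : W.δ (W.δ f) = 0 := by
  ext1 τ
  rw [perp_δ_apply, Pi.zero_apply]
  split_ifs with hτ
  · have : ∀ y ∈ τ, (sgn y τ : ℝ) • (W.U (W.bs τ) (W.bs (τ.erase y)) *ᵥ W.δ f (τ.erase y)) =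
        ∑ x ∈ τ.erase y, ((sgn y τ * sgn x (τ.erase y) : ℤ) : ℝ) •
          (W.U (W.bs τ) (W.bs ((τ.erase y).erase x)) *ᵥ f ((τ.erase y).erase x)) := by
      intro y hy
      rw [perp_δ_apply, if_pos (W.down τ hτ _ (erase_subset _ _)), mulVec_sum, Finset.smul_sum]
      refine sum_congr rfl fun x hx => ?_
      rw [mulVec_smul, smul_smul, Int.cast_mul, mulVec_mulVec]
      by_cases e : f ((τ.erase y).erase x) = 0
      · rw [e, mulVec_zero, mulVec_zero]
      · have h1 : ((τ.erase y).erase x).Nonempty := card_pos.1 (by rw [(hf _ e).2]; omega)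
        rw [W.U_mul]
        refine W.down τ hτ _ (insert_subset (W.bs_mem _ ⟨y, hy⟩) (insert_subset
          (erase_subset _ _ (W.bs_mem _ ⟨x, hx⟩)) (singleton_subset_iff.2 ?_)))
        exact erase_subset _ _ (erase_subset _ _ (W.bs_mem _ h1))
    rw [sum_congr rfl this]
    refine sum_anti_eq_zero τ _ (fun x hx y hy hxy => ?_)
    rw [sgn_anti_erase hxy hx hy, erase_right_comm, Int.cast_neg, neg_smul]
  · rfl

lemma perp_single_mem {c : ℕ} {R : Finset Y} (hR : R ∈ W.K) (hc : R.card = c) (x : ι → ℝ) :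
    (Pi.single R x : Finset Y → ι → ℝ) ∈ W.CE c := by
  intro τ h
  by_cases e : τ = R
  · exact e ▸ ⟨hR, hc⟩
  · exact absurd (by rw [Pi.single_eq_of_ne e]) h

/-- The boundary is adjoint to the coboundary. -/
lemma perp_adj {z : Finset Y → ι → ℝ} (hz : ∀ S, z S ≠ 0 → S ∈ W.K) {R : Finset Y}
    (hR : R.Nonempty) (x : ι → ℝ) :
    ∑ S, W.Bf (z S) (W.δ (Pi.single R x) S) = W.Bf (tbdy W.bs W.U z R) x := by
  have e1 : ∀ S, W.Bf (z S) (W.δ (Pi.single R x) S) = ∑ y, if y ∈ S ∧ S.erase y = R then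
      (sgn y S : ℝ) * W.Bf (W.U (W.bs R) (W.bs S) *ᵥ z S) x else 0 := by
    intro S
    by_cases h0 : z S = 0
    · simp [h0]
    rw [perp_δ_apply, if_pos (hz S h0), map_sum, ← sum_subset (subset_univ S)
      (fun y _ hy => if_neg fun h => hy h.1)]
    refine sum_congr rfl fun y hy => ?_
    by_cases e : S.erase y = R
    · have ha : W.bs S ∈ S := W.bs_mem _ ⟨y, hy⟩
      have hb : W.bs R ∈ S := erase_subset y S (by rw [e]; exact W.bs_mem _ hR)
      rw [if_pos ⟨hy, e⟩, e, Pi.single_eq_same, map_smul, smul_eq_mul,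
        ← W.Bf_inv (W.bs R) (W.bs S) (W.down S (hz S h0) _
          (insert_subset hb (singleton_subset_iff.2 ha))), mulVec_mulVec,
        W.U_mul _ _ _ (W.down S (hz S h0) _
          (insert_subset hb (insert_subset ha (singleton_subset_iff.2 hb)))), W.U_self, one_mulVec]
    · rw [if_neg fun h => e h.2, Pi.single_eq_of_ne e, mulVec_zero, smul_zero, map_zero]
  have e2 : tbdy W.bs W.U z R = ∑ y ∈ Rᶜ, (sgn y (insert y R) : ℝ) •
      (W.U (W.bs R) (W.bs (insert y R)) *ᵥ z (insert y R)) := if_neg hR.ne_empty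
  rw [sum_congr rfl fun S _ => e1 S, sum_comm, e2, map_sum, LinearMap.sum_apply,
    ← sum_subset (subset_univ Rᶜ)]
  · refine sum_congr rfl fun y hy => ?_
    rw [sum_eq_single (insert y R), if_pos ⟨mem_insert_self _ _, erase_insert (mem_compl.1 hy)⟩,
      map_smul, LinearMap.smul_apply, smul_eq_mul]
    · intro S _ hS
      exact if_neg fun h => hS (by rw [← h.2, insert_erase h.1])
    · exact fun h => absurd (mem_univ _) h
  · intro y _ hy
    refine sum_eq_zero fun S _ => if_neg fun h => hy (mem_compl.2 ?_)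
    rw [← h.2]
    exact notMem_erase _ _

lemma perp_smul {E : Type} [AddCommGroup E] [Module ℝ E] (a b : E →ₗ[ℝ] ℝ)
    (h : ∀ x, a x = 0 → b x = 0) : ∃ c : ℝ, ∀ x, b x = c * a x := by
  by_cases h0 : ∀ x, a x = 0
  · exact ⟨0, fun x => by rw [h x (h0 x), zero_mul]⟩
  · push Not at h0
    obtain ⟨u, hu⟩ := h0
    refine ⟨b u / a u, fun x => ?_⟩
    have := h (a u • x - a x • u) (by simp [mul_comm])
    rw [map_sub, map_smul, map_smul, smul_eq_mul, smul_eq_mul] at this
    field_simp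
    linarith

/-- A cochain orthogonal to the cycles has the coboundary of a cochain with values in the sums. -/
lemma perp_key {f : Finset Y → ι → ℝ} (hf : f ∈ W.CE m)
    (h : ∀ z ∈ W.ZI, ∑ S, W.Bf (z S) (f S) = 0) : W.δ f ∈ (W.CF m).map W.δ := by
  by_contra hne
  obtain ⟨φ, h1, h2⟩ := Submodule.exists_dual_map_eq_bot_of_notMem
    (p := ((W.CF m).map W.δ).comap W.δ) (x := f) hne inferInstance
  have h3 : ∀ g, W.δ g ∈ (W.CF m).map W.δ → φ g = 0 := fun g hg =>
    (Submodule.mem_bot ℝ).1 (h2 ▸ Submodule.mem_map_of_mem hg)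
  have h4 : ∀ S : Finset Y, ∃ c : ℝ, S ∈ W.K ∧ S.card = m →
      ∀ x, φ (Pi.single S x) = c * W.Bf (W.vS (W.bs S) S) x := by
    intro S
    by_cases hS : S ∈ W.K ∧ S.card = m
    · have hb : W.bs S ∈ S := W.bs_mem _ (card_pos.1 (hS.2 ▸ W.m_pos))
      obtain ⟨c, hc⟩ := perp_smul (W.Bf (W.vS (W.bs S) S))
        (φ ∘ₗ LinearMap.single ℝ (fun _ : Finset Y => ι → ℝ) S) fun x hx => by
          refine h3 _ (Submodule.mem_map_of_mem ⟨W.perp_single_mem hS.1 hS.2 x, fun τ _ => ?_⟩)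
          by_cases e : τ = S
          · rw [e, LinearMap.single_apply, Pi.single_eq_same]
            exact W.Bf_perp S hS.1 hS.2 _ hb x hx
          · rw [LinearMap.single_apply, Pi.single_eq_of_ne e]
            exact Submodule.zero_mem _
      exact ⟨c, fun _ => hc⟩
    · exact ⟨0, fun h => absurd h hS⟩
  choose c hc using h4
  let z : Finset Y → ι → ℝ := fun S =>
    if S ∈ W.K ∧ S.card = m then c S • W.vS (W.bs S) S else 0
  have hz : z ∈ W.CE m := fun S hS => by
    by_contra e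
    exact hS (if_neg e)
  have h5 : ∀ g ∈ W.CE m, ∑ S, W.Bf (z S) (g S) = φ g := by
    intro g hg
    conv_rhs => rw [← univ_sum_single g, map_sum]
    refine sum_congr rfl fun S _ => ?_
    by_cases e : g S = 0
    · simp [e]
    · rw [hc S (hg S e), show z S = _ from if_pos (hg S e), map_smul, LinearMap.smul_apply,
        smul_eq_mul]
  refine h1 ((h5 f hf).symm.trans (h z ⟨⟨hz, fun S _ => ?_⟩, ?_⟩))
  · by_cases hS : S ∈ W.K ∧ S.card = m
    · rw [show z S = _ from if_pos hS]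
      simp only [SetLike.mem_coe, Submodule.mem_iInf]
      exact (W.inter_line S hS.1 hS.2 _ (W.bs_mem _ (card_pos.1 (hS.2 ▸ W.m_pos))) _).2 ⟨_, rfl⟩
    · rw [show z S = _ from if_neg hS]
      exact Submodule.zero_mem _
  · refine LinearMap.mem_ker.2 (funext fun R => ?_)
    rcases R.eq_empty_or_nonempty with rfl | hR
    · simp [tbdy]
    by_cases hR' : R ∈ W.K ∧ R.card + 1 = m
    · refine W.Bf_nondeg _ fun x => ?_
      obtain ⟨k, hk⟩ := Nat.exists_eq_add_one.2 (card_pos.2 hR)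
      rw [← W.perp_adj (fun S hS => (hz S hS).1) hR,
        h5 _ (hR'.2 ▸ W.δ_mem _ (W.perp_single_mem hR'.1 rfl x))]
      refine h3 _ ?_
      rw [W.δ_δ k (W.perp_single_mem hR'.1 hk x)]
      exact Submodule.zero_mem _
    · refine (if_neg hR.ne_empty).trans (sum_eq_zero fun y hy => ?_)
      have : z (insert y R) = 0 := by
        by_contra e
        exact hR' ⟨W.down _ (hz _ e).1 _ (subset_insert _ _), by
          rw [← (hz _ e).2, card_insert_of_notMem (mem_compl.1 hy)]⟩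
      rw [this, mulVec_zero, smul_zero]

/-- The pairing with the cycles. -/
noncomputable def perpMap : (Finset Y → ι → ℝ) →ₗ[ℝ] Module.Dual ℝ W.ZI :=
  ∑ S, (W.Bf.compl₁₂ (LinearMap.proj S ∘ₗ W.ZI.subtype) (LinearMap.proj S)).flip

lemma perpMap_apply (f : Finset Y → ι → ℝ) (z : W.ZI) :
    W.perpMap f z = ∑ S, W.Bf (z.1 S) (f S) := by
  simp [perpMap]

theorem w3 : W.hF ≤ W.hE m + Module.finrank ℝ W.ZI := by
  have l1 : (W.CF m).map W.δ ≤ (W.CE m).map W.δ := Submodule.map_mono inf_le_left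
  have l2 : (W.CE m).map W.δ ≤ W.CE (m + 1) ⊓ LinearMap.ker W.δ := by
    rintro _ ⟨f, hf, rfl⟩
    obtain ⟨k, hk⟩ := Nat.exists_eq_add_one.2 W.m_pos
    exact ⟨W.δ_mem m hf, W.δ_δ k (hk ▸ hf)⟩
  have h1 := hdim_add (W.CE (m + 1) ⊓ LinearMap.ker W.δ) ((W.CE m).map W.δ)
  have h2 := hdim_add (W.CE (m + 1) ⊓ LinearMap.ker W.δ) ((W.CF m).map W.δ)
  have h3 := hdim_add ((W.CE m).map W.δ) ((W.CF m).map W.δ)
  rw [inf_eq_right.2 l2] at h1
  rw [inf_eq_right.2 (l1.trans l2)] at h2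
  rw [inf_eq_right.2 l1] at h3
  have h4 := LinearMap.finrank_range_add_finrank_ker
    ((((W.CF m).map W.δ).mkQ ∘ₗ W.δ).domRestrict (W.CE m))
  have h5 := LinearMap.finrank_range_add_finrank_ker (W.perpMap.domRestrict (W.CE m))
  have h6 : LinearMap.ker (W.perpMap.domRestrict (W.CE m)) ≤
      LinearMap.ker ((((W.CF m).map W.δ).mkQ ∘ₗ W.δ).domRestrict (W.CE m)) := fun f hf =>
    (Submodule.Quotient.mk_eq_zero _).2 (W.perp_key f.2 fun z hz =>
      (W.perpMap_apply f ⟨z, hz⟩).symm.trans (LinearMap.congr_fun (LinearMap.mem_ker.1 hf) _))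
  have h7 := Submodule.finrank_mono h6
  have h8 := Submodule.finrank_le (LinearMap.range (W.perpMap.domRestrict (W.CE m)))
  rw [Subspace.dual_finrank_eq] at h8
  rw [LinearMap.range_domRestrict, Submodule.map_comp] at h4
  change hdim _ _ + _ = _ at h4
  unfold hF hE
  omega

end Pool.Agent.Work.MP_dd0bbc_gt.WData
end

-- merged part: Pool.Agent.Work.MP_dd0bbc_gt.SingDefs
section
/-! Concrete singular chains. -/

set_option autoImplicit false

namespace Pool.Agent.Work.MP_dd0bbc_gt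

open Finsupp

/-- Singular simplices of all degrees. -/
abbrev Sx (X : Type) [TopologicalSpace X] : Type := Σ q : ℕ, C(stdSimplex ℝ (Fin (q + 1)), X)

/-- Singular chains of all degrees. -/
abbrev SC (X : Type) [TopologicalSpace X] : Type := Sx X →₀ ℚ

variable {X : Type} [TopologicalSpace X]

/-- Faces of a singular simplex. -/
noncomputable def face {q : ℕ} (s : C(stdSimplex ℝ (Fin (q + 2)), X)) (i : Fin (q + 2)) :
    C(stdSimplex ℝ (Fin (q + 1)), X) :=
  s.comp ⟨stdSimplex.map i.succAbove, stdSimplex.continuous_map _⟩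

/-- Boundary of a singular simplex. -/
noncomputable def sbd1 : Sx X → SC X
  | ⟨0, _⟩ => 0
  | ⟨q + 1, s⟩ => ∑ i : Fin (q + 2), (-1 : ℚ) ^ (i : ℕ) • single ⟨q, face s i⟩ 1

variable (X) in
/-- The singular boundary. -/
noncomputable def sbd : SC X →ₗ[ℚ] SC X := linearCombination ℚ sbd1

variable (X) in
/-- The augmentation. -/
noncomputable def aug : SC X →ₗ[ℚ] ℚ :=
  linearCombination ℚ (fun s : Sx X => if s.1 = 0 then 1 else 0)

/-- Chains of degree `q` in `U`. -/
def SCq (U : Set X) (q : ℕ) : Submodule ℚ (SC X) :=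
  supported ℚ ℚ {s | s.1 = q ∧ Set.range s.2 ⊆ U}

/-- Chains of degree `q` that are small for a family of sets. -/
def Small {Y : Type} (U : Y → Set X) (q : ℕ) : Submodule ℚ (SC X) :=
  supported ℚ ℚ {s | s.1 = q ∧ ∃ y, Set.range s.2 ⊆ U y}

end Pool.Agent.Work.MP_dd0bbc_gt
end

-- merged part: Pool.Agent.Work.MP_dd0bbc_gt.LP
section
/-! Linear programming on the cells of a power diagram. -/

set_option autoImplicit false

namespace Pool.Agent.Work.MP_dd0bbc_gt

open Finset Matrix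

lemma LP_step {n : ℕ} {Y : Type} (J : Finset Y) (g : Y → Fin n → ℝ) (b : Y → ℝ) {R : ℝ}
    (hb : ∀ u : Fin n → ℝ, (∀ k ∈ J, g k ⬝ᵥ u ≤ b k) → ‖u‖ ≤ R) {u d : Fin n → ℝ}
    (hu : ∀ k ∈ J, g k ⬝ᵥ u ≤ b k) (hd : d ≠ 0) (h : ∀ k ∈ J, g k ⬝ᵥ u = b k → g k ⬝ᵥ d ≤ 0) :
    ∃ t : ℝ, 0 < t ∧ (∀ k ∈ J, g k ⬝ᵥ (u + t • d) ≤ b k) ∧
      ∃ k ∈ J, 0 < g k ⬝ᵥ d ∧ g k ⬝ᵥ (u + t • d) = b k := by
  classical
  have ne : (J.filter fun k => 0 < g k ⬝ᵥ d).Nonempty := by
    by_contra c
    have c' : ∀ k ∈ J, g k ⬝ᵥ d ≤ 0 := fun k hk =>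
      not_lt.1 fun e => c ⟨k, mem_filter.2 ⟨hk, e⟩⟩
    have d0 : 0 < ‖d‖ := norm_pos_iff.2 hd
    have R0 := hb u hu
    have t0 : 0 ≤ (R + ‖u‖ + 1) / ‖d‖ := div_nonneg (by linarith [norm_nonneg u]) d0.le
    have h1 := hb (u + ((R + ‖u‖ + 1) / ‖d‖) • d) fun k hk => by
      rw [dotProduct_add, dotProduct_smul, smul_eq_mul]
      linarith [hu k hk, mul_nonpos_of_nonneg_of_nonpos t0 (c' k hk)]
    have h2 := norm_sub_le (u + ((R + ‖u‖ + 1) / ‖d‖) • d) u
    rw [add_sub_cancel_left, norm_smul, Real.norm_eq_abs, abs_of_nonneg t0,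
      div_mul_cancel₀ _ d0.ne'] at h2
    linarith
  obtain ⟨k, hk, hmin⟩ := exists_min_image _ (fun k => (b k - g k ⬝ᵥ u) / (g k ⬝ᵥ d)) ne
  obtain ⟨k1, k2⟩ := mem_filter.1 hk
  have t0 : 0 < (b k - g k ⬝ᵥ u) / (g k ⬝ᵥ d) :=
    div_pos (sub_pos.2 (lt_of_le_of_ne (hu k k1) fun e => absurd (h k k1 e) (not_le.2 k2))) k2
  refine ⟨_, t0, fun j hj => ?_, k, k1, k2, ?_⟩
  · rw [dotProduct_add, dotProduct_smul, smul_eq_mul]
    rcases le_or_gt (g j ⬝ᵥ d) 0 with e | e
    · linarith [hu j hj, mul_nonpos_of_nonneg_of_nonpos t0.le e]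
    · linarith [(le_div_iff₀ e).1 (hmin j (mem_filter.2 ⟨hj, e⟩))]
  · rw [dotProduct_add, dotProduct_smul, smul_eq_mul, div_mul_cancel₀ _ k2.ne']; ring

lemma LP_ker {n : ℕ} {Y : Type} (S : Finset Y) (g : Y → Fin n → ℝ) (h : S.card < n) :
    ∃ d : Fin n → ℝ, d ≠ 0 ∧ ∀ j ∈ S, g j ⬝ᵥ d = 0 := by
  have := LinearMap.ker_ne_bot_of_finrank_lt
    (f := (Matrix.of fun j : {j // j ∈ S} => g j.1).mulVecLin) (by simpa using h)
  obtain ⟨d, h1, h2⟩ := Submodule.exists_mem_ne_zero_of_ne_bot this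
  exact ⟨d, h2, fun j hj => congrFun (LinearMap.mem_ker.1 h1) ⟨j, hj⟩⟩

lemma LP_surj {n : ℕ} {Y : Type} (S : Finset Y) (g : Y → Fin n → ℝ)
    (h : LinearIndependent ℝ (fun j : {j // j ∈ S} => g j.1)) (r : Y → ℝ) :
    ∃ d : Fin n → ℝ, ∀ j ∈ S, g j ⬝ᵥ d = r j := by
  have h1 : (Matrix.of fun j : {j // j ∈ S} => g j.1).rank = Fintype.card {j // j ∈ S} :=
    LinearIndependent.rank_matrix h
  have h2 : LinearMap.range (Matrix.of fun j : {j // j ∈ S} => g j.1).mulVecLin = ⊤ :=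
    Submodule.eq_top_of_finrank_eq (by rw [Module.finrank_fintype_fun_eq_card]; exact h1)
  obtain ⟨d, hd⟩ := LinearMap.range_eq_top.1 h2 fun j => r j.1
  exact ⟨d, fun j hj => congrFun hd ⟨j, hj⟩⟩

lemma LP_max {X : Type} (P : X → Prop) (f : X → ℕ) (N : ℕ) (h : ∀ x, f x ≤ N) (ne : ∃ x, P x) :
    ∃ x, P x ∧ ∀ y, P y → f y ≤ f x := by
  classical
  have ex : ∃ m, ∃ x, P x ∧ N - f x = m := ne.elim fun x hx => ⟨_, x, hx, rfl⟩
  obtain ⟨x, hx, e⟩ := Nat.find_spec ex
  refine ⟨x, hx, fun y hy => ?_⟩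
  have := Nat.find_min' ex ⟨y, hy, rfl⟩
  have := h x
  have := h y
  omega

theorem star_of_model {n : ℕ} {Y : Type} [LinearOrder Y] (K : Finset (Finset Y)) (J : Finset Y)
    (a : Y) (g : Y → Fin n → ℝ) (c : Y → ℝ) (ha : a ∈ J) (hg : g a = 0)
    (hK : ∀ S, a ∈ S → (S ∈ K ↔ S ⊆ J ∧ ∃ u : Fin n → ℝ, ∀ j ∈ S, ∀ k ∈ J,
      c j - g j ⬝ᵥ u ≤ c k - g k ⬝ᵥ u))
    (hcard : ∀ S ∈ K, S.card ≤ n + 1)
    (hb : ∃ R : ℝ, ∀ u : Fin n → ℝ, (∀ k ∈ J, c a ≤ c k - g k ⬝ᵥ u) → ‖u‖ ≤ R)
    (hli : ∀ S ∈ K, a ∈ S → LinearIndependent ℝ (fun j : {j // j ∈ S.erase a} => g j.1)) :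
    Star K n g a := by
  classical
  obtain ⟨R, hR⟩ := hb
  obtain ⟨b, hb⟩ : ∃ b : Y → ℝ, ∀ k, b k = c k - c a := ⟨_, fun _ => rfl⟩
  have hR' : ∀ u : Fin n → ℝ, (∀ k ∈ J, g k ⬝ᵥ u ≤ b k) → ‖u‖ ≤ R := fun u hu =>
    hR u fun k hk => by linarith [hu k hk, hb k]
  have ga : ∀ u, g a ⬝ᵥ u = 0 := fun u => by rw [hg, zero_dotProduct]
  have ba : b a = 0 := by rw [hb, sub_self]
  have hK' : ∀ S, a ∈ S → (S ∈ K ↔ S ⊆ J ∧ ∃ u : Fin n → ℝ, (∀ k ∈ J, g k ⬝ᵥ u ≤ b k) ∧
      ∀ j ∈ S, g j ⬝ᵥ u = b j) := fun S hS => (hK S hS).trans (and_congr_right fun hJ =>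
    exists_congr fun u => ⟨fun h => ⟨fun k hk => by linarith [h a hS k hk, ga u, hb k],
      fun j hj => by linarith [h a hS j (hJ hj), h j hj a ha, ga u, hb j]⟩,
      fun h j hj k hk => by linarith [h.1 k hk, h.2 j hj, hb j, hb k]⟩)
  intro w hw
  have ch : ∀ S : Finset Y, ∃ u : Fin n → ℝ, S ∈ K → a ∈ S → (∀ k ∈ J, g k ⬝ᵥ u ≤ b k) ∧
      ∀ j ∈ S, g j ⬝ᵥ u = b j := fun S => by
    by_cases h : S ∈ K ∧ a ∈ S
    · obtain ⟨-, u, hu⟩ := (hK' S h.2).1 h.1
      exact ⟨u, fun _ _ => hu⟩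
    · exact ⟨0, fun h1 h2 => absurd ⟨h1, h2⟩ h⟩
  choose U hU using ch
  refine ⟨fun S => w ⬝ᵥ U S, fun τ hτ haτ => ?_, fun τ σ σ' haτ hσ cσ τσ ⟨e, he, e0⟩ hσ' cσ' τσ' ne => ?_⟩
  · have τJ := ((hK' τ haτ).1 hτ).1
    set D : Set (Fin n → ℝ) := {u | (∀ k ∈ J, g k ⬝ᵥ u ≤ b k) ∧ ∀ j ∈ τ, g j ⬝ᵥ u = b j}
    have cd : ∀ v : Fin n → ℝ, Continuous fun u : Fin n → ℝ => v ⬝ᵥ u := fun v =>
      continuous_const.dotProduct continuous_id
    have cl : IsClosed D := by
      have : D = (⋂ k ∈ J, {u | g k ⬝ᵥ u ≤ b k}) ∩ ⋂ j ∈ τ, {u | g j ⬝ᵥ u = b j} := by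
        ext u; simp [D]
      rw [this]
      exact (isClosed_biInter fun k _ => isClosed_le (cd _) continuous_const).inter
        (isClosed_biInter fun k _ => isClosed_eq (cd _) continuous_const)
    have cp : IsCompact D := Metric.isCompact_of_isClosed_isBounded cl
      (isBounded_iff_forall_norm_le.2 ⟨R, fun u hu => hR' u hu.1⟩)
    obtain ⟨u₀, h₀, m₀⟩ := cp.exists_isMaxOn ⟨U τ, hU τ hτ haτ⟩ (cd w).continuousOn
    obtain ⟨u, ⟨hu, mu⟩, mx⟩ := LP_max
      (fun u => u ∈ D ∧ IsMaxOn (fun u => w ⬝ᵥ u) D u)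
      (fun u => (J.filter fun k => g k ⬝ᵥ u = b k).card) J.card (fun u => card_filter_le _ _)
      ⟨u₀, h₀, m₀⟩
    set σ := J.filter fun k => g k ⬝ᵥ u = b k with hσd
    have aσ : a ∈ σ := mem_filter.2 ⟨ha, by rw [ga, ba]⟩
    have σK : σ ∈ K := (hK' σ aσ).2 ⟨filter_subset _ _, u, hu.1, fun j hj => (mem_filter.1 hj).2⟩
    have τσ : τ ⊆ σ := fun j hj => mem_filter.2 ⟨τJ hj, hu.2 j hj⟩
    have cσ : σ.card = n + 1 := by
      refine le_antisymm (hcard σ σK) (not_lt.1 fun lt => ?_)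
      have key : ∀ d : Fin n → ℝ, d ≠ 0 → (∀ j ∈ σ.erase a, g j ⬝ᵥ d = 0) → 0 ≤ w ⬝ᵥ d → False := by
        intro d d0 hd wd
        have hd' : ∀ j ∈ σ, g j ⬝ᵥ d = 0 := fun j hj => by
          by_cases e : j = a
          · rw [e, ga]
          · exact hd j (mem_erase.2 ⟨e, hj⟩)
        obtain ⟨t, t0, f, k, kJ, k0, k1⟩ := LP_step J g b hR' hu.1 d0
          fun k hk e => (hd' k (mem_filter.2 ⟨hk, e⟩)).le
        have keep : ∀ j ∈ σ, g j ⬝ᵥ (u + t • d) = b j := fun j hj => by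
          rw [dotProduct_add, dotProduct_smul, hd' j hj, smul_zero, add_zero]
          exact (mem_filter.1 hj).2
        have m : IsMaxOn (fun u => w ⬝ᵥ u) D (u + t • d) := fun x hx => by
          have := mu hx
          simp only [Set.mem_ofPred_eq, dotProduct_add, dotProduct_smul, smul_eq_mul] at this ⊢
          linarith [mul_nonneg t0.le wd]
        refine absurd (mx _ ⟨⟨f, fun j hj => keep j (τσ hj)⟩, m⟩) (not_le.2 (card_lt_card ⟨fun j hj =>
          mem_filter.2 ⟨(mem_filter.1 hj).1, keep j hj⟩, fun s => ?_⟩))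
        exact k0.ne' (hd' k (s (mem_filter.2 ⟨kJ, k1⟩)))
      have c0 := card_pos.2 ⟨a, aσ⟩
      obtain ⟨d, d0, hd⟩ := LP_ker (σ.erase a) g (by rw [card_erase_of_mem aσ]; omega)
      rcases le_total 0 (w ⬝ᵥ d) with e | e
      · exact key d d0 hd e
      · exact key (-d) (neg_ne_zero.2 d0) (fun j hj => by rw [dotProduct_neg, hd j hj, neg_zero])
          (by rw [dotProduct_neg]; linarith)
    obtain ⟨e, he⟩ := exists_coord (v := g) (S := σ.erase a) (by rw [card_erase_of_mem aσ, cσ]; rfl)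
      (hli σ σK aσ) w
    refine ⟨σ, σK, cσ, τσ, e, he, fun j hj => ?_⟩
    obtain ⟨j1, j2⟩ := mem_sdiff.1 hj
    have j3 : j ∈ σ.erase a := mem_erase.2 ⟨fun x => j2 (x ▸ haτ), j1⟩
    refine lt_of_le_of_ne ?_ (hw σ σK cσ aσ e he j j3).symm
    obtain ⟨d, hd⟩ := LP_surj (σ.erase a) g (hli σ σK aσ) fun k => if k = j then -1 else 0
    have hd' : ∀ k ∈ σ, g k ⬝ᵥ d = if k = j then -1 else 0 := fun k hk => by
      by_cases x : k = a
      · rw [x, ga, if_neg (mem_erase.1 j3).1.symm]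
      · exact hd k (mem_erase.2 ⟨x, hk⟩)
    have d0 : d ≠ 0 := fun x => by simpa [x] using hd j j3
    obtain ⟨t, t0, f, -⟩ := LP_step J g b hR' hu.1 d0 fun k hk x => by
      rw [hd' k (mem_filter.2 ⟨hk, x⟩)]; split_ifs <;> norm_num
    have m := mu (a := u + t • d) ⟨f, fun k hk => by
      rw [dotProduct_add, dotProduct_smul, hd' k (τσ hk), if_neg fun x : k = j => j2 (x ▸ hk), smul_zero,
        add_zero]
      exact hu.2 k hk⟩
    have wd : w ⬝ᵥ d = -e j := by
      rw [he, sum_dotProduct, sum_eq_single j]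
      · rw [smul_dotProduct, hd j j3]; simp
      · intro k hk x; rw [smul_dotProduct, hd k hk, if_neg x, smul_zero]
      · exact fun x => absurd j3 x
    simp only [Set.mem_ofPred_eq, dotProduct_add, dotProduct_smul, smul_eq_mul, wd] at m
    by_contra x
    nlinarith [mul_pos t0 (neg_pos.2 (not_le.1 x))]
  · obtain ⟨f1, f2⟩ := hU σ hσ (τσ haτ)
    obtain ⟨f3, f4⟩ := hU σ' hσ' (τσ' haτ)
    have σJ := ((hK' σ (τσ haτ)).1 hσ).1
    have σJ' := ((hK' σ' (τσ' haτ)).1 hσ').1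
    show w ⬝ᵥ U σ' < w ⬝ᵥ U σ
    rw [he, sum_dotProduct, sum_dotProduct]
    have ex : ∃ j ∈ σ, g j ⬝ᵥ U σ' ≠ b j := by
      by_contra x
      push Not at x
      have m := hcard _ ((hK' (σ ∪ σ') (mem_union_left _ (τσ haτ))).2 ⟨union_subset σJ σJ', U σ', f3,
        fun j hj => (mem_union.1 hj).elim (x j) (f4 j)⟩)
      have e1 := eq_of_subset_of_card_le (subset_union_left (s₁ := σ) (s₂ := σ')) (by omega)
      have e2 := eq_of_subset_of_card_le (subset_union_right (s₁ := σ) (s₂ := σ')) (by omega)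
      exact ne (e2.trans e1.symm)
    obtain ⟨j, j1, j2⟩ := ex
    have j3 : j ∉ τ := fun x => j2 (f4 j (τσ' x))
    refine sum_lt_sum (fun k hk => ?_) ⟨j, mem_erase.2 ⟨fun x => j3 (x ▸ haτ), j1⟩, ?_⟩
    · have k1 := (mem_erase.1 hk).2
      rw [smul_dotProduct, smul_dotProduct, smul_eq_mul, smul_eq_mul, f2 k k1]
      by_cases x : k ∈ τ
      · rw [f4 k (τσ' x)]
      · exact mul_le_mul_of_nonneg_left (f3 k (σJ k1)) (e0 k (mem_sdiff.2 ⟨k1, x⟩)).le
    · rw [smul_dotProduct, smul_dotProduct, smul_eq_mul, smul_eq_mul, f2 j j1]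
      exact mul_lt_mul_of_pos_left (lt_of_le_of_ne (f3 j (σJ j1)) j2) (e0 j (mem_sdiff.2 ⟨j1, j3⟩))

end Pool.Agent.Work.MP_dd0bbc_gt
end
end

-- merged part: Pool.Agent.Work.MP_dd0bbc_gt.PH
section
-- merged part: Pool.Agent.Work.MP_dd0bbc_gt.EpsDefs
section
/-! The Euler cocycle on tuples and lists. -/

set_option autoImplicit false

namespace Pool.Agent.Work.MP_dd0bbc_gt

open Finset Matrix

variable {n : ℕ}

/-- Cofactors of `n + 1` vectors. -/
noncomputable def cof (v : Fin (n + 1) → Fin n → ℝ) (i : Fin (n + 1)) : ℝ :=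
  (-1) ^ (i : ℕ) * (Matrix.of fun j => v (i.succAbove j)).det

open Classical in
/-- The Euler cocycle on tuples. -/
noncomputable def eps (v : Fin (n + 1) → Fin n → ℝ) : ℝ :=
  if ∀ i, 0 < cof v i then 1 else if ∀ i, cof v i < 0 then -1 else 0

/-- The Euler cocycle on lists. -/
noncomputable def epsL (n : ℕ) (l : List (Fin n → ℝ)) : ℝ :=
  if h : l.length = n + 1 then eps (fun i => l.get (i.cast h.symm)) else 0

/-- The Euler cocycle on chains of labelled points. -/
noncomputable def epsC (n : ℕ) {P : Type} (X : P → Fin n → ℝ) : (List P →₀ ℝ) →ₗ[ℝ] ℝ :=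
  Finsupp.linearCombination ℝ (fun l => epsL n (l.map X))

/-- Vectors attached to pairs of vertices of a top simplex are in general position. -/
def Fan.GP2 {Y : Type} [LinearOrder Y] (D : Fan n Y) (x : Y → Y → Fin n → ℝ) : Prop :=
  ∀ σ ∈ D.K, σ.card = n + 1 → ∀ a ∈ σ, ∀ f : Fin n → Y × Y, Function.Injective f →
    (∀ i, (f i).1 ∈ σ ∧ (f i).2 ∈ σ) →
      (Matrix.of fun i => D.T a (f i).1 *ᵥ x (f i).1 (f i).2).det ≠ 0

/-- The corner vectors at `a`. -/
noncomputable def Fan.corner {Y : Type} [LinearOrder Y] (D : Fan n Y) (a : Y) (w : Fin n → ℝ)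
    (j : Y) : Fin n → ℝ :=
  if j = a then w else if a < j then D.pos a j else -D.pos a j

end Pool.Agent.Work.MP_dd0bbc_gt
end

-- merged part: Pool.Agent.Work.MP_dd0bbc_gt.Eps
section
/-! Properties of the Euler cocycle. -/

set_option autoImplicit false

namespace Pool.Agent.Work.MP_dd0bbc_gt

open Finset Matrix Pool.Agent.Lib

variable {n : ℕ}

/-- A matrix with a given first column. -/
def bmat (p : Fin (n + 1) → ℝ) (w : Fin (n + 1) → Fin n → ℝ) :
    Matrix (Fin (n + 1)) (Fin (n + 1)) ℝ := Matrix.of fun k => Fin.cons (p k) (w k)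

lemma det_bmat (p : Fin (n + 1) → ℝ) (w : Fin (n + 1) → Fin n → ℝ) :
    (bmat p w).det = ∑ i, p i * cof w i := by
  rw [det_succ_column_zero]
  refine sum_congr rfl (fun i _ => ?_)
  have : (bmat p w).submatrix i.succAbove Fin.succ = Matrix.of fun j => w (i.succAbove j) := by
    ext a b; simp [bmat]
  rw [this, cof]; simp [bmat]; ring

lemma cof_rel (w : Fin (n + 1) → Fin n → ℝ) : ∑ i, cof w i • w i = 0 := by
  ext k
  have h0 : (bmat (fun i => w i k) w).det = 0 :=
    det_zero_of_column_eq (i := 0) (j := k.succ) (Fin.succ_ne_zero k).symm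
      (fun i => by simp [bmat])
  rw [det_bmat] at h0
  rw [Finset.sum_apply, Pi.zero_apply, ← h0]
  exact sum_congr rfl (fun i _ => by simp [mul_comm])

lemma epsL_ofFn (v : Fin (n + 1) → Fin n → ℝ) : epsL n (List.ofFn v) = eps v := by
  rw [epsL, dif_pos (List.length_ofFn)]
  congr 1
  funext i
  rw [List.get_ofFn]
  rfl

lemma exists_ofFn_eps {α : Type} {m : ℕ} {l : List α} (h : l.length = m) :
    ∃ x : Fin m → α, l = List.ofFn x := by
  subst h
  exact ⟨l.get, (List.ofFn_get l).symm⟩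

open Classical in
lemma eps_eq (v : Fin (n + 1) → Fin n → ℝ) :
    eps v = (if ∀ i, 0 < cof v i then 1 else 0) - (if ∀ i, cof v i < 0 then 1 else 0) := by
  unfold eps
  by_cases h1 : ∀ i, 0 < cof v i
  · have h2 : ¬ ∀ i, cof v i < 0 := fun h2 => lt_asymm (h1 0) (h2 0)
    rw [if_pos h1, if_pos h1, if_neg h2, sub_zero]
  · rw [if_neg h1, if_neg h1]
    split_ifs <;> simp

/-- The determinant with two extra columns. -/
noncomputable def bb (v : Fin (n + 2) → Fin n → ℝ) (p q : Fin (n + 2) → ℝ) : ℝ :=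
  (bmat p (fun k => Fin.cons (q k) (v k))).det

/-- The Pluecker coordinates of the plane of relations. -/
noncomputable def cc (v : Fin (n + 2) → Fin n → ℝ) (i j : Fin (n + 2)) : ℝ :=
  bb v (Pi.single i 1) (Pi.single j 1)

lemma bb_single (v : Fin (n + 2) → Fin n → ℝ) (i : Fin (n + 2)) (q : Fin (n + 2) → ℝ) :
    bb v (Pi.single i 1) q =
      (-1) ^ (i : ℕ) * ∑ j, q (i.succAbove j) * cof (fun k => v (i.succAbove k)) j := by
  rw [bb, det_bmat, Finset.sum_eq_single i, ← det_bmat]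
  · simp only [Pi.single_eq_same, one_mul, cof]
    rfl
  · intro b _ hb
    simp [hb]
  · simp

lemma cc_succAbove (v : Fin (n + 2) → Fin n → ℝ) (i : Fin (n + 2)) (j : Fin (n + 1)) :
    cc v i (i.succAbove j) = (-1) ^ (i : ℕ) * cof (fun k => v (i.succAbove k)) j := by
  rw [cc, bb_single, Finset.sum_eq_single j]
  · simp
  · intro b _ hb
    rw [Pi.single_eq_of_ne (fun e => hb (Fin.succAbove_right_injective e)), zero_mul]
  · simp

lemma cc_self (v : Fin (n + 2) → Fin n → ℝ) (i : Fin (n + 2)) : cc v i i = 0 := by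
  rw [cc, bb_single, Finset.sum_eq_zero, mul_zero]
  intro j _
  rw [Pi.single_eq_of_ne (Fin.succAbove_ne i j), zero_mul]

lemma bb_single_eq (v : Fin (n + 2) → Fin n → ℝ) (i : Fin (n + 2)) (q : Fin (n + 2) → ℝ) :
    bb v (Pi.single i 1) q = ∑ j, q j * cc v i j := by
  rw [bb_single, Fin.sum_univ_succAbove _ i, cc_self, mul_zero, zero_add, Finset.mul_sum]
  exact sum_congr rfl (fun j _ => by rw [cc_succAbove]; ring)

lemma bb_anti (v : Fin (n + 2) → Fin n → ℝ) (p q : Fin (n + 2) → ℝ) : bb v p q = -bb v q p := by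
  have h01 : (0 : Fin (n + 2)) ≠ Fin.succ 0 := (Fin.succ_ne_zero _).symm
  have e : bmat p (fun k => Fin.cons (q k) (v k)) =
      (bmat q (fun k => Fin.cons (p k) (v k))).submatrix id (Equiv.swap 0 (Fin.succ 0)) := by
    ext k l
    refine Fin.cases ?_ (fun l => ?_) l
    · rw [submatrix_apply, Equiv.swap_apply_left]
      simp only [bmat, of_apply, Fin.cons_zero, Fin.cons_succ, id]
    · refine Fin.cases ?_ (fun l => ?_) l
      · rw [submatrix_apply, Equiv.swap_apply_right]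
        simp only [bmat, of_apply, Fin.cons_zero, Fin.cons_succ, id]
      · rw [submatrix_apply, Equiv.swap_apply_of_ne_of_ne (Fin.succ_ne_zero _)
          (fun e => Fin.succ_ne_zero _ (Fin.succ_injective _ e))]
        simp only [bmat, of_apply, Fin.cons_succ, id]
  rw [bb, bb, e, det_permute', Equiv.Perm.sign_swap h01]
  simp

lemma cc_anti (v : Fin (n + 2) → Fin n → ℝ) (i j : Fin (n + 2)) : cc v i j = -cc v j i :=
  bb_anti v _ _

lemma cc_rel (v : Fin (n + 2) → Fin n → ℝ) (i : Fin (n + 2)) (m : Fin n) :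
    ∑ j, v j m * cc v i j = 0 := by
  rw [← bb_single_eq v i (fun j => v j m), bb]
  exact det_zero_of_column_eq (i := Fin.succ 0) (j := m.succ.succ)
    (fun e => Fin.succ_ne_zero _ (Fin.succ_injective _ e).symm)
    (fun k => by simp only [bmat, of_apply, Fin.cons_zero, Fin.cons_succ])

lemma cc_rep (v : Fin (n + 2) → Fin n → ℝ) {a b i : Fin (n + 2)} (hab : a ≠ b) (h : v a = v b)
    (hia : i ≠ a) (hib : i ≠ b) : cc v i a = -cc v i b := by
  have h0 : bb v (Pi.single i 1) (Pi.single a 1 + Pi.single b 1) = 0 := by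
    refine det_zero_of_row_eq hab ?_
    simp only [bmat]
    change (Fin.cons _ _ : Fin (n + 2) → ℝ) = Fin.cons _ _
    simp [h, hia.symm, hib.symm, hab, hab.symm]
  rw [bb_single_eq] at h0
  simp only [Pi.add_apply, add_mul, sum_add_distrib, Pi.single_apply, ite_mul, one_mul, zero_mul,
    sum_ite_eq', mem_univ, if_true] at h0
  linarith

lemma cc_plucker (v : Fin (n + 2) → Fin n → ℝ) {i j : Fin (n + 2)} (hij : cc v i j ≠ 0)
    (k l : Fin (n + 2)) :
    cc v i j * cc v k l - cc v i k * cc v j l + cc v j k * cc v i l = 0 := by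
  have key : (fun l => cc v i j * cc v k l - cc v i k * cc v j l + cc v j k * cc v i l) = 0 := by
    refine eq_zero_of_vecMul_eq_zero hij ?_
    ext m
    rw [vecMul, dotProduct, Pi.zero_apply]
    refine Fin.cases ?_ (fun m => ?_) m
    · simp only [bmat, of_apply, Fin.cons_zero, Pi.single_apply, mul_ite, mul_one, mul_zero,
        sum_ite_eq', mem_univ, if_true]
      rw [cc_self, cc_anti v k i, cc_anti v j i]; ring
    · refine Fin.cases ?_ (fun m => ?_) m
      · simp only [bmat, of_apply, Fin.cons_zero, Fin.cons_succ, Pi.single_apply, mul_ite, mul_one,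
          mul_zero, sum_ite_eq', mem_univ, if_true]
        rw [cc_self, cc_anti v k j]; ring
      · simp only [bmat, of_apply, Fin.cons_succ]
        have e : ∀ x, (cc v i j * cc v k x - cc v i k * cc v j x + cc v j k * cc v i x) * v x m =
            cc v i j * (v x m * cc v k x) - cc v i k * (v x m * cc v j x) +
              cc v j k * (v x m * cc v i x) := fun x => by ring
        simp only [e, sum_add_distrib, sum_sub_distrib, ← Finset.mul_sum, cc_rel]
        ring
  exact congrFun key l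

section Tournament

variable {ι : Type} [Fintype ι]

lemma sink_of_source [Nontrivial ι] (c : ι → ι → ℝ) (ha : ∀ i j, c i j = -c j i)
    (hne : ∀ i j, i ≠ j → c i j ≠ 0)
    (hp : ∀ i j k l, i ≠ j → c i j * c k l - c i k * c j l + c j k * c i l = 0)
    (h : ∃ i, ∀ j, j ≠ i → 0 < c i j) : ∃ i, ∀ j, j ≠ i → c i j < 0 := by
  classical
  obtain ⟨i, hi⟩ := h
  obtain ⟨i0, hi0⟩ := exists_ne i
  obtain ⟨j, hj, hmax⟩ := Finset.exists_max_image (univ.erase i) (fun j => c i0 j / c i j)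
    ⟨i0, by simp [hi0]⟩
  have hji : j ≠ i := (mem_erase.1 hj).1
  refine ⟨j, fun k hk => ?_⟩
  by_cases hki : k = i
  · rw [hki, ha]
    linarith [hi j hji]
  · refine lt_of_le_of_ne ?_ (hne j k hk.symm)
    have h1 := hmax k (by simp [hki])
    rw [div_le_div_iff₀ (hi k hki) (hi j hji)] at h1
    have h2 := hp i i0 j k hi0.symm
    have h3 : c i i0 * c j k ≤ 0 := by linarith
    by_contra h4
    have := mul_pos (hi i0 hi0) (not_le.1 h4)
    linarith

omit [Fintype ι] in
lemma sink_of_source_rep (c : ι → ι → ℝ) (ha : ∀ i j, c i j = -c j i) {a b : ι} (hab : a ≠ b)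
    (hr : ∀ i, i ≠ a → i ≠ b → c i a = -c i b)
    (h : ∃ i, ∀ j, j ≠ i → 0 < c i j) : ∃ i, ∀ j, j ≠ i → c i j < 0 := by
  obtain ⟨i, hi⟩ := h
  by_cases hia : i = a
  · subst hia
    refine ⟨b, fun k hk => ?_⟩
    by_cases hki : k = i
    · rw [hki, ha]
      linarith [hi b hab.symm]
    · have h1 := hr k hki hk
      have h2 := hi k hki
      rw [ha b k]
      rw [ha i k] at h2
      linarith
  · by_cases hib : i = b
    · subst hib
      refine ⟨a, fun k hk => ?_⟩
      by_cases hki : k = i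
      · rw [hki, ha]
        linarith [hi a hab]
      · have h1 := hr k hk hki
        have h2 := hi k hki
        rw [ha a k]
        rw [ha i k] at h2
        linarith
    · have h1 := hr i hia hib
      have h2 := hi a (Ne.symm hia)
      have h3 := hi b (Ne.symm hib)
      linarith

open Classical in
lemma sum_source (c : ι → ι → ℝ) (ha : ∀ i j, c i j = -c j i) :
    ∑ i, (if ∀ j, j ≠ i → 0 < c i j then (1 : ℝ) else 0) =
      if ∃ i, ∀ j, j ≠ i → 0 < c i j then 1 else 0 := by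
  by_cases h : ∃ i, ∀ j, j ≠ i → 0 < c i j
  · rw [if_pos h]
    obtain ⟨i, hi⟩ := h
    rw [Finset.sum_eq_single i, if_pos hi]
    · intro b _ hb
      refine if_neg fun h' => ?_
      have h1 := hi b hb
      have h2 := h' i hb.symm
      rw [ha] at h2
      linarith
    · simp
  · rw [if_neg h]
    exact Finset.sum_eq_zero fun i _ => if_neg fun h' => h ⟨i, h'⟩

open Classical in
lemma sum_source_sink (c : ι → ι → ℝ) (ha : ∀ i j, c i j = -c j i)
    (h : (∃ i, ∀ j, j ≠ i → 0 < c i j) ↔ ∃ i, ∀ j, j ≠ i → c i j < 0) :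
    ∑ i, ((if ∀ j, j ≠ i → 0 < c i j then (1 : ℝ) else 0) -
      (if ∀ j, j ≠ i → c i j < 0 then (1 : ℝ) else 0)) = 0 := by
  have h2 := sum_source (fun i j => -c i j) (fun i j => by rw [ha i j])
  simp only [neg_pos] at h2
  rw [sum_sub_distrib, sum_source c ha, h2]
  simp only [h, sub_self]

end Tournament

open Classical in
lemma sign_eps (v : Fin (n + 2) → Fin n → ℝ) (i : Fin (n + 2)) :
    (-1) ^ (i : ℕ) * eps (fun k => v (i.succAbove k)) =
      (if ∀ j, j ≠ i → 0 < cc v i j then (1 : ℝ) else 0) -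
        (if ∀ j, j ≠ i → cc v i j < 0 then (1 : ℝ) else 0) := by
  have e : ∀ P : ℝ → Prop, (∀ j, j ≠ i → P (cc v i j)) ↔
      ∀ j, P ((-1) ^ (i : ℕ) * cof (fun k => v (i.succAbove k)) j) := by
    intro P
    constructor
    · intro h j
      rw [← cc_succAbove]
      exact h _ (Fin.succAbove_ne i j)
    · intro h j hj
      obtain ⟨j, rfl⟩ := Fin.exists_succAbove_eq hj
      rw [cc_succAbove]
      exact h j
  have e1 := e (fun t => 0 < t)
  have e2 := e (fun t => t < 0)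
  simp only [e1, e2, eps_eq]
  rcases neg_one_pow_eq_or ℝ (i : ℕ) with h | h
  · simp only [h, one_mul]
  · simp only [h, neg_mul, one_mul, neg_pos, neg_lt_zero, neg_sub]

lemma eps_tuple {P : Type} (X : P → Fin n → ℝ) (x : Fin (n + 2) → P)
    (hGP : ∀ f : Fin n → P, Function.Injective f → (∀ i, ∃ k, x k = f i) →
      (Matrix.of fun i => X (f i)).det ≠ 0) :
    ∑ i : Fin (n + 2), (-1) ^ (i : ℕ) * eps (fun k => X (x (i.succAbove k))) = 0 := by
  set v : Fin (n + 2) → Fin n → ℝ := fun k => X (x k) with hv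
  have e : ∀ i : Fin (n + 2), (-1) ^ (i : ℕ) * eps (fun k => X (x (i.succAbove k))) = _ :=
    fun i => sign_eps v i
  rw [sum_congr rfl (fun i _ => e i)]
  suffices h : (∃ i, ∀ j, j ≠ i → 0 < cc v i j) ↔ ∃ i, ∀ j, j ≠ i → cc v i j < 0 by
    convert sum_source_sink (cc v) (cc_anti v) h
  have ha' : ∀ i j, -cc v i j = - -cc v j i := fun i j => by rw [cc_anti v i j]
  by_cases hx : Function.Injective x
  · have hne : ∀ i j, i ≠ j → cc v i j ≠ 0 := by
      intro i j hij
      obtain ⟨j, rfl⟩ := Fin.exists_succAbove_eq hij.symm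
      rw [cc_succAbove, cof]
      refine mul_ne_zero (pow_ne_zero _ (by norm_num)) (mul_ne_zero (pow_ne_zero _ (by norm_num)) ?_)
      exact hGP (fun k => x (i.succAbove (j.succAbove k)))
        (hx.comp (Fin.succAbove_right_injective.comp Fin.succAbove_right_injective))
        (fun k => ⟨_, rfl⟩)
    refine ⟨sink_of_source _ (cc_anti v) hne (fun i j k l hij => cc_plucker v (hne i j hij) k l),
      fun h => ?_⟩
    have := sink_of_source (fun i j => -cc v i j) ha' (fun i j hij => neg_ne_zero.2 (hne i j hij))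
      (fun i j k l hij => by linarith [cc_plucker v (hne i j hij) k l])
      (by simpa only [neg_pos] using h)
    simpa only [neg_lt_zero] using this
  · obtain ⟨a, b, hxab, hab⟩ := Function.not_injective_iff.1 hx
    have hvab : v a = v b := congrArg X hxab
    refine ⟨sink_of_source_rep _ (cc_anti v) hab (fun i hia hib => cc_rep v hab hvab hia hib),
      fun h => ?_⟩
    have := sink_of_source_rep (fun i j => -cc v i j) ha' hab
      (fun i hia hib => by rw [cc_rep v hab hvab hia hib]) (by simpa only [neg_pos] using h)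
    simpa only [neg_lt_zero] using this

lemma lc_cone_eps {P : Type} (φ : List P → ℝ) (a : P) (c : List P →₀ ℝ) :
    Finsupp.linearCombination ℝ φ (RipsHom.cone ℝ a c) =
      Finsupp.linearCombination ℝ (fun l => φ (a :: l)) c := by
  induction c using Finsupp.induction_linear with
  | zero => simp
  | add f g hf hg => simp only [map_add, hf, hg]
  | single l r => simp

lemma lc_bdL_eps {P : Type} (m : ℕ) : ∀ (φ : List P → ℝ) (x : Fin (m + 1) → P),
    Finsupp.linearCombination ℝ φ (RipsHom.bdL ℝ (List.ofFn x)) =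
      ∑ i : Fin (m + 1), (-1) ^ (i : ℕ) * φ (List.ofFn fun k => x (i.succAbove k)) := by
  induction m with
  | zero =>
    intro φ x
    simp [RipsHom.bdL]
  | succ m ih =>
    intro φ x
    rw [List.ofFn_succ, RipsHom.bdL, map_sub, lc_cone_eps, ih, Fin.sum_univ_succ (n := m + 1)]
    simp only [Finsupp.linearCombination_single, one_smul, Fin.val_zero, pow_zero, one_mul,
      Fin.succAbove_zero, Fin.val_succ, sub_eq_add_neg, ← sum_neg_distrib]
    congr 1
    refine sum_congr rfl (fun i _ => ?_)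
    rw [List.ofFn_succ (f := fun k => x (i.succ.succAbove k))]
    simp only [Fin.succ_succAbove_zero, Fin.succ_succAbove_succ, pow_succ]
    ring

theorem epsL_sort {Y : Type} [LinearOrder Y] (v : Y → Fin n → ℝ) {σ : Finset Y}
    (h : σ.card = n + 1) : epsL n ((σ.sort (· ≤ ·)).map v) = epsS n v σ := by
  have e : (σ.sort (· ≤ ·)).map v = List.ofFn fun i => v (σ.orderEmbOfFin h i) := by
    apply List.ext_getElem
    · simp [h]
    · intro i h1 h2
      rw [List.getElem_map, List.getElem_ofFn, orderEmbOfFin_apply]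
      rfl
  have e2 : ∀ P : ℝ → Prop, (∀ y ∈ σ, P (aa n v σ y)) ↔
      ∀ i, P (cof (fun i => v (σ.orderEmbOfFin h i)) i) := by
    intro P
    constructor
    · intro hP i
      have := hP _ (orderEmbOfFin_mem σ h i)
      rwa [aa_orderEmb] at this
    · intro hP y hy
      obtain ⟨i, rfl⟩ := exists_orderEmb_eq h hy
      rw [aa_orderEmb]
      exact hP i
  have e3 := e2 (fun t => 0 < t)
  have e4 := e2 (fun t => t < 0)
  rw [e, epsL_ofFn, eps, epsS]
  simp only [e3, e4]

theorem epsL_mulVec {A : Matrix (Fin n) (Fin n) ℝ} (hA : 0 < A.det) (l : List (Fin n → ℝ)) :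
    epsL n (l.map (A *ᵥ ·)) = epsL n l := by
  by_cases hl : l.length = n + 1
  · obtain ⟨x, rfl⟩ := exists_ofFn_eps hl
    rw [List.map_ofFn, epsL_ofFn, epsL_ofFn]
    have e : ∀ i, cof ((A *ᵥ ·) ∘ x) i = A.det * cof x i := by
      intro i
      have : (Matrix.of fun j => ((A *ᵥ ·) ∘ x) (i.succAbove j)) =
          (Matrix.of fun j => x (i.succAbove j)) * Aᵀ := by
        ext a b; simp [Matrix.mul_apply, mulVec, dotProduct, mul_comm]
      rw [cof, cof, this, det_mul, det_transpose]; ring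
    have e2 : ∀ t : ℝ, A.det * t < 0 ↔ t < 0 := fun t => by
      constructor
      · intro ht
        by_contra h'
        exact absurd (mul_nonneg hA.le (not_lt.1 h')) (not_le.2 ht)
      · exact fun ht => mul_neg_of_pos_of_neg hA ht
    simp only [eps, e, mul_pos_iff_of_pos_left hA, e2]
  · rw [epsL, epsL, dif_neg hl, dif_neg (by simpa using hl)]

theorem epsL_half (φ : (Fin n → ℝ) →ₗ[ℝ] ℝ) {l : List (Fin n → ℝ)} (h : ∀ x ∈ l, 0 < φ x) :
    epsL n l = 0 := by
  by_cases hl : l.length = n + 1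
  · obtain ⟨x, rfl⟩ := exists_ofFn_eps hl
    have hx : ∀ i, 0 < φ (x i) := fun i => h _ (List.mem_ofFn.2 ⟨i, rfl⟩)
    have h0 : ∑ i, cof x i * φ (x i) = 0 := by
      have := congrArg φ (cof_rel x)
      simpa only [map_sum, map_smul, smul_eq_mul, map_zero] using this
    rw [epsL_ofFn, eps, if_neg, if_neg]
    · intro hc
      have : ∑ i, cof x i * φ (x i) < 0 :=
        Finset.sum_neg (fun i _ => mul_neg_of_neg_of_pos (hc i) (hx i)) univ_nonempty
      exact this.ne h0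
    · intro hc
      have : 0 < ∑ i, cof x i * φ (x i) :=
        Finset.sum_pos (fun i _ => mul_pos (hc i) (hx i)) univ_nonempty
      exact this.ne' h0
  · rw [epsL, dif_neg hl]

/-- The cocycle identity; the list may have repeated points. -/
theorem eps_cocycle (hn : 2 ≤ n) {P : Type} (X : P → Fin n → ℝ) (l : List P)
    (hGP : ∀ f : Fin n → P, Function.Injective f → (∀ i, f i ∈ l) →
      (Matrix.of fun i => X (f i)).det ≠ 0) :
    epsC n X (RipsHom.bdL ℝ l) = 0 := by
  have _ := hn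
  rcases hm : l.length with _ | m
  · rw [List.length_eq_zero_iff.1 hm]
    simp [RipsHom.bdL]
  obtain ⟨x, rfl⟩ := exists_ofFn_eps hm
  rw [epsC, lc_bdL_eps]
  by_cases hmn : m = n + 1
  · subst hmn
    simp only [List.map_ofFn, epsL_ofFn]
    exact eps_tuple X x (fun f hf hmem => hGP f hf (fun i => List.mem_ofFn.2 (hmem i)))
  · refine sum_eq_zero (fun i _ => ?_)
    rw [epsL, dif_neg (by simpa using hmn), mul_zero]

end Pool.Agent.Work.MP_dd0bbc_gt
end

-- merged part: Pool.Agent.Work.MP_dd0bbc_gt.PHChain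
section
/-! Cutting off the corners of the simplices. -/

set_option autoImplicit false

namespace Pool.Agent.Work.MP_dd0bbc_gt

open Finset Matrix Pool.Agent.Lib

section chains

open RipsHom Finsupp

variable {Y : Type} [LinearOrder Y]

/-- The sum of the corner simplices. -/
noncomputable def phCor : Ch ℝ Y →ₗ[ℝ] Ch ℝ (Y × Y) :=
  linearCombination ℝ fun l => ∑ y ∈ l.toFinset, push (Prod.mk y) (single l (1 : ℝ))

/-- The augmentation part. -/
noncomputable def phEta : Ch ℝ Y →ₗ[ℝ] Ch ℝ (Y × Y) :=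
  linearCombination ℝ fun l => if l = [] then single [] 1 else 0

lemma phCor_single (l : List Y) :
    phCor (single l 1) = ∑ y ∈ l.toFinset, push (Prod.mk y) (single l (1 : ℝ)) := by
  rw [phCor, linearCombination_single, one_smul]

omit [LinearOrder Y] in
lemma phEta_single (l : List Y) :
    phEta (single l 1) = if l = [] then single [] 1 else 0 := by
  rw [phEta, linearCombination_single, one_smul]

omit [LinearOrder Y] in
lemma bd_phEta (c : Ch ℝ Y) : bd ℝ (phEta c) = 0 := by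
  induction c using Finsupp.induction_linear with
  | zero => simp
  | add f g hf hg => simp [hf, hg]
  | single l r =>
    rw [phEta, linearCombination_single]
    split_ifs <;> simp [bdL]

/-- Lists of points off the diagonal. -/
def phOff (l : List Y) : Set (List (Y × Y)) :=
  {m | (∃ a ∈ l, ∃ b ∈ l, a ≠ b) ∧ ∀ p ∈ m, p.1 ∈ l ∧ p.2 ∈ l ∧ p.1 ≠ p.2}

/-- Lists of points of the square. -/
def phSq (l : List Y) : Set (List (Y × Y)) := Full {p | p.1 ∈ l ∧ p.2 ∈ l}

lemma ph_defect {l : List Y} (hl : l.Nodup) :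
    phCor (bdL ℝ l) - bd ℝ (phCor (single l 1)) + phEta (bdL ℝ l) ∈ C ℝ (phOff l) := by
  match l, hl with
  | [], _ => simp [bdL, phCor_single]
  | [y], _ =>
    have e : bdL ℝ [y] = single [] 1 := by simp [bdL]
    rw [e, phCor_single, phCor_single, phEta_single]
    simp [bdL]
  | a :: b :: t, hl =>
    have hab : a ≠ b := fun e => by simp [e] at hl
    set l := a :: b :: t with hl'
    have e : phCor (bdL ℝ l) - bd ℝ (phCor (single l 1)) + phEta (bdL ℝ l) =
        (phCor - (∑ y ∈ l.toFinset, push (Prod.mk y)) + phEta :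
          Ch ℝ Y →ₗ[ℝ] Ch ℝ (Y × Y)) (bdL ℝ l) := by
      simp only [phCor_single, map_sum, bd_push, bd_single, one_smul, LinearMap.add_apply,
        LinearMap.sub_apply, LinearMap.sum_apply]
    rw [e]
    refine map_mem _ (fun m hm => ?_) _ (bdL_mem l)
    have hm0 : m ≠ [] := by
      rintro rfl
      simpa [hl'] using hm.2
    have hs : m.toFinset ⊆ l.toFinset := fun y hy =>
      List.mem_toFinset.2 (hm.1.subset (List.mem_toFinset.1 hy))
    simp only [LinearMap.add_apply, LinearMap.sub_apply, LinearMap.sum_apply, phCor_single,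
      phEta_single, if_neg hm0, add_zero]
    rw [← sum_sdiff hs, sub_add_cancel_right]
    refine Submodule.neg_mem _ (Submodule.sum_mem _ fun y hy => ?_)
    rw [push_single]
    refine single_mem (K := phOff l) ⟨⟨a, by simp [hl'], b, by simp [hl'], hab⟩, fun p hp => ?_⟩ _
    obtain ⟨j, hj, rfl⟩ := List.mem_map.1 hp
    obtain ⟨h1, h2⟩ := mem_sdiff.1 hy
    exact ⟨List.mem_toFinset.1 h1, hm.1.subset hj,
      fun c : y = j => h2 (List.mem_toFinset.2 (c ▸ hj))⟩

omit [LinearOrder Y] in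
lemma ph_down : Down {l : List Y | l.Nodup} := fun _ hl _ hm => List.Nodup.sublist hm hl

lemma ph_mid : ∃ M : Ch ℝ Y →ₗ[ℝ] Ch ℝ (Y × Y), M (single [] 1) = 0 ∧ ∀ l : List Y, l.Nodup →
    M (single l 1) ∈ C ℝ (phOff l) ∧ bd ℝ (M (single l 1)) =
      phCor (bdL ℝ l) - bd ℝ (phCor (single l 1)) + phEta (bdL ℝ l) + M (bdL ℝ l) := by
  obtain ⟨M, h1, h2⟩ := carrier (R := ℝ) ph_down (phOff (Y := Y))
    (fun l _ m hm k hk => ⟨by
      obtain ⟨a, ha, b, hb, h⟩ := hk.1
      exact ⟨a, hm.subset ha, b, hm.subset hb, h⟩, fun p hp =>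
        ⟨hm.subset (hk.2 p hp).1, hm.subset (hk.2 p hp).2.1, (hk.2 p hp).2.2⟩⟩)
    (fun l _ _ => by
      by_cases h : ∃ a ∈ l, ∃ b ∈ l, a ≠ b
      · obtain ⟨a, ha, b, hb, hab⟩ := h
        refine bd_of_cone (a, b) fun m hm => ⟨hm.1, fun p hp => ?_⟩
        rcases List.mem_cons.1 hp with rfl | hp
        exacts [⟨ha, hb, hab⟩, hm.2 p hp]
      · intro c hc _
        refine ⟨0, Submodule.zero_mem _, ?_⟩
        rw [map_zero, eq_comm, ← support_eq_empty, eq_empty_iff_forall_notMem]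
        exact fun m hm => h (hc hm).1)
    (phCor ∘ₗ bd ℝ - bd ℝ ∘ₗ phCor + phEta ∘ₗ bd ℝ) 1
    (fun l hl => by simpa using ph_defect hl)
    (fun l _ => by simp [bd_bd, bd_bdL, bd_phEta])
    0 (Submodule.zero_mem _) (by simp [bdL, phCor_single])
  exact ⟨M, h1, fun l hl => by simpa using h2 l hl⟩

lemma ph_htpy : ∃ M H : Ch ℝ Y →ₗ[ℝ] Ch ℝ (Y × Y), ∀ l : List Y, l.Nodup →
    M (single l 1) ∈ C ℝ (phOff l) ∧ H (single l 1) ∈ C ℝ (phSq l) ∧ bd ℝ (H (single l 1)) =
      phCor (single l 1) + M (single l 1) + phEta (single l 1) -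
        single (l.map fun j => (j, j)) 1 - H (bdL ℝ l) := by
  obtain ⟨M, h1, h2⟩ := ph_mid (Y := Y)
  obtain ⟨H, -, h3⟩ := carrier (R := ℝ) ph_down (phSq (Y := Y))
    (fun l _ m hm => Full.mono fun p hp => ⟨hm.subset hp.1, hm.subset hp.2⟩)
    (fun l _ hl => by
      obtain ⟨a, ha⟩ := List.exists_mem_of_ne_nil l hl
      exact Full.bd (a := (a, a)) ⟨ha, ha⟩)
    (phCor + M + phEta - push fun j => (j, j)) (-1)
    (fun l hl => by
      simp only [LinearMap.add_apply, LinearMap.sub_apply, phCor_single, phEta_single, push_single]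
      refine Submodule.sub_mem _ (Submodule.add_mem _ (Submodule.add_mem _
        (Submodule.sum_mem _ fun y hy => single_mem (fun p hp => ?_) _)
        (C_mono (fun m hm p hp => ⟨(hm.2 p hp).1, (hm.2 p hp).2.1⟩) (h2 l hl).1)) ?_)
        (single_mem (fun p hp => ?_) _)
      · obtain ⟨j, hj, rfl⟩ := List.mem_map.1 hp
        exact ⟨List.mem_toFinset.1 hy, hj⟩
      · split_ifs
        · exact single_mem (fun p hp => by simp at hp) _
        · exact Submodule.zero_mem _
      · obtain ⟨j, hj, rfl⟩ := List.mem_map.1 hp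
        exact ⟨hj, hj⟩)
    (fun l hl => by
      simp only [LinearMap.add_apply, LinearMap.sub_apply, map_add, map_sub, (h2 l hl).2, bd_phEta,
        bd_push, bd_single, one_smul, neg_smul]
      abel)
    0 (Submodule.zero_mem _) (by simp [h1, phCor_single, phEta_single])
  exact ⟨M, H, fun l hl => ⟨(h2 l hl).1, (h3 l hl).1, by
    simpa [sub_eq_add_neg] using (h3 l hl).2⟩⟩

lemma ph_bd_sort (σ : Finset Y) : bdL ℝ (σ.sort (· ≤ ·)) =
    ∑ y ∈ σ, (sgn y σ : ℝ) • single ((σ.erase y).sort (· ≤ ·)) (1 : ℝ) := by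
  induction σ using Finset.induction_on_min with
  | empty => simp [bdL]
  | insert a s h ih =>
    have ha : a ∉ s := fun c => lt_irrefl _ (h a c)
    have h1 : sgn a (insert a s) = 1 := by
      rw [sgn_insert_self, sgn, filter_eq_empty_iff.2 fun x hx => (h x hx).not_gt]
      simp
    rw [sort_insert _ (fun b hb => (h b hb).le) ha, bdL, ih, sum_insert ha, h1, erase_insert ha,
      map_sum, sub_eq_add_neg, ← sum_neg_distrib, Int.cast_one, one_smul]
    congr 1
    refine sum_congr rfl fun y hy => ?_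
    rw [sgn_insert_of_lt ha (h y hy), erase_insert_of_ne (h y hy).ne,
      sort_insert _ (fun b hb => (h b (mem_of_mem_erase hb)).le)
        (fun c => ha (mem_of_mem_erase c)), map_smul, cone_single, Int.cast_neg, neg_smul]

lemma ph_zero {P : Type} {K : Set (List P)} (F : Ch ℝ P →ₗ[ℝ] ℝ)
    (h : ∀ l ∈ K, F (single l 1) = 0) : ∀ c ∈ C ℝ K, F c = 0 := by
  refine C_induction (by simp) (fun x y hx hy => by rw [map_add, hx, hy, add_zero]) ?_
  intro l hl r
  have : single l r = r • single l (1 : ℝ) := by simp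
  rw [this, map_smul, h l hl, smul_zero]

lemma epsC_single {n : ℕ} {P : Type} (X : P → Fin n → ℝ) (l : List P) :
    epsC n X (single l 1) = epsL n (l.map X) := by
  rw [epsC, linearCombination_single, one_smul]

end chains

lemma ph_cyc {n : ℕ} {Y : Type} [Fintype Y] [LinearOrder Y] {K : Finset (Finset Y)}
    (hK : ∀ S ∈ K, ∀ R, R ⊆ S → R ∈ K) {o : Finset Y → ℝ} (hc : Cyc K n o) (ψ : Finset Y → ℝ) :
    ∑ σ ∈ tops K n, o σ * ∑ y ∈ σ, (sgn y σ : ℝ) * ψ (σ.erase y) = 0 := by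
  have e : ∑ σ ∈ tops K n, ∑ y ∈ σ, o σ * (sgn y σ : ℝ) * ψ (σ.erase y) =
      ∑ τ ∈ K.filter (·.card = n), ∑ y ∈ τᶜ.filter (fun y => insert y τ ∈ K),
        o (insert y τ) * (sgn y (insert y τ) : ℝ) * ψ τ := by
    rw [sum_sigma', sum_sigma']
    refine sum_nbij' (fun p => ⟨p.1.erase p.2, p.2⟩) (fun p => ⟨insert p.2 p.1, p.2⟩) ?_ ?_ ?_ ?_ ?_
    · rintro ⟨σ, y⟩ hp
      obtain ⟨h1, h2⟩ := mem_sigma.1 hp
      obtain ⟨h3, h4⟩ := mem_tops.1 h1
      refine mem_sigma.2 ⟨mem_filter.2 ⟨hK σ h3 _ (erase_subset _ _), ?_⟩,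
        mem_filter.2 ⟨mem_compl.2 (notMem_erase _ _), ?_⟩⟩
      · rw [card_erase_of_mem h2, h4]; rfl
      · rwa [insert_erase h2]
    · rintro ⟨τ, y⟩ hp
      obtain ⟨h1, h2⟩ := mem_sigma.1 hp
      obtain ⟨h3, h4⟩ := mem_filter.1 h2
      refine mem_sigma.2 ⟨mem_tops.2 ⟨h4, ?_⟩, mem_insert_self _ _⟩
      rw [card_insert_of_notMem (mem_compl.1 h3), (mem_filter.1 h1).2]
    · rintro ⟨σ, y⟩ hp
      simp only [insert_erase (mem_sigma.1 hp).2]
    · rintro ⟨τ, y⟩ hp
      simp only [erase_insert (mem_compl.1 (mem_filter.1 (mem_sigma.1 hp).2).1)]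
    · rintro ⟨σ, y⟩ hp
      simp only [insert_erase (mem_sigma.1 hp).2]
  simp only [mul_sum, ← mul_assoc]
  rw [e]
  refine sum_eq_zero fun τ hτ => ?_
  rw [← sum_mul, hc τ (mem_filter.1 hτ).1 (mem_filter.1 hτ).2, zero_mul]

theorem ph_chain {n : ℕ} (hn : 2 ≤ n) {Y : Type} [Fintype Y] [LinearOrder Y] (D : Fan n Y)
    (hD : D.Det1) {o : Finset Y → ℝ} (hc : Cyc D.K n o) {bs : Finset Y → Y}
    (hbs : ∀ S : Finset Y, S.Nonempty → bs S ∈ S) {x : Y → Y → Fin n → ℝ} (hx : D.GP2 x)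
    (hpos : ∀ σ ∈ D.K, σ.card = n + 1 → ∃ l : (Fin n → ℝ) →ₗ[ℝ] ℝ, ∀ b ∈ σ, ∀ c ∈ σ, b ≠ c →
      0 < l (D.T (bs σ) b *ᵥ x b c)) :
    ∑ σ ∈ tops D.K n, o σ * epsS n (D.vv (fun y => x y y) (bs σ)) σ =
      ∑ σ ∈ tops D.K n, o σ * ∑ y ∈ σ, epsS n (x y) σ := by
  obtain ⟨M, H, hMH⟩ := ph_htpy (Y := Y)
  let X : Y → Y × Y → Fin n → ℝ := fun a p => D.T a p.1 *ᵥ x p.1 p.2
  let ψ : Finset Y → ℝ := fun τ => epsC n (X (bs τ)) (H (Finsupp.single (τ.sort (· ≤ ·)) 1))
  have key : ∀ σ ∈ tops D.K n, ∑ y ∈ σ, epsS n (x y) σ = epsS n (D.vv (fun y => x y y) (bs σ)) σ +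
      ∑ y ∈ σ, (sgn y σ : ℝ) * ψ (σ.erase y) := by
    intro σ hσ
    obtain ⟨hσK, hσc⟩ := mem_tops.1 hσ
    have ha : bs σ ∈ σ := hbs σ (card_pos.1 (by omega))
    have det : ∀ y ∈ σ, 0 < (D.T (bs σ) y).det := fun y hy => by
      rw [hD _ _ (D.down σ hσK _ (insert_subset ha (singleton_subset_iff.2 hy)))]
      exact one_pos
    obtain ⟨h1, h2, h3⟩ := hMH (σ.sort (· ≤ ·)) (sort_nodup _ _)
    have k0 : epsC n (X (bs σ)) (RipsHom.bd ℝ (H (Finsupp.single (σ.sort (· ≤ ·)) 1))) = 0 :=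
      ph_zero (epsC n (X (bs σ)) ∘ₗ RipsHom.bd ℝ) (fun m hm => by
        rw [LinearMap.comp_apply, RipsHom.bd_single, one_smul]
        exact eps_cocycle hn _ m fun f hf hfm => hx σ hσK hσc _ ha f hf fun i =>
          ⟨(mem_sort _).1 (hm _ (hfm i)).1, (mem_sort _).1 (hm _ (hfm i)).2⟩) _ h2
    have k1 : epsC n (X (bs σ)) (phCor (Finsupp.single (σ.sort (· ≤ ·)) 1)) =
        ∑ y ∈ σ, epsS n (x y) σ := by
      rw [phCor_single, map_sum, sort_toFinset]
      refine sum_congr rfl fun y hy => ?_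
      rw [RipsHom.push_single, epsC_single, ← epsL_sort _ hσc,
        ← epsL_mulVec (det y hy) (List.map (x y) _), List.map_map, List.map_map]
      rfl
    have k2 : epsC n (X (bs σ)) (M (Finsupp.single (σ.sort (· ≤ ·)) 1)) = 0 := by
      obtain ⟨φ, hφ⟩ := hpos σ hσK hσc
      refine ph_zero _ (fun m hm => ?_) _ h1
      rw [epsC_single]
      refine epsL_half φ fun v hv => ?_
      obtain ⟨p, hp, rfl⟩ := List.mem_map.1 hv
      exact hφ _ ((mem_sort _).1 (hm.2 p hp).1) _ ((mem_sort _).1 (hm.2 p hp).2.1) (hm.2 p hp).2.2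
    have k3 : phEta (Finsupp.single (σ.sort (· ≤ ·)) 1) = 0 := by
      rw [phEta_single, if_neg]
      intro c
      have := length_sort (s := σ) (· ≤ ·)
      rw [c, hσc] at this
      simp at this
    have k4 : epsC n (X (bs σ)) (Finsupp.single ((σ.sort (· ≤ ·)).map fun j => (j, j)) 1) =
        epsS n (D.vv (fun y => x y y) (bs σ)) σ := by
      rw [epsC_single, ← epsL_sort _ hσc, List.map_map]
      rfl
    have k5 : epsC n (X (bs σ)) (H (RipsHom.bdL ℝ (σ.sort (· ≤ ·)))) =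
        ∑ y ∈ σ, (sgn y σ : ℝ) * ψ (σ.erase y) := by
      rw [ph_bd_sort, map_sum, map_sum]
      refine sum_congr rfl fun y hy => ?_
      rw [map_smul, map_smul, smul_eq_mul]
      congr 1
      have hb : bs (σ.erase y) ∈ σ := mem_of_mem_erase (hbs _ (card_pos.1 (by
        rw [card_erase_of_mem hy]; omega)))
      rw [← sub_eq_zero]
      refine ph_zero (epsC n (X (bs σ)) - epsC n (X (bs (σ.erase y)))) (fun m hm => ?_) _
        (hMH _ (sort_nodup _ _)).2.1
      rw [LinearMap.sub_apply, epsC_single, epsC_single, sub_eq_zero, ← epsL_mulVec (det _ hb)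
        (m.map (X (bs (σ.erase y)))), List.map_map]
      congr 1
      refine List.map_congr_left fun p hp => ?_
      have hp1 : p.1 ∈ σ := mem_of_mem_erase ((mem_sort _).1 (hm p hp).1)
      simp only [X, Function.comp_apply, mulVec_mulVec]
      rw [D.T_mul _ _ _ (D.down σ hσK _ (insert_subset ha (insert_subset hb
        (singleton_subset_iff.2 hp1))))]
    rw [h3, map_sub, map_sub, map_add, map_add, k1, k2, k3, k4, k5, map_zero] at k0
    linarith
  rw [sum_congr rfl fun σ hσ => congrArg (o σ * ·) (key σ hσ)]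
  simp only [mul_add, sum_add_distrib, ph_cyc D.down hc ψ, add_zero]

end Pool.Agent.Work.MP_dd0bbc_gt
end

-- merged part: Pool.Agent.Work.MP_dd0bbc_gt.Orient
section
/-! Orientation, generic vectors, purity, the fundamental cycle. -/

set_option autoImplicit false

namespace Pool.Agent.Work.MP_dd0bbc_gt

open Finset Matrix

variable {n : ℕ} {Y : Type} [LinearOrder Y]

theorem Gen.neg {K : Finset (Finset Y)} {p : Y → Fin n → ℝ} {a : Y} {w : Fin n → ℝ}
    (h : Gen K n p a w) : Gen K n p a (-w) := by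
  intro σ hσ hc ha c hw j hj
  have := h σ hσ hc ha (fun j => -c j)
    (by simp only [neg_smul, sum_neg_distrib, ← hw, neg_neg]) j hj
  exact neg_ne_zero.1 this

theorem Fan.exists_gen (D : Fan n Y) (a : Y) : ∃ w, Gen D.K n (D.pos a) a w := by
  classical
  let ι := {q : Finset Y × Y // q ∈ (D.K.filter fun σ => σ.card = n + 1 ∧ a ∈ σ).biUnion
    fun σ => (σ.erase a).image fun j => (σ, j)}
  let P : ι → Subspace ℝ (Fin n → ℝ) := fun q =>
    Submodule.span ℝ (((q.1.1.erase a).erase q.1.2).image (D.pos a) : Finset (Fin n → ℝ))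
  have hP : ∀ q, P q ≠ ⊤ := by
    rintro ⟨q, hq⟩ e
    obtain ⟨σ, hσ, hq'⟩ := mem_biUnion.1 hq
    obtain ⟨j, hj, rfl⟩ := mem_image.1 hq'
    obtain ⟨-, hc, ha⟩ := mem_filter.1 hσ
    have h1 : Module.finrank ℝ (P ⟨(σ, j), hq⟩) ≤ ((σ.erase a).erase j).card :=
      (finrank_span_finset_le_card _).trans card_image_le
    have h2 := card_erase_add_one hj
    have h3 := card_erase_add_one ha
    rw [e, finrank_top, Module.finrank_fin_fun] at h1
    omega
  have hU : ⋃ q, (P q : Set (Fin n → ℝ)) ≠ Set.univ := fun e => by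
    obtain ⟨q, hq⟩ := Subspace.exists_eq_top_of_iUnion_eq_univ e
    exact hP q hq
  obtain ⟨w, hw⟩ := (Set.ne_univ_iff_exists_notMem _).1 hU
  refine ⟨w, fun σ hσ hc ha c e j hj h0 => hw (Set.mem_iUnion.2 ⟨⟨(σ, j), mem_biUnion.2
    ⟨σ, mem_filter.2 ⟨hσ, hc, ha⟩, mem_image.2 ⟨j, hj, rfl⟩⟩⟩, ?_⟩)⟩
  rw [e, ← add_sum_erase _ _ hj, h0, zero_smul, zero_add]
  exact Submodule.sum_mem _ fun i hi => Submodule.smul_mem _ _
    (Submodule.subset_span (mem_coe.2 (mem_image_of_mem _ hi)))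

theorem Fan.pure (D : Fan n Y) {τ : Finset Y} (hτ : τ ∈ D.K) (hne : τ.Nonempty) :
    ∃ σ ∈ D.K, σ.card = n + 1 ∧ τ ⊆ σ := by
  obtain ⟨a, ha⟩ := hne
  obtain ⟨w, hw⟩ := D.exists_gen a
  obtain ⟨val, h1, -⟩ := D.star a w hw
  obtain ⟨σ, hσ, hc, hs, -⟩ := h1 τ hτ ha
  exact ⟨σ, hσ, hc, hs⟩

lemma ori_sum_aa (v : Y → Fin n → ℝ) {σ : Finset Y} (h : σ.card = n + 1) :
    ∑ y ∈ σ, aa n v σ y = (Matrix.of fun i : Fin (n + 1) =>
      (Fin.cons 1 (v (σ.orderEmbOfFin h i)) : Fin (n + 1) → ℝ)).det := by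
  rw [sum_orderEmb h, det_succ_column_zero]
  refine sum_congr rfl (fun i _ => ?_)
  rw [aa_orderEmb]
  have : (Matrix.of fun i : Fin (n + 1) =>
      (Fin.cons 1 (v (σ.orderEmbOfFin h i)) : Fin (n + 1) → ℝ)).submatrix i.succAbove Fin.succ =
      Matrix.of fun j => v (σ.orderEmbOfFin h (i.succAbove j)) := by
    ext a b; simp
  rw [this]; simp

lemma ori_sum_aa_sub (v : Y → Fin n → ℝ) (z : Fin n → ℝ) {σ : Finset Y} (h : σ.card = n + 1) :
    ∑ y ∈ σ, aa n (fun c => v c - z) σ y = ∑ y ∈ σ, aa n v σ y := by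
  rw [ori_sum_aa _ h, ori_sum_aa _ h, ← det_transpose, ← det_transpose (Matrix.of _)]
  refine det_eq_of_forall_row_eq_smul_add_const (Fin.cons 0 (-z)) 0 rfl (fun i j => ?_)
  refine Fin.cases ?_ (fun i => ?_) i
  · simp
  · simp [sub_eq_add_neg]

lemma ori_sum_aa_zero {v : Y → Fin n → ℝ} {σ : Finset Y} (h : σ.card = n + 1) {a : Y}
    (ha : a ∈ σ) (h0 : v a = 0) : ∑ y ∈ σ, aa n v σ y = aa n v σ a := by
  refine sum_eq_single_of_mem a ha (fun y hy hya => ?_)
  have h' : (σ.erase y).card = n := by rw [card_erase_of_mem hy, h]; rfl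
  by_contra hne
  exact ((detS_ne_zero_iff h').1 (right_ne_zero_of_mul hne)).ne_zero
    ⟨a, mem_erase.2 ⟨hya.symm, ha⟩⟩ h0

lemma ori_aa_sub {v : Y → Fin n → ℝ} {σ : Finset Y} (h : σ.card = n + 1) {a b : Y}
    (ha : a ∈ σ) (hb : b ∈ σ) (h0 : v a = 0) :
    aa n (fun c => v c - v b) σ b = aa n v σ a := by
  rw [← ori_sum_aa_zero h ha h0, ← ori_sum_aa_sub v (v b) h, ori_sum_aa_zero h hb (sub_self _)]

lemma ori_indep {σ : Finset Y} (h : σ.card = n + 1) {a b : Y} (ha : a ∈ σ) (hb : b ∈ σ)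
    (hab : a ≠ b) {p : Y → Fin n → ℝ} (h0 : p a = 0)
    (hli : LinearIndependent ℝ (fun j : {j // j ∈ σ.erase a} => p j.1)) (Δ : Y → Y → ℝ)
    (hΔ : ∀ c ∈ σ.erase b, ∀ j ∈ σ.erase a, (n : ℝ) ^ 2 * |Δ c j| < 1) :
    detS n (fun c => p c - p b + ∑ j ∈ σ.erase a, Δ c j • p j) (σ.erase b) ≠ 0 := by
  have ca : (σ.erase a).card = n := by rw [card_erase_of_mem ha, h]; rfl
  have cb : (σ.erase b).card = n := by rw [card_erase_of_mem hb, h]; rfl
  have hab' : a ∈ σ.erase b := mem_erase.2 ⟨hab, ha⟩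
  have hba' : b ∈ σ.erase a := mem_erase.2 ⟨hab.symm, hb⟩
  have hn : (1 : ℝ) ≤ n := by
    have := card_pos.2 ⟨a, hab'⟩
    exact_mod_cast cb ▸ this
  rw [detS_ne_zero_iff cb, Fintype.linearIndependent_iff]
  intro g hg
  let x : Y → ℝ := fun y => if h : y ∈ σ.erase b then g ⟨y, h⟩ else 0
  have hx : ∑ c ∈ σ.erase b, x c • (p c - p b + ∑ j ∈ σ.erase a, Δ c j • p j) = 0 := by
    rw [← hg, ← sum_coe_sort (σ.erase b)]
    exact sum_congr rfl (fun j _ => by simp only [x, dif_pos j.2])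
  let E : Y → ℝ := fun j => ∑ c ∈ σ.erase b, x c * Δ c j
  let d : Y → ℝ := fun j => if j = b then -∑ c ∈ σ.erase b, x c else x j
  have hd : ∀ j ∈ σ.erase b, d j = x j := fun j hj => if_neg (ne_of_mem_erase hj)
  have h1 : ∑ j ∈ σ.erase a, d j • p j = ∑ j ∈ σ.erase a, (-E j) • p j := by
    have e1 : ∑ j ∈ σ.erase a, d j • p j =
        ∑ c ∈ σ.erase b, x c • p c - (∑ c ∈ σ.erase b, x c) • p b := by
      rw [sum_erase σ (by rw [h0, smul_zero]), ← add_sum_erase σ _ hb,
        sum_congr rfl (fun j hj => by rw [hd j hj])]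
      simp only [d, if_true, neg_smul]
      abel
    have e2 : ∑ j ∈ σ.erase a, E j • p j =
        ∑ c ∈ σ.erase b, x c • ∑ j ∈ σ.erase a, Δ c j • p j := by
      simp only [E, Finset.sum_smul, Finset.smul_sum, smul_smul]
      exact sum_comm
    simp only [smul_add, smul_sub, sum_add_distrib, sum_sub_distrib] at hx
    simp only [neg_smul, sum_neg_distrib]
    rw [e1, e2, Finset.sum_smul]
    exact eq_neg_of_add_eq_zero_left hx
  have h2 := coord_unique hli h1
  have h3 : x a = ∑ j ∈ σ.erase a, E j := by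
    have e1 : ∑ j ∈ σ, d j = 0 := by
      rw [← add_sum_erase σ _ hb, sum_congr rfl hd]
      simp [d]
    rw [← add_sum_erase σ _ ha, sum_congr rfl h2, hd a hab', sum_neg_distrib] at e1
    linarith
  obtain ⟨c0, hc0, hmax⟩ := exists_max_image (σ.erase b) (fun c => |x c|) ⟨a, hab'⟩
  have hM : |x c0| ≤ 0 := by
    by_contra hM
    push Not at hM
    have hE : ∀ j ∈ σ.erase a, n * |E j| < |x c0| := by
      intro j hj
      have e1 : (n : ℝ) ^ 2 * |E j| ≤ ∑ c ∈ σ.erase b, |x c0| * ((n : ℝ) ^ 2 * |Δ c j|) := by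
        refine (mul_le_mul_of_nonneg_left (abs_sum_le_sum_abs _ _) (by positivity)).trans ?_
        rw [mul_sum]
        refine sum_le_sum (fun c hc => ?_)
        rw [abs_mul, mul_left_comm]
        exact mul_le_mul_of_nonneg_right (hmax c hc) (by positivity)
      have e2 : ∑ c ∈ σ.erase b, |x c0| * ((n : ℝ) ^ 2 * |Δ c j|) < ∑ c ∈ σ.erase b, |x c0| :=
        sum_lt_sum_of_nonempty ⟨a, hab'⟩ (fun c hc => mul_lt_of_lt_one_right hM (hΔ c hc j hj))
      rw [sum_const, cb, nsmul_eq_mul] at e2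
      nlinarith
    by_cases e : c0 = a
    · have e1 : n * |x a| ≤ ∑ j ∈ σ.erase a, n * |E j| := by
        rw [h3, ← mul_sum]
        exact mul_le_mul_of_nonneg_left (abs_sum_le_sum_abs _ _) (by positivity)
      have e2 := sum_lt_sum_of_nonempty ⟨b, hba'⟩ hE
      rw [sum_const, ca, nsmul_eq_mul, e] at e2
      linarith
    · have hc : c0 ∈ σ.erase a := mem_erase.2 ⟨e, mem_of_mem_erase hc0⟩
      have e1 := hE c0 hc
      have e2 := h2 c0 hc
      rw [hd c0 hc0] at e2
      rw [e2, abs_neg] at e1 hM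
      nlinarith
  intro i
  have := (hmax i i.2).trans hM
  simp only [x, dif_pos i.2] at this
  exact abs_nonpos_iff.1 this

lemma ori_delta {N : Type} [AddCommGroup N] [Module ℝ N] {σ : Finset Y} {a c : Y} (hc : c ∈ σ)
    {p : Y → N} (h0 : p a = 0) :
    ∑ j ∈ σ.erase a, (if j = c then (1 : ℝ) else 0) • p j = p c := by
  rw [sum_erase σ (by rw [h0, smul_zero])]
  simp [hc]

lemma Fan.ori_pos (D : Fan n Y) (hD : D.Det1) {σ : Finset Y} (hσ : σ ∈ D.K)
    (h : σ.card = n + 1) {a b : Y} (ha : a ∈ σ) (hb : b ∈ σ) :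
    0 < aa n (D.pos a) σ a * aa n (D.pos b) σ b := by
  have cb : (σ.erase b).card = n := by rw [card_erase_of_mem hb, h]; rfl
  have hs : ∀ y : Y, (sgn y σ : ℝ) ≠ 0 := fun y =>
    left_ne_zero_of_mul_eq_one (sgn_cast_mul_self ℝ y σ)
  by_cases hab : a = b
  · subst hab
    exact mul_self_pos.2 (mul_ne_zero (hs a) ((detS_ne_zero_iff cb).2 (D.indep σ hσ h a ha)))
  have hcl := fun (c : Y) (hc : c ∈ σ.erase b) =>
    D.close σ hσ h a ha b hb c (mem_of_mem_erase hc) (ne_of_mem_erase hc)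
  choose! t ht β hβ hb' using hcl
  let Δ : Y → Y → ℝ := fun c j =>
    β c j - ((if j = c then 1 else 0) - (if j = b then 1 else 0))
  let f : ℝ → ℝ := fun s => detS n
    (fun c => D.pos a c - D.pos a b + ∑ j ∈ σ.erase a, (s * Δ c j) • D.pos a j) (σ.erase b)
  have hf : Continuous f := by
    simp only [f, detS, dif_pos cb]
    refine Continuous.matrix_det (continuous_matrix fun i j => ?_)
    simp only [of_apply, Pi.add_apply, Finset.sum_apply, Pi.smul_apply, smul_eq_mul]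
    fun_prop
  have hne : ∀ s ∈ Set.Icc (0 : ℝ) 1, f s ≠ 0 := by
    intro s hs
    refine ori_indep h ha hb hab (D.pos_self a) (D.indep σ hσ h a ha) _ (fun c hc j hj => ?_)
    refine lt_of_le_of_lt ?_ (hb' c hc j hj)
    rw [abs_mul, abs_of_nonneg hs.1]
    exact mul_le_mul_of_nonneg_left (mul_le_of_le_one_left (abs_nonneg _) hs.2) (by positivity)
  have h01 : 0 < f 0 * f 1 := by
    by_contra hneg
    have h0 := hne 0 ⟨le_rfl, zero_le_one⟩
    have : (0 : ℝ) ∈ Set.Icc (f 0 * f 1) (f 0 * f 0) := ⟨not_lt.1 hneg, mul_self_nonneg _⟩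
    obtain ⟨s, hs, e⟩ := intermediate_value_Icc' zero_le_one
      (f := fun s => f 0 * f s) (continuous_const.mul hf).continuousOn this
    exact mul_ne_zero h0 (hne s hs) e
  have e0 : (sgn b σ : ℝ) * f 0 = aa n (D.pos a) σ a := by
    rw [← ori_aa_sub h ha hb (D.pos_self a)]
    simp [f, aa]
  have e1 : f 1 = (∏ c ∈ σ.erase b, t c) * detS n (D.pos b) (σ.erase b) := by
    have hT : (D.T a b).det = 1 := hD a b (D.down σ hσ _ (by
      intro x hx
      rcases mem_insert.1 hx with rfl | hx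
      · exact ha
      · rw [mem_singleton.1 hx]; exact hb))
    have hT' := detS_mulVec (D.T a b) (D.pos b) (σ.erase b)
    rw [hT, one_mul] at hT'
    rw [← hT', ← detS_smul]
    refine detS_congr (fun c hc => ?_)
    rw [hβ c hc]
    simp only [Δ, one_mul, sub_smul, sum_sub_distrib,
      ori_delta (mem_of_mem_erase hc) (D.pos_self a), ori_delta hb (D.pos_self a)]
    abel
  have hp : 0 < ∏ c ∈ σ.erase b, t c := prod_pos ht
  rw [← e0, aa]
  rw [e1] at h01
  have e2 : (sgn b σ : ℝ) * f 0 * (sgn b σ * detS n (D.pos b) (σ.erase b)) =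
      f 0 * detS n (D.pos b) (σ.erase b) := by
    linear_combination f 0 * detS n (D.pos b) (σ.erase b) * sgn_cast_mul_self ℝ b σ
  rw [e2]
  rw [mul_left_comm] at h01
  exact (mul_pos_iff_of_pos_left hp).1 h01

theorem Fan.exists_ori (D : Fan n Y) (hD : D.Det1) : ∃ o, D.IsOri o := by
  classical
  refine ⟨fun σ => if ∃ a ∈ σ, 0 < aa n (D.pos a) σ a then 1 else -1, fun σ hσ hc => ⟨?_, ?_⟩⟩
  · dsimp only
    split_ifs <;> simp
  · intro a ha
    dsimp only
    split_ifs with h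
    · obtain ⟨b, hb, h⟩ := h
      rw [one_mul]
      exact (mul_pos_iff_of_pos_left h).1 (D.ori_pos hD hσ hc hb ha)
    · have h1 : aa n (D.pos a) σ a ≤ 0 := not_lt.1 fun e => h ⟨a, ha, e⟩
      have h2 := D.ori_pos hD hσ hc ha ha
      have h3 : aa n (D.pos a) σ a ≠ 0 := mul_self_pos.1 h2
      have := lt_of_le_of_ne h1 h3
      linarith

theorem Fan.exists_rank (D : Fan n Y) {σ : Finset Y} (hσ : σ ∈ D.K) (hc : σ.card = n + 1) {a : Y}
    (ha : a ∈ σ) : ∃ l : (Fin n → ℝ) →ₗ[ℝ] ℝ, ∀ b ∈ σ, ∀ c ∈ σ, b < c →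
      0 < l (D.T a b *ᵥ D.pos b c) ∧ l (D.T a c *ᵥ D.pos c b) < 0 := by
  have ca : (σ.erase a).card = n := by rw [card_erase_of_mem ha, hc]; rfl
  have hli := D.indep σ hσ hc a ha
  have hsp := hli.span_eq_top_of_card_eq_finrank' (by simp only [Fintype.card_coe, ca]; simp)
  let r : Y → ℝ := fun j => ((σ.filter (· < j)).card : ℝ)
  have r0 : ∀ j, 0 ≤ r j := fun j => Nat.cast_nonneg _
  have rn : ∀ j ∈ σ, r j ≤ n := by
    intro j hj
    have : (σ.filter (· < j)).card < σ.card :=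
      card_lt_card (filter_ssubset.2 ⟨j, hj, lt_irrefl j⟩)
    have : (σ.filter (· < j)).card ≤ n := by omega
    exact Nat.cast_le.2 this
  have rlt : ∀ b ∈ σ, ∀ c, b < c → r b + 1 ≤ r c := by
    intro b hb c hbc
    have : (σ.filter (· < b)).card < (σ.filter (· < c)).card := by
      refine card_lt_card ⟨monotone_filter_right _ (fun x _ hx => lt_trans hx hbc), fun e => ?_⟩
      exact lt_irrefl b (mem_filter.1 (e (mem_filter.2 ⟨hb, hbc⟩))).2
    simp only [r]
    exact_mod_cast this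
  let l : (Fin n → ℝ) →ₗ[ℝ] ℝ := (Module.Basis.mk hli hsp.ge).constr ℝ (fun j => r j - r a)
  have hl : ∀ j ∈ σ.erase a, l (D.pos a j) = r j - r a := by
    intro j hj
    have := (Module.Basis.mk hli hsp.ge).constr_basis ℝ (fun j => r j - r a) ⟨j, hj⟩
    rwa [Module.Basis.mk_apply] at this
  have key : ∀ b ∈ σ, ∀ c ∈ σ, c ≠ b → ∃ t : ℝ, 0 < t ∧
      |t * l (D.T a b *ᵥ D.pos b c) - (r c - r b)| < 1 := by
    intro b hb c hc' hcb
    obtain ⟨t, ht, β, hβ, hb'⟩ := D.close σ hσ hc a ha b hb c hc' hcb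
    refine ⟨t, ht, ?_⟩
    have hne : (σ.erase a).Nonempty := by
      by_cases e : b = a
      · exact ⟨c, mem_erase.2 ⟨e ▸ hcb, hc'⟩⟩
      · exact ⟨b, mem_erase.2 ⟨e, hb⟩⟩
    have hn : (0 : ℝ) < n := by exact_mod_cast ca ▸ card_pos.2 hne
    have e1 : t * l (D.T a b *ᵥ D.pos b c) - (r c - r b) = ∑ j ∈ σ.erase a,
        (β j - ((if j = c then 1 else 0) - (if j = b then 1 else 0))) • (r j - r a) := by
      have e2 := congrArg l hβ
      rw [map_smul, map_sum, sum_congr rfl (fun j hj => by rw [map_smul, hl j hj])] at e2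
      simp only [sub_smul _ _ (r _ - r a), sum_sub_distrib]
      rw [ori_delta (p := fun j => r j - r a) hc' (sub_self _),
        ori_delta (p := fun j => r j - r a) hb (sub_self _), ← e2, smul_eq_mul]
      ring
    rw [e1]
    refine lt_of_le_of_lt (abs_sum_le_sum_abs _ _) (lt_of_mul_lt_mul_left ?_ hn.le)
    rw [mul_sum]
    refine lt_of_lt_of_le (sum_lt_sum_of_nonempty hne (g := fun _ => (1 : ℝ)) fun j hj => ?_)
      (by simp [ca])
    refine lt_of_le_of_lt ?_ (hb' j hj)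
    rw [smul_eq_mul, abs_mul, sq, mul_assoc, mul_comm _ |r j - r a|]
    refine mul_le_mul_of_nonneg_left (mul_le_mul_of_nonneg_right ?_ (abs_nonneg _)) hn.le
    have := rn j (mem_of_mem_erase hj)
    have := rn a ha
    have := r0 j
    have := r0 a
    rw [abs_le]
    constructor <;> linarith
  refine ⟨l, fun b hb c hc' hbc => ⟨?_, ?_⟩⟩
  · obtain ⟨t, ht, h⟩ := key b hb c hc' hbc.ne'
    have := rlt b hb c hbc
    exact (mul_pos_iff_of_pos_left ht).1 (by linarith [(abs_lt.1 h).1])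
  · obtain ⟨t, ht, h⟩ := key c hc' b hb hbc.ne
    have := rlt b hb c hbc
    exact neg_of_mul_neg_left (by linarith [(abs_lt.1 h).2]) ht.le

lemma Fan.ori_coface (D : Fan n Y) {τ : Finset Y} (hτ : τ ∈ D.K) (hc : τ.card = n) {a : Y}
    (ha : a ∈ τ) {w : Fin n → ℝ} (hw : Gen D.K n (D.pos a) a w) :
    ∃ y, (y ∉ τ ∧ insert y τ ∈ D.K ∧ PosOff (D.pos a) a (insert y τ) τ w) ∧
      ∀ y', y' ∉ τ → insert y' τ ∈ D.K → PosOff (D.pos a) a (insert y' τ) τ w → y' = y := by
  obtain ⟨val, h1, h2⟩ := D.star a w hw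
  obtain ⟨σ, hσ, cσ, hs, hp⟩ := h1 τ hτ ha
  obtain ⟨y, hy, rfl⟩ := (exists_eq_insert_iff (s := τ) (t := σ)).2 ⟨hs, by rw [hc, cσ]⟩
  refine ⟨y, ⟨hy, hσ, hp⟩, fun y' hy' hσ' hp' => ?_⟩
  by_contra hne
  have cσ' : (insert y' τ).card = n + 1 := by rw [card_insert_of_notMem hy', hc]
  have hne' : insert y' τ ≠ insert y τ := fun e => by
    rcases mem_insert.1 (e ▸ mem_insert_self y' τ) with h | h
    · exact hne h
    · exact hy' h
  exact lt_asymm (h2 τ _ _ ha hσ cσ hs hp hσ' cσ' (subset_insert _ _) hne')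
    (h2 τ _ _ ha hσ' cσ' (subset_insert _ _) hp' hσ cσ hs hne'.symm)

lemma Fan.ori_sign (D : Fan n Y) {o : Finset Y → ℝ} (ho : D.IsOri o) {τ : Finset Y}
    (hc : τ.card = n) {a : Y} (ha : a ∈ τ) {w : Fin n → ℝ} {y : Y} (hy : y ∉ τ)
    (hσ : insert y τ ∈ D.K) {c : Y → ℝ} (e : w = ∑ j ∈ (insert y τ).erase a, c j • D.pos a j) :
    ∃ q, 0 < q ∧ o (insert y τ) * (sgn y (insert y τ) : ℝ) *
      detS n (Function.update (D.pos a) a w) τ = -(c y * q) := by
  have cσ : (insert y τ).card = n + 1 := by rw [card_insert_of_notMem hy, hc]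
  have ha' : a ∈ insert y τ := mem_insert_of_mem ha
  have hya : y ≠ a := fun e => hy (e ▸ ha)
  have h1 := (ho _ hσ cσ).2 a ha'
  refine ⟨_, h1, ?_⟩
  have h2 : aa n (Function.update (D.pos a) a w) (insert y τ) a = aa n (D.pos a) (insert y τ) a :=
    aa_congr fun x hx => Function.update_of_ne (ne_of_mem_erase hx) _ _
  have h3 : aa n (D.pos a) (insert y τ) a ≠ 0 := right_ne_zero_of_mul h1.ne'
  have h4 : ∑ j ∈ insert y τ, Function.update (fun j => -c j) a 1 j •
      Function.update (D.pos a) a w j = 0 := by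
    rw [← add_sum_erase _ _ ha', sum_congr rfl (g := fun j => -(c j • D.pos a j)) (fun j hj => by
      rw [Function.update_of_ne (ne_of_mem_erase hj), Function.update_of_ne (ne_of_mem_erase hj),
        neg_smul]), sum_neg_distrib, ← e]
    simp
  have h5 := rel_unique cσ ha' (h2 ▸ h3) h4 y (mem_insert_self _ _)
  rw [Function.update_of_ne hya, Function.update_self, h2, aa.eq_1 _ _ _ y, erase_insert hy] at h5
  field_simp at h5
  linear_combination (-o (insert y τ)) * h5

theorem Fan.cyc [Fintype Y] (D : Fan n Y) (hn : 1 ≤ n) {o : Finset Y → ℝ} (ho : D.IsOri o) :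
    Cyc D.K n o := by
  intro τ hτ hc
  obtain ⟨a, ha⟩ : τ.Nonempty := card_pos.1 (by omega)
  obtain ⟨w, hw⟩ := D.exists_gen a
  obtain ⟨y₁, ⟨n1, k1, c1, e1, p1⟩, u1⟩ := D.ori_coface hτ hc ha hw
  obtain ⟨y₂, ⟨n2, k2, c2, e2, p2⟩, u2⟩ := D.ori_coface hτ hc ha hw.neg
  have e2' : w = ∑ j ∈ (insert y₂ τ).erase a, (-c2 j) • D.pos a j := by
    simp only [neg_smul, sum_neg_distrib, ← e2, neg_neg]
  obtain ⟨q1, hq1, s1⟩ := D.ori_sign ho hc ha n1 k1 e1
  obtain ⟨q2, hq2, s2⟩ := D.ori_sign ho hc ha n2 k2 e2'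
  have t1 := mul_pos (p1 y₁ (mem_sdiff.2 ⟨mem_insert_self _ _, n1⟩)) hq1
  have t2 := mul_pos (p2 y₂ (mem_sdiff.2 ⟨mem_insert_self _ _, n2⟩)) hq2
  have hne : y₁ ≠ y₂ := by
    rintro rfl
    linarith
  have hset : τᶜ.filter (fun y => insert y τ ∈ D.K) = {y₁, y₂} := by
    ext y
    simp only [mem_filter, mem_compl, mem_insert, mem_singleton]
    constructor
    · rintro ⟨hy, hk⟩
      have cσ : (insert y τ).card = n + 1 := by rw [card_insert_of_notMem hy, hc]
      have ha' : a ∈ insert y τ := mem_insert_of_mem ha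
      obtain ⟨c, e⟩ := exists_coord (by rw [card_erase_of_mem ha', cσ]; rfl)
        (D.indep _ hk cσ a ha') w
      have hs : ∀ j ∈ insert y τ \ τ, j = y := fun j hj =>
        (mem_insert.1 (mem_sdiff.1 hj).1).resolve_right (mem_sdiff.1 hj).2
      rcases lt_or_gt_of_ne (hw _ hk cσ ha' c e y
        (mem_erase.2 ⟨fun e => hy (e ▸ ha), mem_insert_self _ _⟩)) with h | h
      · refine Or.inr (u2 y hy hk ⟨fun j => -c j, ?_, fun j hj => ?_⟩)
        · simp only [neg_smul, sum_neg_distrib, ← e]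
        · rw [hs j hj]; linarith
      · exact Or.inl (u1 y hy hk ⟨c, e, fun j hj => by rw [hs j hj]; exact h⟩)
    · rintro (rfl | rfl)
      · exact ⟨n1, k1⟩
      · exact ⟨n2, k2⟩
  rw [hset, sum_pair hne]
  have pm : ∀ y, y ∉ τ → insert y τ ∈ D.K → o (insert y τ) * (sgn y (insert y τ) : ℝ) = 1 ∨
      o (insert y τ) * (sgn y (insert y τ) : ℝ) = -1 := by
    intro y hy hk
    rcases (ho _ hk (by rw [card_insert_of_notMem hy, hc])).1 with h | h <;>
      rcases sgn_eq_or y (insert y τ) with h' | h' <;> simp [h, h']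
  rcases pm y₁ n1 k1 with h | h <;> rcases pm y₂ n2 k2 with h' | h' <;> rw [h] at s1 <;>
    rw [h'] at s2 <;> rw [h, h'] <;> linarith

end Pool.Agent.Work.MP_dd0bbc_gt
end

-- merged part: Pool.Agent.Work.MP_dd0bbc_gt.PHLocal
section
/-! The local index at a vertex. -/

set_option autoImplicit false

namespace Pool.Agent.Work.MP_dd0bbc_gt

open Finset Matrix

variable {n : ℕ} {Y : Type} [Fintype Y] [LinearOrder Y]

omit [Fintype Y] in
lemma phl_alt (N L : Finset Y) :
    ∑ A ∈ L.powerset.filter (N ⊆ ·), (-1 : ℝ) ^ A.card =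
      if N = L then (-1) ^ L.card else 0 := by
  by_cases h : N ⊆ L
  · have e : ∑ A ∈ L.powerset.filter (N ⊆ ·), (-1 : ℝ) ^ A.card =
        ∑ B ∈ (L \ N).powerset, (-1 : ℝ) ^ N.card * (-1) ^ B.card := by
      refine sum_nbij' (fun A => A \ N) (fun B => B ∪ N) ?_ ?_ ?_ ?_ ?_
      · intro A hA
        exact mem_powerset.2 (sdiff_subset_sdiff (mem_powerset.1 (mem_filter.1 hA).1) subset_rfl)
      · intro B hB
        exact mem_filter.2 ⟨mem_powerset.2
          (union_subset ((mem_powerset.1 hB).trans sdiff_subset) h), subset_union_right⟩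
      · intro A hA
        exact sdiff_union_of_subset (mem_filter.1 hA).2
      · intro B hB
        exact union_sdiff_cancel_right
          (disjoint_of_subset_left (mem_powerset.1 hB) sdiff_disjoint)
      · intro A hA
        rw [← pow_add, add_comm, card_sdiff_add_card_eq_card (mem_filter.1 hA).2]
    have e2 : ∑ B ∈ (L \ N).powerset, (-1 : ℝ) ^ B.card = if L \ N = ∅ then 1 else 0 := by
      have := congrArg (Int.cast : ℤ → ℝ) (sum_powerset_neg_one_pow_card (x := L \ N))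
      push_cast at this
      exact this
    rw [e, ← mul_sum, e2]
    by_cases c : N = L
    · simp [c]
    · rw [if_neg c, if_neg (fun d => c (Subset.antisymm h (sdiff_eq_empty_iff_subset.1 d))),
        mul_zero]
  · rw [if_neg (fun c => h c.le)]
    exact sum_eq_zero fun A hA =>
      absurd ((mem_filter.1 hA).2.trans (mem_powerset.1 (mem_filter.1 hA).1)) h

omit [Fintype Y] in
lemma phl_ne (D : Fan n Y) {a : Y} {σ : Finset Y} (hσ : σ ∈ D.K) (hc : σ.card = n + 1)
    (ha : a ∈ σ) : aa n (D.pos a) σ a ≠ 0 := by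
  have h' : (σ.erase a).card = n := by rw [card_erase_of_mem ha, hc]; rfl
  refine mul_ne_zero ?_ ((detS_ne_zero_iff h').2 (D.indep σ hσ hc a ha))
  rcases sgn_eq_or a σ with e | e <;> simp [e]

omit [Fintype Y] in
lemma phl_self (D : Fan n Y) (a : Y) (w : Fin n → ℝ) (σ : Finset Y) :
    aa n (D.corner a w) σ a = (-1) ^ (σ.filter (· < a)).card * aa n (D.pos a) σ a := by
  have e : aa n (D.corner a w) σ a =
      aa n (fun j => (if j < a then (-1 : ℝ) else 1) • D.pos a j) σ a := by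
    refine aa_congr fun j hj => ?_
    rcases lt_or_gt_of_ne (mem_erase.1 hj).1 with h | h
    · simp [Fan.corner, h, h.ne, h.not_gt]
    · simp [Fan.corner, h, h.ne', h.not_gt]
  have e2 : (σ.erase a).filter (· < a) = σ.filter (· < a) := by
    ext x
    simp only [mem_filter, mem_erase]
    exact ⟨fun h => ⟨h.1.2, h.2⟩, fun h => ⟨⟨h.2.ne, h.1⟩, h.2⟩⟩
  rw [e, aa, aa, detS_smul, prod_ite, prod_const, prod_const_one, mul_one, e2]
  ring

omit [Fintype Y] in
lemma phl_other (D : Fan n Y) {a : Y} {w : Fin n → ℝ} {σ : Finset Y} (hσ : σ ∈ D.K)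
    (hc : σ.card = n + 1) (ha : a ∈ σ) {c : Y → ℝ} (h : -w = ∑ j ∈ σ.erase a, c j • D.pos a j) :
    ∀ y ∈ σ.erase a, aa n (D.corner a w) σ y =
      (if y < a then -c y else c y) * aa n (D.corner a w) σ a := by
  have h0 : aa n (D.corner a w) σ a ≠ 0 := by
    rw [phl_self]
    exact mul_ne_zero (pow_ne_zero _ (by norm_num)) (phl_ne D hσ hc ha)
  have h1 : ∑ y ∈ σ, (if y = a then 1 else if y < a then -c y else c y) • D.corner a w y = 0 := by
    rw [← add_sum_erase σ _ ha, ← add_neg_cancel w, h]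
    congr 1
    · simp [Fan.corner]
    · refine sum_congr rfl fun j hj => ?_
      rcases lt_or_gt_of_ne (mem_erase.1 hj).1 with h | h
      · simp [Fan.corner, h, h.ne, h.not_gt]
      · simp [Fan.corner, h, h.ne', h.not_gt]
  intro y hy
  have := rel_unique hc ha h0 h1 y (mem_erase.1 hy).2
  rw [if_neg (mem_erase.1 hy).1, if_pos rfl] at this
  rw [this]
  field_simp

omit [Fintype Y] in
theorem corner_aa_ne (D : Fan n Y) {a : Y} {w : Fin n → ℝ} (hw : Gen D.K n (D.pos a) a w)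
    {σ : Finset Y} (hσ : σ ∈ D.K) (hc : σ.card = n + 1) (ha : a ∈ σ) :
    ∀ y ∈ σ, aa n (D.corner a w) σ y ≠ 0 := by
  have h' : (σ.erase a).card = n := by rw [card_erase_of_mem ha, hc]; rfl
  have h0 : aa n (D.corner a w) σ a ≠ 0 := by
    rw [phl_self]
    exact mul_ne_zero (pow_ne_zero _ (by norm_num)) (phl_ne D hσ hc ha)
  obtain ⟨c, h⟩ := exists_coord h' (D.indep σ hσ hc a ha) (-w)
  intro y hy
  by_cases e : y = a
  · rw [e]; exact h0
  · have hy' := mem_erase.2 ⟨e, hy⟩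
    have h1 := hw.neg σ hσ hc ha c h y hy'
    rw [phl_other D hσ hc ha h y hy']
    refine mul_ne_zero ?_ h0
    split_ifs
    · exact neg_ne_zero.2 h1
    · exact h1

omit [Fintype Y] in
lemma phl_eps (D : Fan n Y) {o : Finset Y → ℝ} (ho : D.IsOri o) {a : Y} {w : Fin n → ℝ}
    (hw : Gen D.K n (D.pos a) a w) {σ : Finset Y} (hσ : σ ∈ D.K) (hc : σ.card = n + 1)
    (ha : a ∈ σ) {c : Y → ℝ} (h : -w = ∑ j ∈ σ.erase a, c j • D.pos a j) :
    o σ * epsS n (D.corner a w) σ =
      if (σ.erase a).filter (fun j => c j < 0) = σ.filter (· < a) then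
        (-1) ^ (σ.filter (· < a)).card else 0 := by
  have h1 := hw.neg σ hσ hc ha c h
  have h2 := phl_other D hσ hc ha h
  have h3 := phl_self D a w σ
  obtain ⟨h4, h5⟩ := ho σ hσ hc
  have h6 := h5 a ha
  have key : (σ.erase a).filter (fun j => c j < 0) = σ.filter (· < a) ↔
      ∀ y ∈ σ.erase a, 0 < if y < a then -c y else c y := by
    constructor
    · intro e y hy
      have e' := Finset.ext_iff.1 e y
      simp only [mem_filter] at e'
      split_ifs with hl
      · exact neg_pos.2 (e'.2 ⟨(mem_erase.1 hy).2, hl⟩).2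
      · exact lt_of_le_of_ne (not_lt.1 fun d => hl (e'.1 ⟨hy, d⟩).2) (h1 y hy).symm
    · intro e
      ext y
      simp only [mem_filter]
      constructor
      · rintro ⟨hy, d⟩
        refine ⟨(mem_erase.1 hy).2, ?_⟩
        by_contra hl
        have := e y hy
        rw [if_neg hl] at this
        exact lt_asymm d this
      · rintro ⟨hy, hl⟩
        have hy' := mem_erase.2 ⟨hl.ne, hy⟩
        have := e y hy'
        rw [if_pos hl] at this
        exact ⟨hy', neg_pos.1 this⟩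
  have p1 : (∀ y ∈ σ, 0 < aa n (D.corner a w) σ y) ↔
      (∀ y ∈ σ.erase a, 0 < if y < a then -c y else c y) ∧ 0 < aa n (D.corner a w) σ a := by
    constructor
    · intro e
      refine ⟨fun y hy => ?_, e a ha⟩
      have := e y (mem_erase.1 hy).2
      rw [h2 y hy] at this
      exact (mul_pos_iff_of_pos_right (e a ha)).1 this
    · rintro ⟨e, e'⟩ y hy
      by_cases d : y = a
      · rw [d]; exact e'
      · rw [h2 y (mem_erase.2 ⟨d, hy⟩)]
        exact mul_pos (e y (mem_erase.2 ⟨d, hy⟩)) e'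
  have p2 : (∀ y ∈ σ, aa n (D.corner a w) σ y < 0) ↔
      (∀ y ∈ σ.erase a, 0 < if y < a then -c y else c y) ∧ aa n (D.corner a w) σ a < 0 := by
    constructor
    · intro e
      refine ⟨fun y hy => ?_, e a ha⟩
      have := e y (mem_erase.1 hy).2
      rw [h2 y hy] at this
      exact pos_of_mul_neg_left this (e a ha).le
    · rintro ⟨e, e'⟩ y hy
      by_cases d : y = a
      · rw [d]; exact e'
      · rw [h2 y (mem_erase.2 ⟨d, hy⟩)]
        exact mul_neg_of_pos_of_neg (e y (mem_erase.2 ⟨d, hy⟩)) e'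
  rw [epsS]
  simp only [p1, p2, ← key]
  by_cases e : (σ.erase a).filter (fun j => c j < 0) = σ.filter (· < a)
  · simp only [e, true_and, if_true, h3]
    rcases neg_one_pow_eq_or ℝ (σ.filter (· < a)).card with d | d <;> rcases h4 with f | f <;>
      rw [f] at h6 <;> rw [d, f]
    · rw [if_pos (by linarith)]; norm_num
    · rw [if_neg (by linarith), if_pos (by linarith)]; norm_num
    · rw [if_neg (by linarith), if_pos (by linarith)]; norm_num
    · rw [if_pos (by linarith)]; norm_num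
  · simp [e]

theorem ph_local (D : Fan n Y) {o : Finset Y → ℝ} (ho : D.IsOri o) {a : Y} {w : Fin n → ℝ}
    (hw : Gen D.K n (D.pos a) a w) :
    ∑ σ ∈ (tops D.K n).filter (a ∈ ·), o σ * epsS n (D.corner a w) σ =
      ∑ τ ∈ D.K.filter (fun τ => a ∈ τ ∧ ∀ j ∈ τ, j ≤ a), (-1 : ℝ) ^ (τ.card - 1) := by
  have hex : ∀ σ ∈ (tops D.K n).filter (a ∈ ·),
      ∃ c : Y → ℝ, -w = ∑ j ∈ σ.erase a, c j • D.pos a j := fun σ hσ => by
    obtain ⟨h1, ha⟩ := mem_filter.1 hσ
    obtain ⟨h2, hc⟩ := mem_tops.1 h1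
    exact exists_coord (by rw [card_erase_of_mem ha, hc]; rfl) (D.indep σ h2 hc a ha) (-w)
  choose! c hcw using hex
  have hP : ∀ σ ∈ (tops D.K n).filter (a ∈ ·), ∀ τ : Finset Y, a ∈ τ →
      (PosOff (D.pos a) a σ τ (-w) ↔ (σ.erase a).filter (fun j => c σ j < 0) ⊆ τ) := by
    intro σ hσ τ hτ
    obtain ⟨h1, ha⟩ := mem_filter.1 hσ
    obtain ⟨h2, hc⟩ := mem_tops.1 h1
    constructor
    · rintro ⟨d, e, hd⟩ j hj
      obtain ⟨hj1, hj2⟩ := mem_filter.1 hj
      by_contra f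
      have := hd j (mem_sdiff.2 ⟨(mem_erase.1 hj1).2, f⟩)
      rw [coord_unique (D.indep σ h2 hc a ha) (e.symm.trans (hcw σ hσ)) j hj1] at this
      exact lt_asymm this hj2
    · intro e
      refine ⟨c σ, hcw σ hσ, fun j hj => ?_⟩
      obtain ⟨hj1, hj2⟩ := mem_sdiff.1 hj
      have hj' : j ∈ σ.erase a := mem_erase.2 ⟨fun f => hj2 (f ▸ hτ), hj1⟩
      exact lt_of_le_of_ne (not_lt.1 fun f => hj2 (e (mem_filter.2 ⟨hj', f⟩)))
        (hw.neg σ h2 hc ha _ (hcw σ hσ) j hj').symm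
  obtain ⟨val, s1, s2⟩ := D.star a (-w) hw.neg
  have one : ∀ τ ∈ D.K.filter (fun τ => a ∈ τ ∧ ∀ j ∈ τ, j ≤ a), (-1 : ℝ) ^ (τ.card - 1) =
      ∑ σ ∈ (tops D.K n).filter (a ∈ ·),
        if τ ⊆ σ ∧ (σ.erase a).filter (fun j => c σ j < 0) ⊆ τ then (-1 : ℝ) ^ (τ.card - 1)
        else 0 := by
    intro τ hτ
    obtain ⟨h1, h2, -⟩ := mem_filter.1 hτ
    obtain ⟨σ, a1, a2, a3, a4⟩ := s1 τ h1 h2
    have hσ : σ ∈ (tops D.K n).filter (a ∈ ·) := mem_filter.2 ⟨mem_tops.2 ⟨a1, a2⟩, a3 h2⟩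
    rw [sum_eq_single_of_mem σ hσ, if_pos ⟨a3, (hP σ hσ τ h2).1 a4⟩]
    intro σ' hσ' hne
    refine if_neg fun d => ?_
    obtain ⟨b1, b2⟩ := mem_tops.1 (mem_filter.1 hσ').1
    exact lt_asymm (s2 τ σ σ' h2 a1 a2 a3 a4 b1 b2 d.1 hne)
      (s2 τ σ' σ h2 b1 b2 d.1 ((hP σ' hσ' τ h2).2 d.2) a1 a2 a3 hne.symm)
  rw [sum_congr rfl one, sum_comm]
  refine sum_congr rfl fun σ hσ => ?_
  obtain ⟨h1, ha⟩ := mem_filter.1 hσ
  obtain ⟨h2, hc⟩ := mem_tops.1 h1
  rw [phl_eps D ho hw h2 hc ha (hcw σ hσ), ← phl_alt, ← sum_filter]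
  have hn : ∀ A ∈ (σ.filter (· < a)).powerset.filter
      ((σ.erase a).filter (fun j => c σ j < 0) ⊆ ·), a ∉ A := fun A hA f =>
    lt_irrefl a (mem_filter.1 (mem_powerset.1 (mem_filter.1 hA).1 f)).2
  refine sum_nbij' (fun A => insert a A) (fun τ => τ.erase a) ?_ ?_ ?_ ?_ ?_
  · intro A hA
    obtain ⟨b1, b2⟩ := mem_filter.1 hA
    have b3 := mem_powerset.1 b1
    have b4 : insert a A ⊆ σ := insert_subset ha (b3.trans (filter_subset _ _))
    refine mem_filter.2 ⟨mem_filter.2 ⟨D.down σ h2 _ b4, mem_insert_self _ _, fun j hj => ?_⟩, b4,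
      b2.trans (subset_insert _ _)⟩
    rcases mem_insert.1 hj with e | e
    · exact e.le
    · exact (mem_filter.1 (b3 e)).2.le
  · intro τ hτ
    obtain ⟨b1, b2, b3⟩ := mem_filter.1 hτ
    obtain ⟨-, -, b4⟩ := mem_filter.1 b1
    refine mem_filter.2 ⟨mem_powerset.2 fun j hj => ?_, fun j hj => ?_⟩
    · obtain ⟨c1, c2⟩ := mem_erase.1 hj
      exact mem_filter.2 ⟨b2 c2, lt_of_le_of_ne (b4 j c2) c1⟩
    · exact mem_erase.2 ⟨(mem_erase.1 (mem_filter.1 hj).1).1, b3 hj⟩
  · intro A hA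
    exact erase_insert (hn A hA)
  · intro τ hτ
    exact insert_erase (mem_filter.1 (mem_filter.1 hτ).1).2.1
  · intro A hA
    rw [card_insert_of_notMem (hn A hA), Nat.add_sub_cancel]

theorem ph_sum (D : Fan n Y) {o : Finset Y → ℝ} (ho : D.IsOri o) {w : Y → Fin n → ℝ}
    (hw : ∀ a, Gen D.K n (D.pos a) a (w a)) :
    ∑ σ ∈ tops D.K n, o σ * ∑ y ∈ σ, epsS n (D.corner y (w y)) σ = (chi D.K n : ℝ) := by
  have e1 : ∑ σ ∈ tops D.K n, o σ * ∑ y ∈ σ, epsS n (D.corner y (w y)) σ =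
      ∑ y, ∑ σ ∈ (tops D.K n).filter (y ∈ ·), o σ * epsS n (D.corner y (w y)) σ := by
    simp only [sum_filter]
    rw [sum_comm]
    refine sum_congr rfl fun σ _ => ?_
    rw [← sum_filter, mul_sum]
    simp
  have e2 : ∀ τ ∈ D.K, (∑ y, if y ∈ τ ∧ ∀ j ∈ τ, j ≤ y then (-1 : ℝ) ^ (τ.card - 1) else 0) =
      ∑ k ∈ range (n + 1), if τ.card = k + 1 then (-1 : ℝ) ^ k else 0 := by
    intro τ hτ
    rcases τ.eq_empty_or_nonempty with rfl | hne
    · simp
    · have hp := card_pos.2 hne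
      have hl := D.card_le τ hτ
      rw [sum_eq_single_of_mem (τ.max' hne) (mem_univ _),
        if_pos ⟨max'_mem _ _, fun j hj => le_max' _ _ hj⟩,
        sum_eq_single_of_mem (τ.card - 1) (mem_range.2 (by omega)), if_pos (by omega)]
      · intro k _ hk
        exact if_neg (by omega)
      · intro y _ hy
        exact if_neg fun d => hy (le_antisymm (le_max' _ _ d.1) (d.2 _ (max'_mem _ _)))
  rw [e1, sum_congr rfl fun y _ => ph_local D ho (hw y)]
  simp only [sum_filter]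
  rw [sum_comm, sum_congr rfl e2, sum_comm, chi]
  push_cast
  refine sum_congr rfl fun k _ => ?_
  rw [← sum_filter, sum_const, fn, nsmul_eq_mul, mul_comm]

end Pool.Agent.Work.MP_dd0bbc_gt
end

-- merged part: Pool.Agent.Work.MP_dd0bbc_gt.PH
section
/-! Generic perturbation and averaging over signs. -/

set_option autoImplicit false

namespace Pool.Agent.Work.MP_dd0bbc_gt

open Finset Matrix Topology Filter

lemma dense_det_ne_ph {n : ℕ} {E : Type} [NormedAddCommGroup E] [NormedSpace ℝ E]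
    (L : E →ₗ[ℝ] Matrix (Fin n) (Fin n) ℝ) (x1 : E) (h : (L x1).det ≠ 0) :
    Dense {x | (L x).det ≠ 0} := by
  intro x
  let p : Polynomial ℝ :=
    ((L x).map Polynomial.C + (Polynomial.X : Polynomial ℝ) • (L (x1 - x)).map Polynomial.C).det
  have hp : ∀ t : ℝ, p.eval t = (L (x + t • (x1 - x))).det := by
    intro t
    have := RingHom.map_det (Polynomial.evalRingHom t)
      ((L x).map Polynomial.C + (Polynomial.X : Polynomial ℝ) • (L (x1 - x)).map Polynomial.C)
    rw [Polynomial.coe_evalRingHom] at this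
    rw [this, map_add L, map_smul L]
    congr 1
    ext i j
    simp
  have hp0 : p ≠ 0 := by
    intro h0
    apply h
    have := hp 1
    rw [h0, Polynomial.eval_zero, one_smul, add_sub_cancel] at this
    exact this.symm
  have hfin : Set.Finite {t : ℝ | p.IsRoot t} := Polynomial.finite_setOfPred_isRoot hp0
  have hd : Dense {t : ℝ | p.IsRoot t}ᶜ := hfin.countable.dense_compl ℝ
  have hfr : ∃ᶠ t in 𝓝 (0 : ℝ), x + t • (x1 - x) ∈ {x | (L x).det ≠ 0} := by
    refine (mem_closure_iff_frequently.1 (hd 0)).mono fun t ht => ?_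
    rw [Set.mem_ofPred_eq, ← hp]
    exact ht
  refine mem_closure_of_frequently_of_tendsto hfr ?_
  have hc : Continuous fun t : ℝ => x + t • (x1 - x) := by fun_prop
  have := hc.tendsto 0
  simpa using this

variable {n : ℕ} {Y : Type} [Fintype Y] [LinearOrder Y]

theorem Fan.dense_GP2 (D : Fan n Y) : Dense {x : Y → Y → Fin n → ℝ | D.GP2 x} := by
  let L : Y → (Fin n → Y × Y) → (Y → Y → Fin n → ℝ) →ₗ[ℝ] Matrix (Fin n) (Fin n) ℝ := fun a f =>
    { toFun := fun x => Matrix.of fun i => D.T a (f i).1 *ᵥ x (f i).1 (f i).2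
      map_add' := fun x y => by ext i j; simp [mulVec_add]
      map_smul' := fun c x => by ext i j; simp [mulVec_smul] }
  let P : Finset Y × Y × (Fin n → Y × Y) → Prop := fun q =>
    q.1 ∈ D.K ∧ q.2.1 ∈ q.1 ∧ Function.Injective q.2.2 ∧ ∀ i, (q.2.2 i).1 ∈ q.1
  let U : {q // P q} → Set (Y → Y → Fin n → ℝ) := fun q => {x | (L q.1.2.1 q.1.2.2 x).det ≠ 0}
  have hd : Dense (⋂ q, U q) := by
    refine dense_iInter_of_isOpen (fun q => ?_) (fun q => ?_)
    · refine isOpen_ne_fun ?_ continuous_const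
      exact (L q.1.2.1 q.1.2.2).continuous_of_finiteDimensional.matrix_det
    · obtain ⟨⟨σ, a, f⟩, hσ, ha, hf, hm⟩ := q
      refine dense_det_ne_ph (L a f)
        (fun b c => D.T b a *ᵥ ∑ i, if f i = (b, c) then Pi.single i 1 else 0) ?_
      have : L a f (fun b c => D.T b a *ᵥ ∑ i, if f i = (b, c) then Pi.single i 1 else 0) = 1 := by
        ext i j
        have h1 : D.T a (f i).1 * D.T (f i).1 a = 1 := by
          rw [D.T_mul a (f i).1 a, D.T_self]
          refine D.down σ hσ _ ?_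
          intro z hz
          simp only [mem_insert, mem_singleton] at hz
          rcases hz with rfl | rfl | rfl
          · exact ha
          · exact hm i
          · exact ha
        have h2 : (∑ i', if f i' = ((f i).1, (f i).2) then (Pi.single i' 1 : Fin n → ℝ) else 0) =
            Pi.single i 1 := by
          rw [sum_eq_single i]
          · simp
          · intro i' _ hi'
            exact if_neg fun e => hi' (hf e)
          · simp
        change (D.T a (f i).1 *ᵥ D.T (f i).1 a *ᵥ _) j = _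
        rw [mulVec_mulVec, h1, one_mulVec, h2, one_apply, Pi.single_apply]
        simp [eq_comm]
      rw [this]
      simp
  refine hd.mono fun x hx => ?_
  intro σ hσ _ a ha f hf hm
  exact Set.mem_iInter.1 hx ⟨(σ, a, f), hσ, ha, hf, fun i => (hm i).1⟩

omit [Fintype Y] in
lemma aa_units_ph (η : Y → ℤˣ) (v : Y → Fin n → ℝ) {σ : Finset Y} {y : Y} (hy : y ∈ σ) :
    aa n (fun y => ((η y : ℤ) : ℝ) • v y) σ y =
      (((∏ j ∈ σ, η j) * η y : ℤˣ) : ℤ) * aa n v σ y := by
  have h1 : (∏ j ∈ σ, η j) * η y = ∏ j ∈ σ.erase y, η j := by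
    rw [← prod_erase_mul σ η hy, mul_assoc, Int.units_mul_self, mul_one]
  rw [h1, aa, aa, detS_smul]
  push_cast
  ring

lemma card_agree_ph (σ : Finset Y) (s : Y → ℤˣ) :
    (univ.filter fun η : Y → ℤˣ => ∀ y ∈ σ, η y = s y).card = 2 ^ (Fintype.card Y - σ.card) := by
  have : (univ.filter fun η : Y → ℤˣ => ∀ y ∈ σ, η y = s y) =
      Fintype.piFinset fun y => if y ∈ σ then {s y} else univ := by
    ext η
    simp only [mem_filter, mem_univ, true_and, Fintype.mem_piFinset]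
    constructor
    · intro h y
      split_ifs with hy
      · simp [h y hy]
      · exact mem_univ _
    · intro h y hy
      have := h y
      rw [if_pos hy] at this
      simpa using this
  rw [this, Fintype.card_piFinset, ← card_compl, ← prod_const, ← prod_mul_prod_compl σ,
    prod_eq_one, one_mul]
  · refine prod_congr rfl fun y hy => ?_
    rw [if_neg (mem_compl.1 hy)]
    simp
  · intro y hy
    rw [if_pos hy]
    simp

lemma units_pos_ph {u : ℤˣ} {r : ℝ} (hr : 0 < r) : 0 < ((u : ℤ) : ℝ) * r ↔ u = 1 := by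
  rcases Int.units_eq_one_or u with rfl | rfl
  · simp [hr]
  · simp [hr.le]

lemma units_neg_ph {u : ℤˣ} {r : ℝ} (hr : 0 < r) : ((u : ℤ) : ℝ) * r < 0 ↔ u = -1 := by
  rcases Int.units_eq_one_or u with rfl | rfl
  · simp [hr.le]
  · simp [hr]

theorem sum_signs (hn : Even n) (v : Y → Fin n → ℝ) {σ : Finset Y} (hc : σ.card = n + 1)
    (hv : ∀ y ∈ σ, aa n v σ y ≠ 0) :
    ∑ η : Y → ℤˣ, epsS n (fun y => ((η y : ℤ) : ℝ) • v y) σ =
      2 ^ (Fintype.card Y - n) * (SignType.sign (∏ y ∈ σ, aa n v σ y) : ℝ) := by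
  classical
  let s : Y → ℤˣ := fun y => if 0 < aa n v σ y then 1 else -1
  have hs : ∀ y ∈ σ, aa n v σ y = ((s y : ℤ) : ℝ) * |aa n v σ y| := by
    intro y hy
    simp only [s]
    split_ifs with h
    · simp [abs_of_pos h]
    · simp [abs_of_nonpos (not_lt.1 h)]
  have habs : ∀ y ∈ σ, 0 < |aa n v σ y| := fun y hy => abs_pos.2 (hv y hy)
  set S : ℤˣ := ∏ y ∈ σ, s y with hS
  have hsign : (SignType.sign (∏ y ∈ σ, aa n v σ y) : ℝ) = ((S : ℤ) : ℝ) := by
    have h1 : ∏ y ∈ σ, aa n v σ y = ((S : ℤ) : ℝ) * ∏ y ∈ σ, |aa n v σ y| := by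
      rw [prod_congr rfl hs, prod_mul_distrib, hS]
      push_cast
      rfl
    have h2 : 0 < ∏ y ∈ σ, |aa n v σ y| := prod_pos habs
    rw [h1]
    rcases Int.units_eq_one_or S with e | e
    · rw [e, sign_pos (by simpa using h2)]; simp
    · rw [e, sign_neg (by simpa using h2)]; simp
  obtain ⟨y0, hy0⟩ : σ.Nonempty := card_pos.1 (by omega)
  have key : ∀ η : Y → ℤˣ, epsS n (fun y => ((η y : ℤ) : ℝ) • v y) σ =
      (if ∀ y ∈ σ, η y = s y then ((S : ℤ) : ℝ) else 0) +
        (if ∀ y ∈ σ, η y = -s y then ((S : ℤ) : ℝ) else 0) := by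
    intro η
    set P : ℤˣ := ∏ j ∈ σ, η j with hP
    have ha : ∀ y ∈ σ, aa n (fun y => ((η y : ℤ) : ℝ) • v y) σ y =
        ((P * η y * s y : ℤˣ) : ℤ) * |aa n v σ y| := by
      intro y hy
      rw [aa_units_ph η v hy, ← hP]
      conv_lhs => rw [hs y hy]
      push_cast
      ring
    have hpos : (∀ y ∈ σ, 0 < aa n (fun y => ((η y : ℤ) : ℝ) • v y) σ y) ↔
        ∀ y ∈ σ, P * η y * s y = 1 :=
      forall₂_congr fun y hy => by rw [ha y hy, units_pos_ph (habs y hy)]
    have hneg : (∀ y ∈ σ, aa n (fun y => ((η y : ℤ) : ℝ) • v y) σ y < 0) ↔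
        ∀ y ∈ σ, P * η y * s y = -1 :=
      forall₂_congr fun y hy => by rw [ha y hy, units_neg_ph (habs y hy)]
    have hconst : ∀ c : ℤˣ, (∀ y ∈ σ, P * η y * s y = c) →
        epsS n (fun y => ((η y : ℤ) : ℝ) • v y) σ = ((c : ℤ) : ℝ) := by
      intro c hcc
      unfold epsS
      rcases Int.units_eq_one_or c with rfl | rfl
      · rw [if_pos (hpos.2 hcc)]; simp
      · rw [if_neg, if_pos (hneg.2 hcc)]
        · simp
        · intro h
          have := (hpos.1 h y0 hy0).symm.trans (hcc y0 hy0)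
          exact absurd this (by decide)
    by_cases h1 : ∀ y ∈ σ, η y = s y
    · have h2 : ¬ ∀ y ∈ σ, η y = -s y := by
        intro h2
        have := (h1 y0 hy0).symm.trans (h2 y0 hy0)
        rcases Int.units_eq_one_or (s y0) with e | e <;> rw [e] at this <;>
          exact absurd this (by decide)
      rw [if_pos h1, if_neg h2, add_zero]
      refine hconst S fun y hy => ?_
      rw [h1 y hy, mul_assoc, Int.units_mul_self, mul_one, hP, hS]
      exact prod_congr rfl h1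
    · rw [if_neg h1, zero_add]
      by_cases h2 : ∀ y ∈ σ, η y = -s y
      · rw [if_pos h2]
        refine hconst S fun y hy => ?_
        have hPS : P = -S := by
          rw [hP, prod_congr rfl h2, prod_neg, hc, pow_succ, hn.neg_one_pow, hS]
          simp
        rw [h2 y hy, hPS, neg_mul_neg, mul_assoc, Int.units_mul_self, mul_one]
      · rw [if_neg h2]
        have h3 : ∀ c : ℤˣ, ¬ ∀ y ∈ σ, P * η y * s y = c := by
          intro c hcc
          have h4 : ∀ y ∈ σ, η y = (P * c) * s y := by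
            intro y hy
            rw [← hcc y hy, ← mul_assoc, ← mul_assoc, Int.units_mul_self, one_mul, mul_assoc,
              Int.units_mul_self, mul_one]
          rcases Int.units_eq_one_or (P * c) with e | e
          · exact h1 fun y hy => by rw [h4 y hy, e, one_mul]
          · exact h2 fun y hy => by rw [h4 y hy, e, neg_one_mul]
        unfold epsS
        rw [if_neg (fun h => h3 1 (hpos.1 h)), if_neg (fun h => h3 (-1) (hneg.1 h))]
  rw [sum_congr rfl fun η _ => key η, sum_add_distrib, ← sum_filter, ← sum_filter, sum_const,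
    sum_const, card_agree_ph σ s, card_agree_ph σ (fun y => -s y), hsign, hc]
  have hle : n + 1 ≤ Fintype.card Y := hc ▸ card_le_univ σ
  have : Fintype.card Y - n = (Fintype.card Y - (n + 1)) + 1 := by omega
  rw [this, pow_succ]
  simp only [nsmul_eq_mul]
  push_cast
  ring

omit [Fintype Y] in
lemma continuous_aa_ph {X : Type} [TopologicalSpace X] {u : X → Y → Fin n → ℝ}
    (hu : ∀ j, Continuous fun x => u x j) (σ : Finset Y) (z : Y) :
    Continuous fun x => aa n (u x) σ z := by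
  unfold aa detS
  refine continuous_const.mul ?_
  split_ifs with h
  · refine Continuous.matrix_det (continuous_pi fun i => ?_)
    exact hu _
  · exact continuous_const

omit [Fintype Y] in
lemma epsS_congr_ph {u u' : Y → Fin n → ℝ} {σ : Finset Y}
    (h : ∀ z ∈ σ, 0 < aa n u σ z * aa n u' σ z) : epsS n u σ = epsS n u' σ := by
  have h1 : (∀ z ∈ σ, 0 < aa n u σ z) ↔ ∀ z ∈ σ, 0 < aa n u' σ z :=
    forall₂_congr fun z hz => pos_iff_pos_of_mul_pos (h z hz)
  have h2 : (∀ z ∈ σ, aa n u σ z < 0) ↔ ∀ z ∈ σ, aa n u' σ z < 0 :=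
    forall₂_congr fun z hz => neg_iff_neg_of_mul_pos (h z hz)
  unfold epsS
  simp only [h1, h2]

/-- Changing the signs of the diagonal vectors. -/
noncomputable def twist_ph (η : Y → ℤˣ) (x : Y → Y → Fin n → ℝ) (b c : Y) : Fin n → ℝ :=
  (if c = b then ((η b : ℤ) : ℝ) else 1) • x b c

omit [Fintype Y] in
lemma twist_GP2_ph {D : Fan n Y} {x : Y → Y → Fin n → ℝ} (hx : D.GP2 x) (η : Y → ℤˣ) :
    D.GP2 (twist_ph η x) := by
  intro σ hσ hc a ha f hf hm
  have h1 : (Matrix.of fun i => D.T a (f i).1 *ᵥ twist_ph η x (f i).1 (f i).2) =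
      Matrix.of fun i j => (if (f i).2 = (f i).1 then ((η (f i).1 : ℤ) : ℝ) else 1) *
        (Matrix.of fun i => D.T a (f i).1 *ᵥ x (f i).1 (f i).2) i j := by
    ext i j
    simp only [twist_ph, mulVec_smul, of_apply, Pi.smul_apply, smul_eq_mul]
  rw [h1, det_mul_column]
  refine mul_ne_zero (prod_ne_zero_iff.2 fun i _ => ?_) (hx σ hσ hc a ha f hf hm)
  split_ifs
  · simp
  · simp

omit [Fintype Y] in
lemma twist_corner_ph (D : Fan n Y) (w : Y → Fin n → ℝ) (η : Y → ℤˣ) (y : Y) :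
    twist_ph η (fun b => D.corner b (w b)) y = D.corner y (((η y : ℤ) : ℝ) • w y) := by
  funext j
  unfold twist_ph Fan.corner
  by_cases h : j = y <;> simp [h]

theorem poincare_hopf (hn : 2 ≤ n) (he : Even n) (D : Fan n Y) (hD : D.Det1) {o : Finset Y → ℝ}
    (ho : D.IsOri o) {bs : Finset Y → Y} (hbs : ∀ S : Finset Y, S.Nonempty → bs S ∈ S) :
    ∃ v : Y → Fin n → ℝ, D.GP v ∧
      ∑ σ ∈ tops D.K n, o σ * (SignType.sign (∏ y ∈ σ, aa n (D.vv v (bs σ)) σ y) : ℝ) =
        2 ^ n * (chi D.K n : ℝ) := by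
  choose w hw using D.exists_gen
  have hwη : ∀ (η : Y → ℤˣ) (a : Y), Gen D.K n (D.pos a) a (((η a : ℤ) : ℝ) • w a) := by
    intro η a
    rcases Int.units_eq_one_or (η a) with e | e
    · rw [e]; simpa using hw a
    · rw [e]; simpa using (hw a).neg
  have hbs' : ∀ σ : Finset Y, σ.card = n + 1 → bs σ ∈ σ :=
    fun σ hc => hbs σ (card_pos.1 (by omega))
  set x0 : Y → Y → Fin n → ℝ := fun b => D.corner b (w b) with hx0
  have hA : ∀ᶠ x in 𝓝 x0, ∀ σ : Finset Y, σ ∈ D.K → σ.card = n + 1 →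
      ∃ l : (Fin n → ℝ) →ₗ[ℝ] ℝ, ∀ b ∈ σ, ∀ c ∈ σ, b ≠ c → 0 < l (D.T (bs σ) b *ᵥ x b c) := by
    refine eventually_all.2 fun σ => ?_
    by_cases hσ : σ ∈ D.K ∧ σ.card = n + 1
    · obtain ⟨l, hl⟩ := D.exists_rank hσ.1 hσ.2 (hbs' σ hσ.2)
      have : ∀ᶠ x in 𝓝 x0, ∀ b c : Y, b ∈ σ → c ∈ σ → b ≠ c →
          0 < l (D.T (bs σ) b *ᵥ x b c) := by
        refine eventually_all.2 fun b => eventually_all.2 fun c => ?_
        by_cases hbc : b ∈ σ ∧ c ∈ σ ∧ b ≠ c
        · have hcont : Continuous fun x : Y → Y → Fin n → ℝ => l (D.T (bs σ) b *ᵥ x b c) :=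
            l.continuous_of_finiteDimensional.comp
              (continuous_const.matrix_mulVec ((continuous_apply c).comp (continuous_apply b)))
          have h0 : 0 < l (D.T (bs σ) b *ᵥ x0 b c) := by
            simp only [hx0, Fan.corner]
            rw [if_neg hbc.2.2.symm]
            rcases lt_or_gt_of_ne hbc.2.2 with h | h
            · rw [if_pos h]
              exact (hl b hbc.1 c hbc.2.1 h).1
            · rw [if_neg (not_lt.2 h.le), mulVec_neg, map_neg]
              exact neg_pos.2 (hl c hbc.2.1 b hbc.1 h).2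
          exact (hcont.continuousAt.eventually (lt_mem_nhds h0)).mono fun x hx _ _ _ => hx
        · exact Eventually.of_forall fun x h1 h2 h3 => absurd ⟨h1, h2, h3⟩ hbc
      exact this.mono fun x hx _ _ => ⟨l, fun b hb c hc hbc => hx b c hb hc hbc⟩
    · exact Eventually.of_forall fun x h1 h2 => absurd ⟨h1, h2⟩ hσ
  have hB : ∀ᶠ x in 𝓝 x0, ∀ (η : Y → ℤˣ) (σ : Finset Y) (y z : Y), σ ∈ D.K → σ.card = n + 1 →
      y ∈ σ → z ∈ σ → 0 < aa n (twist_ph η x y) σ z * aa n (twist_ph η x0 y) σ z := by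
    refine eventually_all.2 fun η => eventually_all.2 fun σ => eventually_all.2 fun y =>
      eventually_all.2 fun z => ?_
    by_cases h : σ ∈ D.K ∧ σ.card = n + 1 ∧ y ∈ σ ∧ z ∈ σ
    · have hcont : Continuous fun x : Y → Y → Fin n → ℝ =>
          aa n (twist_ph η x y) σ z * aa n (twist_ph η x0 y) σ z := by
        refine (continuous_aa_ph (fun j => ?_) σ z).mul continuous_const
        unfold twist_ph
        have hj : Continuous fun x : Y → Y → Fin n → ℝ => x y j :=
          (continuous_apply j).comp (continuous_apply y)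
        exact hj.const_smul (if j = y then ((η y : ℤ) : ℝ) else 1)
      have h0 : 0 < aa n (twist_ph η x0 y) σ z * aa n (twist_ph η x0 y) σ z := by
        refine mul_self_pos.2 ?_
        rw [hx0, twist_corner_ph]
        exact corner_aa_ne D (hwη η y) h.1 h.2.1 h.2.2.1 z h.2.2.2
      exact (hcont.continuousAt.eventually (lt_mem_nhds h0)).mono fun x hx _ _ _ _ => hx
    · exact Eventually.of_forall fun x h1 h2 h3 h4 => absurd ⟨h1, h2, h3, h4⟩ h
  obtain ⟨x, hx, hxA, hxB⟩ := D.dense_GP2.inter_nhds_nonempty (hA.and hB)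
  have hGP : D.GP fun y => x y y := by
    intro σ hσ hc a ha y hy
    have h' : (σ.erase y).card = n := by rw [card_erase_of_mem hy, hc]; rfl
    unfold aa detS
    rw [dif_pos h']
    refine mul_ne_zero ?_ ?_
    · rcases sgn_eq_or y σ with e | e <;> rw [e] <;> simp
    · refine hx σ hσ hc a ha
        (fun i => ((σ.erase y).orderEmbOfFin h' i, (σ.erase y).orderEmbOfFin h' i)) ?_ ?_
      · intro i j hij
        exact ((σ.erase y).orderEmbOfFin h').injective (congrArg Prod.fst hij)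
      · intro i
        have := mem_of_mem_erase (orderEmbOfFin_mem (σ.erase y) h' i)
        exact ⟨this, this⟩
  refine ⟨fun y => x y y, hGP, ?_⟩
  have hη : ∀ η : Y → ℤˣ, ∑ σ ∈ tops D.K n,
      o σ * epsS n (fun y => ((η y : ℤ) : ℝ) • D.vv (fun y => x y y) (bs σ) y) σ =
        (chi D.K n : ℝ) := by
    intro η
    have h1 := ph_chain hn D hD (D.cyc (by omega) ho) hbs (twist_GP2_ph hx η) (by
      intro σ hσ hc
      obtain ⟨l, hl⟩ := hxA σ hσ hc
      refine ⟨l, fun b hb c hc hbc => ?_⟩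
      unfold twist_ph
      rw [if_neg hbc.symm, one_smul]
      exact hl b hb c hc hbc)
    rw [← ph_sum D ho (hwη η)]
    refine Eq.trans ?_ (h1.trans ?_)
    · refine sum_congr rfl fun σ _ => ?_
      congr 2
      funext y
      simp [Fan.vv, twist_ph, mulVec_smul]
    · refine sum_congr rfl fun σ hσ => ?_
      congr 1
      refine sum_congr rfl fun y hy => ?_
      rw [← twist_corner_ph]
      exact epsS_congr_ph fun z hz => hxB η σ y z (mem_tops.1 hσ).1 (mem_tops.1 hσ).2 hy hz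
  have hsum : (2 : ℝ) ^ (Fintype.card Y - n) * ∑ σ ∈ tops D.K n,
      o σ * (SignType.sign (∏ y ∈ σ, aa n (D.vv (fun y => x y y) (bs σ)) σ y) : ℝ) =
        2 ^ Fintype.card Y * (chi D.K n : ℝ) := by
    have h1 : ∑ η : Y → ℤˣ, (chi D.K n : ℝ) = 2 ^ Fintype.card Y * (chi D.K n : ℝ) := by
      simp
    rw [← h1, ← sum_congr rfl fun η _ => hη η, sum_comm, mul_sum]
    refine sum_congr rfl fun σ hσ => ?_
    have hσ' := mem_tops.1 hσ
    rw [← mul_sum, sum_signs he _ hσ'.2 (hGP σ hσ'.1 hσ'.2 _ (hbs' σ hσ'.2))]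
    ring
  by_cases hle : n ≤ Fintype.card Y
  · have h2 : (2 : ℝ) ^ Fintype.card Y = 2 ^ (Fintype.card Y - n) * 2 ^ n := by
      rw [← pow_add, Nat.sub_add_cancel hle]
    rw [h2, mul_assoc] at hsum
    exact mul_left_cancel₀ (by positivity) hsum
  · have h0 : tops D.K n = ∅ := by
      refine eq_empty_of_forall_notMem fun σ hσ => hle ?_
      have := card_le_univ σ
      rw [(mem_tops.1 hσ).2] at this
      omega
    rw [h0, sum_empty, mul_zero] at hsum
    have h3 : (chi D.K n : ℝ) = 0 := by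
      rcases mul_eq_zero.1 hsum.symm with h | h
      · exact absurd h (by positivity)
      · exact h
    rw [h0, sum_empty, h3, mul_zero]

end Pool.Agent.Work.MP_dd0bbc_gt
end
end

-- merged part: Pool.Agent.Work.MP_dd0bbc_gt.Weights
section
/-! Choice of weights avoiding all near-degenerate configurations. -/

set_option autoImplicit false

namespace Pool.Agent.Work.MP_dd0bbc_gt

open Finset
open scoped RealInnerProductSpace

theorem wll_sum_update {Y : Type} [Fintype Y] [DecidableEq Y] (q : ℕ) (y : Y)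
    (B : (Y → Fin q) → Prop) [DecidablePred B] :
    ∑ t : Fin q, (univ.filter (fun w : Y → Fin q => B (Function.update w y t))).card
      = q * (univ.filter B).card := by
  classical
  have h1 : ∑ t : Fin q, (univ.filter (fun w : Y → Fin q => B (Function.update w y t))).card
      = (univ.filter (fun p : Fin q × (Y → Fin q) => B (Function.update p.2 y p.1))).card := by
    simp only [card_filter]
    rw [Fintype.sum_prod_type]
  have h2 : (univ.filter (fun p : Fin q × (Y → Fin q) => B p.2)).card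
      = q * (univ.filter B).card := by
    simp only [card_filter]
    rw [Fintype.sum_prod_type]
    simp
  rw [h1, ← h2]
  refine card_bij' (fun p _ => (p.2 y, Function.update p.2 y p.1))
    (fun p _ => (p.2 y, Function.update p.2 y p.1)) ?_ ?_ ?_ ?_
  · intro p hp
    simpa using hp
  · intro p hp
    simpa using hp
  · intro p _
    simp
  · intro p _
    simp

/-- A weak form of the local lemma. -/
theorem weak_local_lemma {Y E : Type} [Fintype Y] [DecidableEq Y] [Fintype E] (q C r : ℕ)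
    (supp : E → Finset Y) (bad : E → (Y → Fin q) → Prop)
    (hr : ∀ e, (supp e).card ≤ r)
    (hdep : ∀ e w w', (∀ y ∈ supp e, w y = w' y) → bad e w → bad e w')
    (hone : ∀ e, ∃ i ∈ supp e, ∀ w w', (∀ y, y ≠ i → w y = w' y) → bad e w → bad e w' → w = w')
    (hdeg : ∀ y, (univ.filter (fun e => y ∈ supp e)).card ≤ C) (hq : (C + 1) ^ r < q) :
    ∃ w, ∀ e, ¬bad e w := by
  classical
  have hq0 : 0 < q := lt_of_le_of_lt (Nat.zero_le _) hq
  set Q := Fintype.card (Y → Fin q) with hQ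
  have key : ∀ A : Finset Y, ∃ w0 : Y → Fin q, ∀ e,
      (univ.filter (fun w : Y → Fin q => bad e (A.piecewise w0 w))).card * q
        ≤ (C + 1) ^ (supp e ∩ A).card * Q := by
    intro A
    induction A using Finset.induction_on with
    | empty =>
      refine ⟨fun _ => ⟨0, hq0⟩, fun e => ?_⟩
      obtain ⟨i, -, hi⟩ := hone e
      simp only [piecewise_empty, inter_empty, card_empty, pow_zero, one_mul]
      have : ((univ.filter (fun w : Y → Fin q => bad e w)) ×ˢ (univ : Finset (Fin q))).card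
          ≤ (univ : Finset (Y → Fin q)).card := by
        refine card_le_card_of_injOn (fun p => Function.update p.1 i p.2) (fun _ _ => by simp) ?_
        rintro ⟨w, t⟩ hw ⟨w', t'⟩ hw' h
        simp only [coe_product, coe_filter, mem_univ, true_and, coe_univ, Set.mem_prod,
          Set.mem_ofPred_eq, Set.mem_univ, and_true] at hw hw'
        have h1 : t = t' := by simpa using congrFun h i
        have h2 : w = w' := hi w w' (fun y hy => by
          simpa [Function.update_of_ne hy] using congrFun h y) hw hw'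
        rw [h1, h2]
      simpa [card_product, hQ] using this
    | insert y A hy ih =>
      obtain ⟨w0, hw0⟩ := ih
      have hpw : ∀ (t : Fin q) (w : Y → Fin q),
          (insert y A).piecewise (Function.update w0 y t) w
            = A.piecewise w0 (Function.update w y t) := by
        intro t w
        funext x
        by_cases hx : x = y
        · subst hx
          simp [piecewise, hy]
        · by_cases hA : x ∈ A
          · simp [piecewise, hA, hx]
          · simp [piecewise, hA, hx]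
      set Nn : E → ℕ := fun e =>
        (univ.filter (fun w : Y → Fin q => bad e (A.piecewise w0 w))).card with hNn
      set Nt : E → Fin q → ℕ := fun e t =>
        (univ.filter (fun w : Y → Fin q =>
          bad e (A.piecewise w0 (Function.update w y t)))).card with hNt
      have hsum : ∀ e, ∑ t, Nt e t = q * Nn e := fun e =>
        wll_sum_update q y (fun w => bad e (A.piecewise w0 w))
      have hm : ∀ e, (univ.filter (fun t => (C + 1) * Nn e < Nt e t)).card * (C + 1) < q := by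
        intro e
        set S := univ.filter (fun t => (C + 1) * Nn e < Nt e t) with hS
        rcases S.eq_empty_or_nonempty with h0 | h0
        · simp [h0, hq0]
        · have h1 : ∑ _t ∈ S, (C + 1) * Nn e < ∑ t ∈ S, Nt e t :=
            sum_lt_sum_of_nonempty h0 (fun t ht => (mem_filter.1 ht).2)
          have h2 : ∑ t ∈ S, Nt e t ≤ ∑ t, Nt e t :=
            sum_le_sum_of_subset (subset_univ _)
          rw [sum_const, smul_eq_mul] at h1
          have h3 : S.card * (C + 1) * Nn e < q * Nn e := by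
            rw [mul_assoc, ← hsum e]; omega
          exact lt_of_mul_lt_mul_right h3 (Nat.zero_le _)
      set Bad := (univ.filter (fun e => y ∈ supp e)).biUnion
        (fun e => univ.filter (fun t => (C + 1) * Nn e < Nt e t)) with hBad
      have hB : Bad.card < q := by
        have h1 : Bad.card ≤ ∑ e ∈ univ.filter (fun e => y ∈ supp e),
            (univ.filter (fun t => (C + 1) * Nn e < Nt e t)).card := card_biUnion_le
        have h2 : (∑ e ∈ univ.filter (fun e => y ∈ supp e),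
            (univ.filter (fun t => (C + 1) * Nn e < Nt e t)).card) * (C + 1)
              ≤ ∑ _e ∈ univ.filter (fun e => y ∈ supp e), q := by
          rw [sum_mul]
          exact sum_le_sum (fun e _ => (hm e).le)
        rw [sum_const, smul_eq_mul] at h2
        have h3 := Nat.mul_le_mul_right q (hdeg y)
        have h4 : Bad.card * (C + 1) ≤ C * q :=
          (Nat.mul_le_mul_right _ h1).trans (h2.trans h3)
        by_contra h5
        push Not at h5
        have h6 := Nat.mul_le_mul_right (C + 1) h5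
        nlinarith
      obtain ⟨t, ht⟩ : ∃ t : Fin q, t ∉ Bad := by
        by_contra h
        push Not at h
        have : (univ : Finset (Fin q)).card ≤ Bad.card := card_le_card (fun t _ => h t)
        simp at this
        omega
      refine ⟨Function.update w0 y t, fun e => ?_⟩
      simp only [hpw]
      change Nt e t * q ≤ _
      by_cases he : y ∈ supp e
      · have h1 : Nt e t ≤ (C + 1) * Nn e := by
          by_contra h
          push Not at h
          exact ht (mem_biUnion.2 ⟨e, by simp [he], by simp [h]⟩)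
        have h2 : (supp e ∩ insert y A).card = (supp e ∩ A).card + 1 := by
          rw [inter_insert_of_mem he, card_insert_of_notMem (by simp [hy])]
        rw [h2, pow_succ]
        have h3 := hw0 e
        change Nn e * q ≤ _ at h3
        calc Nt e t * q ≤ (C + 1) * Nn e * q := Nat.mul_le_mul_right _ h1
          _ = (C + 1) * (Nn e * q) := by ring
          _ ≤ (C + 1) * ((C + 1) ^ (supp e ∩ A).card * Q) := Nat.mul_le_mul_left _ h3
          _ = _ := by ring
      · have h1 : Nt e t = Nn e := by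
          simp only [hNt, hNn]
          congr 1
          refine filter_congr (fun w _ => ?_)
          have h2 : ∀ x ∈ supp e, A.piecewise w0 (Function.update w y t) x
              = A.piecewise w0 w x := by
            intro x hx
            have hxy : x ≠ y := fun h => he (h ▸ hx)
            by_cases hA : x ∈ A
            · simp [piecewise, hA]
            · simp [piecewise, hA, hxy]
          exact ⟨hdep e _ _ h2, hdep e _ _ (fun x hx => (h2 x hx).symm)⟩
        rw [h1, inter_insert_of_notMem he]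
        exact hw0 e
  obtain ⟨w0, hw0⟩ := key univ
  refine ⟨w0, fun e he => ?_⟩
  have h1 := hw0 e
  have h2 : (univ.filter (fun w : Y → Fin q => bad e ((univ : Finset Y).piecewise w0 w))).card
      = Q := by
    rw [filter_true_of_mem (fun w _ => by simpa using he)]
    simp [hQ]
  rw [h2, inter_univ] at h1
  have hQ0 : 0 < Q := by
    have : Nonempty (Y → Fin q) := ⟨w0⟩
    exact Fintype.card_pos
  have h3 : (C + 1) ^ (supp e).card ≤ (C + 1) ^ r := Nat.pow_le_pow_right (by omega) (hr e)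
  have h4 : Q * q ≤ Q * (C + 1) ^ r := by
    calc Q * q ≤ (C + 1) ^ (supp e).card * Q := h1
      _ ≤ (C + 1) ^ r * Q := Nat.mul_le_mul_right _ h3
      _ = _ := mul_comm _ _
  have := Nat.le_of_mul_le_mul_left h4 hQ0
  omega

theorem sep_bound {W : Type} [PseudoMetricSpace W] {K : Set W} (hK : TotallyBounded K) {ε : ℝ}
    (hε : 0 < ε) : ∃ P : ℕ, ∀ (ι : Type) (s : Finset ι) (f : ι → W), (∀ i ∈ s, f i ∈ K) →
      (∀ i ∈ s, ∀ j ∈ s, i ≠ j → ε ≤ dist (f i) (f j)) → s.card ≤ P := by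
  classical
  obtain ⟨t, ht, hc⟩ := Metric.totallyBounded_iff.1 hK (ε / 2) (by positivity)
  refine ⟨ht.toFinset.card, fun ι s f hf hs => ?_⟩
  have h1 : ∀ i : ι, ∃ c : W, i ∈ s → c ∈ t ∧ dist (f i) c < ε / 2 := by
    intro i
    by_cases hi : i ∈ s
    · have := hc (hf i hi)
      simp only [Set.mem_iUnion, Metric.mem_ball, exists_prop] at this
      obtain ⟨c, h1, h2⟩ := this
      exact ⟨c, fun _ => ⟨h1, h2⟩⟩
    · exact ⟨f i, fun h => absurd h hi⟩
  choose c hcc using h1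
  refine card_le_card_of_injOn c (fun i hi => by simpa using (hcc i hi).1) ?_
  intro i hi j hj hij
  by_contra hne
  have h2 := hs i hi j hj hne
  have h3 := (hcc i hi).2
  have h4 := (hcc j hj).2
  rw [← hij] at h4
  have h5 := dist_triangle_right (f i) (f j) (c i)
  linarith

theorem packing_fun (N : ℕ) : ∃ P : ℕ, ∀ (ε : ℝ), 0 < ε → ∀ (ι : Type) (s : Finset ι)
    (f : ι → EuclideanSpace ℝ (Fin N)) (x : EuclideanSpace ℝ (Fin N)),
      (∀ a ∈ s, dist (f a) x < 6 * ε) →
      (∀ a ∈ s, ∀ b ∈ s, a ≠ b → ε ≤ dist (f a) (f b)) → s.card ≤ P := by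
  obtain ⟨P, hP⟩ := sep_bound
    (isCompact_closedBall (0 : EuclideanSpace ℝ (Fin N)) 6).totallyBounded one_pos
  refine ⟨P, fun ε hε ι s f x h1 h2 => hP ι s (fun a => ε⁻¹ • (f a - x)) ?_ ?_⟩
  · intro a ha
    have h3 := h1 a ha
    rw [dist_eq_norm] at h3
    rw [mem_closedBall_zero_iff, norm_smul, Real.norm_eq_abs, abs_of_pos (inv_pos.2 hε),
      inv_mul_le_iff₀ hε]
    linarith
  · intro a ha b hb hab
    have h3 := h2 a ha b hb hab
    rw [dist_eq_norm] at h3
    rw [dist_eq_norm, ← smul_sub, sub_sub_sub_cancel_right, norm_smul, Real.norm_eq_abs,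
      abs_of_pos (inv_pos.2 hε), le_inv_mul_iff₀ hε]
    linarith

theorem packing (N : ℕ) : ∃ P : ℕ, ∀ (ε : ℝ), 0 < ε → ∀ (s : Finset (EuclideanSpace ℝ (Fin N)))
    (x : EuclideanSpace ℝ (Fin N)), (∀ a ∈ s, dist a x < 6 * ε) →
      (∀ a ∈ s, ∀ b ∈ s, a ≠ b → ε ≤ dist a b) → s.card ≤ P := by
  obtain ⟨P, hP⟩ := packing_fun N
  exact ⟨P, fun ε hε s x h1 h2 => hP ε hε _ s id x h1 h2⟩

theorem exists_net {M W : Type} [TopologicalSpace M] [CompactSpace M] [PseudoMetricSpace W]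
    {e : M → W} (he : Continuous e) {ε : ℝ} (hε : 0 < ε) :
    ∃ (k : ℕ) (s : Fin k → M), (∀ i j, i ≠ j → ε ≤ dist (e (s i)) (e (s j))) ∧
      ∀ z, ∃ i, dist (e z) (e (s i)) < ε := by
  classical
  obtain ⟨P, hP⟩ := sep_bound (isCompact_range he).totallyBounded hε
  let T : ℕ → Prop := fun k => ∃ s : Fin k → M, ∀ i j, i ≠ j → ε ≤ dist (e (s i)) (e (s j))
  have hT : ∀ k, T k → k ≤ P := by
    rintro k ⟨s, hs⟩
    simpa using hP (Fin k) univ (fun i => e (s i)) (fun i _ => ⟨s i, rfl⟩)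
      (fun i _ j _ h => hs i j h)
  have h0 : T 0 := ⟨fun i => i.elim0, fun i => i.elim0⟩
  obtain ⟨s, hs⟩ : T (Nat.findGreatest T P) := Nat.findGreatest_spec (Nat.zero_le P) h0
  refine ⟨_, s, hs, fun z => ?_⟩
  by_contra hz
  push Not at hz
  have h1 : T (Nat.findGreatest T P + 1) := by
    refine ⟨Fin.cons z s, fun i j hij => ?_⟩
    induction i using Fin.cases with
    | zero =>
      induction j using Fin.cases with
      | zero => exact absurd rfl hij
      | succ j => simpa using hz j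
    | succ i =>
      induction j using Fin.cases with
      | zero => simpa [dist_comm] using hz i
      | succ j => simpa using hs i j (fun h => hij (by rw [h]))
  have h2 := Nat.le_findGreatest (hT _ h1) h1
  omega

theorem exists_rel {Y : Type} [Fintype Y] [DecidableEq Y] {n : ℕ} (θ : Finset Y)
    (hθ : θ.card = n + 2) (v : Y → EuclideanSpace ℝ (Fin n)) :
    ∃ l : Y → ℝ, ∑ j ∈ θ, l j = 0 ∧ ∑ j ∈ θ, l j • v j = 0 ∧ (∀ j ∈ θ, |l j| ≤ 1) ∧
      ∃ i ∈ θ, |l i| = 1 := by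
  classical
  have hdep : ¬ LinearIndependent ℝ
      (fun j : θ => (((1 : ℝ), v j) : ℝ × EuclideanSpace ℝ (Fin n))) := by
    intro h
    have := h.fintype_card_le_finrank
    simp [hθ] at this
    omega
  rw [Fintype.not_linearIndependent_iff] at hdep
  obtain ⟨m, hm, i0, hi0⟩ := hdep
  obtain ⟨i, -, hi⟩ := exists_max_image (univ : Finset θ) (fun j => |m j|) ⟨i0, mem_univ _⟩
  have hpos : 0 < |m i| := lt_of_lt_of_le (abs_pos.2 hi0) (hi i0 (mem_univ _))
  have hm1 : ∑ j : θ, m j = 0 := by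
    have := congrArg Prod.fst hm
    simpa [Prod.fst_sum] using this
  have hm2 : ∑ j : θ, m j • v j = 0 := by
    have := congrArg Prod.snd hm
    simpa [Prod.snd_sum] using this
  refine ⟨fun j => if h : j ∈ θ then |m i|⁻¹ * m ⟨j, h⟩ else 0, ?_, ?_, ?_, i, i.2, ?_⟩
  · rw [← sum_coe_sort θ]
    simp only [coe_mem, dif_pos, Subtype.coe_eta]
    rw [← mul_sum, hm1, mul_zero]
  · rw [← sum_coe_sort θ]
    simp only [coe_mem, dif_pos, Subtype.coe_eta, mul_smul]
    rw [← smul_sum, hm2, smul_zero]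
  · intro j hj
    simp only [hj, dif_pos]
    rw [abs_mul, abs_inv, abs_abs, inv_mul_le_iff₀ hpos, mul_one]
    exact hi _ (mem_univ _)
  · simp only [coe_mem, dif_pos, Subtype.coe_eta]
    rw [abs_mul, abs_inv, abs_abs, inv_mul_cancel₀ hpos.ne']

theorem exists_weights (n N : ℕ) : ∃ γ : ℝ, 0 < γ ∧ γ ≤ 1 ∧
    ∀ (Y : Type) [Fintype Y] [DecidableEq Y] (z : Y → EuclideanSpace ℝ (Fin N)) (ε : ℝ), 0 < ε →
      (∀ i j, i ≠ j → ε ≤ dist (z i) (z j)) →
      ∀ (g : Y → Y → EuclideanSpace ℝ (Fin n)) (c : Y → Y → ℝ),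
        ∃ w : Y → ℝ, (∀ y, 0 ≤ w y ∧ w y ≤ ε ^ 2 / 4) ∧
          ∀ (a : Y) (θ : Finset Y), θ.card = n + 2 → (∀ j ∈ θ, dist (z j) (z a) < 6 * ε) →
            ∀ (u : EuclideanSpace ℝ (Fin n)) (μ : ℝ),
              ∃ j ∈ θ, γ * ε ^ 2 < |c a j - w j - ⟪g a j, u⟫ - μ| := by
  classical
  obtain ⟨P, hP⟩ := packing_fun N
  set C := P * 2 ^ P with hC
  set q := (C + 1) ^ (n + 2) + 1 with hq
  have hq0 : (0 : ℝ) < q := by
    have : 0 < q := by omega
    exact_mod_cast this
  set γ : ℝ := 1 / (8 * q * (n + 2) + 1) with hγ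
  have hD : (0 : ℝ) < 8 * q * (n + 2) := by positivity
  have hγ0 : 0 < γ := by positivity
  refine ⟨γ, hγ0, ?_, ?_⟩
  · rw [hγ, div_le_one (by linarith)]
    linarith
  intro Y _ _ z ε hε hz g c
  let E := {p : Y × Finset Y // p.2.card = n + 2 ∧ ∀ j ∈ p.2, dist (z j) (z p.1) < 6 * ε}
  have hl : ∀ e : E, ∃ l : Y → ℝ, ∑ j ∈ e.1.2, l j = 0 ∧ ∑ j ∈ e.1.2, l j • g e.1.1 j = 0 ∧
      (∀ j ∈ e.1.2, |l j| ≤ 1) ∧ ∃ i ∈ e.1.2, |l i| = 1 :=
    fun e => exists_rel e.1.2 e.2.1 (g e.1.1)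
  choose l hl1 hl2 hl3 hl4 using hl
  let wt : (Y → Fin q) → Y → ℝ := fun k y => ε ^ 2 * ((k y : ℕ) : ℝ) / (4 * q)
  let near : Y → Finset Y := fun y => univ.filter (fun a => dist (z a) (z y) < 6 * ε)
  have hnear : ∀ y, (near y).card ≤ P := fun y =>
    hP ε hε Y (near y) z (z y) (fun a ha => (mem_filter.1 ha).2) (fun a _ b _ h => hz a b h)
  obtain ⟨k, hk⟩ := weak_local_lemma (Y := Y) (E := E) q C (n + 2) (fun e => e.1.2)
    (fun e k => |∑ j ∈ e.1.2, l e j * (c e.1.1 j - wt k j)| ≤ (n + 2) * (γ * ε ^ 2))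
    (fun e => e.2.1.le)
    (fun e k k' h hb => by
      have : ∑ j ∈ e.1.2, l e j * (c e.1.1 j - wt k' j)
          = ∑ j ∈ e.1.2, l e j * (c e.1.1 j - wt k j) :=
        sum_congr rfl (fun j hj => by simp only [wt, h j hj])
      rw [this]; exact hb)
    (fun e => by
      obtain ⟨i, hi, hi1⟩ := hl4 e
      refine ⟨i, hi, fun k k' h hb hb' => ?_⟩
      have h1 : ∑ j ∈ e.1.2, l e j * (c e.1.1 j - wt k j)
          - ∑ j ∈ e.1.2, l e j * (c e.1.1 j - wt k' j) = l e i * (wt k' i - wt k i) := by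
        rw [← sum_sub_distrib, sum_eq_single_of_mem i hi]
        · ring
        · intro j _ hj
          simp only [wt, h j hj, sub_self]
      have h2 : |l e i * (wt k' i - wt k i)| ≤ 2 * ((n + 2) * (γ * ε ^ 2)) := by
        rw [← h1]
        refine (abs_sub _ _).trans ?_
        linarith
      have h3 : wt k' i - wt k i = ε ^ 2 / (4 * q) * (((k' i : ℕ) : ℝ) - ((k i : ℕ) : ℝ)) := by
        simp only [wt]; ring
      rw [abs_mul, hi1, one_mul, h3, abs_mul, abs_of_pos (by positivity)] at h2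
      have h4 : |((k' i : ℕ) : ℝ) - ((k i : ℕ) : ℝ)| ≤ 8 * q * (n + 2) * γ := by
        have h5 : ε ^ 2 / (4 * q) * |((k' i : ℕ) : ℝ) - ((k i : ℕ) : ℝ)|
            ≤ ε ^ 2 / (4 * q) * (8 * q * (n + 2) * γ) := by
          refine h2.trans (le_of_eq ?_)
          field_simp
          ring
        exact le_of_mul_le_mul_left h5 (by positivity)
      have h6 : 8 * q * (n + 2) * γ < (1 : ℝ) := by
        rw [hγ, mul_one_div, div_lt_one (by linarith)]
        linarith
      have h7 : (k' i : ℕ) = (k i : ℕ) := by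
        have h8 := abs_lt.1 (lt_of_le_of_lt h4 h6)
        have h9 : ((k' i : ℕ) : ℝ) < (k i : ℕ) + 1 := by linarith [h8.2]
        have h10 : ((k i : ℕ) : ℝ) < (k' i : ℕ) + 1 := by linarith [h8.1]
        have h11 : (k' i : ℕ) < (k i : ℕ) + 1 := by exact_mod_cast h9
        have h12 : (k i : ℕ) < (k' i : ℕ) + 1 := by exact_mod_cast h10
        omega
      funext y
      by_cases hy : y = i
      · rw [hy]; exact (Fin.ext h7).symm
      · exact h y hy)
    (fun y => by
      have h1 : (univ.filter (fun e : E => y ∈ e.1.2)).card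
          ≤ ((near y).sigma (fun a => (near a).powerset)).card := by
        refine card_le_card_of_injOn (fun e => ⟨e.1.1, e.1.2⟩) ?_ ?_
        · intro e he
          have he' : y ∈ e.1.2 := by simpa using he
          simp only [coe_sigma, Set.mem_sigma_iff, mem_coe, mem_powerset, near, mem_filter,
            mem_univ, true_and]
          refine ⟨?_, fun j hj => mem_filter.2 ⟨mem_univ _, e.2.2 j hj⟩⟩
          rw [dist_comm]; exact e.2.2 y he'
        · intro e _ e' _ h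
          simp only [Sigma.mk.injEq, heq_eq_eq] at h
          exact Subtype.ext (Prod.ext h.1 h.2)
      refine h1.trans ?_
      rw [card_sigma]
      calc ∑ a ∈ near y, (near a).powerset.card ≤ ∑ _a ∈ near y, 2 ^ P :=
            sum_le_sum (fun a _ => by
              rw [card_powerset]; exact Nat.pow_le_pow_right (by norm_num) (hnear a))
        _ = (near y).card * 2 ^ P := by rw [sum_const, smul_eq_mul]
        _ ≤ C := Nat.mul_le_mul_right _ (hnear y))
    (by omega)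
  refine ⟨wt k, fun y => ⟨by positivity, ?_⟩, fun a θ h1 h2 u μ => ?_⟩
  · have h1 : ((k y : ℕ) : ℝ) ≤ q := by exact_mod_cast (k y).2.le
    simp only [wt]
    rw [div_le_div_iff₀ (by positivity) (by norm_num)]
    have : 0 ≤ ε ^ 2 := by positivity
    nlinarith
  · by_contra hc
    push Not at hc
    let e : E := ⟨(a, θ), h1, h2⟩
    apply hk e
    have h3 : ∑ j ∈ θ, l e j * (c a j - wt k j)
        = ∑ j ∈ θ, l e j * (c a j - wt k j - ⟪g a j, u⟫ - μ) := by
      have h4 : ∑ j ∈ θ, l e j * ⟪g a j, u⟫ = 0 := by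
        have h5 : ⟪∑ j ∈ θ, l e j • g a j, u⟫ = 0 := by
          have := hl2 e
          change ∑ j ∈ θ, l e j • g a j = 0 at this
          rw [this, inner_zero_left]
        rw [sum_inner] at h5
        simpa [real_inner_smul_left] using h5
      have h6 : ∑ j ∈ θ, l e j * μ = 0 := by
        have := hl1 e
        change ∑ j ∈ θ, l e j = 0 at this
        rw [← sum_mul, this, zero_mul]
      simp only [mul_sub (l e _) (_ - _ - _) μ, mul_sub (l e _) (_ - _) ⟪_, u⟫, sum_sub_distrib]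
      rw [h4, h6]; ring
    change |∑ j ∈ θ, l e j * (c a j - wt k j)| ≤ (n + 2) * (γ * ε ^ 2)
    rw [h3]
    refine (abs_sum_le_sum_abs _ _).trans ?_
    calc ∑ j ∈ θ, |l e j * (c a j - wt k j - ⟪g a j, u⟫ - μ)| ≤ ∑ _j ∈ θ, γ * ε ^ 2 := by
          refine sum_le_sum (fun j hj => ?_)
          rw [abs_mul]
          have h7 := hl3 e j hj
          have h8 := hc j hj
          calc _ ≤ 1 * (γ * ε ^ 2) := mul_le_mul h7 h8 (abs_nonneg _) zero_le_one
            _ = _ := one_mul _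
      _ = (n + 2) * (γ * ε ^ 2) := by
          rw [sum_const, h1, nsmul_eq_mul]; push_cast; ring

end Pool.Agent.Work.MP_dd0bbc_gt
end
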